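import Mathlib

/-!
# Algebraic recurrence: internal definitions and generic lemmas
-/

set_option autoImplicit false

open MeasureTheory Filter Topology

namespace Q293.AR

/-- `μ` is symmetric, and its support generates the group. -/
def Admissible {G : Type} [Group G] (μ : PMF G) : Prop :=
  (∀ g : G, μ g⁻¹ = μ g) ∧ Subgroup.closure μ.support = ⊤

/-- The law of the i.i.d. steps `ω 0, ω 1, ...` with law `μ`. -/
noncomputable def steps {G : Type} [MeasurableSpace G] (μ : PMF G) : Measure (ℕ → G) :=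
  Measure.infinitePi (fun _ : ℕ => μ.toMeasure)

/-- The walk: `walk ω m = ω 0 * ω 1 * ... * ω (m - 1)`. -/
def walk {G : Type} [Group G] (ω : ℕ → G) (m : ℕ) : G := ((List.range m).map ω).prod

/-- The semigroup generated by `walk ω n, walk ω (n + 1), ...`. -/
def tail {G : Type} [Group G] (ω : ℕ → G) (n : ℕ) : Subsemigroup G :=
  Subsemigroup.closure {g | ∃ m, n ≤ m ∧ g = walk ω m}

lemma walk_zero {G : Type} [Group G] (ω : ℕ → G) : walk ω 0 = 1 := rfl

lemma walk_succ {G : Type} [Group G] (ω : ℕ → G) (k : ℕ) : walk ω (k + 1) = walk ω k * ω k := by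
  simp [walk, List.range_succ]

lemma walk_hom {G K : Type} [Group G] [Group K] (φ : G →* K) (ω : ℕ → G) (k : ℕ) :
    φ (walk ω k) = walk (fun i => φ (ω i)) k := by
  induction k with
  | zero => simp [walk_zero]
  | succ k ih => rw [walk_succ, walk_succ, map_mul, ih]

lemma tail_hom {G K : Type} [Group G] [Group K] (φ : G →* K) (ω : ℕ → G) (n : ℕ) (g : G)
    (hg : g ∈ tail ω n) : φ g ∈ tail (fun i => φ (ω i)) n := by
  have hle : tail ω n ≤ (tail (fun i => φ (ω i)) n).comap φ.toMulHom := by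
    unfold tail
    rw [Subsemigroup.closure_le]
    rintro _ ⟨m, hm, rfl⟩
    show φ (walk ω m) ∈ tail (fun i => φ (ω i)) n
    rw [walk_hom]
    exact Subsemigroup.subset_closure ⟨m, hm, rfl⟩
  exact hle hg

instance {G : Type} [MeasurableSpace G] (μ : PMF G) : IsProbabilityMeasure (steps μ) := by
  unfold steps; infer_instance

lemma steps_map {G K : Type} [MeasurableSpace G] [DiscreteMeasurableSpace G]
    [MeasurableSpace K] [DiscreteMeasurableSpace K] (φ : G → K) (μ : PMF G) :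
    (steps μ).map (fun ω i => φ (ω i)) = steps (μ.map φ) := by
  unfold steps
  rw [Measure.infinitePi_map_pi (μ := fun _ : ℕ => μ.toMeasure) (f := fun _ : ℕ => φ)
    (fun _ => Measurable.of_discrete)]
  congr 1
  funext i
  rw [PMF.toMeasure_map φ μ Measurable.of_discrete]

lemma not_one_of_map {G K : Type} [Group G] [Group K] [MeasurableSpace G]
    [DiscreteMeasurableSpace G] [MeasurableSpace K] [DiscreteMeasurableSpace K] (φ : G →* K)
    (μ : PMF G)
    (h : ∀ᵐ ω ∂(steps (μ.map φ)), ∃ n : ℕ, 1 ≤ n ∧ (1 : K) ∉ tail ω n) :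
    ∀ᵐ ω ∂(steps μ), ∃ n : ℕ, 1 ≤ n ∧ (1 : G) ∉ tail ω n := by
  rw [← steps_map] at h
  have h2 := ae_of_ae_map (measurable_pi_lambda _ fun i =>
    (Measurable.of_discrete (f := φ)).comp (measurable_pi_apply i)).aemeasurable h
  filter_upwards [h2] with ω hω
  obtain ⟨n, hn, h1⟩ := hω
  refine ⟨n, hn, fun h3 => h1 ?_⟩
  have := tail_hom φ ω n 1 h3
  rwa [map_one] at this

lemma pos_of_ae {G : Type} [Group G] [MeasurableSpace G] (μ : PMF G)
    (hs : ∀ᵐ ω ∂(steps μ), ∃ n : ℕ, 1 ≤ n ∧ (1 : G) ∉ tail ω n) :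
    ∃ n : ℕ, 1 ≤ n ∧ 0 < steps μ {ω | tail ω n ≠ ⊤} := by
  by_contra hcon
  push Not at hcon
  have h1 : ∀ᵐ ω ∂(steps μ), ∀ n : ℕ, 1 ≤ n → tail ω n = ⊤ := by
    rw [ae_all_iff]
    intro n
    by_cases hn : 1 ≤ n
    · have h2 := nonpos_iff_eq_zero.1 (hcon n hn)
      have h3 : ∀ᵐ ω ∂(steps μ), tail ω n = ⊤ := by
        rw [ae_iff]; exact h2
      filter_upwards [h3] with ω hω _ using hω
    · exact Filter.Eventually.of_forall fun ω hn' => absurd hn' hn
  have h2 : ∀ᵐ ω ∂(steps μ), False := by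
    filter_upwards [h1, hs] with ω hω1 hω2
    obtain ⟨n, hn, hω3⟩ := hω2
    rw [hω1 n hn] at hω3
    exact hω3 (Subsemigroup.mem_top _)
  rw [ae_iff] at h2
  simp at h2

end Q293.AR
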