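import Pool.Agent.Q293.ARDefs

/-!
# Lifting symmetric generating measures through a quotient map
-/

set_option autoImplicit false

open MeasureTheory Filter Topology

namespace Q293.AR

section Lift

variable {G K : Type} [Group G] [Group K] [Countable G]

open Classical in
/-- a symmetric positive summable weight -/
noncomputable def wt (x : G) : ENNReal :=
  let _ := Encodable.ofCountable G
  (2 : ENNReal)⁻¹ ^ (Encodable.encode x) + (2 : ENNReal)⁻¹ ^ (Encodable.encode x⁻¹)

lemma wt_inv (x : G) : wt x⁻¹ = wt x := by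
  unfold wt
  simp only [inv_inv]
  rw [add_comm]

lemma wt_pos (x : G) : wt x ≠ 0 := by
  unfold wt
  have h : ∀ n : ℕ, (2 : ENNReal)⁻¹ ^ n ≠ 0 := fun n =>
    pow_ne_zero _ (ENNReal.inv_ne_zero.2 ENNReal.ofNat_ne_top)
  intro h0
  rw [add_eq_zero] at h0
  exact h _ h0.1

lemma wt_sum : ∑' x : G, wt x ≠ ⊤ := by
  let _ := Encodable.ofCountable G
  have h1 : ∑' x : G, (2 : ENNReal)⁻¹ ^ (Encodable.encode x) ≤ 2 := by
    have h2 : ∑' n : ℕ, (2 : ENNReal)⁻¹ ^ n = 2 := by
      rw [ENNReal.tsum_geometric, ENNReal.one_sub_inv_two, inv_inv]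
    refine le_trans ?_ (le_of_eq h2)
    exact ENNReal.tsum_comp_le_tsum_of_injective (Encodable.encode_injective (α := G))
      (fun n : ℕ => (2 : ENNReal)⁻¹ ^ n)
  have h3 : ∑' x : G, (2 : ENNReal)⁻¹ ^ (Encodable.encode x⁻¹) ≤ 2 := by
    refine le_trans (le_of_eq ?_) h1
    exact (Equiv.inv G).tsum_eq (fun x : G => (2 : ENNReal)⁻¹ ^ (Encodable.encode x))
  unfold wt
  simp only
  rw [ENNReal.tsum_add]
  exact ENNReal.add_ne_top.2 ⟨ne_top_of_le_ne_top ENNReal.ofNat_ne_top h1,
    ne_top_of_le_ne_top ENNReal.ofNat_ne_top h3⟩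

open Classical in
/-- the weight restricted to a fibre -/
noncomputable def fw (π : G →* K) (y : K) (x : G) : ENNReal := if π x = y then wt x else 0

lemma fw_sum_ne_zero (π : G →* K) (hπ : Function.Surjective π) (y : K) :
    ∑' x, fw π y x ≠ 0 := by
  obtain ⟨x, hx⟩ := hπ y
  intro h
  rw [ENNReal.tsum_eq_zero] at h
  have := h x
  unfold fw at this
  rw [if_pos hx] at this
  exact wt_pos x this

lemma fw_sum_ne_top (π : G →* K) (y : K) : ∑' x, fw π y x ≠ ⊤ := by
  refine ne_top_of_le_ne_top (wt_sum (G := G)) (ENNReal.tsum_le_tsum fun x => ?_)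
  unfold fw
  split_ifs
  · exact le_rfl
  · exact zero_le

/-- the law on the fibre -/
noncomputable def kap (π : G →* K) (hπ : Function.Surjective π) (y : K) : PMF G :=
  PMF.normalize (fw π y) (fw_sum_ne_zero π hπ y) (fw_sum_ne_top π y)

lemma fw_inv (π : G →* K) (y : K) (x : G) : fw π y⁻¹ x⁻¹ = fw π y x := by
  unfold fw
  rw [map_inv, wt_inv]
  by_cases h : π x = y
  · rw [if_pos h, if_pos (by rw [h])]
  · rw [if_neg h, if_neg fun hh => h (inv_injective hh)]

lemma kap_inv (π : G →* K) (hπ : Function.Surjective π) (y : K) (x : G) :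
    kap π hπ y⁻¹ x⁻¹ = kap π hπ y x := by
  unfold kap
  rw [PMF.normalize_apply, PMF.normalize_apply, fw_inv]
  congr 2
  rw [← (Equiv.inv G).tsum_eq (fun x => fw π y⁻¹ x)]
  apply tsum_congr
  intro x
  exact fw_inv π y x

lemma kap_ne_zero (π : G →* K) (hπ : Function.Surjective π) (y : K) (x : G) :
    kap π hπ y x ≠ 0 ↔ π x = y := by
  unfold kap
  rw [PMF.normalize_apply]
  constructor
  · intro h
    by_contra hne
    apply h
    unfold fw
    rw [if_neg hne, zero_mul]
  · intro h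
    refine mul_ne_zero ?_ (ENNReal.inv_ne_zero.2 (fw_sum_ne_top π y))
    unfold fw
    rw [if_pos h]
    exact wt_pos x

lemma kap_map (π : G →* K) (hπ : Function.Surjective π) (y : K) :
    (kap π hπ y).map π = PMF.pure y := by
  have hsupp : ((kap π hπ y).map π).support ⊆ {y} := by
    rw [PMF.support_map]
    rintro _ ⟨x, hx, rfl⟩
    exact (kap_ne_zero π hπ y x).1 ((PMF.mem_support_iff _ _).1 hx)
  ext z
  rw [PMF.pure_apply]
  by_cases hz : z = y
  · rw [if_pos hz]
    have h1 := ((kap π hπ y).map π).tsum_coe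
    rw [tsum_eq_single y] at h1
    · rw [hz]; exact h1
    · intro w hw
      by_contra hne
      exact hw (hsupp ((PMF.mem_support_iff _ _).2 hne))
  · rw [if_neg hz]
    by_contra hne
    exact hz (hsupp ((PMF.mem_support_iff _ _).2 hne))

/-- the lifted law -/
noncomputable def liftLaw (π : G →* K) (hπ : Function.Surjective π) (ν : PMF K) : PMF G :=
  ν.bind (kap π hπ)

lemma liftLaw_map (π : G →* K) (hπ : Function.Surjective π) (ν : PMF K) :
    (liftLaw π hπ ν).map π = ν := by
  unfold liftLaw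
  rw [PMF.map_bind]
  have : (fun a => (kap π hπ a).map π) = PMF.pure := by
    funext a; exact kap_map π hπ a
  rw [this, PMF.bind_pure]

lemma liftLaw_support (π : G →* K) (hπ : Function.Surjective π) (ν : PMF K) (x : G) :
    x ∈ (liftLaw π hπ ν).support ↔ π x ∈ ν.support := by
  unfold liftLaw
  rw [PMF.mem_support_bind_iff]
  constructor
  · rintro ⟨y, hy, hx⟩
    rw [(kap_ne_zero π hπ y x).1 ((PMF.mem_support_iff _ _).1 hx)]
    exact hy
  · intro h
    exact ⟨π x, h, (PMF.mem_support_iff _ _).2 ((kap_ne_zero π hπ _ x).2 rfl)⟩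

lemma liftLaw_symm (π : G →* K) (hπ : Function.Surjective π) (ν : PMF K)
    (hν : ∀ y, ν y⁻¹ = ν y) (x : G) : liftLaw π hπ ν x⁻¹ = liftLaw π hπ ν x := by
  unfold liftLaw
  rw [PMF.bind_apply, PMF.bind_apply, ← (Equiv.inv K).tsum_eq (fun a => ν a * kap π hπ a x⁻¹)]
  apply tsum_congr
  intro y
  show ν y⁻¹ * kap π hπ y⁻¹ x⁻¹ = _
  rw [hν, kap_inv]

lemma liftLaw_gen (π : G →* K) (hπ : Function.Surjective π) (ν : PMF K)
    (hν : Subgroup.closure ν.support = ⊤) :
    Subgroup.closure (liftLaw π hπ ν).support = ⊤ := by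
  set C := Subgroup.closure (liftLaw π hπ ν).support with hC
  have hker : π.ker ≤ C := by
    intro k hk
    obtain ⟨y, hy⟩ := ν.support_nonempty
    obtain ⟨x, hx⟩ := hπ y
    have h1 : x ∈ C := Subgroup.subset_closure ((liftLaw_support π hπ ν x).2 (by rw [hx]; exact hy))
    have h2 : x * k ∈ C := Subgroup.subset_closure ((liftLaw_support π hπ ν _).2 (by
      rw [map_mul, MonoidHom.mem_ker.1 hk, mul_one, hx]; exact hy))
    have h3 := C.mul_mem (C.inv_mem h1) h2
    rwa [inv_mul_cancel_left] at h3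
  have hmap : C.map π = ⊤ := by
    rw [eq_top_iff, ← hν, Subgroup.closure_le]
    intro y hy
    obtain ⟨x, hx⟩ := hπ y
    exact ⟨x, Subgroup.subset_closure ((liftLaw_support π hπ ν x).2 (by rw [hx]; exact hy)), hx⟩
  rw [eq_top_iff]
  intro g _
  have h1 : π g ∈ C.map π := by rw [hmap]; trivial
  obtain ⟨c, hc, hcg⟩ := h1
  have h2 : c⁻¹ * g ∈ π.ker := by
    rw [MonoidHom.mem_ker, map_mul, map_inv, hcg, inv_mul_cancel]
  have h3 := C.mul_mem hc (hker h2)
  rwa [mul_inv_cancel_left] at h3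

end Lift

end Q293.AR
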