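import Pool.Agent.Q293.HaloDefs
import Pool.Agent.H21R2.Core

/-!
Extension of local automorphisms of finite relational structures
(theorem of Herwig and Lascar; proof after Hubicka, Konecny and Nesetril).
-/

namespace Pool.Agent.Q293.HP

open Finset Pool.Agent.H21R2

section construction

variable {S : Sig} (A : Type) (S0 : Finset S.Sym)

/-- valuations -/
abbrev Val : Type := ∀ l : S0, (Fin (S.ar l) → A) → Fin (S.ar l) → ZMod 2

/-- the points of the extension -/
def Car : Type := {b : A × Val A S0 // ∀ l s i, s i ≠ b.1 → b.2 l s i = 0}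

instance [Finite A] : Finite (Car A S0) := Subtype.finite

variable {A S0}

/-- the relations of the extension -/
def Rb (l : S0) (b : Fin (S.ar l) → Car A S0) : Prop :=
  ∑ i, (b i).1.2 l (fun k => (b k).1.1) i = 1

open Classical in
/-- the embedding -/
noncomputable def e0 (S0 : Finset S.Sym) (r : Str S A) (a : A) : Car A S0 :=
  ⟨(a, fun l s i => if s i = a ∧ (i : ℕ) = 0 ∧ r l s then 1 else 0), by
    intro l s i h
    show (if s i = a ∧ (i : ℕ) = 0 ∧ r l s then (1 : ZMod 2) else 0) = 0
    rw [if_neg fun h' => h h'.1]⟩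

theorem e0_inj (r : Str S A) : Function.Injective (e0 S0 r) := by
  intro a b h
  exact congrArg (fun x : Car A S0 => x.1.1) h

theorem e0_rel (r : Str S A) (l : S0) (hl : 0 < S.ar l) (s : Fin (S.ar l) → A) :
    Rb l (fun i => e0 S0 r (s i)) ↔ r l s := by
  classical
  have h1 : ∑ i, (e0 S0 r (s i)).1.2 l (fun k => (e0 S0 r (s k)).1.1) i =
      if r l s then (1 : ZMod 2) else 0 := by
    rw [sum_eq_single (⟨0, hl⟩ : Fin (S.ar l))]
    · show (if s _ = s _ ∧ ((⟨0, hl⟩ : Fin (S.ar l)) : ℕ) = 0 ∧ r l (fun k => s k)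
        then (1 : ZMod 2) else 0) = _
      simp
    · intro i _ hi
      show (if s i = s i ∧ (i : ℕ) = 0 ∧ r l (fun k => s k) then (1 : ZMod 2) else 0) = 0
      rw [if_neg]
      rintro ⟨_, h, _⟩
      exact hi (Fin.ext h)
    · intro h; exact absurd (mem_univ _) h
  rw [Rb, h1]
  by_cases h : r l s
  · simp [h]
  · simp [h]

theorem exists_ext [Finite A] (r : Str S A) (D : Set A) (p : A → A) (hp : Set.InjOn p D)
    (hr : ∀ l ∈ S0, ∀ x : Fin (S.ar l) → A, (∀ i, x i ∈ D) → (r l (fun i => p (x i)) ↔ r l x)) :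
    ∃ θ : Equiv.Perm (Car A S0), (∀ (l : S0) (b : Fin (S.ar l) → Car A S0),
      Rb l (fun i => θ (b i)) ↔ Rb l b) ∧ ∀ a ∈ D, θ (e0 S0 r a) = e0 S0 r (p a) := by
  classical
  have := Fintype.ofFinite A
  obtain ⟨P, hP⟩ := exists_perm_extend (α := A) (univ.filter fun a => a ∈ D) p (by
    intro a ha b hb h
    simp only [coe_filter, mem_univ, true_and, Set.mem_ofPred_eq] at ha hb
    exact hp ha hb h)
  have hPD : ∀ a ∈ D, P a = p a := fun a ha => hP a (by simpa using ha)
  let χ : A → Val A S0 := fun a => (e0 S0 r a).1.2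
  have hχ0 : ∀ a l s i, s i ≠ a → χ a l s i = 0 := fun a l s i h => (e0 S0 r a).2 l s i h
  let δ : ∀ l : S0, (Fin (S.ar l) → A) → Fin (S.ar l) → ZMod 2 := fun l s i =>
    χ (P (s i)) l (fun k => P (s k)) i - χ (s i) l s i
  let f : ∀ l : S0, (Fin (S.ar l) → A) → Fin (S.ar l) → ZMod 2 := fun l s i =>
    if s i ∈ D then δ l s i else
      if h : ∃ k, s k ∉ D then
        (if i = h.choose then - ∑ k ∈ univ.filter (fun k => s k ∈ D), δ l s k else 0) else 0
  have hfD : ∀ l s i, s i ∈ D → f l s i = δ l s i := fun l s i h => if_pos h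
  have hfsum : ∀ l s, ∑ i, f l s i = 0 := by
    intro l s
    by_cases h : ∃ k, s k ∉ D
    · have h1 : ∀ i, f l s i = (if s i ∈ D then δ l s i else 0) +
          (if i = h.choose then - ∑ k ∈ univ.filter (fun k => s k ∈ D), δ l s k else 0) := by
        intro i
        by_cases hi : s i ∈ D
        · have : i ≠ h.choose := fun e => h.choose_spec (e ▸ hi)
          rw [hfD l s i hi, if_pos hi, if_neg this, add_zero]
        · show (if s i ∈ D then δ l s i else _) = _
          rw [if_neg hi, if_neg hi, zero_add, dif_pos h]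
      simp_rw [h1]
      rw [sum_add_distrib, sum_ite_eq' univ h.choose, if_pos (mem_univ _), ← sum_filter]
      ring
    · push Not at h
      have h1 : ∀ i, f l s i = χ (P (s i)) l (fun k => P (s k)) i - χ (s i) l s i :=
        fun i => hfD l s i (h i)
      simp_rw [h1]
      rw [sum_sub_distrib]
      rcases Nat.eq_zero_or_pos (S.ar l) with h0 | h0
      · have : IsEmpty (Fin (S.ar l)) := by rw [h0]; exact Fin.isEmpty
        simp
      · have h2 : ∀ x : Fin (S.ar l) → A, ∑ i, χ (x i) l x i = if r l x then (1 : ZMod 2) else 0 := by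
          intro x
          rw [sum_eq_single (⟨0, h0⟩ : Fin (S.ar l))]
          · show (if x _ = x _ ∧ ((⟨0, h0⟩ : Fin (S.ar l)) : ℕ) = 0 ∧ r l x
              then (1 : ZMod 2) else 0) = _
            simp
          · intro i _ hi
            show (if x i = x i ∧ (i : ℕ) = 0 ∧ r l x then (1 : ZMod 2) else 0) = 0
            rw [if_neg]
            rintro ⟨_, h, _⟩
            exact hi (Fin.ext h)
          · intro h; exact absurd (mem_univ _) h
        have h3 : (fun k => P (s k)) = fun k => p (s k) := funext fun k => hPD _ (h k)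
        have h4 := h2 (fun k => P (s k))
        rw [h4, h2 s, h3]
        have h5 := hr l.1 l.2 s h
        simp only [h5]
        ring
  let F : Car A S0 → Car A S0 := fun b =>
    ⟨(P b.1.1, fun l s i => if s i = P b.1.1 then
      b.1.2 l (fun k => P.symm (s k)) i + f l (fun k => P.symm (s k)) i else 0), by
      intro l s i h
      show (if s i = P b.1.1 then _ else _) = _
      rw [if_neg h]⟩
  have hF1 : ∀ b, (F b).1.1 = P b.1.1 := fun b => rfl
  have hF2 : ∀ b l (s : Fin (S.ar (l : S0)) → A) i, s i = b.1.1 →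
      (F b).1.2 l (fun k => P (s k)) i = b.1.2 l s i + f l s i := by
    intro b l s i h
    show (if P (s i) = P b.1.1 then _ else _) = _
    rw [if_pos (by rw [h])]
    simp
  have hFinj : Function.Injective F := by
    intro b b' h
    have h1 : b.1.1 = b'.1.1 := by
      have := congrArg (fun x : Car A S0 => x.1.1) h
      exact P.injective this
    apply Subtype.ext
    apply Prod.ext h1
    funext l s i
    by_cases hs : s i = b.1.1
    · have e1 := hF2 b l s i hs
      have e2 := hF2 b' l s i (hs.trans h1)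
      rw [h] at e1
      exact add_right_cancel (e1.symm.trans e2)
    · rw [b.2 l s i hs, b'.2 l s i (fun e => hs (e.trans h1.symm))]
  let θ : Equiv.Perm (Car A S0) := Equiv.ofBijective F (Finite.injective_iff_bijective.1 hFinj)
  have hθ : ∀ b, θ b = F b := fun b => rfl
  refine ⟨θ, ?_, ?_⟩
  · intro l b
    have : ∑ i, (θ (b i)).1.2 l (fun k => (θ (b k)).1.1) i =
        ∑ i, (b i).1.2 l (fun k => (b k).1.1) i := by
      have h1 : ∀ i, (θ (b i)).1.2 l (fun k => (θ (b k)).1.1) i =
          (b i).1.2 l (fun k => (b k).1.1) i + f l (fun k => (b k).1.1) i := by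
        intro i
        exact hF2 (b i) l (fun k => (b k).1.1) i rfl
      simp_rw [h1]
      rw [sum_add_distrib, hfsum, add_zero]
    rw [Rb, Rb, this]
  · intro a ha
    rw [hθ]
    apply Subtype.ext
    have h0 : P a = p a := hPD a ha
    apply Prod.ext
    · exact h0
    funext l s i
    by_cases hs : s i = P a
    · have e1 : s = fun k => P (P.symm (s k)) := by funext k; simp
      have hs' : (fun k => P.symm (s k)) i = a := by
        show P.symm (s i) = a
        rw [hs]; simp
      have e2 := hF2 (e0 S0 r a) l (fun k => P.symm (s k)) i hs'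
      rw [← e1] at e2
      have e3 : f l (fun k => P.symm (s k)) i = δ l (fun k => P.symm (s k)) i :=
        hfD l (fun k => P.symm (s k)) i (by
          show P.symm (s i) ∈ D
          rw [show P.symm (s i) = a from hs']; exact ha)
      refine e2.trans ?_
      rw [e3]
      show χ a l (fun k => P.symm (s k)) i + (χ (P (P.symm (s i))) l (fun k => P (P.symm (s k))) i -
        χ (P.symm (s i)) l (fun k => P.symm (s k)) i) = χ (p a) l s i
      rw [← e1, show P.symm (s i) = a from hs', h0]
      ring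
    · rw [(F (e0 S0 r a)).2 l s i hs]
      exact (hχ0 (p a) l s i (fun e => hs (e.trans h0.symm))).symm

end construction

/-- **Extension property for local automorphisms of finite relational structures.** -/
theorem eppa {S : Sig} {A : Type} [Finite A] (r : Str S A) :
    ∃ (B : Type) (_ : Finite B) (t : Str S B) (e : Emb r t), ∀ (D : Set A) (p : A → A),
      Set.InjOn p D →
      (∀ (l : S.Sym) (x : Fin (S.ar l) → A), (∀ i, x i ∈ D) → (r l (fun i => p (x i)) ↔ r l x)) →
      ∃ θ : Equiv.Perm B, (∀ (l : S.Sym) (b : Fin (S.ar l) → B), t l (fun i => θ (b i)) ↔ t l b) ∧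
        ∀ a ∈ D, θ (e.toFun a) = e.toFun (p a) := by
  classical
  have := Fintype.ofFinite A
  -- the finite part of the signature
  let Bad : Set A × (A → A) → Prop := fun q => ∃ (l : S.Sym) (x : Fin (S.ar l) → A),
    (∀ i, x i ∈ q.1) ∧ ¬ (r l (fun i => q.2 (x i)) ↔ r l x)
  let S0 : Finset S.Sym := (univ : Finset (Set A × (A → A))).biUnion fun q =>
    if h : Bad q then {h.choose} else ∅
  have hS0 : ∀ (D : Set A) (p : A → A), (∀ l ∈ S0, ∀ x : Fin (S.ar l) → A, (∀ i, x i ∈ D) →
      (r l (fun i => p (x i)) ↔ r l x)) → ∀ (l : S.Sym) (x : Fin (S.ar l) → A), (∀ i, x i ∈ D) →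
      (r l (fun i => p (x i)) ↔ r l x) := by
    intro D p h l x hx
    by_contra hcon
    have hb : Bad (D, p) := ⟨l, x, hx, hcon⟩
    obtain ⟨x', hx', hcon'⟩ := hb.choose_spec
    apply hcon'
    apply h _ _ x' hx'
    simp only [S0, mem_biUnion, mem_univ, true_and]
    exact ⟨(D, p), by rw [dif_pos hb]; exact mem_singleton_self _⟩
  -- the group
  let Γ : Set (Equiv.Perm (Car A S0)) := {θ | ∀ (l : S0) (b : Fin (S.ar l) → Car A S0),
      Rb l (fun i => θ (b i)) ↔ Rb l b}
  let t : Str S (Car A S0) := fun l b => ∃ θ ∈ Γ, ∃ x : Fin (S.ar l) → A,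
    (fun i => θ (e0 S0 r (x i))) = b ∧ r l x
  have hloc : ∀ θ ∈ Γ, ∀ (l : S.Sym) (x x' : Fin (S.ar l) → A),
      (∀ i, θ (e0 S0 r (x' i)) = e0 S0 r (x i)) → (r l x ↔ r l x') := by
    intro θ hθ l x x' hx
    let D : Set A := {a | ∃ a', e0 S0 r a' = θ (e0 S0 r a)}
    let p : A → A := fun a => if h : ∃ a', e0 S0 r a' = θ (e0 S0 r a) then h.choose else a
    have hp : ∀ a ∈ D, e0 S0 r (p a) = θ (e0 S0 r a) := by
      intro a ha
      have ha' : ∃ a', e0 S0 r a' = θ (e0 S0 r a) := ha
      show e0 S0 r (if h : ∃ a', e0 S0 r a' = θ (e0 S0 r a) then h.choose else a) = _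
      rw [dif_pos ha']
      exact ha'.choose_spec
    have key := hS0 D p (by
      intro l0 hl0 z hz
      rcases Nat.eq_zero_or_pos (S.ar l0) with h0 | h0
      · have : IsEmpty (Fin (S.ar l0)) := by rw [h0]; exact Fin.isEmpty
        have : (fun i => p (z i)) = z := funext fun i => (IsEmpty.false i).elim
        rw [this]
      · rw [← e0_rel r ⟨l0, hl0⟩ h0 z, ← e0_rel r ⟨l0, hl0⟩ h0 (fun i => p (z i)),
          ← hθ ⟨l0, hl0⟩ (fun i => e0 S0 r (z i))]
        have : (fun i => e0 S0 r (p (z i))) = fun i => θ (e0 S0 r (z i)) :=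
          funext fun i => hp _ (hz i)
        rw [this]) l x' (fun i => ⟨x i, (hx i).symm⟩)
    have : (fun i => p (x' i)) = x := by
      funext i
      apply e0_inj (S0 := S0) r
      rw [hp _ ⟨x i, (hx i).symm⟩, hx i]
    rw [this] at key
    exact key
  refine ⟨Car A S0, inferInstance, t, ⟨e0 S0 r, e0_inj r, ?_⟩, ?_⟩
  · intro l x
    constructor
    · rintro ⟨θ, hθ, x', hx', hrx'⟩
      exact (hloc θ hθ l x x' (fun i => congrFun hx' i)).2 hrx'
    · intro h
      exact ⟨1, fun _ _ => Iff.rfl, x, rfl, h⟩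
  · intro D p hp hr
    obtain ⟨θ, h1, h2⟩ := exists_ext (S0 := S0) r D p hp (fun l _ => hr l)
    have hθ : θ ∈ Γ := h1
    have hinv : ∀ θ' ∈ Γ, θ'⁻¹ ∈ Γ := by
      intro θ' h l b
      have e : ∀ b, θ' (θ'⁻¹ b) = b := fun b => θ'.apply_symm_apply b
      have := h l (fun i => θ'⁻¹ (b i))
      simp only [e] at this
      exact this.symm
    have hmul : ∀ θ' ∈ Γ, ∀ θ'' ∈ Γ, θ' * θ'' ∈ Γ := by
      intro θ' h θ'' h'' l b
      exact (h l (fun i => θ'' (b i))).trans (h'' l b)
    refine ⟨θ, ?_, h2⟩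
    intro l b
    constructor
    · rintro ⟨θ', hθ', x, hx, hrx⟩
      refine ⟨θ⁻¹ * θ', hmul _ (hinv θ hθ) _ hθ', x, ?_, hrx⟩
      funext i
      have := congrFun hx i
      show θ⁻¹ (θ' (e0 S0 r (x i))) = b i
      rw [this]; simp
    · rintro ⟨θ', hθ', x, hx, hrx⟩
      refine ⟨θ * θ', hmul _ hθ _ hθ', x, ?_, hrx⟩
      funext i
      have := congrFun hx i
      show θ (θ' (e0 S0 r (x i))) = θ (b i)
      rw [this]

end Pool.Agent.Q293.HP
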