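import Pool.Agent.Q293.HaloEppa

/-!
All actions of free groups on relational structures are sofic.
-/

namespace Pool.Agent.Q293.HP

open Finset Pool.Agent.H21R2

/-- the trivial signature -/
def emptySig : Sig := ⟨Empty, fun e => e.elim⟩

/-- if the translation action of `G` on itself is sofic, then `G` is sofic -/
theorem isSofic_of_regular {G : Type} [Group G]
    (h : SoficAction (S := emptySig) (X := G) (fun l => l.elim) G) : IsSofic G := by
  classical
  intro A h1 ε hε
  obtain ⟨n, hn, φ, B, _, t, T, π, hφ1, hφm, hT, hinj, _, heq⟩ :=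
    h A (insert 1 (A.image fun a => a⁻¹)) ε hε
  have hn0 : (0 : ℝ) < n := by exact_mod_cast hn
  refine ⟨n, hn, φ, hφ1, fun a ha b hb _ => hφm a ha b hb, ?_⟩
  intro a ha ha1
  rw [hamm, le_div_iff₀ hn0]
  have h2 : T ⊆ univ.filter fun i => φ a i ≠ (1 : Equiv.Perm (Fin n)) i := by
    intro s hs
    rw [mem_filter]
    refine ⟨mem_univ _, fun he => ha1 ?_⟩
    have he' : φ a s = s := he
    have h3 := heq s hs a ha (by rw [he']; exact hs) 1 (mem_insert_self _ _)
      (mem_insert_of_mem (mem_image.2 ⟨a, ha, by simp⟩))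
    rw [he'] at h3
    have h4 := hinj s hs (mem_coe.2 (mem_insert_self 1 _))
      (mem_coe.2 (mem_insert_of_mem (mem_image.2 ⟨a, ha, by simp⟩))) h3
    simpa using h4.symm
  have h3 : (T.card : ℝ) ≤
      ((univ.filter fun i => φ a i ≠ (1 : Equiv.Perm (Fin n)) i).card : ℝ) := by
    exact_mod_cast card_le_card h2
  linarith

variable {S : Sig} {X : Type} {r : Str S X} {ι : Type} [MulAction (FreeGroup ι) X]

theorem path (g : FreeGroup ι) : ∃ C : Finset (FreeGroup ι), 1 ∈ C ∧ g ∈ C ∧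
    ∀ (E' : Finset X) (B : Type) (e : E' → B) (β : FreeGroup ι →* Equiv.Perm B),
      (∀ (i : ι) (y : X) (hy : y ∈ E') (hiy : FreeGroup.of i • y ∈ E'),
        β (FreeGroup.of i) (e ⟨y, hy⟩) = e ⟨FreeGroup.of i • y, hiy⟩) →
      ∀ (x : X) (hx : x ∈ E'), (∀ c ∈ C, c • x ∈ E') → ∀ hgx : g • x ∈ E',
        β g (e ⟨x, hx⟩) = e ⟨g • x, hgx⟩ := by
  classical
  induction g using FreeGroup.induction_on with
  | C1 =>
    refine ⟨{1}, mem_singleton_self _, mem_singleton_self _, ?_⟩
    intro E' B e β _ x hx _ hgx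
    rw [map_one]
    show e ⟨x, hx⟩ = _
    congr 2
    exact (one_smul _ x).symm
  | of i =>
    refine ⟨{1, FreeGroup.of i}, mem_insert_self _ _,
      mem_insert_of_mem (mem_singleton_self _), ?_⟩
    intro E' B e β hβ x hx _ hgx
    exact hβ i x hx hgx
  | inv_of i _ =>
    refine ⟨{1, (FreeGroup.of i)⁻¹}, mem_insert_self _ _,
      mem_insert_of_mem (mem_singleton_self _), ?_⟩
    intro E' B e β hβ x hx _ hgx
    have h1 : FreeGroup.of i • ((FreeGroup.of i)⁻¹ • x) = x := smul_inv_smul _ _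
    have h2 := hβ i ((FreeGroup.of i)⁻¹ • x) hgx (by rw [h1]; exact hx)
    have h3 : e ⟨FreeGroup.of i • ((FreeGroup.of i)⁻¹ • x), by rw [h1]; exact hx⟩ = e ⟨x, hx⟩ := by
      congr 2
    rw [h3] at h2
    show β (FreeGroup.of i)⁻¹ (e ⟨x, hx⟩) = e ⟨(FreeGroup.of i)⁻¹ • x, hgx⟩
    rw [← h2, map_inv]
    exact (β (FreeGroup.of i)).symm_apply_apply _
  | mul g h ihg ihh =>
    obtain ⟨Cg, g1, g2, g3⟩ := ihg
    obtain ⟨Ch, k1, k2, k3⟩ := ihh
    refine ⟨Ch ∪ Cg.image (fun c => c * h), mem_union_left _ k1,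
      mem_union_right _ (mem_image_of_mem _ g2), ?_⟩
    intro E' B e β hβ x hx hC hgx
    have hhx : h • x ∈ E' := hC h (mem_union_left _ k2)
    have e1 := k3 E' B e β hβ x hx (fun c hc => hC c (mem_union_left _ hc)) hhx
    have hgx' : g • h • x ∈ E' := by rw [← mul_smul]; exact hgx
    have e2 := g3 E' B e β hβ (h • x) hhx (fun c hc => by
      rw [← mul_smul]
      exact hC _ (mem_union_right _ (mem_image_of_mem _ hc))) hgx'
    rw [map_mul, Equiv.Perm.mul_apply, e1, e2]
    congr 2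
    exact (mul_smul g h x).symm

/-- **All actions of free groups on relational structures are sofic.** -/
theorem soficAction_of_free (hr : Invariant r (FreeGroup ι)) : SoficAction r (FreeGroup ι) := by
  classical
  intro F E ε hε
  choose C hC1 hCg hC using fun g : FreeGroup ι => path (X := X) g
  set E' : Finset X := E ∪ F.biUnion (fun g => (C g⁻¹ ×ˢ E).image fun p => p.1 • p.2) with hE'
  have hEE' : E ⊆ E' := subset_union_left
  have hCE : ∀ g ∈ F, ∀ c ∈ C g⁻¹, ∀ x ∈ E, c • x ∈ E' := by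
    intro g hg c hc x hx
    simp only [hE', mem_union, mem_biUnion, mem_image, mem_product]
    exact Or.inr ⟨g, hg, (c, x), ⟨hc, hx⟩, rfl⟩
  obtain ⟨B, iB, t, e, hB⟩ := eppa (r.restrict E')
  have hθ : ∀ i : ι, ∃ θ : Equiv.Perm B,
      (∀ (l : S.Sym) (b : Fin (S.ar l) → B), t l (fun i => θ (b i)) ↔ t l b) ∧
      ∀ (y : X) (hy : y ∈ E') (hiy : FreeGroup.of i • y ∈ E'),
        θ (e.toFun ⟨y, hy⟩) = e.toFun ⟨FreeGroup.of i • y, hiy⟩ := by
    intro i
    obtain ⟨θ, h1, h2⟩ := hB {a | FreeGroup.of i • (a : X) ∈ E'}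
      (fun a => if h : FreeGroup.of i • (a : X) ∈ E' then ⟨_, h⟩ else a) (by
        intro a ha b hb hab
        rw [Set.mem_ofPred_eq] at ha hb
        simp only [dif_pos ha, dif_pos hb] at hab
        exact Subtype.ext (MulAction.injective _ (Subtype.mk.inj hab))) (by
        intro l x hx
        have : (fun j => ((if h : FreeGroup.of i • (x j : X) ∈ E' then
            (⟨_, h⟩ : {z // z ∈ E'}) else x j : {z // z ∈ E'}) : X)) =
            fun j => FreeGroup.of i • (x j : X) := by
          funext j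
          rw [dif_pos (show FreeGroup.of i • (x j : X) ∈ E' from hx j)]
        show r l (fun j => ((if h : FreeGroup.of i • (x j : X) ∈ E' then
            (⟨_, h⟩ : {z // z ∈ E'}) else x j : {z // z ∈ E'}) : X)) ↔ r l (fun j => (x j : X))
        rw [this]
        exact hr (FreeGroup.of i) l (fun j => (x j : X)))
    refine ⟨θ, h1, fun y hy hiy => ?_⟩
    have h3 := h2 ⟨y, hy⟩ hiy
    rw [h3]
    congr 1
    exact dif_pos hiy
  choose θ hθ1 hθ2 using hθ
  let β : FreeGroup ι →* Equiv.Perm B := FreeGroup.lift θ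
  have hβof : ∀ i, β (FreeGroup.of i) = θ i := fun i => FreeGroup.lift_apply_of
  let Γ : Subgroup (Equiv.Perm B) :=
    { carrier := {θ | ∀ (l : S.Sym) (b : Fin (S.ar l) → B), t l (fun i => θ (b i)) ↔ t l b}
      mul_mem' := fun {a b} ha hb l x => (ha l (fun i => b (x i))).trans (hb l x)
      one_mem' := fun _ _ => Iff.rfl
      inv_mem' := fun {a} ha l x => by
        have e : ∀ b, a (a⁻¹ b) = b := fun b => a.apply_symm_apply b
        have := ha l (fun i => a⁻¹ (x i))
        simp only [e] at this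
        exact this.symm }
  have hβΓ : ∀ g, β g ∈ Γ := by
    intro g
    induction g using FreeGroup.induction_on with
    | C1 => rw [map_one]; exact one_mem _
    | of i => show β (FreeGroup.of i) ∈ Γ; rw [hβof]; exact hθ1 i
    | inv_of i _ =>
      show β (FreeGroup.of i)⁻¹ ∈ Γ
      rw [map_inv, hβof]; exact inv_mem (hθ1 i)
    | mul g h hg hh => rw [map_mul]; exact mul_mem hg hh
  have hβ2 : ∀ (i : ι) (y : X) (hy : y ∈ E') (hiy : FreeGroup.of i • y ∈ E'),
        β (FreeGroup.of i) (e.toFun ⟨y, hy⟩) = e.toFun ⟨FreeGroup.of i • y, hiy⟩ := by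
    intro i y hy hiy
    rw [hβof]; exact hθ2 i y hy hiy
  have : Finite Γ := inferInstance
  let n : ℕ := Nat.card Γ
  have hn : 1 ≤ n := Nat.card_pos
  let q : Γ ≃ Fin n := Finite.equivFin Γ
  let φ : FreeGroup ι → Equiv.Perm (Fin n) := fun g =>
    (q.symm.trans (Equiv.mulLeft (⟨β g, hβΓ g⟩ : Γ))).trans q
  have hφ : ∀ g s, q.symm (φ g s) = (⟨β g, hβΓ g⟩ : Γ) * q.symm s := by
    intro g s
    show q.symm (q ((⟨β g, hβΓ g⟩ : Γ) * q.symm s)) = _
    rw [Equiv.symm_apply_apply]
  have hφmul : ∀ g h, φ (g * h) = φ g * φ h := by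
    intro g h
    ext1 s
    apply q.symm.injective
    rw [hφ, Equiv.Perm.mul_apply, hφ, hφ, ← mul_assoc]
    congr 1
    apply Subtype.ext
    exact map_mul β g h
  let π : Fin n → X → Option B := fun s x =>
    if h : x ∈ E' then some (((q.symm s : Γ) : Equiv.Perm B)⁻¹ (e.toFun ⟨x, h⟩)) else none
  have hπ : ∀ s x, ∀ h : x ∈ E',
      π s x = some (((q.symm s : Γ) : Equiv.Perm B)⁻¹ (e.toFun ⟨x, h⟩)) :=
    fun s x h => dif_pos h
  let t' : Str S (Option B) := fun l b => ∃ b' : Fin (S.ar l) → B,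
    (fun i => some (b' i)) = b ∧ t l b'
  refine ⟨n, hn, φ, Option B, inferInstance, t', univ, π, ?_, ?_, ?_, ?_, ?_, ?_⟩
  · ext1 s
    apply q.symm.injective
    rw [hφ]
    show (⟨β 1, hβΓ 1⟩ : Γ) * q.symm s = q.symm s
    have : (⟨β 1, hβΓ 1⟩ : Γ) = 1 := Subtype.ext (map_one β)
    rw [this, one_mul]
  · intro g _ h _
    rw [hφmul]
    have : hamm (φ g * φ h) (φ g * φ h) = 0 := by simp [hamm]
    rw [this]; exact hε
  · rw [card_univ, Fintype.card_fin]
    have hn0 : (0 : ℝ) < n := by exact_mod_cast hn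
    nlinarith
  · intro s _ x hx y hy hxy
    rw [hπ s x (hEE' hx), hπ s y (hEE' hy), Option.some_inj] at hxy
    have h1 := e.inj (Equiv.injective _ hxy)
    exact Subtype.mk.inj h1
  · intro s _ l x hx
    have hinv : ((q.symm s : Γ) : Equiv.Perm B)⁻¹ ∈ Γ := inv_mem (q.symm s).2
    have h1 : t l (fun i => ((q.symm s : Γ) : Equiv.Perm B)⁻¹ (e.toFun ⟨x i, hEE' (hx i)⟩)) ↔
        r l x := by
      refine (hinv l _).trans ?_
      exact e.rel l (fun i => ⟨x i, hEE' (hx i)⟩)
    rw [← h1]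
    constructor
    · rintro ⟨b', hb', ht⟩
      have : b' = fun i => ((q.symm s : Γ) : Equiv.Perm B)⁻¹ (e.toFun ⟨x i, hEE' (hx i)⟩) := by
        funext i
        have := congrFun hb' i
        simp only [hπ s (x i) (hEE' (hx i)), Option.some_inj] at this
        exact this
      rw [← this]; exact ht
    · intro ht
      refine ⟨_, ?_, ht⟩
      funext i
      rw [hπ s (x i) (hEE' (hx i))]
  · intro s _ g hg _ x hx hgx
    rw [hπ _ x (hEE' hx), hπ s _ (hEE' hgx), hφ]
    congr 1
    have h1 := hC g⁻¹ E' B e.toFun β hβ2 x (hEE' hx) (fun c hc => hCE g hg c hc x hx) (hEE' hgx)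
    rw [← h1]
    show ((β g) * ((q.symm s : Γ) : Equiv.Perm B))⁻¹ (e.toFun ⟨x, _⟩) = _
    rw [mul_inv_rev, Equiv.Perm.mul_apply, map_inv]

/-- soficity of actions passes to groups mapping to the given one -/
theorem soficAction_comap {S : Sig} {X : Type} {r : Str S X} {G G' : Type} [Group G] [Group G']
    [MulAction G X] [MulAction G' X] (q : G →* G') (hq : ∀ (g : G) (x : X), q g • x = g • x)
    (h : SoficAction r G') : SoficAction r G := by
  classical
  intro F E ε hε
  obtain ⟨n, hn, φ, B, iB, t, T, π, h1, h2, h3, h4, h5, h6⟩ := h (F.image q) E ε hε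
  refine ⟨n, hn, fun g => φ (q g), B, iB, t, T, π, ?_, ?_, h3, h4, h5, ?_⟩
  · show φ (q 1) = 1
    rw [map_one]; exact h1
  · intro g hg g' hg'
    show hamm (φ (q (g * g'))) (φ (q g) * φ (q g')) < ε
    rw [map_mul]
    exact h2 _ (mem_image_of_mem _ hg) _ (mem_image_of_mem _ hg')
  · intro s hs g hg hgs x hx hgx
    have e : (q g)⁻¹ • x = g⁻¹ • x := by rw [← map_inv, hq]
    show π (φ (q g) s) x = π s (g⁻¹ • x)
    rw [h6 s hs _ (mem_image_of_mem _ hg) hgs x hx (by rw [e]; exact hgx), e]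

/-- soficity passes to subgroups -/
theorem isSofic_comap {G G' : Type} [Group G] [Group G'] (q : G →* G')
    (hq : Function.Injective q) (h : IsSofic G') : IsSofic G := by
  classical
  intro A h1 ε hε
  obtain ⟨n, hn, φ, p1, p2, p3⟩ := h (A.image q) (mem_image.2 ⟨1, h1, map_one q⟩) ε hε
  refine ⟨n, hn, fun g => φ (q g), ?_, ?_, ?_⟩
  · show φ (q 1) = 1
    rw [map_one]; exact p1
  · intro a ha b hb hab
    show hamm (φ (q (a * b))) (φ (q a) * φ (q b)) < ε
    rw [map_mul]
    exact p2 _ (mem_image_of_mem _ ha) _ (mem_image_of_mem _ hb)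
      (by rw [← map_mul]; exact mem_image_of_mem _ hab)
  · intro a ha ha1
    exact p3 _ (mem_image_of_mem _ ha) (fun e => ha1 (hq (e.trans (map_one q).symm)))

/-- free groups are sofic and all their actions on relational structures are sofic -/
theorem free_case {G : Type} [Group G] (h : ∃ ι : Type, Nonempty (G ≃* FreeGroup ι)) :
    IsSofic G ∧ ∀ (S : Sig) (X : Type) (r : Str S X) [MulAction G X],
      Invariant r G → SoficAction r G := by
  obtain ⟨ι, ⟨q⟩⟩ := h
  refine ⟨isSofic_comap q.toMonoidHom q.injective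
    (isSofic_of_regular (soficAction_of_free (ι := ι) fun g l => l.elim)), ?_⟩
  intro S X r _ hr
  let _ : MulAction (FreeGroup ι) X := MulAction.compHom X q.symm.toMonoidHom
  have hact : ∀ (g : FreeGroup ι) (x : X), g • x = q.symm g • x := fun _ _ => rfl
  have hr' : Invariant r (FreeGroup ι) := fun g l x => hr (q.symm g) l x
  refine soficAction_comap (G' := FreeGroup ι) q.toMonoidHom (fun g x => ?_)
    (soficAction_of_free hr')
  rw [hact]
  show q.symm (q g) • x = g • x
  rw [q.symm_apply_apply]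

end Pool.Agent.Q293.HP
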