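import Mathlib

/-!
# The biased walk: one step operators on histories
-/

set_option autoImplicit false

open Finset

namespace Q293.Bias

variable {V : Type} [Fintype V] [DecidableEq V] (G : SimpleGraph V) [DecidableRel G.Adj]

/-- transition weights of the biased walk given the history (last position first) -/
noncomputable def wt (ε : ℝ) (σ : List V → V) : List V → V → ℝ
  | [], _ => 0
  | u :: h, y => (1 - ε) / G.degree u * (if G.Adj u y then 1 else 0)
      + ε * (if y = σ (u :: h) then 1 else 0)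

/-- one step operator -/
noncomputable def stp (ε : ℝ) (σ : List V → V) (F : List V → ℝ) (h : List V) : ℝ :=
  ∑ y, wt G ε σ h y * F (y :: h)

variable {G} {ε : ℝ} {σ : List V → V} {d : ℕ}

lemma wt_nonneg (h0 : 0 ≤ ε) (h1 : ε ≤ 1) (h : List V) (y : V) : 0 ≤ wt G ε σ h y := by
  cases h with
  | nil => exact le_rfl
  | cons u h =>
    rw [wt]
    have h2 : 0 ≤ (1 - ε) / G.degree u := div_nonneg (by linarith) (Nat.cast_nonneg _)
    split_ifs <;> nlinarith

lemma sum_wt (hd : G.IsRegularOfDegree d) (hd0 : 0 < d) (u : V) (h : List V) :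
    ∑ y, wt G ε σ (u :: h) y = 1 := by
  simp only [wt]
  rw [Finset.sum_add_distrib, ← Finset.mul_sum, ← Finset.mul_sum]
  have h1 : ∑ y, (if G.Adj u y then (1 : ℝ) else 0) = d := by
    rw [Finset.sum_boole]
    have : (Finset.univ.filter fun y => G.Adj u y) = G.neighborFinset u := by
      ext y; simp
    rw [this, G.card_neighborFinset_eq_degree, hd u]
  rw [h1, hd u]
  have : (d : ℝ) ≠ 0 := by positivity
  simp
  field_simp
  ring

lemma wt_adj (hσ : ∀ u h, G.Adj u (σ (u :: h))) {u : V} {h : List V} {y : V}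
    (hy : wt G ε σ (u :: h) y ≠ 0) : G.Adj u y := by
  by_contra hn
  apply hy
  rw [wt, if_neg hn]
  have : y ≠ σ (u :: h) := by
    rintro rfl; exact hn (hσ u h)
  rw [if_neg this]; ring

lemma stp_mono (h0 : 0 ≤ ε) (h1 : ε ≤ 1) {F F' : List V → ℝ} (hF : ∀ h, h ≠ [] → F h ≤ F' h)
    (h : List V) : stp G ε σ F h ≤ stp G ε σ F' h := by
  unfold stp
  apply Finset.sum_le_sum
  intro y _
  exact mul_le_mul_of_nonneg_left (hF _ (by simp)) (wt_nonneg h0 h1 h y)

lemma stp_iter_mono (h0 : 0 ≤ ε) (h1 : ε ≤ 1) {F F' : List V → ℝ}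
    (hF : ∀ h, h ≠ [] → F h ≤ F' h) (t : ℕ) :
    ∀ h, h ≠ [] → (stp G ε σ)^[t] F h ≤ (stp G ε σ)^[t] F' h := by
  induction t with
  | zero => exact hF
  | succ t ih =>
    intro h _
    rw [Function.iterate_succ_apply', Function.iterate_succ_apply']
    exact stp_mono h0 h1 ih h

/-- supermartingales -/
lemma stp_iter_le (h0 : 0 ≤ ε) (h1 : ε ≤ 1) {F : List V → ℝ}
    (hF : ∀ h, h ≠ [] → stp G ε σ F h ≤ F h) (t : ℕ) :
    ∀ h, h ≠ [] → (stp G ε σ)^[t] F h ≤ F h := by
  induction t with
  | zero => intro h _; exact le_rfl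
  | succ t ih =>
    intro h hh
    rw [Function.iterate_succ_apply']
    exact (stp_mono h0 h1 ih h).trans (hF h hh)

/-- submartingales -/
lemma le_stp_iter (h0 : 0 ≤ ε) (h1 : ε ≤ 1) {F : List V → ℝ}
    (hF : ∀ h, h ≠ [] → F h ≤ stp G ε σ F h) (t : ℕ) :
    ∀ h, h ≠ [] → F h ≤ (stp G ε σ)^[t] F h := by
  induction t with
  | zero => intro h _; exact le_rfl
  | succ t ih =>
    intro h hh
    rw [Function.iterate_succ_apply']
    exact (hF h hh).trans (stp_mono h0 h1 ih h)

lemma stp_add (F F' : List V → ℝ) (h : List V) :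
    stp G ε σ (fun h => F h + F' h) h = stp G ε σ F h + stp G ε σ F' h := by
  unfold stp
  rw [← Finset.sum_add_distrib]
  exact Finset.sum_congr rfl fun y _ => by ring

lemma stp_smul (c : ℝ) (F : List V → ℝ) (h : List V) :
    stp G ε σ (fun h => c * F h) h = c * stp G ε σ F h := by
  unfold stp
  rw [Finset.mul_sum]
  exact Finset.sum_congr rfl fun y _ => by ring

lemma stp_iter_add (F F' : List V → ℝ) (t : ℕ) :
    ∀ h, (stp G ε σ)^[t] (fun h => F h + F' h) h
      = (stp G ε σ)^[t] F h + (stp G ε σ)^[t] F' h := by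
  induction t with
  | zero => intro h; rfl
  | succ t ih =>
    intro h
    rw [Function.iterate_succ_apply', Function.iterate_succ_apply', Function.iterate_succ_apply',
      ← stp_add]
    congr 1
    funext h
    exact ih h

lemma stp_iter_smul (c : ℝ) (F : List V → ℝ) (t : ℕ) :
    ∀ h, (stp G ε σ)^[t] (fun h => c * F h) h = c * (stp G ε σ)^[t] F h := by
  induction t with
  | zero => intro h; rfl
  | succ t ih =>
    intro h
    rw [Function.iterate_succ_apply', Function.iterate_succ_apply', ← stp_smul]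
    congr 1
    funext h
    exact ih h

lemma stp_iter_zero (t : ℕ) : ∀ h, (stp G ε σ)^[t] (fun _ => (0 : ℝ)) h = 0 := by
  induction t with
  | zero => intro h; rfl
  | succ t ih =>
    intro h
    rw [Function.iterate_succ_apply']
    change ∑ y, wt G ε σ h y * (stp G ε σ)^[t] (fun _ => (0 : ℝ)) (y :: h) = 0
    apply Finset.sum_eq_zero
    intro y _
    rw [ih]; ring

lemma stp_iter_sum {ι : Type*} (s : Finset ι) (F : ι → List V → ℝ) (t : ℕ) (h : List V) :
    (stp G ε σ)^[t] (fun h => ∑ i ∈ s, F i h) h = ∑ i ∈ s, (stp G ε σ)^[t] (F i) h := by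
  classical
  induction s using Finset.induction_on with
  | empty => simp only [Finset.sum_empty]; exact stp_iter_zero t h
  | insert a s ha ih =>
    have h1 : (fun h => ∑ i ∈ insert a s, F i h) = fun h => F a h + ∑ i ∈ s, F i h := by
      funext h
      rw [Finset.sum_insert ha]
    rw [Finset.sum_insert ha, ← ih, h1, stp_iter_add]

/-- not everything has been visited -/
noncomputable def unc1 (h : List V) : ℝ := open Classical in if ∃ x, x ∉ h then 1 else 0

lemma unc1_nonneg (h : List V) : 0 ≤ unc1 h := by unfold unc1; split_ifs <;> norm_num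

lemma unc1_le (h : List V) : unc1 h ≤ 1 := by unfold unc1; split_ifs <;> norm_num

/-- number of earlier times at which not everything had been visited -/
noncomputable def unc : List V → ℝ
  | [] => 0
  | [_] => 0
  | _ :: u :: h => unc (u :: h) + unc1 (u :: h)

lemma unc_cons (y : V) {h : List V} (hh : h ≠ []) : unc (y :: h) = unc h + unc1 h := by
  cases h with
  | nil => exact absurd rfl hh
  | cons u h => rfl

lemma stp_iter_unc (hd : G.IsRegularOfDegree d) (hd0 : 0 < d) (t : ℕ) :
    ∀ h : List V, h ≠ [] → (stp G ε σ)^[t] unc h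
      = unc h + ∑ s ∈ Finset.range t, (stp G ε σ)^[s] unc1 h := by
  induction t with
  | zero => intro h _; simp
  | succ t ih =>
    intro h hh
    obtain ⟨u, h', rfl⟩ := List.exists_cons_of_ne_nil hh
    rw [Function.iterate_succ_apply', Finset.sum_range_succ']
    have h1 : ∀ y, (stp G ε σ)^[t] unc (y :: u :: h')
        = (unc (u :: h') + unc1 (u :: h')) + ∑ s ∈ Finset.range t,
          (stp G ε σ)^[s] unc1 (y :: u :: h') := by
      intro y
      rw [ih _ (by simp)]
      rfl
    have h2 : ∀ y, wt G ε σ (u :: h') y * (stp G ε σ)^[t] unc (y :: u :: h')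
        = wt G ε σ (u :: h') y * (unc (u :: h') + unc1 (u :: h')) + ∑ s ∈ Finset.range t,
          wt G ε σ (u :: h') y * (stp G ε σ)^[s] unc1 (y :: u :: h') := by
      intro y
      rw [h1, mul_add, Finset.mul_sum]
    have h3 : ∑ y, wt G ε σ (u :: h') y * (stp G ε σ)^[t] unc (y :: u :: h')
        = (unc (u :: h') + unc1 (u :: h')) + ∑ s ∈ Finset.range t, ∑ y,
          wt G ε σ (u :: h') y * (stp G ε σ)^[s] unc1 (y :: u :: h') := by
      simp_rw [h2]
      rw [Finset.sum_add_distrib, ← Finset.sum_mul, sum_wt hd hd0, one_mul, Finset.sum_comm]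
    have h4 : ∀ s, (stp G ε σ)^[s + 1] unc1 (u :: h')
        = ∑ y, wt G ε σ (u :: h') y * (stp G ε σ)^[s] unc1 (y :: u :: h') := by
      intro s
      rw [Function.iterate_succ_apply']
      rfl
    change ∑ y, wt G ε σ (u :: h') y * (stp G ε σ)^[t] unc (y :: u :: h') = _
    rw [h3]
    simp_rw [h4]
    simp only [Function.iterate_zero, id_eq]
    ring

end Q293.Bias
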