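import Pool.Agent.Q293.BiasA

/-!
# Survival of exposures
-/

set_option autoImplicit false

open Finset

namespace Q293.Bias

variable {V : Type} [Fintype V] [DecidableEq V] (G : SimpleGraph V) [DecidableRel G.Adj]

/-- number of exposures survived by the vertex `x` before it is visited -/
def sx (x : V) : List V → ℕ
  | [] => 0
  | [_] => 0
  | y :: u :: h => sx x (u :: h) + if G.Adj u x ∧ x ∉ (u :: h) ∧ y ≠ x then 1 else 0

/-- conditional probability that `x` survives `m` exposures -/
noncomputable def rr (m : ℕ) (p : ℝ) (x : V) (h : List V) : ℝ :=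
  if x ∈ h ∧ sx G x h < m then 0 else (1 - p) ^ (m - sx G x h)

variable {G} {ε : ℝ} {σ : List V → V} {d m : ℕ} {p : ℝ}

lemma rr_nonneg (hp : p ≤ 1) (x : V) (h : List V) : 0 ≤ rr G m p x h := by
  unfold rr
  split_ifs
  · exact le_rfl
  · exact pow_nonneg (by linarith) _

lemma rr_le_one (hp0 : 0 ≤ p) (hp : p ≤ 1) (x : V) (h : List V) : rr G m p x h ≤ 1 := by
  unfold rr
  split_ifs
  · norm_num
  · exact pow_le_one₀ (by linarith) (by linarith)

/-- the vertices exposed at the next step -/
def actv (m : ℕ) (x : V) (h : List V) (u : V) : Prop := G.Adj u x ∧ x ∉ h ∧ sx G x h < m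

instance (m : ℕ) (x : V) (h : List V) (u : V) : Decidable (actv (G := G) m x h u) := by
  unfold actv; infer_instance

lemma rr_step_hit {x u : V} {h : List V} (ha : actv (G := G) m x (u :: h) u) :
    rr G m p x (x :: u :: h) = 0 := by
  unfold rr
  rw [if_pos]
  refine ⟨by simp, ?_⟩
  rw [sx, if_neg (by simp)]
  exact ha.2.2

lemma rr_step_miss (hp : p < 1) {x u y : V} {h : List V} (ha : actv (G := G) m x (u :: h) u)
    (hy : y ≠ x) : rr G m p x (y :: u :: h) = rr G m p x (u :: h) / (1 - p) := by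
  have h1 : sx G x (y :: u :: h) = sx G x (u :: h) + 1 := by
    rw [sx, if_pos ⟨ha.1, ha.2.1, hy⟩]
  have h2 : x ∉ (y :: u :: h) := by
    rw [List.mem_cons, not_or]; exact ⟨fun e => hy e.symm, ha.2.1⟩
  have h3 := ha.2.2
  unfold rr
  rw [if_neg (fun hc => h2 hc.1), if_neg (fun hc => ha.2.1 hc.1), h1]
  have h4 : m - sx G x (u :: h) = (m - (sx G x (u :: h) + 1)) + 1 := by omega
  rw [h4, pow_succ]
  have : (1 - p) ≠ 0 := by linarith
  field_simp

lemma rr_step_inactive {x u y : V} {h : List V} (ha : ¬ actv (G := G) m x (u :: h) u)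
    (hy : G.Adj u y) : rr G m p x (y :: u :: h) = rr G m p x (u :: h) := by
  by_cases hx : x ∈ (u :: h)
  · have h1 : sx G x (y :: u :: h) = sx G x (u :: h) := by
      rw [sx, if_neg (fun hc => hc.2.1 hx)]; rfl
    unfold rr
    rw [h1]
    have h2 : (x ∈ (y :: u :: h)) ↔ x ∈ (u :: h) := by
      constructor
      · intro _; exact hx
      · intro hh; exact List.mem_cons_of_mem _ hh
    simp only [h2]
  · by_cases hadj : G.Adj u x
    · have hs : m ≤ sx G x (u :: h) := by
        by_contra hc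
        exact ha ⟨hadj, hx, by omega⟩
      have hs2 : m ≤ sx G x (y :: u :: h) := by
        rw [sx]; omega
      unfold rr
      rw [if_neg (fun hc => by omega), if_neg (fun hc => by omega),
        Nat.sub_eq_zero_of_le hs, Nat.sub_eq_zero_of_le hs2]
    · have h1 : sx G x (y :: u :: h) = sx G x (u :: h) := by
        rw [sx, if_neg (fun hc => hadj hc.1)]; rfl
      have hyx : y ≠ x := fun e => hadj (e ▸ hy)
      have h2 : (x ∈ (y :: u :: h)) ↔ x ∈ (u :: h) := by
        rw [List.mem_cons]
        constructor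
        · rintro (e | hh)
          · exact absurd e.symm hyx
          · exact hh
        · exact Or.inr
      unfold rr
      rw [h1]
      simp only [h2]

lemma rr_inactive_sum (hd : G.IsRegularOfDegree d) (hd0 : 0 < d)
    (hσ : ∀ u h, G.Adj u (σ (u :: h))) {x u : V} {h : List V}
    (ha : ¬ actv (G := G) m x (u :: h) u) :
    ∑ y, wt G ε σ (u :: h) y * rr G m p x (y :: u :: h) = rr G m p x (u :: h) := by
  calc ∑ y, wt G ε σ (u :: h) y * rr G m p x (y :: u :: h)
      = ∑ y, wt G ε σ (u :: h) y * rr G m p x (u :: h) := by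
        apply Finset.sum_congr rfl
        intro y _
        by_cases hy : wt G ε σ (u :: h) y = 0
        · rw [hy]; ring
        · rw [rr_step_inactive ha (wt_adj hσ hy)]
    _ = rr G m p x (u :: h) := by rw [← Finset.sum_mul, sum_wt hd hd0, one_mul]

lemma rr_active_sum (hd : G.IsRegularOfDegree d) (hd0 : 0 < d) (hp : p < 1)
    (hpd : p = (1 - ε) / d) {x u : V} {h : List V}
    (ha : actv (G := G) m x (u :: h) u) :
    ∑ y, wt G ε σ (u :: h) y * rr G m p x (y :: u :: h)
      = rr G m p x (u :: h) * (1 - ε / (1 - p) * (if x = σ (u :: h) then 1 else 0)) := by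
  have hp1 : (1 - p) ≠ 0 := by linarith
  have h1 : ∀ y, wt G ε σ (u :: h) y * rr G m p x (y :: u :: h)
      = wt G ε σ (u :: h) y * (rr G m p x (u :: h) / (1 - p))
        - (if y = x then wt G ε σ (u :: h) x * (rr G m p x (u :: h) / (1 - p)) else 0) := by
    intro y
    by_cases hy : y = x
    · subst hy
      rw [rr_step_hit ha, if_pos rfl]; ring
    · rw [rr_step_miss hp ha hy, if_neg hy]; ring
  simp_rw [h1]
  rw [Finset.sum_sub_distrib, ← Finset.sum_mul, sum_wt hd hd0, Finset.sum_ite_eq' _ x,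
    if_pos (Finset.mem_univ _)]
  have h2 : wt G ε σ (u :: h) x = p + ε * (if x = σ (u :: h) then 1 else 0) := by
    rw [wt, if_pos ha.1, hd u, hpd]; ring
  rw [h2]
  field_simp
  ring

/-- the submartingale -/
noncomputable def Phi (G : SimpleGraph V) [DecidableRel G.Adj] (m : ℕ) (p ε : ℝ) (h : List V) : ℝ :=
  ∑ x, rr G m p x h + ε / (1 - p) * unc h

lemma Phi_sub (hd : G.IsRegularOfDegree d) (hd0 : 0 < d) (h0 : 0 ≤ ε)
    (hσ : ∀ u h, G.Adj u (σ (u :: h))) (hp0 : 0 ≤ p) (hp : p < 1)
    (hpd : p = (1 - ε) / d) : ∀ h, h ≠ [] → Phi G m p ε h ≤ stp G ε σ (Phi G m p ε) h := by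
  intro h hh
  obtain ⟨u, h', rfl⟩ := List.exists_cons_of_ne_nil hh
  have hc : 0 ≤ ε / (1 - p) := div_nonneg h0 (by linarith)
  have h1 : stp G ε σ (Phi G m p ε) (u :: h')
      = ∑ x, (∑ y, wt G ε σ (u :: h') y * rr G m p x (y :: u :: h'))
        + ε / (1 - p) * (unc (u :: h') + unc1 (u :: h')) := by
    unfold stp Phi
    have h2 : ∀ y, wt G ε σ (u :: h') y * (∑ x, rr G m p x (y :: u :: h')
        + ε / (1 - p) * unc (y :: u :: h'))
        = ∑ x, wt G ε σ (u :: h') y * rr G m p x (y :: u :: h')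
          + wt G ε σ (u :: h') y * (ε / (1 - p) * (unc (u :: h') + unc1 (u :: h'))) := by
      intro y
      rw [mul_add, Finset.mul_sum]
      rfl
    simp_rw [h2]
    rw [Finset.sum_add_distrib, ← Finset.sum_mul, sum_wt hd hd0, one_mul, Finset.sum_comm]
  rw [h1]
  unfold Phi
  have h3 : ∑ x, rr G m p x (u :: h') - ε / (1 - p) * unc1 (u :: h')
      ≤ ∑ x, (∑ y, wt G ε σ (u :: h') y * rr G m p x (y :: u :: h')) := by
    have h4 : ∀ x, rr G m p x (u :: h')
        - (if x = σ (u :: h') then ε / (1 - p) * unc1 (u :: h') else 0)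
        ≤ ∑ y, wt G ε σ (u :: h') y * rr G m p x (y :: u :: h') := by
      intro x
      by_cases ha : actv (G := G) m x (u :: h') u
      · rw [rr_active_sum hd hd0 hp hpd ha]
        have h5 := rr_le_one (G := G) (m := m) hp0 hp.le x (u :: h')
        have h6 := rr_nonneg (G := G) (m := m) hp.le x (u :: h')
        split_ifs with hx
        · have h7 : unc1 (u :: h') = 1 := by
            unfold unc1
            rw [if_pos ⟨x, ha.2.1⟩]
          rw [h7]
          nlinarith
        · simp
      · rw [rr_inactive_sum hd hd0 hσ ha]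
        split_ifs
        · have := unc1_nonneg (u :: h')
          nlinarith
        · simp
    calc ∑ x, rr G m p x (u :: h') - ε / (1 - p) * unc1 (u :: h')
        = ∑ x, (rr G m p x (u :: h')
          - (if x = σ (u :: h') then ε / (1 - p) * unc1 (u :: h') else 0)) := by
          rw [Finset.sum_sub_distrib, Finset.sum_ite_eq' _ (σ (u :: h')), if_pos (Finset.mem_univ _)]
      _ ≤ _ := Finset.sum_le_sum fun x _ => h4 x
  nlinarith

/-- the supermartingale -/
noncomputable def Psi (G : SimpleGraph V) [DecidableRel G.Adj] (m : ℕ) (p : ℝ) (S : Finset V)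
    (h : List V) : ℝ := ∏ x ∈ S, rr G m p x h

lemma Psi_super (hd : G.IsRegularOfDegree d) (hd0 : 0 < d) (h0 : 0 ≤ ε)
    (hσ : ∀ u h, G.Adj u (σ (u :: h))) (hp0 : 0 ≤ p) (hp : p < 1)
    (hpd : p = (1 - ε) / d) (S : Finset V) :
    ∀ h, h ≠ [] → stp G ε σ (Psi G m p S) h ≤ Psi G m p S h := by
  intro h hh
  obtain ⟨u, h', rfl⟩ := List.exists_cons_of_ne_nil hh
  set A := S.filter fun x => actv (G := G) m x (u :: h') u with hA
  have hp1 : 0 < 1 - p := by linarith
  have hΨ0 : 0 ≤ Psi G m p S (u :: h') := Finset.prod_nonneg fun x _ => rr_nonneg hp.le x _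
  have h1 : ∀ y, wt G ε σ (u :: h') y * Psi G m p S (y :: u :: h')
      = (if y ∈ A then 0 else wt G ε σ (u :: h') y) * (Psi G m p S (u :: h') / (1 - p) ^ A.card) := by
    intro y
    by_cases hy0 : wt G ε σ (u :: h') y = 0
    · rw [hy0]; simp
    have hadj := wt_adj hσ hy0
    by_cases hyA : y ∈ A
    · rw [if_pos hyA, zero_mul]
      have h2 : Psi G m p S (y :: u :: h') = 0 := by
        unfold Psi
        rw [hA, Finset.mem_filter] at hyA
        exact Finset.prod_eq_zero hyA.1 (rr_step_hit hyA.2)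
      rw [h2, mul_zero]
    · rw [if_neg hyA]
      congr 1
      unfold Psi
      have h2 : ∀ x ∈ S, rr G m p x (y :: u :: h')
          = rr G m p x (u :: h') * (if actv (G := G) m x (u :: h') u then (1 - p)⁻¹ else 1) := by
        intro x hx
        by_cases ha : actv (G := G) m x (u :: h') u
        · have hyx : y ≠ x := by
            rintro rfl
            exact hyA (Finset.mem_filter.2 ⟨hx, ha⟩)
          rw [rr_step_miss hp ha hyx, if_pos ha]; rfl
        · rw [rr_step_inactive ha hadj, if_neg ha, mul_one]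
      rw [Finset.prod_congr rfl h2, Finset.prod_mul_distrib, Finset.prod_ite, Finset.prod_const,
        Finset.prod_const_one, mul_one, ← hA, inv_pow]
      rfl
  have h2 : stp G ε σ (Psi G m p S) (u :: h')
      = (∑ y, (if y ∈ A then 0 else wt G ε σ (u :: h') y)) * (Psi G m p S (u :: h') / (1 - p) ^ A.card) := by
    rw [Finset.sum_mul]
    exact Finset.sum_congr rfl fun y _ => h1 y
  have h3 : ∑ y, (if y ∈ A then 0 else wt G ε σ (u :: h') y) ≤ (1 - p) ^ A.card := by
    have h4 : ∑ y, (if y ∈ A then 0 else wt G ε σ (u :: h') y)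
        = 1 - ∑ y ∈ A, wt G ε σ (u :: h') y := by
      rw [← sum_wt (ε := ε) (σ := σ) hd hd0 u h']
      have h5 : ∑ y ∈ A, wt G ε σ (u :: h') y = ∑ y, (if y ∈ A then wt G ε σ (u :: h') y else 0) := by
        rw [Finset.sum_ite_mem, Finset.univ_inter]
      rw [h5, ← Finset.sum_sub_distrib]
      apply Finset.sum_congr rfl
      intro y _
      split_ifs <;> ring
    have h5 : (A.card : ℝ) * p ≤ ∑ y ∈ A, wt G ε σ (u :: h') y := by
      rw [← nsmul_eq_mul]
      apply Finset.card_nsmul_le_sum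
      intro y hy
      rw [hA, Finset.mem_filter] at hy
      rw [wt, if_pos hy.2.1, hd u, ← hpd]
      have : 0 ≤ ε * (if y = σ (u :: h') then 1 else 0) := by
        split_ifs <;> simp [h0]
      linarith
    have h6 := one_add_mul_le_pow (show (-2 : ℝ) ≤ -p by linarith) A.card
    rw [h4]
    have h7 : (1 : ℝ) + (-p) = 1 - p := by ring
    rw [h7] at h6
    linarith
  rw [h2]
  calc (∑ y, (if y ∈ A then 0 else wt G ε σ (u :: h') y)) * (Psi G m p S (u :: h') / (1 - p) ^ A.card)
      ≤ (1 - p) ^ A.card * (Psi G m p S (u :: h') / (1 - p) ^ A.card) :=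
        mul_le_mul_of_nonneg_right h3 (div_nonneg hΨ0 (by positivity))
    _ = Psi G m p S (u :: h') := by
        have : (1 - p) ^ A.card ≠ 0 := by positivity
        field_simp

/-- the survivors -/
def surv (G : SimpleGraph V) [DecidableRel G.Adj] (m : ℕ) (h : List V) : Finset V :=
  Finset.univ.filter fun x => m ≤ sx G x h

lemma rr_surv {x : V} {h : List V} (hx : x ∈ surv G m h) : rr G m p x h = 1 := by
  unfold surv at hx
  rw [Finset.mem_filter] at hx
  unfold rr
  rw [if_neg (fun hc => by omega), Nat.sub_eq_zero_of_le hx.2, pow_zero]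

/-- exponential moments of the number of survivors in a set -/
lemma pow_card_le (hp : p ≤ 1) (A : Finset V) (h : List V) :
    (2 : ℝ) ^ (A ∩ surv G m h).card ≤ ∑ S ∈ A.powerset, Psi G m p S h := by
  have h1 : (2 : ℝ) ^ (A ∩ surv G m h).card = ∑ S ∈ (A ∩ surv G m h).powerset, (1 : ℝ) := by
    rw [Finset.sum_const, Finset.card_powerset, nsmul_eq_mul]; simp
  rw [h1]
  calc ∑ S ∈ (A ∩ surv G m h).powerset, (1 : ℝ)
      = ∑ S ∈ (A ∩ surv G m h).powerset, Psi G m p S h := by
        apply Finset.sum_congr rfl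
        intro S hS
        rw [Finset.mem_powerset] at hS
        unfold Psi
        rw [Finset.prod_eq_one]
        intro x hx
        exact rr_surv (Finset.mem_inter.1 (hS hx)).2
    _ ≤ ∑ S ∈ A.powerset, Psi G m p S h := by
        apply Finset.sum_le_sum_of_subset_of_nonneg
        · exact Finset.powerset_mono.2 Finset.inter_subset_left
        · intro S _ _
          exact Finset.prod_nonneg fun x _ => rr_nonneg hp x h

lemma rr_start (v x : V) (hm : 0 < m) (hp : p ≤ 1) : rr G m p x [v] ≤ (1 - p) ^ m := by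
  unfold rr
  split_ifs
  · exact pow_nonneg (by linarith) _
  · rw [show sx G x [v] = 0 from rfl, Nat.sub_zero]

lemma rr_start_eq (v x : V) (hx : x ≠ v) : rr G m p x [v] = (1 - p) ^ m := by
  unfold rr
  rw [if_neg (by simp [hx]), show sx G x [v] = 0 from rfl, Nat.sub_zero]

/-- expected exponential moment -/
lemma exp_moment (hd : G.IsRegularOfDegree d) (hd0 : 0 < d) (h0 : 0 ≤ ε) (h1 : ε ≤ 1)
    (hσ : ∀ u h, G.Adj u (σ (u :: h))) (hp0 : 0 ≤ p) (hp : p < 1)
    (hpd : p = (1 - ε) / d) (hm : 0 < m) (A : Finset V) (v : V) (t : ℕ) :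
    (stp G ε σ)^[t] (fun h => (2 : ℝ) ^ (A ∩ surv G m h).card) [v]
      ≤ ((1 - p) ^ m + 1) ^ A.card := by
  calc (stp G ε σ)^[t] (fun h => (2 : ℝ) ^ (A ∩ surv G m h).card) [v]
      ≤ (stp G ε σ)^[t] (fun h => ∑ S ∈ A.powerset, Psi G m p S h) [v] :=
        stp_iter_mono h0 h1 (fun h _ => pow_card_le hp.le A h) t [v] (by simp)
    _ = ∑ S ∈ A.powerset, (stp G ε σ)^[t] (Psi G m p S) [v] := stp_iter_sum _ _ t [v]
    _ ≤ ∑ S ∈ A.powerset, Psi G m p S [v] :=
        Finset.sum_le_sum fun S _ =>
          stp_iter_le h0 h1 (Psi_super hd hd0 h0 hσ hp0 hp hpd S) t [v] (by simp)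
    _ ≤ ∑ S ∈ A.powerset, ((1 - p) ^ m) ^ S.card * 1 ^ (A.card - S.card) := by
        apply Finset.sum_le_sum
        intro S _
        rw [one_pow, mul_one]
        unfold Psi
        calc ∏ x ∈ S, rr G m p x [v] ≤ ∏ _x ∈ S, (1 - p) ^ m :=
              Finset.prod_le_prod (fun x _ => rr_nonneg hp.le x _) fun x _ => rr_start v x hm hp.le
          _ = _ := Finset.prod_const _
    _ = ((1 - p) ^ m + 1) ^ A.card := Finset.sum_pow_mul_eq_add_pow _ _ _

/-- exposures of a well spread set -/
lemma sum_sx_le (c : ℝ) (hc : 0 ≤ c) (B : Finset V)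
    (hB : ∀ u, ((B.filter fun x => G.Adj u x).card : ℝ) ≤ c) :
    ∀ h : List V, ∑ x ∈ B, (sx G x h : ℝ) ≤ c * unc h
  | [] => by simp [sx, unc]
  | [v] => by simp [sx, unc]
  | y :: u :: h => by
    have ih := sum_sx_le c hc B hB (u :: h)
    have h1 : ∀ x, (sx G x (y :: u :: h) : ℝ)
        = sx G x (u :: h) + if G.Adj u x ∧ x ∉ (u :: h) ∧ y ≠ x then 1 else 0 := by
      intro x
      rw [sx]; push_cast; rfl
    simp_rw [h1]
    rw [Finset.sum_add_distrib, unc_cons y (by simp), mul_add]
    apply add_le_add ih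
    by_cases hall : ∃ x, x ∉ (u :: h)
    · have h2 : unc1 (u :: h) = 1 := by unfold unc1; rw [if_pos hall]
      rw [h2, mul_one]
      refine le_trans ?_ (hB u)
      rw [Finset.card_filter]
      push_cast
      apply Finset.sum_le_sum
      intro x _
      by_cases hx : G.Adj u x
      · rw [if_pos hx]; split_ifs <;> norm_num
      · rw [if_neg hx, if_neg (fun hcon => hx hcon.1)]
    · have h2 : unc1 (u :: h) = 0 := by unfold unc1; rw [if_neg hall]
      rw [h2, mul_zero]
      apply le_of_eq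
      apply Finset.sum_eq_zero
      intro x _
      rw [if_neg]
      rintro ⟨_, hcon, _⟩
      exact hall ⟨x, hcon⟩

end Q293.Bias
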