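import Mathlib

/-!
# Processes with prescribed history dependent transition laws
-/

set_option autoImplicit false

open MeasureTheory Filter Topology

namespace Q293.HistWalk

section Exists

variable {V : Type} (v : V)

/-- the history up to time `n`, last position first -/
def hist (v : V) (ξ : List V → V) : ℕ → List V
  | 0 => [v]
  | n + 1 => ξ (hist v ξ n) :: hist v ξ n

/-- the position at time `n` -/
def proc (v : V) (n : ℕ) (ξ : List V → V) : V := (hist v ξ n).headD v

/-- the history of a sequence -/
def shist (s : ℕ → V) (n : ℕ) : List V := ((List.range (n + 1)).map s).reverse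

lemma shist_zero (s : ℕ → V) : shist s 0 = [s 0] := rfl

lemma shist_succ (s : ℕ → V) (n : ℕ) : shist s (n + 1) = s (n + 1) :: shist s n := by
  unfold shist
  rw [List.range_succ, List.map_append, List.reverse_append]
  rfl

lemma shist_length (s : ℕ → V) (n : ℕ) : (shist s n).length = n + 1 := by
  simp [shist]

lemma proc_succ (n : ℕ) (ξ : List V → V) : proc v (n + 1) ξ = ξ (hist v ξ n) := rfl

lemma proc_zero (ξ : List V → V) : proc v 0 ξ = v := rfl

lemma hist_eq (ξ : List V → V) (s : ℕ → V) (n : ℕ) :
    (∀ k ≤ n, proc v k ξ = s k) ↔ (s 0 = v ∧ ∀ k < n, ξ (shist s k) = s (k + 1)) := by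
  have key : ∀ n, (∀ k ≤ n, proc v k ξ = s k) → hist v ξ n = shist s n := by
    intro n
    induction n with
    | zero =>
      intro h
      rw [shist_zero, ← h 0 le_rfl]
      rfl
    | succ n ih =>
      intro h
      have h1 := ih fun k hk => h k (by omega)
      have h2 := h (n + 1) le_rfl
      rw [proc_succ] at h2
      rw [hist, h2, h1, shist_succ]
  induction n with
  | zero =>
    constructor
    · intro h
      exact ⟨(h 0 le_rfl).symm, fun k hk => absurd hk (Nat.not_lt_zero k)⟩
    · rintro ⟨h, _⟩ k hk
      rw [Nat.le_zero.1 hk, proc_zero, h]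
  | succ n ih =>
    constructor
    · intro h
      obtain ⟨h1, h2⟩ := ih.1 fun k hk => h k (by omega)
      refine ⟨h1, fun k hk => ?_⟩
      rcases Nat.lt_or_ge k n with hkn | hkn
      · exact h2 k hkn
      · have hkn' : k = n := by omega
        subst hkn'
        rw [← key k fun j hj => h j (by omega)]
        exact h (k + 1) le_rfl
    · rintro ⟨h1, h2⟩ k hk
      have h3 := ih.2 ⟨h1, fun j hj => h2 j (by omega)⟩
      rcases Nat.lt_or_ge k (n + 1) with hkn | hkn
      · exact h3 k (by omega)
      · have hkn' : k = n + 1 := by omega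
        subst hkn'
        rw [proc_succ, key n h3]
        exact h2 n (by omega)

variable [Countable V] [MeasurableSpace V] [DiscreteMeasurableSpace V]
variable (p : List V → PMF V)

/-- probability of a cylinder -/
theorem cylinder (s : ℕ → V) (n : ℕ) :
    Measure.infinitePi (fun h : List V => (p h).toMeasure) {ξ | ∀ k ≤ n, proc v k ξ = s k}
      = (open Classical in if s 0 = v then ∏ k ∈ Finset.range n, p (shist s k) (s (k + 1)) else 0) := by
  classical
  by_cases hs : s 0 = v
  · rw [if_pos hs]
    have hset : {ξ : List V → V | ∀ k ≤ n, proc v k ξ = s k}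
        = Set.pi (((Finset.range n).image fun k => shist s k : Finset (List V)) : Set (List V))
          (fun h => {s h.length}) := by
      ext ξ
      simp only [Set.mem_ofPred_eq, hist_eq, hs, true_and, Set.mem_pi, Finset.coe_image,
        Finset.coe_range, Set.mem_image, Set.mem_Iio, forall_exists_index, and_imp,
        forall_apply_eq_imp_iff₂, Set.mem_singleton_iff, shist_length]
    have hinj : Set.InjOn (fun k => shist s k) ((Finset.range n : Finset ℕ) : Set ℕ) := by
      intro k _ k' _ h
      have := congrArg List.length h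
      simp only [shist_length] at this
      omega
    rw [hset, Measure.infinitePi_pi _ (fun _ _ => MeasurableSet.of_discrete),
      Finset.prod_image hinj]
    apply Finset.prod_congr rfl
    intro k _
    rw [PMF.toMeasure_apply_singleton _ _ MeasurableSet.of_discrete, shist_length]
  · rw [if_neg hs]
    have : {ξ : List V → V | ∀ k ≤ n, proc v k ξ = s k} = ∅ := by
      ext ξ
      simp only [Set.mem_ofPred_eq, hist_eq, hs, false_and, Set.mem_empty_iff_false]
    rw [this, measure_empty]

lemma measurable_proc (n : ℕ) : Measurable (proc v n) := by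
  have h : ∀ n (l : List V), MeasurableSet {ξ : List V → V | hist v ξ n = l} := by
    intro n
    induction n with
    | zero =>
      intro l
      by_cases hl : [v] = l
      · have : {ξ : List V → V | hist v ξ 0 = l} = Set.univ := by
          ext ξ; simp [hist, hl]
        rw [this]; exact MeasurableSet.univ
      · have : {ξ : List V → V | hist v ξ 0 = l} = ∅ := by
          ext ξ; simp [hist, hl]
        rw [this]; exact MeasurableSet.empty
    | succ n ih =>
      intro l
      cases l with
      | nil =>
        have : {ξ : List V → V | hist v ξ (n + 1) = []} = ∅ := by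
          ext ξ; simp [hist]
        rw [this]; exact MeasurableSet.empty
      | cons a l =>
        have : {ξ : List V → V | hist v ξ (n + 1) = a :: l}
            = {ξ : List V → V | hist v ξ n = l} ∩ {ξ : List V → V | ξ l = a} := by
          ext ξ
          simp only [Set.mem_ofPred_eq, hist, List.cons.injEq, Set.mem_inter_iff]
          constructor
          · rintro ⟨h1, h2⟩
            rw [h2] at h1
            exact ⟨h2, h1⟩
          · rintro ⟨h1, h2⟩
            rw [h1]
            exact ⟨h2, rfl⟩
        rw [this]
        refine (ih l).inter ?_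
        have h1 : MeasurableSet ({a} : Set V) := MeasurableSet.of_discrete
        have h2 : Measurable (fun ξ : List V → V => ξ l) := measurable_pi_apply l
        exact h2 h1
  apply measurable_to_countable'
  intro a
  have : proc v n ⁻¹' {a} = ⋃ l : {l : List V // l.headD v = a}, {ξ | hist v ξ n = l.1} := by
    ext ξ
    simp only [Set.mem_preimage, Set.mem_singleton_iff, Set.mem_iUnion, Set.mem_ofPred_eq]
    constructor
    · intro hx
      exact ⟨⟨hist v ξ n, hx⟩, rfl⟩
    · rintro ⟨⟨l, hl⟩, hx⟩
      unfold proc
      rw [hx]; exact hl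
  rw [this]
  exact MeasurableSet.iUnion fun l => h n l.1

end Exists

/-- a product of numbers in `[0,1]` bounded by `1/(1+x_k)` with non-summable `x` tends to zero -/
lemma prod_tendsto_zero (t x : ℕ → ℝ) (ht0 : ∀ k, 0 ≤ t k) (hx : ∀ k, 0 ≤ x k)
    (htx : ∀ k, t k ≤ 1 / (1 + x k)) (hns : ¬ Summable x) :
    Tendsto (fun n => ∏ k ∈ Finset.range n, t k) atTop (𝓝 0) := by
  have h1 : ∀ n, 1 + ∑ k ∈ Finset.range n, x k ≤ ∏ k ∈ Finset.range n, (1 + x k) := by
    intro n
    induction n with
    | zero => simp
    | succ n ih =>
      rw [Finset.sum_range_succ, Finset.prod_range_succ]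
      have h2 : 0 ≤ ∑ k ∈ Finset.range n, x k := Finset.sum_nonneg fun k _ => hx k
      have h3 := hx n
      nlinarith [mul_le_mul_of_nonneg_right ih (by linarith : 0 ≤ 1 + x n)]
  have h2 : ∀ n, ∏ k ∈ Finset.range n, t k ≤ (1 + ∑ k ∈ Finset.range n, x k)⁻¹ := by
    intro n
    calc ∏ k ∈ Finset.range n, t k ≤ ∏ k ∈ Finset.range n, (1 + x k)⁻¹ := by
          apply Finset.prod_le_prod (fun k _ => ht0 k)
          intro k _
          have := htx k
          rwa [one_div] at this
      _ = (∏ k ∈ Finset.range n, (1 + x k))⁻¹ := by rw [Finset.prod_inv_distrib]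
      _ ≤ _ := by
          apply inv_anti₀ _ (h1 n)
          have : 0 ≤ ∑ k ∈ Finset.range n, x k := Finset.sum_nonneg fun k _ => hx k
          linarith
  have h3 : Tendsto (fun n => 1 + ∑ k ∈ Finset.range n, x k) atTop atTop := by
    apply tendsto_atTop_add_const_left
    exact (not_summable_iff_tendsto_nat_atTop_of_nonneg hx).1 hns
  exact squeeze_zero (fun n => Finset.prod_nonneg fun k _ => ht0 k) h2
    (tendsto_inv_atTop_zero.comp h3)

/-- eventually periodic sequences are countable -/
lemma countable_periodic {V : Type} [Countable V] :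
    {s : ℕ → V | ∃ N m : ℕ, 1 ≤ m ∧ ∀ n, N ≤ n → s (n + m) = s n}.Countable := by
  have h : {s : ℕ → V | ∃ N m : ℕ, 1 ≤ m ∧ ∀ n, N ≤ n → s (n + m) = s n}
      = ⋃ (N : ℕ) (m : ℕ), {s : ℕ → V | 1 ≤ m ∧ ∀ n, N ≤ n → s (n + m) = s n} := by
    ext s; simp
  rw [h]
  refine Set.countable_iUnion fun N => Set.countable_iUnion fun m => ?_
  have hinj : Set.InjOn (fun s : ℕ → V => fun i : Fin (N + m) => s i)
      {s : ℕ → V | 1 ≤ m ∧ ∀ n, N ≤ n → s (n + m) = s n} := by
    rintro s ⟨hm, hs⟩ s' ⟨_, hs'⟩ heq
    have hlt : ∀ i < N + m, s i = s' i := fun i hi => congrFun heq ⟨i, hi⟩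
    funext n
    induction n using Nat.strong_induction_on with
    | _ n ih =>
      rcases Nat.lt_or_ge n (N + m) with hn | hn
      · exact hlt n hn
      · have e : n = (n - m) + m := by omega
        rw [e, hs (n - m) (by omega), hs' (n - m) (by omega)]
        exact ih (n - m) (by omega)
  exact Set.MapsTo.countable_of_injOn (fun s _ => Set.mem_univ _) hinj Set.countable_univ

end Q293.HistWalk
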