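import Pool.Agent.Q293.BiasB
import Pool.Agent.Q293.HistWalk

/-!
# The biased walk as a process, and the lower bound for its cover time
-/

set_option autoImplicit false

open Finset MeasureTheory Filter Q293.HistWalk
open scoped ENNReal Topology

namespace Q293.Bias

section resample

variable {ι α : Type*} [DecidableEq ι] [MeasurableSpace α] (ν : ι → Measure α)
  [∀ i, IsProbabilityMeasure (ν i)]

lemma resample (v : ι) :
    MeasurePreserving (fun p : α × (ι → α) => Function.update p.2 v p.1)
      ((ν v).prod (Measure.infinitePi ν)) (Measure.infinitePi ν) := by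
  have hmeas : Measurable (fun p : α × (ι → α) => Function.update p.2 v p.1) := by
    have := (measurable_update' (a := v) (X := fun _ : ι => α))
    exact this.comp measurable_swap
  refine ⟨hmeas, ?_⟩
  apply Measure.eq_infinitePi
  intro s t ht
  rw [Measure.map_apply hmeas (MeasurableSet.pi s.countable_toSet fun i _ => ht i)]
  have hset : (fun p : α × (ι → α) => Function.update p.2 v p.1) ⁻¹' (Set.pi s t)
      = (if v ∈ s then t v else Set.univ) ×ˢ (Set.pi (s.erase v) t) := by
    ext ⟨c, x⟩
    simp only [Set.mem_preimage, Set.mem_pi, Set.mem_prod, Finset.mem_coe, Finset.mem_erase]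
    constructor
    · intro h
      constructor
      · split_ifs with hv
        · have := h v hv
          rwa [Function.update_self] at this
        · trivial
      · rintro i ⟨hi, his⟩
        have := h i his
        rwa [Function.update_of_ne hi] at this
    · rintro ⟨h1, h2⟩ i hi
      by_cases hiv : i = v
      · subst hiv
        rw [if_pos hi] at h1
        rwa [Function.update_self]
      · rw [Function.update_of_ne hiv]
        exact h2 i ⟨hiv, hi⟩
  rw [hset, Measure.prod_prod]
  have h1 := Measure.infinitePi_pi (μ := ν) (s := s.erase v) (t := t)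
    (fun i _ => ht i)
  rw [h1]
  split_ifs with hv
  · rw [Finset.mul_prod_erase s (fun i => ν i (t i)) hv]
  · rw [measure_univ, one_mul, Finset.erase_eq_of_notMem hv]

lemma indep_coord (v : ι) {E : Set (ι → α)} (hE : MeasurableSet E)
    (hup : ∀ ω c, Function.update ω v c ∈ E ↔ ω ∈ E) {F : Set α} (hF : MeasurableSet F) :
    (Measure.infinitePi ν) (E ∩ {ω | ω v ∈ F}) = (Measure.infinitePi ν) E * ν v F := by
  have hmeas : MeasurableSet (E ∩ {ω : ι → α | ω v ∈ F}) :=
    hE.inter ((measurable_pi_apply v) hF)
  rw [← (resample ν v).measure_preimage hmeas.nullMeasurableSet]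
  have hset : (fun p : α × (ι → α) => Function.update p.2 v p.1) ⁻¹' (E ∩ {ω | ω v ∈ F})
      = F ×ˢ E := by
    ext ⟨c, ω⟩
    simp only [Set.mem_preimage, Set.mem_inter_iff, Set.mem_ofPred_eq, Set.mem_prod,
      Function.update_self, hup]
    tauto
  rw [hset, Measure.prod_prod, mul_comm]

end resample

variable {V : Type} [Fintype V] [DecidableEq V] (G : SimpleGraph V) [DecidableRel G.Adj]

/-- the law of the next vertex given the history -/
noncomputable def stepPMF (ε : ℝ) (σ : List V → V) (h : List V) : PMF V :=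
  open Classical in if hw : ∑ y, ENNReal.ofReal (wt G ε σ h y) = 1 then
    PMF.ofFintype (fun y => ENNReal.ofReal (wt G ε σ h y)) hw else PMF.pure (σ h)

/-- the first time at which all vertices have been visited -/
noncomputable def coverTime (v : V) (ξ : List V → V) : ℝ≥0∞ :=
  ⨅ (n : ℕ) (_ : ∀ x, ∃ k ≤ n, proc v k ξ = x), (n : ℝ≥0∞)

/-- strategies: the history determines a neighbour of the current position -/
def IsStrategy (σ : List V → V) : Prop := ∀ u h, G.Adj u (σ (u :: h))

variable [MeasurableSpace V] [DiscreteMeasurableSpace V]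

/-- the law of the randomness of the walk under a strategy -/
noncomputable def walkLaw (ε : ℝ) (σ : List V → V) : Measure (List V → V) :=
  Measure.infinitePi fun h : List V => (stepPMF G ε σ h).toMeasure

/-- expected cover time under a strategy -/
noncomputable def expCover (ε : ℝ) (σ : List V → V) (v : V) : ℝ≥0∞ :=
  ∫⁻ ξ, coverTime v ξ ∂(walkLaw G ε σ)

/-- the biased cover time: worst starting vertex, best strategy -/
noncomputable def tcov (ε : ℝ) : ℝ≥0∞ :=
  ⨆ v : V, ⨅ (σ : List V → V) (_ : IsStrategy G σ), expCover G ε σ v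

variable {G} {ε : ℝ} {σ : List V → V} {d : ℕ}

omit [DecidableEq V] [Fintype V] [DiscreteMeasurableSpace V] [MeasurableSpace V] in
lemma hist_length (v : V) (ξ : List V → V) (n : ℕ) : (hist v ξ n).length = n + 1 := by
  induction n with
  | zero => rfl
  | succ n ih => rw [hist, List.length_cons, ih]

omit [Fintype V] [DiscreteMeasurableSpace V] [MeasurableSpace V] in
lemma hist_update (v : V) (ξ : List V → V) (n : ℕ) (l : List V) (c : V) (hl : n < l.length) :
    hist v (Function.update ξ l c) n = hist v ξ n := by
  induction n with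
  | zero => rfl
  | succ n ih =>
    rw [hist, hist, ih (by omega), Function.update_of_ne]
    intro h
    have := hist_length v ξ n
    rw [h] at this
    omega

lemma meas_hist (v : V) (n : ℕ) : ∀ l : List V, MeasurableSet {ξ : List V → V | hist v ξ n = l} := by
  induction n with
  | zero =>
    intro l
    by_cases hl : [v] = l
    · have : {ξ : List V → V | hist v ξ 0 = l} = Set.univ := by
        ext ξ; simp [hist, hl]
      rw [this]; exact MeasurableSet.univ
    · have : {ξ : List V → V | hist v ξ 0 = l} = ∅ := by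
        ext ξ; simp [hist, hl]
      rw [this]; exact MeasurableSet.empty
  | succ n ih =>
    intro l
    cases l with
    | nil =>
      have : {ξ : List V → V | hist v ξ (n + 1) = []} = ∅ := by
        ext ξ; simp [hist]
      rw [this]; exact MeasurableSet.empty
    | cons a l =>
      have : {ξ : List V → V | hist v ξ (n + 1) = a :: l}
          = {ξ : List V → V | hist v ξ n = l} ∩ {ξ : List V → V | ξ l = a} := by
        ext ξ
        simp only [Set.mem_ofPred_eq, hist, List.cons.injEq, Set.mem_inter_iff]
        constructor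
        · rintro ⟨h1, h2⟩
          rw [h2] at h1
          exact ⟨h2, h1⟩
        · rintro ⟨h1, h2⟩
          rw [h1]
          exact ⟨h2, rfl⟩
      rw [this]
      refine (ih l).inter ?_
      have h1 : MeasurableSet ({a} : Set V) := MeasurableSet.of_discrete
      have h2 : Measurable (fun ξ : List V → V => ξ l) := measurable_pi_apply l
      exact h2 h1

/-- one step -/
lemma step_prob (hd : G.IsRegularOfDegree d) (hd0 : 0 < d) (h0 : 0 ≤ ε) (h1 : ε ≤ 1) (v : V)
    (n : ℕ) (l : List V) (y : V) :
    walkLaw G ε σ {ξ | hist v ξ (n + 1) = y :: l}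
      = walkLaw G ε σ {ξ | hist v ξ n = l} * ENNReal.ofReal (wt G ε σ l y) := by
  cases l with
  | nil =>
    have e1 : {ξ : List V → V | hist v ξ n = []} = ∅ := by
      ext ξ
      simp only [Set.mem_ofPred_eq, Set.mem_empty_iff_false, iff_false]
      intro h
      have := hist_length v ξ n
      rw [h] at this
      simp at this
    have e2 : {ξ : List V → V | hist v ξ (n + 1) = [y]} = ∅ := by
      ext ξ
      simp only [Set.mem_ofPred_eq, Set.mem_empty_iff_false, iff_false]
      intro h
      have := hist_length v ξ (n + 1)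
      rw [h] at this
      simp at this
    rw [e1, e2]; simp
  | cons u l =>
    by_cases hlen : (u :: l).length = n + 1
    · have hset : {ξ : List V → V | hist v ξ (n + 1) = y :: u :: l}
          = {ξ : List V → V | hist v ξ n = u :: l} ∩ {ξ : List V → V | ξ (u :: l) ∈ ({y} : Set V)} := by
        ext ξ
        simp only [Set.mem_ofPred_eq, hist, List.cons.injEq, Set.mem_inter_iff,
          Set.mem_singleton_iff]
        constructor
        · rintro ⟨h1, h2⟩
          rw [h2] at h1
          exact ⟨h2, h1⟩
        · rintro ⟨h1, h2⟩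
          rw [h1]
          exact ⟨h2, rfl⟩
      unfold walkLaw
      rw [hset, indep_coord _ (u :: l) (meas_hist v n (u :: l)) _ MeasurableSet.of_discrete]
      · congr 1
        rw [PMF.toMeasure_apply_singleton _ _ MeasurableSet.of_discrete]
        have hsum : ∑ y, ENNReal.ofReal (wt G ε σ (u :: l) y) = 1 := by
          rw [← ENNReal.ofReal_sum_of_nonneg (fun y _ => wt_nonneg h0 h1 _ _), sum_wt hd hd0]
          simp
        unfold stepPMF
        rw [dif_pos hsum, PMF.ofFintype_apply]
      · intro ω c
        simp only [Set.mem_ofPred_eq]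
        rw [hist_update v ω n (u :: l) c (by omega)]
    · have e1 : {ξ : List V → V | hist v ξ n = u :: l} = ∅ := by
        ext ξ
        simp only [Set.mem_ofPred_eq, Set.mem_empty_iff_false, iff_false]
        intro h
        exact hlen (h ▸ hist_length v ξ n)
      have e2 : {ξ : List V → V | hist v ξ (n + 1) = y :: u :: l} = ∅ := by
        ext ξ
        simp only [Set.mem_ofPred_eq, Set.mem_empty_iff_false, iff_false]
        intro h
        apply hlen
        have := hist_length v ξ (n + 1)
        rw [h, List.length_cons] at this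
        omega
      rw [e1, e2]; simp

instance : IsProbabilityMeasure (walkLaw G ε σ) := by unfold walkLaw; infer_instance

lemma lintegral_hist (v : V) (n : ℕ) (F : List V → ℝ≥0∞) :
    ∫⁻ ξ, F (hist v ξ n) ∂(walkLaw G ε σ)
      = ∑' l, F l * walkLaw G ε σ {ξ | hist v ξ n = l} := by
  have h1 : ∀ ξ, F (hist v ξ n)
      = ∑' l, F l * ({ξ | hist v ξ n = l}.indicator 1 ξ : ℝ≥0∞) := by
    intro ξ
    rw [tsum_eq_single (hist v ξ n)]
    · rw [Set.indicator_of_mem (show ξ ∈ {ξ' | hist v ξ' n = hist v ξ n} from rfl)]
      simp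
    · intro l hl
      have hne : ξ ∉ {ξ' : List V → V | hist v ξ' n = l} := fun h => hl (Eq.symm h)
      rw [Set.indicator_of_notMem hne, mul_zero]
  simp_rw [h1]
  rw [lintegral_tsum]
  · apply tsum_congr
    intro l
    rw [lintegral_const_mul _ (measurable_one.indicator (meas_hist v n l)),
      lintegral_indicator_one (meas_hist v n l)]
  · intro l
    exact (measurable_const.mul (measurable_one.indicator (meas_hist v n l))).aemeasurable

lemma lintegral_step (hd : G.IsRegularOfDegree d) (hd0 : 0 < d) (h0 : 0 ≤ ε) (h1 : ε ≤ 1) (v : V)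
    (n : ℕ) (F : List V → ℝ) (hF : ∀ l, 0 ≤ F l) :
    ∫⁻ ξ, ENNReal.ofReal (F (hist v ξ (n + 1))) ∂(walkLaw G ε σ)
      = ∫⁻ ξ, ENNReal.ofReal (stp G ε σ F (hist v ξ n)) ∂(walkLaw G ε σ) := by
  rw [lintegral_hist v (n + 1) (fun l => ENNReal.ofReal (F l)),
    lintegral_hist v n (fun l => ENNReal.ofReal (stp G ε σ F l))]
  have h2 : ∀ l, ENNReal.ofReal (stp G ε σ F l)
      = ∑ y, ENNReal.ofReal (wt G ε σ l y) * ENNReal.ofReal (F (y :: l)) := by
    intro l
    unfold stp
    rw [ENNReal.ofReal_sum_of_nonneg (fun y _ => mul_nonneg (wt_nonneg h0 h1 _ _) (hF _))]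
    exact Finset.sum_congr rfl fun y _ => ENNReal.ofReal_mul (wt_nonneg h0 h1 _ _)
  -- lists of length n+2 are y :: l
  have h3 : ∑' l, ENNReal.ofReal (F l) * walkLaw G ε σ {ξ | hist v ξ (n + 1) = l}
      = ∑' q : V × List V, ENNReal.ofReal (F (q.1 :: q.2))
        * walkLaw G ε σ {ξ | hist v ξ (n + 1) = q.1 :: q.2} := by
    have hinj : Function.Injective fun q : V × List V => q.1 :: q.2 := by
      rintro ⟨a, l⟩ ⟨b, l'⟩ h
      obtain ⟨h1, h2⟩ := List.cons.inj h
      exact Prod.ext h1 h2
    rw [← hinj.tsum_eq]
    intro l hl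
    cases l with
    | nil =>
      exfalso
      apply hl
      have e1 : {ξ : List V → V | hist v ξ (n + 1) = []} = ∅ := by
        ext ξ; simp [hist]
      simp only
      rw [e1]; simp
    | cons a l => exact ⟨(a, l), rfl⟩
  rw [h3, ENNReal.tsum_prod', ENNReal.tsum_comm]
  apply tsum_congr
  intro l
  rw [tsum_fintype, h2, Finset.sum_mul]
  apply Finset.sum_congr rfl
  intro y _
  rw [step_prob hd hd0 h0 h1]
  ring

lemma stp_nonneg (h0 : 0 ≤ ε) (h1 : ε ≤ 1) {F : List V → ℝ} (hF : ∀ l, 0 ≤ F l) (l : List V) :
    0 ≤ stp G ε σ F l :=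
  Finset.sum_nonneg fun y _ => mul_nonneg (wt_nonneg h0 h1 _ _) (hF _)

lemma lintegral_iter (hd : G.IsRegularOfDegree d) (hd0 : 0 < d) (h0 : 0 ≤ ε) (h1 : ε ≤ 1) (v : V)
    (n : ℕ) : ∀ F : List V → ℝ, (∀ l, 0 ≤ F l) →
    ∫⁻ ξ, ENNReal.ofReal (F (hist v ξ n)) ∂(walkLaw G ε σ)
      = ENNReal.ofReal ((stp G ε σ)^[n] F [v]) := by
  induction n with
  | zero =>
    intro F _
    simp [hist]
  | succ n ih =>
    intro F hF
    rw [lintegral_step hd hd0 h0 h1 v n F hF, ih _ (fun l => stp_nonneg h0 h1 hF l),
      Function.iterate_succ_apply]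

lemma unc1_hist_le (v : V) (ξ : List V → V) :
    ∑' n, ENNReal.ofReal (unc1 (hist v ξ n)) ≤ coverTime v ξ := by
  unfold coverTime
  refine le_iInf₂ fun n hn => ?_
  have hmem : ∀ m, n ≤ m → ∀ x, x ∈ hist v ξ m := by
    have hmono : ∀ k m, k ≤ m → proc v k ξ ∈ hist v ξ m := by
      intro k m hkm
      induction m with
      | zero =>
        have : k = 0 := by omega
        subst this
        simp [proc, hist]
      | succ m ih =>
        rcases Nat.lt_or_ge k (m + 1) with h | h
        · rw [hist]
          exact List.mem_cons_of_mem _ (ih (by omega))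
        · have : k = m + 1 := by omega
          subst this
          rw [proc_succ, hist]
          exact List.mem_cons_self
    intro m hm x
    obtain ⟨k, hk, rfl⟩ := hn x
    exact hmono k m (by omega)
  have hzero : ∀ m ∉ Finset.range n, ENNReal.ofReal (unc1 (hist v ξ m)) = 0 := by
    intro m hm
    rw [Finset.mem_range, not_lt] at hm
    have : unc1 (hist v ξ m) = 0 := by
      unfold unc1
      rw [if_neg]
      rintro ⟨x, hx⟩
      exact hx (hmem m hm x)
    rw [this]; simp
  rw [tsum_eq_sum hzero]
  calc ∑ m ∈ Finset.range n, ENNReal.ofReal (unc1 (hist v ξ m)) ≤ ∑ _m ∈ Finset.range n, (1 : ℝ≥0∞) := by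
        apply Finset.sum_le_sum
        intro m _
        rw [← ENNReal.ofReal_one]
        exact ENNReal.ofReal_le_ofReal (unc1_le _)
    _ = n := by simp

/-- sums of the probabilities that the walk has not covered are bounded by the expected cover
time -/
lemma sum_le_expCover (hd : G.IsRegularOfDegree d) (hd0 : 0 < d) (h0 : 0 ≤ ε) (h1 : ε ≤ 1) (v : V)
    (t : ℕ) : ENNReal.ofReal (∑ s ∈ Finset.range t, (stp G ε σ)^[s] unc1 [v])
      ≤ expCover G ε σ v := by
  have hnn : ∀ s, 0 ≤ (stp G ε σ)^[s] unc1 [v] := by
    intro s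
    have h2 : ∀ s, ∀ l, 0 ≤ (stp G ε σ)^[s] unc1 l := by
      intro s
      induction s with
      | zero => intro l; exact unc1_nonneg l
      | succ s ih =>
        intro l
        rw [Function.iterate_succ_apply']
        exact stp_nonneg h0 h1 ih l
    exact h2 s [v]
  rw [ENNReal.ofReal_sum_of_nonneg (fun s _ => hnn s)]
  calc ∑ s ∈ Finset.range t, ENNReal.ofReal ((stp G ε σ)^[s] unc1 [v])
      = ∑ s ∈ Finset.range t, ∫⁻ ξ, ENNReal.ofReal (unc1 (hist v ξ s)) ∂(walkLaw G ε σ) := by
        apply Finset.sum_congr rfl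
        intro s _
        rw [lintegral_iter hd hd0 h0 h1 v s unc1 unc1_nonneg]
    _ ≤ ∑' s, ∫⁻ ξ, ENNReal.ofReal (unc1 (hist v ξ s)) ∂(walkLaw G ε σ) :=
        ENNReal.sum_le_tsum _
    _ = ∫⁻ ξ, ∑' s, ENNReal.ofReal (unc1 (hist v ξ s)) ∂(walkLaw G ε σ) := by
        rw [lintegral_tsum]
        intro s
        have hm : Measurable fun ξ : List V → V => ENNReal.ofReal (unc1 (hist v ξ s)) := by
          intro B _
          have : (fun ξ : List V → V => ENNReal.ofReal (unc1 (hist v ξ s))) ⁻¹' B
              = ⋃ l ∈ {l : List V | ENNReal.ofReal (unc1 l) ∈ B}, {ξ | hist v ξ s = l} := by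
            ext ξ; simp
          rw [this]
          exact MeasurableSet.biUnion (Set.to_countable _) fun l _ => meas_hist v s l
        exact hm.aemeasurable
    _ ≤ ∫⁻ ξ, coverTime v ξ ∂(walkLaw G ε σ) := lintegral_mono fun ξ => unc1_hist_le v ξ

end Q293.Bias
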