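import Pool.Agent.Q293.BiasC

/-!
# The lower bound for the biased cover time
-/

set_option autoImplicit false

open Finset MeasureTheory Filter Q293.HistWalk
open scoped ENNReal Topology

namespace Q293.Bias

variable {V : Type} [Fintype V] [DecidableEq V] {G : SimpleGraph V} [DecidableRel G.Adj]
variable {ε : ℝ} {σ : List V → V} {d m : ℕ} {p : ℝ}

/-- pointwise combination -/
lemma pointwise (hd : G.IsRegularOfDegree d) (hp0 : 0 ≤ p) (hp : p < 1) (c : ℝ) (hc : 0 ≤ c)
    (h : List V) :
    (m : ℝ) * ∑ x, rr G m p x h ≤ m * Fintype.card V * unc1 h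
      + m * d * (∑ v, (2 : ℝ) ^ (-c) * 2 ^ (G.neighborFinset v ∩ surv G m h).card) + c * unc h := by
  classical
  set B := surv G m h with hB
  set U := Finset.univ.filter fun v => c < ((G.neighborFinset v ∩ B).card : ℝ) with hU
  set Bg := B \ U.biUnion fun v => G.neighborFinset v with hBg
  have hm0 : (0 : ℝ) ≤ m := Nat.cast_nonneg m
  have hd0 : (0 : ℝ) ≤ d := Nat.cast_nonneg d
  -- exposures of the good survivors
  have h1 : (m : ℝ) * Bg.card ≤ c * unc h := by
    calc (m : ℝ) * Bg.card = ∑ x ∈ Bg, (m : ℝ) := by rw [Finset.sum_const, nsmul_eq_mul]; ring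
      _ ≤ ∑ x ∈ Bg, (sx G x h : ℝ) := by
          apply Finset.sum_le_sum
          intro x hx
          rw [hBg, Finset.mem_sdiff, hB] at hx
          have := hx.1
          unfold surv at this
          rw [Finset.mem_filter] at this
          exact_mod_cast this.2
      _ ≤ c * unc h := by
          apply sum_sx_le c hc
          intro u
          by_cases hu : u ∈ U
          · have : (Bg.filter fun x => G.Adj u x) = ∅ := by
              apply Finset.filter_eq_empty_iff.2
              intro x hx hadj
              rw [hBg, Finset.mem_sdiff, Finset.mem_biUnion] at hx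
              exact hx.2 ⟨u, hu, (G.mem_neighborFinset u x).2 hadj⟩
            rw [this]; simpa using hc
          · rw [hU, Finset.mem_filter] at hu
            push Not at hu
            refine le_trans ?_ (hu (Finset.mem_univ _))
            have : (Bg.filter fun x => G.Adj u x) ⊆ G.neighborFinset u ∩ B := by
              intro x hx
              rw [Finset.mem_filter, hBg, Finset.mem_sdiff] at hx
              rw [Finset.mem_inter, G.mem_neighborFinset]
              exact ⟨hx.2, hx.1.1⟩
            exact_mod_cast Finset.card_le_card this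
  -- number of survivors
  have h2 : (B.card : ℝ) ≤ Bg.card + d * U.card := by
    have h3 : B.card ≤ Bg.card + (U.biUnion fun v => G.neighborFinset v).card := by
      have : B ⊆ Bg ∪ (U.biUnion fun v => G.neighborFinset v) := by
        intro x hx
        rw [Finset.mem_union, hBg, Finset.mem_sdiff]
        by_cases hx2 : x ∈ U.biUnion fun v => G.neighborFinset v
        · exact Or.inr hx2
        · exact Or.inl ⟨hx, hx2⟩
      exact (Finset.card_le_card this).trans (Finset.card_union_le _ _)
    have h4 : (U.biUnion fun v => G.neighborFinset v).card ≤ U.card * d := by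
      apply Finset.card_biUnion_le_card_mul
      intro v _
      rw [G.card_neighborFinset_eq_degree, hd v]
    have h5 : B.card ≤ Bg.card + d * U.card := by
      rw [mul_comm d]; omega
    exact_mod_cast h5
  -- number of exceptional vertices
  have h3 : (U.card : ℝ) ≤ ∑ v, (2 : ℝ) ^ (-c) * 2 ^ (G.neighborFinset v ∩ B).card := by
    rw [hU, Finset.card_filter]
    push_cast
    apply Finset.sum_le_sum
    intro v _
    split_ifs with hv
    · rw [← Real.rpow_natCast 2 (G.neighborFinset v ∩ B).card, ← Real.rpow_add (by norm_num)]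
      apply Real.one_le_rpow (by norm_num)
      linarith
    · positivity
  -- comparison of the sum with the number of survivors
  have h4 : ∑ x, rr G m p x h ≤ B.card + Fintype.card V * unc1 h := by
    by_cases hall : ∃ x, x ∉ h
    · have h5 : unc1 h = 1 := by unfold unc1; rw [if_pos hall]
      rw [h5, mul_one]
      calc ∑ x, rr G m p x h ≤ ∑ _x : V, (1 : ℝ) := Finset.sum_le_sum fun x _ => rr_le_one hp0 hp.le x h
        _ = Fintype.card V := by simp
        _ ≤ _ := by
          have : (0 : ℝ) ≤ B.card := Nat.cast_nonneg _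
          linarith
    · have h5 : unc1 h = 0 := by unfold unc1; rw [if_neg hall]
      rw [h5, mul_zero, add_zero, hB]
      push Not at hall
      unfold surv
      rw [Finset.card_filter]
      push_cast
      apply Finset.sum_le_sum
      intro x _
      unfold rr
      by_cases hs : m ≤ sx G x h
      · rw [if_pos hs, if_neg (fun hc => by omega), Nat.sub_eq_zero_of_le hs, pow_zero]
      · rw [if_neg hs, if_pos ⟨hall x, by omega⟩]
  have h5 := unc1_nonneg h
  calc (m : ℝ) * ∑ x, rr G m p x h ≤ m * (B.card + Fintype.card V * unc1 h) :=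
        mul_le_mul_of_nonneg_left h4 hm0
    _ ≤ m * ((Bg.card + d * U.card) + Fintype.card V * unc1 h) :=
        mul_le_mul_of_nonneg_left (by linarith) hm0
    _ = m * Fintype.card V * unc1 h + m * d * U.card + m * Bg.card := by ring
    _ ≤ _ := by
        have h6 : (m : ℝ) * d * U.card
            ≤ m * d * (∑ v, (2 : ℝ) ^ (-c) * 2 ^ (G.neighborFinset v ∩ B).card) :=
          mul_le_mul_of_nonneg_left h3 (by positivity)
        linarith

/-- the inequality at a finite time -/
lemma main_ineq (hd : G.IsRegularOfDegree d) (hd0 : 0 < d) (h0 : 0 ≤ ε) (h1 : ε ≤ 1)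
    (hσ : ∀ u h, G.Adj u (σ (u :: h))) (hp0 : 0 ≤ p) (hp : p < 1)
    (hpd : p = (1 - ε) / d) (hm : 0 < m) (c : ℝ) (hc : 0 ≤ c) (v : V) (t : ℕ) :
    (m : ℝ) * ((Fintype.card V - 1) * (1 - p) ^ m)
      ≤ m * Fintype.card V * (stp G ε σ)^[t] unc1 [v]
        + m * d * (Fintype.card V * ((2 : ℝ) ^ (-c) * ((1 - p) ^ m + 1) ^ d))
        + (c + m * (ε / (1 - p))) * ∑ s ∈ Finset.range t, (stp G ε σ)^[s] unc1 [v] := by
  have hm0 : (0 : ℝ) ≤ m := Nat.cast_nonneg m
  have hd0' : (0 : ℝ) ≤ d := Nat.cast_nonneg d
  have e1 : (Fintype.card V - 1) * (1 - p) ^ m ≤ Phi G m p ε [v] := by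
    unfold Phi
    have h2 : ∑ x, rr G m p x [v] ≥ ∑ x ∈ Finset.univ.erase v, (1 - p) ^ m := by
      calc ∑ x ∈ Finset.univ.erase v, (1 - p) ^ m = ∑ x ∈ Finset.univ.erase v, rr G m p x [v] := by
            apply Finset.sum_congr rfl
            intro x hx
            rw [rr_start_eq v x (Finset.ne_of_mem_erase hx)]
        _ ≤ ∑ x, rr G m p x [v] :=
            Finset.sum_le_sum_of_subset_of_nonneg (Finset.erase_subset _ _)
              fun x _ _ => rr_nonneg hp.le x _
    rw [Finset.sum_const, Finset.card_erase_of_mem (Finset.mem_univ _), Finset.card_univ,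
      nsmul_eq_mul, Nat.cast_sub (Fintype.card_pos_iff.2 ⟨v⟩)] at h2
    push_cast at h2
    have h3 : unc [v] = 0 := rfl
    rw [h3, mul_zero, add_zero]
    exact h2
  have e2 : Phi G m p ε [v] ≤ (stp G ε σ)^[t] (Phi G m p ε) [v] :=
    le_stp_iter h0 h1 (Phi_sub hd hd0 h0 hσ hp0 hp hpd) t [v] (by simp)
  have e3 : (stp G ε σ)^[t] (fun h => (m : ℝ) * Phi G m p ε h) [v]
      ≤ (stp G ε σ)^[t] (fun h => m * Fintype.card V * unc1 h
        + (∑ v, (m : ℝ) * d * (2 : ℝ) ^ (-c) * 2 ^ (G.neighborFinset v ∩ surv G m h).card)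
        + (c + m * (ε / (1 - p))) * unc h) [v] := by
    apply stp_iter_mono h0 h1 _ t [v] (by simp)
    intro h _
    have h2 := pointwise (m := m) hd hp0 hp c hc h
    have h3 : (m : ℝ) * d * (∑ v, (2 : ℝ) ^ (-c) * 2 ^ (G.neighborFinset v ∩ surv G m h).card)
        = ∑ v, (m : ℝ) * d * (2 : ℝ) ^ (-c) * 2 ^ (G.neighborFinset v ∩ surv G m h).card := by
      rw [Finset.mul_sum]
      exact Finset.sum_congr rfl fun v _ => by ring
    rw [h3] at h2
    unfold Phi
    linarith
  rw [stp_iter_smul, stp_iter_add, stp_iter_add, stp_iter_smul, stp_iter_smul, stp_iter_sum,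
    stp_iter_unc hd hd0 t [v] (by simp)] at e3
  have e4 : ∑ w, (stp G ε σ)^[t] (fun h => (m : ℝ) * d * (2 : ℝ) ^ (-c)
      * 2 ^ (G.neighborFinset w ∩ surv G m h).card) [v]
      ≤ m * d * (Fintype.card V * ((2 : ℝ) ^ (-c) * ((1 - p) ^ m + 1) ^ d)) := by
    calc ∑ w, (stp G ε σ)^[t] (fun h => (m : ℝ) * d * (2 : ℝ) ^ (-c)
          * 2 ^ (G.neighborFinset w ∩ surv G m h).card) [v]
        ≤ ∑ w : V, (m : ℝ) * d * (2 : ℝ) ^ (-c) * ((1 - p) ^ m + 1) ^ d := by
          apply Finset.sum_le_sum
          intro w _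
          rw [stp_iter_smul]
          apply mul_le_mul_of_nonneg_left _ (by positivity)
          have := exp_moment (m := m) hd hd0 h0 h1 hσ hp0 hp hpd hm (G.neighborFinset w) v t
          rwa [G.card_neighborFinset_eq_degree, hd w] at this
      _ = _ := by
          rw [Finset.sum_const, Finset.card_univ, nsmul_eq_mul]; ring
  have e5 : unc [v] = 0 := rfl
  rw [e5, zero_add] at e3
  have e6 : (m : ℝ) * ((Fintype.card V - 1) * (1 - p) ^ m)
      ≤ m * (stp G ε σ)^[t] (Phi G m p ε) [v] :=
    mul_le_mul_of_nonneg_left (e1.trans e2) hm0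
  linarith

end Q293.Bias
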