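import Mathlib

/-!
# Convergence of products of random matrices with an inversion invariant law

Let `B : G → Matrix n n ℝ` be measurable, `μ` a probability measure on `G` invariant under a
measurable map `inv` with `B (inv g) * B g = 1`. If `B (ω 0) * ... * B (ω (t-1)) *ᵥ e` converges
almost surely, then `B g *ᵥ e = e` for almost every `g`.
-/

set_option autoImplicit false

open MeasureTheory Filter Topology Matrix

namespace Q293.LinWalk

section Concat

variable {G : Type*}

/-- use `ω` before time `t` and `ω'` from time `t` on -/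
def concat (t : ℕ) (p : (ℕ → G) × (ℕ → G)) : ℕ → G :=
  fun i => if i < t then p.1 i else p.2 (i - t)

variable [MeasurableSpace G]

lemma measurable_concat (t : ℕ) : Measurable (concat (G := G) t) := by
  apply measurable_pi_lambda
  intro i
  unfold concat
  by_cases h : i < t
  · simp only [h, if_true]
    exact (measurable_pi_apply i).comp measurable_fst
  · simp only [h, if_false]
    exact (measurable_pi_apply (i - t)).comp measurable_snd

variable (μ : Measure G) [IsProbabilityMeasure μ]

lemma map_concat (t : ℕ) :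
    ((Measure.infinitePi (fun _ : ℕ => μ)).prod (Measure.infinitePi (fun _ : ℕ => μ))).map
      (concat t) = Measure.infinitePi (fun _ : ℕ => μ) := by
  classical
  refine Measure.eq_infinitePi _ fun s A hA => ?_
  rw [Measure.map_apply (measurable_concat t) (MeasurableSet.pi s.countable_toSet fun i _ => hA i)]
  have h : (concat t) ⁻¹' (Set.pi (s : Set ℕ) A)
      = (Set.pi ((s.filter (fun i => i < t) : Finset ℕ) : Set ℕ) A) ×ˢ
        (Set.pi ((((s.filter (fun i => ¬ i < t)).image (fun i => i - t)) : Finset ℕ) : Set ℕ)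
          (fun i => A (i + t))) := by
    ext ⟨x, y⟩
    simp only [Set.mem_preimage, Set.mem_pi, Finset.mem_coe, Set.mem_prod, Finset.mem_filter,
      Finset.mem_image, concat]
    constructor
    · intro hx
      refine ⟨fun i hi => ?_, ?_⟩
      · have := hx i hi.1
        rwa [if_pos hi.2] at this
      · rintro _ ⟨i, ⟨hi, hit⟩, rfl⟩
        have := hx i hi
        rw [if_neg hit] at this
        rwa [Nat.sub_add_cancel (by omega)]
    · rintro ⟨h1, h2⟩ i hi
      by_cases hit : i < t
      · rw [if_pos hit]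
        exact h1 i ⟨hi, hit⟩
      · rw [if_neg hit]
        have := h2 (i - t) ⟨i, ⟨hi, hit⟩, rfl⟩
        rwa [Nat.sub_add_cancel (by omega)] at this
  rw [h, Measure.prod_prod, Measure.infinitePi_pi _ (fun i _ => hA i),
    Measure.infinitePi_pi _ (fun i _ => hA (i + t)), Finset.prod_image, ← Finset.prod_filter_mul_prod_filter_not s (fun i => i < t)]
  · congr 1
    apply Finset.prod_congr rfl
    intro i hi
    rw [Finset.mem_filter] at hi
    rw [Nat.sub_add_cancel (by omega)]
  · intro i hi j hj hij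
    simp only [Finset.coe_filter, Set.mem_ofPred_eq] at hi hj
    have h1 : i - t = j - t := hij
    omega

end Concat

section Main

variable {G : Type*} {n : ℕ} (B : G → Matrix (Fin n) (Fin n) ℝ)

/-- partial products -/
def S : ℕ → (ℕ → G) → Matrix (Fin n) (Fin n) ℝ
  | 0, _ => 1
  | t + 1, ω => S t ω * B (ω t)

lemma S_zero (ω : ℕ → G) : S B 0 ω = 1 := rfl
lemma S_succ (t : ℕ) (ω : ℕ → G) : S B (t + 1) ω = S B t ω * B (ω t) := rfl

lemma S_concat_le (t : ℕ) (p : (ℕ → G) × (ℕ → G)) : ∀ s, s ≤ t →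
    S B s (concat t p) = S B s p.1 := by
  intro s
  induction s with
  | zero => intro _; rfl
  | succ s ih =>
    intro hs
    rw [S_succ, S_succ, ih (by omega)]
    unfold concat
    rw [if_pos (by omega)]

lemma S_concat (t m : ℕ) (p : (ℕ → G) × (ℕ → G)) :
    S B (t + m) (concat t p) = S B t p.1 * S B m p.2 := by
  induction m with
  | zero => rw [add_zero, S_concat_le B t p t le_rfl, S_zero, mul_one]
  | succ m ih =>
    rw [← add_assoc, S_succ, S_succ, ih, mul_assoc]
    congr 3
    unfold concat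
    rw [if_neg (by omega), Nat.add_sub_cancel_left]

/-- the size of a vector -/
def q (v : Fin n → ℝ) : ℝ := ∑ i, |v i|

lemma q_nonneg (v : Fin n → ℝ) : 0 ≤ q v := Finset.sum_nonneg fun _ _ => abs_nonneg _

lemma q_zero : q (0 : Fin n → ℝ) = 0 := by simp [q]

lemma q_add (v w : Fin n → ℝ) : q (v + w) ≤ q v + q w := by
  unfold q
  rw [← Finset.sum_add_distrib]
  exact Finset.sum_le_sum fun i _ => abs_add_le _ _

lemma q_smul (c : ℝ) (v : Fin n → ℝ) : q (c • v) = |c| * q v := by
  unfold q
  rw [Finset.mul_sum]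
  exact Finset.sum_congr rfl fun i _ => by rw [Pi.smul_apply, smul_eq_mul, abs_mul]

lemma abs_le_q (v : Fin n → ℝ) (i : Fin n) : |v i| ≤ q v :=
  Finset.single_le_sum (f := fun i => |v i|) (fun _ _ => abs_nonneg _) (Finset.mem_univ i)

/-- the truncated size -/
noncomputable def tq (v : Fin n → ℝ) : ENNReal := min 1 (ENNReal.ofReal (q v))

lemma tq_zero : tq (0 : Fin n → ℝ) = 0 := by simp [tq, q_zero]

lemma tq_le_one (v : Fin n → ℝ) : tq v ≤ 1 := min_le_left _ _

lemma tq_add (v w : Fin n → ℝ) : tq (v + w) ≤ tq v + tq w := by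
  unfold tq
  have h : ENNReal.ofReal (q (v + w)) ≤ ENNReal.ofReal (q v) + ENNReal.ofReal (q w) := by
    rw [← ENNReal.ofReal_add (q_nonneg v) (q_nonneg w)]
    exact ENNReal.ofReal_le_ofReal (q_add v w)
  rcases le_total 1 (ENNReal.ofReal (q v)) with h1 | h1
  · rw [min_eq_left h1]
    exact (min_le_left _ _).trans le_self_add
  · rcases le_total 1 (ENNReal.ofReal (q w)) with h2 | h2
    · rw [min_eq_left h2]
      exact (min_le_left _ _).trans le_add_self
    · rw [min_eq_right h1, min_eq_right h2]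
      exact (min_le_right _ _).trans h

lemma tq_smul (c : ℝ) (v : Fin n → ℝ) : tq (c • v) ≤ ENNReal.ofReal (max 1 |c|) * tq v := by
  unfold tq
  rw [q_smul]
  have hc : (1 : ENNReal) ≤ ENNReal.ofReal (max 1 |c|) := by
    rw [← ENNReal.ofReal_one]; exact ENNReal.ofReal_le_ofReal (le_max_left _ _)
  rcases le_total 1 (ENNReal.ofReal (q v)) with h1 | h1
  · rw [min_eq_left h1, mul_one]
    exact (min_le_left _ _).trans hc
  · rw [min_eq_right h1]
    refine (min_le_right _ _).trans ?_
    rw [ENNReal.ofReal_mul (abs_nonneg c)]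
    gcongr
    exact le_max_right _ _

variable [MeasurableSpace G]

lemma measurable_S (hB : ∀ i j, Measurable fun g => B g i j) (t : ℕ) :
    ∀ i j, Measurable fun ω : ℕ → G => S B t ω i j := by
  induction t with
  | zero => intro i j; exact measurable_const
  | succ t ih =>
    intro i j
    simp only [S_succ, Matrix.mul_apply]
    exact Finset.measurable_sum _ fun k _ =>
      (ih i k).mul ((hB k j).comp (measurable_pi_apply t))

lemma measurable_mulVec {Ω : Type*} [MeasurableSpace Ω] (A : Ω → Matrix (Fin n) (Fin n) ℝ)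
    (hA : ∀ i j, Measurable fun ω => A ω i j) (v : Ω → Fin n → ℝ)
    (hv : ∀ i, Measurable fun ω => v ω i) (i : Fin n) :
    Measurable fun ω => (A ω *ᵥ v ω) i := by
  simp only [Matrix.mulVec, dotProduct]
  exact Finset.measurable_sum _ fun k _ => (hA i k).mul (hv k)

lemma measurable_tq {Ω : Type*} [MeasurableSpace Ω] (v : Ω → Fin n → ℝ)
    (hv : ∀ i, Measurable fun ω => v ω i) : Measurable fun ω => tq (v ω) := by
  unfold tq q
  refine measurable_const.min (ENNReal.measurable_ofReal.comp ?_)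
  exact Finset.measurable_sum _ fun i _ => (hv i).abs

variable (μ : Measure G)

/-- expected truncated size at time `t` -/
noncomputable def Phi (t : ℕ) (w : Fin n → ℝ) : ENNReal :=
  ∫⁻ ω, tq (S B t ω *ᵥ w) ∂(Measure.infinitePi (fun _ : ℕ => μ))


variable (hB : ∀ i j, Measurable fun g => B g i j)

include hB in
lemma measurable_tqS (t : ℕ) (w : Fin n → ℝ) :
    Measurable fun ω : ℕ → G => tq (S B t ω *ᵥ w) :=
  measurable_tq _ (measurable_mulVec _ (measurable_S B hB t) (fun _ => w)
    (fun _ => measurable_const))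

/-- vectors contracted along the times `τ k` -/
def W0 (hB : ∀ i j, Measurable fun g => B g i j) (τ : ℕ → ℕ) : Submodule ℝ (Fin n → ℝ) where
  carrier := {w | Tendsto (fun k => Phi B μ (τ k) w) atTop (𝓝 0)}
  zero_mem' := by
    show Tendsto (fun k => Phi B μ (τ k) 0) atTop (𝓝 0)
    have : (fun k => Phi B μ (τ k) 0) = fun _ => 0 := by
      funext k
      unfold Phi
      simp only [Matrix.mulVec_zero, tq_zero, lintegral_zero]
    rw [this]
    exact tendsto_const_nhds
  add_mem' := by
    intro a b ha hb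
    show Tendsto (fun k => Phi B μ (τ k) (a + b)) atTop (𝓝 0)
    have h := Tendsto.add ha hb
    rw [add_zero] at h
    refine tendsto_of_tendsto_of_tendsto_of_le_of_le tendsto_const_nhds h (fun _ => zero_le)
      fun k => ?_
    unfold Phi
    simp only [Matrix.mulVec_add]
    refine (lintegral_mono fun ω => tq_add _ _).trans ?_
    rw [lintegral_add_left (measurable_tqS B hB (τ k) a)]
  smul_mem' := by
    intro c a ha
    show Tendsto (fun k => Phi B μ (τ k) (c • a)) atTop (𝓝 0)
    have h : Tendsto (fun k => ENNReal.ofReal (max 1 |c|) * Phi B μ (τ k) a) atTop (𝓝 0) := by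
      have := ENNReal.Tendsto.const_mul (a := ENNReal.ofReal (max 1 |c|)) ha
        (Or.inr ENNReal.ofReal_ne_top)
      rwa [mul_zero] at this
    refine tendsto_of_tendsto_of_tendsto_of_le_of_le tendsto_const_nhds h (fun _ => zero_le)
      fun k => ?_
    unfold Phi
    simp only [Matrix.mulVec_smul]
    refine (lintegral_mono fun ω => tq_smul _ _).trans ?_
    rw [lintegral_const_mul' _ _ ENNReal.ofReal_ne_top]

lemma mem_W0 (τ : ℕ → ℕ) (w : Fin n → ℝ) :
    w ∈ W0 B μ hB τ ↔ Tendsto (fun k => Phi B μ (τ k) w) atTop (𝓝 0) := Iff.rfl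

omit [MeasurableSpace G] in
lemma exists_min (Q : Submodule ℝ (Fin n → ℝ) → Prop) (hQ : Q ⊤)
    (hinf : ∀ W W', Q W → Q W' → Q (W ⊓ W')) : ∃ W1, Q W1 ∧ ∀ W, Q W → W1 ≤ W := by
  classical
  have hex : ∃ d, ∃ W, Q W ∧ Module.finrank ℝ W = d := ⟨_, ⊤, hQ, rfl⟩
  obtain ⟨W1, hW1, hd⟩ := Nat.find_spec hex
  refine ⟨W1, hW1, fun W hW => ?_⟩
  have h1 := hinf W1 W hW1 hW
  have h2 : Nat.find hex ≤ Module.finrank ℝ ↥(W1 ⊓ W) := Nat.find_min' hex ⟨_, h1, rfl⟩
  have h3 : W1 ⊓ W = W1 := Submodule.eq_of_le_of_finrank_le inf_le_left (by rw [hd]; exact h2)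
  rw [← h3]
  exact inf_le_right

variable [IsProbabilityMeasure μ]

/-- the increments from `e` stay in `W` -/
def Good (e : Fin n → ℝ) (W : Submodule ℝ (Fin n → ℝ)) : Prop :=
  ∀ᵐ ω ∂(Measure.infinitePi (fun _ : ℕ => μ)), ∀ k, S B k ω *ᵥ e - e ∈ W

omit [IsProbabilityMeasure μ] in
lemma good_inf (e : Fin n → ℝ) (W W' : Submodule ℝ (Fin n → ℝ)) (h : Good B μ e W)
    (h' : Good B μ e W') : Good B μ e (W ⊓ W') := by
  unfold Good at *
  filter_upwards [h, h'] with ω h1 h2 k
  exact ⟨h1 k, h2 k⟩

lemma good_invariant (e : Fin n → ℝ) (W : Submodule ℝ (Fin n → ℝ)) (h : Good B μ e W)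
    (hmin : ∀ W', Good B μ e W' → W ≤ W') :
    ∀ᵐ ω ∂(Measure.infinitePi (fun _ : ℕ => μ)), ∀ w ∈ W, B (ω 0) *ᵥ w ∈ W := by
  have h1 : ∀ᵐ p ∂((Measure.infinitePi (fun _ : ℕ => μ)).prod
      (Measure.infinitePi (fun _ : ℕ => μ))), ∀ k, S B k (concat 1 p) *ᵥ e - e ∈ W := by
    unfold Good at h
    rw [← map_concat μ 1] at h
    exact ae_of_ae_map (measurable_concat 1).aemeasurable h
  have h2 := Measure.ae_ae_of_ae_prod h1
  filter_upwards [h2] with ω hω
  have h3 : Good B μ e (W.comap (B (ω 0)).mulVecLin) := by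
    unfold Good
    filter_upwards [hω] with ω' hω' k
    rw [Submodule.mem_comap, Matrix.mulVecLin_apply]
    have h4 := hω' (1 + k)
    have h5 := hω' 1
    rw [S_concat] at h4
    rw [S_concat_le B 1 (ω, ω') 1 le_rfl] at h5
    have h6 : S B 1 ω = B (ω 0) := by rw [S_succ, S_zero, one_mul]
    simp only [h6] at h4 h5
    have h7 := W.sub_mem h4 h5
    rw [← Matrix.mulVec_mulVec, sub_sub_sub_cancel_right, ← Matrix.mulVec_sub] at h7
    exact h7
  exact fun w hw => hmin _ h3 hw

lemma map_shift (t : ℕ) : (Measure.infinitePi (fun _ : ℕ => μ)).map (fun ω i => ω (t + i))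
    = Measure.infinitePi (fun _ : ℕ => μ) := by
  have hm : Measurable (fun (ω : ℕ → G) (i : ℕ) => ω (t + i)) :=
    measurable_pi_lambda _ fun i => measurable_pi_apply (t + i)
  conv_lhs => rw [← map_concat μ t]
  rw [Measure.map_map hm (measurable_concat t)]
  have : (fun (ω : ℕ → G) (i : ℕ) => ω (t + i)) ∘ concat t = Prod.snd := by
    funext p i
    simp only [Function.comp, concat]
    rw [if_neg (by omega), Nat.add_sub_cancel_left]
  rw [this, Measure.map_snd_prod]
  simp

include hB in
lemma phi_swap (e : Fin n → ℝ) (t m : ℕ) :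
    ∫⁻ ω', Phi B μ t (S B m ω' *ᵥ e - e) ∂(Measure.infinitePi (fun _ : ℕ => μ))
      = ∫⁻ ω, tq (S B (t + m) ω *ᵥ e - S B t ω *ᵥ e) ∂(Measure.infinitePi (fun _ : ℕ => μ)) := by
  have hm1 : Measurable fun ω : ℕ → G => tq (S B (t + m) ω *ᵥ e - S B t ω *ᵥ e) := by
    apply measurable_tq
    intro i
    simp only [Pi.sub_apply]
    exact (measurable_mulVec _ (measurable_S B hB (t + m)) (fun _ => e)
      (fun _ => measurable_const) i).sub (measurable_mulVec _ (measurable_S B hB t) (fun _ => e)
      (fun _ => measurable_const) i)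
  conv_rhs => rw [← map_concat μ t]
  rw [lintegral_map hm1 (measurable_concat t)]
  have h1 : ∀ p : (ℕ → G) × (ℕ → G), tq (S B (t + m) (concat t p) *ᵥ e - S B t (concat t p) *ᵥ e)
      = tq (S B t p.1 *ᵥ (S B m p.2 *ᵥ e - e)) := by
    intro p
    rw [S_concat, S_concat_le B t p t le_rfl, Matrix.mulVec_sub, Matrix.mulVec_mulVec]
  simp_rw [h1]
  rw [lintegral_prod_symm]
  · rfl
  · apply Measurable.aemeasurable
    apply measurable_tq
    apply measurable_mulVec
    · intro i j
      exact (measurable_S B hB t i j).comp measurable_fst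
    · intro i
      simp only [Pi.sub_apply]
      refine Measurable.sub ?_ measurable_const
      exact (measurable_mulVec _ (measurable_S B hB m) (fun _ => e)
        (fun _ => measurable_const) i).comp measurable_snd

lemma tendsto_tq_zero (v : ℕ → Fin n → ℝ) (hv : Tendsto v atTop (𝓝 0)) :
    Tendsto (fun k => tq (v k)) atTop (𝓝 0) := by
  unfold tq q
  have h1 : Tendsto (fun k => ∑ i, |v k i|) atTop (𝓝 (∑ _i : Fin n, |(0 : ℝ)|)) := by
    apply tendsto_finsetSum
    intro i _
    exact ((tendsto_pi_nhds.1 hv) i).abs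
  simp only [abs_zero, Finset.sum_const_zero] at h1
  have h2 := ENNReal.tendsto_ofReal h1
  rw [ENNReal.ofReal_zero] at h2
  have h3 := Tendsto.min (tendsto_const_nhds (x := (1 : ENNReal)) (f := atTop)) h2
  simpa using h3

include hB in
lemma tendsto_incr (e : Fin n → ℝ)
    (hconv : ∀ᵐ ω ∂(Measure.infinitePi (fun _ : ℕ => μ)),
      ∃ z, Tendsto (fun t => S B t ω *ᵥ e) atTop (𝓝 z)) (m : ℕ) :
    Tendsto (fun t => ∫⁻ ω, tq (S B (t + m) ω *ᵥ e - S B t ω *ᵥ e)
      ∂(Measure.infinitePi (fun _ : ℕ => μ))) atTop (𝓝 0) := by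
  have h := tendsto_lintegral_of_dominated_convergence
    (μ := Measure.infinitePi (fun _ : ℕ => μ))
    (F := fun t ω => tq (S B (t + m) ω *ᵥ e - S B t ω *ᵥ e)) (f := fun _ => 0) (fun _ => 1)
    ?_ ?_ ?_ ?_
  · rwa [lintegral_zero] at h
  · intro t
    apply measurable_tq
    intro i
    simp only [Pi.sub_apply]
    exact (measurable_mulVec _ (measurable_S B hB (t + m)) (fun _ => e)
      (fun _ => measurable_const) i).sub (measurable_mulVec _ (measurable_S B hB t) (fun _ => e)
      (fun _ => measurable_const) i)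
  · intro t
    exact Filter.Eventually.of_forall fun ω => tq_le_one _
  · simp
  · filter_upwards [hconv] with ω hω
    obtain ⟨z, hz⟩ := hω
    apply tendsto_tq_zero
    have h1 := ((tendsto_add_atTop_iff_nat (f := fun t => S B t ω *ᵥ e) m).2 hz).sub hz
    rwa [sub_self] at h1

include hB in
/-- along suitable times, all the increments are contracted -/
lemma exists_times (e : Fin n → ℝ)
    (hconv : ∀ᵐ ω ∂(Measure.infinitePi (fun _ : ℕ => μ)),
      ∃ z, Tendsto (fun t => S B t ω *ᵥ e) atTop (𝓝 z)) :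
    ∃ τ : ℕ → ℕ, Good B μ e (W0 B μ hB τ) := by
  have h1 : ∀ k : ℕ, ∃ t, ∀ m < k, ∫⁻ ω, tq (S B (t + m) ω *ᵥ e - S B t ω *ᵥ e)
      ∂(Measure.infinitePi (fun _ : ℕ => μ)) ≤ (2 : ENNReal)⁻¹ ^ k := by
    intro k
    have h2 : ∀ᶠ t in atTop, ∀ m ∈ Finset.range k,
        ∫⁻ ω, tq (S B (t + m) ω *ᵥ e - S B t ω *ᵥ e)
          ∂(Measure.infinitePi (fun _ : ℕ => μ)) < (2 : ENNReal)⁻¹ ^ k := by
      rw [Filter.eventually_all_finset]
      intro m _
      apply (tendsto_incr B μ hB e hconv m).eventually_lt_const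
      exact pos_iff_ne_zero.2 (pow_ne_zero _ (ENNReal.inv_ne_zero.2 ENNReal.ofNat_ne_top))
    obtain ⟨t, ht⟩ := h2.exists
    exact ⟨t, fun m hm => (ht m (Finset.mem_range.2 hm)).le⟩
  choose τ hτ using h1
  refine ⟨τ, ?_⟩
  unfold Good
  rw [ae_all_iff]
  intro m
  simp only [mem_W0]
  have hmeas : ∀ k, Measurable fun ω' : ℕ → G => Phi B μ (τ k) (S B m ω' *ᵥ e - e) := by
    intro k
    unfold Phi
    apply Measurable.lintegral_prod_right'
      (f := fun p : (ℕ → G) × (ℕ → G) => tq (S B (τ k) p.2 *ᵥ (S B m p.1 *ᵥ e - e)))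
    apply measurable_tq
    apply measurable_mulVec
    · intro i j
      exact (measurable_S B hB (τ k) i j).comp measurable_snd
    · intro i
      simp only [Pi.sub_apply]
      refine Measurable.sub ?_ measurable_const
      exact (measurable_mulVec _ (measurable_S B hB m) (fun _ => e)
        (fun _ => measurable_const) i).comp measurable_fst
  have hsum : ∫⁻ ω', ∑' k, Phi B μ (τ (k + (m + 1))) (S B m ω' *ᵥ e - e)
      ∂(Measure.infinitePi (fun _ : ℕ => μ)) ≠ ⊤ := by
    rw [lintegral_tsum fun k => (hmeas _).aemeasurable]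
    have h2 : ∑' k : ℕ, (2 : ENNReal)⁻¹ ^ k = 2 := by
      rw [ENNReal.tsum_geometric, ENNReal.one_sub_inv_two, inv_inv]
    refine ne_top_of_le_ne_top (b := 2) ENNReal.ofNat_ne_top (le_trans ?_ (le_of_eq h2))
    refine ENNReal.tsum_le_tsum fun k => ?_
    rw [phi_swap B μ hB e]
    refine (hτ (k + (m + 1)) m (by omega)).trans ?_
    rw [pow_add]
    exact mul_le_of_le_one_right' (pow_le_one₀ zero_le (by simp))
  have hfin := ae_lt_top' (Measurable.tsum fun k => hmeas _).aemeasurable hsum
  filter_upwards [hfin] with ω' hω'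
  have h3 := ENNReal.tendsto_atTop_zero_of_tsum_ne_top hω'.ne
  exact (tendsto_add_atTop_iff_nat (f := fun k => Phi B μ (τ k) (S B m ω' *ᵥ e - e)) (m + 1)).1 h3


section Det

variable {W1 : Submodule ℝ (Fin n → ℝ)} (π : (Fin n → ℝ) →ₗ[ℝ] W1)

/-- compression of a matrix to `W1` -/
noncomputable def comp (M : Matrix (Fin n) (Fin n) ℝ) : W1 →ₗ[ℝ] W1 :=
  π ∘ₗ M.mulVecLin ∘ₗ W1.subtype

/-- its determinant -/
noncomputable def del (M : Matrix (Fin n) (Fin n) ℝ) : ℝ := LinearMap.det (comp π M)

omit [MeasurableSpace G] in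
lemma del_mul (hπ : ∀ w : W1, π w = w) (M M' : Matrix (Fin n) (Fin n) ℝ)
    (h : ∀ w ∈ W1, M' *ᵥ w ∈ W1) : del π (M * M') = del π M * del π M' := by
  have : comp π (M * M') = comp π M ∘ₗ comp π M' := by
    ext1 w
    simp only [comp, LinearMap.comp_apply, Matrix.mulVecLin_apply, Submodule.subtype_apply]
    have h1 := hπ ⟨M' *ᵥ w, h w w.2⟩
    simp only at h1
    rw [h1, Matrix.mulVec_mulVec]
  unfold del
  rw [this, LinearMap.det_comp]

omit [MeasurableSpace G] in
lemma del_one (hπ : ∀ w : W1, π w = w) : del π 1 = 1 := by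
  have : comp π 1 = LinearMap.id := by
    ext1 w
    simp only [comp, LinearMap.comp_apply, Matrix.mulVecLin_apply, Submodule.subtype_apply,
      Matrix.one_mulVec, hπ, LinearMap.id_apply]
  unfold del
  rw [this, LinearMap.det_id]

lemma del_eq {d : ℕ} (b : Module.Basis (Fin d) ℝ W1) (M : Matrix (Fin n) (Fin n) ℝ) :
    del π M = (Matrix.of fun i j => b.coord i (π (M *ᵥ (b j : Fin n → ℝ)))).det := by
  unfold del
  rw [← LinearMap.det_toMatrix b]
  congr 1
  ext i j
  rw [LinearMap.toMatrix_apply]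
  rfl

lemma measurable_del {Ω : Type*} [MeasurableSpace Ω] (M : Ω → Matrix (Fin n) (Fin n) ℝ)
    (hM : ∀ i j, Measurable fun ω => M ω i j) : Measurable fun ω => del π (M ω) := by
  have hd := Module.finBasis ℝ W1
  simp_rw [del_eq π hd]
  simp_rw [Matrix.det_apply]
  apply Finset.measurable_sum
  intro σ _
  apply Measurable.const_smul
  apply Finset.measurable_prod
  intro i _
  simp only [Matrix.of_apply]
  have h1 : Measurable fun v : Fin n → ℝ => hd.coord (σ i) (π v) :=
    ((hd.coord (σ i) ∘ₗ π).continuous_of_finiteDimensional).measurable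
  exact h1.comp (measurable_pi_iff.2 fun k =>
    measurable_mulVec M hM (fun _ => (hd i : Fin n → ℝ)) (fun _ => measurable_const) k)

/-- a matrix which contracts a basis has a small determinant -/
lemma del_small {d : ℕ} (hd : 0 < d) (b : Module.Basis (Fin d) ℝ W1) :
    ∃ ε : ℝ, 0 < ε ∧ ε ≤ 1 ∧ ∀ M : Matrix (Fin n) (Fin n) ℝ,
      (∀ j, q (M *ᵥ (b j : Fin n → ℝ)) < ε) → |del π M| < 1 := by
  have hC : ∃ C : ℝ, 1 ≤ C ∧ ∀ (i : Fin d) (v : Fin n → ℝ), |b.coord i (π v)| ≤ C * q v := by
    refine ⟨1 + ∑ i, ∑ k, |b.coord i (π (Pi.single k 1))|, ?_, ?_⟩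
    · have : 0 ≤ ∑ i, ∑ k, |b.coord i (π (Pi.single k 1))| :=
        Finset.sum_nonneg fun _ _ => Finset.sum_nonneg fun _ _ => abs_nonneg _
      linarith
    · intro i v
      have h1 : v = ∑ k, v k • (Pi.single k (1 : ℝ) : Fin n → ℝ) := by
        funext l
        rw [Finset.sum_apply]
        simp [Pi.single_apply]
      have h2 : b.coord i (π v) = ∑ k, v k * b.coord i (π (Pi.single k 1)) := by
        conv_lhs => rw [h1]
        simp only [map_sum, map_smul, smul_eq_mul]
      rw [h2]
      have h3 : ∀ k, |v k * b.coord i (π (Pi.single k 1))|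
          ≤ |v k| * (1 + ∑ i, ∑ k, |b.coord i (π (Pi.single k 1))|) := by
        intro k
        rw [abs_mul]
        apply mul_le_mul_of_nonneg_left _ (abs_nonneg _)
        have h4 : |b.coord i (π (Pi.single k 1))| ≤ ∑ k, |b.coord i (π (Pi.single k 1))| :=
          Finset.single_le_sum (f := fun k => |b.coord i (π (Pi.single k 1))|)
            (fun _ _ => abs_nonneg _) (Finset.mem_univ k)
        have h5 : ∑ k, |b.coord i (π (Pi.single k 1))|
            ≤ ∑ i, ∑ k, |b.coord i (π (Pi.single k 1))| :=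
          Finset.single_le_sum (f := fun i => ∑ k, |b.coord i (π (Pi.single k 1))|)
            (fun _ _ => Finset.sum_nonneg fun _ _ => abs_nonneg _) (Finset.mem_univ i)
        linarith
      calc |∑ k, v k * b.coord i (π (Pi.single k 1))|
          ≤ ∑ k, |v k * b.coord i (π (Pi.single k 1))| := Finset.abs_sum_le_sum_abs _ _
        _ ≤ ∑ k, |v k| * (1 + ∑ i, ∑ k, |b.coord i (π (Pi.single k 1))|) :=
            Finset.sum_le_sum fun k _ => h3 k
        _ = (1 + ∑ i, ∑ k, |b.coord i (π (Pi.single k 1))|) * q v := by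
            rw [← Finset.sum_mul, mul_comm]; rfl
  obtain ⟨C, hC1, hC⟩ := hC
  set f : ℝ := (d.factorial : ℝ) with hf
  have hf0 : 0 ≤ f := by positivity
  refine ⟨1 / (C * (f + 1)), by positivity, ?_, ?_⟩
  · rw [div_le_one (by positivity)]
    nlinarith
  · intro M hM
    rw [del_eq π b]
    have hx : ∀ i j, |(Matrix.of fun i j => b.coord i (π (M *ᵥ (b j : Fin n → ℝ)))) i j|
        ≤ 1 / (f + 1) := by
      intro i j
      rw [Matrix.of_apply]
      calc |b.coord i (π (M *ᵥ (b j : Fin n → ℝ)))| ≤ C * q (M *ᵥ (b j : Fin n → ℝ)) := hC _ _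
        _ ≤ C * (1 / (C * (f + 1))) := by gcongr; exact (hM j).le
        _ = 1 / (f + 1) := by field_simp
    have h1 := Matrix.det_le (R := ℝ) (S := ℝ) (abv := AbsoluteValue.abs) hx
    simp only [AbsoluteValue.abs_apply, Fintype.card_fin, nsmul_eq_mul] at h1
    refine lt_of_le_of_lt h1 ?_
    rw [← hf]
    have h2 : (1 / (f + 1)) ^ d ≤ 1 / (f + 1) := by
      apply pow_le_of_le_one (by positivity) _ (by omega)
      rw [div_le_one (by positivity)]; linarith
    calc f * (1 / (f + 1)) ^ d ≤ f * (1 / (f + 1)) := by gcongr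
      _ < 1 := by rw [mul_one_div, div_lt_one (by positivity)]; linarith

end Det


include hB in
/-- **Main linear theorem.** -/
theorem fixed (inv : G → G) (hinvm : Measurable inv) (hinvμ : μ.map inv = μ)
    (hinvB : ∀ g, B (inv g) * B g = 1) (e : Fin n → ℝ)
    (hconv : ∀ᵐ ω ∂(Measure.infinitePi (fun _ : ℕ => μ)),
      ∃ z, Tendsto (fun t => S B t ω *ᵥ e) atTop (𝓝 z)) :
    ∀ᵐ ω ∂(Measure.infinitePi (fun _ : ℕ => μ)), B (ω 0) *ᵥ e = e := by
  classical
  set P := Measure.infinitePi (fun _ : ℕ => μ) with hP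
  obtain ⟨τ, hτ⟩ := exists_times B μ hB e hconv
  obtain ⟨W1, hW1, hmin⟩ := exists_min (n := n) (Good B μ e)
    (Filter.Eventually.of_forall fun _ _ => Submodule.mem_top) (good_inf B μ e)
  have hinvariant := good_invariant B μ e W1 hW1 hmin
  have hall : ∀ᵐ ω ∂P, ∀ t, ∀ w ∈ W1, B (ω t) *ᵥ w ∈ W1 := by
    rw [ae_all_iff]
    intro t
    have h1 := hinvariant
    rw [← map_shift μ t] at h1
    have hm : Measurable (fun (ω : ℕ → G) (i : ℕ) => ω (t + i)) :=
      measurable_pi_lambda _ fun i => measurable_pi_apply (t + i)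
    exact ae_of_ae_map hm.aemeasurable h1
  have hbot : W1 = ⊥ := by
    by_contra hne
    have hd : 0 < Module.finrank ℝ W1 := by
      rw [Nat.pos_iff_ne_zero]
      intro h0
      exact hne (Submodule.finrank_eq_zero.1 h0)
    set b := Module.finBasis ℝ W1 with hb
    obtain ⟨π, hπ'⟩ := LinearMap.exists_leftInverse_of_injective W1.subtype
      (LinearMap.ker_eq_bot.2 W1.injective_subtype)
    have hπ : ∀ w : W1, π w = w := fun w => by
      have := LinearMap.congr_fun hπ' w
      simpa using this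
    obtain ⟨ε, hε0, hε1, hε⟩ := del_small π hd b
    -- multiplicativity
    have hmul : ∀ᵐ ω ∂P, ∀ t, del π (S B t ω) = ∏ i ∈ Finset.range t, del π (B (ω i)) := by
      filter_upwards [hall] with ω hω t
      induction t with
      | zero => rw [S_zero, del_one π hπ, Finset.prod_range_zero]
      | succ t ih => rw [S_succ, del_mul π hπ _ _ (hω t), ih, Finset.prod_range_succ]
    have hmδ : Measurable fun g => del π (B g) := measurable_del π B hB
    -- symmetric events
    set E : ℕ → Set (ℕ → G) := fun t => {ω | |∏ i ∈ Finset.range t, del π (B (ω i))| < 1} with hE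
    have hmE : ∀ t, MeasurableSet (E t) := by
      intro t
      apply measurableSet_lt _ measurable_const
      refine Measurable.abs ?_
      exact Finset.measurable_prod _ fun i _ => hmδ.comp (measurable_pi_apply i)
    have hmI : Measurable (fun (ω : ℕ → G) (i : ℕ) => inv (ω i)) :=
      measurable_pi_lambda _ fun i => hinvm.comp (measurable_pi_apply i)
    have hI : P.map (fun ω i => inv (ω i)) = P := by
      rw [hP, Measure.infinitePi_map_pi (μ := fun _ : ℕ => μ) (f := fun _ : ℕ => inv)
        (fun _ => hinvm)]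
      congr 1
      funext i
      exact hinvμ
    have hhalf : ∀ t, P (E t) + P (E t) ≤ 1 := by
      intro t
      have h1 : P (E t) = P ((fun (ω : ℕ → G) (i : ℕ) => inv (ω i)) ⁻¹' (E t)) := by
        conv_lhs => rw [← hI]
        rw [Measure.map_apply hmI (hmE t)]
      have h2 : P (E t ∩ (fun (ω : ℕ → G) (i : ℕ) => inv (ω i)) ⁻¹' (E t)) = 0 := by
        have hae : ∀ᵐ ω ∂P, ¬ (ω ∈ E t ∩
            (fun (ω : ℕ → G) (i : ℕ) => inv (ω i)) ⁻¹' (E t)) := by
          filter_upwards [hall] with ω hω hmem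
          have h3 : ∀ i, del π (B (inv (ω i))) * del π (B (ω i)) = 1 := by
            intro i
            rw [← del_mul π hπ _ _ (hω i), hinvB, del_one π hπ]
          have h4 : (∏ i ∈ Finset.range t, del π (B (inv (ω i))))
              * (∏ i ∈ Finset.range t, del π (B (ω i))) = 1 := by
            rw [← Finset.prod_mul_distrib]
            exact Finset.prod_eq_one fun i _ => h3 i
          have h5 : |∏ i ∈ Finset.range t, del π (B (ω i))| < 1 := hmem.1
          have h6 : |∏ i ∈ Finset.range t, del π (B (inv (ω i)))| < 1 := hmem.2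
          have h7 := congrArg abs h4
          rw [abs_mul, abs_one] at h7
          have h8 := abs_nonneg (∏ i ∈ Finset.range t, del π (B (ω i)))
          have h9 := abs_nonneg (∏ i ∈ Finset.range t, del π (B (inv (ω i))))
          nlinarith
        rw [ae_iff] at hae
        simpa only [not_not, Set.ofPred_mem_eq] using hae
      calc P (E t) + P (E t)
          = P (E t) + P ((fun (ω : ℕ → G) (i : ℕ) => inv (ω i)) ⁻¹' (E t)) := by rw [← h1]
        _ = P (E t ∪ (fun (ω : ℕ → G) (i : ℕ) => inv (ω i)) ⁻¹' (E t)) := by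
            rw [← measure_union_add_inter (E t) (hmI (hmE t)), h2, add_zero]
        _ ≤ 1 := prob_le_one
    -- the determinant becomes small
    have hsmall : Tendsto (fun k => P (E (τ k))ᶜ) atTop (𝓝 0) := by
      have hΦ : Tendsto (fun k => ∑ j, Phi B μ (τ k) (b j : Fin n → ℝ) / ENNReal.ofReal ε) atTop
          (𝓝 (∑ _j : Fin (Module.finrank ℝ W1), 0)) := by
        apply tendsto_finsetSum
        intro j _
        have h1 : (b j : Fin n → ℝ) ∈ W0 B μ hB τ := hmin _ hτ (b j).2
        have h2 := ENNReal.Tendsto.div_const ((mem_W0 B μ hB τ _).1 h1)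
          (b := ENNReal.ofReal ε) (Or.inr (ENNReal.ofReal_pos.2 hε0).ne')
        rwa [ENNReal.zero_div] at h2
      rw [Finset.sum_const_zero] at hΦ
      refine tendsto_of_tendsto_of_tendsto_of_le_of_le tendsto_const_nhds hΦ (fun _ => zero_le)
        fun k => ?_
      have h3 : P (E (τ k))ᶜ ≤ P (⋃ j, {ω | ENNReal.ofReal ε
          ≤ tq (S B (τ k) ω *ᵥ (b j : Fin n → ℝ))}) := by
        apply measure_mono_ae
        filter_upwards [hmul] with ω hω hmem
        by_contra hcon
        apply hmem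
        show |∏ i ∈ Finset.range (τ k), del π (B (ω i))| < 1
        rw [← hω (τ k)]
        apply hε
        intro j
        by_contra hge
        push Not at hge
        apply hcon
        refine Set.mem_iUnion.2 ⟨j, ?_⟩
        show ENNReal.ofReal ε ≤ min 1 (ENNReal.ofReal (q (S B (τ k) ω *ᵥ (b j : Fin n → ℝ))))
        rw [le_min_iff]
        constructor
        · rw [← ENNReal.ofReal_one]
          exact ENNReal.ofReal_le_ofReal hε1
        · exact ENNReal.ofReal_le_ofReal hge
      refine h3.trans ((measure_iUnion_fintype_le _ _).trans (Finset.sum_le_sum fun j _ => ?_))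
      unfold Phi
      exact meas_ge_le_lintegral_div (measurable_tqS B hB (τ k) _).aemeasurable
        (ENNReal.ofReal_pos.2 hε0).ne' ENNReal.ofReal_ne_top
    have h1 : ∀ᶠ k in atTop, P (E (τ k))ᶜ < 1 / 2 :=
      hsmall.eventually_lt_const (by simp)
    obtain ⟨k, hk⟩ := h1.exists
    have h2 := hhalf (τ k)
    have h3 : P (E (τ k)) + P (E (τ k))ᶜ = 1 := by
      rw [measure_add_measure_compl (hmE _), measure_univ]
    have h4 : P (E (τ k)) ≤ P (E (τ k))ᶜ := by
      have h5 : P (E (τ k)) + P (E (τ k)) ≤ P (E (τ k)) + P (E (τ k))ᶜ := by rw [h3]; exact h2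
      exact (ENNReal.add_le_add_iff_left (measure_ne_top P _)).1 h5
    have h5 : (1 : ENNReal) < 1 / 2 + 1 / 2 := by
      calc (1 : ENNReal) = P (E (τ k)) + P (E (τ k))ᶜ := h3.symm
        _ ≤ P (E (τ k))ᶜ + P (E (τ k))ᶜ := by gcongr
        _ < 1 / 2 + 1 / 2 := ENNReal.add_lt_add hk hk
    rw [ENNReal.add_halves] at h5
    exact lt_irrefl _ h5
  rw [hbot] at hW1
  filter_upwards [hW1] with ω hω
  have h := hω 1
  rw [Submodule.mem_bot, sub_eq_zero, S_succ, S_zero, one_mul] at h
  exact h

end Main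

end Q293.LinWalk
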