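import Pool.Agent.Q293.BiasC
import Pool.Agent.Q293.LinWalk

/-!
# Random walks on planar discrete point processes: definitions
-/

set_option autoImplicit false

open MeasureTheory Filter Topology
open scoped ENNReal

namespace Q293.DPP

/-- configurations of points on the square lattice -/
abbrev Conf : Type := ℤ × ℤ → Bool

/-- shift of a configuration -/
def shift (x : ℤ × ℤ) (ω : Conf) : Conf := fun y => ω (x + y)

/-- the four directions: axis and sign -/
abbrev Dir : Type := Bool × Bool

/-- the unit vector of a direction -/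
def vec : Dir → ℤ × ℤ
  | (true, true) => (1, 0)
  | (true, false) => (-1, 0)
  | (false, true) => (0, 1)
  | (false, false) => (0, -1)

/-- two dimensional discrete point processes: stationary and ergodic for each of the two unit
shifts, and not almost surely empty -/
structure IsDPP (Q : Measure Conf) : Prop where
  prob : IsProbabilityMeasure Q
  ergodic_e1 : Ergodic (shift (1, 0)) Q
  ergodic_e2 : Ergodic (shift (0, 1)) Q
  nonempty : Q {ω | ∀ x, ω x = false} < 1

/-- the origin is occupied -/
def Omega0 : Set Conf := {ω | ω 0 = true}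

/-- the Palm measure `Q (· | ω 0 = 1)` -/
noncomputable def palm (Q : Measure Conf) : Measure Conf := ProbabilityTheory.cond Q Omega0

/-- distance from the origin to the next point in direction `e` -/
noncomputable def gap (e : ℤ × ℤ) (ω : Conf) : ℕ := sInf {k : ℕ | 0 < k ∧ ω (k • e) = true}

/-- the site reached from `v` by a jump in direction `a` -/
noncomputable def step (ω : Conf) (v : ℤ × ℤ) (a : Dir) : ℤ × ℤ :=
  v + gap (vec a) (shift v ω) • vec a

/-- the walk driven by a sequence of directions -/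
noncomputable def walk (ω : Conf) (ξ : ℕ → Dir) : ℕ → ℤ × ℤ
  | 0 => 0
  | n + 1 => step ω (walk ω ξ n) (ξ n)

/-- independent uniform directions -/
noncomputable def dirLaw : Measure (ℕ → Dir) :=
  Measure.infinitePi fun _ : ℕ => (PMF.uniformOfFintype Dir).toMeasure

instance : IsProbabilityMeasure dirLaw := by unfold dirLaw; infer_instance

section abstract

variable {V : Type} (st : V → Dir → V)

/-- walk with a general step function -/
def W (v : V) (ξ : ℕ → Dir) : ℕ → V
  | 0 => v
  | n + 1 => st (W v ξ n) (ξ n)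

lemma W_congr {v : V} {ξ ξ' : ℕ → Dir} {n : ℕ} (h : ∀ i < n, ξ i = ξ' i) :
    W st v ξ n = W st v ξ' n := by
  induction n with
  | zero => rfl
  | succ n ih =>
    rw [W, W, ih fun i hi => h i (by omega), h n (by omega)]

lemma W_add (v : V) (ξ : ℕ → Dir) (n k : ℕ) :
    W st v ξ (n + k) = W st (W st v ξ n) (fun i => ξ (n + i)) k := by
  induction k with
  | zero => rfl
  | succ k ih =>
    rw [← add_assoc, W, W, ih]

/-- one step averaging operator -/
noncomputable def opE (h : V → ℝ≥0∞) (v : V) : ℝ≥0∞ := 4⁻¹ * ∑ a : Dir, h (st v a)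

lemma unif_singleton (a : Dir) : (PMF.uniformOfFintype Dir).toMeasure {a} = 4⁻¹ := by
  rw [PMF.toMeasure_apply_singleton _ _ MeasurableSet.of_discrete, PMF.uniformOfFintype_apply]
  congr 1

variable [MeasurableSpace V] [DiscreteMeasurableSpace V] [Countable V]

lemma measurable_W (v : V) (n : ℕ) : Measurable fun ξ : ℕ → Dir => W st v ξ n := by
  induction n with
  | zero => exact measurable_const
  | succ n ih =>
    have h1 : Measurable fun p : V × Dir => st p.1 p.2 := Measurable.of_discrete
    exact h1.comp (ih.prodMk (measurable_pi_apply n))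

lemma lintegral_W (v : V) (n : ℕ) : ∀ h : V → ℝ≥0∞,
    ∫⁻ ξ, h (W st v ξ n) ∂dirLaw = (opE st)^[n] h v := by
  induction n with
  | zero => intro h; simp [W]
  | succ n ih =>
    intro h
    rw [Function.iterate_succ, Function.comp, ← ih]
    have hF : Measurable fun ξ : ℕ → Dir => h (W st v ξ (n + 1)) :=
      (Measurable.of_discrete (f := h)).comp (measurable_W st v (n + 1))
    have hmp := Q293.Bias.resample
      (fun _ : ℕ => (PMF.uniformOfFintype Dir).toMeasure) n
    have h1 : ∫⁻ ξ, h (W st v ξ (n + 1)) ∂dirLaw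
        = ∫⁻ p : Dir × (ℕ → Dir), h (W st v (Function.update p.2 n p.1) (n + 1))
          ∂((PMF.uniformOfFintype Dir).toMeasure.prod dirLaw) :=
      (hmp.lintegral_comp hF).symm
    rw [h1]
    have h2 : ∀ p : Dir × (ℕ → Dir), h (W st v (Function.update p.2 n p.1) (n + 1))
        = h (st (W st v p.2 n) p.1) := by
      intro p
      rw [W, Function.update_self, W_congr st (ξ' := p.2)]
      intro i hi
      rw [Function.update_of_ne hi.ne]
    simp only [h2]
    have hm : Measurable fun p : Dir × (ℕ → Dir) => h (st (W st v p.2 n) p.1) := by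
      have h3 : Measurable fun p : V × Dir => h (st p.1 p.2) := Measurable.of_discrete
      exact h3.comp (((measurable_W st v n).comp measurable_snd).prodMk measurable_fst)
    rw [lintegral_prod_symm' _ hm]
    apply lintegral_congr
    intro ξ
    rw [lintegral_fintype]
    unfold opE
    rw [Finset.mul_sum]
    apply Finset.sum_congr rfl
    intro a _
    rw [unif_singleton, mul_comm]

/-- Green function -/
lemma prob_W_eq (v w : V) (n : ℕ) :
    dirLaw {ξ | W st v ξ n = w} = (opE st)^[n] (Set.indicator {w} 1) v := by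
  rw [← lintegral_W]
  have hm : MeasurableSet {ξ : ℕ → Dir | W st v ξ n = w} :=
    measurable_W st v n (MeasurableSet.of_discrete (s := {w}))
  rw [← lintegral_indicator_one hm]
  apply lintegral_congr
  intro ξ
  by_cases h : W st v ξ n = w
  · rw [Set.indicator_of_mem (show ξ ∈ {ξ : ℕ → Dir | W st v ξ n = w} from h),
      Set.indicator_of_mem (show W st v ξ n ∈ ({w} : Set V) from h)]
    rfl
  · rw [Set.indicator_of_notMem (show ξ ∉ {ξ : ℕ → Dir | W st v ξ n = w} from h),
      Set.indicator_of_notMem (show W st v ξ n ∉ ({w} : Set V) from h)]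

/-- finite Green function implies finitely many visits -/
lemma ae_finite_of_green (v w : V) (h : ∑' n, (opE st)^[n] (Set.indicator {w} 1) v ≠ ∞) :
    ∀ᵐ ξ ∂dirLaw, ¬ ∃ᶠ n in atTop, W st v ξ n = w := by
  have h1 : ∑' n, dirLaw {ξ | W st v ξ n = w} ≠ ∞ := by
    simpa only [prob_W_eq] using h
  have h2 := ae_eventually_notMem h1
  filter_upwards [h2] with ξ hξ
  rw [not_frequently]
  exact hξ

/-- infinite Green function implies almost sure return -/
lemma ae_return_of_green (v : V) (h : ∑' n, (opE st)^[n] (Set.indicator {v} 1) v = ∞) :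
    ∀ᵐ ξ ∂dirLaw, ∃ n, 1 ≤ n ∧ W st v ξ n = v := by
  set N : Set (ℕ → Dir) := {ξ | ∀ k, 1 ≤ k → W st v ξ k ≠ v} with hN
  have hNm : MeasurableSet N := by
    have : N = ⋂ (k : ℕ) (_ : 1 ≤ k), {ξ | W st v ξ k ≠ v} := by
      ext ξ; simp [hN]
    rw [this]
    exact MeasurableSet.iInter fun k => MeasurableSet.iInter fun _ =>
      measurable_W st v k (MeasurableSet.of_discrete (s := {w | w ≠ v}))
  have key : ∀ n, dirLaw {ξ | W st v ξ n = v ∧ ∀ k, 1 ≤ k → W st v ξ (n + k) ≠ v}
      = dirLaw {ξ | W st v ξ n = v} * dirLaw N := by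
    intro n
    have hm1 : MeasurableSet {ξ : ℕ → Dir | W st v ξ n = v} :=
      measurable_W st v n (MeasurableSet.of_discrete (s := {v}))
    have hm2 : MeasurableSet {ξ : ℕ → Dir | W st v ξ n = v ∧ ∀ k, 1 ≤ k → W st v ξ (n + k) ≠ v} := by
      have : {ξ : ℕ → Dir | W st v ξ n = v ∧ ∀ k, 1 ≤ k → W st v ξ (n + k) ≠ v}
          = {ξ | W st v ξ n = v} ∩ ⋂ (k : ℕ) (_ : 1 ≤ k), {ξ | W st v ξ (n + k) ≠ v} := by
        ext ξ; simp
      rw [this]
      exact hm1.inter (MeasurableSet.iInter fun k => MeasurableSet.iInter fun _ =>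
        measurable_W st v (n + k) (MeasurableSet.of_discrete (s := {w | w ≠ v})))
    have h1 := Q293.LinWalk.map_concat (PMF.uniformOfFintype Dir).toMeasure n
    change (dirLaw.prod dirLaw).map (Q293.LinWalk.concat n) = dirLaw at h1
    rw [← h1, Measure.map_apply (Q293.LinWalk.measurable_concat n) hm2,
      Measure.map_apply (Q293.LinWalk.measurable_concat n) hm1, h1]
    have e1 : ∀ p : (ℕ → Dir) × (ℕ → Dir), W st v (Q293.LinWalk.concat n p) n = W st v p.1 n := by
      intro p
      apply W_congr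
      intro i hi
      unfold Q293.LinWalk.concat
      rw [if_pos hi]
    have e2 : ∀ p : (ℕ → Dir) × (ℕ → Dir), ∀ k,
        W st v (Q293.LinWalk.concat n p) (n + k) = W st (W st v p.1 n) p.2 k := by
      intro p k
      rw [W_add, e1]
      congr 1
      funext i
      unfold Q293.LinWalk.concat
      rw [if_neg (by omega), Nat.add_sub_cancel_left]
    have e3 : (Q293.LinWalk.concat n) ⁻¹' {ξ : ℕ → Dir | W st v ξ n = v ∧
        ∀ k, 1 ≤ k → W st v ξ (n + k) ≠ v} = {ξ | W st v ξ n = v} ×ˢ N := by
      ext p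
      simp only [Set.mem_preimage, Set.mem_ofPred_eq, Set.mem_prod, e1, e2, hN]
      constructor
      · rintro ⟨h1, h2⟩
        rw [h1] at h2
        exact ⟨h1, h2⟩
      · rintro ⟨h1, h2⟩
        rw [h1]
        exact ⟨rfl, h2⟩
    have e4 : (Q293.LinWalk.concat n) ⁻¹' {ξ : ℕ → Dir | W st v ξ n = v}
        = {ξ | W st v ξ n = v} ×ˢ (Set.univ : Set (ℕ → Dir)) := by
      ext p
      simp only [Set.mem_preimage, Set.mem_ofPred_eq, Set.mem_prod, e1, Set.mem_univ, and_true]
    rw [e3, e4, Measure.prod_prod, Measure.prod_prod, measure_univ, mul_one]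
  have hdisj : Pairwise (Function.onFun Disjoint fun n : ℕ =>
      {ξ : ℕ → Dir | W st v ξ n = v ∧ ∀ k, 1 ≤ k → W st v ξ (n + k) ≠ v}) := by
    intro i j hij
    rw [Function.onFun, Set.disjoint_left]
    rintro ξ ⟨h1, h2⟩ ⟨h3, h4⟩
    rcases lt_or_gt_of_ne hij with h5 | h5
    · apply h2 (j - i) (by omega)
      rwa [Nat.add_sub_cancel' h5.le]
    · apply h4 (i - j) (by omega)
      rwa [Nat.add_sub_cancel' h5.le]
  have hmeas : ∀ n : ℕ, MeasurableSet
      {ξ : ℕ → Dir | W st v ξ n = v ∧ ∀ k, 1 ≤ k → W st v ξ (n + k) ≠ v} := by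
    intro n
    have : {ξ : ℕ → Dir | W st v ξ n = v ∧ ∀ k, 1 ≤ k → W st v ξ (n + k) ≠ v}
        = {ξ | W st v ξ n = v} ∩ ⋂ (k : ℕ) (_ : 1 ≤ k), {ξ | W st v ξ (n + k) ≠ v} := by
      ext ξ; simp
    rw [this]
    exact (measurable_W st v n (MeasurableSet.of_discrete (s := {v}))).inter
      (MeasurableSet.iInter fun k => MeasurableSet.iInter fun _ =>
        measurable_W st v (n + k) (MeasurableSet.of_discrete (s := {w | w ≠ v})))
  have hsum : ∑' n, dirLaw {ξ | W st v ξ n = v} * dirLaw N ≤ 1 := by
    calc ∑' n, dirLaw {ξ | W st v ξ n = v} * dirLaw N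
        = ∑' n, dirLaw {ξ | W st v ξ n = v ∧ ∀ k, 1 ≤ k → W st v ξ (n + k) ≠ v} :=
          tsum_congr fun n => (key n).symm
      _ = dirLaw (⋃ n, {ξ | W st v ξ n = v ∧ ∀ k, 1 ≤ k → W st v ξ (n + k) ≠ v}) :=
          (measure_iUnion hdisj hmeas).symm
      _ ≤ 1 := prob_le_one
  rw [ENNReal.tsum_mul_right] at hsum
  have h2 : ∑' n, dirLaw {ξ | W st v ξ n = v} = ∞ := by
    simpa only [prob_W_eq] using h
  rw [h2] at hsum
  have h3 : dirLaw N = 0 := by
    by_contra hne
    rw [ENNReal.top_mul hne] at hsum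
    exact absurd hsum (by simp)
  rw [ae_iff]
  convert h3 using 2
  ext ξ
  simp [hN]

end abstract

end Q293.DPP
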