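import Pool.Agent.Q293.Odo
import Pool.Agent.Q293.DPPDefs

/-!
# A hierarchical set of integers driven by the 2-adic odometer
-/

set_option autoImplicit false
set_option linter.unusedSectionVars false

open MeasureTheory Filter Topology Q293.Odo Q293.DPP
open scoped ENNReal

namespace Q293.Anti

/-- admissible sequences of exponents -/
structure Adm (m : ℕ → ℕ) : Prop where
  base : 3 ≤ m 0
  step : ∀ i, m i + i + 4 ≤ m (i + 1)

variable (m : ℕ → ℕ)

/-- the periods -/
def Mm (i : ℕ) : ℕ := 2 ^ m i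

/-- the lengths of the holes -/
def Nn (i : ℕ) : ℕ := 2 ^ (m i - i - 3)

/-- the windows -/
def Ww (j : ℕ) : ℕ := 2 ^ (m (j + 1) - j - 1)

/-- sums of the hole lengths -/
def Rr : ℕ → ℕ
  | 0 => Nn m 0
  | j + 1 => Nn m (j + 1) + Rr j

/-- `s` is not in a hole -/
def occ (κ : ℤ_[2]) (s : ℤ) : Prop := ∀ i, Nn m i ≤ res (m i) (κ + s)

/-- not in a hole of level at most `j` -/
def good (j : ℕ) (κ : ℤ_[2]) : Prop := ∀ i, i ≤ j → Nn m i ≤ res (m i) κ

/-- far from the holes of level larger than `j` -/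
def Far (j : ℕ) (κ : ℤ_[2]) : Prop :=
  ∀ i, j < i → Nn m i + 2 * Ww m j ≤ res (m i) κ ∧ res (m i) κ + 2 * Ww m j < Mm m i

variable {m}

lemma Adm.ge (h : Adm m) (i : ℕ) : i + 3 ≤ m i := by
  induction i with
  | zero => exact h.base
  | succ i ih => have := h.step i; omega

lemma Adm.lt_of_lt (h : Adm m) {i j : ℕ} (hij : i < j) : m i + j + 3 ≤ m j := by
  induction j with
  | zero => omega
  | succ j ih =>
    have h1 := h.step j
    rcases Nat.lt_succ_iff_lt_or_eq.1 hij with h2 | h2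
    · have := ih h2; omega
    · subst h2; omega

lemma Adm.le_of_le (h : Adm m) {i j : ℕ} (hij : i ≤ j) : m i ≤ m j := by
  rcases hij.lt_or_eq with h1 | h1
  · have := h.lt_of_lt h1; omega
  · rw [h1]

lemma Nn_pos (i : ℕ) : 0 < Nn m i := by unfold Nn; positivity

lemma Mm_eq (h : Adm m) (i : ℕ) : Mm m i = 2 ^ (i + 3) * Nn m i := by
  unfold Mm Nn
  rw [← pow_add]
  congr 1
  have := h.ge i
  omega

lemma eight_Nn_le (h : Adm m) (i : ℕ) : 8 * Nn m i ≤ Mm m i := by
  rw [Mm_eq h]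
  apply Nat.mul_le_mul_right
  calc 8 = 2 ^ 3 := by norm_num
    _ ≤ 2 ^ (i + 3) := Nat.pow_le_pow_right (by norm_num) (by omega)

lemma two_Nn_le (h : Adm m) (i : ℕ) : 2 * Nn m i ≤ Nn m (i + 1) := by
  unfold Nn
  have h1 := h.ge i
  have h2 := h.step i
  calc 2 * 2 ^ (m i - i - 3) = 2 ^ (m i - i - 3 + 1) := by rw [pow_succ]; ring
    _ ≤ 2 ^ (m (i + 1) - (i + 1) - 3) := Nat.pow_le_pow_right (by norm_num) (by omega)

lemma Rr_le (h : Adm m) (j : ℕ) : Rr m j ≤ 2 * Nn m j := by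
  induction j with
  | zero => rw [Rr]; omega
  | succ j ih => rw [Rr]; have := two_Nn_le h j; omega

lemma Mm_dvd_Nn (h : Adm m) {i j : ℕ} (hij : i < j) : Mm m i ∣ Nn m j := by
  unfold Mm Nn
  apply pow_dvd_pow
  have := h.lt_of_lt hij
  omega

lemma Mm_le_Ww (h : Adm m) (j : ℕ) : Mm m j ≤ Ww m j := by
  unfold Mm Ww
  apply Nat.pow_le_pow_right (by norm_num)
  have := h.step j
  omega

lemma res_add_nat (μ : ℕ) (κ : ℤ_[2]) (t : ℕ) (h : res μ κ + t < 2 ^ μ) :
    res μ (κ + t) = res μ κ + t := by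
  have h1 := res_add μ κ (t : ℤ)
  rw [Int.cast_natCast] at h1
  have h2 : ((res μ κ : ℤ) + t) % (2 : ℤ) ^ μ = (res μ κ : ℤ) + t := by
    apply Int.emod_eq_of_lt (by positivity)
    exact_mod_cast h
  rw [h2] at h1
  exact_mod_cast h1

lemma res_add_int (μ : ℕ) (κ : ℤ_[2]) (t : ℤ) (h0 : 0 ≤ (res μ κ : ℤ) + t)
    (h : (res μ κ : ℤ) + t < (2 : ℤ) ^ μ) : (res μ (κ + t) : ℤ) = res μ κ + t := by
  rw [res_add, Int.emod_eq_of_lt h0 h]

/-- at the last residue of level `j` all lower levels are at their last residue -/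
lemma res_last (h : Adm m) {i j : ℕ} (hij : i ≤ j) {κ : ℤ_[2]}
    (hκ : res (m j) κ = Mm m j - 1) : res (m i) κ = Mm m i - 1 := by
  rw [← res_mod (m i) (m j) (h.le_of_le hij), hκ]
  obtain ⟨c, hc⟩ : Mm m i ∣ Mm m j := pow_dvd_pow 2 (h.le_of_le hij)
  have hp : 0 < Mm m i := by unfold Mm; positivity
  have hp' : 0 < Mm m j := by unfold Mm; positivity
  change (Mm m j - 1) % Mm m i = Mm m i - 1
  have hc0 : 0 < c := by
    rcases Nat.eq_zero_or_pos c with h0 | h0
    · rw [h0, mul_zero] at hc; omega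
    · exact h0
  obtain ⟨c', rfl⟩ : ∃ c', c = c' + 1 := ⟨c - 1, by omega⟩
  have : Mm m j - 1 = Mm m i * c' + (Mm m i - 1) := by
    rw [hc, Nat.mul_succ]; omega
  rw [this, Nat.mul_add_mod, Nat.mod_eq_of_lt (by omega)]

lemma good_of_last (h : Adm m) {j : ℕ} {κ : ℤ_[2]} (hκ : res (m j) κ = Mm m j - 1) :
    good m j κ := by
  intro i hi
  rw [res_last h hi hκ]
  have := eight_Nn_le h i
  have := Nn_pos (m := m) i
  omega

/-- within distance `Rr j` to the right there is a site outside the holes of level at most `j` -/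
lemma exists_good (h : Adm m) (j : ℕ) : ∀ κ : ℤ_[2], ∃ t : ℕ, t ≤ Rr m j ∧ good m j (κ + t) := by
  classical
  induction j with
  | zero =>
    intro κ
    by_cases hr : Nn m 0 ≤ res (m 0) κ
    · exact ⟨0, Nat.zero_le _, fun i hi => by
        have : i = 0 := by omega
        subst this; simpa using hr⟩
    · refine ⟨Nn m 0 - res (m 0) κ, by rw [Rr]; omega, fun i hi => ?_⟩
      have : i = 0 := by omega
      subst this
      have h8 := eight_Nn_le h 0
      rw [res_add_nat]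
      · omega
      · change _ < Mm m 0
        have := Nn_pos (m := m) 0
        omega
  | succ j ih =>
    have stepA : ∀ κ : ℤ_[2], Nn m (j + 1) ≤ res (m (j + 1)) κ →
        ∃ t : ℕ, t ≤ Rr m j ∧ good m (j + 1) (κ + t) := by
      intro κ hκ
      have hex : ∃ t : ℕ, good m j (κ + t) := by
        obtain ⟨t, _, ht⟩ := ih κ
        exact ⟨t, ht⟩
      set t1 := Nat.find hex with ht1
      have hle : t1 ≤ Rr m j := by
        obtain ⟨t, h1, h2⟩ := ih κ
        exact (Nat.find_min' hex h2).trans h1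
      have hnowrap : res (m (j + 1)) κ + t1 < Mm m (j + 1) := by
        by_contra hw
        push Not at hw
        have hlt : res (m (j + 1)) κ < Mm m (j + 1) := res_lt _ _
        have h3 : Mm m (j + 1) - 1 - res (m (j + 1)) κ < t1 := by omega
        apply Nat.find_min hex h3
        have h4 : res (m (j + 1)) (κ + (Mm m (j + 1) - 1 - res (m (j + 1)) κ : ℕ))
            = Mm m (j + 1) - 1 := by
          rw [res_add_nat]
          · omega
          · change _ < Mm m (j + 1)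
            omega
        intro i hi
        exact good_of_last h h4 i (by omega)
      refine ⟨t1, hle, fun i hi => ?_⟩
      rcases Nat.le_succ_iff.1 hi with h5 | h5
      · exact Nat.find_spec hex i h5
      · have h6 : i = j + 1 := h5
        subst h6
        rw [res_add_nat _ _ _ hnowrap]
        omega
    intro κ
    by_cases hr : Nn m (j + 1) ≤ res (m (j + 1)) κ
    · obtain ⟨t, h1, h2⟩ := stepA κ hr
      exact ⟨t, by rw [Rr]; omega, h2⟩
    · push Not at hr
      have h8 := eight_Nn_le h (j + 1)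
      have e1 : res (m (j + 1)) (κ + (Nn m (j + 1) - res (m (j + 1)) κ : ℕ)) = Nn m (j + 1) := by
        rw [res_add_nat]
        · omega
        · change _ < Mm m (j + 1)
          have := Nn_pos (m := m) (j + 1)
          omega
      obtain ⟨t, h1, h2⟩ := stepA (κ + (Nn m (j + 1) - res (m (j + 1)) κ : ℕ)) e1.ge
      refine ⟨Nn m (j + 1) - res (m (j + 1)) κ + t, by rw [Rr]; omega, ?_⟩
      rw [Nat.cast_add, ← add_assoc]
      exact h2

section far
variable (h : Adm m) {j : ℕ} {κ : ℤ_[2]} (hF : Far m j κ)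
include h hF

lemma far_res {s : ℤ} (hs : |s| ≤ 2 * Ww m j) {i : ℕ} (hi : j < i) :
    Nn m i ≤ res (m i) (κ + s) := by
  have h1 := hF i hi
  have h2 := abs_le.1 hs
  have h3 : ((Nn m i + 2 * Ww m j : ℕ) : ℤ) ≤ (res (m i) κ : ℤ) := by exact_mod_cast h1.1
  have h4 : ((res (m i) κ + 2 * Ww m j : ℕ) : ℤ) < (Mm m i : ℤ) := by exact_mod_cast h1.2
  push_cast at h3 h4
  have h5 : (res (m i) (κ + s) : ℤ) = res (m i) κ + s := by
    apply res_add_int
    · have : (0 : ℤ) ≤ Nn m i := Int.natCast_nonneg _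
      linarith [h2.1]
    · have : ((Mm m i : ℕ) : ℤ) = 2 ^ m i := by unfold Mm; push_cast; rfl
      rw [← this]; linarith [h2.2]
  have h6 : (Nn m i : ℤ) ≤ (res (m i) (κ + s) : ℤ) := by rw [h5]; linarith [h2.1]
  exact_mod_cast h6

lemma occ_iff {s : ℤ} (hs : |s| ≤ 2 * Ww m j) : occ m κ s ↔ good m j (κ + s) := by
  constructor
  · intro h1 i _; exact h1 i
  · intro h1 i
    rcases le_or_gt i j with h2 | h2
    · exact h1 i h2
    · exact far_res h hF hs h2

lemma Ww_big : 8 * Nn m j ≤ Ww m j := (eight_Nn_le h j).trans (Mm_le_Ww h j)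

lemma exists_next {s : ℤ} (hs : |s| ≤ Ww m j) :
    ∃ t : ℕ, t ≤ Rr m j ∧ occ m κ (s + 1 + t) := by
  obtain ⟨t, h1, h2⟩ := exists_good h j (κ + ((s + 1 : ℤ) : ℤ_[2]))
  refine ⟨t, h1, ?_⟩
  have h3 := Rr_le h j
  have h4 := Ww_big h hF
  have h5 := Nn_pos (m := m) j
  have h6 := abs_le.1 hs
  rw [occ_iff h hF]
  · have e2 : κ + ((s + 1 + t : ℤ) : ℤ_[2]) = κ + ((s + 1 : ℤ) : ℤ_[2]) + (t : ℤ_[2]) := by
      push_cast; ring
    rw [e2]; exact h2
  · rw [abs_le]; constructor <;> omega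

lemma exists_prev {s : ℤ} (hs : |s| ≤ Ww m j) :
    ∃ t : ℕ, t ≤ Rr m j ∧ occ m κ (s - 1 - t) := by
  obtain ⟨t, h1, h2⟩ := exists_good h j (κ + ((s - 1 - Rr m j : ℤ) : ℤ_[2]))
  refine ⟨Rr m j - t, by omega, ?_⟩
  have h3 := Rr_le h j
  have h4 := Ww_big h hF
  have h5 := Nn_pos (m := m) j
  have h6 := abs_le.1 hs
  have e : s - 1 - ((Rr m j - t : ℕ) : ℤ) = (s - 1 - Rr m j) + t := by omega
  rw [e, occ_iff h hF]
  · have e2 : κ + ((s - 1 - Rr m j + t : ℤ) : ℤ_[2])
        = κ + ((s - 1 - Rr m j : ℤ) : ℤ_[2]) + (t : ℤ_[2]) := by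
      push_cast; ring
    rw [e2]; exact h2
  · rw [abs_le]; constructor <;> omega

/-- the start of the first hole of level `j` -/
noncomputable def hs0 (m : ℕ → ℕ) (j : ℕ) (κ : ℤ_[2]) : ℤ := (Mm m j : ℤ) - res (m j) κ

omit hF h in
lemma hs0_pos : 1 ≤ hs0 m j κ := by
  have h1 : res (m j) κ < Mm m j := res_lt _ _
  unfold hs0; omega

omit hF h in
lemma hs0_le : hs0 m j κ ≤ Mm m j := by unfold hs0; omega

lemma res_near (u : ℤ) (hu1 : 1 ≤ u) (hu2 : u ≤ Mm m j) :
    res (m j) (κ + ((hs0 m j κ - u : ℤ) : ℤ_[2])) = Mm m j - u.toNat := by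
  have h1 : (res (m j) (κ + ((hs0 m j κ - u : ℤ) : ℤ_[2])) : ℤ) = res (m j) κ + (hs0 m j κ - u) := by
    apply res_add_int
    · unfold hs0; omega
    · have : ((Mm m j : ℕ) : ℤ) = 2 ^ m j := by unfold Mm; push_cast; rfl
      rw [← this]; unfold hs0; omega
  have h2 : (res (m j) κ : ℤ) + (hs0 m j κ - u) = Mm m j - u := by unfold hs0; ring
  rw [h2] at h1
  omega

lemma abs_near {u : ℤ} (hu1 : -(Mm m j : ℤ) ≤ u) (hu2 : u ≤ Mm m j) :
    |hs0 m j κ - u| ≤ 2 * Ww m j := by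
  have h1 := hs0_pos (m := m) (j := j) (κ := κ)
  have h2 := hs0_le (m := m) (j := j) (κ := κ)
  have h3 := Mm_le_Ww h j
  rw [abs_le]; constructor <;> omega

lemma occ_before : occ m κ (hs0 m j κ - 1) := by
  have hp : 8 ≤ Mm m j := by
    have := eight_Nn_le h j
    have := Nn_pos (m := m) j
    omega
  rw [occ_iff h hF (abs_near h hF (by omega) (by omega))]
  apply good_of_last h
  rw [res_near h hF 1 le_rfl (by omega)]
  simp

lemma occ_before2 : occ m κ (hs0 m j κ - 2) := by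
  have hp : 8 ≤ Mm m j := by
    have := eight_Nn_le h j
    have := Nn_pos (m := m) j
    omega
  rw [occ_iff h hF (abs_near h hF (by omega) (by omega))]
  have hlast : res (m j) (κ + ((hs0 m j κ - 1 : ℤ) : ℤ_[2])) = Mm m j - 1 := by
    rw [res_near h hF 1 le_rfl (by omega)]
    simp
  intro i hi
  have h1 := res_last h hi hlast
  have h8 := eight_Nn_le h i
  have hN := Nn_pos (m := m) i
  have h2 : (res (m i) (κ + ((hs0 m j κ - 1 : ℤ) : ℤ_[2]) + ((-1 : ℤ) : ℤ_[2])) : ℤ)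
      = res (m i) (κ + ((hs0 m j κ - 1 : ℤ) : ℤ_[2])) + (-1) := by
    apply res_add_int
    · rw [h1]; omega
    · rw [h1]
      have : ((Mm m i : ℕ) : ℤ) = 2 ^ m i := by unfold Mm; push_cast; rfl
      rw [← this]; omega
  have e : κ + ((hs0 m j κ - 2 : ℤ) : ℤ_[2])
      = κ + ((hs0 m j κ - 1 : ℤ) : ℤ_[2]) + ((-1 : ℤ) : ℤ_[2]) := by push_cast; ring
  rw [e]
  rw [h1] at h2
  omega

lemma not_occ_hole {t : ℕ} (ht : t < Nn m j) : ¬ occ m κ (hs0 m j κ + t) := by
  intro hocc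
  have h8 := eight_Nn_le h j
  have h1 := hocc j
  have h2 : (res (m j) (κ + ((hs0 m j κ + t : ℤ) : ℤ_[2])) : ℤ) = t := by
    rw [res_add]
    have e : (res (m j) κ : ℤ) + (hs0 m j κ + t) = t + 2 ^ m j * 1 := by
      have : ((Mm m j : ℕ) : ℤ) = 2 ^ m j := by unfold Mm; push_cast; rfl
      unfold hs0; rw [← this]; ring
    rw [e, Int.add_mul_emod_self_left]
    apply Int.emod_eq_of_lt (by positivity)
    have : ((Mm m j : ℕ) : ℤ) = 2 ^ m j := by unfold Mm; push_cast; rfl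
    rw [← this]; omega
  omega

end far

end Q293.Anti
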