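import Pool.Agent.Q293.PermEnergy

/-!
# Logarithmic test functions on the square lattice
-/

set_option autoImplicit false

open MeasureTheory Filter Topology
open scoped ENNReal

namespace Q293.Anti

/-- sup norm -/
def rr (v : ℤ × ℤ) : ℕ := max v.1.natAbs v.2.natAbs

/-- harmonic sums -/
noncomputable def Hm (k : ℕ) : ℝ := ∑ i ∈ Finset.range k, 1 / ((i : ℝ) + 1)

/-- radial profile -/
noncomputable def phi (W k : ℕ) : ℝ := 1 - Hm (min k W) / Hm W

/-- test function -/
noncomputable def tf (W : ℕ) (v : ℤ × ℤ) : ℝ := phi W (rr v)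

lemma Hm_succ (k : ℕ) : Hm (k + 1) = Hm k + 1 / ((k : ℝ) + 1) := by
  unfold Hm; rw [Finset.sum_range_succ]

lemma one_le_Hm {k : ℕ} (hk : 1 ≤ k) : 1 ≤ Hm k := by
  unfold Hm
  obtain ⟨k', rfl⟩ : ∃ k', k = k' + 1 := ⟨k - 1, by omega⟩
  rw [Finset.sum_range_succ']
  have : 0 ≤ ∑ i ∈ Finset.range k', 1 / (((i + 1 : ℕ) : ℝ) + 1) :=
    Finset.sum_nonneg fun i _ => by positivity
  simp only [Nat.cast_zero, zero_add, div_one]
  linarith

lemma Hm_eq (k : ℕ) : Hm k = (harmonic k : ℝ) := by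
  unfold Hm harmonic
  push_cast
  apply Finset.sum_congr rfl
  intro i _
  rw [one_div]

lemma log_le_Hm (n : ℕ) : (n : ℝ) * Real.log 2 ≤ Hm (2 ^ n) := by
  rw [Hm_eq]
  refine le_trans ?_ (log_add_one_le_harmonic (2 ^ n))
  rw [← Real.log_pow]
  apply Real.log_le_log (by positivity)
  push_cast
  linarith

lemma tf_zero (W : ℕ) : tf W 0 = 1 := by
  simp [tf, phi, rr, Hm]

lemma tf_eq_zero {W : ℕ} (hW : 1 ≤ W) {v : ℤ × ℤ} (hv : W ≤ rr v) : tf W v = 0 := by
  have h1 := one_le_Hm hW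
  unfold tf phi
  rw [min_eq_right hv, div_self (by linarith), sub_self]

lemma tf_supp {W : ℕ} (hW : 1 ≤ W) : (tf W).support.Finite := by
  have : (tf W).support ⊆ (Set.Icc (-(W : ℤ)) W) ×ˢ (Set.Icc (-(W : ℤ)) W) := by
    intro v hv
    rw [Function.mem_support] at hv
    by_contra hn
    apply hv
    apply tf_eq_zero hW
    unfold rr
    by_contra hlt
    push Not at hlt
    rw [max_lt_iff] at hlt
    apply hn
    refine ⟨⟨?_, ?_⟩, ⟨?_, ?_⟩⟩ <;> omega
  exact ((Set.finite_Icc _ _).prod (Set.finite_Icc _ _)).subset this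

lemma phi_diff {W : ℕ} (hW : 1 ≤ W) (k : ℕ) :
    phi W k - phi W (k + 1) = if k < W then 1 / (((k : ℝ) + 1) * Hm W) else 0 := by
  have h1 := one_le_Hm hW
  unfold phi
  split_ifs with h
  · rw [min_eq_left h.le, min_eq_left (by omega : k + 1 ≤ W), Hm_succ]
    have h2 : (k : ℝ) + 1 ≠ 0 := by positivity
    have h3 : Hm W ≠ 0 := by linarith
    field_simp
    ring
  · push Not at h
    rw [min_eq_right h, min_eq_right (by omega : W ≤ k + 1), sub_self]

/-- upper bound of the squared differences -/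
noncomputable def cc (W k : ℕ) : ℝ := if k ≤ W then (1 / (max (k : ℝ) 1 * Hm W)) ^ 2 else 0

lemma cc_nonneg (W k : ℕ) : 0 ≤ cc W k := by unfold cc; split_ifs <;> positivity

lemma rr_add (w e : ℤ × ℤ) (he : e = (1, 0) ∨ e = (0, 1)) :
    rr (w + e) = rr w ∨ rr (w + e) = rr w + 1 ∨ rr w = rr (w + e) + 1 := by
  unfold rr
  rcases he with rfl | rfl
  · simp only [Prod.fst_add, Prod.snd_add, add_zero]
    omega
  · simp only [Prod.fst_add, Prod.snd_add, add_zero]
    omega

lemma D_le {W : ℕ} (hW : 1 ≤ W) (w e : ℤ × ℤ) (he : e = (1, 0) ∨ e = (0, 1)) :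
    (tf W w - tf W (w + e)) ^ 2 ≤ cc W (rr w) := by
  have h1 := one_le_Hm hW
  unfold tf
  rcases rr_add w e he with h | h | h
  · rw [h, sub_self, zero_pow two_ne_zero]; exact cc_nonneg _ _
  · rw [h, phi_diff hW]
    unfold cc
    split_ifs with h2 h3 h3
    · have h4 : (1 : ℝ) ≤ max ((rr w : ℕ) : ℝ) 1 := le_max_right _ _
      have h5 : max ((rr w : ℕ) : ℝ) 1 ≤ (rr w : ℝ) + 1 := by
        apply max_le
        · linarith
        · have : (0 : ℝ) ≤ rr w := Nat.cast_nonneg _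
          linarith
      have h6 : 0 < max ((rr w : ℕ) : ℝ) 1 * Hm W := by positivity
      have h7 : max ((rr w : ℕ) : ℝ) 1 * Hm W ≤ ((rr w : ℝ) + 1) * Hm W :=
        mul_le_mul_of_nonneg_right h5 (by linarith)
      exact pow_le_pow_left₀ (by positivity) (one_div_le_one_div_of_le h6 h7) 2
    · omega
    · rw [zero_pow two_ne_zero]; positivity
    · rw [zero_pow two_ne_zero]
  · set b := rr (w + e) with hb
    rw [h]
    have h2 : (phi W (b + 1) - phi W b) ^ 2 = (phi W b - phi W (b + 1)) ^ 2 := by ring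
    rw [h2, phi_diff hW]
    unfold cc
    split_ifs with h2 h3 h3
    · have h4 : max (((b + 1 : ℕ) : ℝ)) 1 = (b : ℝ) + 1 := by
        push_cast
        apply max_eq_left
        have : (0 : ℝ) ≤ b := Nat.cast_nonneg _
        linarith
      rw [h4]
    · omega
    · rw [zero_pow two_ne_zero]; positivity
    · rw [zero_pow two_ne_zero]

lemma sum_cc {W : ℕ} (hW : 1 ≤ W) :
    ∑' w : ℤ × ℤ, ENNReal.ofReal (cc W (rr w)) ≤ ENNReal.ofReal (9 / Hm W) := by
  classical
  have h1 := one_le_Hm hW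
  have e1 : ∀ w : ℤ × ℤ, ENNReal.ofReal (cc W (rr w))
      = ∑ k ∈ Finset.range (W + 1), if w ∈ (Finset.box k : Finset (ℤ × ℤ)) then
        ENNReal.ofReal (cc W k) else 0 := by
    intro w
    by_cases hw : rr w ≤ W
    · rw [Finset.sum_eq_single (rr w)]
      · have hmem : w ∈ (Finset.box (rr w) : Finset (ℤ × ℤ)) := Int.mem_box.2 rfl
        rw [if_pos hmem]
      · intro k _ hk
        rw [if_neg]
        intro h2
        exact hk (Int.mem_box.1 h2).symm
      · intro h2
        exact absurd (Finset.mem_range.2 (by omega)) h2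
    · rw [Finset.sum_eq_zero]
      · unfold cc; rw [if_neg hw]; simp
      · intro k hk
        rw [Finset.mem_range] at hk
        rw [if_neg]
        intro h2
        have : rr w = k := Int.mem_box.1 h2
        omega
  have e2 : ∀ k, ∑' w : ℤ × ℤ, (if w ∈ (Finset.box k : Finset (ℤ × ℤ)) then
        ENNReal.ofReal (cc W k) else 0) = ((Finset.box k : Finset (ℤ × ℤ)).card : ℝ≥0∞)
          * ENNReal.ofReal (cc W k) := by
    intro k
    rw [tsum_eq_sum (s := (Finset.box k : Finset (ℤ × ℤ)))]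
    · rw [Finset.sum_congr rfl (fun w hw => if_pos hw), Finset.sum_const, nsmul_eq_mul]
    · intro w hw
      exact if_neg hw
  simp only [e1]
  rw [Summable.tsum_finsetSum fun _ _ => ENNReal.summable]
  simp only [e2]
  have e3 : ∀ k ∈ Finset.range (W + 1), ((Finset.box k : Finset (ℤ × ℤ)).card : ℝ≥0∞)
          * ENNReal.ofReal (cc W k) = ENNReal.ofReal
            (((Finset.box k : Finset (ℤ × ℤ)).card : ℝ) * cc W k) := by
    intro k _
    rw [ENNReal.ofReal_mul (Nat.cast_nonneg _), ENNReal.ofReal_natCast]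
  rw [Finset.sum_congr rfl e3, ← ENNReal.ofReal_sum_of_nonneg fun k _ =>
    mul_nonneg (Nat.cast_nonneg _) (cc_nonneg _ _)]
  apply ENNReal.ofReal_le_ofReal
  rw [Finset.sum_range_succ']
  have e4 : ∀ k ∈ Finset.range W, ((Finset.box (k + 1) : Finset (ℤ × ℤ)).card : ℝ) * cc W (k + 1)
      = 8 / (Hm W) ^ 2 * (1 / ((k : ℝ) + 1)) := by
    intro k hk
    rw [Finset.mem_range] at hk
    rw [Int.card_box (Nat.succ_ne_zero k)]
    unfold cc
    rw [if_pos (by omega)]
    have h4 : max (((k + 1 : ℕ) : ℝ)) 1 = (k : ℝ) + 1 := by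
      push_cast
      apply max_eq_left
      have : (0 : ℝ) ≤ k := Nat.cast_nonneg _
      linarith
    rw [h4]
    push_cast
    have h2 : (k : ℝ) + 1 ≠ 0 := by positivity
    have h3 : Hm W ≠ 0 := by linarith
    field_simp
  rw [Finset.sum_congr rfl e4, ← Finset.mul_sum]
  have e5 : ((Finset.box 0 : Finset (ℤ × ℤ)).card : ℝ) * cc W 0 = 1 / (Hm W) ^ 2 := by
    unfold cc
    rw [if_pos (Nat.zero_le _)]
    simp
  rw [e5]
  change 8 / Hm W ^ 2 * Hm W + 1 / Hm W ^ 2 ≤ 9 / Hm W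
  have h2 : 8 / Hm W ^ 2 * Hm W = 8 / Hm W := by
    have h3 : Hm W ≠ 0 := by linarith
    field_simp
  have h3 : 1 / Hm W ^ 2 ≤ 1 / Hm W := by
    apply one_div_le_one_div_of_le (by linarith)
    nlinarith
  have h4 : 9 / Hm W = 8 / Hm W + 1 / Hm W := by ring
  rw [h2, h4]
  linarith

/-- Cauchy–Schwarz along a segment -/
lemma seg_le (h : ℤ × ℤ → ℝ) (v e : ℤ × ℤ) (g : ℕ) :
    (h v - h (v + g • e)) ^ 2
      ≤ (g : ℝ) * ∑ k ∈ Finset.range g, (h (v + k • e) - h (v + k • e + e)) ^ 2 := by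
  have h1 := Finset.sum_range_sub' (fun k : ℕ => h (v + k • e)) g
  have h2 := sq_sum_le_card_mul_sum_sq (s := Finset.range g)
    (f := fun k : ℕ => h (v + k • e) - h (v + (k + 1) • e))
  rw [h1, Finset.card_range] at h2
  simp only [zero_smul, add_zero] at h2
  refine h2.trans (le_of_eq ?_)
  congr 1
  apply Finset.sum_congr rfl
  intro k _
  rw [add_smul, one_smul, add_assoc]

end Q293.Anti
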