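import Pool.Agent.Q293.DPPTrans

/-!
# A transient planar point process
-/

set_option autoImplicit false
set_option linter.unusedSectionVars false

open MeasureTheory Filter Topology Q293.Odo Q293.DPP
open scoped ENNReal

namespace Q293.Anti

/-- the exponents of the transient example -/
def m4 (j : ℕ) : ℕ := 2 * (j + 3) ^ 2

lemma adm4 : Adm m4 where
  base := by unfold m4; norm_num
  step := by intro i; unfold m4; nlinarith

/-- thresholds -/
noncomputable def th (j : ℕ) : ℝ := 1 / 2 ^ (3 * (j + 3) ^ 2)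

lemma th_pos (j : ℕ) : 0 < th j := by unfold th; positivity

lemma th_Mm (j : ℕ) : (Mm m4 j : ℝ) * th j = 1 / 2 ^ ((j + 3) ^ 2) := by
  unfold Mm m4 th
  push_cast
  have : (2 : ℝ) ^ (3 * (j + 3) ^ 2) = 2 ^ (2 * (j + 3) ^ 2) * 2 ^ ((j + 3) ^ 2) := by
    rw [← pow_add]; congr 1; ring
  rw [this]
  field_simp

lemma th_Mm_le (j : ℕ) : (Mm m4 j : ℝ) * th j ≤ 1 := by
  rw [th_Mm, div_le_one (by positivity)]
  exact one_le_pow₀ (by norm_num)

/-- the bound of the Green function on the `j`-th interval -/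
noncomputable def bb (j : ℕ) : ℝ := 8 / ((Nn m4 j : ℝ) * th (j + 1)) ^ 2 + 2 * Mm m4 j

lemma bb_th_le (j : ℕ) : bb j * th j ≤ 2 ^ 64 / 2 ^ j := by
  have h1 : 8 / ((Nn m4 j : ℝ) * th (j + 1)) ^ 2 * th j ≤ 2 ^ 63 / 2 ^ j := by
    have e : 8 / ((Nn m4 j : ℝ) * th (j + 1)) ^ 2 * th j
        = 2 ^ (3 + 6 * (j + 4) ^ 2) / 2 ^ (2 * (m4 j - j - 3) + 3 * (j + 3) ^ 2) := by
      unfold th Nn
      push_cast
      rw [show j + 1 + 3 = j + 4 by ring]
      rw [pow_add (2 : ℝ) 3, pow_add (2 : ℝ) (2 * (m4 j - j - 3)),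
        show (2 : ℝ) ^ (6 * (j + 4) ^ 2) = (2 ^ (3 * (j + 4) ^ 2)) ^ 2 by
          rw [← pow_mul]; congr 1; ring,
        show (2 : ℝ) ^ (2 * (m4 j - j - 3)) = (2 ^ (m4 j - j - 3)) ^ 2 by
          rw [← pow_mul]; congr 1; ring]
      field_simp
      norm_num
    rw [e, div_le_div_iff₀ (by positivity) (by positivity), ← pow_add, ← pow_add]
    apply pow_le_pow_right₀ (by norm_num)
    have h2 := adm4.ge j
    have h3 : 2 * (m4 j - j - 3) = 2 * m4 j - 2 * j - 6 := by omega
    rw [h3]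
    have h4 : 2 * m4 j = 4 * (j + 3) ^ 2 := by unfold m4; ring
    rw [h4]
    have h5 : 2 * j + 6 ≤ 4 * (j + 3) ^ 2 := by nlinarith
    have h6 : 3 + 6 * (j + 4) ^ 2 + j + (2 * j + 6) ≤ 63 + 4 * (j + 3) ^ 2 + 3 * (j + 3) ^ 2 := by
      zify
      nlinarith [sq_nonneg ((2 : ℤ) * j - 9)]
    omega
  have h2 : 2 * (Mm m4 j : ℝ) * th j ≤ 2 ^ 63 / 2 ^ j := by
    rw [mul_assoc, th_Mm]
    have h3 : (2 : ℝ) ^ j ≤ 2 ^ ((j + 3) ^ 2) := pow_le_pow_right₀ (by norm_num) (by nlinarith)
    have h4 : (1 : ℝ) / 2 ^ ((j + 3) ^ 2) ≤ 1 / 2 ^ j := one_div_le_one_div_of_le (by positivity) h3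
    calc (2 : ℝ) * (1 / 2 ^ ((j + 3) ^ 2)) ≤ 2 * (1 / 2 ^ j) := by linarith
      _ ≤ 2 ^ 63 / 2 ^ j := by
        rw [mul_one_div]
        gcongr
        norm_num
  unfold bb
  rw [add_mul]
  have h3 : (2 : ℝ) ^ 64 / 2 ^ j = 2 ^ 63 / 2 ^ j + 2 ^ 63 / 2 ^ j := by ring
  rw [h3]
  exact add_le_add h1 h2

section
variable {κ : ℤ_[2]} (hF : ∀ᶠ j in atTop, Far m4 j κ) (h0 : occ m4 κ 0)
include hF h0

lemma gap_hole {j : ℕ} (hj : Far m4 j κ) :
    Nn m4 j + 1 ≤ gp m4 κ (hs0 m4 j κ - 1) ∧ gp m4 κ (hs0 m4 j κ - 1) ≤ 2 * Nn m4 j + 1 := by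
  have hU := unb_of_far adm4 hF
  have h1 := gp_spec hU (hs0 m4 j κ - 1)
  have h2 := hs0_pos (m := m4) (j := j) (κ := κ)
  have h3 := hs0_le (m := m4) (j := j) (κ := κ)
  have h4 := Mm_le_Ww adm4 j
  constructor
  · by_contra hlt
    push Not at hlt
    have h5 := not_occ_hole adm4 hj (t := gp m4 κ (hs0 m4 j κ - 1) - 1) (by omega)
    apply h5
    have : hs0 m4 j κ + ((gp m4 κ (hs0 m4 j κ - 1) - 1 : ℕ) : ℤ)
        = hs0 m4 j κ - 1 + gp m4 κ (hs0 m4 j κ - 1) := by omega
    rw [this]; exact h1.2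
  · have hs : |hs0 m4 j κ - 1| ≤ (Ww m4 j : ℤ) := by
      rw [abs_le]; constructor <;> omega
    obtain ⟨t, h5, h6⟩ := exists_next adm4 hj hs
    have h7 := gp_le hU (s := hs0 m4 j κ - 1) (t := hs0 m4 j κ - 1 + 1 + t) (by omega) h6
    have h8 := Rr_le adm4 j
    omega

lemma small_bound {j : ℕ} (hj : Far m4 j κ) {θ : ℝ} (h1 : th (j + 1) < θ) (h2 : θ ≤ th j)
    (N : ℕ) : ∑ n ∈ Finset.range N, |(qs m4 κ θ)^[n] dl 0| ≤ bb j := by
  have hU := unb_of_far adm4 hF
  obtain ⟨g1, g2⟩ := gap_hole hF h0 hj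
  have h3 := hs0_pos (m := m4) (j := j) (κ := κ)
  have h4 := hs0_le (m := m4) (j := j) (κ := κ)
  have h5 := th_pos (j + 1)
  have h6 := th_pos j
  have h7 := Nn_pos (m := m4) j
  have h8 := eight_Nn_le adm4 j
  set g := gp m4 κ (hs0 m4 j κ - 1) with hg
  set x := θ * g with hx
  have hθ : 0 < θ := h5.trans h1
  have hgN : (Nn m4 j : ℝ) ≤ g := by exact_mod_cast (by omega : Nn m4 j ≤ g)
  have hgM : (g : ℝ) ≤ Mm m4 j := by exact_mod_cast (by omega : g ≤ Mm m4 j)
  have hN0 : (0 : ℝ) < Nn m4 j := by exact_mod_cast h7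
  have hx0 : (Nn m4 j : ℝ) * th (j + 1) ≤ x := by
    rw [hx, mul_comm θ]
    exact mul_le_mul hgN h1.le h5.le (by linarith)
  have hxpos : 0 < x := lt_of_lt_of_le (by positivity) hx0
  have hx1 : x ≤ 1 := by
    calc x ≤ th j * Mm m4 j := mul_le_mul h2 hgM (by positivity) h6.le
      _ ≤ 1 := by rw [mul_comm]; exact th_Mm_le j
  have hcb := Real.cos_bound (x := x) (by rw [abs_of_pos hxpos]; exact hx1)
  rw [abs_of_pos hxpos] at hcb
  have hcb2 := abs_le.1 hcb
  have hx4 : x ^ 4 ≤ x ^ 2 := by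
    calc x ^ 4 = x ^ 2 * x ^ 2 := by ring
      _ ≤ x ^ 2 * 1 := by gcongr; exact pow_le_one₀ hxpos.le hx1
      _ = x ^ 2 := mul_one _
  have hx2 : x ^ 2 ≤ 1 := pow_le_one₀ hxpos.le hx1
  have hcos0 : 0 ≤ Real.cos x := by linarith [hcb2.1]
  have hcos1 : Real.cos x ≤ 1 - x ^ 2 / 4 := by linarith [hcb2.2]
  set η := ((Nn m4 j : ℝ) * th (j + 1)) ^ 2 / 4 with hη
  have hη0 : 0 < η := by positivity
  have hηx : η ≤ x ^ 2 / 4 := by
    rw [hη]; gcongr
  have hcos : |Real.cos (θ * gp m4 κ (hs0 m4 j κ - 1))| ≤ 1 - η := by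
    rw [← hg, ← hx, abs_of_nonneg hcos0]; linarith
  have hgreen := green_bound hU hη0 h0 (occ_before adm4 hj) (by omega) hcos N
  refine hgreen.trans ?_
  unfold bb
  have e1 : 2 / η = 8 / ((Nn m4 j : ℝ) * th (j + 1)) ^ 2 := by
    rw [hη]; field_simp; norm_num
  rw [e1]
  have e2 : ((hs0 m4 j κ - 1 : ℤ) : ℝ) ≤ Mm m4 j := by
    have : hs0 m4 j κ - 1 ≤ ((Mm m4 j : ℕ) : ℤ) := by omega
    exact_mod_cast this
  linarith

lemma large_bound {j : ℕ} (hj : Far m4 j κ) (hj1 : Far m4 (j + 1) κ) :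
    ∃ B : ℝ, 0 ≤ B ∧ ∀ θ, th j < θ → θ ≤ Real.pi / 2 → ∀ N : ℕ,
      ∑ n ∈ Finset.range N, |(qs m4 κ θ)^[n] dl 0| ≤ B := by
  have hU := unb_of_far adm4 hF
  have h5 := th_pos j
  set b := hs0 m4 (j + 1) κ - 2 with hb
  have hb0 : 0 ≤ b := by
    have h1 := (hj (j + 1) (by omega)).2
    have h2 : 0 < Ww m4 j := by unfold Ww; positivity
    rw [hb]; unfold hs0
    omega
  have hob : occ m4 κ b := occ_before2 adm4 hj1
  have hob1 : occ m4 κ (b + 1) := by
    have : b + 1 = hs0 m4 (j + 1) κ - 1 := by rw [hb]; ring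
    rw [this]; exact occ_before adm4 hj1
  have hg : gp m4 κ b = 1 := by
    have h1 := gp_spec hU b
    have h2 := gp_le hU (s := b) (t := b + 1) (by omega) hob1
    omega
  have hth : th j ≤ 1 := by
    unfold th
    rw [div_le_one (by positivity)]
    exact one_le_pow₀ (by norm_num)
  have hpi := Real.pi_gt_three
  have hη : 0 < 1 - Real.cos (th j) := by
    have : Real.cos (th j) < Real.cos 0 :=
      Real.cos_lt_cos_of_nonneg_of_le_pi le_rfl (by linarith) h5
    rw [Real.cos_zero] at this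
    linarith
  refine ⟨2 / (1 - Real.cos (th j)) + 2 * b, ?_, ?_⟩
  · have : (0 : ℝ) ≤ b := by exact_mod_cast hb0
    positivity
  · intro θ h1 h2 N
    apply green_bound hU hη h0 hob hb0
    rw [hg, Nat.cast_one, mul_one]
    have hc0 : 0 ≤ Real.cos θ := Real.cos_nonneg_of_neg_pi_div_two_le_of_le (by linarith) h2
    rw [abs_of_nonneg hc0]
    have : Real.cos θ ≤ Real.cos (th j) :=
      Real.cos_le_cos_of_nonneg_of_le_pi h5.le (by linarith) h1.le
    linarith

/-- the Green function at the origin is finite -/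
theorem green_finite :
    ∑' n, (opE (step (Phi m4 κ)))^[n] (Set.indicator {0} 1) 0 ≠ ∞ := by
  obtain ⟨j0, hj0⟩ := eventually_atTop.1 hF
  obtain ⟨B, hB0, hB⟩ := large_bound hF h0 (hj0 j0 le_rfl) (hj0 (j0 + 1) (by omega))
  refine ne_top_of_le_ne_top ?_ green_le_lintegral
  apply ENNReal.mul_ne_top ENNReal.ofReal_ne_top
  have hcov : Set.Ioc (0 : ℝ) (Real.pi / 2) ⊆
      (⋃ k : ℕ, Set.Ioc (th (j0 + k + 1)) (th (j0 + k))) ∪ Set.Ioc (th j0) (Real.pi / 2) := by
    rintro θ ⟨hθ1, hθ2⟩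
    by_cases hθ3 : th j0 < θ
    · right; exact ⟨hθ3, hθ2⟩
    · left
      push Not at hθ3
      have hex : ∃ k : ℕ, th (j0 + k + 1) < θ := by
        obtain ⟨k, hk⟩ := exists_pow_lt_of_lt_one hθ1 (show (1 / 2 : ℝ) < 1 by norm_num)
        refine ⟨k, lt_of_le_of_lt ?_ hk⟩
        unfold th
        rw [one_div_pow]
        apply one_div_le_one_div_of_le (by positivity)
        apply pow_le_pow_right₀ (by norm_num)
        nlinarith [Nat.zero_le j0, Nat.zero_le k]
      classical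
      rw [Set.mem_iUnion]
      refine ⟨Nat.find hex, Nat.find_spec hex, ?_⟩
      rcases Nat.eq_zero_or_pos (Nat.find hex) with h1 | h1
      · rw [h1]; exact hθ3
      · have h2 := Nat.find_min hex (m := Nat.find hex - 1) (by omega)
        push Not at h2
        have e : j0 + (Nat.find hex - 1) + 1 = j0 + Nat.find hex := by omega
        rwa [e] at h2
  have hbound : ∀ N : ℕ, ∫⁻ θ in Set.Ioc (0 : ℝ) (Real.pi / 2),
      ENNReal.ofReal (∑ n ∈ Finset.range N, |(qs m4 κ θ)^[n] dl 0|)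
      ≤ (∑' k : ℕ, ENNReal.ofReal (2 ^ 64 / 2 ^ k)) + ENNReal.ofReal (B * (Real.pi / 2)) := by
    intro N
    refine (lintegral_mono_set hcov).trans ?_
    refine (lintegral_union_le _ _ _).trans ?_
    apply add_le_add
    · refine (lintegral_iUnion_le _ _).trans ?_
      apply ENNReal.tsum_le_tsum
      intro k
      calc ∫⁻ θ in Set.Ioc (th (j0 + k + 1)) (th (j0 + k)),
            ENNReal.ofReal (∑ n ∈ Finset.range N, |(qs m4 κ θ)^[n] dl 0|)
          ≤ ∫⁻ _θ in Set.Ioc (th (j0 + k + 1)) (th (j0 + k)), ENNReal.ofReal (bb (j0 + k)) := by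
            apply setLIntegral_mono' measurableSet_Ioc
            rintro θ ⟨h1, h2⟩
            exact ENNReal.ofReal_le_ofReal (small_bound hF h0 (hj0 _ (by omega)) h1 h2 N)
        _ = ENNReal.ofReal (bb (j0 + k)) * ENNReal.ofReal (th (j0 + k) - th (j0 + k + 1)) := by
            rw [setLIntegral_const, Real.volume_Ioc]
        _ ≤ ENNReal.ofReal (bb (j0 + k)) * ENNReal.ofReal (th (j0 + k)) := by
            gcongr
            linarith [th_pos (j0 + k + 1)]
        _ = ENNReal.ofReal (bb (j0 + k) * th (j0 + k)) := by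
            rw [ENNReal.ofReal_mul]
            unfold bb; positivity
        _ ≤ ENNReal.ofReal (2 ^ 64 / 2 ^ k) := by
            apply ENNReal.ofReal_le_ofReal
            refine (bb_th_le _).trans ?_
            gcongr
            · norm_num
            · omega
    · calc ∫⁻ θ in Set.Ioc (th j0) (Real.pi / 2),
            ENNReal.ofReal (∑ n ∈ Finset.range N, |(qs m4 κ θ)^[n] dl 0|)
          ≤ ∫⁻ _θ in Set.Ioc (th j0) (Real.pi / 2), ENNReal.ofReal B := by
            apply setLIntegral_mono' measurableSet_Ioc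
            rintro θ ⟨h1, h2⟩
            exact ENNReal.ofReal_le_ofReal (hB θ h1 h2 N)
        _ = ENNReal.ofReal B * ENNReal.ofReal (Real.pi / 2 - th j0) := by
            rw [setLIntegral_const, Real.volume_Ioc]
        _ ≤ ENNReal.ofReal B * ENNReal.ofReal (Real.pi / 2) := by
            gcongr
            linarith [th_pos j0]
        _ = ENNReal.ofReal (B * (Real.pi / 2)) := by rw [ENNReal.ofReal_mul hB0]
  have hfin : (∑' k : ℕ, ENNReal.ofReal (2 ^ 64 / 2 ^ k)) + ENNReal.ofReal (B * (Real.pi / 2)) ≠ ∞ := by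
    apply ENNReal.add_ne_top.2 ⟨?_, ENNReal.ofReal_ne_top⟩
    have hs : Summable fun k : ℕ => (2 : ℝ) ^ 64 / 2 ^ k := by
      have := (summable_geometric_of_lt_one (show (0 : ℝ) ≤ 1 / 2 by norm_num)
        (by norm_num)).mul_left ((2 : ℝ) ^ 64)
      refine this.congr fun k => ?_
      rw [one_div_pow, mul_one_div]
    exact hs.tsum_ofReal_ne_top
  exact ne_top_of_le_ne_top hfin (iSup_le hbound)

end

/-- joint measurability of the walk -/
lemma measurable_walk (n : ℕ) :
    Measurable fun p : Conf × (ℕ → Dir) => walk p.1 p.2 n := by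
  have hgap : ∀ (e v : ℤ × ℤ), Measurable fun ω : Conf => gap e (shift v ω) := by
    intro e v
    apply measurable_to_countable'
    intro k
    have hm : ∀ l : ℕ, MeasurableSet {ω : Conf | shift v ω (l • e) = true} := by
      intro l
      exact (measurable_pi_apply (v + l • e) : Measurable fun ω : Conf => ω (v + l • e))
        (measurableSet_singleton true)
    by_cases hk : k = 0
    · have : (fun ω : Conf => gap e (shift v ω)) ⁻¹' {k}
          = ⋂ (l : ℕ) (_ : 0 < l), {ω : Conf | shift v ω (l • e) = true}ᶜ := by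
        ext ω
        subst hk
        simp only [Set.mem_preimage, Set.mem_singleton_iff, gap, Set.mem_iInter, Set.mem_compl_iff]
        rw [Nat.sInf_eq_zero]
        constructor
        · rintro (h1 | h1) l hl
          · exact absurd h1.1 (lt_irrefl 0)
          · intro h2
            have : l ∈ (∅ : Set ℕ) := by rw [← h1]; exact ⟨hl, h2⟩
            exact this
        · intro h1
          right
          apply Set.eq_empty_of_forall_notMem
          rintro l ⟨h2, h3⟩
          exact h1 l h2 h3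
      rw [this]
      exact MeasurableSet.iInter fun l => MeasurableSet.iInter fun _ => (hm l).compl
    · have : (fun ω : Conf => gap e (shift v ω)) ⁻¹' {k}
          = {ω : Conf | shift v ω (k • e) = true} ∩
            ⋂ (l : ℕ) (_ : 0 < l ∧ l < k), {ω : Conf | shift v ω (l • e) = true}ᶜ := by
        ext ω
        simp only [Set.mem_preimage, Set.mem_singleton_iff, gap, Set.mem_inter_iff, Set.mem_iInter,
          Set.mem_compl_iff]
        constructor
        · intro h1
          have hne : {k : ℕ | 0 < k ∧ shift v ω (k • e) = true}.Nonempty := by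
            by_contra hemp
            rw [Set.not_nonempty_iff_eq_empty] at hemp
            rw [hemp, Nat.sInf_empty] at h1
            exact hk h1.symm
          have h2 := Nat.sInf_mem hne
          rw [h1] at h2
          refine ⟨h2.2, fun l hl h3 => ?_⟩
          have h4 : sInf {k : ℕ | 0 < k ∧ shift v ω (k • e) = true} ≤ l := Nat.sInf_le ⟨hl.1, h3⟩
          omega
        · rintro ⟨h1, h2⟩
          apply le_antisymm
          · exact Nat.sInf_le ⟨Nat.pos_of_ne_zero hk, h1⟩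
          · have hne : {k : ℕ | 0 < k ∧ shift v ω (k • e) = true}.Nonempty :=
              ⟨k, Nat.pos_of_ne_zero hk, h1⟩
            have h3 := Nat.sInf_mem hne
            by_contra hlt
            push Not at hlt
            exact h2 _ ⟨h3.1, hlt⟩ h3.2
      rw [this]
      exact (hm k).inter (MeasurableSet.iInter fun l => MeasurableSet.iInter fun _ => (hm l).compl)
  have hstep : Measurable fun p : Conf × ((ℤ × ℤ) × Dir) => step p.1 p.2.1 p.2.2 := by
    apply measurable_from_prod_countable_left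
    rintro ⟨v, a⟩
    have h1 : Measurable fun k : ℕ => v + k • vec a := Measurable.of_discrete
    exact h1.comp (hgap (vec a) v)
  induction n with
  | zero => exact measurable_const
  | succ n ih =>
    have h1 : Measurable fun p : Conf × (ℕ → Dir) => p.2 n :=
      (measurable_pi_apply n).comp measurable_snd
    exact hstep.comp (measurable_fst.prodMk (ih.prodMk h1))

lemma walk_eq_W (ω : Conf) (ξ : ℕ → Dir) (n : ℕ) : walk ω ξ n = W (step ω) 0 ξ n := by
  induction n with
  | zero => rfl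
  | succ n ih => rw [walk, W, ih]

/-- quenched almost sure statements are measurable -/
lemma measurable_quenched {S : Set (Conf × (ℕ → Dir))} (hS : MeasurableSet S) :
    MeasurableSet {ω : Conf | ∀ᵐ ξ ∂dirLaw, (ω, ξ) ∈ S} := by
  have h1 : Measurable fun ω : Conf => dirLaw (Prod.mk ω ⁻¹' Sᶜ) :=
    measurable_measure_prodMk_left hS.compl
  have h2 : {ω : Conf | ∀ᵐ ξ ∂dirLaw, (ω, ξ) ∈ S}
      = (fun ω : Conf => dirLaw (Prod.mk ω ⁻¹' Sᶜ)) ⁻¹' {0} := by
    ext ω
    simp only [Set.mem_ofPred_eq, Set.mem_preimage, Set.mem_singleton_iff, ae_iff]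
    rfl
  rw [h2]
  exact h1 (measurableSet_singleton 0)

end Q293.Anti
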