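import Pool.Agent.Q293.DPPProc

/-!
# Gaps of a set of integers and a superharmonic function
-/

set_option autoImplicit false
set_option linter.unusedSectionVars false

open MeasureTheory Filter Topology Q293.Odo Q293.DPP
open scoped ENNReal

namespace Q293.Anti

variable {m : ℕ → ℕ} {κ : ℤ_[2]}

/-- every site has occupied sites on both sides -/
def Unb (m : ℕ → ℕ) (κ : ℤ_[2]) : Prop :=
  ∀ s : ℤ, (∃ k : ℕ, 0 < k ∧ occ m κ (s + k)) ∧ (∃ k : ℕ, 0 < k ∧ occ m κ (s - k))

lemma unb_of_far (h : Adm m) (hF : ∀ᶠ j in atTop, Far m j κ) : Unb m κ := by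
  intro s
  obtain ⟨j0, hj0⟩ := eventually_atTop.1 hF
  set j := max j0 s.natAbs with hj
  have hFj := hj0 j (le_max_left _ _)
  have hs : |s| ≤ (Ww m j : ℤ) := by
    have h1 : s.natAbs ≤ j := le_max_right _ _
    have h2 : j ≤ Ww m j := by
      have h3 := Mm_le_Ww h j
      have h4 : j < 2 ^ j := Nat.lt_two_pow_self
      have h5 : 2 ^ j ≤ Mm m j := by
        unfold Mm
        apply Nat.pow_le_pow_right (by norm_num)
        have := h.ge j; omega
      omega
    rw [abs_le]; constructor <;> omega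
  obtain ⟨t, _, h1⟩ := exists_next h hFj hs
  obtain ⟨t', _, h2⟩ := exists_prev h hFj hs
  refine ⟨⟨t + 1, Nat.succ_pos t, ?_⟩, ⟨t' + 1, Nat.succ_pos t', ?_⟩⟩
  · have : s + ((t + 1 : ℕ) : ℤ) = s + 1 + t := by push_cast; ring
    rw [this]; exact h1
  · have : s - ((t' + 1 : ℕ) : ℤ) = s - 1 - t' := by push_cast; ring
    rw [this]; exact h2

section
variable (hU : Unb m κ)
include hU

lemma gp_spec (s : ℤ) : 0 < gp m κ s ∧ occ m κ (s + gp m κ s) := Nat.sInf_mem (hU s).1

lemma gm_spec (s : ℤ) : 0 < gm m κ s ∧ occ m κ (s - gm m κ s) := Nat.sInf_mem (hU s).2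

lemma gp_le {s : ℤ} {t : ℤ} (hst : s < t) (ht : occ m κ t) : s + gp m κ s ≤ t := by
  have h1 : (t - s).toNat ∈ {k : ℕ | 0 < k ∧ occ m κ (s + k)} := by
    refine ⟨by omega, ?_⟩
    have : s + ((t - s).toNat : ℤ) = t := by omega
    rw [this]; exact ht
  have h2 : gp m κ s ≤ (t - s).toNat := Nat.sInf_le h1
  omega

lemma gm_le {s : ℤ} {t : ℤ} (hst : t < s) (ht : occ m κ t) : t ≤ s - gm m κ s := by
  have h1 : (s - t).toNat ∈ {k : ℕ | 0 < k ∧ occ m κ (s - k)} := by
    refine ⟨by omega, ?_⟩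
    have : s - ((s - t).toNat : ℤ) = t := by omega
    rw [this]; exact ht
  have h2 : gm m κ s ≤ (s - t).toNat := Nat.sInf_le h1
  omega

lemma gp_gm {s : ℤ} (hs : occ m κ s) : (s - gm m κ s) + gp m κ (s - gm m κ s) = s := by
  have h1 := gm_spec hU s
  have h2 := gp_spec hU (s - gm m κ s)
  have h3 : (s - gm m κ s) + gp m κ (s - gm m κ s) ≤ s := gp_le hU (by omega) hs
  rcases h3.lt_or_eq with h4 | h4
  · have h5 := gm_le hU h4 h2.2
    omega
  · exact h4

lemma gm_gp {s : ℤ} (hs : occ m κ s) : (s + gp m κ s) - gm m κ (s + gp m κ s) = s := by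
  have h1 := gp_spec hU s
  have h2 := gm_spec hU (s + gp m κ s)
  have h3 : s ≤ (s + gp m κ s) - gm m κ (s + gp m κ s) := gm_le hU (by omega) hs
  rcases h3.lt_or_eq with h4 | h4
  · have h5 := gp_le hU h4 h2.2
    omega
  · exact h4.symm

open Classical in
/-- number of occupied sites between `max s 0` and `b` -/
noncomputable def cnt (m : ℕ → ℕ) (κ : ℤ_[2]) (b s : ℤ) : ℕ :=
  ((Finset.Ico (max s 0) b).filter fun t => occ m κ t).card

omit hU in
lemma cnt_neg {b s : ℤ} (hs : s ≤ 0) : cnt m κ b s = cnt m κ b 0 := by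
  unfold cnt; rw [max_eq_right hs, max_self]

omit hU in
lemma cnt_ge {b s : ℤ} (hb : 0 ≤ b) (hs : b ≤ s) : cnt m κ b s = 0 := by
  unfold cnt
  rw [Finset.Ico_eq_empty (by rw [not_lt]; exact hs.trans (le_max_left _ _))]
  simp

lemma cnt_next {b s : ℤ} (hb : occ m κ b) (hs : occ m κ s) (h0 : 0 ≤ s) (hsb : s < b) :
    cnt m κ b s = cnt m κ b (s + gp m κ s) + 1 := by
  classical
  have h1 := gp_spec hU s
  have h2 := gp_le hU hsb hb
  unfold cnt
  rw [max_eq_left h0, max_eq_left (by omega : (0 : ℤ) ≤ s + gp m κ s)]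
  have e : (Finset.Ico s b).filter (fun t => occ m κ t)
      = insert s ((Finset.Ico (s + gp m κ s) b).filter fun t => occ m κ t) := by
    ext t
    simp only [Finset.mem_filter, Finset.mem_Ico, Finset.mem_insert]
    constructor
    · rintro ⟨⟨h3, h4⟩, h5⟩
      rcases h3.lt_or_eq with h6 | h6
      · right
        exact ⟨⟨gp_le hU h6 h5, h4⟩, h5⟩
      · left; exact h6.symm
    · rintro (rfl | ⟨⟨h3, h4⟩, h5⟩)
      · exact ⟨⟨le_rfl, hsb⟩, hs⟩
      · exact ⟨⟨by omega, h4⟩, h5⟩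
  rw [e, Finset.card_insert_of_notMem]
  simp only [Finset.mem_filter, Finset.mem_Ico, not_and]
  intro h3; omega

lemma cnt_prev {b s : ℤ} (hb : occ m κ b) (hs : occ m κ s) (h0c : occ m κ 0) (h0 : 0 < s)
    (hsb : s ≤ b) : cnt m κ b (s - gm m κ s) = cnt m κ b s + 1 := by
  have h1 := gm_spec hU s
  have h2 := gm_le hU h0 h0c
  have h3 := cnt_next hU hb h1.2 h2 (by omega)
  rw [gp_gm hU hs] at h3
  exact h3

omit hU in
lemma cnt_le {b : ℤ} (hb : 0 ≤ b) : ((cnt m κ b 0 : ℕ) : ℤ) ≤ b := by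
  classical
  unfold cnt
  have : ((Finset.Ico (max (0 : ℤ) 0) b).filter fun t => occ m κ t).card ≤ b.toNat := by
    refine (Finset.card_filter_le _ _).trans ?_
    rw [Int.card_Ico, max_self]
    omega
  omega

/-- damped averaging operator -/
noncomputable def qa (m : ℕ → ℕ) (κ : ℤ_[2]) (θ : ℝ) (φ : ℤ → ℝ) (s : ℤ) : ℝ :=
  (|Real.cos (θ * gp m κ s)| * φ (s + gp m κ s) + |Real.cos (θ * gm m κ s)| * φ (s - gm m κ s)) / 2

/-- signed averaging operator -/
noncomputable def qs (m : ℕ → ℕ) (κ : ℤ_[2]) (θ : ℝ) (φ : ℤ → ℝ) (s : ℤ) : ℝ :=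
  (Real.cos (θ * gp m κ s) * φ (s + gp m κ s) + Real.cos (θ * gm m κ s) * φ (s - gm m κ s)) / 2

/-- indicator of zero -/
noncomputable def dl (s : ℤ) : ℝ := if s = 0 then 1 else 0

omit hU in
lemma dl_nonneg (s : ℤ) : 0 ≤ dl s := by unfold dl; split_ifs <;> norm_num

/-- the superharmonic function -/
noncomputable def Sup (m : ℕ → ℕ) (κ : ℤ_[2]) (b : ℤ) (η : ℝ) (s : ℤ) : ℝ :=
  2 / η + 2 * cnt m κ b s

lemma sup_le {b : ℤ} {η θ : ℝ} (hη : 0 < η) (h0c : occ m κ 0) (hb : occ m κ b) (hb0 : 0 ≤ b)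
    (hcos : |Real.cos (θ * gp m κ b)| ≤ 1 - η) {s : ℤ} (hs : occ m κ s) :
    qa m κ θ (Sup m κ b η) s + dl s ≤ Sup m κ b η s := by
  have h1 := gp_spec hU s
  have h2 := gm_spec hU s
  have hv : 0 < 2 / η := by positivity
  have hpos : ∀ t, 0 ≤ Sup m κ b η t := fun t => by unfold Sup; positivity
  have c1 := Real.abs_cos_le_one (θ * gp m κ s)
  have c2 := Real.abs_cos_le_one (θ * gm m κ s)
  have k1 : |Real.cos (θ * gp m κ s)| * Sup m κ b η (s + gp m κ s) ≤ Sup m κ b η (s + gp m κ s) :=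
    mul_le_of_le_one_left (hpos _) c1
  have k2 : |Real.cos (θ * gm m κ s)| * Sup m κ b η (s - gm m κ s) ≤ Sup m κ b η (s - gm m κ s) :=
    mul_le_of_le_one_left (hpos _) c2
  unfold qa dl
  rcases lt_trichotomy s 0 with h3 | h3 | h3
  · -- negative sites
    have e1 : cnt m κ b (s + gp m κ s) = cnt m κ b s := by
      rw [cnt_neg (gp_le hU h3 h0c), cnt_neg h3.le]
    have e2 : cnt m κ b (s - gm m κ s) = cnt m κ b s := by
      rw [cnt_neg (by omega : s - (gm m κ s : ℤ) ≤ 0), cnt_neg h3.le]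
    rw [if_neg h3.ne]
    unfold Sup at *
    rw [e1] at k1
    rw [e2] at k2
    rw [e1, e2]
    linarith
  · -- the origin
    subst h3
    rw [if_pos rfl]
    have e2 : cnt m κ b (0 - gm m κ 0) = cnt m κ b 0 :=
      cnt_neg (by omega : 0 - (gm m κ 0 : ℤ) ≤ 0)
    rcases hb0.lt_or_eq with h4 | h4
    · have e1 := cnt_next hU hb h0c le_rfl h4
      unfold Sup at *
      rw [e2] at k2
      rw [e2]
      have e1' : (cnt m κ b 0 : ℝ) = cnt m κ b (0 + gp m κ 0) + 1 := by exact_mod_cast e1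
      linarith
    · subst h4
      have e1 : cnt m κ 0 (0 + gp m κ 0) = 0 := cnt_ge le_rfl (by omega)
      have e3 : cnt m κ 0 0 = 0 := cnt_ge le_rfl le_rfl
      unfold Sup at *
      rw [e2, e3] at k2
      rw [e1, e2, e3]
      have k3 : |Real.cos (θ * gp m κ 0)| * (2 / η) ≤ (1 - η) * (2 / η) :=
        mul_le_mul_of_nonneg_right hcos hv.le
      have k4 : (1 - η) * (2 / η) = 2 / η - 2 := by field_simp
      simp only [Nat.cast_zero, mul_zero, add_zero] at *
      linarith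
  · -- positive sites
    rw [if_neg h3.ne']
    rcases lt_trichotomy s b with h4 | h4 | h4
    · have e1 := cnt_next hU hb hs h3.le h4
      have e2 := cnt_prev hU hb hs h0c h3 h4.le
      have e1' : (cnt m κ b s : ℝ) = cnt m κ b (s + gp m κ s) + 1 := by exact_mod_cast e1
      have e2' : (cnt m κ b (s - gm m κ s) : ℝ) = cnt m κ b s + 1 := by exact_mod_cast e2
      unfold Sup at *
      linarith
    · subst h4
      have e1 : cnt m κ s (s + gp m κ s) = 0 := cnt_ge h3.le (by omega)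
      have e3 : cnt m κ s s = 0 := cnt_ge h3.le le_rfl
      have e2 := cnt_prev hU hb hs h0c h3 le_rfl
      unfold Sup at *
      rw [e2, e3] at k2
      rw [e1, e2, e3]
      have k3 : |Real.cos (θ * gp m κ s)| * (2 / η) ≤ (1 - η) * (2 / η) :=
        mul_le_mul_of_nonneg_right hcos hv.le
      have k4 : (1 - η) * (2 / η) = 2 / η - 2 := by field_simp
      push_cast at *
      simp only [mul_zero, add_zero, zero_add] at *
      linarith
    · have e1 : cnt m κ b (s + gp m κ s) = 0 := cnt_ge hb0 (by omega)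
      have e2 : cnt m κ b (s - gm m κ s) = 0 := cnt_ge hb0 (gm_le hU h4 hb)
      have e3 : cnt m κ b s = 0 := cnt_ge hb0 h4.le
      unfold Sup at *
      rw [e1] at k1
      rw [e2] at k2
      rw [e1, e2, e3]
      linarith

/-- Green function bound -/
lemma green_bound {b : ℤ} {η θ : ℝ} (hη : 0 < η) (h0c : occ m κ 0) (hb : occ m κ b) (hb0 : 0 ≤ b)
    (hcos : |Real.cos (θ * gp m κ b)| ≤ 1 - η) (N : ℕ) :
    ∑ n ∈ Finset.range N, |(qs m κ θ)^[n] dl 0| ≤ 2 / η + 2 * b := by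
  have hmain : ∀ N : ℕ, ∀ s, occ m κ s →
      ∑ n ∈ Finset.range N, |(qs m κ θ)^[n] dl s| ≤ Sup m κ b η s := by
    intro N
    induction N with
    | zero =>
      intro s _
      rw [Finset.sum_range_zero]
      unfold Sup; positivity
    | succ N ih =>
      intro s hs
      rw [Finset.sum_range_succ']
      have h1 : ∀ n, |(qs m κ θ)^[n + 1] dl s| ≤
          (|Real.cos (θ * gp m κ s)| * |(qs m κ θ)^[n] dl (s + gp m κ s)|
            + |Real.cos (θ * gm m κ s)| * |(qs m κ θ)^[n] dl (s - gm m κ s)|) / 2 := by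
        intro n
        rw [Function.iterate_succ_apply', qs, abs_div, abs_two, ← abs_mul, ← abs_mul]
        gcongr
        exact abs_add_le _ _
      have h2 : |(qs m κ θ)^[0] dl s| = dl s := abs_of_nonneg (dl_nonneg s)
      rw [h2]
      refine le_trans ?_ (sup_le hU hη h0c hb hb0 hcos hs)
      gcongr
      calc ∑ n ∈ Finset.range N, |(qs m κ θ)^[n + 1] dl s|
          ≤ ∑ n ∈ Finset.range N, (|Real.cos (θ * gp m κ s)| * |(qs m κ θ)^[n] dl (s + gp m κ s)|
            + |Real.cos (θ * gm m κ s)| * |(qs m κ θ)^[n] dl (s - gm m κ s)|) / 2 :=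
            Finset.sum_le_sum fun n _ => h1 n
        _ = (|Real.cos (θ * gp m κ s)| * ∑ n ∈ Finset.range N, |(qs m κ θ)^[n] dl (s + gp m κ s)|
            + |Real.cos (θ * gm m κ s)| * ∑ n ∈ Finset.range N, |(qs m κ θ)^[n] dl (s - gm m κ s)|) / 2 := by
            rw [← Finset.sum_div, Finset.sum_add_distrib, Finset.mul_sum, Finset.mul_sum]
        _ ≤ qa m κ θ (Sup m κ b η) s := by
            unfold qa
            have i1 := ih _ (gp_spec hU s).2
            have i2 := ih _ (gm_spec hU s).2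
            gcongr
  refine (hmain N 0 h0c).trans ?_
  unfold Sup
  have h1 := cnt_le (m := m) (κ := κ) hb0
  have h2 : ((cnt m κ b 0 : ℕ) : ℝ) ≤ (b : ℝ) := by exact_mod_cast h1
  linarith

end

end Q293.Anti
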