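import Pool.Agent.Q293.DPPAnti

/-!
# The planar point process constant along antidiagonals
-/

set_option autoImplicit false
set_option linter.unusedSectionVars false

open MeasureTheory Filter Topology Q293.Odo Q293.DPP
open scoped ENNReal

namespace Q293.Anti

variable {m : ℕ → ℕ}

lemma two_pow_div {a b : ℕ} (hab : b ≤ a) :
    ((2 : ℝ≥0∞) ^ (a - b)) * ((2 : ℝ≥0∞) ^ a)⁻¹ = ((2 : ℝ≥0∞) ^ b)⁻¹ := by
  have h2 : (2 : ℝ≥0∞) ^ a = 2 ^ (a - b) * 2 ^ b := by rw [← pow_add]; congr 1; omega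
  rw [h2, ENNReal.mul_inv (Or.inl (by positivity)) (Or.inl (by finiteness)), ← mul_assoc,
    ENNReal.mul_inv_cancel (by positivity) (by finiteness), one_mul]

lemma Nn_div (h : Adm m) (i : ℕ) :
    ((Nn m i : ℕ) : ℝ≥0∞) * ((2 : ℝ≥0∞) ^ m i)⁻¹ = ((2 : ℝ≥0∞) ^ (i + 3))⁻¹ := by
  have h1 := h.ge i
  have h2 : m i - i - 3 = m i - (i + 3) := by omega
  unfold Nn
  rw [h2]
  push_cast
  exact two_pow_div h1

lemma Ww_div (h : Adm m) {i j : ℕ} (hij : j < i) :
    ((Ww m j : ℕ) : ℝ≥0∞) * ((2 : ℝ≥0∞) ^ m i)⁻¹ ≤ ((2 : ℝ≥0∞) ^ i)⁻¹ := by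
  have h1 := h.ge i
  have h3 : Ww m j ≤ 2 ^ (m i - i) := by
    unfold Ww
    apply Nat.pow_le_pow_right (by norm_num)
    rcases Nat.lt_or_eq_of_le (Nat.succ_le_of_lt hij) with h5 | h5
    · have := h.lt_of_lt h5; simp only [Nat.succ_eq_add_one] at this; omega
    · subst h5; simp only [Nat.succ_eq_add_one]; omega
  calc ((Ww m j : ℕ) : ℝ≥0∞) * ((2 : ℝ≥0∞) ^ m i)⁻¹
      ≤ ((2 ^ (m i - i) : ℕ) : ℝ≥0∞) * ((2 : ℝ≥0∞) ^ m i)⁻¹ := by gcongr
    _ = ((2 : ℝ≥0∞) ^ i)⁻¹ := by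
        push_cast
        exact two_pow_div (by omega)

/-- probability of not being far from the holes of level larger than `j` -/
lemma haar_not_far (h : Adm m) (j : ℕ) : haar {κ | ¬ Far m j κ} ≤ 10 * ((2 : ℝ≥0∞) ^ j)⁻¹ := by
  have hsub : {κ : ℤ_[2] | ¬ Far m j κ} ⊆ ⋃ k : ℕ, {κ | res (m (j + 1 + k)) κ ∈
      Finset.range (Nn m (j + 1 + k) + 2 * Ww m j) ∪
        Finset.Ico (Mm m (j + 1 + k) - 2 * Ww m j) (Mm m (j + 1 + k))} := by
    intro κ hκ
    simp only [Set.mem_ofPred_eq, Far] at hκ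
    push Not at hκ
    obtain ⟨i, hi, h2⟩ := hκ
    rw [Set.mem_iUnion]
    refine ⟨i - (j + 1), ?_⟩
    have e : j + 1 + (i - (j + 1)) = i := by omega
    rw [e, Set.mem_ofPred_eq, Finset.mem_union, Finset.mem_range, Finset.mem_Ico]
    by_cases h3 : Nn m i + 2 * Ww m j ≤ res (m i) κ
    · right
      have := h2 h3
      have h4 : res (m i) κ < Mm m i := res_lt _ _
      omega
    · left; omega
  refine (measure_mono hsub).trans ((measure_iUnion_le _).trans ?_)
  have hterm : ∀ k : ℕ, haar {κ : ℤ_[2] | res (m (j + 1 + k)) κ ∈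
      Finset.range (Nn m (j + 1 + k) + 2 * Ww m j) ∪
        Finset.Ico (Mm m (j + 1 + k) - 2 * Ww m j) (Mm m (j + 1 + k))}
      ≤ 5 * ((2 : ℝ≥0∞) ^ (j + 1 + k))⁻¹ := by
    intro k
    set i := j + 1 + k with hi
    have hij : j < i := by omega
    refine (haar_res_mem _ _).trans ?_
    have hcard : ((Finset.range (Nn m i + 2 * Ww m j) ∪
        Finset.Ico (Mm m i - 2 * Ww m j) (Mm m i)).card : ℝ≥0∞)
        ≤ ((Nn m i : ℕ) : ℝ≥0∞) + 4 * ((Ww m j : ℕ) : ℝ≥0∞) := by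
      have : (Finset.range (Nn m i + 2 * Ww m j) ∪
          Finset.Ico (Mm m i - 2 * Ww m j) (Mm m i)).card ≤ Nn m i + 4 * Ww m j := by
        refine (Finset.card_union_le _ _).trans ?_
        rw [Finset.card_range, Nat.card_Ico]
        omega
      exact_mod_cast this
    calc _ ≤ (((Nn m i : ℕ) : ℝ≥0∞) + 4 * ((Ww m j : ℕ) : ℝ≥0∞)) * ((2 : ℝ≥0∞) ^ m i)⁻¹ := by
          gcongr
      _ = ((Nn m i : ℕ) : ℝ≥0∞) * ((2 : ℝ≥0∞) ^ m i)⁻¹
          + 4 * (((Ww m j : ℕ) : ℝ≥0∞) * ((2 : ℝ≥0∞) ^ m i)⁻¹) := by ring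
      _ ≤ ((2 : ℝ≥0∞) ^ i)⁻¹ + 4 * ((2 : ℝ≥0∞) ^ i)⁻¹ := by
          gcongr
          · rw [Nn_div h]
            apply ENNReal.inv_le_inv.2
            exact pow_le_pow_right₀ (by norm_num) (by omega)
          · exact Ww_div h hij
      _ = 5 * ((2 : ℝ≥0∞) ^ i)⁻¹ := by ring
  refine (ENNReal.tsum_le_tsum hterm).trans ?_
  rw [ENNReal.tsum_mul_left]
  have hg : ∑' k : ℕ, ((2 : ℝ≥0∞) ^ (j + 1 + k))⁻¹ = ((2 : ℝ≥0∞) ^ j)⁻¹ := by
    have h1 : ∀ k : ℕ, ((2 : ℝ≥0∞) ^ (j + 1 + k))⁻¹ = ((2 : ℝ≥0∞) ^ j)⁻¹ * ((2 : ℝ≥0∞)⁻¹ ^ (k + 1)) := by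
      intro k
      rw [ENNReal.inv_pow, ENNReal.inv_pow, ← pow_add]
      congr 1
      omega
    simp only [h1]
    rw [ENNReal.tsum_mul_left, ENNReal.tsum_geometric_add_one]
    rw [ENNReal.one_sub_inv_two, inv_inv, ENNReal.inv_mul_cancel (by norm_num) (by norm_num), mul_one]
  rw [hg]
  gcongr
  norm_num

lemma ae_far (h : Adm m) : ∀ᵐ κ ∂haar, ∀ᶠ j in atTop, Far m j κ := by
  have h1 : ∑' j, haar {κ | ¬ Far m j κ} ≠ ∞ := by
    have h2 : ∑' j, haar {κ | ¬ Far m j κ} ≤ ∑' j : ℕ, 10 * ((2 : ℝ≥0∞) ^ j)⁻¹ :=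
      ENNReal.tsum_le_tsum (haar_not_far h)
    refine ne_top_of_le_ne_top ?_ h2
    rw [ENNReal.tsum_mul_left]
    simp only [ENNReal.inv_pow]
    rw [ENNReal.tsum_geometric, ENNReal.one_sub_inv_two, inv_inv]
    exact ENNReal.mul_ne_top (by norm_num) (by norm_num)
  have h2 := ae_eventually_notMem h1
  filter_upwards [h2] with κ hκ
  filter_upwards [hκ] with j hj
  simpa using hj

lemma measurableSet_occ (s : ℤ) : MeasurableSet {κ | occ m κ s} := by
  have : {κ : ℤ_[2] | occ m κ s} = ⋂ i, {κ | Nn m i ≤ res (m i) (κ + s)} := by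
    ext κ; simp [occ]
  rw [this]
  refine MeasurableSet.iInter fun i => ?_
  have h1 : Measurable fun κ : ℤ_[2] => res (m i) (κ + s) :=
    (measurable_res (m i)).comp (measurable_add_const _)
  exact measurableSet_le measurable_const h1

/-- the complement of the occupied set has small density -/
lemma haar_not_occ (h : Adm m) : haar {κ | ¬ occ m κ 0} ≤ 4⁻¹ := by
  have hsub : {κ : ℤ_[2] | ¬ occ m κ 0} ⊆ ⋃ i : ℕ, {κ | res (m i) κ ∈ Finset.range (Nn m i)} := by
    intro κ hκ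
    simp only [Set.mem_ofPred_eq, occ] at hκ
    push Not at hκ
    obtain ⟨i, hi⟩ := hκ
    rw [Set.mem_iUnion]
    refine ⟨i, ?_⟩
    rw [Set.mem_ofPred_eq, Finset.mem_range]
    simpa using hi
  refine (measure_mono hsub).trans ((measure_iUnion_le _).trans ?_)
  have hterm : ∀ i : ℕ, haar {κ : ℤ_[2] | res (m i) κ ∈ Finset.range (Nn m i)}
      ≤ ((2 : ℝ≥0∞) ^ (i + 3))⁻¹ := by
    intro i
    refine (haar_res_mem _ _).trans ?_
    rw [Finset.card_range, Nn_div h]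
  refine (ENNReal.tsum_le_tsum hterm).trans ?_
  have h1 : ∀ k : ℕ, ((2 : ℝ≥0∞) ^ (k + 3))⁻¹ = 4⁻¹ * ((2 : ℝ≥0∞)⁻¹ ^ (k + 1)) := by
    intro k
    have : (4 : ℝ≥0∞)⁻¹ = (2 : ℝ≥0∞)⁻¹ ^ 2 := by
      rw [← ENNReal.inv_pow]; norm_num
    rw [this, ← pow_add, ENNReal.inv_pow]
    congr 1
    omega
  simp only [h1]
  rw [ENNReal.tsum_mul_left, ENNReal.tsum_geometric_add_one, ENNReal.one_sub_inv_two, inv_inv,
    ENNReal.inv_mul_cancel (by norm_num) (by norm_num), mul_one]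

open Classical in
/-- the configuration: occupied antidiagonals -/
noncomputable def Phi (m : ℕ → ℕ) (κ : ℤ_[2]) : Conf := fun v => decide (occ m κ (v.1 + v.2))

lemma Phi_true {κ : ℤ_[2]} {v : ℤ × ℤ} : Phi m κ v = true ↔ occ m κ (v.1 + v.2) := by
  unfold Phi
  exact @decide_eq_true_iff _ (Classical.propDecidable _)

lemma measurable_Phi : Measurable (Phi m) := by
  apply measurable_pi_lambda
  intro v
  apply measurable_to_bool
  have : (fun κ => Phi m κ v) ⁻¹' {true} = {κ | occ m κ (v.1 + v.2)} := by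
    ext κ; simp [Phi_true]
  rw [this]
  exact measurableSet_occ _

/-- the law of the configuration -/
noncomputable def Qm (m : ℕ → ℕ) : Measure Conf := haar.map (Phi m)

instance : IsProbabilityMeasure (Qm m) :=
  Measure.isProbabilityMeasure_map measurable_Phi.aemeasurable

lemma semiconj (e : ℤ × ℤ) (he : e.1 + e.2 = 1) :
    Function.Semiconj (Phi m) (fun κ => 1 + κ) (shift e) := by
  intro κ
  funext v
  have h : Phi m (1 + κ) v = true ↔ shift e (Phi m κ) v = true := by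
    unfold shift
    rw [Phi_true, Phi_true]
    have e1 : ∀ i, res (m i) (1 + κ + ((v.1 + v.2 : ℤ) : ℤ_[2]))
        = res (m i) (κ + (((e + v).1 + (e + v).2 : ℤ) : ℤ_[2])) := by
      intro i
      congr 1
      have : (e + v).1 + (e + v).2 = 1 + (v.1 + v.2) := by
        rw [Prod.fst_add, Prod.snd_add]; linarith
      rw [this]
      push_cast
      ring
    unfold occ
    simp only [e1]
  cases h1 : Phi m (1 + κ) v <;> cases h2 : shift e (Phi m κ) v <;> simp_all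

lemma ergodic_shift (e : ℤ × ℤ) (he : e.1 + e.2 = 1) : Ergodic (shift e) (Qm m) := by
  have hmp : MeasurePreserving (Phi m) haar (Qm m) := ⟨measurable_Phi, rfl⟩
  have hsm : Measurable (shift e) := by
    apply measurable_pi_lambda
    intro v
    exact measurable_pi_apply _
  have h1 : MeasurePreserving (shift e) (Qm m) (Qm m) := by
    refine ⟨hsm, ?_⟩
    unfold Qm
    rw [Measure.map_map hsm measurable_Phi, ← (semiconj (m := m) e he).comp_eq,
      ← Measure.map_map measurable_Phi (measurable_const_add _)]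
    congr 1
    exact ergodic_one.toMeasurePreserving.map_eq
  exact ⟨h1, hmp.preErgodic_of_preErgodic_semiconj ergodic_one.toPreErgodic (semiconj e he)⟩

lemma isDPP (h : Adm m) : IsDPP (Qm m) where
  prob := inferInstance
  ergodic_e1 := ergodic_shift (1, 0) (by norm_num)
  ergodic_e2 := ergodic_shift (0, 1) (by norm_num)
  nonempty := by
    have hms : MeasurableSet {ω : Conf | ∀ x, ω x = false} := by
      have : {ω : Conf | ∀ x, ω x = false} = ⋂ x, {ω | ω x = false} := by ext ω; simp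
      rw [this]
      exact MeasurableSet.iInter fun x =>
        (measurable_pi_apply x : Measurable fun ω : Conf => ω x) (measurableSet_singleton false)
    unfold Qm
    rw [Measure.map_apply measurable_Phi hms]
    have h1 : (Phi m) ⁻¹' {ω : Conf | ∀ x, ω x = false} ⊆ {κ | ¬ occ m κ 0} := by
      intro κ hκ hocc
      have h2 := hκ 0
      have h3 : Phi m κ 0 = true := Phi_true.2 (by simpa using hocc)
      rw [h3] at h2
      exact absurd h2 (by simp)
    calc haar _ ≤ haar {κ | ¬ occ m κ 0} := measure_mono h1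
      _ ≤ 4⁻¹ := haar_not_occ h
      _ < 1 := by
        rw [ENNReal.inv_lt_one]
        norm_num

lemma ae_palm {p : Conf → Prop} (hp : MeasurableSet {ω | p ω})
    (h : ∀ᵐ κ ∂haar, occ m κ 0 → p (Phi m κ)) : ∀ᵐ ω ∂(palm (Qm m)), p ω := by
  have hO : MeasurableSet (Omega0) :=
    (measurable_pi_apply 0 : Measurable fun ω : Conf => ω 0) (measurableSet_singleton true)
  have h1 : ∀ᵐ ω ∂(Qm m), ω ∈ Omega0 → p ω := by
    unfold Qm
    rw [ae_map_iff measurable_Phi.aemeasurable]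
    · filter_upwards [h] with κ hκ hmem
      apply hκ
      have : Phi m κ 0 = true := hmem
      rw [Phi_true] at this
      simpa using this
    · have : {ω : Conf | ω ∈ Omega0 → p ω} = Omega0ᶜ ∪ {ω | p ω} := by
        ext ω; simp [imp_iff_not_or]
      rw [this]
      exact hO.compl.union hp
  unfold palm ProbabilityTheory.cond
  apply Measure.ae_smul_measure
  rw [ae_restrict_iff' hO]
  exact h1

/-- distance to the next occupied site -/
noncomputable def gp (m : ℕ → ℕ) (κ : ℤ_[2]) (s : ℤ) : ℕ := sInf {k : ℕ | 0 < k ∧ occ m κ (s + k)}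

/-- distance to the previous occupied site -/
noncomputable def gm (m : ℕ → ℕ) (κ : ℤ_[2]) (s : ℤ) : ℕ := sInf {k : ℕ | 0 < k ∧ occ m κ (s - k)}

lemma gap_pos_dir (κ : ℤ_[2]) (v e : ℤ × ℤ) (he : e.1 + e.2 = 1) :
    gap e (shift v (Phi m κ)) = gp m κ (v.1 + v.2) := by
  unfold gap gp
  congr 1
  ext k
  simp only [Set.mem_ofPred_eq, shift]
  rw [Phi_true]
  have : (v + k • e).1 + (v + k • e).2 = v.1 + v.2 + k := by
    rw [Prod.fst_add, Prod.snd_add, Prod.smul_fst, Prod.smul_snd, nsmul_eq_mul, nsmul_eq_mul]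
    have : (k : ℤ) * e.1 + k * e.2 = k := by rw [← mul_add, he, mul_one]
    linarith
  rw [this]

lemma gap_neg_dir (κ : ℤ_[2]) (v e : ℤ × ℤ) (he : e.1 + e.2 = -1) :
    gap e (shift v (Phi m κ)) = gm m κ (v.1 + v.2) := by
  unfold gap gm
  congr 1
  ext k
  simp only [Set.mem_ofPred_eq, shift]
  rw [Phi_true]
  have : (v + k • e).1 + (v + k • e).2 = v.1 + v.2 - k := by
    rw [Prod.fst_add, Prod.snd_add, Prod.smul_fst, Prod.smul_snd, nsmul_eq_mul, nsmul_eq_mul]
    have : (k : ℤ) * e.1 + k * e.2 = -k := by rw [← mul_add, he]; ring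
    linarith
  rw [this]

end Q293.Anti
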