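import Pool.Agent.Q293.DPPEn
import Pool.Agent.Q293.DPPFour

/-!
# Recurrence when the large holes are very sparse
-/

set_option autoImplicit false
set_option linter.unusedSectionVars false

open MeasureTheory Filter Topology Q293.Odo Q293.DPP Q293.PermEnergy
open scoped ENNReal

namespace Q293.Anti

variable {m : ℕ → ℕ} {κ : ℤ_[2]}

lemma lev_add (v e : ℤ × ℤ) (he : e.1 + e.2 = 1) (k : ℕ) :
    (v + k • e).1 + (v + k • e).2 = v.1 + v.2 + k := by
  rw [Prod.fst_add, Prod.snd_add, Prod.smul_fst, Prod.smul_snd, nsmul_eq_mul, nsmul_eq_mul]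
  have : (k : ℤ) * e.1 + k * e.2 = k := by rw [← mul_add, he, mul_one]
  linarith

lemma lev_sub (v e : ℤ × ℤ) (he : e.1 + e.2 = 1) (k : ℕ) :
    (v - k • e).1 + (v - k • e).2 = v.1 + v.2 - k := by
  rw [Prod.fst_sub, Prod.snd_sub, Prod.smul_fst, Prod.smul_snd, nsmul_eq_mul, nsmul_eq_mul]
  have : (k : ℤ) * e.1 + k * e.2 = k := by rw [← mul_add, he, mul_one]
  linarith

open Classical in
/-- the permutation moving every occupied site to the next one in direction `e` -/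
noncomputable def Rp (hU : Unb m κ) (e : ℤ × ℤ) (he : e.1 + e.2 = 1) : Equiv.Perm (ℤ × ℤ) where
  toFun v := if occ m κ (v.1 + v.2) then v + gp m κ (v.1 + v.2) • e else v
  invFun v := if occ m κ (v.1 + v.2) then v - gm m κ (v.1 + v.2) • e else v
  left_inv v := by
    by_cases hv : occ m κ (v.1 + v.2)
    · have h1 := gp_spec hU (v.1 + v.2)
      have h2 := gm_gp hU hv
      simp only [if_pos hv]
      rw [lev_add v e he, if_pos h1.2]
      have h3 : gm m κ (v.1 + v.2 + gp m κ (v.1 + v.2)) = gp m κ (v.1 + v.2) := by omega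
      rw [h3, add_sub_cancel_right]
    · simp only [if_neg hv]
  right_inv v := by
    by_cases hv : occ m κ (v.1 + v.2)
    · have h1 := gm_spec hU (v.1 + v.2)
      have h2 := gp_gm hU hv
      simp only [if_pos hv]
      rw [lev_sub v e he, if_pos h1.2]
      have h3 : gp m κ (v.1 + v.2 - gm m κ (v.1 + v.2)) = gm m κ (v.1 + v.2) := by omega
      rw [h3, sub_add_cancel]
    · simp only [if_neg hv]

lemma Rp_apply (hU : Unb m κ) (e : ℤ × ℤ) (he : e.1 + e.2 = 1) {v : ℤ × ℤ}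
    (hv : occ m κ (v.1 + v.2)) : Rp hU e he v = v + gp m κ (v.1 + v.2) • e := if_pos hv

lemma Rp_symm_apply (hU : Unb m κ) (e : ℤ × ℤ) (he : e.1 + e.2 = 1) {v : ℤ × ℤ}
    (hv : occ m κ (v.1 + v.2)) : (Rp hU e he).symm v = v - gm m κ (v.1 + v.2) • e := if_pos hv

lemma Rp_apply_not (hU : Unb m κ) (e : ℤ × ℤ) (he : e.1 + e.2 = 1) {v : ℤ × ℤ}
    (hv : ¬ occ m κ (v.1 + v.2)) : Rp hU e he v = v := if_neg hv

/-- the right permutation -/
noncomputable def Re (hU : Unb m κ) : Equiv.Perm (ℤ × ℤ) := Rp hU (1, 0) (by norm_num)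

/-- the up permutation -/
noncomputable def Ue (hU : Unb m κ) : Equiv.Perm (ℤ × ℤ) := Rp hU (0, 1) (by norm_num)

lemma iter_eq (hU : Unb m κ) (f : ℤ × ℤ → ℝ) (n : ℕ) : ∀ v : ℤ × ℤ, occ m κ (v.1 + v.2) →
    (opR (step (Phi m κ)))^[n] f v = (P (Re hU) (Ue hU))^[n] f v := by
  induction n with
  | zero => intro v _; rfl
  | succ n ih =>
    intro v hv
    have h1 := gp_spec hU (v.1 + v.2)
    have h2 := gm_spec hU (v.1 + v.2)
    rw [Function.iterate_succ_apply', Function.iterate_succ_apply', opR_eq, P]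
    unfold Re Ue
    rw [Rp_apply hU _ _ hv, Rp_apply hU _ _ hv, Rp_symm_apply hU _ _ hv, Rp_symm_apply hU _ _ hv]
    have e1 : v + gp m κ (v.1 + v.2) • ((1, 0) : ℤ × ℤ) = (v.1 + gp m κ (v.1 + v.2), v.2) := by
      ext <;> simp
    have e2 : v + gp m κ (v.1 + v.2) • ((0, 1) : ℤ × ℤ) = (v.1, v.2 + gp m κ (v.1 + v.2)) := by
      ext <;> simp
    have e3 : v - gm m κ (v.1 + v.2) • ((1, 0) : ℤ × ℤ) = (v.1 - gm m κ (v.1 + v.2), v.2) := by
      ext <;> simp
    have e4 : v - gm m κ (v.1 + v.2) • ((0, 1) : ℤ × ℤ) = (v.1, v.2 - gm m κ (v.1 + v.2)) := by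
      ext <;> simp
    rw [e1, e2, e3, e4]
    rw [ih (v.1 + gp m κ (v.1 + v.2), v.2) (by
        have : v.1 + (gp m κ (v.1 + v.2) : ℤ) + v.2 = v.1 + v.2 + gp m κ (v.1 + v.2) := by ring
        simp only [this]; exact h1.2),
      ih (v.1, v.2 + gp m κ (v.1 + v.2)) (by
        have : v.1 + (v.2 + (gp m κ (v.1 + v.2) : ℤ)) = v.1 + v.2 + gp m κ (v.1 + v.2) := by ring
        simp only [this]; exact h1.2),
      ih (v.1 - gm m κ (v.1 + v.2), v.2) (by
        have : v.1 - (gm m κ (v.1 + v.2) : ℤ) + v.2 = v.1 + v.2 - gm m κ (v.1 + v.2) := by ring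
        simp only [this]; exact h2.2),
      ih (v.1, v.2 - gm m κ (v.1 + v.2)) (by
        have : v.1 + (v.2 - (gm m κ (v.1 + v.2) : ℤ)) = v.1 + v.2 - gm m κ (v.1 + v.2) := by ring
        simp only [this]; exact h2.2)]
    unfold Re Ue
    ring

section energy

variable (h : Adm m) {j : ℕ} (hF : Far m j κ) (hU : Unb m κ)
include h hF hU

lemma gp_bd {s : ℤ} (hs : |s| ≤ Ww m j) : gp m κ s ≤ 2 * Nn m j + 1 := by
  obtain ⟨t, h5, h6⟩ := exists_next h hF hs
  have h7 := gp_le hU (s := s) (t := s + 1 + t) (by omega) h6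
  have h8 := Rr_le h j
  omega

lemma gm_bd {s : ℤ} (hs : |s| ≤ Ww m j) : gm m κ s ≤ 2 * Nn m j + 1 := by
  obtain ⟨t, h5, h6⟩ := exists_prev h hF hs
  have h7 := gm_le hU (s := s) (t := s - 1 - t) (by omega) h6
  have h8 := Rr_le h j
  omega

/-- bound of one term of the energy -/
lemma term_le {W : ℕ} (hW : 1 ≤ W) (hWw : 2 * W ≤ Ww m j) (e : ℤ × ℤ) (he : e.1 + e.2 = 1)
    {v : ℤ × ℤ} (hv : occ m κ (v.1 + v.2)) :
    (tf W v - tf W (v + gp m κ (v.1 + v.2) • e)) ^ 2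
      ≤ (2 * Nn m j + 1 : ℝ) * ∑ k ∈ Finset.range (gp m κ (v.1 + v.2)),
        (tf W (v + k • e) - tf W (v + k • e + e)) ^ 2 := by
  have hsum : 0 ≤ ∑ k ∈ Finset.range (gp m κ (v.1 + v.2)),
        (tf W (v + k • e) - tf W (v + k • e + e)) ^ 2 := Finset.sum_nonneg fun k _ => sq_nonneg _
  by_cases h1 : rr v < W ∨ rr (v + gp m κ (v.1 + v.2) • e) < W
  · have hg : gp m κ (v.1 + v.2) ≤ 2 * Nn m j + 1 := by
      rcases h1 with h1 | h1
      · apply gp_bd h hF hU
        unfold rr at h1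
        rw [abs_le]
        constructor <;> omega
      · have h2 := lev_add v e he (gp m κ (v.1 + v.2))
        have h3 := gm_gp hU hv
        have h4 : gm m κ (v.1 + v.2 + gp m κ (v.1 + v.2)) ≤ 2 * Nn m j + 1 := by
          apply gm_bd h hF hU
          unfold rr at h1
          rw [← h2, abs_le]
          constructor <;> omega
        omega
    refine (seg_le _ _ _ _).trans ?_
    apply mul_le_mul_of_nonneg_right _ hsum
    exact_mod_cast hg
  · push Not at h1
    rw [tf_eq_zero hW h1.1, tf_eq_zero hW h1.2, sub_self, zero_pow two_ne_zero]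
    positivity

/-- one half of the energy -/
lemma half_le {W : ℕ} (hW : 1 ≤ W) (hWw : 2 * W ≤ Ww m j) (e : ℤ × ℤ) (he : e.1 + e.2 = 1)
    (he' : e = (1, 0) ∨ e = (0, 1)) :
    ip (gr (Rp hU e he) (tf W)) (gr (Rp hU e he) (tf W)) ≤ (2 * Nn m j + 1 : ℝ) * (9 / Hm W) := by
  classical
  have hH := one_le_Hm hW
  have hfs : (fun v => gr (Rp hU e he) (tf W) v * gr (Rp hU e he) (tf W) v).support.Finite :=
    fs_mul (fs_gr (tf_supp hW) _) _
  have hnn : ∀ v, 0 ≤ gr (Rp hU e he) (tf W) v * gr (Rp hU e he) (tf W) v :=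
    fun v => mul_self_nonneg _
  have e1 : ENNReal.ofReal (ip (gr (Rp hU e he) (tf W)) (gr (Rp hU e he) (tf W)))
      = ∑' v, ENNReal.ofReal (gr (Rp hU e he) (tf W) v * gr (Rp hU e he) (tf W) v) := by
    unfold ip
    have hsm : Summable fun v => gr (Rp hU e he) (tf W) v * gr (Rp hU e he) (tf W) v :=
      summable_of_hasFiniteSupport hfs
    rw [← ENNReal.ofReal_tsum_of_nonneg hnn hsm, tsum_eq_finsum hfs]
  set D : ℤ × ℤ → ℝ≥0∞ := fun w => ENNReal.ofReal ((tf W w - tf W (w + e)) ^ 2) with hD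
  set S : Set ((ℤ × ℤ) × ℕ) := {p | occ m κ (p.1.1 + p.1.2) ∧ p.2 < gp m κ (p.1.1 + p.1.2)} with hS
  set G : ℝ≥0∞ := ENNReal.ofReal (2 * Nn m j + 1) with hG
  have e2 : ∀ v, ENNReal.ofReal (gr (Rp hU e he) (tf W) v * gr (Rp hU e he) (tf W) v)
      ≤ G * ∑' k : ℕ, S.indicator (fun p => D (p.1 + p.2 • e)) (v, k) := by
    intro v
    by_cases hv : occ m κ (v.1 + v.2)
    · have h1 := term_le h hF hU hW hWw e he hv
      have h2 : gr (Rp hU e he) (tf W) v * gr (Rp hU e he) (tf W) v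
          = (tf W v - tf W (v + gp m κ (v.1 + v.2) • e)) ^ 2 := by
        unfold gr
        rw [Rp_apply hU e he hv]
        ring
      rw [h2]
      refine (ENNReal.ofReal_le_ofReal h1).trans ?_
      rw [ENNReal.ofReal_mul (by positivity)]
      gcongr
      rw [ENNReal.ofReal_sum_of_nonneg fun k _ => sq_nonneg _]
      refine le_trans (le_of_eq ?_) (ENNReal.sum_le_tsum (Finset.range (gp m κ (v.1 + v.2))))
      apply Finset.sum_congr rfl
      intro k hk
      rw [Finset.mem_range] at hk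
      rw [Set.indicator_of_mem (show ((v, k) : (ℤ × ℤ) × ℕ) ∈ S from ⟨hv, hk⟩)]
    · have h2 : gr (Rp hU e he) (tf W) v * gr (Rp hU e he) (tf W) v = 0 := by
        unfold gr
        rw [Rp_apply_not hU e he hv]
        ring
      rw [h2, ENNReal.ofReal_zero]
      exact bot_le
  have hinj : Function.Injective (fun p : S => (p : (ℤ × ℤ) × ℕ).1 + (p : (ℤ × ℤ) × ℕ).2 • e) := by
    rintro ⟨⟨v, k⟩, hv, hk⟩ ⟨⟨v', k'⟩, hv', hk'⟩ heq
    simp only at heq hv hk hv' hk'
    have l1 := lev_add v e he k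
    have l2 := lev_add v' e he k'
    rw [heq, l2] at l1
    have hkk : k = k' := by
      rcases lt_trichotomy (v.1 + v.2) (v'.1 + v'.2) with h3 | h3 | h3
      · have := gp_le hU h3 hv'
        omega
      · omega
      · have := gp_le hU h3 hv
        omega
    subst hkk
    have : v = v' := add_right_cancel heq
    subst this
    rfl
  have e3 : ENNReal.ofReal (ip (gr (Rp hU e he) (tf W)) (gr (Rp hU e he) (tf W)))
      ≤ ENNReal.ofReal ((2 * Nn m j + 1 : ℝ) * (9 / Hm W)) := by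
    rw [e1]
    calc ∑' v, ENNReal.ofReal (gr (Rp hU e he) (tf W) v * gr (Rp hU e he) (tf W) v)
        ≤ ∑' v, G * ∑' k : ℕ, S.indicator (fun p => D (p.1 + p.2 • e)) (v, k) :=
          ENNReal.tsum_le_tsum e2
      _ = G * ∑' p : (ℤ × ℤ) × ℕ, S.indicator (fun p => D (p.1 + p.2 • e)) p := by
          rw [ENNReal.tsum_mul_left, ← ENNReal.tsum_prod]
      _ = G * ∑' p : S, D ((p : (ℤ × ℤ) × ℕ).1 + (p : (ℤ × ℤ) × ℕ).2 • e) := by
          rw [← tsum_subtype]
      _ ≤ G * ∑' w, D w := by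
          gcongr
          exact ENNReal.tsum_comp_le_tsum_of_injective hinj D
      _ ≤ G * ENNReal.ofReal (9 / Hm W) := by
          gcongr
          refine le_trans (ENNReal.tsum_le_tsum fun w => ?_) (sum_cc hW)
          exact ENNReal.ofReal_le_ofReal (D_le hW w e he')
      _ = _ := by rw [← ENNReal.ofReal_mul (by positivity)]
  exact (ENNReal.ofReal_le_ofReal_iff (by positivity)).1 e3

lemma energy_le {W : ℕ} (hW : 1 ≤ W) (hWw : 2 * W ≤ Ww m j) :
    En (Re hU) (Ue hU) (tf W) ≤ (2 * Nn m j + 1 : ℝ) * (18 / Hm W) := by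
  have h1 := half_le h hF hU hW hWw (1, 0) (by norm_num) (Or.inl rfl)
  have h2 := half_le h hF hU hW hWw (0, 1) (by norm_num) (Or.inr rfl)
  have h3 : (2 * Nn m j + 1 : ℝ) * (18 / Hm W)
      = (2 * Nn m j + 1 : ℝ) * (9 / Hm W) + (2 * Nn m j + 1 : ℝ) * (9 / Hm W) := by ring
  rw [h3]
  exact add_le_add h1 h2

end energy

/-- Sparse holes give an infinite Green function. -/
theorem green_infinite (h : Adm m)
    (hlim : Tendsto (fun j => (2 : ℝ) ^ m j / (m (j + 1) - j - 2 : ℕ)) atTop (𝓝 0))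
    (hF : ∀ᶠ j in atTop, Far m j κ) (h0 : occ m κ 0) :
    ∑' n, (opE (step (Phi m κ)))^[n] (Set.indicator {0} 1) 0 = ∞ := by
  by_contra hne
  have hU := unb_of_far h hF
  set T := ∑' n, (opE (step (Phi m κ)))^[n] (Set.indicator {0} 1) 0 with hT
  set G : ℝ := T.toReal with hG
  have hG0 : 0 ≤ G := ENNReal.toReal_nonneg
  have hd0 : ∀ v : ℤ × ℤ, 0 ≤ dlt 0 v := dlt_nonneg 0
  have hind : (Set.indicator {0} 1 : ℤ × ℤ → ℝ≥0∞) = fun v => ENNReal.ofReal (dlt 0 v) := by
    funext v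
    unfold dlt
    by_cases hv : v = 0
    · rw [Set.indicator_of_mem (by exact hv), if_pos hv]; simp
    · rw [Set.indicator_of_notMem (by exact hv), if_neg hv]; simp
  have hbound : ∀ N, ∑ n ∈ Finset.range N, (P (Re hU) (Ue hU))^[n] (dlt 0) 0 ≤ G := by
    intro N
    have h1 : ∑ n ∈ Finset.range N, (opE (step (Phi m κ)))^[n] (Set.indicator {0} 1) 0 ≤ T :=
      ENNReal.sum_le_tsum _
    rw [hind] at h1
    simp only [opE_ofReal _ hd0] at h1
    rw [← ENNReal.ofReal_sum_of_nonneg fun n _ => opR_nonneg _ hd0 n 0] at h1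
    have h2 := (ENNReal.ofReal_le_iff_le_toReal hne).1 h1
    refine le_trans (le_of_eq ?_) h2
    apply Finset.sum_congr rfl
    intro n _
    rw [iter_eq hU (dlt 0) n 0 (by simpa using h0)]
  have hev : ∀ᶠ j in atTop, (4 : ℝ) ≤ G * (27 * 2 / Real.log 2 * ((2 : ℝ) ^ m j / (m (j + 1) - j - 2 : ℕ))) := by
    filter_upwards [hF] with j hj
    have h3 := h.step j
    have h4 := h.ge j
    set W := 2 ^ (m (j + 1) - j - 2) with hWdef
    have hW : 1 ≤ W := Nat.one_le_two_pow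
    have hWw : 2 * W ≤ Ww m j := by
      rw [hWdef]; unfold Ww
      rw [← pow_succ']
      apply Nat.pow_le_pow_right (by norm_num)
      omega
    have h5 := energy_ge (0 : ℤ × ℤ) G hbound (tf_supp hW) (tf_zero W)
    have h6 := energy_le h hj hU hW hWw
    have h7 : (2 * Nn m j + 1 : ℝ) ≤ 3 * 2 ^ m j := by
      have h8 := eight_Nn_le h j
      have h9 : (8 * Nn m j : ℝ) ≤ 2 ^ m j := by
        have : ((8 * Nn m j : ℕ) : ℝ) ≤ ((Mm m j : ℕ) : ℝ) := by exact_mod_cast h8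
        unfold Mm at this
        push_cast at this
        exact this
      have h10 : (1 : ℝ) ≤ 2 ^ m j := one_le_pow₀ (by norm_num)
      have h11 : (0 : ℝ) ≤ Nn m j := Nat.cast_nonneg _
      linarith
    have hlog := Real.log_pos (by norm_num : (1 : ℝ) < 2)
    have hx : (0 : ℝ) < ((m (j + 1) - j - 2 : ℕ) : ℝ) := by
      have : 0 < m (j + 1) - j - 2 := by omega
      exact_mod_cast this
    have h8 : (18 : ℝ) / Hm W ≤ 18 / (((m (j + 1) - j - 2 : ℕ) : ℝ) * Real.log 2) := by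
      apply div_le_div_of_nonneg_left (by norm_num) (by positivity)
      exact log_le_Hm _
    calc (4 : ℝ) ≤ G * En (Re hU) (Ue hU) (tf W) := h5
      _ ≤ G * ((2 * Nn m j + 1 : ℝ) * (18 / Hm W)) := by gcongr
      _ ≤ G * ((3 * 2 ^ m j) * (18 / (((m (j + 1) - j - 2 : ℕ) : ℝ) * Real.log 2))) := by
          have hH := one_le_Hm hW
          gcongr
      _ = _ := by
          field_simp
          ring
  have hlim2 : Tendsto (fun j => G * (27 * 2 / Real.log 2 * ((2 : ℝ) ^ m j / (m (j + 1) - j - 2 : ℕ))))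
      atTop (𝓝 (G * (27 * 2 / Real.log 2 * 0))) := (hlim.const_mul _).const_mul _
  have h5 := ge_of_tendsto hlim2 hev
  norm_num at h5

/-- very sparse holes -/
def m1 : ℕ → ℕ
  | 0 => 3
  | j + 1 => 4 ^ m1 j

lemma m1_ge (j : ℕ) : j + 3 ≤ m1 j := by
  induction j with
  | zero => exact le_rfl
  | succ j ih =>
    rw [m1]
    have h1 : m1 j < 4 ^ m1 j := Nat.lt_pow_self (by norm_num)
    omega

lemma four_pow_ge (n : ℕ) : 2 * n + 1 ≤ 4 ^ n := by
  induction n with
  | zero => norm_num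
  | succ n ih => rw [pow_succ]; omega

lemma adm1 : Adm m1 where
  base := le_rfl
  step := by
    intro i
    have h1 := m1_ge i
    have h2 := four_pow_ge (m1 i)
    rw [m1]
    omega

lemma m1_lim : Tendsto (fun j => (2 : ℝ) ^ m1 j / (m1 (j + 1) - j - 2 : ℕ)) atTop (𝓝 0) := by
  have h1 : Tendsto (fun j : ℕ => (2 : ℝ) * (1 / 2) ^ j) atTop (𝓝 (2 * 0)) :=
    (tendsto_pow_atTop_nhds_zero_of_lt_one (by norm_num) (by norm_num)).const_mul 2
  rw [mul_zero] at h1
  refine squeeze_zero (fun j => by positivity) (fun j => ?_) h1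
  have h2 := m1_ge j
  have h3 := four_pow_ge (m1 j)
  have h4 : (4 : ℝ) ^ m1 j / 2 ≤ ((m1 (j + 1) - j - 2 : ℕ) : ℝ) := by
    rw [m1]
    have h5 : 4 ^ m1 j ≤ 2 * (4 ^ m1 j - j - 2) := by
      have : 2 * (j + 2) ≤ 4 ^ m1 j := by omega
      omega
    have h6 : ((4 ^ m1 j : ℕ) : ℝ) ≤ ((2 * (4 ^ m1 j - j - 2) : ℕ) : ℝ) := by exact_mod_cast h5
    rw [Nat.cast_mul, Nat.cast_pow] at h6
    push_cast at h6 ⊢
    linarith
  have h7 : (0 : ℝ) < 4 ^ m1 j / 2 := by positivity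
  calc (2 : ℝ) ^ m1 j / ((m1 (j + 1) - j - 2 : ℕ) : ℝ) ≤ 2 ^ m1 j / (4 ^ m1 j / 2) := by gcongr
    _ = 2 * (1 / 2) ^ m1 j := by
        rw [show (4 : ℝ) = 2 * 2 by norm_num, mul_pow, one_div_pow]
        field_simp
    _ ≤ 2 * (1 / 2) ^ j := by
        have : ((1 : ℝ) / 2) ^ m1 j ≤ (1 / 2) ^ j :=
          pow_le_pow_of_le_one (by norm_num) (by norm_num) (by omega)
        linarith

end Q293.Anti
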