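import Pool.Agent.Q293.DPPFour

/-!
# Tails of the gaps
-/

set_option autoImplicit false
set_option linter.unusedSectionVars false

open MeasureTheory Filter Topology Q293.Odo Q293.DPP
open scoped ENNReal

namespace Q293.Anti

lemma measurable_gap (e : ℤ × ℤ) : Measurable fun ω : Conf => gap e ω := by
  apply measurable_to_countable'
  intro k
  have hm : ∀ l : ℕ, MeasurableSet {ω : Conf | ω (l • e) = true} := by
    intro l
    exact (measurable_pi_apply (l • e) : Measurable fun ω : Conf => ω (l • e))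
      (measurableSet_singleton true)
  by_cases hk : k = 0
  · have : (fun ω : Conf => gap e ω) ⁻¹' {k}
        = ⋂ (l : ℕ) (_ : 0 < l), {ω : Conf | ω (l • e) = true}ᶜ := by
      ext ω
      subst hk
      simp only [Set.mem_preimage, Set.mem_singleton_iff, gap, Set.mem_iInter, Set.mem_compl_iff]
      rw [Nat.sInf_eq_zero]
      constructor
      · rintro (h1 | h1) l hl
        · exact absurd h1.1 (lt_irrefl 0)
        · intro h2
          have : l ∈ (∅ : Set ℕ) := by rw [← h1]; exact ⟨hl, h2⟩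
          exact this
      · intro h1
        right
        apply Set.eq_empty_of_forall_notMem
        rintro l ⟨h2, h3⟩
        exact h1 l h2 h3
    rw [this]
    exact MeasurableSet.iInter fun l => MeasurableSet.iInter fun _ => (hm l).compl
  · have : (fun ω : Conf => gap e ω) ⁻¹' {k}
        = {ω : Conf | ω (k • e) = true} ∩
          ⋂ (l : ℕ) (_ : 0 < l ∧ l < k), {ω : Conf | ω (l • e) = true}ᶜ := by
      ext ω
      simp only [Set.mem_preimage, Set.mem_singleton_iff, gap, Set.mem_inter_iff, Set.mem_iInter,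
        Set.mem_compl_iff]
      constructor
      · intro h1
        have hne : {k : ℕ | 0 < k ∧ ω (k • e) = true}.Nonempty := by
          by_contra hemp
          rw [Set.not_nonempty_iff_eq_empty] at hemp
          rw [hemp, Nat.sInf_empty] at h1
          exact hk h1.symm
        have h2 := Nat.sInf_mem hne
        rw [h1] at h2
        refine ⟨h2.2, fun l hl h3 => ?_⟩
        have h4 : sInf {k : ℕ | 0 < k ∧ ω (k • e) = true} ≤ l := Nat.sInf_le ⟨hl.1, h3⟩
        omega
      · rintro ⟨h1, h2⟩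
        apply le_antisymm
        · exact Nat.sInf_le ⟨Nat.pos_of_ne_zero hk, h1⟩
        · have hne : {k : ℕ | 0 < k ∧ ω (k • e) = true}.Nonempty :=
            ⟨k, Nat.pos_of_ne_zero hk, h1⟩
          have h3 := Nat.sInf_mem hne
          by_contra hlt
          push Not at hlt
          exact h2 _ ⟨h3.1, hlt⟩ h3.2
    rw [this]
    exact (hm k).inter (MeasurableSet.iInter fun l => MeasurableSet.iInter fun _ => (hm l).compl)

lemma natCast_eq_tsum (n : ℕ) : (n : ℝ≥0∞) = ∑' k : ℕ, if k < n then 1 else 0 := by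
  rw [tsum_eq_sum (s := Finset.range n)]
  · rw [Finset.sum_congr rfl (fun k hk => if_pos (Finset.mem_range.1 hk))]
    simp
  · intro k hk
    rw [Finset.mem_range] at hk
    exact if_neg hk

lemma shift_iter (e : ℤ × ℤ) (k : ℕ) (ω : Conf) : (shift e)^[k] ω = shift (k • e) ω := by
  induction k with
  | zero => funext y; simp [shift]
  | succ k ih =>
    rw [Function.iterate_succ_apply', ih]
    funext y
    unfold shift
    congr 1
    rw [add_smul, one_smul, add_assoc]

/-- Kac bound: the mean gap is at most the inverse of the density -/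
lemma kac_le {Q : Measure Conf} [IsProbabilityMeasure Q] {e : ℤ × ℤ}
    (hQ : MeasurePreserving (shift e) Q Q) :
    ∫⁻ ω, (gap e ω : ℝ≥0∞) ∂(palm Q) ≤ (Q Omega0)⁻¹ := by
  have hm : ∀ x : ℤ × ℤ, MeasurableSet {ω : Conf | ω x = true} := by
    intro x
    exact (measurable_pi_apply x : Measurable fun ω : Conf => ω x) (measurableSet_singleton true)
  set A : ℕ → Set Conf := fun k => {ω | ω 0 = true ∧ ∀ i : ℕ, 1 ≤ i → i ≤ k → ¬ ω (i • e) = true} with hA
  set B : ℕ → Set Conf := fun k => {ω | ω (-(k • e)) = true ∧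
    ∀ i : ℕ, i < k → ¬ ω (-(i • e)) = true} with hB
  have hBm : ∀ k, MeasurableSet (B k) := by
    intro k
    have : B k = {ω : Conf | ω (-(k • e)) = true} ∩
        ⋂ (i : ℕ) (_ : i < k), {ω : Conf | ω (-(i • e)) = true}ᶜ := by
      ext ω
      simp only [hB, Set.mem_ofPred_eq, Set.mem_inter_iff, Set.mem_iInter, Set.mem_compl_iff]
    rw [this]
    exact (hm _).inter (MeasurableSet.iInter fun i => MeasurableSet.iInter fun _ => (hm _).compl)
  have hAB : ∀ k, Q (A k) = Q (B k) := by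
    intro k
    have h1 := (hQ.iterate k).measure_preimage (hBm k).nullMeasurableSet
    rw [← h1]
    congr 1
    ext ω
    simp only [hA, hB, Set.mem_ofPred_eq, Set.mem_preimage, shift_iter]
    unfold shift
    constructor
    · rintro ⟨h2, h3⟩
      refine ⟨by rw [add_neg_cancel]; exact h2, fun i hi => ?_⟩
      have h4 := h3 (k - i) (by omega) (by omega)
      have e1 : k • e + -(i • e) = (k - i) • e := by
        rw [← sub_eq_add_neg, sub_eq_iff_eq_add, ← add_smul]
        congr 1; omega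
      rw [e1]; exact h4
    · rintro ⟨h2, h3⟩
      rw [add_neg_cancel] at h2
      refine ⟨h2, fun i h4 h5 => ?_⟩
      have h6 := h3 (k - i) (by omega)
      have e1 : k • e + -((k - i) • e) = i • e := by
        rw [← sub_eq_add_neg, sub_eq_iff_eq_add, ← add_smul]
        congr 1; omega
      rw [e1] at h6; exact h6
  have hdisj : Pairwise (Function.onFun Disjoint B) := by
    intro i j hij
    rw [Function.onFun, Set.disjoint_left]
    rintro ω ⟨h1, h2⟩ ⟨h3, h4⟩
    rcases lt_or_gt_of_ne hij with h5 | h5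
    · exact h4 i h5 h1
    · exact h2 j h5 h3
  have hO : MeasurableSet (Omega0) := hm 0
  have hle : ∫⁻ ω in Omega0, (gap e ω : ℝ≥0∞) ∂Q ≤ 1 := by
    calc ∫⁻ ω in Omega0, (gap e ω : ℝ≥0∞) ∂Q
        = ∫⁻ ω in Omega0, ∑' k : ℕ, (if k < gap e ω then 1 else 0) ∂Q := by
          simp only [← natCast_eq_tsum]
      _ = ∑' k : ℕ, ∫⁻ ω in Omega0, (if k < gap e ω then 1 else 0) ∂Q := by
          rw [lintegral_tsum]
          intro k
          apply Measurable.aemeasurable
          apply Measurable.ite _ measurable_const measurable_const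
          exact measurableSet_lt measurable_const (measurable_gap e)
      _ ≤ ∑' k : ℕ, Q (A k) := by
          apply ENNReal.tsum_le_tsum
          intro k
          have hms : MeasurableSet {ω : Conf | k < gap e ω} :=
            measurableSet_lt measurable_const (measurable_gap e)
          have e1 : ∫⁻ ω in Omega0, (if k < gap e ω then 1 else 0) ∂Q
              = (Q.restrict Omega0) {ω | k < gap e ω} := by
            rw [← lintegral_indicator_one hms]
            apply lintegral_congr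
            intro ω
            by_cases hk : k < gap e ω
            · rw [if_pos hk, Set.indicator_of_mem (show ω ∈ {ω : Conf | k < gap e ω} from hk)]; rfl
            · rw [if_neg hk, Set.indicator_of_notMem (show ω ∉ {ω : Conf | k < gap e ω} from hk)]
          rw [e1, Measure.restrict_apply hms]
          apply measure_mono
          rintro ω ⟨h1, h2⟩
          refine ⟨h2, fun i h3 h4 h5 => ?_⟩
          have h6 : gap e ω ≤ i := Nat.sInf_le ⟨h3, h5⟩
          have h7 : k < gap e ω := h1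
          omega
      _ = ∑' k : ℕ, Q (B k) := by simp only [hAB]
      _ = Q (⋃ k, B k) := (measure_iUnion hdisj hBm).symm
      _ ≤ 1 := prob_le_one
  unfold palm ProbabilityTheory.cond
  rw [lintegral_smul_measure, smul_eq_mul]
  calc (Q Omega0)⁻¹ * ∫⁻ ω in Omega0, (gap e ω : ℝ≥0∞) ∂Q ≤ (Q Omega0)⁻¹ * 1 := by gcongr
    _ = (Q Omega0)⁻¹ := mul_one _

variable {m : ℕ → ℕ}

/-- the last site before a hole of level `j` is occupied with large conditional probability -/
lemma haar_last (h : Adm m) (j : ℕ) :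
    (7 / 8 : ℝ≥0∞) * ((2 : ℝ≥0∞) ^ m j)⁻¹ ≤ haar {κ | res (m j) κ = Mm m j - 1 ∧ occ m κ 0} := by
  have hM : 0 < Mm m j := by unfold Mm; positivity
  have h1 : haar {κ | res (m j) κ = Mm m j - 1} = ((2 : ℝ≥0∞) ^ m j)⁻¹ :=
    haar_res _ _ (by change Mm m j - 1 < Mm m j; omega)
  have hsub : {κ : ℤ_[2] | res (m j) κ = Mm m j - 1} ⊆
      {κ | res (m j) κ = Mm m j - 1 ∧ occ m κ 0} ∪
      ⋃ k : ℕ, {κ | res (m (j + 1 + k)) κ ∈
        (Finset.range (Nn m (j + 1 + k))).filter fun r => r % Mm m j = Mm m j - 1} := by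
    intro κ hκ
    by_cases hocc : occ m κ 0
    · exact Or.inl ⟨hκ, hocc⟩
    · right
      unfold occ at hocc
      push Not at hocc
      obtain ⟨i, hi⟩ := hocc
      have hi' : res (m i) κ < Nn m i := by simpa using hi
      have hij : j < i := by
        by_contra hle
        push Not at hle
        have := good_of_last h hκ i hle
        omega
      rw [Set.mem_iUnion]
      refine ⟨i - (j + 1), ?_⟩
      have e : j + 1 + (i - (j + 1)) = i := by omega
      rw [e, Set.mem_ofPred_eq, Finset.mem_filter, Finset.mem_range]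
      refine ⟨hi', ?_⟩
      have := res_mod (m j) (m i) (h.le_of_le hij.le) κ
      unfold Mm
      rw [this]
      exact hκ
  have hterm : ∀ k : ℕ, haar {κ : ℤ_[2] | res (m (j + 1 + k)) κ ∈
        (Finset.range (Nn m (j + 1 + k))).filter fun r => r % Mm m j = Mm m j - 1}
      ≤ ((2 : ℝ≥0∞) ^ m j)⁻¹ * ((2 : ℝ≥0∞) ^ (j + 1 + k + 3))⁻¹ := by
    intro k
    set i := j + 1 + k with hi
    have hij : j < i := by omega
    refine (haar_res_mem _ _).trans ?_
    obtain ⟨c, hc⟩ := Mm_dvd_Nn h hij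
    have hcard : ((Finset.range (Nn m i)).filter fun r => r % Mm m j = Mm m j - 1).card ≤ c := by
      have : ((Finset.range (Nn m i)).filter fun r => r % Mm m j = Mm m j - 1).card
          ≤ (Finset.range c).card := by
        apply Finset.card_le_card_of_injOn (fun r => r / Mm m j)
        · intro r hr
          simp only [Finset.coe_filter, Finset.mem_range, Set.mem_ofPred_eq] at hr
          simp only [Finset.coe_range, Set.mem_Iio]
          rw [Nat.div_lt_iff_lt_mul hM, mul_comm, ← hc]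
          exact hr.1
        · intro r hr r' hr' heq
          simp only [Finset.coe_filter, Finset.mem_range, Set.mem_ofPred_eq] at hr hr'
          simp only at heq
          rw [← Nat.div_add_mod r (Mm m j), ← Nat.div_add_mod r' (Mm m j), heq, hr.2, hr'.2]
      rwa [Finset.card_range] at this
    have hNd := Nn_div h i
    have hMpow : (Mm m j : ℝ≥0∞) = 2 ^ m j := by unfold Mm; push_cast; rfl
    calc (((Finset.range (Nn m i)).filter fun r => r % Mm m j = Mm m j - 1).card : ℝ≥0∞)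
          * ((2 : ℝ≥0∞) ^ m i)⁻¹ ≤ (c : ℝ≥0∞) * ((2 : ℝ≥0∞) ^ m i)⁻¹ := by gcongr
      _ = ((2 : ℝ≥0∞) ^ m j)⁻¹ * (((Nn m i : ℕ) : ℝ≥0∞) * ((2 : ℝ≥0∞) ^ m i)⁻¹) := by
          rw [hc]
          push_cast
          rw [hMpow, mul_assoc, ← mul_assoc, ENNReal.inv_mul_cancel (by positivity) (by finiteness),
            one_mul]
      _ = _ := by rw [hNd]
  have hsum : ∑' k : ℕ, ((2 : ℝ≥0∞) ^ m j)⁻¹ * ((2 : ℝ≥0∞) ^ (j + 1 + k + 3))⁻¹
      ≤ ((2 : ℝ≥0∞) ^ m j)⁻¹ * 8⁻¹ := by
    rw [ENNReal.tsum_mul_left]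
    gcongr
    have h3 : ∀ k : ℕ, ((2 : ℝ≥0∞) ^ (j + 1 + k + 3))⁻¹ ≤ 8⁻¹ * ((2 : ℝ≥0∞)⁻¹ ^ (k + 1)) := by
      intro k
      have : (8 : ℝ≥0∞)⁻¹ = (2 : ℝ≥0∞)⁻¹ ^ 3 := by
        rw [← ENNReal.inv_pow]; norm_num
      rw [this, ← pow_add, ← ENNReal.inv_pow]
      apply ENNReal.inv_le_inv.2
      exact pow_le_pow_right₀ (by norm_num) (by omega)
    refine (ENNReal.tsum_le_tsum h3).trans ?_
    rw [ENNReal.tsum_mul_left, ENNReal.tsum_geometric_add_one, ENNReal.one_sub_inv_two, inv_inv,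
      ENNReal.inv_mul_cancel (by norm_num) (by norm_num), mul_one]
  have hfin : ((2 : ℝ≥0∞) ^ m j)⁻¹ * 8⁻¹ ≠ ∞ := by finiteness
  have h4 : ((2 : ℝ≥0∞) ^ m j)⁻¹ ≤ haar {κ | res (m j) κ = Mm m j - 1 ∧ occ m κ 0}
      + ((2 : ℝ≥0∞) ^ m j)⁻¹ * 8⁻¹ := by
    rw [← h1]
    refine (measure_mono hsub).trans ((measure_union_le _ _).trans ?_)
    gcongr
    rw [h1]
    exact (measure_iUnion_le _).trans ((ENNReal.tsum_le_tsum hterm).trans hsum)
  have h5 : (7 / 8 : ℝ≥0∞) * ((2 : ℝ≥0∞) ^ m j)⁻¹ + ((2 : ℝ≥0∞) ^ m j)⁻¹ * 8⁻¹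
      = ((2 : ℝ≥0∞) ^ m j)⁻¹ := by
    rw [mul_comm _ (8⁻¹ : ℝ≥0∞), ← add_mul]
    have : (7 / 8 : ℝ≥0∞) + 8⁻¹ = 1 := by
      rw [ENNReal.div_eq_inv_mul, ← mul_add_one]
      have : (7 : ℝ≥0∞) + 1 = 8 := by norm_num
      rw [this, ENNReal.inv_mul_cancel (by norm_num) (by norm_num)]
    rw [this, one_mul]
  exact (ENNReal.add_le_add_iff_right hfin).1 (h5.le.trans h4)

/-- tail of the gap -/
lemma palm_gap_ge (h : Adm m) (j : ℕ) {e : ℤ × ℤ} (he : e.1 + e.2 = 1) :
    (7 / 8 : ℝ≥0∞) * ((2 : ℝ≥0∞) ^ m j)⁻¹ ≤ palm (Qm m) {ω | Nn m j ≤ gap e ω} := by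
  have hm : ∀ x : ℤ × ℤ, MeasurableSet {ω : Conf | ω x = true} := by
    intro x
    exact (measurable_pi_apply x : Measurable fun ω : Conf => ω x) (measurableSet_singleton true)
  have hO : MeasurableSet (Omega0) := hm 0
  have hG : MeasurableSet {ω : Conf | Nn m j ≤ gap e ω} :=
    measurableSet_le measurable_const (measurable_gap e)
  unfold palm
  rw [ProbabilityTheory.cond_apply hO]
  have h1 : haar {κ | res (m j) κ = Mm m j - 1 ∧ occ m κ 0}
      ≤ (Qm m) (Omega0 ∩ {ω | Nn m j ≤ gap e ω}) := by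
    unfold Qm
    rw [Measure.map_apply measurable_Phi (hO.inter hG)]
    apply measure_mono_ae
    filter_upwards [ae_far h] with κ hκ
    rintro ⟨h2, h3⟩
    have hU := unb_of_far h hκ
    refine ⟨?_, ?_⟩
    · change Phi m κ 0 = true
      rw [Phi_true]
      simpa using h3
    · change Nn m j ≤ gap e (Phi m κ)
      have h4 := gap_pos_dir (m := m) κ 0 e he
      have h5 : shift 0 (Phi m κ) = Phi m κ := by funext y; simp [shift]
      rw [h5] at h4
      rw [h4]
      simp only [Prod.fst_zero, Prod.snd_zero, add_zero]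
      by_contra hlt
      push Not at hlt
      have h6 := gp_spec hU 0
      have h8 := eight_Nn_le h j
      have h9 := h6.2 j
      have h10 : (res (m j) (κ + ((0 + gp m κ 0 : ℤ) : ℤ_[2])) : ℤ) = gp m κ 0 - 1 := by
        rw [res_add, h2]
        have e1 : (((Mm m j - 1 : ℕ) : ℤ) + (0 + gp m κ 0)) = (gp m κ 0 - 1) + 2 ^ m j * 1 := by
          have : ((Mm m j : ℕ) : ℤ) = 2 ^ m j := by unfold Mm; push_cast; rfl
          rw [← this]; omega
        rw [e1, Int.add_mul_emod_self_left]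
        apply Int.emod_eq_of_lt (by omega)
        have : ((Mm m j : ℕ) : ℤ) = 2 ^ m j := by unfold Mm; push_cast; rfl
        rw [← this]; omega
      omega
  refine (haar_last h j).trans (h1.trans ?_)
  calc (Qm m) (Omega0 ∩ {ω | Nn m j ≤ gap e ω})
      = 1 * (Qm m) (Omega0 ∩ {ω | Nn m j ≤ gap e ω}) := (one_mul _).symm
    _ ≤ ((Qm m) Omega0)⁻¹ * (Qm m) (Omega0 ∩ {ω | Nn m j ≤ gap e ω}) := by
        gcongr
        rw [ENNReal.one_le_inv]
        exact prob_le_one

/-- the density is at least three quarters -/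
lemma density_ge (h : Adm m) : (3 / 4 : ℝ≥0∞) ≤ (Qm m) Omega0 := by
  have hO : MeasurableSet (Omega0) :=
    (measurable_pi_apply 0 : Measurable fun ω : Conf => ω 0) (measurableSet_singleton true)
  have h1 : (Qm m) Omega0 = haar {κ | occ m κ 0} := by
    unfold Qm
    rw [Measure.map_apply measurable_Phi hO]
    congr 1
    ext κ
    change Phi m κ 0 = true ↔ occ m κ 0
    rw [Phi_true]
    simp
  rw [h1]
  have h2 := haar_not_occ h
  have h3 : haar {κ | occ m κ 0} + haar {κ : ℤ_[2] | occ m κ 0}ᶜ = 1 :=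
    prob_add_prob_compl (by simpa using measurableSet_occ (m := m) 0)
  have h4 : (1 : ℝ≥0∞) ≤ haar {κ | occ m κ 0} + 4⁻¹ := by
    rw [← h3]
    gcongr
    exact h2
  have h5 : (3 / 4 : ℝ≥0∞) + 4⁻¹ = 1 := by
    rw [ENNReal.div_eq_inv_mul, ← mul_add_one]
    have : (3 : ℝ≥0∞) + 1 = 4 := by norm_num
    rw [this, ENNReal.inv_mul_cancel (by norm_num) (by norm_num)]
  rw [← h5] at h4
  exact (ENNReal.add_le_add_iff_right (by finiteness)).1 h4

/-- the left side of condition (T) -/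
noncomputable def tailT (Q : Measure Conf) (e : ℤ × ℤ) (N : ℕ) : ℝ≥0∞ :=
  (∑' k : ℕ, if N ≤ k then (k : ℝ≥0∞) * palm Q {ω | gap e ω = k} else 0)
    / ∫⁻ ω, (gap e ω : ℝ≥0∞) ∂(palm Q)

lemma tail_ge (h : Adm m) (j : ℕ) {e : ℤ × ℤ} (he : e.1 + e.2 = 1) :
    ((2 : ℝ≥0∞) ^ (j + 4))⁻¹ ≤ tailT (Qm m) e (Nn m j) := by
  have h1 : ∫⁻ ω, (gap e ω : ℝ≥0∞) ∂(palm (Qm m)) ≤ (3 / 4)⁻¹ :=
    (kac_le (ergodic_shift (m := m) e he).toMeasurePreserving).trans
      (ENNReal.inv_le_inv.2 (density_ge h))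
  have h2 : ((Nn m j : ℕ) : ℝ≥0∞) * ((7 / 8 : ℝ≥0∞) * ((2 : ℝ≥0∞) ^ m j)⁻¹)
      ≤ ∑' k : ℕ, if Nn m j ≤ k then (k : ℝ≥0∞) * palm (Qm m) {ω | gap e ω = k} else 0 := by
    refine (mul_le_mul_right (palm_gap_ge h j he) _).trans ?_
    have e1 : {ω : Conf | Nn m j ≤ gap e ω} ⊆ ⋃ k : ℕ, {ω | Nn m j ≤ k ∧ gap e ω = k} := by
      intro ω hω
      rw [Set.mem_iUnion]
      exact ⟨gap e ω, hω, rfl⟩
    refine (mul_le_mul_right ((measure_mono e1).trans (measure_iUnion_le _)) _).trans ?_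
    rw [← ENNReal.tsum_mul_left]
    apply ENNReal.tsum_le_tsum
    intro k
    split_ifs with hk
    · apply mul_le_mul'
      · exact_mod_cast hk
      · exact measure_mono fun ω hω => hω.2
    · have : {ω : Conf | Nn m j ≤ k ∧ gap e ω = k} = ∅ := by
        ext ω
        simp [hk]
      rw [this]
      simp
  unfold tailT
  rw [div_eq_mul_inv]
  have h3 : (3 / 4 : ℝ≥0∞) ≤ (∫⁻ ω, (gap e ω : ℝ≥0∞) ∂(palm (Qm m)))⁻¹ := by
    have := ENNReal.inv_le_inv.2 h1
    rwa [inv_inv] at this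
  refine le_trans ?_ (mul_le_mul' h2 h3)
  have h4 : ((Nn m j : ℕ) : ℝ≥0∞) * ((7 / 8 : ℝ≥0∞) * ((2 : ℝ≥0∞) ^ m j)⁻¹) * (3 / 4)
      = (7 / 8 * (3 / 4)) * ((2 : ℝ≥0∞) ^ (j + 3))⁻¹ := by
    rw [← Nn_div h]; ring
  rw [h4]
  have h5 : ((2 : ℝ≥0∞) ^ (j + 4))⁻¹ = 2⁻¹ * ((2 : ℝ≥0∞) ^ (j + 3))⁻¹ := by
    rw [pow_succ, ENNReal.mul_inv (Or.inl (by positivity)) (Or.inl (by finiteness)), mul_comm]
  rw [h5]
  gcongr
  have h6 : (7 / 8 * (3 / 4) : ℝ≥0∞) = ENNReal.ofReal (21 / 32) := by
    rw [← ENNReal.ofReal_ofNat 7, ← ENNReal.ofReal_ofNat 8, ← ENNReal.ofReal_ofNat 3,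
      ← ENNReal.ofReal_ofNat 4, ← ENNReal.ofReal_div_of_pos (by norm_num),
      ← ENNReal.ofReal_div_of_pos (by norm_num), ← ENNReal.ofReal_mul (by norm_num)]
    congr 1
    norm_num
  have h7 : (2⁻¹ : ℝ≥0∞) = ENNReal.ofReal (1 / 2) := by
    rw [one_div, ENNReal.ofReal_inv_of_pos (by norm_num)]
    norm_num
  rw [h6, h7]
  apply ENNReal.ofReal_le_ofReal
  norm_num

end Q293.Anti
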