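import Pool.Agent.Q293.DPPGaps

/-!
# Transience: the Green function as an integral
-/

set_option autoImplicit false
set_option linter.unusedSectionVars false

open MeasureTheory Filter Topology Q293.Odo Q293.DPP
open scoped ENNReal

namespace Q293.Anti

variable {m : ℕ → ℕ} {κ : ℤ_[2]}

/-- real averaging operator on the plane -/
noncomputable def opR (st : ℤ × ℤ → Dir → ℤ × ℤ) (h : ℤ × ℤ → ℝ) (v : ℤ × ℤ) : ℝ :=
  (∑ a : Dir, h (st v a)) / 4

lemma opR_nonneg (st : ℤ × ℤ → Dir → ℤ × ℤ) {h : ℤ × ℤ → ℝ} (hh : ∀ v, 0 ≤ h v) (n : ℕ) :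
    ∀ v, 0 ≤ (opR st)^[n] h v := by
  induction n with
  | zero => exact hh
  | succ n ih =>
    intro v
    rw [Function.iterate_succ_apply', opR]
    exact div_nonneg (Finset.sum_nonneg fun a _ => ih _) (by norm_num)

lemma opE_ofReal (st : ℤ × ℤ → Dir → ℤ × ℤ) {h : ℤ × ℤ → ℝ} (hh : ∀ v, 0 ≤ h v) (n : ℕ) :
    ∀ v, (opE st)^[n] (fun v => ENNReal.ofReal (h v)) v = ENNReal.ofReal ((opR st)^[n] h v) := by
  induction n with
  | zero => intro v; rfl
  | succ n ih =>
    intro v
    rw [Function.iterate_succ_apply', Function.iterate_succ_apply', opE, opR]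
    simp only [ih]
    rw [← ENNReal.ofReal_sum_of_nonneg fun a _ => opR_nonneg st hh n _, div_eq_inv_mul,
      ENNReal.ofReal_mul (by norm_num)]
    congr 1
    rw [ENNReal.ofReal_inv_of_pos (by norm_num)]
    norm_num

lemma step_tt (v : ℤ × ℤ) : step (Phi m κ) v (true, true) = (v.1 + gp m κ (v.1 + v.2), v.2) := by
  unfold step
  rw [gap_pos_dir κ v (vec (true, true)) (by simp [vec])]
  ext <;> simp [vec]

lemma step_ft (v : ℤ × ℤ) : step (Phi m κ) v (false, true) = (v.1, v.2 + gp m κ (v.1 + v.2)) := by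
  unfold step
  rw [gap_pos_dir κ v (vec (false, true)) (by simp [vec])]
  ext <;> simp [vec]

lemma step_tf (v : ℤ × ℤ) : step (Phi m κ) v (true, false) = (v.1 - gm m κ (v.1 + v.2), v.2) := by
  unfold step
  rw [gap_neg_dir κ v (vec (true, false)) (by simp [vec])]
  ext
  · simp [vec]; ring
  · simp [vec]

lemma step_ff (v : ℤ × ℤ) : step (Phi m κ) v (false, false) = (v.1, v.2 - gm m κ (v.1 + v.2)) := by
  unfold step
  rw [gap_neg_dir κ v (vec (false, false)) (by simp [vec])]
  ext
  · simp [vec]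
  · simp [vec]; ring

lemma opR_eq (h : ℤ × ℤ → ℝ) (v : ℤ × ℤ) : opR (step (Phi m κ)) h v
    = (h (v.1 + gp m κ (v.1 + v.2), v.2) + h (v.1, v.2 + gp m κ (v.1 + v.2))
      + h (v.1 - gm m κ (v.1 + v.2), v.2) + h (v.1, v.2 - gm m κ (v.1 + v.2))) / 4 := by
  unfold opR
  rw [Fintype.sum_prod_type]
  simp only [Fintype.sum_bool, step_tt, step_ft, step_tf, step_ff]
  ring

lemma cont_qs (n : ℕ) : ∀ s : ℤ, Continuous fun θ : ℝ => (qs m κ θ)^[n] dl s := by
  induction n with
  | zero => intro s; exact continuous_const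
  | succ n ih =>
    intro s
    simp only [Function.iterate_succ_apply', qs]
    have h1 := ih (s + gp m κ s)
    have h2 := ih (s - gm m κ s)
    fun_prop

/-- integral representation -/
lemma repr (n : ℕ) : ∀ v : ℤ × ℤ, (opR (step (Phi m κ)))^[n] (fun v => if v = 0 then 1 else 0) v
    = (2 / Real.pi) * ∫ θ in (0 : ℝ)..(Real.pi / 2),
      Real.cos (θ * ((v.1 : ℝ) - v.2)) * (qs m κ θ)^[n] dl (v.1 + v.2) := by
  induction n with
  | zero =>
    intro v
    simp only [Function.iterate_zero, id]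
    by_cases hs : v.1 + v.2 = 0
    · have h1 : dl (v.1 + v.2) = 1 := by unfold dl; rw [if_pos hs]
      simp only [h1, mul_one]
      have h2 : (v.1 : ℝ) - v.2 = 2 * v.1 := by
        have : (v.1 : ℝ) + v.2 = 0 := by exact_mod_cast hs
        linarith
      rw [h2]
      by_cases hx : v.1 = 0
      · have hv : v = 0 := by
          ext
          · exact hx
          · simp only [Prod.snd_zero]; omega
        rw [if_pos hv, hx]
        simp
      · have hv : v ≠ 0 := by rintro rfl; exact hx rfl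
        rw [if_neg hv]
        have hx' : (2 * (v.1 : ℝ)) ≠ 0 := by
          have : (v.1 : ℝ) ≠ 0 := by exact_mod_cast hx
          positivity
        rw [intervalIntegral.integral_comp_mul_right (fun θ => Real.cos θ) hx', integral_cos]
        have : Real.pi / 2 * (2 * (v.1 : ℝ)) = v.1 * Real.pi := by ring
        rw [this, Real.sin_int_mul_pi]
        simp
    · have h1 : dl (v.1 + v.2) = 0 := by unfold dl; rw [if_neg hs]
      have hv : v ≠ 0 := by rintro rfl; exact hs rfl
      rw [if_neg hv]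
      simp [h1]
  | succ n ih =>
    intro v
    rw [Function.iterate_succ_apply', opR_eq]
    simp only [ih]
    have hint : ∀ (c : ℝ) (s : ℤ), IntervalIntegrable
        (fun θ => Real.cos (θ * c) * (qs m κ θ)^[n] dl s) volume 0 (Real.pi / 2) := by
      intro c s
      have h1 := cont_qs (m := m) (κ := κ) n s
      exact Continuous.intervalIntegrable (by fun_prop) _ _
    rw [← mul_add, ← mul_add, ← mul_add,
      ← intervalIntegral.integral_add (hint _ _) (hint _ _),
      ← intervalIntegral.integral_add ((hint _ _).add (hint _ _)) (hint _ _),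
      ← intervalIntegral.integral_add (((hint _ _).add (hint _ _)).add (hint _ _)) (hint _ _),
      mul_div_assoc, ← intervalIntegral.integral_div]
    congr 1
    apply intervalIntegral.integral_congr
    intro θ _
    simp only [Function.iterate_succ_apply', qs]
    have e1 : v.1 + (gp m κ (v.1 + v.2) : ℤ) + v.2 = v.1 + v.2 + gp m κ (v.1 + v.2) := by ring
    have e2 : v.1 + (v.2 + (gp m κ (v.1 + v.2) : ℤ)) = v.1 + v.2 + gp m κ (v.1 + v.2) := by ring
    have e3 : v.1 - (gm m κ (v.1 + v.2) : ℤ) + v.2 = v.1 + v.2 - gm m κ (v.1 + v.2) := by ring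
    have e4 : v.1 + (v.2 - (gm m κ (v.1 + v.2) : ℤ)) = v.1 + v.2 - gm m κ (v.1 + v.2) := by ring
    rw [e1, e2, e3, e4]
    push_cast
    generalize (qs m κ θ)^[n] dl (v.1 + v.2 + gp m κ (v.1 + v.2)) = F
    generalize (qs m κ θ)^[n] dl (v.1 + v.2 - gm m κ (v.1 + v.2)) = F'
    have t1 : θ * ((v.1 : ℝ) + gp m κ (v.1 + v.2) - v.2)
        = θ * ((v.1 : ℝ) - v.2) + θ * gp m κ (v.1 + v.2) := by ring
    have t2 : θ * ((v.1 : ℝ) - (v.2 + gp m κ (v.1 + v.2)))
        = θ * ((v.1 : ℝ) - v.2) - θ * gp m κ (v.1 + v.2) := by ring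
    have t3 : θ * ((v.1 : ℝ) - gm m κ (v.1 + v.2) - v.2)
        = θ * ((v.1 : ℝ) - v.2) - θ * gm m κ (v.1 + v.2) := by ring
    have t4 : θ * ((v.1 : ℝ) - (v.2 - gm m κ (v.1 + v.2)))
        = θ * ((v.1 : ℝ) - v.2) + θ * gm m κ (v.1 + v.2) := by ring
    rw [t1, t2, t3, t4, Real.cos_add, Real.cos_sub, Real.cos_add, Real.cos_sub]
    ring

/-- return probabilities are bounded by an integral -/
lemma ret_le (N : ℕ) :
    ∑ n ∈ Finset.range N, (opR (step (Phi m κ)))^[n] (fun v => if v = 0 then 1 else 0) 0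
      ≤ (2 / Real.pi) * ∫ θ in (0 : ℝ)..(Real.pi / 2),
        ∑ n ∈ Finset.range N, |(qs m κ θ)^[n] dl 0| := by
  rw [intervalIntegral.integral_finsetSum, Finset.mul_sum]
  · apply Finset.sum_le_sum
    intro n _
    rw [repr]
    simp only [Prod.fst_zero, Prod.snd_zero, Int.cast_zero, sub_self, mul_zero, Real.cos_zero,
      one_mul, add_zero]
    have hpi := Real.pi_pos
    apply mul_le_mul_of_nonneg_left _ (by positivity)
    apply intervalIntegral.integral_mono (by positivity)
    · exact (cont_qs n 0).intervalIntegrable _ _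
    · exact (cont_qs n 0).abs.intervalIntegrable _ _
    · intro θ; exact le_abs_self _
  · intro n _
    exact (cont_qs n 0).abs.intervalIntegrable _ _

/-- the bound as a lower integral -/
lemma green_le_lintegral :
    ∑' n, (opE (step (Phi m κ)))^[n] (Set.indicator {0} 1) 0
      ≤ ENNReal.ofReal (2 / Real.pi) * ⨆ N : ℕ, ∫⁻ θ in Set.Ioc (0 : ℝ) (Real.pi / 2),
        ENNReal.ofReal (∑ n ∈ Finset.range N, |(qs m κ θ)^[n] dl 0|) := by
  rw [ENNReal.tsum_eq_iSup_nat]
  apply iSup_le
  intro N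
  have hind : (Set.indicator {0} 1 : ℤ × ℤ → ℝ≥0∞)
      = fun v => ENNReal.ofReal ((fun v : ℤ × ℤ => if v = 0 then (1 : ℝ) else 0) v) := by
    funext v
    by_cases hv : v = 0
    · rw [Set.indicator_of_mem (by exact hv), hv]; simp
    · rw [Set.indicator_of_notMem (by exact hv)]; simp [hv]
  have h0 : ∀ v : ℤ × ℤ, (0 : ℝ) ≤ (fun v : ℤ × ℤ => if v = 0 then (1 : ℝ) else 0) v := by
    intro v; simp only; split_ifs <;> norm_num
  rw [hind]
  simp only [opE_ofReal _ h0]
  rw [← ENNReal.ofReal_sum_of_nonneg fun n _ => opR_nonneg _ h0 n 0]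
  refine (ENNReal.ofReal_le_ofReal (ret_le N)).trans ?_
  have hpi := Real.pi_pos
  rw [ENNReal.ofReal_mul (by positivity)]
  gcongr
  refine le_trans ?_ (le_iSup _ N)
  rw [intervalIntegral.integral_of_le (by positivity), ofReal_integral_eq_lintegral_ofReal]
  · have hc : Continuous fun θ : ℝ => ∑ n ∈ Finset.range N, |(qs m κ θ)^[n] dl 0| :=
      continuous_finsetSum _ fun n _ => (cont_qs n 0).abs
    exact (hc.integrableOn_Icc).mono_set Set.Ioc_subset_Icc_self
  · exact Filter.Eventually.of_forall fun θ => Finset.sum_nonneg fun n _ => abs_nonneg _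

end Q293.Anti
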