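import Pool.Agent.Q293.HistWalk

/-!
# Directed edge reinforced random walk with polynomial reinforcement
-/

set_option autoImplicit false

open MeasureTheory Filter Topology

namespace Q293.DirReinf

variable {V : Type} [DecidableEq V]

/-- net number of crossings from `x` to `y` before time `n` -/
def cross (s : ℕ → V) (n : ℕ) (x y : V) : ℤ :=
  ∑ k ∈ Finset.range n, ((if s k = x ∧ s (k + 1) = y then (1 : ℤ) else 0)
    - (if s k = y ∧ s (k + 1) = x then 1 else 0))

/-- polynomial reinforcement -/
noncomputable def weight (γ : ℝ) (c : ℤ) : ℝ :=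
  if 0 < c then (c : ℝ) ^ γ else if c = 0 then 1 else (-(c : ℝ)) ^ (-γ)

/-- probability of the step from `s n` to `s (n+1)` given the past -/
noncomputable def trans (G : SimpleGraph V) [G.LocallyFinite] [DecidableRel G.Adj] (γ : ℝ)
    (s : ℕ → V) (n : ℕ) : ℝ :=
  if G.Adj (s n) (s (n + 1)) then
    weight γ (cross s n (s n) (s (n + 1))) / ∑ y ∈ G.neighborFinset (s n),
      weight γ (cross s n (s n) y)
  else 0

lemma weight_pos (γ : ℝ) (c : ℤ) : 0 < weight γ c := by
  unfold weight
  split_ifs with h1 h2
  · exact Real.rpow_pos_of_pos (by exact_mod_cast h1) _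
  · norm_num
  · apply Real.rpow_pos_of_pos
    have : c < 0 := by omega
    have : (c : ℝ) < 0 := by exact_mod_cast this
    linarith

lemma weight_le (γ : ℝ) (hγ : 0 < γ) (c : ℤ) (n : ℕ) (hn : 1 ≤ n) (hc : |c| ≤ n) :
    weight γ c ≤ (n : ℝ) ^ γ := by
  have hn' : (1 : ℝ) ≤ n := by exact_mod_cast hn
  have h1 : (1 : ℝ) ≤ (n : ℝ) ^ γ := Real.one_le_rpow hn' hγ.le
  unfold weight
  split_ifs with h2 h3
  · apply Real.rpow_le_rpow (by exact_mod_cast h2.le) _ hγ.le
    have := le_trans (le_abs_self c) hc
    exact_mod_cast this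
  · exact h1
  · refine le_trans ?_ h1
    apply Real.rpow_le_one_of_one_le_of_nonpos
    · have : (1 : ℤ) ≤ -c := by omega
      exact_mod_cast this
    · linarith

lemma le_weight (γ : ℝ) (hγ : 0 < γ) (c : ℤ) (n : ℕ) (hn : 1 ≤ n) (hc : |c| ≤ n) :
    (n : ℝ) ^ (-γ) ≤ weight γ c := by
  have hn' : (1 : ℝ) ≤ n := by exact_mod_cast hn
  have h1 : (n : ℝ) ^ (-γ) ≤ 1 := Real.rpow_le_one_of_one_le_of_nonpos hn' (by linarith)
  unfold weight
  split_ifs with h2 h3
  · refine h1.trans (Real.one_le_rpow ?_ hγ.le)
    have : (1 : ℤ) ≤ c := by omega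
    exact_mod_cast this
  · exact h1
  · apply Real.rpow_le_rpow_of_nonpos _ _ (by linarith)
    · have : c < 0 := by omega
      have : (c : ℝ) < 0 := by exact_mod_cast this
      linarith
    · have h4 := le_trans (neg_le_abs c) hc
      exact_mod_cast h4

lemma abs_cross_le (s : ℕ → V) (n : ℕ) (x y : V) : |cross s n x y| ≤ n := by
  unfold cross
  refine (Finset.abs_sum_le_sum_abs _ _).trans ?_
  calc ∑ k ∈ Finset.range n, |(if s k = x ∧ s (k + 1) = y then (1 : ℤ) else 0)
        - (if s k = y ∧ s (k + 1) = x then 1 else 0)| ≤ ∑ _k ∈ Finset.range n, (1 : ℤ) := by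
        apply Finset.sum_le_sum
        intro k _
        split_ifs <;> simp
    _ = n := by simp

variable (G : SimpleGraph V) [G.LocallyFinite] [DecidableRel G.Adj] (γ : ℝ)

lemma trans_nonneg (s : ℕ → V) (n : ℕ) : 0 ≤ trans G γ s n := by
  unfold trans
  split_ifs
  · exact div_nonneg (weight_pos _ _).le (Finset.sum_nonneg fun y _ => (weight_pos _ _).le)
  · exact le_rfl

/-- a competing neighbour bounds the transition probability away from one -/
lemma trans_le (s : ℕ → V) (n : ℕ) (y : V) (hy : G.Adj (s n) y) (hne : y ≠ s (n + 1)) :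
    trans G γ s n ≤ 1 / (1 + weight γ (cross s n (s n) y) /
      weight γ (cross s n (s n) (s (n + 1)))) := by
  unfold trans
  have ha := weight_pos γ (cross s n (s n) (s (n + 1)))
  have hb := weight_pos γ (cross s n (s n) y)
  split_ifs with h
  · have h1 : weight γ (cross s n (s n) (s (n + 1))) + weight γ (cross s n (s n) y)
        ≤ ∑ z ∈ G.neighborFinset (s n), weight γ (cross s n (s n) z) := by
      have h2 : ({s (n + 1), y} : Finset V) ⊆ G.neighborFinset (s n) := by
        intro z hz
        rw [Finset.mem_insert, Finset.mem_singleton] at hz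
        rw [SimpleGraph.mem_neighborFinset]
        rcases hz with rfl | rfl
        · exact h
        · exact hy
      have h3 := Finset.sum_le_sum_of_subset_of_nonneg (f := fun z => weight γ (cross s n (s n) z))
        h2 (fun z _ _ => (weight_pos _ _).le)
      rwa [Finset.sum_pair hne.symm] at h3
    have h4 : 1 / (1 + weight γ (cross s n (s n) y) / weight γ (cross s n (s n) (s (n + 1))))
        = weight γ (cross s n (s n) (s (n + 1))) /
          (weight γ (cross s n (s n) (s (n + 1))) + weight γ (cross s n (s n) y)) := by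
      field_simp
    rw [h4]
    exact div_le_div_of_nonneg_left ha.le (by positivity) h1
  · positivity

/-- the sequence runs around a directed circuit from some time on -/
def Trapped (s : ℕ → V) : Prop :=
  ∃ (m : ℕ) (u : ZMod m → V), 3 ≤ m ∧ Function.Injective u ∧ (∀ i, G.Adj (u i) (u (i + 1))) ∧
    ∃ (N : ℕ) (i : ZMod m), ∀ j : ℕ, s (N + j) = u (i + j)

omit [DecidableEq V] [G.LocallyFinite] [DecidableRel G.Adj] in
lemma countable_trapped [Countable V] : {s : ℕ → V | Trapped G s}.Countable := by
  refine (HistWalk.countable_periodic (V := V)).mono ?_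
  rintro s ⟨m, u, hm, _, _, N, i, hs⟩
  refine ⟨N, m, by omega, fun n hn => ?_⟩
  obtain ⟨j, rfl⟩ := Nat.exists_eq_add_of_le hn
  rw [add_assoc, hs, hs]
  push_cast
  rw [ZMod.natCast_self, add_zero]

lemma zmod_one_ne (m : ℕ) (hm : 3 ≤ m) (i : ZMod m) : i - 1 ≠ i + 1 := by
  intro h
  have h1 : ((2 : ℕ) : ZMod m) = 0 := by
    have : (i + 1) - (i - 1) = 0 := by rw [h, sub_self]
    push_cast
    linear_combination this
  rw [ZMod.natCast_eq_zero_iff] at h1
  have := Nat.le_of_dvd (by norm_num) h1
  omega

/-- small exponents: every trapped trajectory has probability zero -/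
lemma tendsto_small (hγ : 0 < γ) (hγ2 : γ ≤ 1 / 2) (s : ℕ → V) (hs : Trapped G s) :
    Tendsto (fun n => ∏ k ∈ Finset.range n, trans G γ s k) atTop (𝓝 0) := by
  obtain ⟨m, u, hm, hinj, hadj, N, i, hs⟩ := hs
  set x : ℕ → ℝ := fun k => if N + 1 ≤ k then (k : ℝ) ^ (-(2 * γ)) else 0 with hx
  apply HistWalk.prod_tendsto_zero _ x (trans_nonneg G γ s)
  · intro k
    rw [hx]
    dsimp only
    split_ifs
    · positivity
    · exact le_rfl
  · intro k
    rw [hx]
    dsimp only
    split_ifs with hk
    · obtain ⟨j, rfl⟩ := Nat.exists_eq_add_of_le (by omega : N ≤ k)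
      have hk1 : 1 ≤ N + j := by omega
      have e0 : s (N + j) = u (i + j) := hs j
      have e1 : s (N + j + 1) = u (i + j + 1) := by
        have := hs (j + 1)
        rw [← add_assoc] at this
        rw [this]; push_cast; rw [add_assoc]
      have hback : G.Adj (s (N + j)) (u (i + j - 1)) := by
        rw [e0]
        have := hadj (i + j - 1)
        rw [sub_add_cancel] at this
        exact this.symm
      have hne : u (i + j - 1) ≠ s (N + j + 1) := by
        rw [e1]
        intro h
        exact zmod_one_ne m hm _ (hinj h)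
      refine (trans_le G γ s (N + j) _ hback hne).trans ?_
      apply one_div_le_one_div_of_le (by positivity)
      gcongr
      have hn0 : (0 : ℝ) < ((N + j : ℕ) : ℝ) := by exact_mod_cast hk1
      have h1 := weight_le γ hγ _ (N + j) hk1 (abs_cross_le s (N + j) (s (N + j)) (s (N + j + 1)))
      have h2 := le_weight γ hγ _ (N + j) hk1 (abs_cross_le s (N + j) (s (N + j)) (u (i + j - 1)))
      have h3 : ((N + j : ℕ) : ℝ) ^ (-(2 * γ)) = ((N + j : ℕ) : ℝ) ^ (-γ) / ((N + j : ℕ) : ℝ) ^ γ := by
        rw [← Real.rpow_sub hn0]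
        congr 1; ring
      rw [h3]
      exact div_le_div₀ (weight_pos _ _).le h2 (weight_pos _ _) h1
    · simp only [add_zero, div_one]
      unfold trans
      split_ifs with h
      · apply div_le_one_of_le₀ _ (Finset.sum_nonneg fun y _ => (weight_pos _ _).le)
        exact Finset.single_le_sum (f := fun z => weight γ (cross s k (s k) z))
          (fun z _ => (weight_pos _ _).le) ((SimpleGraph.mem_neighborFinset _ _ _).2 h)
      · norm_num
  · intro hsum
    have h1 := (summable_nat_add_iff (N + 1)).2 hsum
    have h2 : Summable fun k : ℕ => (1 : ℝ) / ((k + (N + 1) : ℕ) : ℝ) := by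
      refine Summable.of_nonneg_of_le (fun k => by positivity) (fun k => ?_) h1
      rw [hx]
      dsimp only
      rw [if_pos (by omega), one_div, ← Real.rpow_neg_one]
      apply Real.rpow_le_rpow_of_exponent_le
      · have : 1 ≤ k + (N + 1) := by omega
        exact_mod_cast this
      · linarith
    exact Real.not_summable_one_div_natCast ((summable_nat_add_iff (N + 1)).1 h2)

/-- exponents up to one: a third neighbour at some vertex of the circuit suffices -/
lemma tendsto_third (hγ : 0 < γ) (hγ1 : γ ≤ 1) (s : ℕ → V) (m : ℕ) (u : ZMod m → V) (hm : 3 ≤ m)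
    (hinj : Function.Injective u) (N : ℕ) (i : ZMod m)
    (hs : ∀ j : ℕ, s (N + j) = u (i + j)) (a : ZMod m) (y : V) (hy : G.Adj (u a) y)
    (hy1 : y ≠ u (a + 1)) (hy2 : y ≠ u (a - 1)) :
    Tendsto (fun n => ∏ k ∈ Finset.range n, trans G γ s k) atTop (𝓝 0) := by
  have : NeZero m := ⟨by omega⟩
  -- the frozen weight
  have hconst : ∀ n, cross s (N + n) (u a) y = cross s N (u a) y := by
    intro n
    induction n with
    | zero => rfl
    | succ n ih =>
      rw [← ih]
      unfold cross
      rw [← add_assoc, Finset.sum_range_succ]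
      have e0 : s (N + n) = u (i + n) := hs n
      have e1 : s (N + n + 1) = u (i + n + 1) := by
        have := hs (n + 1)
        rw [← add_assoc] at this
        rw [this]; push_cast; rw [add_assoc]
      have h1 : ¬ (s (N + n) = u a ∧ s (N + n + 1) = y) := by
        rintro ⟨h, h'⟩
        rw [e0] at h
        have h2 := hinj h
        rw [e1, h2] at h'
        exact hy1 h'.symm
      have h2 : ¬ (s (N + n) = y ∧ s (N + n + 1) = u a) := by
        rintro ⟨h, h'⟩
        rw [e1] at h'
        have h3 := hinj h'
        rw [e0] at h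
        have h4 : i + n = a - 1 := by rw [← h3]; ring
        rw [h4] at h
        exact hy2 h.symm
      rw [if_neg h1, if_neg h2, sub_zero, add_zero]
  set w := weight γ (cross s N (u a) y) with hw
  have hw0 : 0 < w := weight_pos _ _
  -- times of visit
  set j0 : ℕ := (a - i).val with hj0
  have hj0' : ((j0 : ℕ) : ZMod m) = a - i := by rw [hj0]; exact ZMod.natCast_zmod_val _
  set x : ℕ → ℝ := fun k => if N + 1 ≤ k ∧ s k = u a then w * (k : ℝ) ^ (-γ) else 0 with hx
  apply HistWalk.prod_tendsto_zero _ x (trans_nonneg G γ s)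
  · intro k
    rw [hx]
    dsimp only
    split_ifs
    · positivity
    · exact le_rfl
  · intro k
    rw [hx]
    dsimp only
    split_ifs with hk
    · obtain ⟨hk1, hk2⟩ := hk
      obtain ⟨j, rfl⟩ := Nat.exists_eq_add_of_le (by omega : N ≤ k)
      have hk1 : 1 ≤ N + j := by omega
      have e0 : s (N + j) = u (i + j) := hs j
      have e1 : s (N + j + 1) = u (a + 1) := by
        have := hs (j + 1)
        rw [← add_assoc] at this
        rw [this]
        rw [e0] at hk2
        have h2 := hinj hk2
        rw [← h2]; push_cast; rw [add_assoc]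
      have hadjy : G.Adj (s (N + j)) y := by rw [hk2]; exact hy
      have hne : y ≠ s (N + j + 1) := by rw [e1]; exact hy1
      refine (trans_le G γ s (N + j) _ hadjy hne).trans ?_
      apply one_div_le_one_div_of_le (by positivity)
      gcongr
      have hn0 : (0 : ℝ) < ((N + j : ℕ) : ℝ) := by exact_mod_cast hk1
      have h1 := weight_le γ hγ _ (N + j) hk1 (abs_cross_le s (N + j) (s (N + j)) (s (N + j + 1)))
      have h2 : weight γ (cross s (N + j) (s (N + j)) y) = w := by
        rw [hk2, hconst j]
      rw [h2, Real.rpow_neg hn0.le, ← div_eq_mul_inv]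
      exact div_le_div_of_nonneg_left hw0.le (weight_pos _ _) h1
    · simp only [add_zero, div_one]
      unfold trans
      split_ifs with h
      · apply div_le_one_of_le₀ _ (Finset.sum_nonneg fun y _ => (weight_pos _ _).le)
        exact Finset.single_le_sum (f := fun z => weight γ (cross s k (s k) z))
          (fun z _ => (weight_pos _ _).le) ((SimpleGraph.mem_neighborFinset _ _ _).2 h)
      · norm_num
  · intro hsum
    have hinj2 : Function.Injective fun t : ℕ => N + (j0 + m * (t + 1)) := by
      intro t t' h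
      simp only at h
      have h1 : m * (t + 1) = m * (t' + 1) := by omega
      have h2 := Nat.eq_of_mul_eq_mul_left (by omega) h1
      omega
    have h1 := hsum.comp_injective hinj2
    have h2 : Summable fun t : ℕ => w * ((1 : ℝ) / ((N + j0 + m : ℕ) * (t + 1 : ℕ))) := by
      refine Summable.of_nonneg_of_le (fun k => by positivity) (fun t => ?_) h1
      rw [hx]
      simp only [Function.comp]
      have hvis : s (N + (j0 + m * (t + 1))) = u a := by
        rw [hs]
        congr 1
        push_cast
        rw [hj0', ZMod.natCast_self]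
        ring
      have hge : N + 1 ≤ N + (j0 + m * (t + 1)) := by
        have : m * 1 ≤ m * (t + 1) := Nat.mul_le_mul_left m (by omega)
        omega
      rw [if_pos ⟨hge, hvis⟩]
      apply mul_le_mul_of_nonneg_left _ hw0.le
      have hK : N + (j0 + m * (t + 1)) ≤ (N + j0 + m) * (t + 1) := by nlinarith
      have hK1 : 1 ≤ N + (j0 + m * (t + 1)) := by omega
      calc (1 : ℝ) / ((N + j0 + m : ℕ) * (t + 1 : ℕ)) ≤ 1 / ((N + (j0 + m * (t + 1)) : ℕ) : ℝ) := by
            apply one_div_le_one_div_of_le
            · exact_mod_cast hK1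
            · exact_mod_cast hK
        _ = ((N + (j0 + m * (t + 1)) : ℕ) : ℝ) ^ (-1 : ℝ) := by
            rw [one_div, Real.rpow_neg_one]
        _ ≤ ((N + (j0 + m * (t + 1)) : ℕ) : ℝ) ^ (-γ) := by
            apply Real.rpow_le_rpow_of_exponent_le
            · exact_mod_cast hK1
            · linarith
    have h3 : Summable fun t : ℕ => (1 : ℝ) / ((t + 1 : ℕ) : ℝ) := by
      have hpos : (0 : ℝ) < ((N + j0 + m : ℕ) : ℝ) := by
        have : 0 < N + j0 + m := by omega
        exact_mod_cast this
      refine (h2.mul_left (w⁻¹ * ((N + j0 + m : ℕ) : ℝ))).congr fun t => ?_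
      field_simp
    exact Real.not_summable_one_div_natCast ((summable_nat_add_iff 1).1 h3)

end Q293.DirReinf
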