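import Pool.Agent.H582AR.Gen
import Pool.Agent.Q293.ARDefs

/-!
# A heavy-tailed walk on the direct sum of countably many copies of the integers
-/

set_option autoImplicit false

open MeasureTheory Filter Topology

namespace Q293.DirSum

open Pool.Agent.H582AR.Gen

/-- the group -/
abbrev V := ℤ →₀ ℤ

/-- enumeration of the coordinates -/
def en : ℕ ≃ ℤ := Equiv.intEquivNat.symm

/-- the basis vectors -/
noncomputable def ev (k : ℕ) : V := Finsupp.single (en k) 1

/-- the two vectors of level `i` -/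
noncomputable def F (i : ℕ) : Finset V := {ev i, -ev i}

lemma mem_F (i : ℕ) (g : V) : g ∈ F i ↔ g = ev i ∨ g = -ev i := by
  simp [F]

lemma F_nonempty (i : ℕ) : (F i).Nonempty := ⟨ev i, by simp [mem_F]⟩

lemma neg_mem_F (i : ℕ) (g : V) : -g ∈ F i ↔ g ∈ F i := by
  rw [mem_F, mem_F]
  constructor
  · rintro (h | h)
    · right; rw [← h, neg_neg]
    · left; exact neg_injective h
  · rintro (h | h)
    · right; rw [h]
    · left; rw [h, neg_neg]

/-- the vectors with vanishing coordinates from `d` on -/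
def H (d : ℕ) : AddSubgroup V where
  carrier := {v | ∀ k, d ≤ k → v (en k) = 0}
  add_mem' := by
    intro a b ha hb k hk
    rw [Finsupp.add_apply, ha k hk, hb k hk, add_zero]
  zero_mem' := by intro k _; rfl
  neg_mem' := by
    intro a ha k hk
    rw [Finsupp.neg_apply, ha k hk, neg_zero]

lemma mem_H {d : ℕ} {v : V} : v ∈ H d ↔ ∀ k, d ≤ k → v (en k) = 0 := Iff.rfl

lemma H_mono {d e : ℕ} (h : d ≤ e) : H d ≤ H e := fun _ hf i hi => hf i (h.trans hi)

lemma ev_apply (i k : ℕ) : ev i (en k) = if i = k then 1 else 0 := by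
  unfold ev
  rw [Finsupp.single_apply]
  congr 1
  exact propext en.injective.eq_iff

lemma F_apply_ne (i k : ℕ) (h : i ≠ k) (g : V) (hg : g ∈ F i) : g (en k) = 0 := by
  rw [mem_F] at hg
  rcases hg with rfl | rfl
  · rw [ev_apply, if_neg h]
  · rw [Finsupp.neg_apply, ev_apply, if_neg h, neg_zero]

lemma F_apply_sq (i : ℕ) (g : V) (hg : g ∈ F i) : g (en i) * g (en i) = 1 := by
  rw [mem_F] at hg
  rcases hg with rfl | rfl
  · rw [ev_apply, if_pos rfl, mul_one]
  · rw [Finsupp.neg_apply, ev_apply, if_pos rfl]; norm_num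

lemma F_sub_H (i d : ℕ) (h : i < d) (g : V) (hg : g ∈ F i) : g ∈ H d :=
  fun k hk => F_apply_ne i k (by omega) g hg

lemma F_not_H (i d : ℕ) (h : d ≤ i) (g : V) (hg : g ∈ F i) : g ∉ H d := by
  intro hH
  have h1 := F_apply_sq i g hg
  rw [hH i h] at h1
  simp at h1

lemma F_disj (i j : ℕ) (g : V) (hi : g ∈ F i) (hj : g ∈ F j) : i = j := by
  by_contra h
  have h1 := F_apply_sq i g hi
  rw [F_apply_ne j i (Ne.symm h) g hj] at h1
  simp at h1

/-- the law of the steps -/
noncomputable def nu : PMF V :=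
  (tailPMF W2 W2_zero W2_anti W2_lim).bind fun i => PMF.uniformOfFinset (F i) (F_nonempty i)

lemma nu_symm (g : V) : nu (-g) = nu g := by
  unfold nu
  rw [PMF.bind_apply, PMF.bind_apply]
  apply tsum_congr
  intro i
  congr 1
  rw [PMF.uniformOfFinset_apply, PMF.uniformOfFinset_apply]
  by_cases h : g ∈ F i
  · rw [if_pos h, if_pos ((neg_mem_F i g).2 h)]
  · rw [if_neg h, if_neg fun hh => h ((neg_mem_F i g).1 hh)]

lemma nu_support : nu.support = ⋃ i, (F i : Set V) := by
  unfold nu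
  rw [PMF.support_bind]
  have : (tailPMF W2 W2_zero W2_anti W2_lim).support = Set.univ := by
    ext k
    rw [PMF.mem_support_iff, tailPMF_apply]
    simp only [Set.mem_univ, iff_true]
    exact (ENNReal.ofReal_pos.2 (sub_pos.2 (W2_strict k))).ne'
  rw [this]
  simp

lemma nu_closure : AddSubgroup.closure nu.support = ⊤ := by
  rw [nu_support]
  set C := AddSubgroup.closure (⋃ i, (F i : Set V))
  have hg : ∀ z : ℤ, Finsupp.single z 1 ∈ C := fun z => by
    apply AddSubgroup.subset_closure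
    refine Set.mem_iUnion.2 ⟨en.symm z, ?_⟩
    have : ev (en.symm z) = Finsupp.single z 1 := by
      unfold ev; rw [Equiv.apply_symm_apply]
    rw [← this]
    simp [mem_F]
  rw [eq_top_iff]
  intro v _
  induction v using Finsupp.induction_linear with
  | zero => exact C.zero_mem
  | add f g hf hg => exact C.add_mem (hf trivial) (hg trivial)
  | single a b =>
    have h := C.zsmul_mem (hg a) b
    rwa [Finsupp.smul_single, smul_eq_mul, mul_one] at h

/-- partial sums -/
noncomputable def X (ω : ℕ → V) (m : ℕ) : V := ∑ i ∈ Finset.range m, ω i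

/-- level `i` is hit twice before any higher level -/
def Bad (i : ℕ) : Set (ℕ → V) :=
  {ω | ∃ j m, (∀ l < j, ω l ∈ (H i : Set V)) ∧ ω j ∈ (F i : Set V) ∧
    (∀ l < m, ω (j + 1 + l) ∈ (H i : Set V)) ∧ ω (j + 1 + m) ∈ (F i : Set V)}

/-- the semigroup attached to a sequence of signs -/
def P (i0 : ℕ) (ε : ℕ → ℤ) : AddSubsemigroup V where
  carrier := {v | ∃ k, i0 ≤ k ∧ v ∈ H (k + 1) ∧ 0 < ε k * v (en k)}
  add_mem' := by
    rintro a b ⟨k, hk, hak, ha⟩ ⟨l, hl, hbl, hb⟩
    rcases lt_trichotomy k l with h | h | h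
    · refine ⟨l, hl, (H (l + 1)).add_mem (H_mono (by omega) hak) hbl, ?_⟩
      rw [Finsupp.add_apply, hak l h, zero_add]
      exact hb
    · subst h
      refine ⟨k, hk, (H (k + 1)).add_mem hak hbl, ?_⟩
      rw [Finsupp.add_apply, mul_add]
      exact add_pos ha hb
    · refine ⟨k, hk, (H (k + 1)).add_mem hak (H_mono (by omega) hbl), ?_⟩
      rw [Finsupp.add_apply, hbl k h, add_zero]
      exact ha

lemma zero_notMem_P (i0 : ℕ) (ε : ℕ → ℤ) : (0 : V) ∉ P i0 ε := by
  rintro ⟨k, _, _, h⟩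
  simp at h

lemma X_mem_H (ω : ℕ → V) (d m : ℕ) (h : ∀ l < m, ω l ∈ H d) : X ω m ∈ H d :=
  (H d).sum_mem fun l hl => h l (Finset.mem_range.1 hl)

lemma det (ω : ℕ → V) (h : ∀ j, ∃ i, ω j ∈ F i) (i0 : ℕ) (hb : ∀ i, i0 ≤ i → ω ∉ Bad i)
    (j0 : ℕ) (hj : ω j0 ∉ H i0) :
    ∃ ε : ℕ → ℤ, ∀ m, j0 < m → X ω m ∈ P i0 ε := by
  classical
  choose lev hlev using h
  refine ⟨fun k => if hk : ∃ l, lev l = k then (ω (Nat.find hk)) (en k) else 0, ?_⟩
  intro m hm
  set k := (Finset.range m).sup lev with hkdef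
  have hne : (Finset.range m).Nonempty := ⟨j0, Finset.mem_range.2 hm⟩
  obtain ⟨l0, hl0, hl0k⟩ := Finset.exists_mem_eq_sup (Finset.range m) hne lev
  have hex : ∃ l, lev l = k := ⟨l0, hl0k.symm⟩
  have hle : ∀ l < m, lev l ≤ k := fun l hl => Finset.le_sup (Finset.mem_range.2 hl)
  have hi0 : i0 ≤ k := by
    by_contra hlt
    apply hj
    exact F_sub_H (lev j0) i0 (lt_of_le_of_lt (hle j0 hm) (by omega)) _ (hlev j0)
  refine ⟨k, hi0, ?_, ?_⟩
  · apply X_mem_H
    intro l hl
    exact F_sub_H (lev l) (k + 1) (by have := hle l hl; omega) _ (hlev l)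
  · beta_reduce
    rw [dif_pos hex]
    set a := Nat.find hex with ha
    have hak : lev a = k := Nat.find_spec hex
    have hal0 : a ≤ l0 := Nat.find_min' hex hl0k.symm
    have ham : a < m := lt_of_le_of_lt hal0 (Finset.mem_range.1 hl0)
    have huniq : ∀ l < m, lev l = k → l = a := by
      intro l hl hlk
      by_contra hla
      have hal : a < l := lt_of_le_of_ne (Nat.find_min' hex hlk) (Ne.symm hla)
      have hex2 : ∃ b, a < b ∧ lev b = k := ⟨l, hal, hlk⟩
      set b := Nat.find hex2 with hbdef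
      obtain ⟨hab, hbk⟩ := Nat.find_spec hex2
      have hbl : b ≤ l := Nat.find_min' hex2 ⟨hal, hlk⟩
      apply hb k hi0
      refine ⟨a, b - (a + 1), ?_, ?_, ?_, ?_⟩
      · intro c hc
        have h1 : lev c ≠ k := Nat.find_min hex hc
        have h2 := hle c (by omega)
        exact F_sub_H (lev c) k (by omega) _ (hlev c)
      · have := hlev a
        rw [hak] at this
        exact this
      · intro c hc
        have h1 : ¬ (a < a + 1 + c ∧ lev (a + 1 + c) = k) :=
          Nat.find_min hex2 (show a + 1 + c < Nat.find hex2 by rw [← hbdef]; omega)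
        have h2 := hle (a + 1 + c) (by omega)
        have h3 : lev (a + 1 + c) ≠ k := fun h => h1 ⟨by omega, h⟩
        exact F_sub_H (lev (a + 1 + c)) k (by omega) _ (hlev _)
      · have h1 : a + 1 + (b - (a + 1)) = b := by
          have : a < b := hab
          omega
        rw [h1]
        have := hlev b
        rw [hbk] at this
        exact this
    have hsum : X ω m (en k) = ω a (en k) := by
      unfold X
      rw [Finsupp.finsetSum_apply]
      apply Finset.sum_eq_single a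
      · intro l hl hla
        exact F_apply_ne (lev l) k (fun h => hla (huniq l (Finset.mem_range.1 hl) h)) _ (hlev l)
      · intro h
        exact absurd (Finset.mem_range.2 ham) h
    rw [hsum]
    have h2 := F_apply_sq k (ω a) (by have := hlev a; rwa [hak] at this)
    rw [h2]
    exact one_pos

section
variable [MeasurableSpace V] [DiscreteMeasurableSpace V]

lemma unif_of_subset (i : ℕ) (A : Set V) (h : ∀ g ∈ F i, g ∈ A) :
    (PMF.uniformOfFinset (F i) (F_nonempty i)).toMeasure A = 1 := by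
  rw [PMF.toMeasure_apply_eq_one_iff _ MeasurableSet.of_discrete]
  intro g hg
  rw [PMF.support_uniformOfFinset] at hg
  exact h g hg

lemma unif_of_disj (i : ℕ) (A : Set V) (h : ∀ g ∈ F i, g ∉ A) :
    (PMF.uniformOfFinset (F i) (F_nonempty i)).toMeasure A = 0 := by
  rw [PMF.toMeasure_apply_eq_zero_iff _ MeasurableSet.of_discrete]
  rw [Set.disjoint_left]
  intro g hg
  rw [PMF.support_uniformOfFinset] at hg
  exact h g hg

lemma nu_H (d : ℕ) : nu.toMeasure (H d : Set V) = ENNReal.ofReal (1 - W2 d) := by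
  unfold nu
  rw [PMF.toMeasure_bind_apply _ _ _ MeasurableSet.of_discrete,
    ← tailPMF_lt W2 W2_zero W2_anti W2_lim d, PMF.toMeasure_apply _ MeasurableSet.of_discrete]
  apply tsum_congr
  intro i
  by_cases h : i < d
  · rw [unif_of_subset i _ fun g hg => F_sub_H i d h g hg, mul_one,
      Set.indicator_of_mem (show i ∈ {k | k < d} from h)]
  · rw [unif_of_disj i _ fun g hg => F_not_H i d (by omega) g hg, mul_zero,
      Set.indicator_of_notMem (show i ∉ {k | k < d} from h)]

lemma nu_L (d : ℕ) : nu.toMeasure (F d : Set V) = ENNReal.ofReal (W2 d - W2 (d + 1)) := by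
  unfold nu
  rw [PMF.toMeasure_bind_apply _ _ _ MeasurableSet.of_discrete]
  rw [tsum_eq_single d]
  · rw [unif_of_subset d _ fun g hg => hg, mul_one, tailPMF_apply]
  · intro i hi
    rw [unif_of_disj i _ fun g hg hL => hi (F_disj i d g hg hL), mul_zero]

lemma nu_T : nu.toMeasure {g | ∃ i, g ∈ F i} = 1 := by
  rw [PMF.toMeasure_apply_eq_one_iff _ MeasurableSet.of_discrete, nu_support]
  intro g hg
  obtain ⟨i, hi⟩ := Set.mem_iUnion.1 hg
  exact ⟨i, hi⟩

lemma prob_Bad (i : ℕ) :
    Measure.infinitePi (fun _ : ℕ => nu.toMeasure) (Bad i) ≤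
      ENNReal.ofReal ((1 / ((i : ℝ) + 2)) ^ 2) := by
  have hW := W2_pos i
  have hW1 : W2 i ≤ 1 := W2_zero ▸ W2_anti (Nat.zero_le _)
  have hcompl : 1 - nu.toMeasure (H i : Set V) = ENNReal.ofReal (W2 i) := by
    rw [nu_H, ← ENNReal.ofReal_one, ← ENNReal.ofReal_sub _ (by linarith)]
    congr 1; ring
  refine (two_hits _ _ _).trans ?_
  rw [hcompl, nu_L, ENNReal.ofReal_pow (by positivity), ← W2_ratio,
    ENNReal.ofReal_div_of_pos hW, ENNReal.div_eq_inv_mul, mul_comm]

theorem nu_strong : ∀ᵐ ω ∂(Measure.infinitePi (fun _ : ℕ => nu.toMeasure)),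
    ∃ n : ℕ, 1 ≤ n ∧ ∃ (i0 : ℕ) (ε : ℕ → ℤ), ∀ k, n ≤ k → X ω k ∈ P i0 ε := by
  have h1 : ∀ᵐ ω ∂(Measure.infinitePi (fun _ : ℕ => nu.toMeasure)), ∀ j, ∃ i, ω j ∈ F i := by
    rw [ae_all_iff]
    intro j
    have h2 : {ω : ℕ → V | ¬ ∃ i, ω j ∈ F i}
        = (fun ω : ℕ → V => ω j) ⁻¹' {g | ∃ i, g ∈ F i}ᶜ := rfl
    rw [ae_iff, h2, ← Measure.map_apply (measurable_pi_apply j) MeasurableSet.of_discrete,
      Measure.infinitePi_map_eval, prob_compl_eq_one_sub MeasurableSet.of_discrete, nu_T,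
      tsub_self]
  have h2 : ∀ᵐ ω ∂(Measure.infinitePi (fun _ : ℕ => nu.toMeasure)),
      ∀ᶠ i in atTop, ω ∉ Bad i := by
    apply ae_eventually_notMem
    have hs : Summable fun i : ℕ => (1 / ((i : ℝ) + 2)) ^ 2 := by
      have h3 : Summable fun i : ℕ => (1 : ℝ) / ((i : ℝ)) ^ 2 :=
        Real.summable_one_div_nat_pow.2 one_lt_two
      have h4 := (summable_nat_add_iff 2).2 h3
      refine h4.congr fun i => ?_
      push_cast
      rw [div_pow, one_pow]
    refine ne_top_of_le_ne_top ?_ (ENNReal.tsum_le_tsum prob_Bad)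
    rw [← ENNReal.ofReal_tsum_of_nonneg (fun i => by positivity) hs]
    exact ENNReal.ofReal_ne_top
  have h3 : ∀ᵐ ω ∂(Measure.infinitePi (fun _ : ℕ => nu.toMeasure)), ∀ i0, ∃ j, ω j ∉ H i0 := by
    rw [ae_all_iff]
    intro i0
    rw [ae_iff]
    have hlt : nu.toMeasure (H i0 : Set V) < 1 := by
      rw [nu_H, ENNReal.ofReal_lt_one]
      linarith [W2_pos i0]
    have := never nu.toMeasure _ hlt 0
    convert this using 2
    ext ω
    simp
  filter_upwards [h1, h2, h3] with ω hω1 hω2 hω3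
  obtain ⟨i1, hi1⟩ := eventually_atTop.1 hω2
  obtain ⟨j, hj⟩ := hω3 i1
  obtain ⟨ε, hε⟩ := det ω hω1 i1 hi1 j hj
  exact ⟨j + 1, by omega, i1, ε, fun k hk => hε k (by omega)⟩

end

end Q293.DirSum
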