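import Pool.Agent.Q293.DirSumM

/-!
# The generalized dihedral group of the direct sum is algebraically recurrent
-/

set_option autoImplicit false

open MeasureTheory Filter Topology

namespace Q293.AR

open Pool.Agent.H582AR.Gen

/-- every element of the support occurs infinitely often -/
lemma io_support {G : Type} [Countable G] [MeasurableSpace G] [DiscreteMeasurableSpace G]
    (μ : PMF G) : ∀ᵐ ω ∂(steps μ), ∀ g ∈ μ.support, ∀ n : ℕ, ∃ k, n ≤ k ∧ ω k = g := by
  rw [ae_all_iff]
  intro g
  by_cases hg : g ∈ μ.support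
  · have : ∀ᵐ ω ∂(steps μ), ∀ n : ℕ, ∃ k, n ≤ k ∧ ω k = g := by
      rw [ae_all_iff]
      intro n
      rw [ae_iff]
      have hlt : μ.toMeasure ({g}ᶜ : Set G) < 1 := by
        have hpos : 0 < μ.toMeasure ({g} : Set G) := by
          rw [PMF.toMeasure_apply_singleton _ _ (MeasurableSet.of_discrete)]
          exact pos_iff_ne_zero.2 ((PMF.mem_support_iff _ _).1 hg)
        rw [prob_compl_eq_one_sub MeasurableSet.of_discrete]
        exact ENNReal.sub_lt_self ENNReal.one_ne_top one_ne_zero hpos.ne'
      have := never μ.toMeasure _ hlt n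
      unfold steps
      convert this using 2
      ext ω
      simp
    filter_upwards [this] with ω hω _ using hω
  · exact Filter.Eventually.of_forall fun ω h => absurd h hg

/-- a semigroup generated by the tail of the walk which is closed under inverses is everything -/
lemma top_of_inv {G : Type} [Group G] (μ : PMF G) (hgen : Subgroup.closure μ.support = ⊤)
    (ω : ℕ → G) (n : ℕ) (hio : ∀ g ∈ μ.support, ∃ k, n ≤ k ∧ ω k = g)
    (hinv : ∀ x ∈ tail ω n, x⁻¹ ∈ tail ω n) : tail ω n = ⊤ := by
  have hX : ∀ k, n ≤ k → walk ω k ∈ tail ω n := fun k hk =>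
    Subsemigroup.subset_closure ⟨k, hk, rfl⟩
  let T : Subgroup G :=
    { carrier := tail ω n
      mul_mem' := fun ha hb => (tail ω n).mul_mem ha hb
      one_mem' := by
        have h := (tail ω n).mul_mem (hX n le_rfl) (hinv _ (hX n le_rfl))
        rwa [mul_inv_cancel] at h
      inv_mem' := fun ha => hinv _ ha }
  have hT : T = ⊤ := by
    rw [eq_top_iff, ← hgen, Subgroup.closure_le]
    intro g hg
    obtain ⟨k, hk, hki⟩ := hio g hg
    have h3 : (walk ω k)⁻¹ * walk ω (k + 1) ∈ T :=
      T.mul_mem (T.inv_mem (hX k hk)) (hX (k + 1) (by omega))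
    rw [walk_succ, inv_mul_cancel_left, hki] at h3
    exact h3
  rw [eq_top_iff]
  intro x _
  have : x ∈ T := by rw [hT]; exact Subgroup.mem_top x
  exact this

end Q293.AR

namespace Q293.DirSum

open Q293.AR

/-- the generalized dihedral group of `V` -/
@[ext] structure Dih where
  /-- translation part -/
  v : V
  /-- linear part -/
  s : ℤˣ

namespace Dih

noncomputable instance : Mul Dih := ⟨fun a b => ⟨a.v + (a.s : ℤ) • b.v, a.s * b.s⟩⟩
instance : One Dih := ⟨⟨0, 1⟩⟩
noncomputable instance : Inv Dih := ⟨fun a => ⟨-((a.s : ℤ) • a.v), a.s⟩⟩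

lemma mul_v (a b : Dih) : (a * b).v = a.v + (a.s : ℤ) • b.v := rfl
lemma mul_s (a b : Dih) : (a * b).s = a.s * b.s := rfl
lemma one_v : (1 : Dih).v = 0 := rfl
lemma one_s : (1 : Dih).s = 1 := rfl
lemma inv_v (a : Dih) : (a⁻¹).v = -((a.s : ℤ) • a.v) := rfl
lemma inv_s (a : Dih) : (a⁻¹).s = a.s := rfl

noncomputable instance : Group Dih where
  mul_assoc a b c := by
    ext1
    · simp only [mul_v, mul_s, smul_add, Units.val_mul, mul_smul, add_assoc]
    · simp only [mul_s, mul_assoc]
  one_mul a := by
    ext1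
    · simp only [mul_v, one_v, one_s, Units.val_one, one_smul, zero_add]
    · simp only [mul_s, one_s, one_mul]
  mul_one a := by
    ext1
    · simp only [mul_v, one_v, smul_zero, add_zero]
    · simp only [mul_s, one_s, mul_one]
  inv_mul_cancel a := by
    ext1
    · simp only [mul_v, inv_v, inv_s, one_v, neg_add_cancel]
    · simp only [mul_s, inv_s, one_s]
      exact Int.units_mul_self a.s

instance : Countable Dih := by
  have : Function.Injective (fun g : Dih => (g.v, g.s)) := by
    intro a b h
    rw [Prod.mk.injEq] at h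
    exact Dih.ext h.1 h.2
  exact this.countable

/-- the linear part as a homomorphism -/
noncomputable def sHom : Dih →* ℤˣ where
  toFun g := g.s
  map_one' := rfl
  map_mul' _ _ := rfl

/-- the translations -/
noncomputable def T : Subgroup Dih := sHom.ker

lemma mem_T (g : Dih) : g ∈ T ↔ g.s = 1 := MonoidHom.mem_ker

lemma T_index : T.index = 2 := by
  unfold T
  rw [Subgroup.index_ker]
  have : sHom.range = ⊤ := by
    rw [MonoidHom.range_eq_top]
    intro s
    exact ⟨⟨0, s⟩, rfl⟩
  rw [this]
  simp

lemma refl_inv (g : Dih) (h : g.s = -1) : g⁻¹ = g := by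
  ext1
  · rw [inv_v, h]; simp
  · rw [inv_s]

lemma refl_conj (r g : Dih) (h : r.s = -1) (hg : g.s = 1) : r * g * r = g⁻¹ := by
  ext1
  · simp only [mul_v, mul_s, inv_v, h, hg]
    simp
  · simp only [mul_s, inv_s, h, hg]
    simp

theorem ar [MeasurableSpace Dih] [DiscreteMeasurableSpace Dih] (μ : PMF Dih)
    (hμ : Admissible μ) (n : ℕ) : ∀ᵐ ω ∂(steps μ), tail ω n = ⊤ := by
  have hr : ∃ r ∈ μ.support, r.s = -1 := by
    by_contra hcon
    push Not at hcon
    have hle : Subgroup.closure μ.support ≤ T := by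
      rw [Subgroup.closure_le]
      intro g hg
      rcases Int.units_eq_one_or g.s with h | h
      · exact (mem_T g).2 h
      · exact absurd h (hcon g hg)
    rw [hμ.2] at hle
    have h1 : (⟨0, -1⟩ : Dih) ∈ T := hle (Subgroup.mem_top _)
    rw [mem_T] at h1
    exact absurd h1 (by decide)
  obtain ⟨r, hr, hrs⟩ := hr
  filter_upwards [io_support μ] with ω hω
  apply top_of_inv μ hμ.2 ω n (fun g hg => hω g hg n)
  have hm : ∃ m, n ≤ m ∧ (walk ω m).s = -1 := by
    obtain ⟨k, hk, hkr⟩ := hω r hr n
    rcases Int.units_eq_one_or (walk ω k).s with h | h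
    · refine ⟨k + 1, by omega, ?_⟩
      rw [walk_succ, mul_s, h, hkr, hrs, one_mul]
    · exact ⟨k, hk, h⟩
  obtain ⟨m, hm, hms⟩ := hm
  have hX : walk ω m ∈ tail ω n := Subsemigroup.subset_closure ⟨m, hm, rfl⟩
  intro x hx
  rcases Int.units_eq_one_or x.s with h | h
  · rw [← refl_conj (walk ω m) x hms h]
    exact (tail ω n).mul_mem ((tail ω n).mul_mem hX hx) hX
  · rw [refl_inv x h]; exact hx

/-- translations -/
noncomputable def tr (v : V) : T := ⟨⟨v, 1⟩, (mem_T _).2 rfl⟩

lemma tr_add (v w : V) : tr (v + w) = tr v * tr w := by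
  apply Subtype.ext
  show (⟨v + w, 1⟩ : Dih) = ⟨v, 1⟩ * ⟨w, 1⟩
  ext1
  · simp [mul_v]
  · simp [mul_s]

lemma tr_surj (g : T) : tr g.1.v = g := by
  apply Subtype.ext
  show (⟨g.1.v, 1⟩ : Dih) = g.1
  ext1
  · rfl
  · exact ((mem_T _).1 g.2).symm

/-- coordinates on the translations -/
noncomputable def trInv : T →* Multiplicative V where
  toFun g := Multiplicative.ofAdd g.1.v
  map_one' := rfl
  map_mul' a b := by
    show Multiplicative.ofAdd (a.1 * b.1).v = Multiplicative.ofAdd a.1.v * Multiplicative.ofAdd b.1.v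
    rw [mul_v, (mem_T _).1 a.2, Units.val_one, one_smul]
    rfl

/-- the law on translations -/
noncomputable def muT : PMF T := nu.map tr

lemma muT_map : muT.map (fun g => Multiplicative.toAdd (trInv g)) = nu := by
  unfold muT
  rw [PMF.map_comp]
  have : (fun g => Multiplicative.toAdd (trInv g)) ∘ tr = id := by
    funext v; rfl
  rw [this, PMF.map_id]

lemma tr_inj : Function.Injective tr := by
  intro v w h
  have := congrArg (fun g : T => g.1.v) h
  exact this

lemma tr_neg (v : V) : tr (-v) = (tr v)⁻¹ := by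
  rw [eq_inv_iff_mul_eq_one, ← tr_add, neg_add_cancel]
  rfl

lemma muT_apply (v : V) : muT (tr v) = nu v := by
  unfold muT
  rw [PMF.map_apply, tsum_eq_single v]
  · simp
  · intro w hw
    rw [if_neg fun h => hw (tr_inj h).symm]

lemma muT_adm : Admissible muT := by
  constructor
  · intro g
    rw [← tr_surj g, ← tr_neg, muT_apply, muT_apply, nu_symm]
  · rw [eq_top_iff]
    intro g _
    rw [← tr_surj g]
    have hsup : ∀ v ∈ nu.support, tr v ∈ Subgroup.closure muT.support := by
      intro v hv
      apply Subgroup.subset_closure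
      rw [PMF.mem_support_iff, muT_apply]
      exact (PMF.mem_support_iff _ _).1 hv
    generalize g.1.v = w
    have h : w ∈ AddSubgroup.closure nu.support := by rw [nu_closure]; trivial
    induction h using AddSubgroup.closure_induction with
    | mem x hx => exact hsup x hx
    | zero => exact Subgroup.one_mem _
    | add x y _ _ hx hy => rw [tr_add]; exact Subgroup.mul_mem _ hx hy
    | neg x _ hx => rw [tr_neg]; exact Subgroup.inv_mem _ hx

theorem muT_strong [MeasurableSpace T] [DiscreteMeasurableSpace T] :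
    ∀ᵐ ω ∂(steps muT), ∃ n : ℕ, 1 ≤ n ∧ (1 : T) ∉ tail ω n :=
  strong_of_hom trInv muT muT_map

end Dih

end Q293.DirSum
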