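import Pool.Agent.Q293.DirSum

/-!
# The walk on the direct sum, seen through a homomorphism; Choquet-Deny; the dihedral extension
-/

set_option autoImplicit false

open MeasureTheory Filter Topology

namespace Q293.DirSum

open Q293.AR

theorem strong_of_hom {G : Type} [Group G] [MeasurableSpace G] [DiscreteMeasurableSpace G]
    (φ : G →* Multiplicative V) (μ : PMF G)
    (h : μ.map (fun g => Multiplicative.toAdd (φ g)) = nu) :
    ∀ᵐ ω ∂(steps μ), ∃ n : ℕ, 1 ≤ n ∧ (1 : G) ∉ tail ω n := by
  let _ : MeasurableSpace V := ⊤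
  have : DiscreteMeasurableSpace V := ⟨fun _ => trivial⟩
  have h0 := nu_strong
  have h1 : (steps μ).map (fun ω i => Multiplicative.toAdd (φ (ω i)))
      = Measure.infinitePi (fun _ : ℕ => nu.toMeasure) := by
    rw [steps_map (fun g => Multiplicative.toAdd (φ g)) μ, h]
    rfl
  rw [← h1] at h0
  have h2 := ae_of_ae_map (measurable_pi_lambda _ fun i =>
    (Measurable.of_discrete (f := fun g => Multiplicative.toAdd (φ g))).comp
      (measurable_pi_apply i)).aemeasurable h0
  filter_upwards [h2] with ω hω
  obtain ⟨n, hn, i0, ε, hX⟩ := hω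
  refine ⟨n, hn, fun h3 => ?_⟩
  have hwalk : ∀ m, Multiplicative.toAdd (φ (walk ω m))
      = X (fun i => Multiplicative.toAdd (φ (ω i))) m := by
    intro m
    induction m with
    | zero => simp [walk_zero, X]
    | succ m ih =>
      rw [walk_succ, map_mul, toAdd_mul, ih]
      unfold X
      rw [Finset.sum_range_succ]
  have hle : ∀ g ∈ tail ω n, Multiplicative.toAdd (φ g) ∈ P i0 ε := by
    intro g hg
    unfold tail at hg
    induction hg using Subsemigroup.closure_induction with
    | mem x hx =>
      obtain ⟨m, hm, rfl⟩ := hx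
      rw [hwalk]
      exact hX m hm
    | mul x y _ _ hx hy =>
      rw [map_mul, toAdd_mul]
      exact (P i0 ε).add_mem hx hy
  have h4 := hle 1 h3
  rw [map_one, toAdd_one] at h4
  exact zero_notMem_P i0 ε h4

end Q293.DirSum

namespace Q293.AR

section ChoquetDeny

lemma pmf_summable {G : Type} (μ : PMF G) (f : G → ℝ) (C : ℝ) (hC : ∀ g, |f g| ≤ C) :
    Summable fun h => (μ h).toReal * f h := by
  have h1 : Summable fun h => (μ h).toReal := by
    apply ENNReal.summable_toReal
    rw [μ.tsum_coe]
    exact ENNReal.one_ne_top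
  refine Summable.of_norm_bounded (h1.mul_right C) fun h => ?_
  rw [Real.norm_eq_abs, abs_mul, abs_of_nonneg ENNReal.toReal_nonneg]
  exact mul_le_mul_of_nonneg_left (hC h) ENNReal.toReal_nonneg

lemma pmf_sum {G : Type} (μ : PMF G) : ∑' h, (μ h).toReal = 1 := by
  have := μ.tsum_coe
  have h2 := congrArg ENNReal.toReal this
  rw [ENNReal.tsum_toReal_eq fun a => μ.apply_ne_top a] at h2
  simpa using h2

variable {G : Type} [CommGroup G]

/-- one step of the maximum principle -/
lemma one_step (μ : PMF G) (u : G → ℝ) (C : ℝ) (hC : ∀ g, |u g| ≤ C) (s : ℝ) (hs : ∀ g, u g ≤ s)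
    (hu : ∀ g, u g = ∑' h, (μ h).toReal * u (g * h)) (a : G) (δ : ℝ) (x : G)
    (ha : 0 < (μ a).toReal)
    (hx : s - δ * (μ a).toReal < u x) : s - δ < u (x * a) := by
  by_contra hcon
  push Not at hcon
  have hsum : Summable fun h => (μ h).toReal * u (x * h) :=
    pmf_summable μ (fun h => u (x * h)) C fun g => hC _
  have h1 : Summable fun h => (μ h).toReal := by
    apply ENNReal.summable_toReal
    rw [μ.tsum_coe]
    exact ENNReal.one_ne_top
  have h2 : Summable fun h => (μ h).toReal * s := h1.mul_right s
  have h3 : ∑' h, (μ h).toReal * (s - u (x * h)) = s - u x := by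
    have : (fun h => (μ h).toReal * (s - u (x * h)))
        = fun h => (μ h).toReal * s - (μ h).toReal * u (x * h) := by
      funext h; ring
    rw [this, h2.tsum_sub hsum, tsum_mul_right, pmf_sum, one_mul, ← hu]
  have h4 : (μ a).toReal * (s - u (x * a)) ≤ ∑' h, (μ h).toReal * (s - u (x * h)) := by
    have hs4 : Summable fun h => (μ h).toReal * (s - u (x * h)) := by
      have : (fun h => (μ h).toReal * (s - u (x * h)))
          = fun h => (μ h).toReal * s - (μ h).toReal * u (x * h) := by
        funext h; ring
      rw [this]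
      exact h2.sub hsum
    exact hs4.le_tsum a fun j _ => mul_nonneg ENNReal.toReal_nonneg (sub_nonneg.2 (hs _))
  rw [h3] at h4
  have h5 : (μ a).toReal * δ ≤ (μ a).toReal * (s - u (x * a)) :=
    mul_le_mul_of_nonneg_left (by linarith) ha.le
  nlinarith

/-- along a generator, a bounded harmonic function does not increase -/
lemma no_increase (μ : PMF G) (f : G → ℝ) (C : ℝ) (hC : ∀ g, |f g| ≤ C)
    (hf : ∀ g, f g = ∑' h, (μ h).toReal * f (g * h)) (a : G) (ha : a ∈ μ.support) (g : G) :
    f (g * a) ≤ f g := by
  have hpos : 0 < (μ a).toReal :=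
    ENNReal.toReal_pos ((PMF.mem_support_iff _ _).1 ha) (μ.apply_ne_top a)
  have hle1 : (μ a).toReal ≤ 1 := by
    have := ENNReal.toReal_mono ENNReal.one_ne_top (μ.coe_le_one a)
    simpa using this
  set u : G → ℝ := fun g => f (g * a) - f g with hudef
  have huC : ∀ g, |u g| ≤ C + C := fun g => (abs_sub _ _).trans (add_le_add (hC _) (hC _))
  have hbdd : BddAbove (Set.range u) := ⟨C + C, by
    rintro _ ⟨g, rfl⟩
    exact (le_abs_self _).trans (huC g)⟩
  set s := ⨆ g, u g with hsdef
  have hs : ∀ g, u g ≤ s := fun g => le_ciSup hbdd g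
  have hu : ∀ g, u g = ∑' h, (μ h).toReal * u (g * h) := by
    intro g
    have h1 := pmf_summable μ (fun h => f (g * h * a)) C fun g => hC _
    have h2 := pmf_summable μ (fun h => f (g * h)) C fun g => hC _
    have h3 : (fun h => (μ h).toReal * u (g * h))
        = fun h => (μ h).toReal * f (g * h * a) - (μ h).toReal * f (g * h) := by
      funext h; rw [hudef]; ring
    rw [h3, h1.tsum_sub h2, ← hf g]
    have h4 : (fun h => (μ h).toReal * f (g * h * a)) = fun h => (μ h).toReal * f (g * a * h) := by
      funext h; rw [mul_assoc g h a, mul_comm h a, ← mul_assoc]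
    rw [h4, ← hf (g * a)]
  have hs0 : s ≤ 0 := by
    by_contra hcon
    push Not at hcon
    obtain ⟨K, hK⟩ := exists_nat_gt (2 * (C + C) / (s / 2))
    have hchain : ∀ (k : ℕ) (δ : ℝ), 0 < δ → ∃ x, ∀ j ≤ k, s - δ < u (x * a ^ j) := by
      intro k
      induction k with
      | zero =>
        intro δ hδ
        obtain ⟨x, hx⟩ := exists_lt_of_lt_ciSup (show s - δ < ⨆ g, u g by rw [← hsdef]; linarith)
        refine ⟨x, fun j hj => ?_⟩
        rw [Nat.le_zero.1 hj, pow_zero, mul_one]
        exact hx
      | succ k ih =>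
        intro δ hδ
        obtain ⟨x, hx⟩ := ih (δ * (μ a).toReal) (mul_pos hδ hpos)
        refine ⟨x, fun j hj => ?_⟩
        rcases Nat.lt_or_ge j (k + 1) with h | h
        · have := hx j (by omega)
          have h6 : δ * (μ a).toReal ≤ δ := by nlinarith
          linarith
        · have hj2 : j = k + 1 := by omega
          subst hj2
          rw [pow_succ, ← mul_assoc]
          exact one_step μ u (C + C) huC s hs hu a δ _ hpos (hx k le_rfl)
    obtain ⟨x, hx⟩ := hchain K (s / 2) (by linarith)
    have htel : ∀ k : ℕ, ∑ j ∈ Finset.range k, u (x * a ^ j) = f (x * a ^ k) - f x := by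
      intro k
      induction k with
      | zero => simp
      | succ k ih =>
        rw [Finset.sum_range_succ, ih, hudef]
        simp only
        rw [pow_succ, ← mul_assoc]
        ring
    have hlow : (K : ℝ) * (s / 2) ≤ ∑ j ∈ Finset.range K, u (x * a ^ j) := by
      have : ∑ j ∈ Finset.range K, (s / 2) ≤ ∑ j ∈ Finset.range K, u (x * a ^ j) :=
        Finset.sum_le_sum fun j hj => by
          have := hx j (Finset.mem_range.1 hj).le
          linarith
      simpa using this
    rw [htel] at hlow
    have h7 : f (x * a ^ K) - f x ≤ C + C := by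
      have h8 := (abs_le.1 (hC (x * a ^ K))).2
      have h9 := (abs_le.1 (hC x)).1
      linarith
    have hCC : 0 ≤ C + C := (abs_nonneg _).trans (huC x)
    rw [div_lt_iff₀ (by linarith)] at hK
    linarith
  have := hs g
  simp only [hudef] at this
  linarith

/-- Choquet-Deny: bounded harmonic functions on abelian groups are constant. -/
theorem choquet_deny (μ : PMF G) (hgen : Subgroup.closure μ.support = ⊤) (f : G → ℝ) (C : ℝ)
    (hC : ∀ g, |f g| ≤ C) (hf : ∀ g, f g = ∑' h, (μ h).toReal * f (g * h)) (g : G) :
    f g = f 1 := by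
  have h1 : ∀ a ∈ μ.support, ∀ g, f (g * a) = f g := by
    intro a ha g
    apply le_antisymm (no_increase μ f C hC hf a ha g)
    have hneg : ∀ g, (fun g => -f g) g = ∑' h, (μ h).toReal * (fun g => -f g) (g * h) := by
      intro g
      simp only [mul_neg]
      rw [tsum_neg, ← hf g]
    have := no_increase μ (fun g => -f g) C (fun g => by rw [abs_neg]; exact hC g) hneg a ha g
    linarith
  have h2 : ∀ a ∈ Subgroup.closure μ.support, ∀ g, f (g * a) = f g := by
    intro a ha
    induction ha using Subgroup.closure_induction with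
    | mem x hx => exact h1 x hx
    | one => intro g; rw [mul_one]
    | mul x y _ _ hx hy => intro g; rw [← mul_assoc, hy, hx]
    | inv x _ hx => intro g; have := hx (g * x⁻¹); rw [inv_mul_cancel_right] at this; exact this.symm
  have := h2 g (by rw [hgen]; trivial) 1
  rwa [one_mul] at this

end ChoquetDeny

end Q293.AR
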