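import Pool.Agent.W930.FG.Score
import Pool.Agent.W45.FG.Meas
import Pool.Agent.W782.FG.Split

/-!
# Walks on trees driven by uniform variables: first step analysis
-/

set_option autoImplicit false

namespace Q293.Frog

open MeasureTheory ProbabilityTheory Filter FrogGW
open scoped ENNReal NNReal Classical

/-- law of a driving sequence -/
noncomputable def UU : Measure (ℕ → ℝ) := Measure.infinitePi fun _ : ℕ => unif

instance : IsProbabilityMeasure UU := by unfold UU; infer_instance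

/-- the shifted driving sequence -/
def sft (u : ℕ → ℝ) : ℕ → ℝ := fun k => u (k + 1)

lemma measurable_sft : Measurable sft := Pool.Agent.W45.FG.meas_shift

theorem walk_succ' (Z : Env) (x : List ℕ) (u : ℕ → ℝ) (k : ℕ) :
    walk Z x u (k + 1) = walk Z (step Z x (u 0)) (sft u) k := by
  induction k with
  | zero => rfl
  | succ k ih =>
    rw [walk, ih]; rfl

/-- first step decomposition -/
lemma first (G : ℝ → (ℕ → ℝ) → ℝ≥0∞) (hG : Measurable fun p : ℝ × (ℕ → ℝ) => G p.1 p.2) :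
    ∫⁻ u, G (u 0) (sft u) ∂UU = ∫⁻ s, ∫⁻ u, G s u ∂UU ∂unif := by
  have h := (Pool.Agent.W782.FG.seq ℝ unif)
  have h2 := h.lintegral_comp hG
  unfold UU
  rw [← lintegral_prod _ hG.aemeasurable, ← h2]
  rfl

/-- functions of the current position are measurable -/
lemma measurable_walk (Z : Env) (x : List ℕ) (k : ℕ) {β : Type*} [MeasurableSpace β]
    (f : List ℕ → β) : Measurable fun u => f (walk Z x u k) := by
  intro s _
  have h : (fun u => f (walk Z x u k)) ⁻¹' s = ⋃ y ∈ {y | f y ∈ s}, {u | walk Z x u k = y} := by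
    ext u
    simp
  rw [h]
  exact MeasurableSet.biUnion (Set.to_countable _) fun y _ => Pool.Agent.W45.FG.meas_walk Z x k y

lemma measurable_walk2 (Z : Env) (x : List ℕ) (k : ℕ) {β : Type*} [MeasurableSpace β]
    (f : List ℕ → List ℕ → β) : Measurable fun u => f (walk Z x u k) (walk Z x u (k + 1)) := by
  intro s _
  have h : (fun u => f (walk Z x u k) (walk Z x u (k + 1))) ⁻¹' s
      = ⋃ p ∈ {p : List ℕ × List ℕ | f p.1 p.2 ∈ s},
        ({u | walk Z x u k = p.1} ∩ {u | walk Z x u (k + 1) = p.2}) := by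
    ext u
    simp only [Set.mem_preimage, Set.mem_iUnion, Set.mem_inter_iff, Set.mem_ofPred_eq]
    constructor
    · intro h; exact ⟨(walk Z x u k, walk Z x u (k + 1)), h, rfl, rfl⟩
    · rintro ⟨p, hp, h1, h2⟩; rw [h1, h2]; exact hp
  rw [h]
  exact MeasurableSet.biUnion (Set.to_countable _) fun y _ =>
    (Pool.Agent.W45.FG.meas_walk Z x k _).inter (Pool.Agent.W45.FG.meas_walk Z x (k + 1) _)

lemma measurable_step (Z : Env) (x : List ℕ) {β : Type*} [MeasurableSpace β] (f : List ℕ → β) :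
    Measurable fun s => f (step Z x s) := by
  obtain ⟨g, h, hg, hgh⟩ := Pool.Agent.W45.FG.step_fac Z x
  have : (fun s => f (step Z x s)) = (fun n => f (h n)) ∘ g := by
    ext s; simp [hgh]
  rw [this]
  exact (measurable_of_countable _).comp hg

/-- joint measurability for a countable family of functionals -/
lemma measurable_joint (Z : Env) (x : List ℕ) {β : Type*} [MeasurableSpace β]
    (H : List ℕ → (ℕ → ℝ) → β) (hH : ∀ y, Measurable (H y)) :
    Measurable fun p : ℝ × (ℕ → ℝ) => H (step Z x p.1) p.2 := by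
  obtain ⟨g, h, hg, hgh⟩ := Pool.Agent.W45.FG.step_fac Z x
  have h1 : Measurable fun q : ℕ × (ℕ → ℝ) => H (h q.1) q.2 :=
    measurable_from_prod_countable_right fun n => hH (h n)
  have h2 : (fun p : ℝ × (ℕ → ℝ) => H (step Z x p.1) p.2)
      = (fun q : ℕ × (ℕ → ℝ) => H (h q.1) q.2) ∘ fun p => (g p.1, p.2) := by
    ext p; simp [hgh]
  rw [h2]
  exact h1.comp ((hg.comp measurable_fst).prodMk measurable_snd)

/-- Lyapunov bound for edge functionals -/
theorem lyap (Z : Env) (W : List ℕ → ℝ≥0∞) (F : List ℕ → List ℕ → ℝ≥0∞)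
    (h : ∀ x, ∫⁻ s, (F x (step Z x s) + W (step Z x s)) ∂unif ≤ W x) (n : ℕ) :
    ∀ x, ∫⁻ u, ∑ k ∈ Finset.range n, F (walk Z x u k) (walk Z x u (k + 1)) ∂UU ≤ W x := by
  induction n with
  | zero => intro x; simp
  | succ n ih =>
    intro x
    have h1 : ∀ u, ∑ k ∈ Finset.range (n + 1), F (walk Z x u k) (walk Z x u (k + 1))
        = F x (step Z x (u 0)) + ∑ k ∈ Finset.range n,
          F (walk Z (step Z x (u 0)) (sft u) k) (walk Z (step Z x (u 0)) (sft u) (k + 1)) := by
      intro u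
      rw [Finset.sum_range_succ', add_comm]
      congr 1
      apply Finset.sum_congr rfl
      intro k _
      rw [walk_succ' Z x u k, walk_succ' Z x u (k + 1)]
    simp_rw [h1]
    have hm : ∀ y, Measurable fun u => ∑ k ∈ Finset.range n, F (walk Z y u k) (walk Z y u (k + 1)) :=
      fun y => Finset.measurable_fun_sum _ fun k _ => measurable_walk2 Z y k F
    have hG : Measurable fun p : ℝ × (ℕ → ℝ) => F x (step Z x p.1) + ∑ k ∈ Finset.range n,
          F (walk Z (step Z x p.1) p.2 k) (walk Z (step Z x p.1) p.2 (k + 1)) := by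
      apply Measurable.add
      · exact (measurable_step Z x (F x)).comp measurable_fst
      · exact measurable_joint Z x
          (fun y u => ∑ k ∈ Finset.range n, F (walk Z y u k) (walk Z y u (k + 1))) hm
    rw [first (fun s u => F x (step Z x s) + ∑ k ∈ Finset.range n,
          F (walk Z (step Z x s) u k) (walk Z (step Z x s) u (k + 1))) hG]
    refine le_trans ?_ (h x)
    apply lintegral_mono
    intro s
    simp only
    rw [lintegral_add_left measurable_const]
    simp only [lintegral_const, measure_univ, mul_one]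
    gcongr
    exact ih _

/-- infinite version -/
theorem lyap_tsum (Z : Env) (W : List ℕ → ℝ≥0∞) (F : List ℕ → List ℕ → ℝ≥0∞)
    (h : ∀ x, ∫⁻ s, (F x (step Z x s) + W (step Z x s)) ∂unif ≤ W x) (x : List ℕ) :
    ∫⁻ u, ∑' k, F (walk Z x u k) (walk Z x u (k + 1)) ∂UU ≤ W x := by
  have h1 : ∫⁻ u, ∑' k, F (walk Z x u k) (walk Z x u (k + 1)) ∂UU
      = ∑' k, ∫⁻ u, F (walk Z x u k) (walk Z x u (k + 1)) ∂UU :=
    lintegral_tsum fun k => (measurable_walk2 Z x k F).aemeasurable
  rw [h1, ENNReal.tsum_eq_iSup_nat]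
  apply iSup_le
  intro n
  rw [← lintegral_finsetSum _ fun k _ => measurable_walk2 Z x k F]
  exact lyap Z W F h n x

/-- almost sure finiteness -/
theorem lyap_ae (Z : Env) (W : List ℕ → ℝ≥0∞) (F : List ℕ → List ℕ → ℝ≥0∞)
    (h : ∀ x, ∫⁻ s, (F x (step Z x s) + W (step Z x s)) ∂unif ≤ W x) (x : List ℕ)
    (hW : W x ≠ ⊤) : ∀ᵐ u ∂UU, ∑' k, F (walk Z x u k) (walk Z x u (k + 1)) ≠ ⊤ := by
  have h1 := lyap_tsum Z W F h x
  have hm : Measurable fun u => ∑' k, F (walk Z x u k) (walk Z x u (k + 1)) :=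
    Measurable.tsum fun k => measurable_walk2 Z x k F
  have h2 := ae_lt_top hm (ne_top_of_le_ne_top hW h1)
  filter_upwards [h2] with u hu
  exact hu.ne

/-- the walk visits at least `m` elements of the finite set `B` -/
def Vis (Z : Env) (B : Finset (List ℕ)) (m : ℕ) (x : List ℕ) (u : ℕ → ℝ) : Prop :=
  ∃ T ⊆ B, T.card = m ∧ ∀ y ∈ T, ∃ k, walk Z x u k = y

lemma meas_vis (Z : Env) (B : Finset (List ℕ)) (m : ℕ) (x : List ℕ) :
    MeasurableSet {u | Vis Z B m x u} := by
  have h : {u | Vis Z B m x u} = ⋃ T ∈ (B.powerset.filter fun T => T.card = m : Finset (Finset (List ℕ))),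
      ⋂ y ∈ T, ⋃ k, {u | walk Z x u k = y} := by
    ext u
    simp only [Vis, Set.mem_ofPred_eq, Set.mem_iUnion, Set.mem_iInter, Finset.mem_filter,
      Finset.mem_powerset]
    constructor
    · rintro ⟨T, h1, h2, h3⟩; exact ⟨T, ⟨h1, h2⟩, h3⟩
    · rintro ⟨T, ⟨h1, h2⟩, h3⟩; exact ⟨T, h1, h2, h3⟩
  rw [h]
  apply Finset.measurableSet_biUnion
  intro T _
  apply Finset.measurableSet_biInter
  intro y _
  exact MeasurableSet.iUnion fun k => Pool.Agent.W45.FG.meas_walk Z x k y

/-- probability of the event `Vis` -/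
noncomputable def hv (Z : Env) (B : Finset (List ℕ)) (m : ℕ) (x : List ℕ) : ℝ≥0∞ :=
  UU {u | Vis Z B m x u}

lemma hv_le_one (Z : Env) (B : Finset (List ℕ)) (m : ℕ) (x : List ℕ) : hv Z B m x ≤ 1 :=
  prob_le_one

/-- the probability of visiting is superharmonic -/
lemma hv_super (Z : Env) (B : Finset (List ℕ)) (m : ℕ) (x : List ℕ) :
    ∫⁻ s, hv Z B m (step Z x s) ∂unif ≤ hv Z B m x := by
  have h1 : hv Z B m x = ∫⁻ u, {u | Vis Z B m x u}.indicator 1 u ∂UU := by
    rw [lintegral_indicator_one (meas_vis Z B m x)]; rfl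
  have h2 : ∀ y, hv Z B m y = ∫⁻ u, {u | Vis Z B m y u}.indicator 1 u ∂UU := by
    intro y
    rw [lintegral_indicator_one (meas_vis Z B m y)]; rfl
  rw [h1]
  have hG : Measurable fun p : ℝ × (ℕ → ℝ) =>
      ({u | Vis Z B m (step Z x p.1) u}.indicator (1 : (ℕ → ℝ) → ℝ≥0∞) p.2) :=
    measurable_joint Z x (fun y u => {u | Vis Z B m y u}.indicator (1 : (ℕ → ℝ) → ℝ≥0∞) u)
      fun y => measurable_one.indicator (meas_vis Z B m y)
  have h3 := first (fun s u => {u | Vis Z B m (step Z x s) u}.indicator (1 : (ℕ → ℝ) → ℝ≥0∞) u) hG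
  have h4 : ∫⁻ s, hv Z B m (step Z x s) ∂unif
      = ∫⁻ s, ∫⁻ u, {u | Vis Z B m (step Z x s) u}.indicator (1 : (ℕ → ℝ) → ℝ≥0∞) u ∂UU ∂unif := by
    apply lintegral_congr
    intro s
    exact h2 _
  rw [h4, ← h3]
  apply lintegral_mono
  intro u
  simp only
  by_cases hu : Vis Z B m (step Z x (u 0)) (sft u)
  · have hx : Vis Z B m x u := by
      obtain ⟨T, hT, hc, hv⟩ := hu
      refine ⟨T, hT, hc, fun y hy => ?_⟩
      obtain ⟨k, hk⟩ := hv y hy
      exact ⟨k + 1, by rw [walk_succ', hk]⟩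
    rw [Set.indicator_of_mem (show u ∈ {u | Vis Z B m x u} from hx)]
    exact Set.indicator_le_self' (fun _ _ => zero_le) _
  · have hu' : sft u ∉ {w | Vis Z B m (step Z x (u 0)) w} := fun h => hu h
    rw [Set.indicator_of_notMem hu']
    exact zero_le

/-- superharmonicity at a non-root vertex -/
lemma hv_ge (Z : Env) (B : Finset (List ℕ)) (m : ℕ) (i : ℕ) (v : List ℕ) :
    ((Z (i :: v) : ℝ≥0∞) + 1)⁻¹ * (hv Z B m v +
      ∑ j ∈ Finset.range (Z (i :: v)), hv Z B m (j :: i :: v)) ≤ hv Z B m (i :: v) := by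
  rw [← ((Pool.Agent.W930.FG.taskStep Z (hv Z B m)).2 i v)]
  exact hv_super Z B m (i :: v)

lemma hv_ge_root (Z : Env) (B : Finset (List ℕ)) (m : ℕ) (h : 1 ≤ Z []) :
    (Z [] : ℝ≥0∞)⁻¹ * ∑ j ∈ Finset.range (Z []), hv Z B m [j] ≤ hv Z B m [] := by
  rw [← ((Pool.Agent.W930.FG.taskStep Z (hv Z B m)).1 h)]
  exact hv_super Z B m []

/-- step up -/
lemma hv_up (Z : Env) (B : Finset (List ℕ)) (m : ℕ) (i : ℕ) (v : List ℕ) :
    ((Z (i :: v) : ℝ≥0∞) + 1)⁻¹ * hv Z B m v ≤ hv Z B m (i :: v) := by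
  refine le_trans ?_ (hv_ge Z B m i v)
  gcongr
  exact le_self_add

/-- step down -/
lemma hv_down (Z : Env) (B : Finset (List ℕ)) (m : ℕ) (v : List ℕ) (j : ℕ) (hj : j < Z v) :
    ((Z v : ℝ≥0∞) + 1)⁻¹ * hv Z B m (j :: v) ≤ hv Z B m v := by
  cases v with
  | nil =>
    refine le_trans ?_ (hv_ge_root Z B m (by omega))
    have h1 : ((Z [] : ℝ≥0∞) + 1)⁻¹ ≤ (Z [] : ℝ≥0∞)⁻¹ := by
      rw [ENNReal.inv_le_inv]; exact le_self_add
    gcongr
    exact Finset.single_le_sum (f := fun j => hv Z B m [j]) (fun _ _ => zero_le)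
      (Finset.mem_range.2 hj)
  | cons i v =>
    refine le_trans ?_ (hv_ge Z B m i v)
    gcongr
    refine le_trans ?_ le_add_self
    exact Finset.single_le_sum (f := fun j => hv Z B m (j :: i :: v)) (fun _ _ => zero_le)
      (Finset.mem_range.2 hj)

end Q293.Frog
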