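import Pool.Agent.Q293.FrogA

/-!
# A tree with speed one and large stars attached everywhere
-/

set_option autoImplicit false

namespace Q293.Frog

open MeasureTheory ProbabilityTheory Filter FrogGW
open scoped ENNReal NNReal Classical Topology

/-- Numbers of children.  A vertex is *ordinary* if its word has no letter `0`; an ordinary vertex
`v` of level `k` has `2 ^ (k + 3) + 1` children: the child `0 :: v`, which has `M k` children that
are leaves, and `2 ^ (k + 3)` ordinary children. -/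
def Zf (M : ℕ → ℕ) : List ℕ → ℕ
  | [] => 2 ^ 3 + 1
  | i :: v => if 0 ∈ v then 0 else if i = 0 then M v.length else 2 ^ (v.length + 4) + 1

lemma Zf_ord (M : ℕ → ℕ) {v : List ℕ} (hv : 0 ∉ v) : Zf M v = 2 ^ (v.length + 3) + 1 := by
  cases v with
  | nil => rfl
  | cons i v =>
    rw [List.mem_cons, not_or] at hv
    rw [Zf, if_neg hv.2, if_neg (fun h => hv.1 h.symm)]
    rfl

lemma Zf_star (M : ℕ → ℕ) {v : List ℕ} (hv : 0 ∉ v) : Zf M (0 :: v) = M v.length := by
  rw [Zf, if_neg hv, if_pos rfl]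

lemma Zf_low (M : ℕ → ℕ) {v : List ℕ} (i : ℕ) (hv : 0 ∈ v) : Zf M (i :: v) = 0 := by
  rw [Zf, if_pos hv]

/-- the Lyapunov function -/
noncomputable def Wf : List ℕ → ℝ
  | [] => 1
  | i :: v => if 0 ∈ v then Wf v else if i = 0 then (1 / 2) ^ v.length + 1
      else (1 / 2) ^ (v.length + 1)

lemma Wf_ord {v : List ℕ} (hv : 0 ∉ v) : Wf v = (1 / 2) ^ v.length := by
  cases v with
  | nil => simp [Wf]
  | cons i v =>
    rw [List.mem_cons, not_or] at hv
    rw [Wf, if_neg hv.2, if_neg (fun h => hv.1 h.symm)]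
    rfl

lemma Wf_star {v : List ℕ} (hv : 0 ∉ v) : Wf (0 :: v) = (1 / 2) ^ v.length + 1 := by
  rw [Wf, if_neg hv, if_pos rfl]

lemma Wf_low {v : List ℕ} (i : ℕ) (hv : 0 ∈ v) : Wf (i :: v) = Wf v := by
  rw [Wf, if_pos hv]

lemma Wf_nonneg : ∀ x, 0 ≤ Wf x
  | [] => by simp [Wf]
  | i :: v => by
    rw [Wf]
    split_ifs
    · exact Wf_nonneg v
    · positivity
    · positivity

/-- indicator of a bad step -/
noncomputable def bad (x y : List ℕ) : ℝ := if 0 ∉ y ∧ y.length = x.length + 1 then 0 else 1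

/-- the edge functional -/
noncomputable def Ff (M : ℕ → ℕ) : List ℕ → List ℕ → ℝ
  | [], y => bad [] y
  | i :: v, y => if 0 ∈ v then 0 else if i = 0 then 1 / (M v.length + 1) else bad (i :: v) y

lemma bad_nonneg (x y : List ℕ) : 0 ≤ bad x y := by unfold bad; split_ifs <;> norm_num

lemma Ff_ord (M : ℕ → ℕ) {v : List ℕ} (hv : 0 ∉ v) (y : List ℕ) : Ff M v y = bad v y := by
  cases v with
  | nil => rfl
  | cons i v =>
    rw [List.mem_cons, not_or] at hv
    rw [Ff, if_neg hv.2, if_neg (fun h => hv.1 h.symm)]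

lemma Ff_star (M : ℕ → ℕ) {v : List ℕ} (hv : 0 ∉ v) (y : List ℕ) :
    Ff M (0 :: v) y = 1 / (M v.length + 1) := by
  rw [Ff, if_neg hv, if_pos rfl]

lemma Ff_low (M : ℕ → ℕ) {v : List ℕ} (i : ℕ) (hv : 0 ∈ v) (y : List ℕ) :
    Ff M (i :: v) y = 0 := by
  rw [Ff, if_pos hv]

lemma Ff_nonneg (M : ℕ → ℕ) (x y : List ℕ) : 0 ≤ Ff M x y := by
  cases x with
  | nil => exact bad_nonneg _ _
  | cons i v =>
    rw [Ff]
    split_ifs
    · exact le_rfl
    · positivity
    · exact bad_nonneg _ _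

lemma avg_le (n : ℕ) (a c : ℝ) (b : ℕ → ℝ) (ha : 0 ≤ a) (hb : ∀ j, 0 ≤ b j)
    (h : a + ∑ j ∈ Finset.range n, b j ≤ (n + 1) * c) :
    ((n : ℝ≥0∞) + 1)⁻¹ * (ENNReal.ofReal a + ∑ j ∈ Finset.range n, ENNReal.ofReal (b j))
      ≤ ENNReal.ofReal c := by
  have hn0 : ((n : ℝ≥0∞) + 1) ≠ 0 := by simp
  have hnt : ((n : ℝ≥0∞) + 1) ≠ ⊤ := by finiteness
  rw [← ENNReal.ofReal_sum_of_nonneg (fun j _ => hb j), ← ENNReal.ofReal_add ha
    (Finset.sum_nonneg fun j _ => hb j)]
  rw [ENNReal.inv_mul_le_iff hn0 hnt]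
  have h1 : ((n : ℝ≥0∞) + 1) = ENNReal.ofReal ((n : ℝ) + 1) := by
    rw [ENNReal.ofReal_add (by positivity) (by norm_num)]; simp
  rw [h1, ← ENNReal.ofReal_mul (by positivity)]
  exact ENNReal.ofReal_le_ofReal h

lemma avg_le_root (n : ℕ) (hn : 1 ≤ n) (c : ℝ) (b : ℕ → ℝ) (hb : ∀ j, 0 ≤ b j)
    (h : ∑ j ∈ Finset.range n, b j ≤ n * c) :
    (n : ℝ≥0∞)⁻¹ * (∑ j ∈ Finset.range n, ENNReal.ofReal (b j)) ≤ ENNReal.ofReal c := by
  have hn0 : (n : ℝ≥0∞) ≠ 0 := by
    simp only [ne_eq, Nat.cast_eq_zero]; omega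
  have hnt : (n : ℝ≥0∞) ≠ ⊤ := by finiteness
  rw [← ENNReal.ofReal_sum_of_nonneg (fun j _ => hb j), ENNReal.inv_mul_le_iff hn0 hnt,
    ← ENNReal.ofReal_natCast n, ← ENNReal.ofReal_mul (by positivity)]
  exact ENNReal.ofReal_le_ofReal h

/-- the sum over the children of an ordinary vertex -/
lemma sum_children (M : ℕ → ℕ) {x : List ℕ} (hx : 0 ∉ x) (n : ℕ) :
    ∑ j ∈ Finset.range (n + 1), (Ff M x (j :: x) + Wf (j :: x))
      = n * (1 / 2) ^ (x.length + 1) + (2 + (1 / 2) ^ x.length) := by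
  rw [Finset.sum_range_succ']
  have h1 : ∀ j ∈ Finset.range n, Ff M x ((j + 1) :: x) + Wf ((j + 1) :: x)
      = (1 / 2) ^ (x.length + 1) := by
    intro j _
    have h2 : 0 ∉ ((j + 1) :: x) := by
      rw [List.mem_cons, not_or]; exact ⟨by omega, hx⟩
    rw [Ff_ord M hx, Wf_ord h2]
    unfold bad
    rw [if_pos ⟨h2, rfl⟩]
    simp
  rw [Finset.sum_congr rfl h1, Finset.sum_const, Finset.card_range, nsmul_eq_mul, Ff_ord M hx,
    Wf_star hx]
  unfold bad
  rw [if_neg (by simp)]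
  ring

/-- the Lyapunov condition -/
lemma lyap_cond (M : ℕ → ℕ) (x : List ℕ) :
    ∫⁻ s, (ENNReal.ofReal (Ff M x (step (Zf M) x s)) + ENNReal.ofReal (Wf (step (Zf M) x s)))
      ∂unif ≤ ENNReal.ofReal (Wf x) := by
  have hadd : ∀ y, ENNReal.ofReal (Ff M x y) + ENNReal.ofReal (Wf y)
      = ENNReal.ofReal (Ff M x y + Wf y) := fun y =>
    (ENNReal.ofReal_add (Ff_nonneg M x y) (Wf_nonneg y)).symm
  have hnn : ∀ y, 0 ≤ Ff M x y + Wf y := fun y => add_nonneg (Ff_nonneg M x y) (Wf_nonneg y)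
  simp_rw [hadd]
  cases x with
  | nil =>
    rw [(Pool.Agent.W930.FG.taskStep (Zf M) (fun y => ENNReal.ofReal (Ff M [] y + Wf y))).1
      (by simp [Zf])]
    apply avg_le_root _ (by simp [Zf]) _ _ (fun j => hnn _)
    have h1 : Zf M [] = 2 ^ 3 + 1 := rfl
    rw [h1, sum_children M (x := []) (by simp)]
    norm_num [Wf]
  | cons i v =>
    rw [(Pool.Agent.W930.FG.taskStep (Zf M) (fun y => ENNReal.ofReal (Ff M (i :: v) y + Wf y))).2
      i v]
    apply avg_le _ _ _ _ (hnn _) (fun j => hnn _)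
    by_cases hv : 0 ∈ v
    · rw [Zf_low M i hv, Ff_low M i hv, Wf_low i hv]
      simp
    · by_cases hi : i = 0
      · subst hi
        rw [Zf_star M hv, Ff_star M hv, Wf_ord hv, Wf_star hv]
        have h1 : ∀ j ∈ Finset.range (M v.length), Ff M (0 :: v) (j :: 0 :: v) + Wf (j :: 0 :: v)
            = 1 / (M v.length + 1) + ((1 / 2) ^ v.length + 1) := by
          intro j _
          rw [Ff_star M hv, Wf_low j (by simp), Wf_star hv]
        rw [Finset.sum_congr rfl h1, Finset.sum_const, Finset.card_range, nsmul_eq_mul]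
        have h2 : ((M v.length : ℝ) + 1) ≠ 0 := by positivity
        apply le_of_eq
        field_simp
        ring
      · have hx : 0 ∉ (i :: v) := by
          rw [List.mem_cons, not_or]; exact ⟨fun h => hi h.symm, hv⟩
        rw [Zf_ord M hx, sum_children M hx, Ff_ord M hx, Wf_ord hv, Wf_ord hx]
        unfold bad
        have hb : ¬ (0 ∉ v ∧ v.length = (i :: v).length + 1) := by
          rintro ⟨-, h⟩
          rw [List.length_cons] at h
          omega
        rw [if_neg hb]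
        simp only [List.length_cons]
        have h1 : ((1 : ℝ) / 2) ^ v.length = 2 * (1 / 2) ^ (v.length + 1) := by
          rw [pow_succ]; ring
        have h2 : (2 : ℝ) ^ (v.length + 1 + 3) * (1 / 2) ^ (v.length + 1) = 8 := by
          rw [pow_add, mul_assoc, mul_comm ((2 : ℝ) ^ 3), ← mul_assoc, ← mul_pow]; norm_num
        have h3 : ((1 : ℝ) / 2) ^ (v.length + 1 + 1) = (1 / 2) ^ (v.length + 1) / 2 := by
          rw [pow_succ]; ring
        have h4 : ((1 : ℝ) / 2) ^ (v.length + 1) ≤ 1 := pow_le_one₀ (by norm_num) (by norm_num)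
        push_cast
        rw [h1, h3]
        nlinarith

/-- the three kinds of vertices -/
def Typ (x : List ℕ) : Prop :=
  0 ∉ x ∨ (∃ v, x = 0 :: v ∧ 0 ∉ v) ∨ ∃ i v, x = i :: 0 :: v ∧ 0 ∉ v

lemma step_low' (M : ℕ → ℕ) (i : ℕ) {v : List ℕ} (hv : 0 ∈ v) (s : ℝ) :
    step (Zf M) (i :: v) s = v := by
  rw [step, Zf_low M i hv, if_neg (by simp)]

lemma typ_step (M : ℕ → ℕ) {x : List ℕ} (hx : Typ x) (s : ℝ) : Typ (step (Zf M) x s) := by
  rcases hx with hx | ⟨v, rfl, hv⟩ | ⟨i, v, rfl, hv⟩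
  · rcases Pool.Agent.W930.FG.step_cases (Zf M) x s with ⟨i, h⟩ | ⟨i, h⟩
    · rw [h]
      by_cases hi : i = 0
      · subst hi; right; left; exact ⟨x, rfl, hx⟩
      · left
        rw [List.mem_cons, not_or]; exact ⟨fun h => hi h.symm, hx⟩
    · left
      intro h0
      apply hx
      rw [h]
      exact List.mem_cons_of_mem _ h0
  · rcases Pool.Agent.W930.FG.step_cases (Zf M) (0 :: v) s with ⟨i, h⟩ | ⟨i, h⟩
    · rw [h]; right; right; exact ⟨i, v, rfl, hv⟩
    · left
      have h1 : v = step (Zf M) (0 :: v) s := (List.cons.inj h).2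
      rw [← h1]; exact hv
  · rw [step_low' M i (by simp)]
    right; left; exact ⟨v, rfl, hv⟩

/-- deterministic part of the speed statement -/
lemma eventually_good (M : ℕ → ℕ) (u : ℕ → ℝ)
    (h1 : {k | 0 ∉ walk (Zf M) [] u k ∧ ¬ (0 ∉ walk (Zf M) [] u (k + 1) ∧
      (walk (Zf M) [] u (k + 1)).length = (walk (Zf M) [] u k).length + 1)}.Finite)
    (h2 : ∀ v : List ℕ, 0 ∉ v → {k | walk (Zf M) [] u k = 0 :: v}.Finite) :
    ∃ n0, ∀ j, (walk (Zf M) [] u (n0 + j)).length = (walk (Zf M) [] u n0).length + j := by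
  set X := walk (Zf M) [] u with hX
  have hstep : ∀ k, X (k + 1) = step (Zf M) (X k) (u k) := fun k => rfl
  have htyp : ∀ k, Typ (X k) := by
    intro k
    induction k with
    | zero => left; simp [hX, walk]
    | succ k ih => rw [hstep]; exact typ_step M ih _
  obtain ⟨n1, hn1⟩ := h1.bddAbove
  have hgood : ∀ k > n1, 0 ∉ X k → 0 ∉ X (k + 1) ∧ (X (k + 1)).length = (X k).length + 1 := by
    intro k hk h0
    by_contra hcon
    have := hn1 (show k ∈ {k | 0 ∉ X k ∧ ¬ (0 ∉ X (k + 1) ∧ (X (k + 1)).length = (X k).length + 1)}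
      from ⟨h0, hcon⟩)
    omega
  have hex : ∃ k > n1, 0 ∉ X k := by
    by_contra hcon
    push Not at hcon
    -- always in a star
    have hspec : ∃ k > n1, ∃ v, X k = 0 :: v ∧ 0 ∉ v := by
      rcases htyp (n1 + 1) with h | h | ⟨i, v, hv, h0⟩
      · exact absurd (hcon (n1 + 1) (by omega)) h
      · exact ⟨n1 + 1, by omega, h⟩
      · refine ⟨n1 + 2, by omega, v, ?_, h0⟩
        rw [hstep, hv, step_low' M i (by simp)]
    obtain ⟨k0, hk0, v, hv, h0⟩ := hspec
    have hinf : ∀ j, X (k0 + 2 * j) = 0 :: v := by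
      intro j
      induction j with
      | zero => exact hv
      | succ j ih =>
        have e1 : X (k0 + 2 * j + 1) = step (Zf M) (0 :: v) (u (k0 + 2 * j)) := by
          rw [hstep, ih]
        have e2 : ∃ i, X (k0 + 2 * j + 1) = i :: 0 :: v := by
          rcases Pool.Agent.W930.FG.step_cases (Zf M) (0 :: v) (u (k0 + 2 * j)) with ⟨i, h⟩ | ⟨i, h⟩
          · exact ⟨i, by rw [e1, h]⟩
          · exfalso
            have h3 : v = step (Zf M) (0 :: v) (u (k0 + 2 * j)) := (List.cons.inj h).2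
            have h4 := hcon (k0 + 2 * j + 1) (by omega)
            rw [e1, ← h3] at h4
            exact h0 h4
        obtain ⟨i, hi⟩ := e2
        have e3 : X (k0 + 2 * (j + 1)) = step (Zf M) (X (k0 + 2 * j + 1)) (u (k0 + 2 * j + 1)) := rfl
        rw [e3, hi, step_low' M i (by simp)]
    have hfin := h2 v h0
    have hinj : Function.Injective fun j : ℕ => k0 + 2 * j := fun a b h => by simpa using h
    exact (Set.infinite_of_injective_forall_mem hinj
      (fun j => (show k0 + 2 * j ∈ {k | X k = 0 :: v} from hinf j))) hfin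
  obtain ⟨k, hk, hk0⟩ := hex
  refine ⟨k, ?_⟩
  have hall : ∀ j, 0 ∉ X (k + j) ∧ (X (k + j)).length = (X k).length + j := by
    intro j
    induction j with
    | zero => exact ⟨hk0, rfl⟩
    | succ j ih =>
      have := hgood (k + j) (by omega) ih.1
      exact ⟨this.1, by rw [← add_assoc, this.2, ih.2]; ring⟩
  exact fun j => (hall j).2

/-- simple random walk has speed one -/
theorem speed_one (M : ℕ → ℕ) : ∀ᵐ u ∂UU,
    Tendsto (fun n : ℕ => ((walk (Zf M) [] u n).length : ℝ) / n) atTop (𝓝 1) := by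
  have h := lyap_ae (Zf M) (fun x => ENNReal.ofReal (Wf x)) (fun x y => ENNReal.ofReal (Ff M x y))
    (lyap_cond M) [] ENNReal.ofReal_ne_top
  filter_upwards [h] with u hu
  have h1 : {k | 0 ∉ walk (Zf M) [] u k ∧ ¬ (0 ∉ walk (Zf M) [] u (k + 1) ∧
      (walk (Zf M) [] u (k + 1)).length = (walk (Zf M) [] u k).length + 1)}.Finite := by
    refine (ENNReal.finite_const_le_of_tsum_ne_top hu (ε := 1) one_ne_zero).subset ?_
    rintro k ⟨hk1, hk2⟩
    simp only [Set.mem_ofPred_eq]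
    rw [Ff_ord M hk1]
    unfold bad
    rw [if_neg hk2]
    simp
  have h2 : ∀ v : List ℕ, 0 ∉ v → {k | walk (Zf M) [] u k = 0 :: v}.Finite := by
    intro v hv
    have hpos : ENNReal.ofReal (1 / ((M v.length : ℝ) + 1)) ≠ 0 := by
      rw [ne_eq, ENNReal.ofReal_eq_zero, not_le]; positivity
    refine (ENNReal.finite_const_le_of_tsum_ne_top hu hpos).subset ?_
    intro k hk
    simp only [Set.mem_ofPred_eq] at hk ⊢
    rw [hk, Ff_star M hv]
  obtain ⟨n0, hn0⟩ := eventually_good M u h1 h2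
  set L := (walk (Zf M) [] u n0).length with hL
  have h3 : Tendsto (fun n : ℕ => 1 + ((L : ℝ) - n0) / n) atTop (𝓝 (1 + 0)) := by
    apply Tendsto.add tendsto_const_nhds
    exact tendsto_const_div_atTop_nhds_zero_nat _
  rw [add_zero] at h3
  refine h3.congr' ?_
  filter_upwards [eventually_ge_atTop (n0 + 1)] with n hn
  have h4 := hn0 (n - n0)
  rw [show n0 + (n - n0) = n by omega] at h4
  rw [h4]
  have hn' : (n : ℝ) ≠ 0 := by
    have : n ≠ 0 := by omega
    exact_mod_cast this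
  rw [Nat.cast_add, Nat.cast_sub (by omega)]
  field_simp
  ring

end Q293.Frog
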