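import Pool.Agent.Q293.FrogB

/-!
# Estimates for a single particle
-/

set_option autoImplicit false

namespace Q293.Frog

open MeasureTheory ProbabilityTheory Filter FrogGW
open scoped ENNReal NNReal Classical Topology

/-- the distinguished ray -/
def ray (k : ℕ) : List ℕ := List.replicate k 1

lemma ray_ord (k : ℕ) : 0 ∉ ray k := by
  unfold ray
  intro h
  have := List.eq_of_mem_replicate h
  omega

lemma ray_length (k : ℕ) : (ray k).length = k := by simp [ray]

lemma ray_succ (k : ℕ) : ray (k + 1) = 1 :: ray k := by simp [ray, List.replicate_succ]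

/-- the leaves attached to the star at level `k` -/
noncomputable def LL (M : ℕ → ℕ) (k : ℕ) : Finset (List ℕ) :=
  (Finset.range (M k)).image fun j => j :: 0 :: ray k

lemma mem_LL {M : ℕ → ℕ} {k : ℕ} {x : List ℕ} (h : x ∈ LL M k) : ∃ j < M k, x = j :: 0 :: ray k := by
  unfold LL at h
  rw [Finset.mem_image] at h
  obtain ⟨j, hj, rfl⟩ := h
  exact ⟨j, Finset.mem_range.1 hj, rfl⟩

lemma LL_length {M : ℕ → ℕ} {k : ℕ} {x : List ℕ} (h : x ∈ LL M k) : x.length = k + 2 := by
  obtain ⟨j, _, rfl⟩ := mem_LL h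
  simp [ray_length]

lemma LL_card (M : ℕ → ℕ) (k : ℕ) : (LL M k).card = M k := by
  unfold LL
  rw [Finset.card_image_of_injective, Finset.card_range]
  intro a b h
  exact (List.cons.inj h).1

/-- degree -/
def DD (k : ℕ) : ℕ := 2 ^ (k + 3) + 2

lemma Zray (M : ℕ → ℕ) (k : ℕ) : Zf M (ray k) + 1 = DD k := by
  rw [Zf_ord M (ray_ord k), ray_length]; rfl

lemma Zray' (M : ℕ → ℕ) (k : ℕ) : ((Zf M (ray k) : ℝ≥0∞) + 1) = DD k := by
  exact_mod_cast Zray M k

lemma Zstar (M : ℕ → ℕ) (k : ℕ) : Zf M (0 :: ray k) = M k := by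
  rw [Zf_star M (ray_ord k), ray_length]

/-- from a leaf -/
lemma hv_leaf (M : ℕ → ℕ) (B : Finset (List ℕ)) (m : ℕ) (j k : ℕ) :
    hv (Zf M) B m (0 :: ray k) ≤ hv (Zf M) B m (j :: 0 :: ray k) := by
  have h := hv_up (Zf M) B m j (0 :: ray k)
  rw [Zf_low M j (by simp)] at h
  simpa using h

/-- from the centre of a star -/
lemma hv_star (M : ℕ → ℕ) (B : Finset (List ℕ)) (m : ℕ) (k : ℕ) :
    hv (Zf M) B m (ray k) ≤ hv (Zf M) B m (0 :: ray k) := by
  set h := hv (Zf M) B m with hh
  have h1 := hv_ge (Zf M) B m 0 (ray k)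
  rw [← hh, Zstar] at h1
  have h2 : (M k : ℝ≥0∞) * h (0 :: ray k) ≤ ∑ j ∈ Finset.range (M k), h (j :: 0 :: ray k) := by
    calc (M k : ℝ≥0∞) * h (0 :: ray k) = ∑ j ∈ Finset.range (M k), h (0 :: ray k) := by simp
      _ ≤ _ := Finset.sum_le_sum fun j _ => hv_leaf M B m j k
  have hn0 : ((M k : ℝ≥0∞) + 1) ≠ 0 := by simp
  have hnt : ((M k : ℝ≥0∞) + 1) ≠ ⊤ := by finiteness
  rw [ENNReal.inv_mul_le_iff hn0 hnt] at h1
  have h3 : h (ray k) + (M k : ℝ≥0∞) * h (0 :: ray k)
      ≤ h (0 :: ray k) + (M k : ℝ≥0∞) * h (0 :: ray k) := by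
    calc h (ray k) + (M k : ℝ≥0∞) * h (0 :: ray k)
        ≤ h (ray k) + ∑ j ∈ Finset.range (M k), h (j :: 0 :: ray k) := by gcongr
      _ ≤ ((M k : ℝ≥0∞) + 1) * h (0 :: ray k) := h1
      _ = h (0 :: ray k) + (M k : ℝ≥0∞) * h (0 :: ray k) := by ring
  have hfin : (M k : ℝ≥0∞) * h (0 :: ray k) ≠ ⊤ :=
    ENNReal.mul_ne_top (by finiteness) (ne_top_of_le_ne_top ENNReal.one_ne_top (hv_le_one _ _ _ _))
  exact (ENNReal.add_le_add_iff_right hfin).1 h3

/-- from a leaf of level `k`, at least as much as from the ray -/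
lemma hv_LL (M : ℕ → ℕ) (B : Finset (List ℕ)) (m : ℕ) {k : ℕ} {x : List ℕ} (hx : x ∈ LL M k) :
    hv (Zf M) B m (ray k) ≤ hv (Zf M) B m x := by
  obtain ⟨j, _, rfl⟩ := mem_LL hx
  exact (hv_star M B m k).trans (hv_leaf M B m j k)

/-- downwards along the ray -/
lemma hv_ray_down (M : ℕ → ℕ) (B : Finset (List ℕ)) (m : ℕ) (k : ℕ) :
    ((DD k : ℝ≥0∞))⁻¹ * hv (Zf M) B m (ray (k + 1)) ≤ hv (Zf M) B m (ray k) := by
  rw [ray_succ, ← Zray' M k]
  apply hv_down
  rw [Zf_ord M (ray_ord k)]
  have : 0 < 2 ^ ((ray k).length + 3) := by positivity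
  omega

lemma hv_ray_star (M : ℕ → ℕ) (B : Finset (List ℕ)) (m : ℕ) (k : ℕ) :
    ((DD k : ℝ≥0∞))⁻¹ * hv (Zf M) B m (0 :: ray k) ≤ hv (Zf M) B m (ray k) := by
  rw [← Zray' M k]
  apply hv_down
  rw [Zf_ord M (ray_ord k)]
  exact Nat.succ_pos _

/-- upwards along the ray -/
lemma hv_ray_up (M : ℕ → ℕ) (B : Finset (List ℕ)) (m : ℕ) (k : ℕ) :
    ((DD (k + 1) : ℝ≥0∞))⁻¹ * hv (Zf M) B m (ray k) ≤ hv (Zf M) B m (ray (k + 1)) := by
  have h := hv_up (Zf M) B m 1 (ray k)
  rw [← ray_succ, Zray' M (k + 1)] at h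
  exact h

/-- visiting the root from the ray -/
lemma hv_root (M : ℕ → ℕ) (k : ℕ) :
    ∏ j ∈ Finset.range k, ((DD (j + 1) : ℝ≥0∞))⁻¹ ≤ hv (Zf M) {[]} 1 (ray k) := by
  induction k with
  | zero =>
    have h : {u | Vis (Zf M) {[]} 1 (ray 0) u} = Set.univ := by
      ext u
      simp only [Set.mem_univ, iff_true]
      exact ⟨{[]}, subset_rfl, by simp, fun y hy => ⟨0, by
        rw [Finset.mem_singleton] at hy; rw [hy]; rfl⟩⟩
    unfold hv
    rw [h, measure_univ]
    simp
  | succ k ih =>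
    rw [Finset.prod_range_succ, mul_comm]
    refine le_trans ?_ (hv_ray_up M _ _ k)
    gcongr

/-- from the root down the ray -/
lemma hv_from_root (M : ℕ → ℕ) (B : Finset (List ℕ)) (m : ℕ) (k : ℕ) :
    (∏ j ∈ Finset.range k, ((DD j : ℝ≥0∞))⁻¹) * hv (Zf M) B m (ray k) ≤ hv (Zf M) B m [] := by
  induction k with
  | zero => simp [ray]
  | succ k ih =>
    rw [Finset.prod_range_succ]
    refine le_trans ?_ ih
    rw [mul_assoc]
    gcongr
    exact hv_ray_down M B m k

/-- many leaves of a large star are visited -/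
lemma hv_many (M : ℕ → ℕ) (k : ℕ) (i : ℕ) : ∀ R ⊆ LL M k,
    ENNReal.ofReal (1 - i * (R.card + i) / (M k + 1)) ≤ hv (Zf M) (LL M k \ R) i (0 :: ray k) := by
  induction i with
  | zero =>
    intro R _
    have h : {u | Vis (Zf M) (LL M k \ R) 0 (0 :: ray k) u} = Set.univ := by
      ext u
      simp only [Set.mem_univ, iff_true]
      exact ⟨∅, Finset.empty_subset _, rfl, fun y hy => absurd hy (Finset.notMem_empty _)⟩
    unfold hv
    rw [h, measure_univ]
    simp
  | succ i ih =>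
    intro R hR
    set B := LL M k \ R with hB
    -- from a leaf outside `R`
    have hleaf : ∀ x ∈ B, ENNReal.ofReal (1 - i * ((R.card + 1) + i) / (M k + 1))
        ≤ hv (Zf M) B (i + 1) x := by
      intro x hx
      have hxL : x ∈ LL M k := (Finset.mem_sdiff.1 hx).1
      have hxR : x ∉ R := (Finset.mem_sdiff.1 hx).2
      have hR' : insert x R ⊆ LL M k := Finset.insert_subset hxL hR
      have h1 := ih (insert x R) hR'
      rw [Finset.card_insert_of_notMem hxR] at h1
      push_cast at h1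
      refine h1.trans ?_
      -- first step from the leaf
      obtain ⟨j, _, rfl⟩ := mem_LL hxL
      have h2 : hv (Zf M) (LL M k \ insert (j :: 0 :: ray k) R) i (0 :: ray k)
          = ∫⁻ s, ∫⁻ u, {u | Vis (Zf M) (LL M k \ insert (j :: 0 :: ray k) R) i
            (step (Zf M) (j :: 0 :: ray k) s) u}.indicator (1 : (ℕ → ℝ) → ℝ≥0∞) u ∂UU ∂unif := by
        have h3 : ∀ s, ∫⁻ u, {u | Vis (Zf M) (LL M k \ insert (j :: 0 :: ray k) R) i
            (step (Zf M) (j :: 0 :: ray k) s) u}.indicator (1 : (ℕ → ℝ) → ℝ≥0∞) u ∂UU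
            = hv (Zf M) (LL M k \ insert (j :: 0 :: ray k) R) i (0 :: ray k) := by
          intro s
          rw [lintegral_indicator_one (meas_vis _ _ _ _), step_low' M j (by simp)]
          rfl
        simp_rw [h3]
        simp
      rw [h2]
      have hG : Measurable fun p : ℝ × (ℕ → ℝ) =>
          ({u | Vis (Zf M) (LL M k \ insert (j :: 0 :: ray k) R) i
            (step (Zf M) (j :: 0 :: ray k) p.1) u}.indicator (1 : (ℕ → ℝ) → ℝ≥0∞) p.2) :=
        measurable_joint (Zf M) (j :: 0 :: ray k)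
          (fun y u => {u | Vis (Zf M) (LL M k \ insert (j :: 0 :: ray k) R) i y u}.indicator
            (1 : (ℕ → ℝ) → ℝ≥0∞) u)
          fun y => measurable_one.indicator (meas_vis (Zf M) _ i y)
      rw [← first (fun s u => {u | Vis (Zf M) (LL M k \ insert (j :: 0 :: ray k) R) i
            (step (Zf M) (j :: 0 :: ray k) s) u}.indicator (1 : (ℕ → ℝ) → ℝ≥0∞) u) hG]
      unfold hv
      rw [← lintegral_indicator_one (meas_vis (Zf M) B (i + 1) (j :: 0 :: ray k))]
      apply lintegral_mono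
      intro u
      simp only
      by_cases hu : Vis (Zf M) (LL M k \ insert (j :: 0 :: ray k) R) i
          (step (Zf M) (j :: 0 :: ray k) (u 0)) (sft u)
      · have hx2 : Vis (Zf M) B (i + 1) (j :: 0 :: ray k) u := by
          obtain ⟨T, hT, hc, hv⟩ := hu
          have hxT : (j :: 0 :: ray k) ∉ T := by
            intro h
            have := hT h
            rw [Finset.mem_sdiff] at this
            exact this.2 (Finset.mem_insert_self _ _)
          refine ⟨insert (j :: 0 :: ray k) T, ?_, ?_, ?_⟩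
          · apply Finset.insert_subset hx
            intro y hy
            have := hT hy
            rw [Finset.mem_sdiff, Finset.mem_insert, not_or] at this
            rw [hB, Finset.mem_sdiff]
            exact ⟨this.1, this.2.2⟩
          · rw [Finset.card_insert_of_notMem hxT, hc]
          · intro y hy
            rcases Finset.mem_insert.1 hy with rfl | hy
            · exact ⟨0, rfl⟩
            · obtain ⟨n, hn⟩ := hv y hy
              exact ⟨n + 1, by rw [walk_succ', hn]⟩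
        rw [Set.indicator_of_mem (show u ∈ {w | Vis (Zf M) B (i + 1) (j :: 0 :: ray k) w} from hx2)]
        exact Set.indicator_le_self' (fun _ _ => zero_le) _
      · have hu' : sft u ∉ {w | Vis (Zf M) (LL M k \ insert (j :: 0 :: ray k) R) i
            (step (Zf M) (j :: 0 :: ray k) (u 0)) w} := fun h => hu h
        rw [Set.indicator_of_notMem hu']
        exact zero_le
    -- average over the leaves
    have h1 := hv_ge (Zf M) B (i + 1) 0 (ray k)
    rw [Zstar] at h1
    refine le_trans ?_ h1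
    have hcard : B.card = M k - R.card := by
      rw [hB, Finset.card_sdiff_of_subset hR, LL_card]
    have hRM : R.card ≤ M k := by rw [← LL_card M k]; exact Finset.card_le_card hR
    have hsum : (B.card : ℝ≥0∞) * ENNReal.ofReal (1 - i * ((R.card + 1) + i) / (M k + 1))
        ≤ ∑ j ∈ Finset.range (M k), hv (Zf M) B (i + 1) (j :: 0 :: ray k) := by
      have h2 : ∑ j ∈ Finset.range (M k), hv (Zf M) B (i + 1) (j :: 0 :: ray k)
          = ∑ x ∈ LL M k, hv (Zf M) B (i + 1) x := by
        unfold LL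
        rw [Finset.sum_image]
        intro a _ b _ h
        exact (List.cons.inj h).1
      rw [h2]
      calc (B.card : ℝ≥0∞) * ENNReal.ofReal (1 - i * ((R.card + 1) + i) / (M k + 1))
          = ∑ x ∈ B, ENNReal.ofReal (1 - i * ((R.card + 1) + i) / (M k + 1)) := by simp
        _ ≤ ∑ x ∈ B, hv (Zf M) B (i + 1) x := Finset.sum_le_sum hleaf
        _ ≤ ∑ x ∈ LL M k, hv (Zf M) B (i + 1) x :=
            Finset.sum_le_sum_of_subset Finset.sdiff_subset
    have hn0 : ((M k : ℝ≥0∞) + 1) ≠ 0 := by simp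
    have hnt : ((M k : ℝ≥0∞) + 1) ≠ ⊤ := by finiteness
    have hM0 : (0 : ℝ) < (M k : ℝ) + 1 := by positivity
    calc ENNReal.ofReal (1 - ((i + 1 : ℕ) : ℝ) * (R.card + ((i + 1 : ℕ) : ℝ)) / (M k + 1))
        ≤ ENNReal.ofReal (((M k : ℝ) + 1)⁻¹ * ((M k - R.card : ℝ)
            * (1 - i * ((R.card + 1) + i) / (M k + 1)))) := by
          apply ENNReal.ofReal_le_ofReal
          push_cast
          have hR0 : (0 : ℝ) ≤ R.card := Nat.cast_nonneg _
          have hi0 : (0 : ℝ) ≤ i := Nat.cast_nonneg _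
          have hRM' : (R.card : ℝ) ≤ M k := by exact_mod_cast hRM
          set A : ℝ := ((R.card : ℝ) + 1) / (M k + 1) with hA
          set C : ℝ := (i : ℝ) * ((R.card + 1) + i) / (M k + 1) with hC
          have e1 : ((M k : ℝ) + 1)⁻¹ * ((M k - R.card : ℝ) * (1 - C)) = (1 - A) * (1 - C) := by
            rw [hA]; field_simp; ring
          rw [e1]
          have e2 : 0 ≤ A := by positivity
          have e3 : 0 ≤ C := by positivity
          have e4 : A + C ≤ ((i : ℝ) + 1) * (R.card + (i + 1)) / (M k + 1) := by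
            rw [hA, hC, ← add_div]
            apply div_le_div_of_nonneg_right _ hM0.le
            nlinarith
          nlinarith
      _ ≤ ((M k : ℝ≥0∞) + 1)⁻¹ * ((B.card : ℝ≥0∞)
            * ENNReal.ofReal (1 - i * ((R.card + 1) + i) / (M k + 1))) := by
          have hc' : ((M k - R.card : ℝ)) = (B.card : ℝ) := by
            rw [hcard, Nat.cast_sub hRM]
          rw [hc', ENNReal.ofReal_mul (by positivity), ENNReal.ofReal_mul (by positivity),
            ENNReal.ofReal_inv_of_pos hM0, ENNReal.ofReal_add (by positivity) (by norm_num),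
            ENNReal.ofReal_natCast, ENNReal.ofReal_natCast, ENNReal.ofReal_one]
      _ ≤ ((M k : ℝ≥0∞) + 1)⁻¹ * (hv (Zf M) B (i + 1) (ray k) +
            ∑ j ∈ Finset.range (M k), hv (Zf M) B (i + 1) (j :: 0 :: ray k)) := by
          gcongr
          exact hsum.trans le_add_self

lemma hv_half (M : ℕ → ℕ) (k m : ℕ) (hm : 2 * m ^ 2 ≤ M k + 1) :
    ENNReal.ofReal (1 / 2) ≤ hv (Zf M) (LL M k) m (0 :: ray k) := by
  have h := hv_many M k m ∅ (Finset.empty_subset _)
  rw [Finset.sdiff_empty] at h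
  refine le_trans ?_ h
  apply ENNReal.ofReal_le_ofReal
  have h1 : (2 : ℝ) * m ^ 2 ≤ M k + 1 := by exact_mod_cast hm
  have h2 : (m : ℝ) * (((∅ : Finset (List ℕ)).card : ℝ) + m) / (M k + 1) ≤ 1 / 2 := by
    rw [Finset.card_empty, div_le_iff₀ (by positivity)]
    push_cast
    nlinarith
  linarith

end Q293.Frog
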