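import Pool.Agent.Q293.FrogC

/-!
# The frog model on the tree with large stars is never transient
-/

set_option autoImplicit false

namespace Q293.Frog

open MeasureTheory ProbabilityTheory Filter FrogGW
open scoped ENNReal NNReal Classical Topology

section product

variable {ι α : Type*} [DecidableEq ι] [MeasurableSpace α] (ν : Measure α)
  [IsProbabilityMeasure ν]

/-- resampling one coordinate -/
lemma resample (v : ι) :
    MeasurePreserving (fun p : α × (ι → α) => Function.update p.2 v p.1)
      (ν.prod (Measure.infinitePi fun _ : ι => ν)) (Measure.infinitePi fun _ : ι => ν) := by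
  have hmeas : Measurable (fun p : α × (ι → α) => Function.update p.2 v p.1) := by
    have := (measurable_update' (a := v) (X := fun _ : ι => α))
    exact this.comp measurable_swap
  refine ⟨hmeas, ?_⟩
  apply Measure.eq_infinitePi
  intro s t ht
  rw [Measure.map_apply hmeas (MeasurableSet.pi s.countable_toSet fun i _ => ht i)]
  have hset : (fun p : α × (ι → α) => Function.update p.2 v p.1) ⁻¹' (Set.pi s t)
      = (if v ∈ s then t v else Set.univ) ×ˢ (Set.pi (s.erase v) t) := by
    ext ⟨c, x⟩
    simp only [Set.mem_preimage, Set.mem_pi, Set.mem_prod, Finset.mem_coe, Finset.mem_erase]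
    constructor
    · intro h
      constructor
      · split_ifs with hv
        · have := h v hv
          rwa [Function.update_self] at this
        · trivial
      · rintro i ⟨hi, his⟩
        have := h i his
        rwa [Function.update_of_ne hi] at this
    · rintro ⟨h1, h2⟩ i hi
      by_cases hiv : i = v
      · subst hiv
        rw [if_pos hi] at h1
        rwa [Function.update_self]
      · rw [Function.update_of_ne hiv]
        exact h2 i ⟨hiv, hi⟩
  rw [hset, Measure.prod_prod]
  have h1 := Measure.infinitePi_pi (μ := fun _ : ι => ν) (s := s.erase v) (t := t)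
    (fun i _ => ht i)
  rw [h1]
  split_ifs with hv
  · rw [Finset.mul_prod_erase s (fun i => ν (t i)) hv]
  · rw [measure_univ, one_mul, Finset.erase_eq_of_notMem hv]

lemma indep_coord (v : ι) {E : Set (ι → α)} (hE : MeasurableSet E)
    (hup : ∀ ω c, Function.update ω v c ∈ E ↔ ω ∈ E) {F : Set α} (hF : MeasurableSet F) :
    (Measure.infinitePi fun _ : ι => ν) (E ∩ {ω | ω v ∈ F})
      = (Measure.infinitePi fun _ : ι => ν) E * ν F := by
  have hmeas : MeasurableSet (E ∩ {ω : ι → α | ω v ∈ F}) :=
    hE.inter ((measurable_pi_apply v) hF)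
  rw [← (resample ν v).measure_preimage hmeas.nullMeasurableSet]
  have hset : (fun p : α × (ι → α) => Function.update p.2 v p.1) ⁻¹' (E ∩ {ω | ω v ∈ F})
      = F ×ˢ E := by
    ext ⟨c, ω⟩
    simp only [Set.mem_preimage, Set.mem_inter_iff, Set.mem_ofPred_eq, Set.mem_prod,
      Function.update_self, hup]
    tauto
  rw [hset, Measure.prod_prod, mul_comm]

lemma prod_coord (T : Finset ι) {E : Set (ι → α)} (hE : MeasurableSet E)
    (hup : ∀ v ∈ T, ∀ ω c, Function.update ω v c ∈ E ↔ ω ∈ E) (F : ι → Set α)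
    (hF : ∀ v, MeasurableSet (F v)) :
    (Measure.infinitePi fun _ : ι => ν) (E ∩ {ω | ∀ v ∈ T, ω v ∈ F v})
      = (Measure.infinitePi fun _ : ι => ν) E * ∏ v ∈ T, ν (F v) := by
  induction T using Finset.induction_on with
  | empty =>
    have : E ∩ {ω : ι → α | ∀ v ∈ (∅ : Finset ι), ω v ∈ F v} = E := by ext ω; simp
    rw [this]; simp
  | insert a T ha ih =>
    have hset : E ∩ {ω : ι → α | ∀ v ∈ insert a T, ω v ∈ F v}
        = (E ∩ {ω | ∀ v ∈ T, ω v ∈ F v}) ∩ {ω | ω a ∈ F a} := by
      ext ω
      simp only [Set.mem_inter_iff, Set.mem_ofPred_eq, Finset.mem_insert, forall_eq_or_imp]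
      tauto
    have hm : MeasurableSet {ω : ι → α | ∀ v ∈ T, ω v ∈ F v} := by
      have : {ω : ι → α | ∀ v ∈ T, ω v ∈ F v} = ⋂ v ∈ T, {ω | ω v ∈ F v} := by
        ext ω; simp
      rw [this]
      exact Finset.measurableSet_biInter _ fun v _ => (measurable_pi_apply v) (hF v)
    rw [hset, indep_coord ν a (hE.inter hm) _ (hF a), ih (fun v hv => hup v (Finset.mem_insert_of_mem hv)),
      Finset.prod_insert ha]
    · ring
    · intro ω c
      simp only [Set.mem_inter_iff, Set.mem_ofPred_eq, hup a (Finset.mem_insert_self _ _) ω c]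
      constructor
      · rintro ⟨h1, h2⟩
        refine ⟨h1, fun v hv => ?_⟩
        have := h2 v hv
        rwa [Function.update_of_ne (by rintro rfl; exact ha hv)] at this
      · rintro ⟨h1, h2⟩
        refine ⟨h1, fun v hv => ?_⟩
        rw [Function.update_of_ne (by rintro rfl; exact ha hv)]
        exact h2 v hv

end product

/-- the activated leaves of the successive stars -/
noncomputable def act (M : ℕ → ℕ) (k0 : ℕ) : ℕ → Conf → Finset (List ℕ)
  | 0, ω => (LL M k0).filter fun l => ∃ n, walk (Zf M) [] ((ω []).2 0) n = l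
  | i + 1, ω => (LL M (k0 + i + 1)).filter fun l' =>
      ∃ l ∈ act M k0 i ω, 1 ≤ (ω l).1 ∧ ∃ n, walk (Zf M) l ((ω l).2 0) n = l'

lemma act_sub (M : ℕ → ℕ) (k0 i : ℕ) (ω : Conf) : act M k0 i ω ⊆ LL M (k0 + i) := by
  cases i with
  | zero => exact Finset.filter_subset _ _
  | succ i => exact Finset.filter_subset _ _

lemma act_active (M : ℕ → ℕ) (k0 i : ℕ) (ω : Conf) :
    ∀ l ∈ act M k0 i ω, Active (Zf M) ω l := by
  induction i with
  | zero =>
    intro l hl
    rw [act, Finset.mem_filter] at hl
    obtain ⟨n, hn⟩ := hl.2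
    exact Active.wake (x := []) 0 n Active.root (by simp [cnt]) hn
  | succ i ih =>
    intro l' hl'
    rw [act, Finset.mem_filter] at hl'
    obtain ⟨l, hl, h1, n, hn⟩ := hl'.2
    have hlen := LL_length (act_sub M k0 i ω hl)
    have hcnt : cnt l (ω l) = (ω l).1 := by
      cases l with
      | nil => simp at hlen
      | cons a l => rfl
    exact Active.wake (x := l) 0 n (ih l hl) (by rw [hcnt]; omega) hn

lemma act_update (M : ℕ → ℕ) (k0 i : ℕ) (ω : Conf) (x : List ℕ) (c : Rd)
    (hx : k0 + i + 2 ≤ x.length) : act M k0 i (Function.update ω x c) = act M k0 i ω := by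
  induction i with
  | zero =>
    have h : [] ≠ x := by rintro rfl; simp at hx
    rw [act, act, Function.update_of_ne h]
  | succ i ih =>
    rw [act, act, ih (by omega)]
    apply Finset.filter_congr
    intro l' _
    constructor
    · rintro ⟨l, hl, h⟩
      have hlen := LL_length (act_sub M k0 i ω hl)
      have hne : l ≠ x := by rintro rfl; omega
      rw [Function.update_of_ne hne] at h
      exact ⟨l, hl, h⟩
    · rintro ⟨l, hl, h⟩
      have hlen := LL_length (act_sub M k0 i ω hl)
      have hne : l ≠ x := by rintro rfl; omega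
      refine ⟨l, hl, ?_⟩
      rw [Function.update_of_ne hne]
      exact h

lemma meas_drive (Z : Env) (x l y : List ℕ) (n : ℕ) :
    MeasurableSet {ω : Conf | walk Z x ((ω l).2 0) n = y} := by
  have h1 : Measurable fun ω : Conf => (ω l).2 0 :=
    (measurable_pi_apply 0).comp (measurable_snd.comp (measurable_pi_apply l))
  exact h1 (Pool.Agent.W45.FG.meas_walk Z x n y)

lemma meas_mem_act (M : ℕ → ℕ) (k0 i : ℕ) :
    ∀ l, MeasurableSet {ω : Conf | l ∈ act M k0 i ω} := by
  induction i with
  | zero =>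
    intro l
    by_cases hl : l ∈ LL M k0
    · have : {ω : Conf | l ∈ act M k0 0 ω} = ⋃ n, {ω | walk (Zf M) [] ((ω []).2 0) n = l} := by
        ext ω
        simp only [act, Finset.mem_filter, hl, true_and, Set.mem_ofPred_eq, Set.mem_iUnion]
      rw [this]
      exact MeasurableSet.iUnion fun n => meas_drive _ _ _ _ _
    · have : {ω : Conf | l ∈ act M k0 0 ω} = ∅ := by
        ext ω
        simp only [act, Finset.mem_filter, hl, false_and, Set.mem_ofPred_eq, Set.mem_empty_iff_false]
      rw [this]; exact MeasurableSet.empty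
  | succ i ih =>
    intro l'
    by_cases hl : l' ∈ LL M (k0 + i + 1)
    · have : {ω : Conf | l' ∈ act M k0 (i + 1) ω} = ⋃ l : List ℕ, ({ω | l ∈ act M k0 i ω} ∩
          ({ω | 1 ≤ (ω l).1} ∩ ⋃ n, {ω | walk (Zf M) l ((ω l).2 0) n = l'})) := by
        ext ω
        simp only [act, Finset.mem_filter, hl, true_and, Set.mem_ofPred_eq, Set.mem_iUnion,
          Set.mem_inter_iff]
      rw [this]
      refine MeasurableSet.iUnion fun l => (ih l).inter (MeasurableSet.inter ?_ ?_)
      · have h1 : Measurable fun ω : Conf => (ω l).1 := measurable_fst.comp (measurable_pi_apply l)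
        exact h1 (MeasurableSet.of_discrete (s := {n : ℕ | 1 ≤ n}))
      · exact MeasurableSet.iUnion fun n => meas_drive _ _ _ _ _
    · have : {ω : Conf | l' ∈ act M k0 (i + 1) ω} = ∅ := by
        ext ω
        simp only [act, Finset.mem_filter, hl, false_and, Set.mem_ofPred_eq, Set.mem_empty_iff_false]
      rw [this]; exact MeasurableSet.empty

lemma meas_act (M : ℕ → ℕ) (k0 i : ℕ) (T : Finset (List ℕ)) :
    MeasurableSet {ω : Conf | act M k0 i ω = T} := by
  have : {ω : Conf | act M k0 i ω = T} = ⋂ l : List ℕ, {ω | l ∈ act M k0 i ω ↔ l ∈ T} := by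
    ext ω
    simp only [Set.mem_ofPred_eq, Set.mem_iInter, Finset.ext_iff]
  rw [this]
  refine MeasurableSet.iInter fun l => ?_
  by_cases h : l ∈ T
  · simp only [h, iff_true]; exact meas_mem_act M k0 i l
  · simp only [h, iff_false]; exact (meas_mem_act M k0 i l).compl

/-- all activated leaves fail only with small probability -/
lemma fail_bound (M : ℕ → ℕ) (k0 i m : ℕ) (lam : ℝ≥0) (Fl : List ℕ → Set Rd)
    (hFl : ∀ l, MeasurableSet (Fl l)) (β : ℝ≥0∞) (hβ : β ≤ 1)
    (hp : ∀ l ∈ LL M (k0 + i), vertexLaw lam (Fl l) ≤ β) :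
    FM lam {ω | m ≤ (act M k0 i ω).card ∧ ∀ l ∈ act M k0 i ω, ω l ∈ Fl l} ≤ β ^ m := by
  set S := (LL M (k0 + i)).powerset.filter fun T => m ≤ T.card with hS
  have hsub : {ω : Conf | m ≤ (act M k0 i ω).card ∧ ∀ l ∈ act M k0 i ω, ω l ∈ Fl l}
      ⊆ ⋃ T ∈ S, ({ω | act M k0 i ω = T} ∩ {ω | ∀ l ∈ T, ω l ∈ Fl l}) := by
    rintro ω ⟨h1, h2⟩
    simp only [Set.mem_iUnion, Set.mem_inter_iff, Set.mem_ofPred_eq]
    exact ⟨act M k0 i ω, by rw [hS, Finset.mem_filter, Finset.mem_powerset]; exact ⟨act_sub _ _ _ _, h1⟩,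
      rfl, h2⟩
  calc FM lam {ω | m ≤ (act M k0 i ω).card ∧ ∀ l ∈ act M k0 i ω, ω l ∈ Fl l}
      ≤ FM lam (⋃ T ∈ S, ({ω | act M k0 i ω = T} ∩ {ω | ∀ l ∈ T, ω l ∈ Fl l})) :=
        measure_mono hsub
    _ ≤ ∑ T ∈ S, FM lam ({ω | act M k0 i ω = T} ∩ {ω | ∀ l ∈ T, ω l ∈ Fl l}) :=
        measure_biUnion_finset_le _ _
    _ ≤ ∑ T ∈ S, FM lam {ω | act M k0 i ω = T} * β ^ m := by
        apply Finset.sum_le_sum
        intro T hT
        rw [hS, Finset.mem_filter, Finset.mem_powerset] at hT
        unfold FM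
        rw [prod_coord (vertexLaw lam) T (meas_act M k0 i T) _ Fl hFl]
        · gcongr
          calc ∏ l ∈ T, vertexLaw lam (Fl l) ≤ ∏ _l ∈ T, β :=
                Finset.prod_le_prod' fun l hl => hp l (hT.1 hl)
            _ = β ^ T.card := by simp
            _ ≤ β ^ m := pow_le_pow_right_of_le_one' hβ hT.2
        · intro v hv ω c
          have hlen := LL_length (hT.1 hv)
          simp only [Set.mem_ofPred_eq]
          rw [act_update M k0 i ω v c (by omega)]
    _ = (∑ T ∈ S, FM lam {ω | act M k0 i ω = T}) * β ^ m := by rw [Finset.sum_mul]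
    _ ≤ 1 * β ^ m := by
        gcongr
        rw [← measure_biUnion_finset]
        · exact prob_le_one
        · intro T _ T' _ hTT'
          rw [Function.onFun, Set.disjoint_left]
          intro ω h1 h2
          exact hTT' (h1.symm.trans h2)
        · intro T _
          exact meas_act M k0 i T
    _ = β ^ m := one_mul _

end Q293.Frog
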