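import Pool.Agent.Q293.FrogD

/-!
# The frog model on the tree with large stars: infinitely many particles visit the root
-/

set_option autoImplicit false

namespace Q293.Frog

open MeasureTheory ProbabilityTheory Filter FrogGW
open scoped ENNReal NNReal Classical Topology

/-- basic success probability -/
noncomputable def rho (k : ℕ) : ℝ := (∏ j ∈ Finset.range (k + 2), ((DD j : ℝ))⁻¹) * (1 / 2)

lemma DD_pos (k : ℕ) : (0 : ℝ) < DD k := by unfold DD; positivity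

lemma DD_inv_le (k : ℕ) : ((DD k : ℝ))⁻¹ ≤ 1 := by
  apply inv_le_one_of_one_le₀
  have : 1 ≤ DD k := le_add_left (by norm_num)
  exact_mod_cast this

lemma rho_pos (k : ℕ) : 0 < rho k := by
  unfold rho
  apply mul_pos _ (by norm_num)
  exact Finset.prod_pos fun j _ => inv_pos.2 (DD_pos j)

lemma rho_le (k : ℕ) : rho k ≤ 1 / 2 := by
  unfold rho
  have : ∏ j ∈ Finset.range (k + 2), ((DD j : ℝ))⁻¹ ≤ 1 :=
    Finset.prod_le_one (fun j _ => (inv_pos.2 (DD_pos j)).le) fun j _ => DD_inv_le j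
  linarith

lemma rho_anti (k i : ℕ) : rho (k + i) ≤ rho k := by
  induction i with
  | zero => exact le_rfl
  | succ i ih =>
    refine le_trans ?_ ih
    unfold rho
    rw [show k + (i + 1) + 2 = (k + i + 2) + 1 by ring, Finset.prod_range_succ]
    have h1 : 0 ≤ ∏ j ∈ Finset.range (k + i + 2), ((DD j : ℝ))⁻¹ :=
      Finset.prod_nonneg fun j _ => (inv_pos.2 (DD_pos j)).le
    have h2 := DD_inv_le (k + i + 2)
    nlinarith

lemma ofReal_rho (k : ℕ) : ENNReal.ofReal (rho k)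
    = (∏ j ∈ Finset.range (k + 2), ((DD j : ℝ≥0∞))⁻¹) * ENNReal.ofReal (1 / 2) := by
  unfold rho
  rw [ENNReal.ofReal_mul (Finset.prod_nonneg fun j _ => (inv_pos.2 (DD_pos j)).le),
    ENNReal.ofReal_prod_of_nonneg (fun j _ => (inv_pos.2 (DD_pos j)).le)]
  congr 1
  apply Finset.prod_congr rfl
  intro j _
  rw [ENNReal.ofReal_inv_of_pos (DD_pos j), ENNReal.ofReal_natCast]

lemma DDinv_le' (k : ℕ) : ((DD k : ℝ≥0∞))⁻¹ ≤ 1 := by
  rw [ENNReal.inv_le_one]
  have : 1 ≤ DD k := le_add_left (by norm_num)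
  exact_mod_cast this

/-- (a) a particle from a leaf of level `k` visits many leaves of level `k + 1` -/
lemma succ_a (M : ℕ → ℕ) (m k : ℕ) (hm : 2 * m ^ 2 ≤ M (k + 1) + 1) {x : List ℕ} (hx : x ∈ LL M k) :
    ENNReal.ofReal (rho k) ≤ hv (Zf M) (LL M (k + 1)) m x := by
  have h1 := hv_LL M (LL M (k + 1)) m hx
  have h2 := hv_ray_down M (LL M (k + 1)) m k
  have h3 := hv_ray_star M (LL M (k + 1)) m (k + 1)
  have h4 := hv_half M (k + 1) m hm
  rw [ofReal_rho]
  calc (∏ j ∈ Finset.range (k + 2), ((DD j : ℝ≥0∞))⁻¹) * ENNReal.ofReal (1 / 2)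
      ≤ (((DD k : ℝ≥0∞))⁻¹ * ((DD (k + 1) : ℝ≥0∞))⁻¹) * ENNReal.ofReal (1 / 2) := by
        gcongr
        rw [Finset.prod_range_succ, Finset.prod_range_succ]
        gcongr
        calc (∏ j ∈ Finset.range k, ((DD j : ℝ≥0∞))⁻¹) * ((DD k : ℝ≥0∞))⁻¹
            ≤ 1 * ((DD k : ℝ≥0∞))⁻¹ := by
              gcongr
              exact Finset.prod_le_one' fun j _ => DDinv_le' j
          _ = _ := one_mul _
    _ ≤ ((DD k : ℝ≥0∞))⁻¹ * (((DD (k + 1) : ℝ≥0∞))⁻¹ * hv (Zf M) (LL M (k + 1)) m (0 :: ray (k + 1))) := by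
        rw [mul_assoc]
        gcongr
    _ ≤ ((DD k : ℝ≥0∞))⁻¹ * hv (Zf M) (LL M (k + 1)) m (ray (k + 1)) := by gcongr
    _ ≤ hv (Zf M) (LL M (k + 1)) m (ray k) := h2
    _ ≤ _ := h1

/-- (b) a particle from a leaf of level `k` visits the root -/
lemma succ_b (M : ℕ → ℕ) (k : ℕ) {x : List ℕ} (hx : x ∈ LL M k) :
    ENNReal.ofReal (rho k) ≤ hv (Zf M) {[]} 1 x := by
  refine le_trans ?_ ((hv_root M k).trans (hv_LL M _ _ hx))
  rw [ofReal_rho]
  calc (∏ j ∈ Finset.range (k + 2), ((DD j : ℝ≥0∞))⁻¹) * ENNReal.ofReal (1 / 2)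
      ≤ (∏ j ∈ Finset.range (k + 2), ((DD j : ℝ≥0∞))⁻¹) * 1 := by
        gcongr
        rw [← ENNReal.ofReal_one]
        exact ENNReal.ofReal_le_ofReal (by norm_num)
    _ = (∏ j ∈ Finset.range k, ((DD (j + 1) : ℝ≥0∞))⁻¹) * ((DD (k + 1) : ℝ≥0∞))⁻¹ * ((DD 0 : ℝ≥0∞))⁻¹ := by
        rw [mul_one, Finset.prod_range_succ', Finset.prod_range_succ]
    _ ≤ (∏ j ∈ Finset.range k, ((DD (j + 1) : ℝ≥0∞))⁻¹) * 1 * 1 := by
        gcongr
        · exact DDinv_le' _
        · exact DDinv_le' _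
    _ = _ := by ring

/-- (c) the first particle visits many leaves of level `k` -/
lemma succ_c (M : ℕ → ℕ) (m k : ℕ) (hm : 2 * m ^ 2 ≤ M k + 1) :
    ENNReal.ofReal (rho k) ≤ hv (Zf M) (LL M k) m [] := by
  refine le_trans ?_ (hv_from_root M (LL M k) m k)
  rw [ofReal_rho]
  calc (∏ j ∈ Finset.range (k + 2), ((DD j : ℝ≥0∞))⁻¹) * ENNReal.ofReal (1 / 2)
      = (∏ j ∈ Finset.range k, ((DD j : ℝ≥0∞))⁻¹) * (((DD k : ℝ≥0∞))⁻¹ *
          (((DD (k + 1) : ℝ≥0∞))⁻¹ * ENNReal.ofReal (1 / 2))) := by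
        rw [Finset.prod_range_succ, Finset.prod_range_succ]; ring
    _ ≤ (∏ j ∈ Finset.range k, ((DD j : ℝ≥0∞))⁻¹) * (((DD k : ℝ≥0∞))⁻¹ *
          (1 * hv (Zf M) (LL M k) m (0 :: ray k))) := by
        gcongr
        · exact DDinv_le' _
        · exact hv_half M k m hm
    _ ≤ _ := by
        rw [one_mul]
        gcongr
        exact hv_ray_star M _ _ _

/-- success probability of one sleeping place -/
noncomputable def theta (k : ℕ) : ℝ := rho k * (1 / (2 * (k + 1)))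

lemma theta_pos (k : ℕ) : 0 < theta k := by
  unfold theta
  have := rho_pos k
  positivity

lemma theta_le (k : ℕ) : theta k ≤ 1 := by
  unfold theta
  have h1 := rho_le k
  have h2 := rho_pos k
  have h3 : 1 / (2 * ((k : ℝ) + 1)) ≤ 1 := by
    rw [div_le_one (by positivity)]
    have : (0 : ℝ) ≤ k := Nat.cast_nonneg k
    linarith
  have h4 : 0 ≤ 1 / (2 * ((k : ℝ) + 1)) := by positivity
  nlinarith

lemma exists_m (k : ℕ) : ∃ m : ℕ, 2 * (1 - theta k) ^ m ≤ rho k * (1 / 2) ^ (k + 2) := by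
  have h1 : 0 < rho k * (1 / 2) ^ (k + 2) / 2 := by
    have := rho_pos k
    positivity
  obtain ⟨m, hm⟩ := exists_pow_lt_of_lt_one h1 (show 1 - theta k < 1 by linarith [theta_pos k])
  exact ⟨m, by linarith⟩

/-- numbers of leaves that must be visited -/
noncomputable def mm (k : ℕ) : ℕ := (exists_m k).choose

lemma mm_spec (k : ℕ) : 2 * (1 - theta k) ^ (mm k) ≤ rho k * (1 / 2) ^ (k + 2) :=
  (exists_m k).choose_spec

/-- numbers of leaves -/
noncomputable def MM (k : ℕ) : ℕ := 2 * mm k ^ 2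

lemma poisson_ge (lam : ℝ≥0) (k : ℕ) (h : 1 / ((k : ℝ) + 1) ≤ lam) :
    ENNReal.ofReal (1 / (2 * (k + 1))) ≤ poissonMeasure lam {n | 1 ≤ n} := by
  have h1 : {n : ℕ | 1 ≤ n} = ({0} : Set ℕ)ᶜ := by
    ext n; simp [Nat.one_le_iff_ne_zero]
  rw [h1, prob_compl_eq_one_sub (measurableSet_singleton 0), poissonMeasure_singleton]
  simp only [pow_zero, mul_one, Nat.factorial_zero, Nat.cast_one, div_one]
  rw [← ENNReal.ofReal_one, ← ENNReal.ofReal_sub _ (Real.exp_pos _).le]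
  apply ENNReal.ofReal_le_ofReal
  set t : ℝ := 1 / ((k : ℝ) + 1) with ht
  have ht0 : 0 < t := by positivity
  have ht1 : t ≤ 1 := by
    rw [ht, div_le_one (by positivity)]
    have : (0 : ℝ) ≤ k := Nat.cast_nonneg k
    linarith
  have h2 : Real.exp (-(lam : ℝ)) ≤ Real.exp (-t) := Real.exp_le_exp.2 (by linarith)
  have h3 : Real.exp (-t) ≤ 1 - t / 2 := by
    have h4 : 1 + t ≤ Real.exp t := by linarith [Real.add_one_le_exp t]
    rw [Real.exp_neg]
    calc (Real.exp t)⁻¹ ≤ (1 + t)⁻¹ := inv_anti₀ (by linarith) h4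
      _ ≤ 1 - t / 2 := by
        rw [inv_le_iff_one_le_mul₀ (by linarith)]
        nlinarith
  have h5 : 1 / (2 * ((k : ℝ) + 1)) = t / 2 := by rw [ht]; field_simp
  rw [h5]
  linarith

/-- success set of a vertex -/
def Suc (Z : Env) (B : Finset (List ℕ)) (m : ℕ) (l : List ℕ) : Set Rd :=
  {r | 1 ≤ r.1 ∧ Vis Z B m l (r.2 0)}

lemma Suc_eq (Z : Env) (B : Finset (List ℕ)) (m : ℕ) (l : List ℕ) :
    Suc Z B m l = {n : ℕ | 1 ≤ n} ×ˢ {d : ℕ → ℕ → ℝ | Vis Z B m l (d 0)} := by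
  ext r
  simp [Suc]

lemma meas_vis0 (Z : Env) (B : Finset (List ℕ)) (m : ℕ) (l : List ℕ) :
    MeasurableSet {d : ℕ → ℕ → ℝ | Vis Z B m l (d 0)} := by
  have h : Measurable fun d : ℕ → ℕ → ℝ => d 0 := measurable_pi_apply 0
  exact h (meas_vis Z B m l)

lemma meas_Suc (Z : Env) (B : Finset (List ℕ)) (m : ℕ) (l : List ℕ) :
    MeasurableSet (Suc Z B m l) := by
  rw [Suc_eq]
  exact (MeasurableSet.of_discrete).prod (meas_vis0 Z B m l)

lemma infinite_vis0 (Z : Env) (B : Finset (List ℕ)) (m : ℕ) (l : List ℕ) :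
    (Measure.infinitePi fun _ : ℕ => Measure.infinitePi fun _ : ℕ => unif)
      {d : ℕ → ℕ → ℝ | Vis Z B m l (d 0)} = hv Z B m l := by
  have h := measurePreserving_eval_infinitePi (fun _ : ℕ => UU) (0 : ℕ)
  have h2 := h.measure_preimage (meas_vis Z B m l).nullMeasurableSet
  exact h2

lemma vertexLaw_Suc (lam : ℝ≥0) (Z : Env) (B : Finset (List ℕ)) (m : ℕ) (l : List ℕ) :
    vertexLaw lam (Suc Z B m l) = poissonMeasure lam {n | 1 ≤ n} * hv Z B m l := by
  rw [Suc_eq]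
  unfold vertexLaw
  rw [Measure.prod_prod, infinite_vis0]

lemma vertexLaw_fail (lam : ℝ≥0) (k : ℕ) (hlam : 1 / ((k : ℝ) + 1) ≤ lam) (Z : Env)
    (B : Finset (List ℕ)) (m : ℕ) (l : List ℕ) (h : ENNReal.ofReal (rho k) ≤ hv Z B m l) :
    vertexLaw lam (Suc Z B m l)ᶜ ≤ ENNReal.ofReal (1 - theta k) := by
  rw [prob_compl_eq_one_sub (meas_Suc Z B m l), vertexLaw_Suc,
    ENNReal.ofReal_sub _ (theta_pos k).le, ENNReal.ofReal_one]
  apply tsub_le_tsub_left
  unfold theta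
  rw [ENNReal.ofReal_mul (rho_pos k).le, mul_comm]
  exact mul_le_mul' (poisson_ge lam k hlam) h

/-- the good event -/
def Good (k0 : ℕ) : Set Conf :=
  {ω | ∀ i, ∃ l ∈ act MM k0 i ω, 1 ≤ (ω l).1 ∧ Vis (Zf MM) {[]} 1 l ((ω l).2 0)}

/-- first kind of failure -/
def F1 (k0 i : ℕ) : Set Conf :=
  {ω | mm (k0 + i) ≤ (act MM k0 i ω).card ∧ ∀ l ∈ act MM k0 i ω,
    ω l ∈ (Suc (Zf MM) (LL MM (k0 + i + 1)) (mm (k0 + i + 1)) l)ᶜ}

/-- second kind of failure -/
def F2 (k0 i : ℕ) : Set Conf :=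
  {ω | mm (k0 + i) ≤ (act MM k0 i ω).card ∧ ∀ l ∈ act MM k0 i ω,
    ω l ∈ (Suc (Zf MM) {[]} 1 l)ᶜ}

/-- the start -/
def H0 (k0 : ℕ) : Set Conf := {ω | Vis (Zf MM) (LL MM k0) (mm k0) [] ((ω []).2 0)}

lemma start_card (k0 : ℕ) {ω : Conf} (h : ω ∈ H0 k0) : mm k0 ≤ (act MM k0 0 ω).card := by
  obtain ⟨T, hT, hc, hv⟩ := h
  rw [← hc]
  apply Finset.card_le_card
  intro y hy
  rw [act, Finset.mem_filter]
  exact ⟨hT hy, hv y hy⟩

lemma cover (k0 : ℕ) : H0 k0 ⊆ Good k0 ∪ ⋃ i, (F1 k0 i ∪ F2 k0 i) := by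
  intro ω hω
  by_cases hcov : ω ∈ ⋃ i, (F1 k0 i ∪ F2 k0 i)
  · exact Or.inr hcov
  · left
    rw [Set.mem_iUnion, not_exists] at hcov
    have hcard : ∀ i, mm (k0 + i) ≤ (act MM k0 i ω).card := by
      intro i
      induction i with
      | zero => exact start_card k0 hω
      | succ i ih =>
        have h1 : ω ∉ F1 k0 i := fun h => hcov i (Or.inl h)
        simp only [F1, Set.mem_ofPred_eq, not_and] at h1
        have h2 := h1 ih
        push Not at h2
        obtain ⟨l, hl, hl2⟩ := h2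
        rw [Set.mem_compl_iff, not_not] at hl2
        obtain ⟨h3, T, hT, hc, hv⟩ := hl2
        rw [← add_assoc, ← hc]
        apply Finset.card_le_card
        intro y hy
        rw [act, Finset.mem_filter]
        exact ⟨hT hy, l, hl, h3, hv y hy⟩
    intro i
    have h1 : ω ∉ F2 k0 i := fun h => hcov i (Or.inr h)
    simp only [F2, Set.mem_ofPred_eq, not_and] at h1
    have h2 := h1 (hcard i)
    push Not at h2
    obtain ⟨l, hl, hl2⟩ := h2
    rw [Set.mem_compl_iff, not_not] at hl2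
    exact ⟨l, hl, hl2.1, hl2.2⟩

lemma MM_spec (k : ℕ) : 2 * mm k ^ 2 ≤ MM k + 1 := by unfold MM; omega

lemma F_bound (lam : ℝ≥0) (k0 i : ℕ) (hlam : 1 / ((k0 : ℝ) + 1) ≤ lam) :
    FM lam (F1 k0 i) + FM lam (F2 k0 i) ≤ ENNReal.ofReal (rho k0 * (1 / 2) ^ (i + 2)) := by
  have hlam' : 1 / (((k0 + i : ℕ) : ℝ) + 1) ≤ lam := by
    refine le_trans ?_ hlam
    apply one_div_le_one_div_of_le (by positivity)
    push_cast
    have : (0 : ℝ) ≤ i := Nat.cast_nonneg i
    linarith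
  have hβ : ENNReal.ofReal (1 - theta (k0 + i)) ≤ 1 := by
    rw [← ENNReal.ofReal_one]
    exact ENNReal.ofReal_le_ofReal (by linarith [theta_pos (k0 + i)])
  have h1 : FM lam (F1 k0 i) ≤ ENNReal.ofReal (1 - theta (k0 + i)) ^ mm (k0 + i) := by
    apply fail_bound MM k0 i (mm (k0 + i)) lam
      (fun l => (Suc (Zf MM) (LL MM (k0 + i + 1)) (mm (k0 + i + 1)) l)ᶜ)
      (fun l => (meas_Suc _ _ _ _).compl) _ hβ
    intro l hl
    exact vertexLaw_fail lam (k0 + i) hlam' _ _ _ _ (succ_a MM _ _ (MM_spec _) hl)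
  have h2 : FM lam (F2 k0 i) ≤ ENNReal.ofReal (1 - theta (k0 + i)) ^ mm (k0 + i) := by
    apply fail_bound MM k0 i (mm (k0 + i)) lam
      (fun l => (Suc (Zf MM) {[]} 1 l)ᶜ)
      (fun l => (meas_Suc _ _ _ _).compl) _ hβ
    intro l hl
    exact vertexLaw_fail lam (k0 + i) hlam' _ _ _ _ (succ_b MM _ hl)
  have h3 := mm_spec (k0 + i)
  have h4 : 0 ≤ 1 - theta (k0 + i) := by linarith [theta_le (k0 + i)]
  calc FM lam (F1 k0 i) + FM lam (F2 k0 i)
      ≤ ENNReal.ofReal (1 - theta (k0 + i)) ^ mm (k0 + i)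
        + ENNReal.ofReal (1 - theta (k0 + i)) ^ mm (k0 + i) := add_le_add h1 h2
    _ = ENNReal.ofReal (2 * (1 - theta (k0 + i)) ^ mm (k0 + i)) := by
        rw [← ENNReal.ofReal_pow h4, ← ENNReal.ofReal_add (by positivity) (by positivity)]
        congr 1
        ring
    _ ≤ ENNReal.ofReal (rho k0 * (1 / 2) ^ (i + 2)) := by
        apply ENNReal.ofReal_le_ofReal
        refine h3.trans ?_
        have h5 := rho_anti k0 i
        have h6 := (rho_pos (k0 + i)).le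
        have h7 : ((1 : ℝ) / 2) ^ (k0 + i + 2) ≤ (1 / 2) ^ (i + 2) :=
          pow_le_pow_of_le_one (by norm_num) (by norm_num) (by omega)
        calc rho (k0 + i) * (1 / 2) ^ (k0 + i + 2) ≤ rho (k0 + i) * (1 / 2) ^ (i + 2) :=
              mul_le_mul_of_nonneg_left h7 h6
          _ ≤ rho k0 * (1 / 2) ^ (i + 2) := mul_le_mul_of_nonneg_right h5 (by positivity)

lemma tsum_geo (c : ℝ) (hc : 0 ≤ c) :
    ∑' i : ℕ, ENNReal.ofReal (c * (1 / 2) ^ (i + 2)) = ENNReal.ofReal (c / 2) := by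
  have h1 : Summable fun i : ℕ => c * (1 / 2 : ℝ) ^ (i + 2) := by
    apply Summable.mul_left
    exact (summable_nat_add_iff 2).2 (summable_geometric_of_lt_one (by norm_num) (by norm_num))
  rw [← ENNReal.ofReal_tsum_of_nonneg (fun i => by positivity) h1]
  congr 1
  rw [tsum_mul_left]
  simp_rw [pow_add]
  rw [tsum_mul_right, tsum_geometric_of_lt_one (by norm_num) (by norm_num)]
  norm_num
  ring

theorem good_pos (lam : ℝ≥0) (k0 : ℕ) (hlam : 1 / ((k0 : ℝ) + 1) ≤ lam) :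
    FM lam (Good k0) ≠ 0 := by
  intro h0
  have h1 : ENNReal.ofReal (rho k0) ≤ FM lam (H0 k0) := by
    have h2 : FM lam (H0 k0) = hv (Zf MM) (LL MM k0) (mm k0) [] := by
      have h3 := measurePreserving_eval_infinitePi (fun _ : List ℕ => vertexLaw lam) ([] : List ℕ)
      have h4 : MeasurePreserving (Prod.snd : Rd → (ℕ → ℕ → ℝ)) (vertexLaw lam)
          (Measure.infinitePi fun _ : ℕ => Measure.infinitePi fun _ : ℕ => unif) := by
        unfold vertexLaw; exact measurePreserving_snd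
      have h5 := (h4.comp h3).measure_preimage
        (meas_vis0 (Zf MM) (LL MM k0) (mm k0) []).nullMeasurableSet
      rw [infinite_vis0] at h5
      exact h5
    rw [h2]
    exact succ_c MM (mm k0) k0 (MM_spec k0)
  have h2 : FM lam (H0 k0) ≤ 0 + ENNReal.ofReal (rho k0 / 2) := by
    calc FM lam (H0 k0) ≤ FM lam (Good k0 ∪ ⋃ i, (F1 k0 i ∪ F2 k0 i)) := measure_mono (cover k0)
      _ ≤ FM lam (Good k0) + FM lam (⋃ i, (F1 k0 i ∪ F2 k0 i)) := measure_union_le _ _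
      _ ≤ 0 + ∑' i, (FM lam (F1 k0 i) + FM lam (F2 k0 i)) := by
          rw [h0]
          gcongr
          refine (measure_iUnion_le _).trans ?_
          exact ENNReal.tsum_le_tsum fun i => measure_union_le _ _
      _ ≤ 0 + ∑' i : ℕ, ENNReal.ofReal (rho k0 * (1 / 2) ^ (i + 2)) := by
          gcongr with i
          exact F_bound lam k0 i hlam
      _ = 0 + ENNReal.ofReal (rho k0 / 2) := by rw [tsum_geo _ (rho_pos k0).le]
  have h3 := h1.trans h2
  rw [zero_add, ENNReal.ofReal_le_ofReal_iff (by linarith [rho_pos k0])] at h3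
  linarith [rho_pos k0]

/-- the frog model is not transient -/
theorem not_transient (lam : ℝ≥0) (hlam : 0 < lam) : ¬ Transient (Zf MM) lam := by
  intro hT
  obtain ⟨k0, hk0⟩ := exists_nat_one_div_lt (show (0 : ℝ) < lam from hlam)
  have hpos := good_pos lam k0 hk0.le
  apply hpos
  rw [Transient, ae_iff] at hT
  refine measure_mono_null ?_ hT
  intro ω hω hfin
  choose l hl h1 h2 using hω
  have hmem : ∀ i, ((l i, 0) : List ℕ × ℕ) ∈ {q : List ℕ × ℕ | Active (Zf MM) ω q.1 ∧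
      q.2 < cnt q.1 (ω q.1) ∧ ∃ k, walk (Zf MM) q.1 ((ω q.1).2 q.2) k = []} := by
    intro i
    have hlen := LL_length (act_sub MM k0 i ω (hl i))
    have hcnt : cnt (l i) (ω (l i)) = (ω (l i)).1 := by
      cases hli : l i with
      | nil => rw [hli] at hlen; simp at hlen
      | cons a t => rfl
    refine ⟨act_active MM k0 i ω _ (hl i), ?_, ?_⟩
    · change 0 < cnt (l i) (ω (l i))
      rw [hcnt]
      exact h1 i
    · obtain ⟨T, hT, hc, hv⟩ := h2 i
      obtain ⟨y, hy⟩ := Finset.card_pos.1 (show 0 < T.card by omega)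
      have hy2 := Finset.mem_singleton.1 (hT hy)
      rw [hy2] at hy
      exact hv [] hy
  have hinj : Function.Injective fun i => ((l i, 0) : List ℕ × ℕ) := by
    intro a b hab
    have h3 : l a = l b := (Prod.ext_iff.1 hab).1
    have ha := LL_length (act_sub MM k0 a ω (hl a))
    have hb := LL_length (act_sub MM k0 b ω (hl b))
    rw [h3] at ha
    omega
  exact Set.infinite_of_injective_forall_mem hinj hmem hfin

end Q293.Frog
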