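import Mathlib

/-!
# Effective conductance of Galton–Watson trees with conductances depending on the indices
-/

set_option autoImplicit false

open MeasureTheory Finset ENNReal

namespace Q293.GWCond

/-- a labelled tree: `t v` is the number of children of the vertex `v`; the children of `v` are
`i :: v` for `i < t v` and the root is `[]` -/
abbrev Tree := List ℕ → ℕ

/-- effective conductance between `v` and its descendants `n` generations below, computed by the
series and parallel laws, when an edge between vertices of indices `k`, `m` has conductance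
`a k m` -/
noncomputable def condLevel (a : ℕ → ℕ → ℝ) (t : Tree) : ℕ → List ℕ → ℝ≥0∞
  | 0, _ => ⊤
  | n + 1, v => ∑ i ∈ range (t v),
      ((ENNReal.ofReal (a (t v) (t (i :: v))))⁻¹ + (condLevel a t n (i :: v))⁻¹)⁻¹

/-- effective conductance from the root to infinity -/
noncomputable def cond (a : ℕ → ℕ → ℝ) (t : Tree) : ℝ≥0∞ := ⨅ n, condLevel a t n []

lemma condLevel_anti (a : ℕ → ℕ → ℝ) (t : Tree) (n : ℕ) :
    ∀ v, condLevel a t (n + 1) v ≤ condLevel a t n v := by
  induction n with
  | zero => intro v; exact le_top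
  | succ n ih =>
    intro v
    rw [condLevel, condLevel]
    apply Finset.sum_le_sum
    intro i _
    rw [ENNReal.inv_le_inv]
    gcongr
    exact ih _

lemma condLevel_antitone (a : ℕ → ℕ → ℝ) (t : Tree) (v : List ℕ) :
    Antitone fun n => condLevel a t n v :=
  antitone_nat_of_succ_le fun n => condLevel_anti a t n v

lemma measurable_condLevel (a : ℕ → ℕ → ℝ) (n : ℕ) :
    ∀ v, Measurable fun t : Tree => condLevel a t n v := by
  induction n with
  | zero => intro v; exact measurable_const
  | succ n ih =>
    intro v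
    let g : ℕ × Tree → ℝ≥0∞ := fun p => ∑ i ∈ range p.1,
        ((ENNReal.ofReal (a p.1 (p.2 (i :: v))))⁻¹ + (condLevel a p.2 n (i :: v))⁻¹)⁻¹
    have h1 : Measurable g := by
      apply measurable_from_prod_countable_right
      intro k
      change Measurable fun t : Tree => ∑ i ∈ range k,
        ((ENNReal.ofReal (a k (t (i :: v))))⁻¹ + (condLevel a t n (i :: v))⁻¹)⁻¹
      refine Finset.measurable_fun_sum _ fun i _ => ?_
      have h2 : Measurable fun t : Tree => (ENNReal.ofReal (a k (t (i :: v))))⁻¹ :=
        (measurable_of_countable fun m => (ENNReal.ofReal (a k m))⁻¹).comp (measurable_pi_apply _)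
      exact (h2.add (ih (i :: v)).inv).inv
    have h3 : Measurable fun t : Tree => ((t v, t) : ℕ × Tree) :=
      (measurable_pi_apply v).prodMk measurable_id
    have h4 : (fun t : Tree => condLevel a t (n + 1) v) = g ∘ fun t : Tree => ((t v, t) : ℕ × Tree) := by
      funext t
      rw [condLevel]
      rfl
    rw [h4]
    exact h1.comp h3

lemma measurable_cond (a : ℕ → ℕ → ℝ) : Measurable (cond a) :=
  Measurable.iInf fun n => measurable_condLevel a n []

/-- labels outside the subtree are irrelevant -/
lemma condLevel_update (a : ℕ → ℕ → ℝ) (t : Tree) (v : List ℕ) (c : ℕ) (n : ℕ) :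
    ∀ w, ¬ w <:+ v → condLevel a (Function.update t v c) n w = condLevel a t n w := by
  induction n with
  | zero => intro w _; rfl
  | succ n ih =>
    intro w hw
    have hwv : w ≠ v := fun h => hw (h ▸ List.suffix_rfl)
    have hch : ∀ i, ¬ (i :: w) <:+ v := fun i h => hw ((List.suffix_cons i w).trans h)
    rw [condLevel, condLevel, Function.update_of_ne hwv]
    apply Finset.sum_congr rfl
    intro i _
    have h1 : i :: w ≠ v := fun h => hch i (h ▸ List.suffix_rfl)
    rw [Function.update_of_ne h1, ih _ (hch i)]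

/-- harmonic–arithmetic mean inequality -/
lemma hm_am (k : ℕ) (hk : k ≠ 0) (x : ℕ → ℝ≥0∞) :
    (∑ i ∈ range k, (x i)⁻¹)⁻¹ ≤ (∑ i ∈ range k, x i) / (k : ℝ≥0∞) ^ 2 := by
  have hk2 : (k : ℝ≥0∞) ^ 2 ≠ ⊤ := by finiteness
  by_cases htop : ∃ i ∈ range k, x i = ⊤
  · have h1 : ∑ i ∈ range k, x i = ⊤ := ENNReal.sum_eq_top.2 htop
    rw [h1, ENNReal.top_div, if_neg hk2]
    exact le_top
  · push Not at htop
    by_cases hzero : ∃ i ∈ range k, x i = 0
    · obtain ⟨i, hi, h0⟩ := hzero
      have h1 : ∑ i ∈ range k, (x i)⁻¹ = ⊤ := ENNReal.sum_eq_top.2 ⟨i, hi, by rw [h0]; simp⟩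
      rw [h1]; simp
    · push Not at hzero
      rw [ENNReal.le_div_iff_mul_le (Or.inl (by positivity)) (Or.inl hk2)]
      have hS : ∑ i ∈ range k, (x i)⁻¹ ≠ ⊤ := by
        rw [Ne, ENNReal.sum_eq_top]
        push Not
        intro i hi
        exact ENNReal.inv_ne_top.2 (hzero i hi)
      have hS0 : ∑ i ∈ range k, (x i)⁻¹ ≠ 0 := by
        rw [Ne, Finset.sum_eq_zero_iff]
        push Not
        exact ⟨0, Finset.mem_range.2 (Nat.pos_of_ne_zero hk), ENNReal.inv_ne_zero.2 (htop 0 (Finset.mem_range.2 (Nat.pos_of_ne_zero hk)))⟩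
      rw [ENNReal.inv_mul_le_iff hS0 hS]
      -- Cauchy–Schwarz
      let y : ℕ → ℝ := fun i => (x i).toReal
      have hy : ∀ i ∈ range k, 0 < y i := fun i hi => ENNReal.toReal_pos (hzero i hi) (htop i hi)
      have hcs := Finset.sum_sq_le_sum_mul_sum_of_sq_le_mul (range k) (r := fun _ => (1 : ℝ))
        (f := fun i => (y i)⁻¹) (g := y) (fun i hi => (inv_pos.2 (hy i hi)).le) (fun i hi => (hy i hi).le)
        (fun i hi => by rw [inv_mul_cancel₀ (hy i hi).ne']; norm_num)
      have h1 : ENNReal.ofReal (∑ i ∈ range k, (y i)⁻¹) = ∑ i ∈ range k, (x i)⁻¹ := by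
        rw [ENNReal.ofReal_sum_of_nonneg (fun i hi => (inv_pos.2 (hy i hi)).le)]
        apply Finset.sum_congr rfl
        intro i hi
        rw [ENNReal.ofReal_inv_of_pos (hy i hi), ENNReal.ofReal_toReal (htop i hi)]
      have h2 : ENNReal.ofReal (∑ i ∈ range k, y i) = ∑ i ∈ range k, x i := by
        rw [ENNReal.ofReal_sum_of_nonneg (fun i hi => (hy i hi).le)]
        apply Finset.sum_congr rfl
        intro i hi
        rw [ENNReal.ofReal_toReal (htop i hi)]
      have h3 : ENNReal.ofReal ((∑ i ∈ range k, (1 : ℝ)) ^ 2) = (k : ℝ≥0∞) ^ 2 := by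
        simp [ENNReal.ofReal_pow]
      rw [← h1, ← h2, ← h3, ← ENNReal.ofReal_mul (Finset.sum_nonneg fun i hi => (inv_pos.2 (hy i hi)).le)]
      exact ENNReal.ofReal_le_ofReal hcs

variable {ν : Measure ℕ} [IsProbabilityMeasure ν]

/-- the law of the Galton–Watson tree -/
noncomputable def GW (ν : Measure ℕ) : Measure Tree := Measure.infinitePi fun _ : List ℕ => ν

instance : IsProbabilityMeasure (GW ν) := by unfold GW; infer_instance

/-- resampling one label -/
lemma resample (v : List ℕ) :
    MeasurePreserving (fun p : ℕ × Tree => Function.update p.2 v p.1) (ν.prod (GW ν)) (GW ν) := by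
  classical
  have hmeas : Measurable (fun p : ℕ × Tree => Function.update p.2 v p.1) := by
    have := (measurable_update' (a := v) (X := fun _ : List ℕ => ℕ))
    exact this.comp measurable_swap
  refine ⟨hmeas, ?_⟩
  unfold GW
  apply Measure.eq_infinitePi
  intro s t ht
  rw [Measure.map_apply hmeas (MeasurableSet.pi s.countable_toSet fun i _ => ht i)]
  have hset : (fun p : ℕ × Tree => Function.update p.2 v p.1) ⁻¹' (Set.pi s t)
      = (if v ∈ s then t v else Set.univ) ×ˢ (Set.pi (s.erase v) t) := by
    ext ⟨c, x⟩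
    simp only [Set.mem_preimage, Set.mem_pi, Set.mem_prod, Finset.mem_coe, Finset.mem_erase]
    constructor
    · intro h
      constructor
      · split_ifs with hv
        · have := h v hv
          rwa [Function.update_self] at this
        · trivial
      · rintro i ⟨hi, his⟩
        have := h i his
        rwa [Function.update_of_ne hi] at this
    · rintro ⟨h1, h2⟩ i hi
      by_cases hiv : i = v
      · subst hiv
        rw [if_pos hi] at h1
        rwa [Function.update_self]
      · rw [Function.update_of_ne hiv]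
        exact h2 i ⟨hiv, hi⟩
  rw [hset, Measure.prod_prod]
  have h1 := Measure.infinitePi_pi (μ := fun _ : List ℕ => ν) (s := s.erase v) (t := t)
    (fun i _ => ht i)
  rw [h1]
  split_ifs with hv
  · rw [Finset.mul_prod_erase s (fun i => ν (t i)) hv]
  · rw [measure_univ, one_mul, Finset.erase_eq_of_notMem hv]

/-- the expected effective resistances are bounded -/
lemma lintegral_inv_condLevel (a : ℕ → ℕ → ℝ) (ha : ∀ k m, 1 ≤ a k m) (hν0 : ν {0} = 0)
    (B : ℝ≥0∞) (hB : (∫⁻ k, (k : ℝ≥0∞)⁻¹ ∂ν) * (1 + B) ≤ B) (n : ℕ) :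
    ∀ v, ∫⁻ t, (condLevel a t n v)⁻¹ ∂(GW ν) ≤ B := by
  induction n with
  | zero => intro v; simp [condLevel]
  | succ n ih =>
    intro v
    have hmeas : Measurable fun t : Tree => (condLevel a t (n + 1) v)⁻¹ :=
      (measurable_condLevel a (n + 1) v).inv
    have hmeas2 : Measurable fun p : ℕ × Tree =>
        (condLevel a (Function.update p.2 v p.1) (n + 1) v)⁻¹ :=
      hmeas.comp (resample (ν := ν) v).measurable
    rw [← (resample (ν := ν) v).lintegral_comp hmeas, lintegral_prod _ hmeas2.aemeasurable]
    have hch : ∀ i, ¬ (i :: v) <:+ v := by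
      intro i h
      have := h.length_le
      simp at this
    calc ∫⁻ k, ∫⁻ t, (condLevel a (Function.update t v k) (n + 1) v)⁻¹ ∂(GW ν) ∂ν
        ≤ ∫⁻ k, (k : ℝ≥0∞)⁻¹ * (1 + B) ∂ν := by
          apply lintegral_mono_ae
          have hae : ∀ᵐ k ∂ν, k ≠ 0 := by
            rw [ae_iff]
            simpa using hν0
          filter_upwards [hae] with k hk
          have hk' : (k : ℝ≥0∞) ≠ 0 := by exact_mod_cast hk
          have hktop : (k : ℝ≥0∞) ≠ ⊤ := ENNReal.natCast_ne_top k
          calc ∫⁻ t, (condLevel a (Function.update t v k) (n + 1) v)⁻¹ ∂(GW ν)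
              ≤ ∫⁻ t, (∑ i ∈ range k, (1 + (condLevel a t n (i :: v))⁻¹)) / (k : ℝ≥0∞) ^ 2 ∂(GW ν) := by
                apply lintegral_mono
                intro t
                simp only
                rw [condLevel, Function.update_self]
                refine le_trans ?_ (hm_am k hk _)
                rw [ENNReal.inv_le_inv]
                apply Finset.sum_le_sum
                intro i _
                rw [ENNReal.inv_le_inv, condLevel_update a t v k n _ (hch i)]
                gcongr
                rw [ENNReal.inv_le_one]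
                exact ENNReal.one_le_ofReal.2 (ha _ _)
            _ = (∑ i ∈ range k, ∫⁻ t, (1 + (condLevel a t n (i :: v))⁻¹) ∂(GW ν)) / (k : ℝ≥0∞) ^ 2 := by
                simp_rw [div_eq_mul_inv]
                rw [lintegral_mul_const, lintegral_finsetSum]
                · intro i _
                  exact measurable_const.add (measurable_condLevel a n (i :: v)).inv
                · apply Finset.measurable_fun_sum
                  intro i _
                  exact measurable_const.add (measurable_condLevel a n (i :: v)).inv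
            _ ≤ (∑ i ∈ range k, (1 + B)) / (k : ℝ≥0∞) ^ 2 := by
                gcongr with i _
                rw [lintegral_add_left measurable_const]
                simp only [lintegral_const, measure_univ, mul_one]
                gcongr
                exact ih _
            _ = (k : ℝ≥0∞)⁻¹ * (1 + B) := by
                rw [Finset.sum_const, card_range, nsmul_eq_mul, div_eq_mul_inv, sq,
                  ENNReal.mul_inv (Or.inl hk') (Or.inl hktop)]
                calc (k : ℝ≥0∞) * (1 + B) * ((k : ℝ≥0∞)⁻¹ * (k : ℝ≥0∞)⁻¹)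
                    = ((k : ℝ≥0∞) * (k : ℝ≥0∞)⁻¹) * ((k : ℝ≥0∞)⁻¹ * (1 + B)) := by ring
                  _ = (k : ℝ≥0∞)⁻¹ * (1 + B) := by
                      rw [ENNReal.mul_inv_cancel hk' hktop, one_mul]
      _ = (∫⁻ k, (k : ℝ≥0∞)⁻¹ ∂ν) * (1 + B) := by
          rw [lintegral_mul_const]
          exact measurable_of_countable _
      _ ≤ B := hB

/-- transience -/
theorem cond_pos (a : ℕ → ℕ → ℝ) (ha : ∀ k m, 1 ≤ a k m) (hν0 : ν {0} = 0)
    (B : ℝ≥0∞) (hBtop : B ≠ ⊤) (hB : (∫⁻ k, (k : ℝ≥0∞)⁻¹ ∂ν) * (1 + B) ≤ B) :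
    ∀ᵐ t ∂(GW ν), cond a t ≠ 0 := by
  have h1 : ∫⁻ t, (cond a t)⁻¹ ∂(GW ν) ≤ B := by
    unfold cond
    simp_rw [ENNReal.inv_iInf]
    rw [lintegral_iSup]
    · exact iSup_le fun n => lintegral_inv_condLevel a ha hν0 B hB n []
    · intro n
      exact (measurable_condLevel a n []).inv
    · intro n m hnm t
      simp only
      rw [ENNReal.inv_le_inv]
      exact condLevel_antitone a t [] hnm
  have h2 := ae_lt_top (measurable_cond a).inv (ne_top_of_le_ne_top hBtop h1)
  filter_upwards [h2] with t ht h0
  rw [Pi.inv_apply, h0, ENNReal.inv_zero] at ht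
  exact lt_irrefl _ ht

end Q293.GWCond
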