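import Pool.Agent.H21R2.HDefs

/-!
Relational structures, functors from relational structures to groups (halos), halo products and
sofic actions on relational structures.
-/

namespace Pool.Agent.Q293.HP

open Finset Pool.Agent.H21R2

/-- A relational signature: relation symbols with their arities. -/
structure Sig where
  /-- the relation symbols -/
  Sym : Type
  /-- the arities -/
  ar : Sym → ℕ

/-- A relational structure on the set `M`: one relation of arity `ar l` for every symbol `l`. -/
abbrev Str (S : Sig) (M : Type) : Type := ∀ l : S.Sym, (Fin (S.ar l) → M) → Prop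

/-- An embedding of relational structures: an injective map which preserves and reflects all
relations. -/
@[ext] structure Emb {S : Sig} {M N : Type} (r : Str S M) (t : Str S N) where
  /-- the map -/
  toFun : M → N
  inj : Function.Injective toFun
  rel : ∀ (l : S.Sym) (x : Fin (S.ar l) → M), t l (fun i => toFun (x i)) ↔ r l x

/-- The identity embedding. -/
def Emb.refl {S : Sig} {M : Type} (r : Str S M) : Emb r r :=
  ⟨id, Function.injective_id, fun _ _ => Iff.rfl⟩

/-- Composition of embeddings. -/
def Emb.comp {S : Sig} {M N P : Type} {r : Str S M} {t : Str S N} {w : Str S P}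
    (g : Emb t w) (f : Emb r t) : Emb r w :=
  ⟨fun x => g.toFun (f.toFun x), g.inj.comp f.inj, fun l x =>
    (g.rel l fun i => f.toFun (x i)).trans (f.rel l x)⟩

/-- The structure induced on a finite subset. -/
def Str.restrict {S : Sig} {M : Type} (r : Str S M) (E : Finset M) : Str S E :=
  fun l x => r l fun i => (x i : M)

/-- The inclusion of a finite substructure. -/
def Emb.incl {S : Sig} {M : Type} (r : Str S M) (E : Finset M) : Emb (r.restrict E) r :=
  ⟨Subtype.val, Subtype.val_injective, fun _ _ => Iff.rfl⟩

/-- A halo: a functor from relational structures with embeddings to groups which sends embeddings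
to injective homomorphisms and is finitary: every element of the group of a structure comes from
a finite substructure. -/
structure Halo (S : Sig) where
  /-- the group attached to a structure -/
  obj : ∀ {M : Type}, Str S M → Type
  [grp : ∀ {M : Type} (r : Str S M), Group (obj r)]
  /-- the homomorphism attached to an embedding -/
  map : ∀ {M N : Type} {r : Str S M} {t : Str S N}, Emb r t → (obj r →* obj t)
  map_refl : ∀ {M : Type} (r : Str S M) (a : obj r), map (Emb.refl r) a = a
  map_comp : ∀ {M N P : Type} {r : Str S M} {t : Str S N} {w : Str S P}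
    (g : Emb t w) (f : Emb r t) (a : obj r), map (g.comp f) a = map g (map f a)
  map_inj : ∀ {M N : Type} {r : Str S M} {t : Str S N} (f : Emb r t),
    Function.Injective (map f)
  finitary : ∀ {M : Type} (r : Str S M) (a : obj r),
    ∃ (E : Finset M) (b : obj (r.restrict E)), map (Emb.incl r E) b = a

attribute [instance] Halo.grp

/-- The structure `r` on `X` is invariant under the action of `G`. -/
def Invariant {S : Sig} {X : Type} (r : Str S X) (G : Type) [Group G] [MulAction G X] : Prop :=
  ∀ (g : G) (l : S.Sym) (x : Fin (S.ar l) → X), r l (fun i => g • x i) ↔ r l x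

/-- The automorphism of `r` given by `g`. -/
def Emb.smul {S : Sig} {X : Type} {r : Str S X} {G : Type} [Group G] [MulAction G X]
    (hr : Invariant r G) (g : G) : Emb r r :=
  ⟨fun x => g • x, MulAction.injective g, hr g⟩

/-- The action of `G` on the group of the structure `X`. -/
def Halo.act {S : Sig} (H : Halo S) {X : Type} {r : Str S X} {G : Type} [Group G]
    [MulAction G X] (hr : Invariant r G) : G →* MulAut (H.obj r) where
  toFun g :=
    { toFun := H.map (Emb.smul hr g)
      invFun := H.map (Emb.smul hr g⁻¹)
      left_inv := fun a => by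
        rw [← H.map_comp]
        have : (Emb.smul hr g⁻¹).comp (Emb.smul hr g) = Emb.refl r := by
          ext x; exact inv_smul_smul g x
        rw [this, H.map_refl]
      right_inv := fun a => by
        rw [← H.map_comp]
        have : (Emb.smul hr g).comp (Emb.smul hr g⁻¹) = Emb.refl r := by
          ext x; exact smul_inv_smul g x
        rw [this, H.map_refl]
      map_mul' := fun a b => map_mul _ a b }
  map_one' := by
    ext a
    have : Emb.smul hr (1 : G) = Emb.refl r := by
      ext x; exact one_smul G x
    show H.map (Emb.smul hr (1 : G)) a = a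
    rw [this, H.map_refl]
  map_mul' g h := by
    ext a
    have : Emb.smul hr (g * h) = (Emb.smul hr g).comp (Emb.smul hr h) := by
      ext x; exact mul_smul g h x
    show H.map (Emb.smul hr (g * h)) a = H.map (Emb.smul hr g) (H.map (Emb.smul hr h) a)
    rw [this, H.map_comp]

/-- The halo product of the halo `H` over the action of `G` on the structure `r`. -/
abbrev Halo.Product {S : Sig} (H : Halo S) {X : Type} {r : Str S X} (G : Type) [Group G]
    [MulAction G X] (hr : Invariant r G) : Type :=
  H.obj r ⋊[H.act hr] G

/-- The action of `G` on the structure `r` is sofic: for all finite `F ⊆ G`, `E ⊆ X` and all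
`ε > 0` there are an almost multiplicative map `φ : G → Sym(n)`, a finite structure `t` on a
finite set `B` and, for all `s` in a set `T` of more than `(1 - ε) n` points, embeddings
`π s` of the induced structure on `E` into `t` with `π (φ g s) x = π s (g⁻¹ x)`. -/
def SoficAction {S : Sig} {X : Type} (r : Str S X) (G : Type) [Group G] [MulAction G X] : Prop :=
  ∀ (F : Finset G) (E : Finset X) (ε : ℝ), 0 < ε →
    ∃ n : ℕ, 1 ≤ n ∧ ∃ (φ : G → Equiv.Perm (Fin n)) (B : Type) (_ : Finite B) (t : Str S B)
      (T : Finset (Fin n)) (π : Fin n → X → B),
      φ 1 = 1 ∧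
      (∀ g ∈ F, ∀ h ∈ F, hamm (φ (g * h)) (φ g * φ h) < ε) ∧
      (1 - ε) * n < T.card ∧
      (∀ s ∈ T, Set.InjOn (π s) (E : Set X)) ∧
      (∀ s ∈ T, ∀ (l : S.Sym) (x : Fin (S.ar l) → X), (∀ i, x i ∈ E) →
        (t l (fun i => π s (x i)) ↔ r l x)) ∧
      (∀ s ∈ T, ∀ g ∈ F, φ g s ∈ T → ∀ x ∈ E, g⁻¹ • x ∈ E → π (φ g s) x = π s (g⁻¹ • x))

end Pool.Agent.Q293.HP
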