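import Mathlib

/-!
# Perimeter of the convex hull of finitely many points of the plane: crude bounds
-/

set_option autoImplicit false

open MeasureTheory Set

namespace Q293.HullPerim

/-- the plane -/
abbrev E2 := EuclideanSpace ℝ (Fin 2)

/-- perimeter length of a planar compact convex set, twice the length for a segment -/
noncomputable def perimeter (K : Set E2) : ℝ :=
  open Classical in
  if (interior K).Nonempty then (μH[1] (frontier K)).toReal else 2 * Metric.diam K

lemma frontier_subset (F : Finset E2) :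
    frontier (convexHull ℝ (F : Set E2)) ⊆ ⋃ p ∈ F, ⋃ q ∈ F, segment ℝ p q := by
  intro x hx
  have hclosed : IsClosed (convexHull ℝ (F : Set E2)) := (F.finite_toSet.isCompact_convexHull (𝕜 := ℝ)).isClosed
  have hxK : x ∈ convexHull ℝ (F : Set E2) := hclosed.frontier_subset hx
  have hxi : x ∉ interior (convexHull ℝ (F : Set E2)) := hx.2
  obtain ⟨ι, _, z, w, hz, hind, hw, hw1, hwx⟩ := eq_pos_convex_span_of_mem_convexHull hxK
  classical
  have hfr : Module.finrank ℝ E2 = 2 := by simp
  have hcard : Fintype.card ι ≤ 3 := by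
    have := hind.card_le_finrank_succ
    have h2 : Module.finrank ℝ (vectorSpan ℝ (Set.range z)) ≤ 2 :=
      (Submodule.finrank_le _).trans hfr.le
    omega
  have hne : Nonempty ι := by
    by_contra h
    rw [not_nonempty_iff] at h
    rw [Finset.univ_eq_empty, Finset.sum_empty] at hw1
    norm_num at hw1
  -- three points: interior
  have h3 : Fintype.card ι ≠ 3 := by
    intro h3
    apply hxi
    have htop : affineSpan ℝ (Set.range z) = ⊤ := by
      rw [hind.affineSpan_eq_top_iff_card_eq_finrank_add_one, hfr, h3]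
    let b : AffineBasis ι ℝ E2 := ⟨z, hind, htop⟩
    have hb : x ∈ interior (convexHull ℝ (Set.range b)) := by
      rw [AffineBasis.interior_convexHull]
      intro i
      have hx2 : x = Finset.univ.affineCombination ℝ b w := by
        rw [Finset.affineCombination_eq_linear_combination _ _ _ hw1, ← hwx]
        rfl
      rw [hx2, b.coord_apply_combination_of_mem (Finset.mem_univ i) hw1]
      exact hw i
    exact interior_mono (convexHull_mono hz) hb
  have hcases : Fintype.card ι = 1 ∨ Fintype.card ι = 2 := by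
    have := Fintype.card_pos (α := ι)
    omega
  rcases hcases with h1 | h2
  · obtain ⟨i, hi⟩ := Fintype.card_eq_one_iff.1 h1
    have huniv : (Finset.univ : Finset ι) = {i} := by
      ext j; simp [hi j]
    rw [huniv, Finset.sum_singleton] at hw1 hwx
    rw [hw1, one_smul] at hwx
    have hzi : z i ∈ F := hz ⟨i, rfl⟩
    simp only [Set.mem_iUnion]
    exact ⟨z i, hzi, z i, hzi, by rw [segment_same, ← hwx]; rfl⟩
  · obtain ⟨i, j, hij, huniv⟩ := (Nat.card_eq_two_iff.1 (show Nat.card ι = 2 by rw [Nat.card_eq_fintype_card]; exact h2))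
    have huniv' : (Finset.univ : Finset ι) = {i, j} := by
      ext k
      have : k ∈ ({i, j} : Set ι) := by rw [huniv]; trivial
      simpa using this
    rw [huniv', Finset.sum_pair hij] at hw1 hwx
    have hzi : z i ∈ F := hz ⟨i, rfl⟩
    have hzj : z j ∈ F := hz ⟨j, rfl⟩
    simp only [Set.mem_iUnion]
    exact ⟨z i, hzi, z j, hzj, w i, w j, (hw i).le, (hw j).le, hw1, hwx⟩

lemma measure_frontier_le (F : Finset E2) :
    μH[1] (frontier (convexHull ℝ (F : Set E2))) ≤ ∑ p ∈ F, ∑ q ∈ F, edist p q := by
  calc μH[1] (frontier (convexHull ℝ (F : Set E2)))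
      ≤ μH[1] (⋃ p ∈ F, ⋃ q ∈ F, segment ℝ p q) := measure_mono (frontier_subset F)
    _ ≤ ∑ p ∈ F, μH[1] (⋃ q ∈ F, segment ℝ p q) := measure_biUnion_finset_le _ _
    _ ≤ ∑ p ∈ F, ∑ q ∈ F, μH[1] (segment ℝ p q) :=
        Finset.sum_le_sum fun p _ => measure_biUnion_finset_le _ _
    _ = ∑ p ∈ F, ∑ q ∈ F, edist p q := by simp

lemma sum_edist (F : Finset E2) :
    ∑ p ∈ F, ∑ q ∈ F, edist p q = ENNReal.ofReal (∑ p ∈ F, ∑ q ∈ F, dist p q) := by
  rw [ENNReal.ofReal_sum_of_nonneg]
  · apply Finset.sum_congr rfl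
    intro p _
    rw [ENNReal.ofReal_sum_of_nonneg]
    · apply Finset.sum_congr rfl
      intro q _
      rw [edist_dist]
    · intro q _; exact dist_nonneg
  · intro p _
    exact Finset.sum_nonneg fun q _ => dist_nonneg

lemma perimeter_nonneg (K : Set E2) : 0 ≤ perimeter K := by
  unfold perimeter
  split_ifs
  · exact ENNReal.toReal_nonneg
  · exact mul_nonneg (by norm_num) Metric.diam_nonneg

/-- upper bound -/
theorem perimeter_le (F : Finset E2) :
    perimeter (convexHull ℝ (F : Set E2)) ≤ 2 * ∑ p ∈ F, ∑ q ∈ F, dist p q := by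
  have hnn : 0 ≤ ∑ p ∈ F, ∑ q ∈ F, dist p q :=
    Finset.sum_nonneg fun p _ => Finset.sum_nonneg fun q _ => dist_nonneg
  unfold perimeter
  split_ifs
  · have h1 := measure_frontier_le F
    rw [sum_edist] at h1
    have h2 := ENNReal.toReal_mono ENNReal.ofReal_ne_top h1
    rw [ENNReal.toReal_ofReal hnn] at h2
    linarith
  · rw [convexHull_diam]
    gcongr
    apply Metric.diam_le_of_forall_dist_le hnn
    intro x hx y hy
    calc dist x y ≤ ∑ q ∈ F, dist x q :=
          Finset.single_le_sum (f := fun q => dist x q) (fun _ _ => dist_nonneg) hy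
      _ ≤ ∑ p ∈ F, ∑ q ∈ F, dist p q :=
          Finset.single_le_sum (f := fun p => ∑ q ∈ F, dist p q)
            (fun _ _ => Finset.sum_nonneg fun _ _ => dist_nonneg) hx

/-- lower bound -/
theorem le_perimeter (F : Finset E2) (p q : E2) (hp : p ∈ F) (hq : q ∈ F) :
    |p 1 - q 1| ≤ perimeter (convexHull ℝ (F : Set E2)) := by
  have hpK : p ∈ convexHull ℝ (F : Set E2) := subset_convexHull ℝ _ hp
  have hqK : q ∈ convexHull ℝ (F : Set E2) := subset_convexHull ℝ _ hq
  have hcomp : IsCompact (convexHull ℝ (F : Set E2)) := F.finite_toSet.isCompact_convexHull (𝕜 := ℝ)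
  have hlip : LipschitzWith 1 (fun x : E2 => x 1) := by
    apply LipschitzWith.of_dist_le_mul
    intro x y
    rw [NNReal.coe_one, one_mul, Real.dist_eq]
    have := EuclideanSpace.norm_eq (x - y)
    rw [dist_eq_norm]
    have h2 : |(x - y) 1| ≤ ‖x - y‖ := by
      have := PiLp.norm_apply_le (x - y) 1
      rwa [Real.norm_eq_abs] at this
    exact h2
  unfold perimeter
  split_ifs with hint
  · -- projection
    have hsub : Set.uIcc (p 1) (q 1) ⊆ (fun x : E2 => x 1) '' frontier (convexHull ℝ (F : Set E2)) := by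
      intro y hy
      -- a point of the hull at height y
      have hseg : ∃ z ∈ convexHull ℝ (F : Set E2), z 1 = y := by
        rw [← segment_eq_uIcc] at hy
        obtain ⟨a, c, ha, hc, hac, hy⟩ := hy
        refine ⟨a • p + c • q, (convex_convexHull ℝ _) hpK hqK ha hc hac, ?_⟩
        rw [← hy]
        simp
      obtain ⟨z, hz, hz1⟩ := hseg
      let γ : ℝ → E2 := fun t => z + t • EuclideanSpace.single 0 1
      have hγ : Continuous γ := by fun_prop
      have hγ1 : ∀ t, (γ t) 1 = y := by
        intro t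
        simp [γ, hz1]
      have hne : (γ ⁻¹' (convexHull ℝ (F : Set E2))).Nonempty := ⟨0, by simpa [γ] using hz⟩
      have hnu : γ ⁻¹' (convexHull ℝ (F : Set E2)) ≠ Set.univ := by
        intro huniv
        obtain ⟨R, hR⟩ := hcomp.isBounded.exists_norm_le
        have h1 : γ (R + ‖z‖ + 1) ∈ convexHull ℝ (F : Set E2) := by
          have : (R + ‖z‖ + 1) ∈ γ ⁻¹' (convexHull ℝ (F : Set E2)) := by rw [huniv]; trivial
          exact this
        have h2 := hR _ h1
        have hR0 : 0 ≤ R := (norm_nonneg _).trans (hR z hz)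
        have h3 : ‖(R + ‖z‖ + 1) • (EuclideanSpace.single 0 1 : E2)‖ = R + ‖z‖ + 1 := by
          rw [norm_smul, PiLp.norm_single, norm_one, mul_one, Real.norm_eq_abs,
            abs_of_nonneg (by positivity)]
        have h4 : ‖(R + ‖z‖ + 1) • (EuclideanSpace.single 0 1 : E2)‖ ≤ ‖γ (R + ‖z‖ + 1)‖ + ‖z‖ := by
          have : (R + ‖z‖ + 1) • (EuclideanSpace.single 0 1 : E2) = γ (R + ‖z‖ + 1) - z := by
            simp [γ]
          rw [this]; exact norm_sub_le _ _
        linarith
      obtain ⟨t, ht⟩ := nonempty_frontier_iff.2 ⟨hne, hnu⟩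
      exact ⟨γ t, hγ.frontier_preimage_subset _ ht, hγ1 t⟩
    have h1 : ENNReal.ofReal |p 1 - q 1| ≤ μH[1] (frontier (convexHull ℝ (F : Set E2))) := by
      calc ENNReal.ofReal |p 1 - q 1| = μH[1] (Set.uIcc (p 1) (q 1)) := by
            rw [hausdorffMeasure_real, Set.uIcc, Real.volume_Icc, max_sub_min_eq_abs, abs_sub_comm]
        _ ≤ μH[1] ((fun x : E2 => x 1) '' frontier (convexHull ℝ (F : Set E2))) :=
            measure_mono hsub
        _ ≤ μH[1] (frontier (convexHull ℝ (F : Set E2))) := by
            have := hlip.hausdorffMeasure_image_le (d := 1) (by norm_num)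
              (frontier (convexHull ℝ (F : Set E2)))
            simpa using this
    have hfin : μH[1] (frontier (convexHull ℝ (F : Set E2))) ≠ ⊤ := by
      refine ne_top_of_le_ne_top ?_ (measure_frontier_le F)
      rw [sum_edist]; exact ENNReal.ofReal_ne_top
    have h2 := ENNReal.toReal_mono hfin h1
    rwa [ENNReal.toReal_ofReal (abs_nonneg _)] at h2
  · have h1 : |p 1 - q 1| ≤ dist p q := by
      have := hlip.dist_le_mul p q
      rwa [NNReal.coe_one, one_mul, Real.dist_eq] at this
    have h2 : dist p q ≤ Metric.diam (convexHull ℝ (F : Set E2)) :=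
      Metric.dist_le_diam_of_mem hcomp.isBounded hpK hqK
    have h3 : 0 ≤ dist p q := dist_nonneg
    linarith

end Q293.HullPerim
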