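import Mathlib
import Pool.Agent.Q293.HullPerim

/-!
# A variance lower bound from rare big jumps
-/

set_option autoImplicit false

open MeasureTheory ProbabilityTheory Finset

namespace Q293.HullVar

variable {Ω : Type*} [MeasurableSpace Ω] {P : Measure Ω} [IsProbabilityMeasure P]

theorem variance_lower {X ψ : ℕ → Ω → ℝ} {L : Ω → ℝ} {n : ℕ} {V m e : ℝ}
    (hX : ∀ i, MemLp (X i) 2 P) (hψ : ∀ i, MemLp (ψ i) 2 P) (hL : MemLp L 2 P)
    (hψ0 : ∀ i ω, 0 ≤ ψ i ω) (hsq : ∀ i ω, ψ i ω ^ 2 = X i ω * ψ i ω)
    (hind : ∀ i j, i ≠ j → IndepFun (X i) (ψ j) P)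
    (hindψ : ∀ i j, i ≠ j → IndepFun (ψ i) (ψ j) P)
    (hV : ∀ i, ∫ ω, ψ i ω ^ 2 ∂P = V) (hm : ∀ i, ∫ ω, ψ i ω ∂P = m) (he : ∀ i, ∫ ω, X i ω ∂P = e)
    (hlow : ∀ j < n, ∀ ω, X j ω - ∑ i ∈ (range n).erase j, X i ω ≤ L ω)
    (hm0 : 0 ≤ m) (he0 : 0 ≤ e)
    (hsmall : m * (n * e + ∫ ω, L ω ∂P) ≤ V / 2) :
    n * V / 4 ≤ Var[L; P] := by
  set Ψ : Ω → ℝ := ∑ j ∈ range n, ψ j with hΨ
  have hΨm : MemLp Ψ 2 P := memLp_finsetSum' _ fun i _ => hψ i
  have hvarΨ : Var[Ψ; P] ≤ n * V := by
    rw [hΨ, IndepFun.variance_sum (fun i _ => hψ i) (fun i _ j _ hij => hindψ i j hij)]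
    calc ∑ i ∈ range n, Var[ψ i; P] ≤ ∑ i ∈ range n, V := by
          apply Finset.sum_le_sum
          intro i _
          rw [← hV i]
          exact variance_le_expectation_sq (hψ i).aestronglyMeasurable
      _ = n * V := by simp
  have hcov : n * (V / 2) ≤ cov[L, Ψ; P] := by
    rw [hΨ, covariance_sum_right' (fun i _ => hψ i) hL]
    calc (n : ℝ) * (V / 2) = ∑ j ∈ range n, V / 2 := by simp
      _ ≤ ∑ j ∈ range n, cov[L, ψ j; P] := by
        apply Finset.sum_le_sum
        intro j hj
        rw [Finset.mem_range] at hj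
        rw [covariance_eq_sub hL (hψ j)]
        have h1 : V - n * e * m ≤ ∫ ω, (L * ψ j) ω ∂P := by
          have h2 : ∫ ω, (ψ j ω ^ 2 - ∑ i ∈ (range n).erase j, X i ω * ψ j ω) ∂P
              ≤ ∫ ω, (L * ψ j) ω ∂P := by
            apply integral_mono
            · apply Integrable.sub
              · exact (hψ j).integrable_sq
              · apply integrable_finsetSum
                intro i _
                exact (hX i).integrable_mul (hψ j)
            · exact hL.integrable_mul (hψ j)
            · intro ω
              simp only [Pi.mul_apply]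
              rw [hsq j ω, ← Finset.sum_mul, ← sub_mul]
              exact mul_le_mul_of_nonneg_right (hlow j hj ω) (hψ0 j ω)
          have h3 : ∫ ω, (ψ j ω ^ 2 - ∑ i ∈ (range n).erase j, X i ω * ψ j ω) ∂P
              = V - ∑ i ∈ (range n).erase j, e * m := by
            rw [integral_sub, hV, integral_finsetSum]
            · congr 1
              apply Finset.sum_congr rfl
              intro i hi
              have hij : i ≠ j := Finset.ne_of_mem_erase hi
              have := (hind i j hij).integral_mul_eq_mul_integral (hX i).aestronglyMeasurable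
                (hψ j).aestronglyMeasurable
              simp only [Pi.mul_apply] at this
              rw [this, he, hm]
            · intro i _
              exact (hX i).integrable_mul (hψ j)
            · exact (hψ j).integrable_sq
            · apply integrable_finsetSum
              intro i _
              exact (hX i).integrable_mul (hψ j)
          have h4 : ∑ i ∈ (range n).erase j, e * m ≤ n * e * m := by
            calc ∑ i ∈ (range n).erase j, e * m ≤ ∑ i ∈ range n, e * m :=
                  Finset.sum_le_sum_of_subset_of_nonneg (Finset.erase_subset _ _)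
                    (fun _ _ _ => mul_nonneg he0 hm0)
              _ = n * e * m := by simp; ring
          linarith
        rw [hm j]
        nlinarith [h1, hsmall]
  have h0 := variance_nonneg (L - (1 / 2 : ℝ) • Ψ) P
  rw [variance_sub hL (hΨm.const_smul _), covariance_smul_right, variance_smul] at h0
  nlinarith [h0, hcov, hvarΨ]

end Q293.HullVar
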