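import Mathlib
import Pool.Agent.Q293.HullPerim
import Pool.Agent.Q293.HullVar

/-!
# The model: unit drift in the first coordinate, heavy symmetric steps in the second
-/

set_option autoImplicit false

open MeasureTheory ProbabilityTheory Finset
open Q293.HullPerim

namespace Q293.HullModel

/-- sample space of one step -/
abbrev A := ℕ × Bool

/-- unnormalised weights -/
noncomputable def wf (x : A) : ENNReal := ENNReal.ofReal (1 / (4 ^ x.1 * ((x.1 : ℝ) + 1) ^ 2))

/-- the vertical step -/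
noncomputable def xi (x : A) : ℝ := if x.2 then 2 ^ x.1 else - 2 ^ x.1

lemma abs_xi (x : A) : |xi x| = 2 ^ x.1 := by
  unfold xi
  split_ifs
  · rw [abs_of_pos (by positivity)]
  · rw [abs_neg, abs_of_pos (by positivity)]

lemma summable_sq : Summable (fun k : ℕ => 1 / ((k : ℝ) + 1) ^ 2) := by
  have := (summable_nat_add_iff (f := fun k : ℕ => 1 / (k : ℝ) ^ 2) 1).2
    (Real.summable_one_div_nat_pow.2 (by norm_num))
  simpa using this

lemma tsum_prod_bool (g : ℕ → ENNReal) : ∑' x : A, g x.1 = 2 * ∑' k, g k := by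
  rw [ENNReal.tsum_prod']
  simp only [tsum_bool]
  rw [ENNReal.tsum_add]
  ring

lemma tsum_sq_ne_top : ∑' x : A, ENNReal.ofReal (1 / ((x.1 : ℝ) + 1) ^ 2) ≠ ⊤ := by
  rw [tsum_prod_bool (fun k => ENNReal.ofReal (1 / ((k : ℝ) + 1) ^ 2))]
  apply ENNReal.mul_ne_top (by norm_num)
  rw [← ENNReal.ofReal_tsum_of_nonneg (fun k => by positivity) summable_sq]
  exact ENNReal.ofReal_ne_top

lemma wf_le (x : A) : wf x ≤ ENNReal.ofReal (1 / ((x.1 : ℝ) + 1) ^ 2) := by
  unfold wf
  apply ENNReal.ofReal_le_ofReal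
  apply one_div_le_one_div_of_le (by positivity)
  have h1 : (1 : ℝ) ≤ 4 ^ x.1 := one_le_pow₀ (by norm_num)
  have h2 : (0 : ℝ) ≤ ((x.1 : ℝ) + 1) ^ 2 := by positivity
  nlinarith

lemma wf_ne_top : ∑' x, wf x ≠ ⊤ :=
  ne_top_of_le_ne_top tsum_sq_ne_top (ENNReal.tsum_le_tsum wf_le)

lemma wf_ne_zero : ∑' x, wf x ≠ 0 := by
  intro h
  rw [ENNReal.tsum_eq_zero] at h
  have := h (0, true)
  unfold wf at this
  norm_num at this

/-- law of one step -/
noncomputable def nu : Measure A := (PMF.normalize wf wf_ne_zero wf_ne_top).toMeasure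

instance : IsProbabilityMeasure nu := by unfold nu; infer_instance

lemma nu_singleton (x : A) : nu {x} = wf x * (∑' y, wf y)⁻¹ := by
  unfold nu
  rw [PMF.toMeasure_apply_singleton _ _ (measurableSet_singleton x), PMF.normalize_apply]

lemma lintegral_nu (f : A → ENNReal) : ∫⁻ x, f x ∂nu = (∑' x, f x * wf x) * (∑' y, wf y)⁻¹ := by
  rw [lintegral_countable', ← ENNReal.tsum_mul_right]
  apply tsum_congr
  intro x
  rw [nu_singleton, mul_assoc]

lemma four_mul_wf (x : A) : ENNReal.ofReal (4 ^ x.1) * wf x = ENNReal.ofReal (1 / ((x.1 : ℝ) + 1) ^ 2) := by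
  unfold wf
  rw [← ENNReal.ofReal_mul (by positivity)]
  congr 1
  field_simp

lemma lintegral_sq_ne_top : ∫⁻ x, ENNReal.ofReal (4 ^ x.1) ∂nu ≠ ⊤ := by
  rw [lintegral_nu]
  apply ENNReal.mul_ne_top
  · simp_rw [four_mul_wf]
    exact tsum_sq_ne_top
  · exact ENNReal.inv_ne_top.2 wf_ne_zero

lemma sq_two_pow (k : ℕ) : ((2 : ℝ) ^ k) ^ 2 = 4 ^ k := by
  rw [← pow_mul, mul_comm, pow_mul]; norm_num

lemma memLp_xi : MemLp xi 2 nu := by
  rw [memLp_two_iff_integrable_sq (measurable_of_countable _).aestronglyMeasurable]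
  refine ⟨(measurable_of_countable _).aestronglyMeasurable, ?_⟩
  rw [hasFiniteIntegral_iff_ofReal (Filter.Eventually.of_forall fun x => sq_nonneg _)]
  refine lt_of_le_of_lt (le_of_eq ?_) lintegral_sq_ne_top.lt_top
  apply lintegral_congr
  intro x
  rw [← sq_abs, abs_xi, sq_two_pow]

lemma memLp_abs : MemLp (fun x => |xi x|) 2 nu := by
  have := memLp_xi.norm
  simpa [Real.norm_eq_abs] using this

/-- truncated step -/
noncomputable def psi (k0 : ℕ) (x : A) : ℝ := if k0 ≤ x.1 then 2 ^ x.1 else 0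

lemma psi_nonneg (k0 : ℕ) (x : A) : 0 ≤ psi k0 x := by
  unfold psi; split_ifs <;> positivity

lemma psi_le (k0 : ℕ) (x : A) : psi k0 x ≤ |xi x| := by
  rw [abs_xi]; unfold psi; split_ifs
  · exact le_rfl
  · positivity

lemma psi_sq (k0 : ℕ) (x : A) : psi k0 x ^ 2 = |xi x| * psi k0 x := by
  rw [abs_xi]; unfold psi; split_ifs <;> ring

lemma memLp_psi (k0 : ℕ) : MemLp (psi k0) 2 nu := by
  refine memLp_abs.mono (measurable_of_countable _).aestronglyMeasurable
    (Filter.Eventually.of_forall fun x => ?_)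
  rw [Real.norm_eq_abs, Real.norm_eq_abs, abs_of_nonneg (psi_nonneg _ _), abs_abs]
  exact psi_le _ _

/-- truncated second moment -/
noncomputable def V (k0 : ℕ) : ℝ := ∫ x, psi k0 x ^ 2 ∂nu

lemma mean_psi_le (k0 : ℕ) : ∫ x, psi k0 x ∂nu ≤ V k0 / 2 ^ k0 := by
  rw [le_div_iff₀ (by positivity), ← integral_mul_const]
  unfold V
  apply integral_mono
  · exact ((memLp_psi k0).integrable (by norm_num)).mul_const _
  · exact (memLp_psi k0).integrable_sq
  · intro x
    simp only
    unfold psi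
    split_ifs with h
    · rw [sq]
      exact mul_le_mul_of_nonneg_left (pow_le_pow_right₀ (by norm_num) h) (by positivity)
    · simp

/-- constant -/
noncomputable def c0 : ℝ := ((∑' y, wf y)⁻¹).toReal

lemma c0_pos : 0 < c0 := by
  unfold c0
  apply ENNReal.toReal_pos
  · exact ENNReal.inv_ne_zero.2 wf_ne_top
  · exact ENNReal.inv_ne_top.2 wf_ne_zero

lemma real_singleton (x : A) : nu.real {x} = 1 / (4 ^ x.1 * ((x.1 : ℝ) + 1) ^ 2) * c0 := by
  unfold c0
  rw [Measure.real, nu_singleton, ENNReal.toReal_mul]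
  unfold wf
  rw [ENNReal.toReal_ofReal (by positivity)]

lemma V_lower (k0 : ℕ) : c0 / (4 * (k0 + 1)) ≤ V k0 := by
  have hint : Integrable (fun x => psi k0 x ^ 2) nu := (memLp_psi k0).integrable_sq
  let T : Finset A := (Finset.Ico k0 (2 * k0 + 1)) ×ˢ {true}
  have h1 : ∫ x in (T : Set A), psi k0 x ^ 2 ∂nu ≤ V k0 :=
    setIntegral_le_integral hint (Filter.Eventually.of_forall fun x => sq_nonneg _)
  rw [setIntegral_finset (hf := hint.integrableOn)] at h1
  refine le_trans ?_ h1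
  have h2 : ∀ x ∈ T, c0 / (4 * ((k0 : ℝ) + 1) ^ 2) ≤ nu.real {x} • psi k0 x ^ 2 := by
    intro x hx
    simp only [T, Finset.mem_product, Finset.mem_Ico, Finset.mem_singleton] at hx
    rw [real_singleton, smul_eq_mul]
    unfold psi
    rw [if_pos hx.1.1, sq_two_pow]
    have h3 : 1 / (4 ^ x.1 * ((x.1 : ℝ) + 1) ^ 2) * c0 * 4 ^ x.1 = c0 / ((x.1 : ℝ) + 1) ^ 2 := by
      field_simp
    rw [h3]
    have h4 : (x.1 : ℝ) + 1 ≤ 2 * (k0 + 1) := by
      have : x.1 + 1 ≤ 2 * (k0 + 1) := by omega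
      exact_mod_cast this
    apply div_le_div_of_nonneg_left c0_pos.le (by positivity)
    nlinarith [sq_nonneg ((x.1 : ℝ) + 1), (Nat.cast_nonneg x.1 : (0:ℝ) ≤ x.1)]
  have h3 := Finset.card_nsmul_le_sum T _ _ h2
  refine le_trans (le_of_eq ?_) h3
  have hc : T.card = k0 + 1 := by
    simp [T]; omega
  rw [hc, nsmul_eq_mul]
  push_cast
  field_simp

lemma mean_xi : ∫ x, xi x ∂nu = 0 := by
  have hint : Integrable xi nu := memLp_xi.integrable (by norm_num)
  rw [integral_countable (hf := hint)]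
  let e : A ≃ A := Equiv.prodCongr (Equiv.refl ℕ) Equiv.boolNot
  have h1 : ∑' x, nu.real {x} • xi x = ∑' x, nu.real {e x} • xi (e x) := (e.tsum_eq _).symm
  have h2 : ∀ x, nu.real {e x} • xi (e x) = - (nu.real {x} • xi x) := by
    rintro ⟨k, b⟩
    rw [real_singleton, real_singleton]
    cases b <;> simp [e, xi]
  have h3 : ∑' x, nu.real {e x} • xi (e x) = - ∑' x, nu.real {x} • xi x := by
    rw [← tsum_neg]
    exact tsum_congr h2
  linarith

end Q293.HullModel
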