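import Mathlib
import Pool.Agent.Q293.HullPerim
import Pool.Agent.Q293.HullVar
import Pool.Agent.Q293.HullModel

/-!
# The walk with unit drift and heavy perpendicular steps: variance of the hull perimeter
-/

set_option autoImplicit false

open MeasureTheory ProbabilityTheory Finset
open Q293.HullPerim Q293.HullModel

namespace Q293.HullWalk

/-- sums of the steps -/
noncomputable def walk {Ω : Type*} (Z : ℕ → Ω → E2) (k : ℕ) (ω : Ω) : E2 :=
  ∑ i ∈ Finset.range k, Z i ω

/-- perimeter of the convex hull of the first `n` steps -/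
noncomputable def hullPerimeter {Ω : Type*} (Z : ℕ → Ω → E2) (n : ℕ) (ω : Ω) : ℝ :=
  perimeter (convexHull ℝ {x : E2 | ∃ k ≤ n, x = walk Z k ω})

section general

variable {Ω : Type*} (Z : ℕ → Ω → E2)

open Classical in
/-- the visited points -/
noncomputable def pts (n : ℕ) (ω : Ω) : Finset E2 := (range (n + 1)).image fun k => walk Z k ω

lemma mem_pts {n : ℕ} {ω : Ω} {x : E2} : x ∈ pts Z n ω ↔ ∃ k ≤ n, x = walk Z k ω := by
  classical
  unfold pts
  simp only [Finset.mem_image, Finset.mem_range, Nat.lt_succ_iff]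
  constructor
  · rintro ⟨k, hk, rfl⟩; exact ⟨k, hk, rfl⟩
  · rintro ⟨k, hk, rfl⟩; exact ⟨k, hk, rfl⟩

lemma coe_pts (n : ℕ) (ω : Ω) : (pts Z n ω : Set E2) = {x : E2 | ∃ k ≤ n, x = walk Z k ω} := by
  ext x
  rw [Finset.mem_coe, mem_pts]
  rfl

lemma card_pts (n : ℕ) (ω : Ω) : (pts Z n ω).card ≤ n + 1 := by
  classical
  unfold pts
  exact Finset.card_image_le.trans (by simp)

lemma dist_walk_le {n j k : ℕ} (hj : j ≤ n) (hk : k ≤ n) (ω : Ω) :
    dist (walk Z j ω) (walk Z k ω) ≤ ∑ i ∈ range n, ‖Z i ω‖ := by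
  wlog hjk : j ≤ k generalizing j k with H
  · rw [dist_comm]; exact H hk hj (le_of_not_ge hjk)
  · rw [dist_comm, dist_eq_norm]
    have : walk Z k ω - walk Z j ω = ∑ i ∈ Finset.Ico j k, Z i ω := by
      unfold walk
      rw [Finset.sum_Ico_eq_sub _ hjk]
    rw [this]
    calc ‖∑ i ∈ Finset.Ico j k, Z i ω‖ ≤ ∑ i ∈ Finset.Ico j k, ‖Z i ω‖ := norm_sum_le _ _
      _ ≤ ∑ i ∈ range n, ‖Z i ω‖ := by
        apply Finset.sum_le_sum_of_subset_of_nonneg
        · intro i hi
          rw [Finset.mem_Ico] at hi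
          rw [Finset.mem_range]; omega
        · intro i _ _; exact norm_nonneg _

lemma hullPerimeter_le (n : ℕ) (ω : Ω) :
    hullPerimeter Z n ω ≤ 2 * ((n + 1) ^ 2 * ∑ i ∈ range n, ‖Z i ω‖) := by
  unfold hullPerimeter
  rw [← coe_pts]
  refine (perimeter_le _).trans ?_
  gcongr
  have h0 : 0 ≤ ∑ i ∈ range n, ‖Z i ω‖ := Finset.sum_nonneg fun _ _ => norm_nonneg _
  calc ∑ p ∈ pts Z n ω, ∑ q ∈ pts Z n ω, dist p q
      ≤ ∑ p ∈ pts Z n ω, ∑ q ∈ pts Z n ω, ∑ i ∈ range n, ‖Z i ω‖ := by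
        apply Finset.sum_le_sum
        intro p hp
        apply Finset.sum_le_sum
        intro q hq
        obtain ⟨j, hj, rfl⟩ := (mem_pts Z).1 hp
        obtain ⟨k, hk, rfl⟩ := (mem_pts Z).1 hq
        exact dist_walk_le Z hj hk ω
    _ = ((pts Z n ω).card : ℝ) * ((pts Z n ω).card * ∑ i ∈ range n, ‖Z i ω‖) := by
        rw [Finset.sum_const, Finset.sum_const, nsmul_eq_mul, nsmul_eq_mul]
    _ ≤ (n + 1) * ((n + 1) * ∑ i ∈ range n, ‖Z i ω‖) := by
        have hc : ((pts Z n ω).card : ℝ) ≤ n + 1 := by exact_mod_cast card_pts Z n ω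
        gcongr
    _ = (n + 1) ^ 2 * ∑ i ∈ range n, ‖Z i ω‖ := by ring

lemma hullPerimeter_nonneg (n : ℕ) (ω : Ω) : 0 ≤ hullPerimeter Z n ω := perimeter_nonneg _

lemma le_hullPerimeter (n : ℕ) (ω : Ω) : |(walk Z n ω) 1| ≤ hullPerimeter Z n ω := by
  unfold hullPerimeter
  rw [← coe_pts]
  have h := le_perimeter (pts Z n ω) (walk Z n ω) (walk Z 0 ω) ((mem_pts Z).2 ⟨n, le_rfl, rfl⟩)
    ((mem_pts Z).2 ⟨0, Nat.zero_le _, rfl⟩)
  have h0 : (walk Z 0 ω) 1 = 0 := by simp [walk]
  rwa [h0, sub_zero] at h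

end general

/-- path measure -/
noncomputable def P : Measure (ℕ → A) := Measure.infinitePi fun _ => nu

instance : IsProbabilityMeasure P := by unfold P; infer_instance

/-- the step as a function of one letter -/
noncomputable def G (x : A) : E2 := EuclideanSpace.single 0 1 + xi x • EuclideanSpace.single 1 1

/-- the steps -/
noncomputable def Z (i : ℕ) (ω : ℕ → A) : E2 := G (ω i)

lemma mp (i : ℕ) : MeasurePreserving (fun ω : ℕ → A => ω i) P nu :=
  measurePreserving_eval_infinitePi (fun _ => nu) i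

lemma iindep : iIndepFun (fun i (ω : ℕ → A) => ω i) P :=
  iIndepFun_infinitePi (P := fun _ => nu) (X := fun _ ω => ω) (by fun_prop)

lemma integral_eval (f : A → ℝ) (i : ℕ) : ∫ ω, f (ω i) ∂P = ∫ x, f x ∂nu := by
  rw [← (mp i).map_eq, integral_map (mp i).measurable.aemeasurable
    (measurable_of_countable f).aestronglyMeasurable]

lemma memLp_eval {f : A → ℝ} (hf : MemLp f 2 nu) (i : ℕ) : MemLp (fun ω : ℕ → A => f (ω i)) 2 P :=
  hf.comp_measurePreserving (mp i)

lemma norm_G_le (x : A) : ‖G x‖ ≤ 1 + |xi x| := by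
  unfold G
  refine (norm_add_le _ _).trans ?_
  rw [norm_smul, PiLp.norm_single, PiLp.norm_single, norm_one, mul_one, Real.norm_eq_abs]

lemma G_one (x : A) : (G x) 1 = xi x := by simp [G]

lemma walk_one (n : ℕ) (ω : ℕ → A) : (walk Z n ω) 1 = ∑ i ∈ range n, xi (ω i) := by
  unfold walk
  have : ∀ (s : Finset ℕ), (∑ i ∈ s, Z i ω) 1 = ∑ i ∈ s, (Z i ω) 1 := by
    intro s
    induction s using Finset.induction_on with
    | empty => simp
    | insert a s ha ih => rw [Finset.sum_insert ha, Finset.sum_insert ha, PiLp.add_apply, ih]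
  rw [this]
  exact Finset.sum_congr rfl fun i _ => G_one _

lemma low (n j : ℕ) (hj : j < n) (ω : ℕ → A) :
    |xi (ω j)| - ∑ i ∈ (range n).erase j, |xi (ω i)| ≤ hullPerimeter Z n ω := by
  refine le_trans ?_ (le_hullPerimeter Z n ω)
  rw [walk_one, ← Finset.add_sum_erase _ _ (Finset.mem_range.2 hj)]
  have h1 : |∑ i ∈ (range n).erase j, xi (ω i)| ≤ ∑ i ∈ (range n).erase j, |xi (ω i)| :=
    Finset.abs_sum_le_sum_abs _ _
  have h2 := abs_sub_abs_le_abs_sub (xi (ω j)) (-(∑ i ∈ (range n).erase j, xi (ω i)))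
  rw [abs_neg, sub_neg_eq_add] at h2
  linarith

lemma up (n : ℕ) (ω : ℕ → A) :
    hullPerimeter Z n ω ≤ 2 * ((n + 1) ^ 2 * ∑ i ∈ range n, (1 + |xi (ω i)|)) := by
  refine (hullPerimeter_le Z n ω).trans ?_
  gcongr with i _
  exact norm_G_le _

lemma measurable_hull (n : ℕ) : Measurable (hullPerimeter Z n) := by
  let ext : (Fin n → A) → (ℕ → A) := fun a i => if h : i < n then a ⟨i, h⟩ else (0, true)
  have h : hullPerimeter Z n = (fun a => hullPerimeter Z n (ext a)) ∘ (fun ω : ℕ → A => fun i : Fin n => ω i) := by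
    ext ω
    simp only [Function.comp]
    unfold hullPerimeter
    congr 2
    ext x
    have hw : ∀ k ≤ n, walk Z k ω = walk Z k (ext fun i : Fin n => ω i) := by
      intro k hk
      unfold walk
      apply Finset.sum_congr rfl
      intro i hi
      rw [Finset.mem_range] at hi
      simp only [Z, ext]
      rw [dif_pos (by omega)]
    constructor
    · rintro ⟨k, hk, rfl⟩; exact ⟨k, hk, hw k hk⟩
    · rintro ⟨k, hk, rfl⟩; exact ⟨k, hk, (hw k hk).symm⟩
  rw [h]
  apply Measurable.comp (measurable_of_countable _)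
  fun_prop

lemma memLp_bound (n : ℕ) :
    MemLp (fun ω : ℕ → A => 2 * (((n : ℝ) + 1) ^ 2 * ∑ i ∈ range n, (1 + |xi (ω i)|))) 2 P := by
  have h1 : MemLp (fun x : A => 1 + |xi x|) 2 nu := by
    have h0 : MemLp (fun _ : A => (1 : ℝ)) 2 nu := memLp_const 1
    exact h0.add memLp_abs
  have h3 : ∀ i, MemLp (fun ω : ℕ → A => (1 + |xi (ω i)|)) 2 P := fun i =>
    h1.comp_measurePreserving (mp i)
  have h2 : MemLp (fun ω : ℕ → A => ∑ i ∈ range n, (1 + |xi (ω i)|)) 2 P :=
    memLp_finsetSum (range n) fun i _ => h3 i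
  exact (h2.const_mul (((n : ℝ) + 1) ^ 2)).const_mul 2

lemma memLp_hull (n : ℕ) : MemLp (hullPerimeter Z n) 2 P := by
  refine (memLp_bound n).mono (measurable_hull n).aestronglyMeasurable
    (Filter.Eventually.of_forall fun ω => ?_)
  rw [Real.norm_eq_abs, Real.norm_eq_abs, abs_of_nonneg (hullPerimeter_nonneg Z n ω)]
  exact (up n ω).trans (le_abs_self _)

/-- first absolute moment -/
noncomputable def e : ℝ := ∫ x, |xi x| ∂nu

lemma e_nonneg : 0 ≤ e := integral_nonneg fun _ => abs_nonneg _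

lemma mean_hull_le (n : ℕ) : ∫ ω, hullPerimeter Z n ω ∂P ≤ 2 * ((n + 1) ^ 2 * (n * (1 + e))) := by
  calc ∫ ω, hullPerimeter Z n ω ∂P
      ≤ ∫ ω, 2 * (((n : ℝ) + 1) ^ 2 * ∑ i ∈ range n, (1 + |xi (ω i)|)) ∂P := by
        apply integral_mono ((memLp_hull n).integrable (by norm_num))
          ((memLp_bound n).integrable (by norm_num))
        exact up n
    _ = 2 * ((n + 1) ^ 2 * (n * (1 + e))) := by
        rw [integral_const_mul, integral_const_mul, integral_finsetSum]
        · congr 2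
          calc ∑ i ∈ range n, ∫ ω : ℕ → A, (1 + |xi (ω i)|) ∂P = ∑ i ∈ range n, (1 + e) := by
                apply Finset.sum_congr rfl
                intro i _
                rw [integral_add (integrable_const _) ((memLp_eval memLp_abs i).integrable (by norm_num))]
                rw [integral_eval (fun x => |xi x|) i]
                simp [e]
            _ = n * (1 + e) := by rw [Finset.sum_const, Finset.card_range, nsmul_eq_mul]
        · intro i _
          exact (integrable_const _).add ((memLp_eval memLp_abs i).integrable (by norm_num))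

/-- key lower bound -/
theorem var_lower (n k0 : ℕ) (hk : 6 * (1 + e) * (n + 1) ^ 3 ≤ 2 ^ k0) :
    n * V k0 / 4 ≤ Var[hullPerimeter Z n; P] := by
  have he := e_nonneg
  have hm0 : 0 ≤ ∫ x, psi k0 x ∂nu := integral_nonneg fun _ => psi_nonneg _ _
  have hV0 : 0 ≤ V k0 := integral_nonneg fun _ => sq_nonneg _
  refine Q293.HullVar.variance_lower (P := P) (X := fun i ω => |xi (ω i)|) (ψ := fun i ω => psi k0 (ω i))
    (m := ∫ x, psi k0 x ∂nu) (e := e) (fun i => memLp_eval memLp_abs i)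
    (fun i => memLp_eval (memLp_psi k0) i) (memLp_hull n) (fun i ω => psi_nonneg _ _)
    (fun i ω => psi_sq _ _) ?_ ?_ ?_ ?_ ?_ (fun j hj ω => low n j hj ω) hm0 he ?_
  · intro i j hij
    exact (iindep.indepFun hij).comp (φ := fun x => |xi x|) (ψ := psi k0)
      (measurable_of_countable _) (measurable_of_countable _)
  · intro i j hij
    exact (iindep.indepFun hij).comp (φ := psi k0) (ψ := psi k0)
      (measurable_of_countable _) (measurable_of_countable _)
  · intro i
    exact integral_eval (fun x => psi k0 x ^ 2) i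
  · intro i
    exact integral_eval (psi k0) i
  · intro i
    exact integral_eval (fun x => |xi x|) i
  · have h1 := mean_psi_le k0
    have h2 := mean_hull_le n
    have h3 : (n : ℝ) * e + ∫ ω, hullPerimeter Z n ω ∂P ≤ 2 ^ k0 / 2 := by
      have hn : (0 : ℝ) ≤ n := Nat.cast_nonneg n
      have h4 : (n : ℝ) * e + 2 * ((n + 1) ^ 2 * (n * (1 + e))) ≤ 3 * (1 + e) * (n + 1) ^ 3 := by
        have h5 : (n : ℝ) * e ≤ (1 + e) * (n + 1) ^ 3 := by
          have : (n : ℝ) ≤ (n + 1) ^ 3 := by nlinarith [sq_nonneg (n : ℝ), mul_nonneg hn (sq_nonneg (n:ℝ))]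
          nlinarith
        have h6 : ((n : ℝ) + 1) ^ 2 * (n * (1 + e)) ≤ (1 + e) * (n + 1) ^ 3 := by
          have : ((n : ℝ) + 1) ^ 2 * n ≤ (n + 1) ^ 3 := by nlinarith [sq_nonneg ((n : ℝ) + 1)]
          nlinarith
        nlinarith
      linarith
    calc (∫ x, psi k0 x ∂nu) * (n * e + ∫ ω, hullPerimeter Z n ω ∂P)
        ≤ (∫ x, psi k0 x ∂nu) * (2 ^ k0 / 2) := mul_le_mul_of_nonneg_left h3 hm0
      _ ≤ V k0 / 2 ^ k0 * (2 ^ k0 / 2) := mul_le_mul_of_nonneg_right h1 (by positivity)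
      _ = V k0 / 2 := by field_simp

end Q293.HullWalk
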