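import Mathlib

/-!
# A Motzkin–Straus type inequality and common neighbours in the lattice
-/

set_option autoImplicit false

open Finset

namespace Q293.MotzkinStraus

/-- A quadratic form inequality for kernels with values in `{…, 0, 1, 2}` whose value-two graph
becomes a matching on cliques. -/
theorem quad_le {ι : Type*} [DecidableEq ι] (k : ι → ι → ℤ) (hsymm : ∀ i j, k i j = k j i)
    (hdiag : ∀ i, k i i = 0) (hle : ∀ i j, k i j ≤ 2)
    (htwo : ∀ i j l, k i j = 2 → k i l = 2 → k j l ≤ 0) (s : Finset ι) :
    ∀ g : ι → ℝ, (∀ i, 0 ≤ g i) →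
      ∑ i ∈ s, ∑ j ∈ s, (k i j : ℝ) * g i * g j ≤ (∑ i ∈ s, g i) ^ 2 := by
  induction s using Finset.strongInduction with
  | H s ih =>
    intro g hg
    by_cases hcl : ∃ a ∈ s, ∃ b ∈ s, a ≠ b ∧ k a b ≤ 0
    · -- shift the weight of one point to another
      have key : ∀ a ∈ s, ∀ b ∈ s, a ≠ b → k a b ≤ 0 →
          ∑ j ∈ s, (k b j : ℝ) * g j ≤ ∑ j ∈ s, (k a j : ℝ) * g j →
          ∑ i ∈ s, ∑ j ∈ s, (k i j : ℝ) * g i * g j ≤ (∑ i ∈ s, g i) ^ 2 := by
        intro a ha b hb hab hk hab2
        let g' : ι → ℝ := fun i => g i + if i = a then g b else 0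
        have hg' : ∀ i, 0 ≤ g' i := by
          intro i
          simp only [g']
          split_ifs
          · exact add_nonneg (hg i) (hg b)
          · simpa using hg i
        have hih := ih (s.erase b) (Finset.erase_ssubset hb) g' hg'
        have ha' : a ∈ s.erase b := Finset.mem_erase.2 ⟨hab, ha⟩
        have hsum : ∑ i ∈ s.erase b, g' i = ∑ i ∈ s, g i := by
          simp only [g']
          rw [Finset.sum_add_distrib, Finset.sum_ite_eq' _ a, if_pos ha', Finset.sum_erase_add _ _ hb]
        rw [hsum] at hih
        refine le_trans ?_ hih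
        -- expand both sides
        have hexp' : ∑ i ∈ s.erase b, ∑ j ∈ s.erase b, (k i j : ℝ) * g' i * g' j
            = ∑ i ∈ s.erase b, ∑ j ∈ s.erase b, (k i j : ℝ) * g i * g j
              + 2 * g b * ∑ j ∈ s.erase b, (k a j : ℝ) * g j := by
          have h1 : ∀ i ∈ s.erase b, ∑ j ∈ s.erase b, (k i j : ℝ) * g' i * g' j
              = ∑ j ∈ s.erase b, (k i j : ℝ) * g i * g j + (k i a : ℝ) * g i * g b
                + (if i = a then g b * ∑ j ∈ s.erase b, (k a j : ℝ) * g j else 0) := by
            intro i _
            simp only [g']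
            have h2 : ∀ j, (k i j : ℝ) * (g i + if i = a then g b else 0)
                * (g j + if j = a then g b else 0)
                = (k i j : ℝ) * g i * g j + (if j = a then (k i a : ℝ) * g i * g b else 0)
                + ((if i = a then g b * ((k a j : ℝ) * g j) else 0)
                  + (if j = a then (if i = a then (k a a : ℝ) * g b * g b else 0) else 0)) := by
              intro j
              by_cases h3 : i = a <;> by_cases h4 : j = a
              · subst h3; subst h4; simp; ring
              · subst h3; simp [h4]; ring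
              · subst h4; simp [h3]; ring
              · simp [h3, h4]
            simp_rw [h2]
            rw [Finset.sum_add_distrib, Finset.sum_add_distrib, Finset.sum_add_distrib,
              Finset.sum_ite_eq' _ a, if_pos ha', Finset.sum_ite_eq' _ a, if_pos ha']
            by_cases h3 : i = a
            · simp only [if_pos h3, ← Finset.mul_sum]
              rw [hdiag a]; simp
            · simp only [if_neg h3]; simp
          rw [Finset.sum_congr rfl h1, Finset.sum_add_distrib, Finset.sum_add_distrib,
            Finset.sum_ite_eq' _ a, if_pos ha']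
          have h5 : ∑ i ∈ s.erase b, (k i a : ℝ) * g i * g b
              = g b * ∑ j ∈ s.erase b, (k a j : ℝ) * g j := by
            rw [Finset.mul_sum]
            apply Finset.sum_congr rfl
            intro i _
            rw [hsymm i a]; ring
          rw [h5]; ring
        have hexp : ∑ i ∈ s, ∑ j ∈ s, (k i j : ℝ) * g i * g j
            = ∑ i ∈ s.erase b, ∑ j ∈ s.erase b, (k i j : ℝ) * g i * g j
              + 2 * g b * ∑ j ∈ s, (k b j : ℝ) * g j := by
          have hS : ∑ j ∈ s, (k b j : ℝ) * g j = ∑ j ∈ s.erase b, (k b j : ℝ) * g j := by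
            rw [← Finset.sum_erase_add _ _ hb, hdiag b]; simp
          rw [← Finset.sum_erase_add s _ hb]
          have h1 : ∀ i ∈ s.erase b, ∑ j ∈ s, (k i j : ℝ) * g i * g j
              = ∑ j ∈ s.erase b, (k i j : ℝ) * g i * g j + (k i b : ℝ) * g i * g b := by
            intro i _
            rw [Finset.sum_erase_add _ _ hb]
          rw [Finset.sum_congr rfl h1, Finset.sum_add_distrib]
          have h2 : ∑ i ∈ s.erase b, (k i b : ℝ) * g i * g b
              = g b * ∑ j ∈ s, (k b j : ℝ) * g j := by
            rw [hS, Finset.mul_sum]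
            apply Finset.sum_congr rfl
            intro i _
            rw [hsymm i b]; ring
          have h3 : ∑ j ∈ s, (k b j : ℝ) * g b * g j = g b * ∑ j ∈ s, (k b j : ℝ) * g j := by
            rw [Finset.mul_sum]
            apply Finset.sum_congr rfl
            intro i _
            ring
          rw [h2, h3]; ring
        rw [hexp, hexp']
        have h6 : ∑ j ∈ s, (k a j : ℝ) * g j ≤ ∑ j ∈ s.erase b, (k a j : ℝ) * g j := by
          rw [← Finset.sum_erase_add _ _ hb]
          have : (k a b : ℝ) * g b ≤ 0 :=
            mul_nonpos_of_nonpos_of_nonneg (by exact_mod_cast hk) (hg b)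
          linarith
        have h7 : 0 ≤ 2 * g b := mul_nonneg (by norm_num) (hg b)
        have h8 := mul_le_mul_of_nonneg_left (hab2.trans h6) h7
        linarith
      obtain ⟨a, ha, b, hb, hab, hk⟩ := hcl
      rcases le_total (∑ j ∈ s, (k b j : ℝ) * g j) (∑ j ∈ s, (k a j : ℝ) * g j) with h | h
      · exact key a ha b hb hab hk h
      · exact key b hb a ha hab.symm (by rw [hsymm]; exact hk) h
    · -- clique
      push Not at hcl
      have hcl' : ∀ a ∈ s, ∀ b ∈ s, a ≠ b → 1 ≤ k a b := fun a ha b hb hab => by
        have := hcl a ha b hb hab; omega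
      -- k ≤ 1 - [i=j] + m
      let m : ι → ι → ℝ := fun i j => if k i j = 2 then 1 else 0
      have hm : ∀ i ∈ s, ∀ j ∈ s, (k i j : ℝ) ≤ 1 - (if i = j then 1 else 0) + m i j := by
        intro i hi j hj
        simp only [m]
        by_cases hij : i = j
        · subst hij; simp [hdiag]
        · have h1 := hle i j
          have h2 := hcl' i hi j hj hij
          rw [if_neg hij]
          split_ifs with h3
          · rw [h3]; norm_num
          · have : k i j ≤ 1 := by omega
            have : (k i j : ℝ) ≤ 1 := by exact_mod_cast this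
            linarith
      have hmsymm : ∀ i j, m i j = m j i := by
        intro i j; simp only [m]; rw [hsymm]
      have hm0 : ∀ i j, 0 ≤ m i j := by
        intro i j; simp only [m]; split_ifs <;> norm_num
      have hmdeg : ∀ i ∈ s, ∑ j ∈ s, m i j ≤ 1 := by
        intro i hi
        by_cases hex : ∃ j ∈ s, k i j = 2
        · obtain ⟨j, hj, hkj⟩ := hex
          have h1 : ∀ l ∈ s, m i l = if l = j then 1 else 0 := by
            intro l hl
            simp only [m]
            by_cases hlj : l = j
            · subst hlj; simp [hkj]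
            · rw [if_neg hlj, if_neg]
              intro hkl
              have h2 := htwo i j l hkj hkl
              have h3 := hcl' j hj l hl (fun h => hlj h.symm)
              omega
          rw [Finset.sum_congr rfl h1, Finset.sum_ite_eq' _ j, if_pos hj]
        · push Not at hex
          have h1 : ∀ l ∈ s, m i l = 0 := by
            intro l hl; simp only [m]; rw [if_neg (hex l hl)]
          rw [Finset.sum_congr rfl h1]; simp
      have hmsum : ∑ i ∈ s, ∑ j ∈ s, m i j * g i * g j ≤ ∑ i ∈ s, g i ^ 2 := by
        have h1 : ∑ i ∈ s, ∑ j ∈ s, m i j * g i * g j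
            ≤ ∑ i ∈ s, ∑ j ∈ s, (m i j * g i ^ 2 / 2 + m i j * g j ^ 2 / 2) := by
          apply Finset.sum_le_sum; intro i _
          apply Finset.sum_le_sum; intro j _
          nlinarith [hm0 i j, mul_nonneg (hm0 i j) (sq_nonneg (g i - g j))]
        have h2 : ∑ i ∈ s, ∑ j ∈ s, m i j * g i ^ 2 / 2 ≤ ∑ i ∈ s, g i ^ 2 / 2 := by
          apply Finset.sum_le_sum; intro i hi
          rw [← Finset.sum_div, ← Finset.sum_mul]
          have := hmdeg i hi
          have h3 := sq_nonneg (g i)
          nlinarith
        have h3 : ∑ i ∈ s, ∑ j ∈ s, m i j * g j ^ 2 / 2 ≤ ∑ i ∈ s, g i ^ 2 / 2 := by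
          rw [Finset.sum_comm]
          apply Finset.sum_le_sum; intro i hi
          rw [← Finset.sum_div, ← Finset.sum_mul]
          have h4 : ∑ j ∈ s, m j i = ∑ j ∈ s, m i j := Finset.sum_congr rfl fun j _ => hmsymm j i
          rw [h4]
          have := hmdeg i hi
          have h3 := sq_nonneg (g i)
          nlinarith
        have h4 : ∑ i ∈ s, ∑ j ∈ s, (m i j * g i ^ 2 / 2 + m i j * g j ^ 2 / 2)
            = ∑ i ∈ s, ∑ j ∈ s, m i j * g i ^ 2 / 2 + ∑ i ∈ s, ∑ j ∈ s, m i j * g j ^ 2 / 2 := by
          rw [← Finset.sum_add_distrib]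
          apply Finset.sum_congr rfl; intro i _
          rw [Finset.sum_add_distrib]
        have h5 : ∑ i ∈ s, g i ^ 2 = ∑ i ∈ s, g i ^ 2 / 2 + ∑ i ∈ s, g i ^ 2 / 2 := by
          rw [← Finset.sum_add_distrib]
          apply Finset.sum_congr rfl; intro i _; ring
        linarith
      calc ∑ i ∈ s, ∑ j ∈ s, (k i j : ℝ) * g i * g j
          ≤ ∑ i ∈ s, ∑ j ∈ s, (1 - (if i = j then 1 else 0) + m i j) * g i * g j := by
            apply Finset.sum_le_sum; intro i hi
            apply Finset.sum_le_sum; intro j hj
            have := hm i hi j hj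
            have h2 : 0 ≤ g i * g j := mul_nonneg (hg i) (hg j)
            nlinarith
        _ = (∑ i ∈ s, g i) ^ 2 - ∑ i ∈ s, g i ^ 2 + ∑ i ∈ s, ∑ j ∈ s, m i j * g i * g j := by
            have h1 : ∀ i ∈ s, ∑ j ∈ s, (1 - (if i = j then 1 else 0) + m i j) * g i * g j
                = g i * ∑ j ∈ s, g j - g i ^ 2 + ∑ j ∈ s, m i j * g i * g j := by
              intro i hi
              have h2 : ∀ j, (1 - (if i = j then (1 : ℝ) else 0) + m i j) * g i * g j
                  = g i * g j - (if i = j then g i ^ 2 else 0) + m i j * g i * g j := by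
                intro j
                split_ifs with h
                · subst h; ring
                · ring
              simp_rw [h2]
              rw [Finset.sum_add_distrib, Finset.sum_sub_distrib, ← Finset.mul_sum,
                Finset.sum_ite_eq _ i, if_pos hi]
            rw [Finset.sum_congr rfl h1, Finset.sum_add_distrib, Finset.sum_sub_distrib,
              ← Finset.sum_mul]
            ring
        _ ≤ (∑ i ∈ s, g i) ^ 2 := by linarith

end Q293.MotzkinStraus
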