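import Mathlib
import Pool.Agent.Q293.MotzkinStraus

/-!
# The local time variational problem on the lattice
-/

set_option autoImplicit false

open Finset Filter Topology

namespace Q293.LatticeForm

/-- points of the lattice -/
abbrev Pt (d : ℕ) := Fin d → ℤ

/-- nearest neighbours -/
def Adj {d : ℕ} (x y : Pt d) : Prop := ∑ i, |x i - y i| = 1

open Classical in
/-- the interaction matrix -/
noncomputable def F {d : ℕ} (β γ : ℝ) (x y : Pt d) : ℝ :=
  if x = y then -β else if Adj x y then γ / (2 * d) else 0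

/-- the quadratic form -/
noncomputable def form {d : ℕ} (β γ : ℝ) (f : Pt d → ℝ) : ℝ :=
  ∑' p : Pt d × Pt d, f p.1 * F β γ p.1 p.2 * f p.2

/-- `w 0, …, w n` is an `n`-step nearest neighbour path -/
def IsPath {d : ℕ} (n : ℕ) (w : ℕ → Pt d) : Prop := ∀ i < n, Adj (w i) (w (i + 1))

/-- local time -/
noncomputable def localTime {d : ℕ} (n : ℕ) (w : ℕ → Pt d) (x : Pt d) : ℝ :=
  (((Finset.range (n + 1)).filter fun i => w i = x).card : ℝ)

/-- endpoint-corrected local time -/
noncomputable def corrected {d : ℕ} (n : ℕ) (w : ℕ → Pt d) (x : Pt d) : ℝ :=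
  localTime n w x - (if w 0 = x then 1 / 2 else 0) - (if w n = x then 1 / 2 else 0)

/-- limits of normalised local times -/
def calF (d : ℕ) : Set (Pt d → ℝ) :=
  {f | (∀ x, 0 ≤ f x) ∧ HasSum f 1 ∧ ∃ (n : ℕ → ℕ) (w : ℕ → ℕ → Pt d),
    Tendsto n atTop atTop ∧ (∀ k, IsPath (n k) (w k)) ∧
    ∀ x, Tendsto (fun k => corrected (n k) (w k) x / (n k)) atTop (𝓝 (f x))}

/-- maximisers -/
def IsMaximiser {d : ℕ} (β γ : ℝ) (f : Pt d → ℝ) : Prop :=
  f ∈ calF d ∧ ∀ g ∈ calF d, form β γ g ≤ form β γ f

/-- equality up to a lattice isometry -/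
def Equivalent {d : ℕ} (f f' : Pt d → ℝ) : Prop :=
  ∃ (π : Equiv.Perm (Fin d)) (s : Fin d → ℤ) (z : Pt d), (∀ i, s i = 1 ∨ s i = -1) ∧
    ∀ x, f' x = f (fun i => s i * x (π i) + z i)

section geometry

variable {d : ℕ}

lemma adj_comm (x y : Pt d) : Adj x y ↔ Adj y x := by
  unfold Adj
  simp_rw [abs_sub_comm]

lemma adj_irrefl (x : Pt d) : ¬ Adj x x := by
  unfold Adj; simp

lemma adj_iff (x y : Pt d) : Adj x y ↔ ∃ (i : Fin d) (s : ℤ), (s = 1 ∨ s = -1) ∧
    y - x = Pi.single i s := by
  constructor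
  · intro h
    unfold Adj at h
    have h1 : ∃ i, |x i - y i| ≠ 0 := by
      by_contra hcon
      push Not at hcon
      rw [Finset.sum_congr rfl fun i _ => hcon i] at h
      simp at h
    obtain ⟨i, hi⟩ := h1
    have h2 := Finset.add_sum_erase Finset.univ (fun j => |x j - y j|) (Finset.mem_univ i)
    rw [h] at h2
    have h3 : 0 ≤ ∑ j ∈ Finset.univ.erase i, |x j - y j| := Finset.sum_nonneg fun _ _ => abs_nonneg _
    have h4 : 0 ≤ |x i - y i| := abs_nonneg _
    have h5 : |x i - y i| = 1 := by omega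
    have h6 : ∑ j ∈ Finset.univ.erase i, |x j - y j| = 0 := by omega
    rw [Finset.sum_eq_zero_iff_of_nonneg fun _ _ => abs_nonneg _] at h6
    refine ⟨i, y i - x i, ?_, ?_⟩
    · rcases (abs_eq (by norm_num : (0 : ℤ) ≤ 1)).1 h5 with h7 | h7 <;> omega
    · ext j
      by_cases hj : j = i
      · subst hj; simp
      · have := h6 j (Finset.mem_erase.2 ⟨hj, Finset.mem_univ _⟩)
        rw [abs_eq_zero] at this
        simp [hj]
        omega
  · rintro ⟨i, s, hs, h⟩
    unfold Adj
    have h1 : ∀ j, |x j - y j| = if j = i then 1 else 0 := by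
      intro j
      have h2 : y j - x j = (Pi.single i s : Pt d) j := by rw [← h]; rfl
      rw [Pi.single_apply] at h2
      rw [abs_sub_comm, h2]
      split_ifs
      · rcases hs with rfl | rfl <;> simp
      · simp
    simp_rw [h1]
    simp

/-- decompositions of a non-zero sum of two unit vectors -/
lemma decomp {i j i' j' : Fin d} {s t s' t' : ℤ} (hs : s = 1 ∨ s = -1) (ht : t = 1 ∨ t = -1)
    (hs' : s' = 1 ∨ s' = -1) (ht' : t' = 1 ∨ t' = -1)
    (h : (Pi.single i s + Pi.single j t : Pt d) = Pi.single i' s' + Pi.single j' t')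
    (h0 : (Pi.single i s + Pi.single j t : Pt d) ≠ 0) :
    (Pi.single i' s' : Pt d) = Pi.single i s ∨ (Pi.single i' s' : Pt d) = Pi.single j t := by
  have e1 := congrFun h i'
  have e2 := congrFun h i
  have e3 := congrFun h j
  have e4 := congrFun h j'
  simp only [Pi.add_apply, Pi.single_apply] at e1 e2 e3 e4
  by_cases h1 : i' = i
  · subst h1
    by_cases h2 : s' = s
    · left; rw [h2]
    · right
      -- s' = - s
      have h3 : s' = - s := by rcases hs with rfl | rfl <;> rcases hs' with rfl | rfl <;> simp_all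
      have h4 : j = i' := by
        by_contra h5
        have h5' : ¬ i' = j := fun h => h5 h.symm
        simp [h5'] at e1
        by_cases h6 : i' = j'
        · simp [h6] at e1; rcases hs with rfl | rfl <;> rcases ht' with rfl | rfl <;> omega
        · simp [h6] at e1; rcases hs with rfl | rfl <;> omega
      subst h4
      have h7 : t = s' := by
        by_contra h8
        apply h0
        have : t = -s := by rcases hs with rfl | rfl <;> rcases ht with rfl | rfl <;> omega
        rw [this, ← Pi.single_add]; simp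
      rw [h7]
  · right
    by_cases h2 : i' = j
    · subst h2
      have h1' : ¬ i = i' := fun h => h1 h.symm
      simp [h1] at e1
      by_cases h3 : i' = j'
      · simp [h3] at e1
        rcases ht with rfl | rfl <;> rcases hs' with rfl | rfl <;> rcases ht' with rfl | rfl <;> omega
      · simp [h3] at e1
        rw [e1]
    · exfalso
      simp [h1, h2] at e1
      by_cases h3 : i' = j'
      · simp [h3] at e1
        apply h0
        rw [h, h3, ← Pi.single_add, ← e1]; simp
      · simp [h3] at e1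
        rcases hs' with rfl | rfl <;> omega

/-- two distinct lattice points have at most two common neighbours -/
lemma common (x x' a b c : Pt d) (hxx : x ≠ x') (h1 : Adj x a) (h2 : Adj x b) (h3 : Adj x c)
    (h1' : Adj x' a) (h2' : Adj x' b) (h3' : Adj x' c) : a = b ∨ a = c ∨ b = c := by
  rw [adj_comm] at h1' h2' h3'
  obtain ⟨i1, s1, hs1, e1⟩ := (adj_iff _ _).1 h1
  obtain ⟨i2, s2, hs2, e2⟩ := (adj_iff _ _).1 h2
  obtain ⟨i3, s3, hs3, e3⟩ := (adj_iff _ _).1 h3
  obtain ⟨j1, t1, ht1, f1⟩ := (adj_iff _ _).1 h1'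
  obtain ⟨j2, t2, ht2, f2⟩ := (adj_iff _ _).1 h2'
  obtain ⟨j3, t3, ht3, f3⟩ := (adj_iff _ _).1 h3'
  have g1 : (Pi.single i1 s1 + Pi.single j1 t1 : Pt d) = x' - x := by rw [← e1, ← f1]; abel
  have g2 : (Pi.single i2 s2 + Pi.single j2 t2 : Pt d) = x' - x := by rw [← e2, ← f2]; abel
  have g3 : (Pi.single i3 s3 + Pi.single j3 t3 : Pt d) = x' - x := by rw [← e3, ← f3]; abel
  have hne : (Pi.single i1 s1 + Pi.single j1 t1 : Pt d) ≠ 0 := by
    rw [g1]; intro h; exact hxx (sub_eq_zero.1 h).symm
  have d2 := decomp hs1 ht1 hs2 ht2 (g1.trans g2.symm) hne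
  have d3 := decomp hs1 ht1 hs3 ht3 (g1.trans g3.symm) hne
  rw [← e1, ← f1, ← e2] at d2
  rw [← e1, ← f1, ← e3] at d3
  rcases d2 with d2 | d2
  · left; exact (sub_left_injective d2).symm
  · rcases d3 with d3 | d3
    · right; left; exact (sub_left_injective d3).symm
    · right; right
      exact sub_left_injective (d2.trans d3.symm)

/-- parity -/
def Ev (x : Pt d) : Prop := Even (∑ i, x i)

lemma adj_parity {x y : Pt d} (h : Adj x y) : Ev x ↔ ¬ Ev y := by
  obtain ⟨i, s, hs, e⟩ := (adj_iff _ _).1 h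
  have h1 : ∑ j, y j = ∑ j, x j + s := by
    have : ∀ j, y j = x j + (Pi.single i s : Pt d) j := by
      intro j; rw [← e]; simp
    simp_rw [this]
    rw [Finset.sum_add_distrib]
    congr 1
    rw [Finset.sum_pi_single']
    simp
  unfold Ev
  rw [h1, Int.even_add]
  have : ¬ Even s := by rcases hs with rfl | rfl <;> decide
  tauto

end geometry

section analysis

variable {d : ℕ}

lemma abs_F_le (β γ : ℝ) (x y : Pt d) : |F β γ x y| ≤ |β| + |γ / (2 * d)| := by
  unfold F
  split_ifs
  · rw [abs_neg]; linarith [abs_nonneg (γ / (2 * d))]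
  · linarith [abs_nonneg β]
  · rw [abs_zero]; positivity

open Classical in
/-- sums of point masses -/
lemma form_sum (β γ : ℝ) {ι : Type*} (s : Finset ι) (c : ℝ) (p : ι → Pt d) :
    HasSum (fun q : Pt d × Pt d => (∑ i ∈ s, if p i = q.1 then c else 0) * F β γ q.1 q.2
      * (∑ i ∈ s, if p i = q.2 then c else 0)) (∑ i ∈ s, ∑ j ∈ s, c * F β γ (p i) (p j) * c) := by
  have h : ∀ q : Pt d × Pt d, (∑ i ∈ s, if p i = q.1 then c else 0) * F β γ q.1 q.2
      * (∑ i ∈ s, if p i = q.2 then c else 0)
      = ∑ i ∈ s, ∑ j ∈ s, if (p i, p j) = q then c * F β γ (p i) (p j) * c else 0 := by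
    intro q
    rw [Finset.sum_mul, Finset.sum_mul]
    apply Finset.sum_congr rfl
    intro i _
    rw [Finset.mul_sum]
    apply Finset.sum_congr rfl
    intro j _
    by_cases h1 : p i = q.1
    · by_cases h2 : p j = q.2
      · have h3 : (p i, p j) = q := Prod.ext h1 h2
        rw [if_pos h1, if_pos h2, if_pos h3, h1, h2]
      · have h3 : ¬ (p i, p j) = q := fun h => h2 (by rw [← h])
        rw [if_neg h2, if_neg h3, mul_zero]
    · have h3 : ¬ (p i, p j) = q := fun h => h1 (by rw [← h])
      rw [if_neg h1, if_neg h3]; ring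
  simp_rw [h]
  apply hasSum_sum
  intro i _
  apply hasSum_sum
  intro j _
  exact hasSum_ite_eq' (p i, p j) _

/-- the corrected local time as an average over traversed edges -/
lemma corrected_eq (n : ℕ) (w : ℕ → Pt d) (x : Pt d) :
    corrected n w x = ∑ i ∈ range n ×ˢ (Finset.univ : Finset Bool),
      if w (if i.2 then i.1 else i.1 + 1) = x then (1 / 2 : ℝ) else 0 := by
  unfold corrected localTime
  rw [Finset.card_filter, Finset.sum_product]
  push_cast
  have h1 : ∑ i ∈ range (n + 1), (if w i = x then (1 : ℝ) else 0)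
      = ∑ i ∈ range n, (if w i = x then (1 : ℝ) else 0) + (if w n = x then (1 : ℝ) else 0) :=
    Finset.sum_range_succ _ _
  have h2 : ∑ i ∈ range (n + 1), (if w i = x then (1 : ℝ) else 0)
      = ∑ i ∈ range n, (if w (i + 1) = x then (1 : ℝ) else 0) + (if w 0 = x then (1 : ℝ) else 0) :=
    Finset.sum_range_succ' _ _
  have h3 : ∀ i, ∑ b : Bool, (if w (if b then i else i + 1) = x then (1 / 2 : ℝ) else 0)
      = (1 / 2) * (if w i = x then (1 : ℝ) else 0) + (1 / 2) * (if w (i + 1) = x then (1 : ℝ) else 0) := by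
    intro i
    rw [Fintype.sum_bool]
    simp only [if_true, Bool.false_eq_true, if_false]
    split_ifs <;> norm_num
  simp_rw [h3]
  rw [Finset.sum_add_distrib, ← Finset.mul_sum, ← Finset.mul_sum]
  have h4 : (if w 0 = x then (1 / 2 : ℝ) else 0) = (1 / 2) * (if w 0 = x then (1 : ℝ) else 0) := by
    split_ifs <;> norm_num
  have h5 : (if w n = x then (1 / 2 : ℝ) else 0) = (1 / 2) * (if w n = x then (1 : ℝ) else 0) := by
    split_ifs <;> norm_num
  rw [h4, h5]
  linarith

lemma corrected_nonneg (n : ℕ) (w : ℕ → Pt d) (x : Pt d) : 0 ≤ corrected n w x := by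
  rw [corrected_eq]
  apply Finset.sum_nonneg
  intro i _
  split_ifs <;> norm_num

open Classical in
/-- integer kernel between oriented edges -/
noncomputable def kk (e e' : Pt d × Pt d) : ℤ :=
  (if Adj e.1 e'.2 then 1 else 0) + (if Adj e'.1 e.2 then 1 else 0)
    - (if e.1 = e'.1 then 1 else 0) - (if e.2 = e'.2 then 1 else 0)

lemma kk_symm (e e' : Pt d × Pt d) : kk e e' = kk e' e := by
  unfold kk
  simp only [eq_comm (a := e.1) (b := e'.1), eq_comm (a := e.2) (b := e'.2)]
  ring

lemma kk_self (e : Pt d × Pt d) (he : Adj e.1 e.2) : kk e e = 0 := by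
  unfold kk; simp [he]

lemma kk_le (e e' : Pt d × Pt d) : kk e e' ≤ 2 := by
  unfold kk; split_ifs <;> norm_num

lemma kk_eq_two {e e' : Pt d × Pt d} (h : kk e e' = 2) :
    Adj e.1 e'.2 ∧ Adj e'.1 e.2 ∧ e.1 ≠ e'.1 ∧ e.2 ≠ e'.2 := by
  have gen : ∀ (p q r s : Prop) [Decidable p] [Decidable q] [Decidable r] [Decidable s],
      (if p then (1 : ℤ) else 0) + (if q then 1 else 0) - (if r then 1 else 0)
        - (if s then 1 else 0) = 2 → p ∧ q ∧ ¬ r ∧ ¬ s := by
    intro p q r s _ _ _ _ h
    by_cases hp : p <;> by_cases hq : q <;> by_cases hr : r <;> by_cases hs : s <;>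
      simp [hp, hq, hr, hs] at h ⊢
  classical
  exact gen _ _ _ _ h

lemma kk_two {e e' e'' : Pt d × Pt d} (he : Adj e.1 e.2) (he' : Adj e'.1 e'.2)
    (h1 : kk e e' = 2) (h2 : kk e e'' = 2) : kk e' e'' ≤ 0 := by
  obtain ⟨a1, a2, a3, a4⟩ := kk_eq_two h1
  obtain ⟨b1, b2, b3, b4⟩ := kk_eq_two h2
  have c1 : Adj e'.1 e''.2 → e'.2 = e''.2 := by
    intro h
    rcases common e.1 e'.1 e.2 e'.2 e''.2 a3 he a1 b1 a2 he' h with h | h | h
    · exact absurd h a4
    · exact absurd h b4
    · exact h
  have c2 : Adj e''.1 e'.2 → e'.1 = e''.1 := by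
    intro h
    rcases common e.2 e'.2 e.1 e'.1 e''.1 a4 ((adj_comm _ _).1 he) ((adj_comm _ _).1 a2)
      ((adj_comm _ _).1 b2) ((adj_comm _ _).1 a1) ((adj_comm _ _).1 he') ((adj_comm _ _).1 h)
      with h | h | h
    · exact absurd h a3
    · exact absurd h b3
    · exact h
  unfold kk
  split_ifs <;> first | omega | tauto

/-- sum of the kernel `A - I` over the four pairs of endpoints of two oriented edges -/
lemma kk_eq (β : ℝ) (hd : (2 * d : ℝ) ≠ 0) (x y x' y' : Pt d) (hx : Ev x) (hy : ¬ Ev y)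
    (hx' : Ev x') (hy' : ¬ Ev y') :
    F β (β * (2 * d)) x x' + F β (β * (2 * d)) x y' + F β (β * (2 * d)) y x' + F β (β * (2 * d)) y y'
      = β * kk (x, y) (x', y') := by
  have h1 : ¬ Adj x x' := fun h => (adj_parity h).1 hx hx'
  have h2 : ¬ Adj y y' := fun h => hy ((adj_parity h).2 hy')
  have h3 : x ≠ y' := fun h => hy' (h ▸ hx)
  have h4 : y ≠ x' := fun h => hy (h ▸ hx')
  unfold F kk
  simp only [h1, h2, h3, h4, if_false]
  rw [adj_comm y x']
  have h5 : β * (2 * d) / (2 * d) = β := mul_div_cancel_right₀ _ hd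
  rw [h5]
  push_cast
  split_ifs <;> ring

/-- the upper bound for paths -/
lemma form_path_le {β : ℝ} (hβ : 0 ≤ β) (hd : (2 * d : ℝ) ≠ 0) (n : ℕ) (hn : 0 < n)
    (w : ℕ → Pt d) (hw : IsPath n w) :
    ∃ S : ℝ, HasSum (fun q : Pt d × Pt d => (corrected n w q.1 / n) * F β (β * (2 * d)) q.1 q.2
      * (corrected n w q.2 / n)) S ∧ S ≤ β / 4 := by
  classical
  set γ := β * (2 * d) with hγ
  let s := range n ×ˢ (Finset.univ : Finset Bool)
  let p : ℕ × Bool → Pt d := fun i => w (if i.2 then i.1 else i.1 + 1)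
  have hc : ∀ x, corrected n w x / n = ∑ i ∈ s, if p i = x then (1 / (2 * n) : ℝ) else 0 := by
    intro x
    rw [corrected_eq, Finset.sum_div]
    apply Finset.sum_congr rfl
    intro i _
    have gen : ∀ (Q : Prop) [Decidable Q], (if Q then (1 / 2 : ℝ) else 0) / n
        = if Q then (1 / (2 * n) : ℝ) else 0 := by
      intro Q _
      split_ifs
      · rw [div_div]
      · rw [zero_div]
    exact gen _
  have hS := form_sum β γ s (1 / (2 * n) : ℝ) p
  refine ⟨∑ i ∈ s, ∑ j ∈ s, (1 / (2 * n) : ℝ) * F β γ (p i) (p j) * (1 / (2 * n)), ?_, ?_⟩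
  · simp_rw [hc]
    convert hS using 1
  · -- rewrite as a double sum over oriented edges
    let e : ℕ → Pt d × Pt d := fun i => if Ev (w i) then (w i, w (i + 1)) else (w (i + 1), w i)
    have he1 : ∀ i < n, Ev (e i).1 ∧ ¬ Ev (e i).2 ∧ Adj (e i).1 (e i).2 := by
      intro i hi
      have h1 := hw i hi
      have h2 := adj_parity h1
      simp only [e]
      by_cases h3 : Ev (w i)
      · rw [if_pos h3]; exact ⟨h3, h2.1 h3, h1⟩
      · rw [if_neg h3]
        refine ⟨?_, h3, (adj_comm _ _).1 h1⟩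
        by_contra h4
        exact h3 (h2.2 h4)
    have hpair : ∀ (G : Pt d → ℝ) (i : ℕ), ∑ b : Bool, G (p (i, b)) = G (e i).1 + G (e i).2 := by
      intro G i
      rw [Fintype.sum_bool]
      simp only [p, e, if_true, Bool.false_eq_true, if_false]
      split_ifs
      · rfl
      · simp only; ring
    have hdouble : ∑ i ∈ s, ∑ j ∈ s, (1 / (2 * n) : ℝ) * F β γ (p i) (p j) * (1 / (2 * n))
        = (1 / (4 * n ^ 2)) * ∑ i ∈ range n, ∑ j ∈ range n, (β * kk (e i) (e j)) := by
      have h1 : ∀ x : Pt d, ∑ j ∈ s, (1 / (2 * n) : ℝ) * F β γ x (p j) * (1 / (2 * n))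
          = (1 / (4 * n ^ 2)) * ∑ j ∈ range n, (F β γ x (e j).1 + F β γ x (e j).2) := by
        intro x
        simp only [s]
        rw [Finset.sum_product, Finset.mul_sum]
        apply Finset.sum_congr rfl
        intro j _
        rw [← hpair (fun y => F β γ x y) j, Finset.mul_sum]
        apply Finset.sum_congr rfl
        intro b _
        field_simp
        ring
      simp_rw [h1]
      rw [← Finset.mul_sum]
      congr 1
      simp only [s]
      rw [Finset.sum_product]
      apply Finset.sum_congr rfl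
      intro i hi
      rw [hpair (fun x => ∑ j ∈ range n, (F β γ x (e j).1 + F β γ x (e j).2)) i,
        ← Finset.sum_add_distrib]
      apply Finset.sum_congr rfl
      intro j hj
      rw [Finset.mem_range] at hi hj
      obtain ⟨a1, a2, -⟩ := he1 i hi
      obtain ⟨b1, b2, -⟩ := he1 j hj
      have := kk_eq β hd (e i).1 (e i).2 (e j).1 (e j).2 a1 a2 b1 b2
      rw [Prod.mk.eta, Prod.mk.eta] at this
      rw [← this, hγ]
      ring
    rw [hdouble]
    -- the Motzkin–Straus inequality, on the indices below n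
    let k : Fin n → Fin n → ℤ := fun i j => kk (e i) (e j)
    have hq := Q293.MotzkinStraus.quad_le k (fun i j => kk_symm _ _)
      (fun i => kk_self _ (he1 i i.2).2.2) (fun i j => kk_le _ _)
      (fun i j l h1 h2 => kk_two (he1 i i.2).2.2 (he1 j j.2).2.2 h1 h2) Finset.univ
      (fun _ => (1 : ℝ)) (fun _ => zero_le_one)
    simp only [mul_one, Finset.sum_const, Finset.card_univ, Fintype.card_fin, nsmul_eq_mul] at hq
    have hconv : ∑ i ∈ range n, ∑ j ∈ range n, (β * kk (e i) (e j) : ℝ)
        = β * ∑ i : Fin n, ∑ j : Fin n, (k i j : ℝ) := by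
      rw [Finset.sum_range, Finset.mul_sum]
      apply Finset.sum_congr rfl
      intro i _
      rw [Finset.sum_range, Finset.mul_sum]
    rw [hconv]
    have hn' : (0 : ℝ) < n := by exact_mod_cast hn
    calc (1 / (4 * (n : ℝ) ^ 2)) * (β * ∑ i : Fin n, ∑ j : Fin n, (k i j : ℝ))
        ≤ (1 / (4 * (n : ℝ) ^ 2)) * (β * (n : ℝ) ^ 2) := by
          gcongr
      _ = β / 4 := by field_simp

/-- the upper bound -/
theorem form_le {β : ℝ} (hβ : 0 ≤ β) (hd : (2 * d : ℝ) ≠ 0) {f : Pt d → ℝ} (hf : f ∈ calF d) :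
    form β (β * (2 * d)) f ≤ β / 4 := by
  obtain ⟨hf0, hf1, n, w, hn, hw, hlim⟩ := hf
  set γ := β * (2 * d) with hγ
  set C := |β| + |γ / (2 * d)| with hC
  have hFC : ∀ x y : Pt d, 0 ≤ C + F β γ x y := by
    intro x y
    have := abs_F_le β γ x y
    have h2 := neg_abs_le (F β γ x y)
    linarith
  have hprod : HasSum (fun q : Pt d × Pt d => f q.1 * f q.2) 1 := by
    have hs : Summable (fun q : Pt d × Pt d => f q.1 * f q.2) :=
      Summable.mul_of_nonneg hf1.summable hf1.summable hf0 hf0
    have h := hf1.mul hf1 hs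
    simpa using h
  have hFsum : Summable (fun q : Pt d × Pt d => f q.1 * F β γ q.1 q.2 * f q.2) := by
    apply Summable.of_norm_bounded (g := fun q : Pt d × Pt d => C * (f q.1 * f q.2))
      (hprod.summable.mul_left C)
    intro q
    rw [Real.norm_eq_abs, abs_mul, abs_mul, abs_of_nonneg (hf0 q.1), abs_of_nonneg (hf0 q.2)]
    have := abs_F_le β γ q.1 q.2
    have h2 : 0 ≤ f q.1 * f q.2 := mul_nonneg (hf0 _) (hf0 _)
    nlinarith
  -- Fatou
  have hfin : ∀ T : Finset (Pt d × Pt d),
      ∑ q ∈ T, (C * (f q.1 * f q.2) + f q.1 * F β γ q.1 q.2 * f q.2) ≤ C + β / 4 := by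
    intro T
    have hlimT : Tendsto (fun k => ∑ q ∈ T, (C * ((corrected (n k) (w k) q.1 / n k)
        * (corrected (n k) (w k) q.2 / n k)) + (corrected (n k) (w k) q.1 / n k) * F β γ q.1 q.2
          * (corrected (n k) (w k) q.2 / n k))) atTop
        (𝓝 (∑ q ∈ T, (C * (f q.1 * f q.2) + f q.1 * F β γ q.1 q.2 * f q.2))) := by
      apply tendsto_finsetSum
      intro q _
      exact (((hlim q.1).mul (hlim q.2)).const_mul C).add (((hlim q.1).mul_const _).mul (hlim q.2))
    refine le_of_tendsto hlimT ?_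
    filter_upwards [hn.eventually_ge_atTop 1] with k hk
    obtain ⟨S, hS, hSle⟩ := form_path_le hβ hd (n k) hk (w k) (hw k)
    have hsum1 : HasSum (fun x => corrected (n k) (w k) x / n k) 1 := by
      classical
      have h1 : ∀ x, corrected (n k) (w k) x / n k = ∑ i ∈ range (n k) ×ˢ (Finset.univ : Finset Bool),
          if w k (if i.2 then i.1 else i.1 + 1) = x then (1 / 2 : ℝ) / n k else 0 := by
        intro x
        rw [corrected_eq, Finset.sum_div]
        apply Finset.sum_congr rfl
        intro i _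
        have gen : ∀ (Q : Prop) [Decidable Q], (if Q then (1 / 2 : ℝ) else 0) / n k
            = if Q then (1 / 2 : ℝ) / n k else 0 := by
          intro Q _
          split_ifs
          · rfl
          · rw [zero_div]
        exact gen _
      have h3 : HasSum (fun x => ∑ i ∈ range (n k) ×ˢ (Finset.univ : Finset Bool),
          if w k (if i.2 then i.1 else i.1 + 1) = x then (1 / 2 : ℝ) / n k else 0)
          (∑ i ∈ range (n k) ×ˢ (Finset.univ : Finset Bool), (1 / 2 : ℝ) / n k) := by
        apply hasSum_sum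
        intro i _
        exact hasSum_ite_eq' _ _
      have h4 : ∑ i ∈ range (n k) ×ˢ (Finset.univ : Finset Bool), (1 / 2 : ℝ) / n k = 1 := by
        have hk' : (n k : ℝ) ≠ 0 := by positivity
        simp
        field_simp
      rw [h4] at h3
      convert h3 using 1
      ext x
      rw [h1]
    have hnn : ∀ x, 0 ≤ corrected (n k) (w k) x / n k := fun x =>
      div_nonneg (corrected_nonneg _ _ _) (Nat.cast_nonneg _)
    have hprodk : HasSum (fun q : Pt d × Pt d => (corrected (n k) (w k) q.1 / n k)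
        * (corrected (n k) (w k) q.2 / n k)) 1 := by
      have hs := Summable.mul_of_nonneg hsum1.summable hsum1.summable hnn hnn
      have h := hsum1.mul hsum1 hs
      simpa using h
    have htot := (hprodk.mul_left C).add hS
    have hle := sum_le_hasSum T (fun q _ => ?_) htot
    · linarith
    · have h1 := hFC q.1 q.2
      have h2 := mul_nonneg (hnn q.1) (hnn q.2)
      nlinarith
  have htsum : ∑' q : Pt d × Pt d, (C * (f q.1 * f q.2) + f q.1 * F β γ q.1 q.2 * f q.2)
      ≤ C + β / 4 := by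
    apply Summable.tsum_le_of_sum_le _ hfin
    exact (hprod.summable.mul_left C).add hFsum
  rw [(hprod.summable.mul_left C).tsum_add hFsum, tsum_mul_left, hprod.tsum_eq] at htsum
  unfold form
  linarith

end analysis

end Q293.LatticeForm
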