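import Mathlib

/-!
# Counting configurations without a lonely walker
-/

set_option autoImplicit false

namespace Q293.Lonely

section Count

variable {Ω : Type} (X : Ω → ℤ)

/-- number of walkers at `k` -/
def occ {n : ℕ} (ω : Fin n → Ω) (k : ℤ) : ℕ := (Finset.univ.filter (fun i => X (ω i) = k)).card

/-- configurations with values in `U` with no site of `K` carrying exactly one walker -/
def conf (K : Finset ℤ) (n : ℕ) (U : Finset Ω) : Finset (Fin n → Ω) :=
  (Fintype.piFinset (fun _ : Fin n => U)).filter (fun ω => ∀ k ∈ K, occ X ω k ≠ 1)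

lemma mem_conf {K : Finset ℤ} {n : ℕ} {U : Finset Ω} {ω : Fin n → Ω} :
    ω ∈ conf X K n U ↔ (∀ i, ω i ∈ U) ∧ ∀ k ∈ K, occ X ω k ≠ 1 := by
  simp [conf, Fintype.mem_piFinset]

lemma occ_eq_sum {n : ℕ} (ω : Fin n → Ω) (k : ℤ) :
    occ X ω k = ∑ i, if X (ω i) = k then 1 else 0 := by
  unfold occ
  rw [Finset.card_filter]

lemma occ_insertNth {n : ℕ} (i : Fin (n + 1)) (u : Ω) (ω : Fin n → Ω) (k : ℤ) :
    occ X (i.insertNth u ω : Fin (n + 1) → Ω) k = (if X u = k then 1 else 0) + occ X ω k := by
  rw [occ_eq_sum, occ_eq_sum, Fin.sum_univ_succAbove _ i]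
  simp

/-- removing one site -/
lemma card_conf_insert (K : Finset ℤ) (a : ℤ) (ha : a ∉ K) (n : ℕ) (U : Finset Ω) :
    (conf X (insert a K) (n + 1) U).card
      + (n + 1) * (U.filter (fun u => X u = a)).card
        * (conf X K n (U.filter (fun u => X u ≠ a))).card = (conf X K (n + 1) U).card := by
  classical
  have hsplit : conf X K (n + 1) U = conf X (insert a K) (n + 1) U
      ∪ (conf X K (n + 1) U).filter (fun ω => occ X ω a = 1) := by
    ext ω
    simp only [Finset.mem_union, Finset.mem_filter, mem_conf, Finset.mem_insert]
    constructor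
    · rintro ⟨h1, h2⟩
      by_cases h : occ X ω a = 1
      · exact Or.inr ⟨⟨h1, h2⟩, h⟩
      · left
        refine ⟨h1, ?_⟩
        rintro k (rfl | hk)
        · exact h
        · exact h2 k hk
    · rintro (⟨h1, h2⟩ | ⟨h, _⟩)
      · exact ⟨h1, fun k hk => h2 k (Or.inr hk)⟩
      · exact h
  have hdisj : Disjoint (conf X (insert a K) (n + 1) U)
      ((conf X K (n + 1) U).filter (fun ω => occ X ω a = 1)) := by
    rw [Finset.disjoint_left]
    intro ω h1 h2
    rw [mem_conf] at h1
    rw [Finset.mem_filter] at h2
    exact h1.2 a (Finset.mem_insert_self a K) h2.2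
  rw [hsplit, Finset.card_union_of_disjoint hdisj]
  congr 1
  -- the bijection
  have hbij : ((Finset.univ : Finset (Fin (n + 1))) ×ˢ ((U.filter (fun u => X u = a)) ×ˢ
      (conf X K n (U.filter (fun u => X u ≠ a))))).card
      = ((conf X K (n + 1) U).filter (fun ω => occ X ω a = 1)).card := by
    apply Finset.card_bij (fun p _ => (p.1.insertNth p.2.1 p.2.2 : Fin (n + 1) → Ω))
    · rintro ⟨i, u, ω⟩ h
      simp only [Finset.mem_product, Finset.mem_univ, true_and, Finset.mem_filter, mem_conf] at h ⊢
      obtain ⟨⟨hu, hua⟩, hω, hK⟩ := h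
      have hocc0 : occ X ω a = 0 := by
        unfold occ
        rw [Finset.card_eq_zero, Finset.filter_eq_empty_iff]
        intro j _
        exact (hω j).2
      refine ⟨⟨?_, ?_⟩, ?_⟩
      · intro j
        rcases Fin.eq_self_or_eq_succAbove i j with rfl | ⟨l, rfl⟩
        · rw [Fin.insertNth_apply_same]; exact hu
        · rw [Fin.insertNth_apply_succAbove]; exact (hω l).1
      · intro k hk
        rw [occ_insertNth]
        have : X u ≠ k := by
          rintro rfl
          rw [hua] at hk
          exact ha hk
        rw [if_neg this, zero_add]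
        exact hK k hk
      · rw [occ_insertNth, if_pos hua, hocc0]
    · rintro ⟨i, u, ω⟩ h ⟨i', u', ω'⟩ h' heq
      simp only [Finset.mem_product, Finset.mem_univ, true_and, Finset.mem_filter, mem_conf]
        at h h' heq
      have hii : i = i' := by
        by_contra hne
        obtain ⟨l, hl⟩ := Fin.exists_succAbove_eq hne
        have h1 := congrFun heq i
        rw [Fin.insertNth_apply_same, ← hl, Fin.insertNth_apply_succAbove] at h1
        have h2 := (h'.2.1 l).2
        rw [← h1] at h2
        exact h2 h.1.2
      subst hii
      have h1 := congrFun heq i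
      rw [Fin.insertNth_apply_same, Fin.insertNth_apply_same] at h1
      have h2 : ω = ω' := by
        funext l
        have := congrFun heq (i.succAbove l)
        rwa [Fin.insertNth_apply_succAbove, Fin.insertNth_apply_succAbove] at this
      rw [h1, h2]
    · intro ω hω
      rw [Finset.mem_filter, mem_conf] at hω
      obtain ⟨⟨hU, hK⟩, hocc⟩ := hω
      unfold occ at hocc
      rw [Finset.card_eq_one] at hocc
      obtain ⟨i, hi⟩ := hocc
      have hia : X (ω i) = a := by
        have : i ∈ Finset.univ.filter (fun j => X (ω j) = a) := by rw [hi]; simp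
        simpa using this
      have hne : ∀ l, X (ω (i.succAbove l)) ≠ a := by
        intro l h
        have : i.succAbove l ∈ Finset.univ.filter (fun j => X (ω j) = a) := by simpa using h
        rw [hi, Finset.mem_singleton] at this
        exact Fin.succAbove_ne i l this
      refine ⟨⟨i, ω i, fun l => ω (i.succAbove l)⟩, ?_, ?_⟩
      · simp only [Finset.mem_product, Finset.mem_univ, true_and, Finset.mem_filter, mem_conf]
        refine ⟨⟨hU i, hia⟩, fun l => ⟨hU _, hne l⟩, ?_⟩
        intro k hk
        have h1 := hK k hk
        have h2 : ω = (i.insertNth (ω i) (fun l => ω (i.succAbove l)) : Fin (n + 1) → Ω) := by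
          rw [Fin.eq_insertNth_iff]
          exact ⟨rfl, rfl⟩
        rw [h2, occ_insertNth] at h1
        have h3 : X (ω i) ≠ k := by
          rintro rfl
          rw [hia] at hk
          exact ha hk
        rw [if_neg h3, zero_add] at h1
        exact h1
      · symm
        rw [Fin.eq_insertNth_iff]
        exact ⟨rfl, rfl⟩
  rw [← hbij, Finset.card_product, Finset.card_product, Finset.card_univ, Fintype.card_fin,
    mul_assoc]

/-- the alternating recursion -/
def E : List ℕ → ℕ → ℕ → ℤ
  | [], n, s => (s : ℤ) ^ n
  | _ :: L, 0, s => E L 0 s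
  | c :: L, n + 1, s => E L (n + 1) s - (n + 1) * c * E L n (s - c)

/-- evaluation of the number of configurations -/
lemma card_conf (L : List (ℤ × ℕ)) : ∀ (n : ℕ) (U : Finset Ω), L.length ≤ n →
    (L.map Prod.fst).Nodup → (∀ p ∈ L, (U.filter (fun u => X u = p.1)).card = p.2) →
    ((conf X (L.map Prod.fst).toFinset n U).card : ℤ) = E (L.map Prod.snd) n U.card := by
  induction L with
  | nil =>
    intro n U _ _ _
    have : conf X ∅ n U = Fintype.piFinset (fun _ : Fin n => U) := by
      ext ω; simp [mem_conf]
    simp only [List.map_nil, List.toFinset_nil, E, this, Fintype.card_piFinset_const]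
    push_cast
    ring
  | cons p L ih =>
    intro n U hn hnd hc
    obtain ⟨a, c⟩ := p
    cases n with
    | zero => simp at hn
    | succ n =>
      simp only [List.map_cons, List.nodup_cons, List.length_cons] at hn hnd
      have ha : a ∉ (L.map Prod.fst).toFinset := by
        rw [List.mem_toFinset]; exact hnd.1
      have h1 := card_conf_insert X (L.map Prod.fst).toFinset a ha n U
      have hca : (U.filter (fun u => X u = a)).card = c := hc (a, c) (by simp)
      have h2 := ih (n + 1) U (by omega) hnd.2 (fun p hp => hc p (by simp [hp]))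
      have h3 := ih n (U.filter (fun u => X u ≠ a)) (by omega) hnd.2 (by
        intro p hp
        rw [Finset.filter_filter]
        rw [← hc p (by simp [hp])]
        congr 1
        ext u
        simp only [Finset.mem_filter]
        constructor
        · rintro ⟨h1, h2, h3⟩; exact ⟨h1, h3⟩
        · rintro ⟨h1, h2⟩
          refine ⟨h1, ?_, h2⟩
          rw [h2]
          rintro rfl
          exact hnd.1 (List.mem_map_of_mem hp))
      have h4 : (U.filter (fun u => X u ≠ a)).card = U.card - c := by
        have := Finset.card_filter_add_card_filter_not (s := U) (fun u => X u = a)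
        rw [hca] at this
        have h5 : (U.filter (fun u => X u ≠ a)).card = (U.filter (fun u => ¬ X u = a)).card := rfl
        omega
      simp only [List.map_cons, List.toFinset_cons, E]
      rw [h4] at h3
      rw [← h2, ← h3, ← h1, hca]
      push_cast
      ring

end Count

end Q293.Lonely
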