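import Mathlib

/-!
# The 2-adic odometer: Haar measure, residues and ergodicity
-/

set_option autoImplicit false

open MeasureTheory Filter Topology
open scoped ENNReal

namespace Q293.Odo

noncomputable instance : MeasurableSpace ℤ_[2] := borel _
instance : BorelSpace ℤ_[2] := ⟨rfl⟩

/-- Haar probability measure on the 2-adic integers -/
noncomputable def haar : Measure ℤ_[2] := Measure.addHaarMeasure ⊤

instance : IsProbabilityMeasure haar := by
  refine ⟨?_⟩
  have h := Measure.addHaarMeasure_self (K₀ := (⊤ : TopologicalSpace.PositiveCompacts ℤ_[2]))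
  simpa [haar] using h

instance : haar.IsAddLeftInvariant := by unfold haar; infer_instance

lemma ergodic_add (t : ℤ_[2]) (ht : DenseRange (fun n : ℤ => n • t)) :
    Ergodic (fun κ => t + κ) haar := ergodic_add_left_of_denseRange_zsmul ht haar

lemma ergodic_one : Ergodic (fun κ : ℤ_[2] => 1 + κ) haar := by
  apply ergodic_add
  have h := PadicInt.denseRange_intCast (p := 2)
  simpa using h

/-- residue modulo `2 ^ m` -/
noncomputable def res (m : ℕ) (κ : ℤ_[2]) : ℕ := (PadicInt.toZModPow m κ).val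

instance (m : ℕ) : NeZero (2 ^ m) := ⟨by positivity⟩

lemma res_lt (m : ℕ) (κ : ℤ_[2]) : res m κ < 2 ^ m := ZMod.val_lt _

lemma res_add (m : ℕ) (κ : ℤ_[2]) (s : ℤ) :
    (res m (κ + s) : ℤ) = ((res m κ : ℤ) + s) % (2 : ℤ) ^ m := by
  unfold res
  have h1 : PadicInt.toZModPow m (κ + (s : ℤ_[2]))
      = (((PadicInt.toZModPow m κ).val : ℤ) + s : ℤ) := by
    rw [map_add, map_intCast]
    push_cast
    rw [ZMod.natCast_zmod_val]
  rw [h1, ZMod.val_intCast]
  push_cast
  rfl

lemma res_mod (m m' : ℕ) (h : m ≤ m') (κ : ℤ_[2]) : res m' κ % 2 ^ m = res m κ := by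
  unfold res
  rw [← PadicInt.cast_toZModPow m m' h κ, ZMod.cast_eq_val, ZMod.val_natCast]

lemma isOpen_res (m r : ℕ) : IsOpen {κ : ℤ_[2] | res m κ = r} := by
  rw [Metric.isOpen_iff]
  intro κ hκ
  refine ⟨(2 : ℝ) ^ (-(m : ℤ)), by positivity, fun κ' hκ' => ?_⟩
  have h1 : ‖κ' - κ‖ ≤ (2 : ℝ) ^ (-(m : ℤ)) := by
    rw [Metric.mem_ball, dist_eq_norm] at hκ'
    exact hκ'.le
  have h2 : κ' - κ ∈ Ideal.span {((2 : ℕ) : ℤ_[2]) ^ m} :=
    (PadicInt.norm_le_pow_iff_mem_span_pow _ _).1 (by exact_mod_cast h1)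
  rw [← PadicInt.ker_toZModPow, RingHom.mem_ker, map_sub, sub_eq_zero] at h2
  change res m κ' = r
  change res m κ = r at hκ
  rw [← hκ]
  unfold res
  rw [h2]

lemma measurable_res (m : ℕ) : Measurable (res m) := by
  apply measurable_to_countable'
  intro r
  exact (isOpen_res m r).measurableSet

/-- all residues have the same probability -/
lemma haar_res (m r : ℕ) (hr : r < 2 ^ m) : haar {κ | res m κ = r} = ((2 : ℝ≥0∞) ^ m)⁻¹ := by
  have h1 : ∀ r', r' < 2 ^ m → haar {κ | res m κ = r'} = haar {κ | res m κ = r} := by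
    intro r' hr'
    rw [← measure_preimage_add haar (((r' : ℤ) - r : ℤ) : ℤ_[2]) {κ | res m κ = r'}]
    congr 1
    ext κ
    simp only [Set.mem_preimage, Set.mem_ofPred_eq]
    rw [add_comm, ← Int.natCast_inj, ← Int.natCast_inj (m := res m κ), res_add]
    have hl := res_lt m κ
    have hl' : ((res m κ : ℕ) : ℤ) < 2 ^ m := by exact_mod_cast hl
    have hr1 : (r : ℤ) < 2 ^ m := by exact_mod_cast hr
    have hr2 : (r' : ℤ) < 2 ^ m := by exact_mod_cast hr'
    have hp : (0 : ℤ) < 2 ^ m := by positivity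
    have e0 : (0 : ℤ) ≤ (res m κ : ℤ) := Int.natCast_nonneg _
    have e1 : (0 : ℤ) ≤ (r : ℤ) := Int.natCast_nonneg _
    have e2 : (0 : ℤ) ≤ (r' : ℤ) := Int.natCast_nonneg _
    generalize (2 : ℤ) ^ m = M at *
    constructor
    · intro h
      have hd : (((res m κ : ℤ) + (r' - r)) - r') % M = 0 := by
        rw [Int.sub_emod, h, Int.emod_eq_of_lt e2 hr2, sub_self, Int.zero_emod]
      have hd2 : M ∣ (res m κ : ℤ) - r := by
        have := Int.dvd_of_emod_eq_zero hd
        have e : (((res m κ : ℤ) + (r' - r)) - r') = (res m κ : ℤ) - r := by ring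
        rwa [e] at this
      obtain ⟨c, hc⟩ := hd2
      have : c = 0 := by
        by_contra hne
        rcases lt_or_gt_of_ne hne with h3 | h3
        · have : c ≤ -1 := by omega
          nlinarith
        · have : 1 ≤ c := by omega
          nlinarith
      subst this
      linarith
    · intro h
      rw [h]
      have : (r : ℤ) + (r' - r) = r' := by ring
      rw [this, Int.emod_eq_of_lt e2 hr2]
  have h2 : ∑ r' ∈ Finset.range (2 ^ m), haar {κ | res m κ = r'} = 1 := by
    rw [← measure_biUnion_finset]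
    · have : (⋃ b ∈ Finset.range (2 ^ m), {κ : ℤ_[2] | res m κ = b}) = Set.univ := by
        ext κ
        simp only [Set.mem_iUnion, Finset.mem_range, Set.mem_ofPred_eq, exists_prop, Set.mem_univ,
          iff_true]
        exact ⟨_, res_lt m κ, rfl⟩
      rw [this, measure_univ]
    · intro i _ j _ hij
      rw [Function.onFun, Set.disjoint_left]
      intro κ h3 h4
      exact hij (h3.symm.trans h4)
    · intro i _
      exact (isOpen_res m i).measurableSet
  rw [Finset.sum_congr rfl (fun r' hr' => h1 r' (Finset.mem_range.1 hr')), Finset.sum_const,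
    Finset.card_range, nsmul_eq_mul] at h2
  push_cast at h2
  exact ENNReal.eq_inv_of_mul_eq_one_left (by rw [mul_comm]; exact h2)

/-- probability that the residue lies in a given set -/
lemma haar_res_mem (m : ℕ) (S : Finset ℕ) :
    haar {κ | res m κ ∈ S} ≤ S.card * ((2 : ℝ≥0∞) ^ m)⁻¹ := by
  have h : {κ : ℤ_[2] | res m κ ∈ S} ⊆ ⋃ r ∈ S.filter (· < 2 ^ m), {κ | res m κ = r} := by
    intro κ hκ
    simp only [Set.mem_iUnion, Finset.mem_filter, Set.mem_ofPred_eq, exists_prop]
    exact ⟨_, ⟨hκ, res_lt m κ⟩, rfl⟩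
  refine (measure_mono h).trans ?_
  refine (measure_biUnion_finset_le _ _).trans ?_
  calc ∑ r ∈ S.filter (· < 2 ^ m), haar {κ | res m κ = r}
      = ∑ r ∈ S.filter (· < 2 ^ m), ((2 : ℝ≥0∞) ^ m)⁻¹ :=
        Finset.sum_congr rfl fun r hr => haar_res m r (Finset.mem_filter.1 hr).2
    _ = (S.filter (· < 2 ^ m)).card * ((2 : ℝ≥0∞) ^ m)⁻¹ := by
        rw [Finset.sum_const, nsmul_eq_mul]
    _ ≤ _ := by
        gcongr
        exact Finset.filter_subset _ _

end Q293.Odo
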