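import Pool.Agent.Q293.LinWalk

/-!
# Functions with a finite-dimensional orbit span which converge along random walks
-/

set_option autoImplicit false

open MeasureTheory Filter Topology
open scoped Matrix

namespace Q293.OrbitSpan

variable {G : Type*} [Group G]

/-- the walk -/
def walk (ω : ℕ → G) (m : ℕ) : G := ((List.range m).map ω).prod

lemma walk_zero (ω : ℕ → G) : walk ω 0 = 1 := rfl

lemma walk_succ (ω : ℕ → G) (k : ℕ) : walk ω (k + 1) = walk ω k * ω k := by
  simp [walk, List.range_succ]

/-- the orbit span -/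
def orb (f : G → ℝ) : Submodule ℝ (G → ℝ) :=
  Submodule.span ℝ (Set.range fun γ : G => fun x : G => f (γ⁻¹ * x))

lemma self_mem (f : G → ℝ) : f ∈ orb f := by
  apply Submodule.subset_span
  exact ⟨1, by funext x; simp⟩

lemma transl_mem (f : G → ℝ) (γ : G) (φ : G → ℝ) (h : φ ∈ orb f) :
    (fun x => φ (γ * x)) ∈ orb f := by
  induction h using Submodule.span_induction with
  | mem φ hφ =>
    obtain ⟨δ, rfl⟩ := hφ
    apply Submodule.subset_span
    refine ⟨γ⁻¹ * δ, ?_⟩
    funext x
    simp only [mul_inv_rev, inv_inv, mul_assoc]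
  | zero => exact (orb f).zero_mem
  | add φ ψ _ _ hφ hψ => exact (orb f).add_mem hφ hψ
  | smul c φ _ hφ => exact (orb f).smul_mem c hφ

/-- left translation on the orbit span: `(T γ φ) x = φ (γ x)` -/
def T (f : G → ℝ) (γ : G) : orb f →ₗ[ℝ] orb f where
  toFun φ := ⟨fun x => φ.1 (γ * x), transl_mem f γ φ.1 φ.2⟩
  map_add' _ _ := rfl
  map_smul' _ _ := rfl

lemma T_apply (f : G → ℝ) (γ : G) (φ : orb f) (x : G) : (T f γ φ).1 x = φ.1 (γ * x) := rfl

lemma T_mul (f : G → ℝ) (γ δ : G) : T f (γ * δ) = T f δ ∘ₗ T f γ := by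
  ext φ x
  show φ.1 (γ * δ * x) = φ.1 (γ * (δ * x))
  rw [mul_assoc]

lemma T_one (f : G → ℝ) : T f 1 = LinearMap.id := by
  ext φ x
  show φ.1 (1 * x) = φ.1 x
  rw [one_mul]

section Fin

variable (f : G → ℝ) {n : ℕ} (b : Module.Basis (Fin n) ℝ (orb f))

/-- the matrix of a translation -/
noncomputable def B (γ : G) : Matrix (Fin n) (Fin n) ℝ := (LinearMap.toMatrix b b (T f γ))ᵀ

lemma B_mul (γ δ : G) : B f b (γ * δ) = B f b γ * B f b δ := by
  unfold B
  rw [T_mul, LinearMap.toMatrix_comp b b b, Matrix.transpose_mul]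

lemma B_one : B f b 1 = 1 := by
  unfold B
  rw [T_one, LinearMap.toMatrix_id, Matrix.transpose_one]

/-- the vector of coordinates functions at a point -/
noncomputable def r (x : G) : Fin n → ℝ := fun i => (b i).1 x

lemma r_mul (γ x : G) : r f b (γ * x) = B f b γ *ᵥ r f b x := by
  funext i
  show (b i).1 (γ * x) = ∑ j, B f b γ i j * (b j).1 x
  have h1 : T f γ (b i) = ∑ j, (b.repr (T f γ (b i)) j) • b j := (b.sum_repr _).symm
  have h2 := congrArg (fun φ : orb f => φ.1 x) h1
  simp only [T_apply] at h2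
  rw [h2, Submodule.coe_sum, Finset.sum_apply]
  apply Finset.sum_congr rfl
  intro j _
  rw [Submodule.coe_smul, Pi.smul_apply, smul_eq_mul]
  unfold B
  rw [Matrix.transpose_apply, LinearMap.toMatrix_apply]

lemma S_eq (t : ℕ) (ω : ℕ → G) : LinWalk.S (B f b) t ω = B f b (walk ω t) := by
  induction t with
  | zero => rw [LinWalk.S_zero, walk_zero, B_one]
  | succ t ih => rw [LinWalk.S_succ, walk_succ, B_mul, ih]

/-- evaluation at a point -/
def ev (x : G) : Module.Dual ℝ (orb f) where
  toFun φ := φ.1 x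
  map_add' _ _ := rfl
  map_smul' _ _ := rfl

include b in
lemma span_ev : Submodule.span ℝ (Set.range (ev f)) = ⊤ := by
  have hfin : Module.Finite ℝ (orb f) := Module.Finite.of_basis b
  by_contra hne
  have hlt : Submodule.span ℝ (Set.range (ev f)) < ⊤ := lt_top_iff_ne_top.2 hne
  obtain ⟨F, hF0, hF⟩ := Submodule.exists_le_ker_of_lt_top _ hlt
  obtain ⟨v, rfl⟩ := (Module.evalEquiv ℝ (orb f)).surjective F
  apply hF0
  have hv : v = 0 := by
    apply Subtype.ext
    funext x
    have := hF (Submodule.subset_span ⟨x, rfl⟩)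
    rw [LinearMap.mem_ker, Module.evalEquiv_apply, Module.Dual.eval_apply] at this
    exact this
  rw [hv, map_zero]

variable [TopologicalSpace G] [IsTopologicalGroup G]

lemma cont_mem (hf : Continuous f) (φ : orb f) : Continuous φ.1 := by
  obtain ⟨φ, hφ⟩ := φ
  induction hφ using Submodule.span_induction with
  | mem φ hφ =>
    obtain ⟨δ, rfl⟩ := hφ
    exact hf.comp (continuous_const.mul continuous_id)
  | zero => exact continuous_const
  | add φ ψ _ _ hφ hψ => exact hφ.add hψ
  | smul c φ _ hφ => exact hφ.const_smul c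

lemma continuous_B (hf : Continuous f) (i j : Fin n) : Continuous fun γ => B f b γ i j := by
  have h : ∀ (ℓ : Module.Dual ℝ (orb f)) (φ : orb f), Continuous fun γ => ℓ (T f γ φ) := by
    intro ℓ φ
    have hℓ : ℓ ∈ Submodule.span ℝ (Set.range (ev f)) := by rw [span_ev f b]; trivial
    induction hℓ using Submodule.span_induction with
    | mem ℓ hℓ =>
      obtain ⟨x, rfl⟩ := hℓ
      exact (cont_mem f hf φ).comp (continuous_id.mul continuous_const)
    | zero => exact continuous_const
    | add ℓ ℓ' _ _ h h' => exact h.add h'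
    | smul c ℓ _ h => exact h.const_smul c
  have h2 : (fun γ => B f b γ i j) = fun γ => b.coord j (T f γ (b i)) := by
    funext γ
    unfold B
    rw [Matrix.transpose_apply, LinearMap.toMatrix_apply]
    rfl
  rw [h2]
  exact h _ _

end Fin

theorem main [TopologicalSpace G] [IsTopologicalGroup G] [MeasurableSpace G] [BorelSpace G]
    (μ : Measure G) [IsProbabilityMeasure μ]
    (hadapted : ∀ H : Subgroup G, IsClosed (H : Set G) → μ (H : Set G) = 1 → H = ⊤)
    (hsymm : μ.map (fun x => x⁻¹) = μ) (f : G → ℝ) (hf : Continuous f)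
    (hconv : ∀ x : G, ∀ᵐ ω ∂(Measure.infinitePi (fun _ : ℕ => μ)),
      ∃ l : ℝ, Tendsto (fun t => f (x * walk ω t)) atTop (𝓝 l))
    (hfin : Module.Finite ℝ (orb f)) : ∀ x, f x = f 1 := by
  set b := Module.finBasis ℝ (orb f) with hb
  have hmem : ∀ φ : orb f, ∀ᵐ ω ∂(Measure.infinitePi (fun _ : ℕ => μ)),
      ∃ l : ℝ, Tendsto (fun t => φ.1 (walk ω t)) atTop (𝓝 l) := by
    rintro ⟨φ, hφ⟩
    induction hφ using Submodule.span_induction with
    | mem φ hφ =>
      obtain ⟨δ, rfl⟩ := hφ
      exact hconv δ⁻¹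
    | zero => exact Filter.Eventually.of_forall fun ω => ⟨0, tendsto_const_nhds⟩
    | add φ ψ _ _ hφ hψ =>
      filter_upwards [hφ, hψ] with ω h1 h2
      obtain ⟨l1, hl1⟩ := h1
      obtain ⟨l2, hl2⟩ := h2
      exact ⟨l1 + l2, hl1.add hl2⟩
    | smul c φ _ hφ =>
      filter_upwards [hφ] with ω h1
      obtain ⟨l1, hl1⟩ := h1
      exact ⟨c • l1, hl1.const_smul c⟩
  have hall : ∀ᵐ ω ∂(Measure.infinitePi (fun _ : ℕ => μ)), ∀ i,
      ∃ l : ℝ, Tendsto (fun t => (b i).1 (walk ω t)) atTop (𝓝 l) := by
    rw [ae_all_iff]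
    exact fun i => hmem (b i)
  have hB : ∀ i j, Measurable fun γ => B f b γ i j := fun i j =>
    (continuous_B f b hf i j).measurable
  have hmain := LinWalk.fixed (B f b) μ hB (fun x => x⁻¹) measurable_inv hsymm
    (fun g => by rw [← B_mul, inv_mul_cancel, B_one]) (r f b 1) (by
      filter_upwards [hall] with ω hω
      choose l hl using hω
      refine ⟨l, ?_⟩
      have h1 : (fun t => LinWalk.S (B f b) t ω *ᵥ r f b 1) = fun t => r f b (walk ω t) := by
        funext t
        rw [S_eq, ← r_mul, mul_one]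
      rw [h1]
      exact tendsto_pi_nhds.2 hl)
  -- the fixator
  let H : Subgroup G :=
    { carrier := {x | r f b x = r f b 1}
      mul_mem' := by
        intro x y hx hy
        show r f b (x * y) = r f b 1
        rw [r_mul, show r f b y = r f b 1 from hy, ← r_mul, mul_one]
        exact hx
      one_mem' := rfl
      inv_mem' := by
        intro x hx
        show r f b x⁻¹ = r f b 1
        have h1 : r f b (x⁻¹ * x) = B f b x⁻¹ *ᵥ r f b x := r_mul f b _ _
        rw [inv_mul_cancel, show r f b x = r f b 1 from hx, ← r_mul, mul_one] at h1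
        exact h1.symm }
  have hcont : Continuous (r f b) := continuous_pi fun i => cont_mem f hf (b i)
  have hclosed : IsClosed (H : Set G) := isClosed_eq hcont continuous_const
  have hmeasH : MeasurableSet (H : Set G) := hclosed.measurableSet
  have hμH : μ (H : Set G) = 1 := by
    have h1 : (Measure.infinitePi (fun _ : ℕ => μ)).map (fun ω => ω 0) = μ :=
      Measure.infinitePi_map_eval (fun _ : ℕ => μ) 0
    have h2 : μ (H : Set G)ᶜ = 0 := by
      conv_lhs => rw [← h1]
      rw [Measure.map_apply (measurable_pi_apply 0) hmeasH.compl]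
      have h3 : ∀ᵐ ω ∂(Measure.infinitePi (fun _ : ℕ => μ)), ω 0 ∈ (H : Set G) := by
        filter_upwards [hmain] with ω hω
        show r f b (ω 0) = r f b 1
        rw [← r_mul, mul_one] at hω
        exact hω
      exact h3
    exact (prob_compl_eq_zero_iff hmeasH).1 h2
  have htop := hadapted H hclosed hμH
  intro x
  have hx : r f b x = r f b 1 := by
    have : x ∈ H := by rw [htop]; trivial
    exact this
  have h3 : ∀ φ : orb f, φ.1 x = φ.1 1 := by
    intro φ
    rw [← b.sum_repr φ]
    simp only [Submodule.coe_sum, Submodule.coe_smul, Finset.sum_apply, Pi.smul_apply]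
    apply Finset.sum_congr rfl
    intro i _
    have := congrFun hx i
    simp only [r] at this
    rw [this]
  exact h3 ⟨f, self_mem f⟩

end Q293.OrbitSpan
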