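import Pool.Agent.Q293.PamSym

/-!
# First passage decompositions
-/

set_option autoImplicit false
set_option linter.unusedSectionVars false

open Filter Topology MeasureTheory

namespace Q293.Pam

open Q293.Sgp BoundedContinuousFunction

variable {ξ : ℤ → ℝ} {K : ℝ} (hK : ∀ z, |ξ z| ≤ K)

/-- multiplication by an indicator -/
noncomputable def pr (D : Set ℤ) : E →L[ℝ] E :=
  LinearMap.mkContinuous
    { toFun := fun f => BoundedContinuousFunction.ofNormedAddCommGroupDiscrete
        (fun z => io D z * f z) (‖f‖) (by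
          intro z
          rw [Real.norm_eq_abs, abs_mul, abs_of_nonneg (io_nonneg D z)]
          have h1 := io_le_one D z
          have h2 : |f z| ≤ ‖f‖ := f.norm_coe_le_norm z
          have h3 := io_nonneg D z
          nlinarith [abs_nonneg (f z)])
      map_add' := by
        intro f g
        ext z
        show io D z * (f z + g z) = io D z * f z + io D z * g z
        ring
      map_smul' := by
        intro c f
        ext z
        show io D z * (c * f z) = c * (io D z * f z)
        ring } 1 (by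
    intro f
    rw [one_mul]
    refine (BoundedContinuousFunction.norm_le (norm_nonneg f)).2 fun z => ?_
    show ‖io D z * f z‖ ≤ ‖f‖
    rw [Real.norm_eq_abs, abs_mul, abs_of_nonneg (io_nonneg D z)]
    have h1 := io_le_one D z
    have h2 : |f z| ≤ ‖f‖ := f.norm_coe_le_norm z
    have h3 := io_nonneg D z
    nlinarith [abs_nonneg (f z)])

lemma pr_apply (D : Set ℤ) (f : E) (z : ℤ) : pr D f z = io D z * f z := rfl

lemma H_univ_apply (f : E) (z : ℤ) : H ξ K hK Set.univ f z =
    f (z - 1) / 2 + f (z + 1) / 2 + (ξ z - 1) * f z := by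
  rw [H_apply]
  unfold ew dg
  rw [io_mem (Set.mem_univ _), io_mem (Set.mem_univ _), io_mem (Set.mem_univ _),
    io_mem (Set.mem_univ _)]
  ring

lemma half_line_source (L : ℤ) (f : E) (hf : ∀ z, z ∉ Set.Iic L → f z = 0) :
    H ξ K hK Set.univ f = H ξ K hK (Set.Iic L) f + (f L / 2) • dl (L + 1) := by
  ext z
  show H ξ K hK Set.univ f z = H ξ K hK (Set.Iic L) f z + (f L / 2) * dl (L + 1) z
  rw [H_univ_apply, H_apply, dl_apply]
  unfold ew dg
  rcases lt_trichotomy z (L + 1) with hz | hz | hz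
  · have m1 : z - 1 ∈ Set.Iic L := by simp only [Set.mem_Iic]; omega
    have m2 : z ∈ Set.Iic L := by simp only [Set.mem_Iic]; omega
    rw [sub_add_cancel, io_mem m1, io_mem m2, if_neg (by omega)]
    by_cases h : z + 1 ∈ Set.Iic L
    · rw [io_mem h]; ring
    · rw [io_notMem h, hf _ h]; ring
  · subst hz
    have m1 : L ∈ Set.Iic L := by simp
    have m2 : L + 1 ∉ Set.Iic L := by simp
    have m3 : L + 1 + 1 ∉ Set.Iic L := by simp only [Set.mem_Iic]; omega
    rw [add_sub_cancel_right, io_mem m1, io_notMem m2, hf _ m2, hf _ m3, if_pos rfl]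
    ring
  · have m1 : z - 1 ∉ Set.Iic L := by simp only [Set.mem_Iic]; omega
    have m2 : z ∉ Set.Iic L := by simp only [Set.mem_Iic]; omega
    have m3 : z + 1 ∉ Set.Iic L := by simp only [Set.mem_Iic]; omega
    rw [hf _ m1, hf _ m2, hf _ m3, if_neg (by omega)]
    ring

/-- first passage over the edge `L, L + 1` -/
lemma passage (L x : ℤ) (hx : L < x) (f : E) (hf : ∀ z, z ∉ Set.Iic L → f z = 0) (t : ℝ) :
    sg (H ξ K hK Set.univ) t f x
      = ∫ r in (0 : ℝ)..t, (sg (H ξ K hK (Set.Iic L)) r f L / 2) *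
        sg (H ξ K hK Set.univ) (t - r) (dl (L + 1)) x := by
  set Y : ℝ → E := fun r => sg (H ξ K hK Set.univ) r f - sg (H ξ K hK (Set.Iic L)) r f with hYdef
  have hs : Continuous fun r => sg (H ξ K hK (Set.Iic L)) r f L / 2 :=
    ((continuous_eval L).comp (continuous_sg_apply _ f)).div_const _
  have hY : ∀ r, HasDerivAt Y (H ξ K hK Set.univ (Y r) +
      (sg (H ξ K hK (Set.Iic L)) r f L / 2) • dl (L + 1)) r := by
    intro r
    have h1 := (hasDerivAt_sg_apply (H ξ K hK Set.univ) r f).sub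
      (hasDerivAt_sg_apply (H ξ K hK (Set.Iic L)) r f)
    refine h1.congr_deriv ?_
    have h2 := half_line_source hK L (sg (H ξ K hK (Set.Iic L)) r f)
      (fun z hz => sg_supp hK (Set.Iic L) r f hf z hz)
    rw [hYdef]
    simp only [map_sub]
    rw [h2]
    abel
  have hd := duhamel (H ξ K hK Set.univ) Y _ (dl (L + 1)) hs hY t
  have hY0 : Y 0 = 0 := by
    simp only [hYdef, sg_zero]
    simp
  rw [hY0, map_zero, zero_add] at hd
  have hcont : Continuous fun r => (sg (H ξ K hK (Set.Iic L)) r f L / 2) •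
      sg (H ξ K hK Set.univ) (t - r) (dl (L + 1)) :=
    hs.smul ((continuous_sg_apply _ _).comp (continuous_const.sub continuous_id))
  have h3 := congrArg (fun g : E => (BoundedContinuousFunction.evalCLM ℝ x) g) hd
  rw [← ContinuousLinearMap.intervalIntegral_comp_comm _ (hcont.intervalIntegrable _ _)] at h3
  have h4 : (BoundedContinuousFunction.evalCLM ℝ x) (Y t) = sg (H ξ K hK Set.univ) t f x := by
    show sg (H ξ K hK Set.univ) t f x - sg (H ξ K hK (Set.Iic L)) t f x = _
    rw [sg_supp hK (Set.Iic L) t f hf x (by simp only [Set.mem_Iic]; omega), sub_zero]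
  rw [h4] at h3
  exact h3

lemma block_source (a L : ℤ) (haL : a < L) (f : E) :
    pr (Set.Ioc a L) (H ξ K hK (Set.Iic L) f)
      = H ξ K hK (Set.Ioc a L) (pr (Set.Ioc a L) f) + (f a / 2) • dl (a + 1) := by
  ext z
  show pr (Set.Ioc a L) (H ξ K hK (Set.Iic L) f) z
    = H ξ K hK (Set.Ioc a L) (pr (Set.Ioc a L) f) z + (f a / 2) * dl (a + 1) z
  rw [pr_apply, H_apply, H_apply, dl_apply, pr_apply, pr_apply, pr_apply]
  unfold ew dg
  by_cases hz : z ∈ Set.Ioc a L
  · have hz' := hz
    rw [Set.mem_Ioc] at hz'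
    have m2 : z ∈ Set.Iic L := hz'.2
    have m1 : z - 1 ∈ Set.Iic L := by simp only [Set.mem_Iic]; omega
    rw [sub_add_cancel, io_mem hz, io_mem m1, io_mem m2]
    have e2 : io (Set.Iic L) (z + 1) = io (Set.Ioc a L) (z + 1) := by
      by_cases h : z + 1 ≤ L
      · rw [io_mem (by simpa using h), io_mem (by rw [Set.mem_Ioc]; omega)]
      · rw [io_notMem (by simpa using h), io_notMem (by rw [Set.mem_Ioc]; omega)]
    rw [e2]
    have hio : io (Set.Ioc a L) (z + 1) * io (Set.Ioc a L) (z + 1) = io (Set.Ioc a L) (z + 1) := by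
      unfold io; split_ifs <;> norm_num
    by_cases h1 : z = a + 1
    · subst h1
      rw [if_pos rfl, add_sub_cancel_right, io_notMem (z := a) (by simp)]
      linear_combination (-(1 / 2 : ℝ) * f (a + 1 + 1)) * hio
    · rw [if_neg h1, io_mem (z := z - 1) (by rw [Set.mem_Ioc]; omega)]
      linear_combination (-(1 / 2 : ℝ) * f (z + 1)) * hio
  · have hne : z ≠ a + 1 := by
      rintro rfl
      apply hz
      rw [Set.mem_Ioc]; omega
    rw [sub_add_cancel, io_notMem hz, if_neg hne]
    ring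

/-- passage through the block `(a, L]` -/
lemma block_passage (a L : ℤ) (haL : a < L) (f : E) (hf : ∀ z, z ∉ Set.Iic a → f z = 0) (t : ℝ) :
    sg (H ξ K hK (Set.Iic L)) t f L
      = ∫ r in (0 : ℝ)..t, (sg (H ξ K hK (Set.Iic L)) r f a / 2) *
        sg (H ξ K hK (Set.Ioc a L)) (t - r) (dl (a + 1)) L := by
  set Y : ℝ → E := fun r => pr (Set.Ioc a L) (sg (H ξ K hK (Set.Iic L)) r f) with hYdef
  have hs : Continuous fun r => sg (H ξ K hK (Set.Iic L)) r f a / 2 :=
    ((continuous_eval a).comp (continuous_sg_apply _ f)).div_const _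
  have hY : ∀ r, HasDerivAt Y (H ξ K hK (Set.Ioc a L) (Y r) +
      (sg (H ξ K hK (Set.Iic L)) r f a / 2) • dl (a + 1)) r := by
    intro r
    have h1 := (pr (Set.Ioc a L)).hasFDerivAt.comp_hasDerivAt r
      (hasDerivAt_sg_apply (H ξ K hK (Set.Iic L)) r f)
    refine h1.congr_deriv ?_
    exact block_source hK a L haL _
  have hd := duhamel (H ξ K hK (Set.Ioc a L)) Y _ (dl (a + 1)) hs hY t
  have hY0 : Y 0 = 0 := by
    simp only [hYdef, sg_zero]
    ext z
    show io (Set.Ioc a L) z * f z = 0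
    by_cases hz : z ∈ Set.Ioc a L
    · rw [hf z (by rw [Set.mem_Iic]; rw [Set.mem_Ioc] at hz; omega), mul_zero]
    · rw [io_notMem hz, zero_mul]
  rw [hY0, map_zero, zero_add] at hd
  have hcont : Continuous fun r => (sg (H ξ K hK (Set.Iic L)) r f a / 2) •
      sg (H ξ K hK (Set.Ioc a L)) (t - r) (dl (a + 1)) :=
    hs.smul ((continuous_sg_apply _ _).comp (continuous_const.sub continuous_id))
  have h3 := congrArg (fun g : E => (BoundedContinuousFunction.evalCLM ℝ L) g) hd
  rw [← ContinuousLinearMap.intervalIntegral_comp_comm _ (hcont.intervalIntegrable _ _)] at h3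
  have h4 : (BoundedContinuousFunction.evalCLM ℝ L) (Y t) = sg (H ξ K hK (Set.Iic L)) t f L := by
    show io (Set.Ioc a L) L * _ = _
    rw [io_mem (by rw [Set.mem_Ioc]; omega), one_mul]
  rw [h4] at h3
  exact h3

/-- convolution on the half line -/
noncomputable def conv (f g : ℝ → ℝ) (t : ℝ) : ℝ := ∫ r in (0 : ℝ)..t, f r * g (t - r)

lemma conv_nonneg (f g : ℝ → ℝ) (hf0 : ∀ r, 0 ≤ r → 0 ≤ f r) (hg0 : ∀ r, 0 ≤ r → 0 ≤ g r)
    (t : ℝ) (ht : 0 ≤ t) : 0 ≤ conv f g t := by
  unfold conv
  apply intervalIntegral.integral_nonneg ht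
  intro r hr
  exact mul_nonneg (hf0 r hr.1) (hg0 _ (by linarith [hr.2]))

lemma conv_mono_all (f g : ℝ → ℝ) (hf : Continuous f) (hg : Continuous g)
    (hf0 : ∀ r, 0 ≤ r → 0 ≤ f r) (hg0 : ∀ r, 0 ≤ r → 0 ≤ g r)
    (hgm : MonotoneOn g (Set.Ici 0)) : MonotoneOn (conv f g) (Set.Ici 0) := by
  intro s hs t ht hst
  have hs0 : 0 ≤ s := hs
  unfold conv
  have hi : ∀ a b c : ℝ, IntervalIntegrable (fun r => f r * g (c - r)) volume a b := fun a b c =>
    (hf.mul (hg.comp (continuous_const.sub continuous_id))).intervalIntegrable _ _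
  rw [← intervalIntegral.integral_add_adjacent_intervals (hi 0 s t) (hi s t t)]
  have h1 : ∫ r in (0 : ℝ)..s, f r * g (s - r) ≤ ∫ r in (0 : ℝ)..s, f r * g (t - r) := by
    apply intervalIntegral.integral_mono_on hs0 (hi 0 s s) (hi 0 s t)
    intro r hr
    apply mul_le_mul_of_nonneg_left _ (hf0 r hr.1)
    exact hgm (by simp only [Set.mem_Ici]; linarith [hr.2]) (by simp only [Set.mem_Ici]; linarith [hr.2])
      (by linarith)
  have h2 : 0 ≤ ∫ r in s..t, f r * g (t - r) := by
    apply intervalIntegral.integral_nonneg hst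
    intro r hr
    exact mul_nonneg (hf0 r (by linarith [hr.1])) (hg0 _ (by linarith [hr.2]))
  linarith

/-- half of a convolution -/
lemma half_mono (f g : ℝ → ℝ) (hf : Continuous f) (hg : Continuous g)
    (hf0 : ∀ r, 0 ≤ r → 0 ≤ f r) (hg0 : ∀ r, 0 ≤ r → 0 ≤ g r) (T : ℝ) (hT : 0 ≤ T)
    (hgm : MonotoneOn g (Set.Ici T)) (s t : ℝ) (hs : 2 * T ≤ s) (hst : s ≤ t) :
    ∫ r in (0 : ℝ)..(s / 2), f r * g (s - r) ≤ ∫ r in (0 : ℝ)..(t / 2), f r * g (t - r) := by
  have hi : ∀ a b c : ℝ, IntervalIntegrable (fun r => f r * g (c - r)) volume a b := fun a b c =>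
    (hf.mul (hg.comp (continuous_const.sub continuous_id))).intervalIntegrable _ _
  rw [← intervalIntegral.integral_add_adjacent_intervals (hi 0 (s / 2) t) (hi (s / 2) (t / 2) t)]
  have h1 : ∫ r in (0 : ℝ)..(s / 2), f r * g (s - r) ≤ ∫ r in (0 : ℝ)..(s / 2), f r * g (t - r) := by
    apply intervalIntegral.integral_mono_on (by linarith) (hi _ _ _) (hi _ _ _)
    intro r hr
    apply mul_le_mul_of_nonneg_left _ (hf0 r hr.1)
    exact hgm (by simp only [Set.mem_Ici]; linarith [hr.2]) (by simp only [Set.mem_Ici]; linarith [hr.2])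
      (by linarith)
  have h2 : 0 ≤ ∫ r in (s / 2)..(t / 2), f r * g (t - r) := by
    apply intervalIntegral.integral_nonneg (by linarith)
    intro r hr
    exact mul_nonneg (hf0 r (by linarith [hr.1])) (hg0 _ (by linarith [hr.2]))
  linarith

lemma conv_split (f g : ℝ → ℝ) (hf : Continuous f) (hg : Continuous g) (t : ℝ) :
    conv f g t = (∫ r in (0 : ℝ)..(t / 2), f r * g (t - r)) +
      ∫ r in (0 : ℝ)..(t / 2), g r * f (t - r) := by
  unfold conv
  have hi : ∀ a b c : ℝ, IntervalIntegrable (fun r => f r * g (c - r)) volume a b := fun a b c =>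
    (hf.mul (hg.comp (continuous_const.sub continuous_id))).intervalIntegrable _ _
  rw [← intervalIntegral.integral_add_adjacent_intervals (hi 0 (t / 2) t) (hi (t / 2) t t)]
  congr 1
  have h := intervalIntegral.integral_comp_sub_left (fun r => f r * g (t - r)) t (a := 0)
    (b := t / 2)
  rw [sub_zero, show t - t / 2 = t / 2 by ring] at h
  rw [← h]
  apply intervalIntegral.integral_congr
  intro r _
  simp only [sub_sub_cancel]
  ring

/-- the convolution of two functions that are increasing after `T` is increasing after `2 T` -/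
lemma conv_mono (f g : ℝ → ℝ) (hf : Continuous f) (hg : Continuous g)
    (hf0 : ∀ r, 0 ≤ r → 0 ≤ f r) (hg0 : ∀ r, 0 ≤ r → 0 ≤ g r) (T : ℝ) (hT : 0 ≤ T)
    (hfm : MonotoneOn f (Set.Ici T)) (hgm : MonotoneOn g (Set.Ici T)) :
    MonotoneOn (conv f g) (Set.Ici (2 * T)) := by
  intro s hs t _ hst
  rw [conv_split f g hf hg, conv_split f g hf hg]
  exact add_le_add (half_mono f g hf hg hf0 hg0 T hT hgm s t hs hst)
    (half_mono g f hg hf hg0 hf0 T hT hfm s t hs hst)

end Q293.Pam
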