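import Pool.Agent.Q293.PamGrow

/-!
# Bounded solutions of the parabolic Anderson model and their eventual growth
-/

set_option autoImplicit false
set_option linter.unusedSectionVars false

open Filter Topology MeasureTheory

namespace Q293.Pam

open Q293.Sgp BoundedContinuousFunction

/-- `u` solves the parabolic Anderson model with potential `ξ` and initial configuration `u0`, and
is bounded on bounded time intervals -/
structure IsSolution (ξ : ℤ → ℝ) (u0 : ℤ → ℝ) (u : ℝ → ℤ → ℝ) : Prop where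
  init : ∀ z, u 0 z = u0 z
  ode : ∀ t : ℝ, 0 ≤ t → ∀ z, HasDerivWithinAt (fun s => u s z)
    ((u t (z + 1) + u t (z - 1) - 2 * u t z) / 2 + ξ z * u t z) (Set.Ici 0) t
  bdd : ∀ T : ℝ, ∃ C : ℝ, ∀ t ∈ Set.Icc 0 T, ∀ z, |u t z| ≤ C

variable {ξ : ℤ → ℝ} {K : ℝ} (hK : ∀ z, |ξ z| ≤ K)

/-- uniqueness of bounded solutions -/
lemma solution_eq (f : E) (u : ℝ → ℤ → ℝ) (hu : IsSolution ξ f u) (t : ℝ) (ht : 0 ≤ t) (z : ℤ) :
    u t z = sg (H ξ K hK Set.univ) t f z := by
  have hK0 : 0 ≤ K := (abs_nonneg _).trans (hK 0)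
  set U : ℝ → ℤ → ℝ := fun s y => sg (H ξ K hK Set.univ) s f y with hU
  have hUder : ∀ s y, HasDerivAt (fun s => U s y)
      ((U s (y + 1) + U s (y - 1) - 2 * U s y) / 2 + ξ y * U s y) s := by
    intro s y
    have h1 : HasDerivAt (fun s => U s y) (H ξ K hK Set.univ (sg (H ξ K hK Set.univ) s f) y) s := by
      exact (BoundedContinuousFunction.evalCLM ℝ y).hasFDerivAt.comp_hasDerivAt s
        (hasDerivAt_sg_apply (H ξ K hK Set.univ) s f)
    refine h1.congr_deriv ?_
    rw [H_univ_apply]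
    simp only [hU]
    ring
  obtain ⟨C1, hC1⟩ := hu.bdd t
  obtain ⟨C2, hC2⟩ : ∃ C2 : ℝ, ∀ s ∈ Set.Icc 0 t, ∀ y, |U s y| ≤ C2 := by
    have hc : Continuous fun s => ‖sg (H ξ K hK Set.univ) s f‖ := (continuous_sg_apply _ f).norm
    obtain ⟨C2, hC2⟩ := (isCompact_Icc (a := (0 : ℝ)) (b := t)).bddAbove_image hc.continuousOn
    refine ⟨C2, fun s hs y => ?_⟩
    exact ((sg (H ξ K hK Set.univ) s f).norm_coe_le_norm y).trans
      (hC2 (Set.mem_image_of_mem _ hs))
  set C0 := max 0 (C1 + C2) with hC0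
  have hC00 : 0 ≤ C0 := le_max_left _ _
  set A := K + 2 with hA
  have hA0 : 0 ≤ A := by linarith
  have key : ∀ n : ℕ, ∀ y, ∀ s ∈ Set.Icc 0 t, |u s y - U s y| ≤
      C0 * (A ^ n * s ^ n / n.factorial) := by
    intro n
    induction n with
    | zero =>
      intro y s hs
      simp only [pow_zero, Nat.factorial_zero, Nat.cast_one, div_one, mul_one]
      calc |u s y - U s y| ≤ |u s y| + |U s y| := abs_sub _ _
        _ ≤ C1 + C2 := add_le_add (hC1 s hs y) (hC2 s hs y)
        _ ≤ C0 := le_max_right _ _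
    | succ n ih =>
      intro y s hs
      have hcont : ContinuousOn (fun s => u s y - U s y) (Set.Icc 0 t) := by
        intro r hr
        exact (((hu.ode r hr.1 y).continuousWithinAt).mono fun w hw => hw.1).sub
          (hUder r y).continuousAt.continuousWithinAt
      have hder : ∀ r ∈ Set.Ico 0 t, HasDerivWithinAt (fun s => u s y - U s y)
          (((u r (y + 1) - U r (y + 1)) + (u r (y - 1) - U r (y - 1)) -
            2 * (u r y - U r y)) / 2 + ξ y * (u r y - U r y)) (Set.Ici r) r := by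
        intro r hr
        have h1 := ((hu.ode r hr.1 y).mono (Set.Ici_subset_Ici.2 hr.1)).sub
          (hUder r y).hasDerivWithinAt
        refine h1.congr_deriv ?_
        ring
      have hB : ∀ r : ℝ, HasDerivAt (fun r : ℝ => C0 * (A ^ (n + 1) * r ^ (n + 1) /
          (n + 1).factorial)) (C0 * (A ^ (n + 1) * r ^ n / n.factorial)) r := by
        intro r
        have h1 := ((((hasDerivAt_pow (n + 1) r).const_mul (A ^ (n + 1))).div_const
          ((n + 1).factorial : ℝ)).const_mul C0)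
        refine h1.congr_deriv ?_
        rw [Nat.factorial_succ]
        push_cast
        have : (n.factorial : ℝ) ≠ 0 := by exact_mod_cast n.factorial_ne_zero
        have h2 : (n : ℝ) + 1 ≠ 0 := by positivity
        field_simp
      have hbound : ∀ r ∈ Set.Ico 0 t, ‖((u r (y + 1) - U r (y + 1)) +
          (u r (y - 1) - U r (y - 1)) - 2 * (u r y - U r y)) / 2 + ξ y * (u r y - U r y)‖ ≤
          C0 * (A ^ (n + 1) * r ^ n / n.factorial) := by
        intro r hr
        have hr' : r ∈ Set.Icc 0 t := ⟨hr.1, hr.2.le⟩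
        have i1 := ih (y + 1) r hr'
        have i2 := ih (y - 1) r hr'
        have i3 := ih y r hr'
        set β := C0 * (A ^ n * r ^ n / n.factorial) with hβ
        have hβA : C0 * (A ^ (n + 1) * r ^ n / n.factorial) = A * β := by
          rw [hβ, pow_succ]; ring
        rw [hβA, Real.norm_eq_abs]
        set d1 := u r (y + 1) - U r (y + 1)
        set d2 := u r (y - 1) - U r (y - 1)
        set d3 := u r y - U r y
        have h1 : |ξ y * d3| ≤ K * β := by
          rw [abs_mul]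
          exact mul_le_mul (hK y) i3 (abs_nonneg _) hK0
        have h2 : |(d1 + d2 - 2 * d3) / 2| ≤ 2 * β := by
          rw [abs_le] at i1 i2 i3 ⊢
          constructor <;> linarith [i1.1, i1.2, i2.1, i2.2, i3.1, i3.2]
        calc |(d1 + d2 - 2 * d3) / 2 + ξ y * d3| ≤ |(d1 + d2 - 2 * d3) / 2| + |ξ y * d3| :=
              abs_add_le _ _
          _ ≤ 2 * β + K * β := add_le_add h2 h1
          _ = A * β := by rw [hA]; ring
      have h0 : ‖(fun s => u s y - U s y) 0‖ ≤ (fun r : ℝ => C0 * (A ^ (n + 1) * r ^ (n + 1) /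
          (n + 1).factorial)) 0 := by
        have : U 0 y = f y := by
          simp only [hU, sg_zero]; rfl
        simp only [hu.init y, this, sub_self, norm_zero]
        positivity
      have := image_norm_le_of_norm_deriv_right_le_deriv_boundary hcont hder h0 hB hbound hs
      exact this
  have hlim : Tendsto (fun n : ℕ => C0 * (A ^ n * t ^ n / n.factorial)) atTop (𝓝 0) := by
    have h1 := (FloorSemiring.tendsto_pow_div_factorial_atTop (A * t)).const_mul C0
    rw [mul_zero] at h1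
    refine h1.congr fun n => ?_
    rw [mul_pow]
  have h2 : |u t z - U t z| ≤ 0 := by
    apply ge_of_tendsto hlim
    exact Filter.Eventually.of_forall fun n => key n z t ⟨ht, le_refl _⟩
  have h3 : u t z - U t z = 0 := abs_eq_zero.1 (le_antisymm h2 (abs_nonneg _))
  linarith

/-- strict growth of the semigroup -/
theorem strict_ev {b : ℝ} (hb : 0 < b) (hξ : ∀ z, b ≤ ξ z) (x : ℤ) (f : E) (hf : ∀ z, 0 ≤ f z)
    (hf0 : 1 ≤ f 0) (hfs : ∀ z, 0 < z → f z = 0) :
    ∃ T : ℝ, 0 ≤ T ∧ StrictMonoOn (fun t => sg (H ξ K hK Set.univ) t f x) (Set.Ici T) := by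
  set ξ' : ℤ → ℝ := fun z => ξ z - b / 2 with hξ'
  have hK' : ∀ z, |ξ' z| ≤ K + b / 2 := by
    intro z
    have := hK z
    rw [abs_le] at this ⊢
    simp only [hξ']
    constructor <;> linarith
  have hb' : ∀ z, b / 2 ≤ ξ' z := by
    intro z; simp only [hξ']; linarith [hξ z]
  have hshift : H ξ K hK Set.univ = H ξ' (K + b / 2) hK' Set.univ + (b / 2) • 1 := by
    ext g z
    show H ξ K hK Set.univ g z = H ξ' (K + b / 2) hK' Set.univ g z + (b / 2) * g z
    rw [H_univ_apply, H_univ_apply]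
    simp only [hξ']
    ring
  obtain ⟨T, hT, hm⟩ := mono_ev hK' (by linarith : 0 < b / 2) hb' x f hf hfs
  have hval : ∀ t, sg (H ξ K hK Set.univ) t f x =
      Real.exp (t * (b / 2)) * sg (H ξ' (K + b / 2) hK' Set.univ) t f x := by
    intro t
    have h1 := sg_shift (H ξ' (K + b / 2) hK' Set.univ) (b / 2) t f
    rw [← hshift] at h1
    have h2 : sg (H ξ' (K + b / 2) hK' Set.univ) t f x
        = Real.exp (-(t * (b / 2))) * sg (H ξ K hK Set.univ) t f x := by rw [h1]; rfl
    rw [h2, ← mul_assoc, ← Real.exp_add]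
    simp
  obtain ⟨n, hn⟩ := exists_nat_ge (max T ((x.natAbs : ℕ) : ℝ))
  have hnT : T ≤ n := (le_max_left _ _).trans hn
  have hnx : x.natAbs ≤ n := by exact_mod_cast (le_max_right _ _).trans hn
  have hξ0 : ∀ z, 0 ≤ ξ' z := fun z => by have := hb' z; linarith
  have hpos : 0 < sg (H ξ' (K + b / 2) hK' Set.univ) n f x := by
    have h1 := kernel_pos hK' Set.univ hξ0 Set.ordConnected_univ 0 (Set.mem_univ _) n x
      (Set.mem_univ _) (by simpa using hnx)
    have h2 : ∀ y, dl 0 y ≤ f y := by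
      intro y
      rw [dl_apply]
      split_ifs with h
      · rw [h]; exact hf0
      · exact hf y
    exact lt_of_lt_of_le h1 (sg_mono hK' Set.univ hξ0 n (Nat.cast_nonneg _) _ _ h2 x)
  refine ⟨n, Nat.cast_nonneg _, ?_⟩
  intro s hs t ht hst
  simp only [hval]
  have hs' : (n : ℝ) ≤ s := hs
  have ht' : (n : ℝ) ≤ t := ht
  have h1 := hm (Set.mem_Ici.2 hnT) (Set.mem_Ici.2 (hnT.trans hs')) hs'
  have h2 := hm (Set.mem_Ici.2 (hnT.trans hs')) (Set.mem_Ici.2 (hnT.trans ht')) hst.le
  simp only at h1 h2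
  have h3 : Real.exp (s * (b / 2)) < Real.exp (t * (b / 2)) := Real.exp_lt_exp.2 (by nlinarith)
  calc Real.exp (s * (b / 2)) * sg (H ξ' (K + b / 2) hK' Set.univ) s f x
      < Real.exp (t * (b / 2)) * sg (H ξ' (K + b / 2) hK' Set.univ) s f x :=
        mul_lt_mul_of_pos_right h3 (lt_of_lt_of_le hpos h1)
    _ ≤ Real.exp (t * (b / 2)) * sg (H ξ' (K + b / 2) hK' Set.univ) t f x :=
        mul_le_mul_of_nonneg_left h2 (Real.exp_pos _).le

/-- eventual strict growth of the solution at every site -/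
theorem solution_strict {b C : ℝ} (hb : 0 < b) (hξ : ∀ z, b ≤ ξ z) (hξC : ∀ z, ξ z ≤ C)
    (u0 : ℤ → ℝ) (hu0 : ∀ z, 0 ≤ u0 z) (hu00 : 1 ≤ u0 0) (hu0s : ∀ z, 0 < z → u0 z = 0)
    (B : ℝ) (hB : ∀ z, u0 z ≤ B) (u : ℝ → ℤ → ℝ) (hu : IsSolution ξ u0 u) (x : ℤ) :
    ∃ T : ℝ, 0 ≤ T ∧ StrictMonoOn (fun t => u t x) (Set.Ici T) := by
  have hK' : ∀ z, |ξ z| ≤ C := fun z => by
    rw [abs_of_nonneg (hb.le.trans (hξ z))]; exact hξC z
  set f : E := BoundedContinuousFunction.ofNormedAddCommGroupDiscrete u0 B (by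
    intro z; rw [Real.norm_eq_abs, abs_of_nonneg (hu0 z)]; exact hB z) with hf
  have hfv : ∀ z, f z = u0 z := fun z => rfl
  obtain ⟨T, hT, hm⟩ := strict_ev hK' hb hξ x f hu0 hu00 hu0s
  refine ⟨T, hT, ?_⟩
  intro s hs t ht hst
  have e := solution_eq hK' f u hu
  simp only
  rw [e s (hT.trans hs) x, e t (hT.trans ht) x]
  exact hm hs ht hst

/-- existence of a bounded solution -/
theorem exists_solution {C : ℝ} (hξ : ∀ z, |ξ z| ≤ C) (u0 : ℤ → ℝ) (B : ℝ)
    (hB : ∀ z, |u0 z| ≤ B) : ∃ u, IsSolution ξ u0 u := by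
  set f : E := BoundedContinuousFunction.ofNormedAddCommGroupDiscrete u0 B (by
    intro z; rw [Real.norm_eq_abs]; exact hB z) with hf
  refine ⟨fun s y => sg (H ξ C hξ Set.univ) s f y, ?_, ?_, ?_⟩
  · intro z
    simp only [sg_zero]
    rfl
  · intro t _ z
    have h1 : HasDerivAt (fun s => sg (H ξ C hξ Set.univ) s f z)
        (H ξ C hξ Set.univ (sg (H ξ C hξ Set.univ) t f) z) t := by
      exact (BoundedContinuousFunction.evalCLM ℝ z).hasFDerivAt.comp_hasDerivAt t
        (hasDerivAt_sg_apply (H ξ C hξ Set.univ) t f)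
    have h2 : HasDerivAt (fun s => sg (H ξ C hξ Set.univ) s f z)
        ((sg (H ξ C hξ Set.univ) t f (z + 1) + sg (H ξ C hξ Set.univ) t f (z - 1) -
          2 * sg (H ξ C hξ Set.univ) t f z) / 2 + ξ z * sg (H ξ C hξ Set.univ) t f z) t := by
      refine h1.congr_deriv ?_
      rw [H_univ_apply]
      ring
    exact h2.hasDerivWithinAt
  · intro T
    have hc : Continuous fun s => ‖sg (H ξ C hξ Set.univ) s f‖ := (continuous_sg_apply _ f).norm
    obtain ⟨C2, hC2⟩ := (isCompact_Icc (a := (0 : ℝ)) (b := T)).bddAbove_image hc.continuousOn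
    refine ⟨C2, fun s hs y => ?_⟩
    exact ((sg (H ξ C hξ Set.univ) s f).norm_coe_le_norm y).trans
      (hC2 (Set.mem_image_of_mem _ hs))

end Q293.Pam
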