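import Pool.Agent.Q293.PamPsi

/-!
# Growth of the kernel and eventual monotonicity
-/

set_option autoImplicit false
set_option linter.unusedSectionVars false

open Filter Topology MeasureTheory

namespace Q293.Pam

open Q293.Sgp BoundedContinuousFunction

variable {ξ : ℤ → ℝ} {K : ℝ} (hK : ∀ z, |ξ z| ≤ K) (D : Set ℤ)

lemma sg_S_ge (hξ : ∀ z, 0 ≤ ξ z) (t : ℝ) (ht : 0 ≤ t) (f : E) (hf : ∀ z, 0 ≤ f z) (z : ℤ) :
    f z + t * S ξ K hK D f z ≤ sg (S ξ K hK D) t f z := by
  have h := sg_S_hasSum hK D t f z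
  have h2 := sum_le_hasSum (Finset.range 2) (fun n _ => mul_nonneg (by positivity)
    (Spow_nonneg hK D hξ n f hf z)) h
  rw [Finset.sum_range_succ, Finset.sum_range_one] at h2
  simpa using h2

lemma sg_one_ge (hξ : ∀ z, 0 ≤ ξ z) (f : E) (hf : ∀ z, 0 ≤ f z) (z : ℤ) :
    Real.exp (-1) * (f z + S ξ K hK D f z) ≤ sg (H ξ K hK D) 1 f z := by
  rw [sg_eq_S]
  have := sg_S_ge hK D hξ 1 zero_le_one f hf z
  rw [one_mul] at this
  exact mul_le_mul_of_nonneg_left this (Real.exp_pos _).le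

lemma kernel_pos (hξ : ∀ z, 0 ≤ ξ z) (hD : D.OrdConnected) (x : ℤ) (hx : x ∈ D) (n : ℕ) :
    ∀ z ∈ D, (z - x).natAbs ≤ n → 0 < sg (H ξ K hK D) n (dl x) z := by
  induction n with
  | zero =>
    intro z _ hz
    have : z = x := by omega
    subst this
    simp only [Nat.cast_zero, sg_zero]
    show 0 < dl z z
    rw [dl_self]; exact one_pos
  | succ n ih =>
    intro z hzD hz
    have hnn : ∀ y, 0 ≤ sg (H ξ K hK D) n (dl x) y := fun y =>
      sg_nonneg hK D hξ n (Nat.cast_nonneg n) _ (dl_nonneg x) y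
    push_cast
    rw [add_comm (n : ℝ) 1, sg_add_apply]
    refine lt_of_lt_of_le ?_ (sg_one_ge hK D hξ _ hnn z)
    apply mul_pos (Real.exp_pos _)
    have hS := S_nonneg hK D hξ _ hnn z
    rcases Nat.lt_or_ge n (z - x).natAbs with h | h
    · rw [S_apply']
      have h1 := mul_nonneg (ew_nonneg D (z - 1)) (hnn (z - 1))
      have h2 := mul_nonneg (ew_nonneg D z) (hnn (z + 1))
      have h3 := mul_nonneg (dg_nonneg D hξ z) (hnn z)
      have h0 := hnn z
      rcases lt_trichotomy z x with hzx | hzx | hzx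
      · have m : z + 1 ∈ D := hD.out hzD hx ⟨by omega, by omega⟩
        have hp := ih (z + 1) m (by omega)
        have : 0 < ew D z * sg (H ξ K hK D) n (dl x) (z + 1) := by
          apply mul_pos _ hp
          unfold ew
          rw [io_mem hzD, io_mem m]; norm_num
        linarith
      · omega
      · have m : z - 1 ∈ D := hD.out hx hzD ⟨by omega, by omega⟩
        have hp := ih (z - 1) m (by omega)
        have : 0 < ew D (z - 1) * sg (H ξ K hK D) n (dl x) (z - 1) := by
          apply mul_pos _ hp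
          unfold ew
          rw [sub_add_cancel, io_mem hzD, io_mem m]; norm_num
        linarith
    · have := ih z hzD h
      linarith

/-- finitely supported function -/
noncomputable def bump (a L : ℤ) (ψ : ℤ → ℝ) : E := ∑ z ∈ Finset.Ioc a L, ψ z • dl z

lemma bump_apply (a L : ℤ) (ψ : ℤ → ℝ) (y : ℤ) :
    bump a L ψ y = if y ∈ Set.Ioc a L then ψ y else 0 := by
  classical
  unfold bump
  rw [BoundedContinuousFunction.sum_apply]
  have h1 : ∀ z, (ψ z • dl z) y = if y = z then ψ z else 0 := by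
    intro z
    show ψ z * dl z y = _
    rw [dl_apply]; split_ifs <;> simp
  simp only [h1]
  rw [Finset.sum_ite_eq]
  simp only [Finset.mem_Ioc, Set.mem_Ioc]

lemma bump_super {b : ℝ} {a L : ℤ} {ψ : ℤ → ℝ} (hsub : Set.Ioc a L ⊆ D)
    (hL : ψ (L + 1) = 0) (ha : ψ a ≤ 0) (hpos : ∀ z ∈ Set.Ioc a L, 0 < ψ z)
    (heq : ∀ z ∈ Set.Ioc a L, ψ (z - 1) + ψ (z + 1) = 2 * (1 - (ξ z - b)) * ψ z) (z : ℤ) :
    b * bump a L ψ z ≤ H ξ K hK D (bump a L ψ) z := by
  have hnn : ∀ y, 0 ≤ bump a L ψ y := by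
    intro y
    rw [bump_apply]
    split_ifs with h
    · exact (hpos y h).le
    · exact le_refl _
  rw [H_apply]
  by_cases hz : z ∈ Set.Ioc a L
  · have hz' := hz
    rw [Set.mem_Ioc] at hz'
    have e0 : bump a L ψ z = ψ z := by rw [bump_apply, if_pos hz]
    have e1 : ψ (z - 1) / 2 ≤ ew D (z - 1) * bump a L ψ (z - 1) := by
      unfold ew
      rw [sub_add_cancel, io_mem (hsub hz)]
      by_cases h : z - 1 ∈ Set.Ioc a L
      · rw [io_mem (hsub h), bump_apply, if_pos h]; linarith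
      · have : z - 1 = a := by rw [Set.mem_Ioc] at h; omega
        rw [bump_apply, if_neg h, mul_zero, this]; linarith
    have e2 : ψ (z + 1) / 2 ≤ ew D z * bump a L ψ (z + 1) := by
      unfold ew
      rw [io_mem (hsub hz)]
      by_cases h : z + 1 ∈ Set.Ioc a L
      · rw [io_mem (hsub h), bump_apply, if_pos h]; linarith
      · have : z = L := by rw [Set.mem_Ioc] at h; omega
        rw [bump_apply, if_neg h, mul_zero, this, hL]; linarith
    have e3 : dg ξ D z = ξ z - 1 := by unfold dg; rw [io_mem (hsub hz), one_mul]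
    rw [e0, e3]
    have := heq z hz
    linarith
  · have e0 : bump a L ψ z = 0 := by rw [bump_apply, if_neg hz]
    rw [e0]
    have h1 := mul_nonneg (ew_nonneg D (z - 1)) (hnn (z - 1))
    have h2 := mul_nonneg (ew_nonneg D z) (hnn (z + 1))
    linarith

lemma super_growth (hξ : ∀ z, 0 ≤ ξ z) {b : ℝ} (g : E)
    (hg : ∀ z, b * g z ≤ H ξ K hK D g z) (t : ℝ) (ht : 0 ≤ t) (z : ℤ) :
    Real.exp (b * t) * g z ≤ sg (H ξ K hK D) t g z := by
  set Φ : ℝ → ℝ := fun t => Real.exp (-(b * t)) * sg (H ξ K hK D) t g z with hΦ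
  have hd : ∀ s, HasDerivAt Φ (Real.exp (-(b * s)) * (sg (H ξ K hK D) s
      (H ξ K hK D g - b • g) z)) s := by
    intro s
    have h1 : HasDerivAt (fun s => Real.exp (-(b * s))) (Real.exp (-(b * s)) * (-b)) s := by
      have := ((hasDerivAt_id s).const_mul b).neg.exp
      simpa using this
    have h2 : HasDerivAt (fun t => sg (H ξ K hK D) t g z)
        (H ξ K hK D (sg (H ξ K hK D) s g) z) s := by
      exact (BoundedContinuousFunction.evalCLM ℝ z).hasFDerivAt.comp_hasDerivAt s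
        (hasDerivAt_sg_apply (H ξ K hK D) s g)
    refine (h1.mul h2).congr_deriv ?_
    rw [map_sub, map_smul, sg_comm]
    have e : (H ξ K hK D (sg (H ξ K hK D) s g) - b • sg (H ξ K hK D) s g) z
      = H ξ K hK D (sg (H ξ K hK D) s g) z - b * sg (H ξ K hK D) s g z := rfl
    rw [e]
    ring
  have hmono : MonotoneOn Φ (Set.Ici 0) := by
    apply monotoneOn_of_deriv_nonneg (convex_Ici 0)
    · exact fun t _ => (hd t).continuousAt.continuousWithinAt
    · exact fun t _ => (hd t).differentiableAt.differentiableWithinAt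
    · intro s hs
      rw [interior_Ici] at hs
      rw [(hd s).deriv]
      apply mul_nonneg (Real.exp_pos _).le
      apply sg_nonneg hK D hξ s (le_of_lt hs)
      intro y
      show 0 ≤ H ξ K hK D g y - b * g y
      linarith [hg y]
  have h1 := hmono (Set.mem_Ici.2 (le_refl 0)) (Set.mem_Ici.2 ht) ht
  simp only [hΦ, mul_zero, neg_zero, Real.exp_zero, one_mul, sg_zero] at h1
  have h2 : (1 : E →L[ℝ] E) g z = g z := rfl
  rw [h2] at h1
  have h3 := mul_le_mul_of_nonneg_left h1 (Real.exp_pos (b * t)).le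
  rw [← mul_assoc, ← Real.exp_add, add_neg_cancel, Real.exp_zero, one_mul] at h3
  exact h3

/-- the diagonal kernel exceeds one -/
lemma diag_large {b : ℝ} (hb : 0 < b) (hξ : ∀ z, b ≤ ξ z) (hD : D.OrdConnected) (x : ℤ)
    (hx : Set.Iic x ⊆ D) : ∃ t : ℝ, 0 < t ∧ 1 < sg (H ξ K hK D) t (dl x) x := by
  have hξ0 : ∀ z, 0 ≤ ξ z := fun z => hb.le.trans (hξ z)
  obtain ⟨a, ψ, haL, hL, ha, hpos, heq⟩ := exists_psi (fun z => ξ z - b / 2) (b / 2) (by linarith)
    (fun z => by have := hξ z; linarith) x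
  have hsub : Set.Ioc a x ⊆ D := fun z hz => hx hz.2
  have hxD : x ∈ D := hx (Set.mem_Iic.2 le_rfl)
  set g := bump a x ψ with hg
  have hg0 : ∀ y, 0 ≤ g y := by
    intro y
    rw [hg, bump_apply]
    split_ifs with h
    · exact (hpos y h).le
    · exact le_refl _
  set N : ℕ := (x - a).toNat with hN
  have hkpos : ∀ z ∈ Set.Ioc a x, 0 < sg (H ξ K hK D) N (dl x) z := fun z hz =>
    kernel_pos hK D hξ0 hD x hxD N z (hsub hz) (by rw [Set.mem_Ioc] at hz; omega)
  obtain ⟨c, hc0, hc⟩ : ∃ c : ℝ, 0 < c ∧ ∀ z, c * g z ≤ sg (H ξ K hK D) N (dl x) z := by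
    obtain ⟨M, hM⟩ := ((Set.finite_Ioc a x).image
      fun z => ψ z / sg (H ξ K hK D) N (dl x) z).bddAbove
    refine ⟨1 / (max M 1), by positivity, fun z => ?_⟩
    rw [hg, bump_apply]
    split_ifs with h
    · have h1 : ψ z / sg (H ξ K hK D) N (dl x) z ≤ max M 1 :=
        (hM (Set.mem_image_of_mem _ h)).trans (le_max_left _ _)
      rw [div_le_iff₀ (hkpos z h)] at h1
      rw [one_div, inv_mul_le_iff₀ (by positivity)]
      exact h1
    · rw [mul_zero]
      exact sg_nonneg hK D hξ0 N (Nat.cast_nonneg _) _ (dl_nonneg x) z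
  -- positivity of the return from the bump
  have hη : 0 < sg (H ξ K hK D) N g x := by
    have m : x ∈ Set.Ioc a x := ⟨haL, le_refl _⟩
    have h1 : ∀ y, (ψ x • dl x : E) y ≤ g y := by
      intro y
      show ψ x * dl x y ≤ g y
      rw [dl_apply]
      split_ifs with h
      · rw [h, hg, bump_apply, if_pos m, mul_one]
      · rw [mul_zero]; exact hg0 y
    have h2 := sg_mono hK D hξ0 N (Nat.cast_nonneg _) _ _ h1 x
    rw [map_smul] at h2
    have h3 : (ψ x • sg (H ξ K hK D) N (dl x)) x = ψ x * sg (H ξ K hK D) N (dl x) x := rfl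
    rw [h3] at h2
    exact lt_of_lt_of_le (mul_pos (hpos x m) (hkpos x m)) h2
  set η := sg (H ξ K hK D) N g x with hηdef
  have hsup := bump_super hK D (b := b / 2) hsub hL ha hpos heq
  have hkey : ∀ t, 0 ≤ t → c * (Real.exp (b / 2 * t) * η) ≤
      sg (H ξ K hK D) (N + (t + N)) (dl x) x := by
    intro t ht
    rw [sg_add_apply, sg_add_apply]
    have h1 : ∀ y, (c • (Real.exp (b / 2 * t) • g) : E) y ≤
        sg (H ξ K hK D) t (sg (H ξ K hK D) N (dl x)) y := by
      intro y
      have h2 : ∀ y, (c • g : E) y ≤ sg (H ξ K hK D) N (dl x) y := hc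
      have h3 := sg_mono hK D hξ0 t ht _ _ h2 y
      rw [map_smul] at h3
      have h4 := super_growth hK D hξ0 g hsup t ht y
      show c * (Real.exp (b / 2 * t) * g y) ≤ _
      refine le_trans ?_ h3
      show _ ≤ c * sg (H ξ K hK D) t g y
      exact mul_le_mul_of_nonneg_left h4 hc0.le
    have h5 := sg_mono hK D hξ0 N (Nat.cast_nonneg _) _ _ h1 x
    rw [map_smul, map_smul] at h5
    exact h5
  -- choose t
  obtain ⟨t, ht0, ht⟩ : ∃ t : ℝ, 0 < t ∧ 1 < c * (Real.exp (b / 2 * t) * η) := by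
    refine ⟨2 / b * (1 / (c * η)), by positivity, ?_⟩
    have h1 : b / 2 * (2 / b * (1 / (c * η))) = 1 / (c * η) := by field_simp
    rw [h1]
    have h2 := Real.add_one_le_exp (1 / (c * η))
    have h3 : 0 < c * η := mul_pos hc0 hη
    calc (1 : ℝ) < 1 + c * η := by linarith
      _ = c * ((1 / (c * η) + 1) * η) := by field_simp
      _ ≤ c * (Real.exp (1 / (c * η)) * η) := by gcongr
  refine ⟨N + (t + N), by positivity, ?_⟩
  exact lt_of_lt_of_le ht (hkey t ht0.le)

/-- eventual monotonicity on the diagonal -/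
lemma diag_mono {b : ℝ} (hb : 0 < b) (hξ : ∀ z, b ≤ ξ z) (hD : D.OrdConnected) (x : ℤ)
    (hx : Set.Iic x ⊆ D) : ∃ T : ℝ, 0 ≤ T ∧
      MonotoneOn (fun t => sg (H ξ K hK D) t (dl x) x) (Set.Ici T) := by
  obtain ⟨t, ht0, ht⟩ := diag_large hK D hb hξ hD x hx
  refine ⟨t, ht0.le, ?_⟩
  apply mono_of_midpoint (fun t => sg (H ξ K hK D) t (dl x) x)
    ((continuous_eval x).comp (continuous_sg_apply _ _)) _ 0 t le_rfl ht0
  · have : sg (H ξ K hK D) 0 (dl x) x = 1 := by
      rw [sg_zero]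
      exact dl_self x
    simp only [this]
    exact ht
  · intro s t hs ht
    exact diag_convex hK D (fun z => hb.le.trans (hξ z)) x s t hs ht

lemma conv_comm (f g : ℝ → ℝ) (t : ℝ) : conv f g t = conv g f t := by
  unfold conv
  have h := intervalIntegral.integral_comp_sub_left (fun r => g r * f (t - r)) t (a := 0)
    (b := t)
  rw [sub_zero, sub_self] at h
  rw [← h]
  apply intervalIntegral.integral_congr
  intro r _
  simp only [sub_sub_cancel]
  ring

/-- eventual monotonicity for sources on the left -/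
lemma near_left {b : ℝ} (hb : 0 < b) (hξ : ∀ z, b ≤ ξ z) (x : ℤ) (n : ℕ) :
    ∃ T : ℝ, 0 ≤ T ∧
      MonotoneOn (fun t => sg (H ξ K hK Set.univ) t (dl (x - n)) x) (Set.Ici T) := by
  have hξ0 : ∀ z, 0 ≤ ξ z := fun z => hb.le.trans (hξ z)
  induction n with
  | zero =>
    simp only [Nat.cast_zero, sub_zero]
    exact diag_mono hK Set.univ hb hξ Set.ordConnected_univ x (Set.subset_univ _)
  | succ n ih =>
    obtain ⟨T1, hT1, hm1⟩ := ih
    obtain ⟨T2, hT2, hm2⟩ := diag_mono hK (Set.Iic (x - (n + 1 : ℕ))) hb hξ Set.ordConnected_Iic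
      (x - (n + 1 : ℕ)) le_rfl
    set y : ℤ := x - (n + 1 : ℕ) with hy
    have hy1 : y + 1 = x - n := by rw [hy]; push_cast; ring
    set T := max T1 T2 with hT
    have heq : ∀ t, sg (H ξ K hK Set.univ) t (dl y) x = conv
        (fun r => sg (H ξ K hK (Set.Iic y)) r (dl y) y / 2)
        (fun r => sg (H ξ K hK Set.univ) r (dl (y + 1)) x) t := by
      intro t
      apply passage hK y x (by rw [hy]; push_cast; omega) (dl y)
      intro z hz
      rw [dl_apply, if_neg]
      rintro rfl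
      exact hz (Set.mem_Iic.2 le_rfl)
    refine ⟨2 * T, by positivity, ?_⟩
    have h := conv_mono (fun r => sg (H ξ K hK (Set.Iic y)) r (dl y) y / 2)
      (fun r => sg (H ξ K hK Set.univ) r (dl (y + 1)) x)
      (((continuous_eval y).comp (continuous_sg_apply _ _)).div_const _)
      ((continuous_eval x).comp (continuous_sg_apply _ _))
      (fun r hr => div_nonneg (sg_nonneg hK _ hξ0 r hr _ (dl_nonneg _) _) (by norm_num))
      (fun r hr => sg_nonneg hK _ hξ0 r hr _ (dl_nonneg _) _) T (by positivity)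
      (by
        intro s hs t ht hst
        have h1 := hm2 (Set.mem_Ici.2 ((le_max_right _ _).trans hs))
          (Set.mem_Ici.2 ((le_max_right _ _).trans ht)) hst
        simp only at h1 ⊢
        linarith)
      (by
        intro s hs t ht hst
        rw [hy1]
        exact hm1 (Set.mem_Ici.2 ((le_max_left _ _).trans hs))
          (Set.mem_Ici.2 ((le_max_left _ _).trans ht)) hst)
    intro s hs t ht hst
    simp only [heq]
    exact h hs ht hst

/-- eventual monotonicity for all point sources -/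
lemma near {b : ℝ} (hb : 0 < b) (hξ : ∀ z, b ≤ ξ z) (x y : ℤ) :
    ∃ T : ℝ, 0 ≤ T ∧
      MonotoneOn (fun t => sg (H ξ K hK Set.univ) t (dl y) x) (Set.Ici T) := by
  have hξ0 : ∀ z, 0 ≤ ξ z := fun z => hb.le.trans (hξ z)
  rcases le_total y x with h | h
  · obtain ⟨n, hn⟩ : ∃ n : ℕ, y = x - n := ⟨(x - y).toNat, by omega⟩
    rw [hn]
    exact near_left hK hb hξ x n
  · obtain ⟨n, hn⟩ : ∃ n : ℕ, x = y - n := ⟨(y - x).toNat, by omega⟩
    obtain ⟨T, hT, hm⟩ := near_left hK hb hξ y n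
    rw [← hn] at hm
    refine ⟨T, hT, ?_⟩
    intro s hs t ht hst
    simp only
    rw [sg_symm hK Set.univ hξ0 y x s (hT.trans hs), sg_symm hK Set.univ hξ0 y x t (hT.trans ht)]
    exact hm hs ht hst

/-- far sources: monotone from the beginning -/
lemma far {b : ℝ} (hb : 0 < b) (hξ : ∀ z, b ≤ ξ z) (x : ℤ) :
    ∃ a : ℤ, ∀ f : E, (∀ z, 0 ≤ f z) → (∀ z, z ∉ Set.Iic a → f z = 0) →
      MonotoneOn (fun t => sg (H ξ K hK Set.univ) t f x) (Set.Ici 0) := by
  have hξ0 : ∀ z, 0 ≤ ξ z := fun z => hb.le.trans (hξ z)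
  obtain ⟨a, ψ, haL, hL, ha, hpos, heq⟩ := exists_psi ξ b hb hξ (x - 1)
  refine ⟨a, fun f hf0 hfs => ?_⟩
  have he := crossing_mono hK hξ0 haL hL ha hpos heq
  have hF : MonotoneOn (fun t => sg (H ξ K hK (Set.Iic (x - 1))) t f (x - 1)) (Set.Ici 0) := by
    have h1 := conv_mono_all (fun r => sg (H ξ K hK (Set.Iic (x - 1))) r f a / 2)
      (fun r => sg (H ξ K hK (Set.Ioc a (x - 1))) r (dl (a + 1)) (x - 1))
      (((continuous_eval a).comp (continuous_sg_apply _ _)).div_const _)
      ((continuous_eval (x - 1)).comp (continuous_sg_apply _ _))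
      (fun r hr => div_nonneg (sg_nonneg hK _ hξ0 r hr _ hf0 _) (by norm_num))
      (fun r hr => sg_nonneg hK _ hξ0 r hr _ (dl_nonneg _) _) he
    intro s hs t ht hst
    simp only [block_passage hK a (x - 1) haL f hfs]
    exact h1 hs ht hst
  have h2 := conv_mono_all (fun r => sg (H ξ K hK Set.univ) r (dl x) x)
    (fun r => sg (H ξ K hK (Set.Iic (x - 1))) r f (x - 1) / 2)
    ((continuous_eval x).comp (continuous_sg_apply _ _))
    (((continuous_eval (x - 1)).comp (continuous_sg_apply _ _)).div_const _)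
    (fun r hr => sg_nonneg hK _ hξ0 r hr _ (dl_nonneg _) _)
    (fun r hr => div_nonneg (sg_nonneg hK _ hξ0 r hr _ hf0 _) (by norm_num))
    (by
      intro s hs t ht hst
      have := hF hs ht hst
      simp only at this ⊢
      linarith)
  have hfs' : ∀ z, z ∉ Set.Iic (x - 1) → f z = 0 := fun z hz =>
    hfs z fun h => hz (Set.mem_Iic.2 ((Set.mem_Iic.1 h).trans haL.le))
  have h3 : ∀ t, sg (H ξ K hK Set.univ) t f x = conv (fun r => sg (H ξ K hK Set.univ) r (dl x) x)
      (fun r => sg (H ξ K hK (Set.Iic (x - 1))) r f (x - 1) / 2) t := by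
    intro t
    rw [conv_comm]
    have := passage hK (x - 1) x (by omega) f hfs' t
    rw [sub_add_cancel] at this
    exact this
  intro s hs t ht hst
  simp only [h3]
  exact h2 hs ht hst

/-- eventual monotonicity for bounded initial data carried by a left half line -/
theorem mono_ev {b : ℝ} (hb : 0 < b) (hξ : ∀ z, b ≤ ξ z) (x : ℤ) (f : E) (hf : ∀ z, 0 ≤ f z)
    (hfs : ∀ z, 0 < z → f z = 0) :
    ∃ T : ℝ, 0 ≤ T ∧ MonotoneOn (fun t => sg (H ξ K hK Set.univ) t f x) (Set.Ici T) := by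
  classical
  obtain ⟨a, hfar⟩ := far hK hb hξ x
  have hsplit : f = pr (Set.Iic a) f + ∑ y ∈ Finset.Ioc a 0, f y • dl y := by
    ext z
    have h1 : (pr (Set.Iic a) f + ∑ y ∈ Finset.Ioc a 0, f y • dl y) z
        = io (Set.Iic a) z * f z + bump a 0 f z := rfl
    rw [h1, bump_apply]
    by_cases h : z ≤ a
    · rw [io_mem (Set.mem_Iic.2 h), if_neg (by rw [Set.mem_Ioc]; omega)]; ring
    · rw [io_notMem (by rw [Set.mem_Iic]; exact h)]
      by_cases h2 : z ≤ 0
      · rw [if_pos (by rw [Set.mem_Ioc]; omega)]; ring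
      · rw [if_neg (by rw [Set.mem_Ioc]; omega), hfs z (by omega)]; ring
  choose T hT hm using fun y => near hK hb hξ x y
  obtain ⟨B, hB⟩ : ∃ B : ℝ, 0 ≤ B ∧ ∀ y ∈ Finset.Ioc a 0, T y ≤ B := by
    obtain ⟨B, hB⟩ := ((Finset.Ioc a 0).finite_toSet.image T).bddAbove
    exact ⟨max B 0, le_max_right _ _, fun y hy =>
      (hB (Set.mem_image_of_mem _ hy)).trans (le_max_left _ _)⟩
  refine ⟨B, hB.1, ?_⟩
  have hval : ∀ t, sg (H ξ K hK Set.univ) t f x = sg (H ξ K hK Set.univ) t (pr (Set.Iic a) f) x +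
      ∑ y ∈ Finset.Ioc a 0, f y * sg (H ξ K hK Set.univ) t (dl y) x := by
    intro t
    conv_lhs => rw [hsplit]
    rw [map_add, map_sum]
    show sg (H ξ K hK Set.univ) t (pr (Set.Iic a) f) x + (∑ y ∈ Finset.Ioc a 0,
      sg (H ξ K hK Set.univ) t (f y • dl y)) x = _
    rw [BoundedContinuousFunction.sum_apply]
    congr 1
    apply Finset.sum_congr rfl
    intro y _
    rw [map_smul]
    rfl
  intro s hs t ht hst
  simp only [hval]
  apply add_le_add
  · apply hfar (pr (Set.Iic a) f)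
    · intro z
      exact mul_nonneg (io_nonneg _ _) (hf z)
    · intro z hz
      show io (Set.Iic a) z * f z = 0
      rw [io_notMem hz, zero_mul]
    · exact Set.mem_Ici.2 (hB.1.trans hs)
    · exact Set.mem_Ici.2 (hB.1.trans ht)
    · exact hst
  · apply Finset.sum_le_sum
    intro y hy
    apply mul_le_mul_of_nonneg_left _ (hf y)
    exact hm y (Set.mem_Ici.2 ((hB.2 y hy).trans hs)) (Set.mem_Ici.2 ((hB.2 y hy).trans ht)) hst

end Q293.Pam
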