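import Pool.Agent.Q293.Sgp

/-!
# The Anderson operator on the integers and its restrictions to sets
-/

set_option autoImplicit false
set_option linter.unusedSectionVars false

open Filter Topology

namespace Q293.Pam

open Q293.Sgp BoundedContinuousFunction

/-- bounded functions on the integers -/
abbrev E := ℤ →ᵇ ℝ

open Classical in
/-- indicator -/
noncomputable def io (D : Set ℤ) (z : ℤ) : ℝ := if z ∈ D then 1 else 0

lemma io_nonneg (D : Set ℤ) (z : ℤ) : 0 ≤ io D z := by unfold io; split_ifs <;> norm_num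

lemma io_le_one (D : Set ℤ) (z : ℤ) : io D z ≤ 1 := by unfold io; split_ifs <;> norm_num

lemma io_mem {D : Set ℤ} {z : ℤ} (h : z ∈ D) : io D z = 1 := if_pos h

lemma io_notMem {D : Set ℤ} {z : ℤ} (h : z ∉ D) : io D z = 0 := if_neg h

/-- edge weight between `z` and `z + 1` -/
noncomputable def ew (D : Set ℤ) (z : ℤ) : ℝ := io D z * io D (z + 1) / 2

lemma ew_nonneg (D : Set ℤ) (z : ℤ) : 0 ≤ ew D z := by
  unfold ew
  have := io_nonneg D z
  have := io_nonneg D (z + 1)
  positivity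

lemma ew_le (D : Set ℤ) (z : ℤ) : ew D z ≤ 1 / 2 := by
  unfold ew
  have h1 := io_nonneg D z
  have h2 := io_nonneg D (z + 1)
  have h3 := io_le_one D z
  have h4 := io_le_one D (z + 1)
  nlinarith [mul_le_mul h3 h4 h2 zero_le_one]

/-- diagonal -/
noncomputable def dg (ξ : ℤ → ℝ) (D : Set ℤ) (z : ℤ) : ℝ := io D z * (ξ z - 1)

/-- pointwise form of the operator -/
noncomputable def rawH (ξ : ℤ → ℝ) (D : Set ℤ) (f : ℤ → ℝ) (z : ℤ) : ℝ :=
  ew D (z - 1) * f (z - 1) + ew D z * f (z + 1) + dg ξ D z * f z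

lemma rawH_bound (ξ : ℤ → ℝ) (K : ℝ) (hK : ∀ z, |ξ z| ≤ K) (D : Set ℤ) (f : E) (z : ℤ) :
    ‖rawH ξ D f z‖ ≤ (K + 2) * ‖f‖ := by
  have h1 : |f (z - 1)| ≤ ‖f‖ := f.norm_coe_le_norm (z - 1)
  have h2 : |f (z + 1)| ≤ ‖f‖ := f.norm_coe_le_norm (z + 1)
  have h3 : |f z| ≤ ‖f‖ := f.norm_coe_le_norm z
  have h4 : |ξ z - 1| ≤ K + 1 := by
    have := hK z
    rw [abs_le] at this ⊢
    constructor <;> linarith
  have hn : 0 ≤ ‖f‖ := norm_nonneg f
  unfold rawH dg
  rw [Real.norm_eq_abs]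
  have a1 : |ew D (z - 1) * f (z - 1)| ≤ 1 / 2 * ‖f‖ := by
    rw [abs_mul, abs_of_nonneg (ew_nonneg _ _)]
    exact mul_le_mul (ew_le _ _) h1 (abs_nonneg _) (by norm_num)
  have a2 : |ew D z * f (z + 1)| ≤ 1 / 2 * ‖f‖ := by
    rw [abs_mul, abs_of_nonneg (ew_nonneg _ _)]
    exact mul_le_mul (ew_le _ _) h2 (abs_nonneg _) (by norm_num)
  have a3 : |io D z * (ξ z - 1) * f z| ≤ (K + 1) * ‖f‖ := by
    rw [abs_mul, abs_mul, abs_of_nonneg (io_nonneg _ _)]
    have h5 : io D z * |ξ z - 1| ≤ K + 1 := by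
      have := io_le_one D z
      have := io_nonneg D z
      nlinarith [abs_nonneg (ξ z - 1)]
    exact mul_le_mul h5 h3 (abs_nonneg _) ((abs_nonneg _).trans h4)
  calc |ew D (z - 1) * f (z - 1) + ew D z * f (z + 1) + io D z * (ξ z - 1) * f z|
      ≤ |ew D (z - 1) * f (z - 1)| + |ew D z * f (z + 1)| + |io D z * (ξ z - 1) * f z| :=
        abs_add_three _ _ _
    _ ≤ 1 / 2 * ‖f‖ + 1 / 2 * ‖f‖ + (K + 1) * ‖f‖ := by linarith
    _ = (K + 2) * ‖f‖ := by ring

/-- the operator restricted to `D` -/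
noncomputable def H (ξ : ℤ → ℝ) (K : ℝ) (hK : ∀ z, |ξ z| ≤ K) (D : Set ℤ) : E →L[ℝ] E :=
  LinearMap.mkContinuous
    { toFun := fun f => BoundedContinuousFunction.ofNormedAddCommGroupDiscrete (rawH ξ D f)
        ((K + 2) * ‖f‖) (rawH_bound ξ K hK D f)
      map_add' := by
        intro f g
        ext z
        show rawH ξ D (f + g) z = rawH ξ D f z + rawH ξ D g z
        unfold rawH
        simp only [Pi.add_apply]
        ring
      map_smul' := by
        intro c f
        ext z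
        show rawH ξ D (c • f) z = c * rawH ξ D f z
        unfold rawH
        simp only [Pi.smul_apply, smul_eq_mul]
        ring } (K + 2) (by
    intro f
    have hK0 : 0 ≤ K := (abs_nonneg _).trans (hK 0)
    exact (BoundedContinuousFunction.norm_le (by positivity)).2 (rawH_bound ξ K hK D f))

variable {ξ : ℤ → ℝ} {K : ℝ} (hK : ∀ z, |ξ z| ≤ K) (D : Set ℤ)

lemma H_apply (f : E) (z : ℤ) : H ξ K hK D f z =
    ew D (z - 1) * f (z - 1) + ew D z * f (z + 1) + dg ξ D z * f z := rfl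

/-- point mass -/
noncomputable def dl (x : ℤ) : E :=
  BoundedContinuousFunction.ofNormedAddCommGroupDiscrete (fun z => if z = x then 1 else 0) 1 (by
    intro z; split_ifs <;> simp)

lemma dl_apply (x z : ℤ) : dl x z = if z = x then 1 else 0 := rfl

lemma dl_self (x : ℤ) : dl x x = 1 := by rw [dl_apply, if_pos rfl]

lemma dl_nonneg (x z : ℤ) : 0 ≤ dl x z := by rw [dl_apply]; split_ifs <;> norm_num

/-- evaluation is continuous -/
lemma continuous_eval (z : ℤ) : Continuous fun f : E => f z :=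
  (BoundedContinuousFunction.evalCLM ℝ z).continuous

lemma shifted_nonneg (hξ : ∀ z, 0 ≤ ξ z) (f : E) (hf : ∀ z, 0 ≤ f z) (z : ℤ) :
    0 ≤ H ξ K hK D f z + f z := by
  rw [H_apply]
  have h1 := mul_nonneg (ew_nonneg D (z - 1)) (hf (z - 1))
  have h2 := mul_nonneg (ew_nonneg D z) (hf (z + 1))
  have h3 : 0 ≤ dg ξ D z * f z + f z := by
    unfold dg
    by_cases hz : z ∈ D
    · rw [io_mem hz]
      have := mul_nonneg (hξ z) (hf z)
      linarith
    · rw [io_notMem hz]
      have := hf z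
      linarith
  linarith

lemma isClosed_nonneg : IsClosed {f : E | ∀ z, 0 ≤ f z} := by
  simp only [Set.ofPred_forall]
  exact isClosed_iInter fun z => isClosed_le continuous_const (continuous_eval z)

/-- positivity of the semigroup -/
lemma sg_nonneg (hξ : ∀ z, 0 ≤ ξ z) (t : ℝ) (ht : 0 ≤ t) (f : E) (hf : ∀ z, 0 ≤ f z) (z : ℤ) :
    0 ≤ sg (H ξ K hK D) t f z := by
  have := cone (H ξ K hK D) 1 {f : E | ∀ z, 0 ≤ f z} isClosed_nonneg (by intro z; simp)
    (by intro f hf g hg z; exact add_nonneg (hf z) (hg z))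
    (by intro c hc f hf z; exact mul_nonneg hc (hf z))
    (by
      intro f hf z
      rw [one_smul]
      exact shifted_nonneg hK D hξ f hf z) t ht f hf
  exact this z

/-- closed subspaces -/
lemma sg_subspace (A : E →L[ℝ] E) (C : Set E) (hC : IsClosed C) (h0 : (0 : E) ∈ C)
    (hadd : ∀ f ∈ C, ∀ g ∈ C, f + g ∈ C) (hsmul : ∀ c : ℝ, ∀ f ∈ C, c • f ∈ C)
    (hA : ∀ f ∈ C, A f ∈ C) (t : ℝ) (f : E) (hf : f ∈ C) : sg A t f ∈ C := by
  have hpow : ∀ n : ℕ, (A ^ n) f ∈ C := by
    intro n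
    induction n with
    | zero => simpa using hf
    | succ n ih => rw [pow_succ']; exact hA _ ih
  apply hC.mem_of_tendsto (hasSum_sg A t f)
  apply Filter.Eventually.of_forall
  intro s
  induction s using Finset.cons_induction with
  | empty => simpa using h0
  | cons a s ha ih =>
    rw [Finset.sum_cons]
    exact hadd _ (hsmul _ _ (hpow a)) _ ih

/-- the support stays in `D` -/
lemma sg_supp (t : ℝ) (f : E) (hf : ∀ z, z ∉ D → f z = 0) (z : ℤ) (hz : z ∉ D) :
    sg (H ξ K hK D) t f z = 0 := by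
  have := sg_subspace (H ξ K hK D) {f : E | ∀ z, z ∉ D → f z = 0}
    (by
      simp only [Set.ofPred_forall]
      exact isClosed_iInter fun z => isClosed_iInter fun _ =>
        isClosed_eq (continuous_eval z) continuous_const)
    (by intro z _; simp)
    (by intro f hf g hg z hz; simp [hf z hz, hg z hz])
    (by intro c f hf z hz; simp [hf z hz])
    (by
      intro f hf z hz
      rw [H_apply]
      have h1 : ew D z = 0 := by unfold ew; rw [io_notMem hz]; ring
      have h2 : ew D (z - 1) = 0 := by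
        unfold ew; rw [sub_add_cancel, io_notMem hz]; ring
      rw [h1, h2, hf z hz]
      ring) t f hf
  exact this z hz

/-- order preservation -/
lemma sg_mono (hξ : ∀ z, 0 ≤ ξ z) (t : ℝ) (ht : 0 ≤ t) (f g : E) (hfg : ∀ z, f z ≤ g z) (z : ℤ) :
    sg (H ξ K hK D) t f z ≤ sg (H ξ K hK D) t g z := by
  have := sg_nonneg hK D hξ t ht (g - f) (fun z => sub_nonneg.2 (hfg z)) z
  rw [map_sub] at this
  have h2 : (sg (H ξ K hK D) t g - sg (H ξ K hK D) t f) z
    = sg (H ξ K hK D) t g z - sg (H ξ K hK D) t f z := rfl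
  rw [h2] at this
  linarith

end Q293.Pam
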