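import Pool.Agent.Q293.PamDecomp

/-!
# Barriers: monotone crossing of long blocks and growth of the kernel
-/

set_option autoImplicit false
set_option linter.unusedSectionVars false

open Filter Topology MeasureTheory

namespace Q293.Pam

open Q293.Sgp BoundedContinuousFunction

/-- solution of the stationary equation to the left of `L + 1` -/
noncomputable def ph (ζ : ℤ → ℝ) (L : ℤ) : ℕ → ℝ
  | 0 => 0
  | 1 => 1
  | j + 2 => 2 * (1 - ζ (L - j)) * ph ζ L (j + 1) - ph ζ L j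

lemma ph_rec (ζ : ℤ → ℝ) (L : ℤ) (j : ℕ) :
    ph ζ L (j + 2) = 2 * (1 - ζ (L - j)) * ph ζ L (j + 1) - ph ζ L j := by
  rw [ph]

lemma exists_zero (ζ : ℤ → ℝ) (b : ℝ) (hb : 0 < b) (hζ : ∀ z, b ≤ ζ z) (L : ℤ) :
    ∃ j, ph ζ L (j + 1) ≤ 0 := by
  by_contra hcon
  push Not at hcon
  set s : ℕ → ℝ := fun j => ph ζ L (j + 1) - ph ζ L j with hs
  have hstep : ∀ j, s (j + 1) ≤ s j - 2 * b * ph ζ L (j + 1) := by
    intro j
    simp only [hs]
    rw [show j + 1 + 1 = j + 2 by ring, ph_rec]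
    have h1 := hcon j
    have h2 := hζ (L - j)
    nlinarith
  have hanti : Antitone s := antitone_nat_of_succ_le fun j => by
    have := hstep j
    have := hcon j
    nlinarith
  have hA : ∀ j, 0 ≤ s j := by
    intro j
    by_contra hneg
    push Not at hneg
    have h1 : ∀ m : ℕ, ph ζ L (j + m) ≤ ph ζ L j + m * s j := by
      intro m
      induction m with
      | zero => simp
      | succ m ih =>
        have h2 : s (j + m) ≤ s j := hanti (by omega)
        have h3 : ph ζ L (j + (m + 1)) = ph ζ L (j + m) + s (j + m) := by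
          simp only [hs]; rw [← add_assoc]; ring
        rw [h3]; push_cast; linarith
    obtain ⟨m, hm⟩ := exists_nat_gt (ph ζ L j / (-s j))
    rw [div_lt_iff₀ (by linarith)] at hm
    have h4 := h1 (m + 1)
    have h5 := hcon (j + m)
    rw [show j + (m + 1) = j + m + 1 by ring] at h4
    push_cast at h4
    nlinarith
  have hB : ∀ j, 1 ≤ ph ζ L (j + 1) := by
    intro j
    induction j with
    | zero => simp [ph]
    | succ j ih =>
      have := hA (j + 1)
      simp only [hs] at this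
      linarith
  have hC : ∀ j : ℕ, s j ≤ 1 - 2 * b * j := by
    intro j
    induction j with
    | zero => simp [hs, ph]
    | succ j ih =>
      have h1 := hstep j
      have h2 := hB j
      push_cast
      nlinarith
  obtain ⟨j, hj⟩ := exists_nat_gt (1 / (2 * b))
  rw [div_lt_iff₀ (by linarith)] at hj
  have h1 := hC j
  have h2 := hA j
  linarith

/-- a positive solution of the stationary equation on a block, nonpositive at its ends -/
lemma exists_psi (ζ : ℤ → ℝ) (b : ℝ) (hb : 0 < b) (hζ : ∀ z, b ≤ ζ z) (L : ℤ) :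
    ∃ (a : ℤ) (ψ : ℤ → ℝ), a < L ∧ ψ (L + 1) = 0 ∧ ψ a ≤ 0 ∧ (∀ z ∈ Set.Ioc a L, 0 < ψ z) ∧
      ∀ z ∈ Set.Ioc a L, ψ (z - 1) + ψ (z + 1) = 2 * (1 - ζ z) * ψ z := by
  classical
  have hex := exists_zero ζ b hb hζ L
  set n := Nat.find hex with hn
  have hn1 : ph ζ L (n + 1) ≤ 0 := Nat.find_spec hex
  have hn0 : n ≠ 0 := by
    intro h
    rw [h] at hn1
    simp [ph] at hn1
    linarith
  refine ⟨L - n, fun z => ph ζ L (L + 1 - z).toNat, by omega, ?_, ?_, ?_, ?_⟩
  · simp [ph]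
  · have : (L + 1 - (L - n)).toNat = n + 1 := by omega
    simp only [this]
    exact hn1
  · intro z hz
    rw [Set.mem_Ioc] at hz
    obtain ⟨j, hj⟩ : ∃ j : ℕ, (L + 1 - z).toNat = j + 1 := ⟨(L - z).toNat, by omega⟩
    simp only [hj]
    have := Nat.find_min hex (m := j) (by omega)
    exact not_le.1 this
  · intro z hz
    rw [Set.mem_Ioc] at hz
    obtain ⟨j, hj⟩ : ∃ j : ℕ, z = L - j := ⟨(L - z).toNat, by omega⟩
    have e1 : (L + 1 - (z - 1)).toNat = j + 2 := by omega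
    have e2 : (L + 1 - (z + 1)).toNat = j := by omega
    have e3 : (L + 1 - z).toNat = j + 1 := by omega
    simp only [e1, e2, e3]
    rw [ph_rec, ← hj]
    ring

variable {ξ : ℤ → ℝ} {K : ℝ} (hK : ∀ z, |ξ z| ≤ K)

/-- functions on the block whose ratio to `ψ` decreases -/
def Cn (a L : ℤ) (ψ : ℤ → ℝ) : Set E :=
  {f | (∀ z, 0 ≤ f z) ∧ (∀ z, z ∉ Set.Ioc a L → f z = 0) ∧
    ∀ z ∈ Set.Ioo a L, f (z + 1) * ψ z ≤ f z * ψ (z + 1)}

lemma Cn_all {a L : ℤ} {ψ : ℤ → ℝ} (hL : ψ (L + 1) = 0) (ha : ψ a ≤ 0) {f : E}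
    (hf : f ∈ Cn a L ψ) (z : ℤ) (hz : z ∈ Set.Icc a L) : f (z + 1) * ψ z ≤ f z * ψ (z + 1) := by
  obtain ⟨h1, h2, h3⟩ := hf
  rw [Set.mem_Icc] at hz
  rcases lt_trichotomy z a with h | h | h
  · omega
  · subst h
    rw [h2 z (by simp), zero_mul]
    exact mul_nonpos_of_nonneg_of_nonpos (h1 _) ha
  · rcases lt_or_eq_of_le hz.2 with h' | h'
    · exact h3 z ⟨h, h'⟩
    · subst h'
      rw [hL, h2 (z + 1) (by simp)]
      simp

lemma isClosed_Cn (a L : ℤ) (ψ : ℤ → ℝ) : IsClosed (Cn a L ψ) := by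
  unfold Cn
  simp only [Set.ofPred_and, Set.ofPred_forall]
  refine IsClosed.inter ?_ (IsClosed.inter ?_ ?_)
  · exact isClosed_iInter fun z => isClosed_le continuous_const (continuous_eval z)
  · exact isClosed_iInter fun z => isClosed_iInter fun _ =>
      isClosed_eq (continuous_eval z) continuous_const
  · exact isClosed_iInter fun z => isClosed_iInter fun _ =>
      isClosed_le ((continuous_eval (z + 1)).mul_const _) ((continuous_eval z).mul_const _)

lemma H_block_apply (a L : ℤ) (f : E) (hf : ∀ z, z ∉ Set.Ioc a L → f z = 0) (z : ℤ)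
    (hz : z ∈ Set.Ioc a L) : H ξ K hK (Set.Ioc a L) f z =
      f (z - 1) / 2 + f (z + 1) / 2 + (ξ z - 1) * f z := by
  rw [H_apply]
  unfold ew dg
  rw [sub_add_cancel, io_mem hz]
  have e1 : io (Set.Ioc a L) (z - 1) * f (z - 1) = f (z - 1) := by
    by_cases h : z - 1 ∈ Set.Ioc a L
    · rw [io_mem h, one_mul]
    · rw [hf _ h, mul_zero]
  have e2 : io (Set.Ioc a L) (z + 1) * f (z + 1) = f (z + 1) := by
    by_cases h : z + 1 ∈ Set.Ioc a L
    · rw [io_mem h, one_mul]
    · rw [hf _ h, mul_zero]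
  linear_combination (1 / 2 : ℝ) * e1 + (1 / 2 : ℝ) * e2

lemma H_block_out (a L : ℤ) (f : E) (z : ℤ) (hz : z ∉ Set.Ioc a L) :
    H ξ K hK (Set.Ioc a L) f z = 0 := by
  rw [H_apply]
  unfold ew dg
  rw [sub_add_cancel, io_notMem hz]
  ring

lemma Cn_invariant (hξ : ∀ z, 0 ≤ ξ z) {a L : ℤ} {ψ : ℤ → ℝ} (hL : ψ (L + 1) = 0)
    (ha : ψ a ≤ 0) (hpos : ∀ z ∈ Set.Ioc a L, 0 < ψ z)
    (heq : ∀ z ∈ Set.Ioc a L, ψ (z - 1) + ψ (z + 1) = 2 * (1 - ξ z) * ψ z) (M : ℝ) (hM : 1 ≤ M)
    (hM1 : ∀ z ∈ Set.Ioc a L, ψ (z + 1) ≤ M * ψ z ∧ ψ (z - 1) ≤ M * ψ z) (f : E)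
    (hf : f ∈ Cn a L ψ) : H ξ K hK (Set.Ioc a L) f + M • f ∈ Cn a L ψ := by
  have hall := Cn_all hL ha hf
  obtain ⟨h1, h2, _⟩ := hf
  have happ : ∀ z, (H ξ K hK (Set.Ioc a L) f + M • f) z = H ξ K hK (Set.Ioc a L) f z + M * f z :=
    fun z => rfl
  refine ⟨?_, ?_, ?_⟩
  · intro z
    rw [happ]
    have h3 := shifted_nonneg hK (Set.Ioc a L) hξ f h1 z
    have h4 := h1 z
    nlinarith
  · intro z hz
    rw [happ, H_block_out hK a L f z hz, h2 z hz]
    ring
  · intro z hz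
    rw [Set.mem_Ioo] at hz
    have m0 : z ∈ Set.Ioc a L := by rw [Set.mem_Ioc]; omega
    have m1 : z + 1 ∈ Set.Ioc a L := by rw [Set.mem_Ioc]; omega
    rw [happ, happ, H_block_apply hK a L f h2 z m0, H_block_apply hK a L f h2 (z + 1) m1]
    have c1 := hall (z - 1) (by rw [Set.mem_Icc]; omega)
    have c2 := hall z (by rw [Set.mem_Icc]; omega)
    have c3 := hall (z + 1) (by rw [Set.mem_Icc]; omega)
    have q0 := hpos z m0
    have q1 := hpos (z + 1) m1
    have e0 := heq z m0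
    have e1 := heq (z + 1) m1
    have b0 := (hM1 z m0).1
    have b1 := (hM1 (z + 1) m1).2
    rw [sub_add_cancel] at c1
    rw [add_sub_cancel_right] at e1 b1
    rw [add_sub_cancel_right]
    set A := f (z - 1) with hA
    set B := f z with hB
    set C := f (z + 1) with hC
    set D := f (z + 1 + 1) with hD
    set p := ψ (z - 1) with hp
    set q := ψ z with hq
    set r := ψ (z + 1) with hr
    set s := ψ (z + 1 + 1) with hs
    -- lower bound for the left point
    have i1 : M * (B * r + q * C) / 2 ≤ (A / 2 + C / 2 + (ξ z - 1) * B + M * B) * r := by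
      have k1 : q * ((A / 2 + C / 2 + (ξ z - 1) * B + M * B) * r - M * (B * r + q * C) / 2)
          = r / 2 * (A * q - B * p) + (B * r - C * q) * (M * q - r) / 2 := by
        linear_combination ((r * B) / 2) * e0
      have k2 : 0 ≤ q * ((A / 2 + C / 2 + (ξ z - 1) * B + M * B) * r - M * (B * r + q * C) / 2) := by
        rw [k1]
        have k3 : 0 ≤ r / 2 * (A * q - B * p) := mul_nonneg (by linarith) (by linarith)
        have k4 : 0 ≤ (B * r - C * q) * (M * q - r) := mul_nonneg (by linarith) (by linarith)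
        linarith
      have k5 := nonneg_of_mul_nonneg_right k2 q0
      linarith
    have i2 : (B / 2 + D / 2 + (ξ (z + 1) - 1) * C + M * C) * q ≤ M * (B * r + q * C) / 2 := by
      have k1 : r * (M * (B * r + q * C) / 2 - (B / 2 + D / 2 + (ξ (z + 1) - 1) * C + M * C) * q)
          = q / 2 * (C * s - D * r) + (B * r - C * q) * (M * r - q) / 2 := by
        linear_combination (-(q * C) / 2) * e1
      have k2 : 0 ≤ r * (M * (B * r + q * C) / 2 -
          (B / 2 + D / 2 + (ξ (z + 1) - 1) * C + M * C) * q) := by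
        rw [k1]
        have k3 : 0 ≤ q / 2 * (C * s - D * r) := mul_nonneg (by linarith) (by linarith)
        have k4 : 0 ≤ (B * r - C * q) * (M * r - q) := mul_nonneg (by linarith) (by linarith)
        linarith
      have k5 := nonneg_of_mul_nonneg_right k2 q1
      linarith
    linarith

/-- the crossing kernel of a long block increases -/
lemma crossing_mono (hξ : ∀ z, 0 ≤ ξ z) {a L : ℤ} (haL : a < L) {ψ : ℤ → ℝ}
    (hL : ψ (L + 1) = 0) (ha : ψ a ≤ 0) (hpos : ∀ z ∈ Set.Ioc a L, 0 < ψ z)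
    (heq : ∀ z ∈ Set.Ioc a L, ψ (z - 1) + ψ (z + 1) = 2 * (1 - ξ z) * ψ z) :
    MonotoneOn (fun t => sg (H ξ K hK (Set.Ioc a L)) t (dl (a + 1)) L) (Set.Ici 0) := by
  obtain ⟨M, hM, hM1⟩ : ∃ M : ℝ, 1 ≤ M ∧ ∀ z ∈ Set.Ioc a L, ψ (z + 1) ≤ M * ψ z ∧
      ψ (z - 1) ≤ M * ψ z := by
    have hfin : (Set.Ioc a L).Finite := Set.finite_Ioc a L
    obtain ⟨M1, hM1⟩ := (hfin.image fun z => ψ (z + 1) / ψ z).bddAbove
    obtain ⟨M2, hM2⟩ := (hfin.image fun z => ψ (z - 1) / ψ z).bddAbove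
    refine ⟨max 1 (max M1 M2), le_max_left _ _, fun z hz => ?_⟩
    have q0 := hpos z hz
    constructor
    · have h1 : ψ (z + 1) / ψ z ≤ M1 := hM1 (Set.mem_image_of_mem _ hz)
      have h2 : ψ (z + 1) / ψ z ≤ max 1 (max M1 M2) :=
        h1.trans ((le_max_left _ _).trans (le_max_right _ _))
      rwa [div_le_iff₀ q0] at h2
    · have h1 : ψ (z - 1) / ψ z ≤ M2 := hM2 (Set.mem_image_of_mem _ hz)
      have h2 : ψ (z - 1) / ψ z ≤ max 1 (max M1 M2) :=
        h1.trans ((le_max_right _ _).trans (le_max_right _ _))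
      rwa [div_le_iff₀ q0] at h2
  have hmem : ∀ t, 0 ≤ t → sg (H ξ K hK (Set.Ioc a L)) t (dl (a + 1)) ∈ Cn a L ψ := by
    intro t ht
    apply cone (H ξ K hK (Set.Ioc a L)) M (Cn a L ψ) (isClosed_Cn a L ψ) _ _ _ _ t ht
    · refine ⟨dl_nonneg _, ?_, ?_⟩
      · intro z hz
        rw [dl_apply, if_neg]
        rintro rfl
        apply hz
        rw [Set.mem_Ioc]; omega
      · intro z hz
        rw [Set.mem_Ioo] at hz
        rw [dl_apply, if_neg (by omega), zero_mul]
        exact mul_nonneg (dl_nonneg _ _) (hpos (z + 1) (by rw [Set.mem_Ioc]; omega)).le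
    · exact ⟨by intro z; simp, by intro z _; simp, by intro z _; simp⟩
    · rintro f ⟨f1, f2, f3⟩ g ⟨g1, g2, g3⟩
      refine ⟨fun z => add_nonneg (f1 z) (g1 z), fun z hz => ?_, fun z hz => ?_⟩
      · show f z + g z = 0
        rw [f2 z hz, g2 z hz, add_zero]
      · show (f (z + 1) + g (z + 1)) * ψ z ≤ (f z + g z) * ψ (z + 1)
        linarith [f3 z hz, g3 z hz]
    · rintro c hc f ⟨f1, f2, f3⟩
      refine ⟨fun z => mul_nonneg hc (f1 z), fun z hz => ?_, fun z hz => ?_⟩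
      · show c * f z = 0
        rw [f2 z hz, mul_zero]
      · show (c * f (z + 1)) * ψ z ≤ (c * f z) * ψ (z + 1)
        rw [mul_assoc, mul_assoc]
        exact mul_le_mul_of_nonneg_left (f3 z hz) hc
    · intro f hf
      exact Cn_invariant hK hξ hL ha hpos heq M hM hM1 f hf
  have hder : ∀ t, HasDerivAt (fun t => sg (H ξ K hK (Set.Ioc a L)) t (dl (a + 1)) L)
      (H ξ K hK (Set.Ioc a L) (sg (H ξ K hK (Set.Ioc a L)) t (dl (a + 1))) L) t := by
    intro t
    exact (BoundedContinuousFunction.evalCLM ℝ L).hasFDerivAt.comp_hasDerivAt t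
      (hasDerivAt_sg_apply (H ξ K hK (Set.Ioc a L)) t (dl (a + 1)))
  apply monotoneOn_of_deriv_nonneg (convex_Ici 0)
  · exact fun t _ => (hder t).continuousAt.continuousWithinAt
  · exact fun t _ => (hder t).differentiableAt.differentiableWithinAt
  · intro t ht
    rw [interior_Ici] at ht
    rw [(hder t).deriv]
    have hf := hmem t (le_of_lt ht)
    set f := sg (H ξ K hK (Set.Ioc a L)) t (dl (a + 1)) with hfdef
    have mL : L ∈ Set.Ioc a L := by rw [Set.mem_Ioc]; omega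
    rw [H_block_apply hK a L f hf.2.1 L mL, hf.2.1 (L + 1) (by rw [Set.mem_Ioc]; omega)]
    have c1 := Cn_all hL ha hf (L - 1) (by rw [Set.mem_Icc]; omega)
    rw [sub_add_cancel] at c1
    have q0 := hpos L mL
    have e0 := heq L mL
    rw [hL] at e0
    have k1 : ψ L * (f (L - 1) / 2 + 0 / 2 + (ξ L - 1) * f L)
        = (f (L - 1) * ψ L - f L * ψ (L - 1)) / 2 := by
      linear_combination ((f L) / 2) * e0
    have k2 : 0 ≤ ψ L * (f (L - 1) / 2 + 0 / 2 + (ξ L - 1) * f L) := by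
      rw [k1]; linarith
    exact nonneg_of_mul_nonneg_right k2 q0

end Q293.Pam
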