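import Pool.Agent.Q293.PamOp

/-!
# Symmetry of the kernel and convexity on the diagonal
-/

set_option autoImplicit false
set_option linter.unusedSectionVars false

open Filter Topology

namespace Q293.Pam

open Q293.Sgp BoundedContinuousFunction

variable {ξ : ℤ → ℝ} {K : ℝ} (hK : ∀ z, |ξ z| ≤ K) (D : Set ℤ)

/-- the shifted operator -/
noncomputable def S (ξ : ℤ → ℝ) (K : ℝ) (hK : ∀ z, |ξ z| ≤ K) (D : Set ℤ) : E →L[ℝ] E :=
  H ξ K hK D + (1 : ℝ) • 1

lemma S_apply (f : E) (z : ℤ) : S ξ K hK D f z = H ξ K hK D f z + f z := by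
  unfold S
  rw [one_smul]
  rfl

lemma S_apply' (f : E) (z : ℤ) : S ξ K hK D f z =
    ew D (z - 1) * f (z - 1) + ew D z * f (z + 1) + (dg ξ D z + 1) * f z := by
  rw [S_apply, H_apply]; ring

lemma S_nonneg (hξ : ∀ z, 0 ≤ ξ z) (f : E) (hf : ∀ z, 0 ≤ f z) (z : ℤ) :
    0 ≤ S ξ K hK D f z := by
  rw [S_apply]; exact shifted_nonneg hK D hξ f hf z

lemma Spow_nonneg (hξ : ∀ z, 0 ≤ ξ z) (n : ℕ) : ∀ (f : E), (∀ z, 0 ≤ f z) → ∀ z,
    0 ≤ ((S ξ K hK D) ^ n) f z := by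
  induction n with
  | zero => intro f hf z; simpa using hf z
  | succ n ih =>
    intro f hf z
    rw [pow_succ]
    exact ih _ (S_nonneg hK D hξ f hf) z

lemma dg_nonneg (hξ : ∀ z, 0 ≤ ξ z) (z : ℤ) : 0 ≤ dg ξ D z + 1 := by
  unfold dg
  by_cases hz : z ∈ D
  · rw [io_mem hz]; linarith [hξ z]
  · rw [io_notMem hz]; norm_num

lemma pair_S (hξ : ∀ z, 0 ≤ ξ z) (f g : E) (hf : ∀ z, 0 ≤ f z) (hg : ∀ z, 0 ≤ g z) :
    ∑' z, ENNReal.ofReal (S ξ K hK D f z) * ENNReal.ofReal (g z)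
      = ∑' z, ENNReal.ofReal (f z) * ENNReal.ofReal (S ξ K hK D g z) := by
  have e1 : ∀ z, ENNReal.ofReal (S ξ K hK D f z) * ENNReal.ofReal (g z)
      = ENNReal.ofReal (ew D (z - 1) * f (z - 1) * g z) + ENNReal.ofReal (ew D z * f (z + 1) * g z)
        + ENNReal.ofReal ((dg ξ D z + 1) * f z * g z) := by
    intro z
    have h1 := mul_nonneg (mul_nonneg (ew_nonneg D (z - 1)) (hf (z - 1))) (hg z)
    have h2 := mul_nonneg (mul_nonneg (ew_nonneg D z) (hf (z + 1))) (hg z)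
    have h3 := mul_nonneg (mul_nonneg (dg_nonneg D hξ z) (hf z)) (hg z)
    rw [← ENNReal.ofReal_mul (S_nonneg hK D hξ f hf z), ← ENNReal.ofReal_add h1 h2,
      ← ENNReal.ofReal_add (add_nonneg h1 h2) h3, S_apply']
    congr 1; ring
  have e2 : ∀ z, ENNReal.ofReal (f z) * ENNReal.ofReal (S ξ K hK D g z)
      = ENNReal.ofReal (ew D (z - 1) * f z * g (z - 1)) + ENNReal.ofReal (ew D z * f z * g (z + 1))
        + ENNReal.ofReal ((dg ξ D z + 1) * f z * g z) := by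
    intro z
    have h1 := mul_nonneg (mul_nonneg (ew_nonneg D (z - 1)) (hf z)) (hg (z - 1))
    have h2 := mul_nonneg (mul_nonneg (ew_nonneg D z) (hf z)) (hg (z + 1))
    have h3 := mul_nonneg (mul_nonneg (dg_nonneg D hξ z) (hf z)) (hg z)
    rw [← ENNReal.ofReal_mul (hf z), ← ENNReal.ofReal_add h1 h2,
      ← ENNReal.ofReal_add (add_nonneg h1 h2) h3, S_apply']
    congr 1; ring
  simp only [e1, e2]
  rw [ENNReal.tsum_add, ENNReal.tsum_add, ENNReal.tsum_add, ENNReal.tsum_add]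
  have e3 : ∑' z : ℤ, ENNReal.ofReal (ew D (z - 1) * f (z - 1) * g z)
      = ∑' z : ℤ, ENNReal.ofReal (ew D z * f z * g (z + 1)) := by
    rw [← (Equiv.addRight (1 : ℤ)).tsum_eq]
    apply tsum_congr
    intro z
    simp only [Equiv.coe_addRight, add_sub_cancel_right]
  have e4 : ∑' z : ℤ, ENNReal.ofReal (ew D (z - 1) * f z * g (z - 1))
      = ∑' z : ℤ, ENNReal.ofReal (ew D z * f (z + 1) * g z) := by
    rw [← (Equiv.addRight (1 : ℤ)).tsum_eq]
    apply tsum_congr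
    intro z
    simp only [Equiv.coe_addRight, add_sub_cancel_right]
  rw [e3, e4]
  congr 1
  rw [add_comm]

lemma pair_pow (hξ : ∀ z, 0 ≤ ξ z) (x : ℤ) (n : ℕ) : ∀ (g : E), (∀ z, 0 ≤ g z) →
    ∑' z, ENNReal.ofReal (((S ξ K hK D) ^ n) (dl x) z) * ENNReal.ofReal (g z)
      = ENNReal.ofReal (((S ξ K hK D) ^ n) g x) := by
  induction n with
  | zero =>
    intro g hg
    rw [tsum_eq_single x]
    · simp [dl_self]
    · intro z hz
      simp [dl_apply, hz]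
  | succ n ih =>
    intro g hg
    have h1 : ∀ f : E, ((S ξ K hK D) ^ (n + 1)) f = S ξ K hK D (((S ξ K hK D) ^ n) f) := by
      intro f; rw [pow_succ']; rfl
    have h2 : ∀ f : E, ((S ξ K hK D) ^ (n + 1)) f = ((S ξ K hK D) ^ n) (S ξ K hK D f) := by
      intro f; rw [pow_succ]; rfl
    rw [h1 (dl x), h2 g, pair_S hK D hξ _ _ (Spow_nonneg hK D hξ n _ (dl_nonneg x)) hg]
    exact ih _ (S_nonneg hK D hξ g hg)

lemma sg_S_hasSum (t : ℝ) (f : E) (z : ℤ) :
    HasSum (fun n : ℕ => ((n.factorial : ℝ)⁻¹ * t ^ n) * ((S ξ K hK D) ^ n) f z)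
      (sg (S ξ K hK D) t f z) := by
  have h := (hasSum_sg (S ξ K hK D) t f).mapL (BoundedContinuousFunction.evalCLM ℝ z)
  exact h

lemma sg_S_ofReal (hξ : ∀ z, 0 ≤ ξ z) (t : ℝ) (ht : 0 ≤ t) (f : E) (hf : ∀ z, 0 ≤ f z) (z : ℤ) :
    ENNReal.ofReal (sg (S ξ K hK D) t f z)
      = ∑' n : ℕ, ENNReal.ofReal ((n.factorial : ℝ)⁻¹ * t ^ n) *
        ENNReal.ofReal (((S ξ K hK D) ^ n) f z) := by
  have h := sg_S_hasSum hK D t f z
  rw [← h.tsum_eq, ENNReal.ofReal_tsum_of_nonneg _ h.summable]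
  · apply tsum_congr
    intro n
    rw [ENNReal.ofReal_mul (by positivity)]
  · intro n
    exact mul_nonneg (by positivity) (Spow_nonneg hK D hξ n f hf z)

lemma sg_eq_S (t : ℝ) (f : E) (z : ℤ) :
    sg (H ξ K hK D) t f z = Real.exp (-t) * sg (S ξ K hK D) t f z := by
  rw [sg_shift (H ξ K hK D) 1 t f]
  rw [mul_one]
  rfl

lemma sgS_nonneg (hξ : ∀ z, 0 ≤ ξ z) (t : ℝ) (ht : 0 ≤ t) (f : E) (hf : ∀ z, 0 ≤ f z) (z : ℤ) :
    0 ≤ sg (S ξ K hK D) t f z := by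
  have h := sg_nonneg hK D hξ t ht f hf z
  rw [sg_eq_S] at h
  exact nonneg_of_mul_nonneg_right h (Real.exp_pos _)

/-- reproducing property of the kernel -/
lemma pair_sg (hξ : ∀ z, 0 ≤ ξ z) (x : ℤ) (t : ℝ) (ht : 0 ≤ t) (g : E) (hg : ∀ z, 0 ≤ g z) :
    ∑' z, ENNReal.ofReal (sg (H ξ K hK D) t (dl x) z) * ENNReal.ofReal (g z)
      = ENNReal.ofReal (sg (H ξ K hK D) t g x) := by
  simp only [sg_eq_S]
  simp only [ENNReal.ofReal_mul (Real.exp_pos (-t)).le, mul_assoc]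
  rw [ENNReal.tsum_mul_left]
  congr 1
  rw [sg_S_ofReal hK D hξ t ht g hg]
  simp only [sg_S_ofReal hK D hξ t ht (dl x) (dl_nonneg x), ← ENNReal.tsum_mul_right]
  rw [ENNReal.tsum_comm]
  apply tsum_congr
  intro n
  simp only [mul_assoc]
  rw [ENNReal.tsum_mul_left, pair_pow hK D hξ x n g hg]

lemma sg_symm (hξ : ∀ z, 0 ≤ ξ z) (x y : ℤ) (t : ℝ) (ht : 0 ≤ t) :
    sg (H ξ K hK D) t (dl x) y = sg (H ξ K hK D) t (dl y) x := by
  have h := pair_sg hK D hξ x t ht (dl y) (dl_nonneg y)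
  rw [tsum_eq_single y] at h
  · rw [dl_self, ENNReal.ofReal_one, mul_one] at h
    exact (ENNReal.ofReal_eq_ofReal_iff (sg_nonneg hK D hξ t ht _ (dl_nonneg x) y)
      (sg_nonneg hK D hξ t ht _ (dl_nonneg y) x)).1 h
  · intro z hz
    simp [dl_apply, hz]

/-- midpoint convexity on the diagonal -/
lemma diag_convex (hξ : ∀ z, 0 ≤ ξ z) (x : ℤ) (s t : ℝ) (hs : 0 ≤ s) (ht : 0 ≤ t) :
    2 * sg (H ξ K hK D) (s + t) (dl x) x ≤ sg (H ξ K hK D) (s + s) (dl x) x +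
      sg (H ξ K hK D) (t + t) (dl x) x := by
  have hp : ∀ a b : ℝ, 0 ≤ a → 0 ≤ b → ENNReal.ofReal (sg (H ξ K hK D) (a + b) (dl x) x)
      = ∑' z, ENNReal.ofReal (sg (H ξ K hK D) a (dl x) z * sg (H ξ K hK D) b (dl x) z) := by
    intro a b ha hb
    rw [sg_add_apply, ← pair_sg hK D hξ x a ha (sg (H ξ K hK D) b (dl x))
      (sg_nonneg hK D hξ b hb _ (dl_nonneg x))]
    apply tsum_congr
    intro z
    rw [ENNReal.ofReal_mul (sg_nonneg hK D hξ a ha _ (dl_nonneg x) z)]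
  have hnn : ∀ a : ℝ, 0 ≤ a → ∀ z, 0 ≤ sg (H ξ K hK D) a (dl x) z := fun a ha z =>
    sg_nonneg hK D hξ a ha _ (dl_nonneg x) z
  have h1 : ENNReal.ofReal (2 * sg (H ξ K hK D) (s + t) (dl x) x) ≤
      ENNReal.ofReal (sg (H ξ K hK D) (s + s) (dl x) x + sg (H ξ K hK D) (t + t) (dl x) x) := by
    rw [ENNReal.ofReal_mul (by norm_num), ENNReal.ofReal_add (hnn _ (by linarith) x)
      (hnn _ (by linarith) x), hp s t hs ht, hp s s hs hs, hp t t ht ht, ← ENNReal.tsum_mul_left,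
      ← ENNReal.tsum_add]
    refine ENNReal.tsum_le_tsum fun z => ?_
    rw [← ENNReal.ofReal_mul (by norm_num), ← ENNReal.ofReal_add
      (mul_nonneg (hnn s hs z) (hnn s hs z)) (mul_nonneg (hnn t ht z) (hnn t ht z))]
    apply ENNReal.ofReal_le_ofReal
    nlinarith [sq_nonneg (sg (H ξ K hK D) s (dl x) z - sg (H ξ K hK D) t (dl x) z)]
  exact (ENNReal.ofReal_le_ofReal_iff (add_nonneg (hnn _ (by linarith) x)
    (hnn _ (by linarith) x))).1 h1

/-- a continuous midpoint convex function increases after its first growth -/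
lemma mono_of_midpoint (f : ℝ → ℝ) (hf : Continuous f)
    (hm : ∀ s t : ℝ, 0 ≤ s → 0 ≤ t → 2 * f (s + t) ≤ f (s + s) + f (t + t)) (t0 t1 : ℝ)
    (h0 : 0 ≤ t0) (h01 : t0 < t1) (hlt : f t0 < f t1) : MonotoneOn f (Set.Ici t1) := by
  intro a ha b hb hab
  by_contra hcon
  push Not at hcon
  have ha1 : t1 ≤ a := ha
  have hab' : a < b := lt_of_le_of_ne hab (by rintro rfl; exact lt_irrefl _ hcon)
  -- maximum on [t0, b]
  obtain ⟨m, hm1, hm2⟩ := (isCompact_Icc (a := t0) (b := b)).exists_isMaxOn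
    ⟨t0, by constructor <;> linarith⟩ hf.continuousOn
  set c := f m with hc
  have hset : IsCompact (Set.Icc t0 b ∩ {t | f t = c}) :=
    isCompact_Icc.inter_right (isClosed_eq hf continuous_const)
  obtain ⟨u, hu1, hu2⟩ := hset.exists_isLeast ⟨m, hm1, rfl⟩
  have hmax : ∀ t ∈ Set.Icc t0 b, f t ≤ c := fun t ht => hm2 ht
  have huc : f u = c := hu1.2
  have hu0 : t0 < u := by
    rcases lt_or_eq_of_le hu1.1.1 with h | h
    · exact h
    · exfalso
      have := hmax t1 ⟨h01.le, by linarith⟩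
      rw [← huc, ← h] at this
      linarith
  have hub : u < b := by
    rcases lt_or_eq_of_le hu1.1.2 with h | h
    · exact h
    · exfalso
      have := hmax a ⟨by linarith, hab⟩
      rw [← huc, h] at this
      linarith
  set δ := min (u - t0) (b - u) with hδ
  have hδ0 : 0 < δ := lt_min (by linarith) (by linarith)
  have hδ1 : δ ≤ u - t0 := min_le_left _ _
  have hδ2 : δ ≤ b - u := min_le_right _ _
  have h3 := hm ((u - δ) / 2) ((u + δ) / 2) (by linarith) (by linarith)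
  have e1 : (u - δ) / 2 + (u + δ) / 2 = u := by ring
  have e2 : (u - δ) / 2 + (u - δ) / 2 = u - δ := by ring
  have e3 : (u + δ) / 2 + (u + δ) / 2 = u + δ := by ring
  rw [e1, e2, e3, huc] at h3
  have h4 := hmax (u + δ) ⟨by linarith, by linarith⟩
  have h5 := hmax (u - δ) ⟨by linarith, by linarith⟩
  have h6 : f (u - δ) = c := by linarith
  have h7 := hu2 ⟨⟨by linarith, by linarith⟩, h6⟩
  linarith

end Q293.Pam
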