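import Mathlib

/-!
# Walks driven by two permutations: finite Green function bounds the energy from below
-/

set_option autoImplicit false

open Function Filter Topology

namespace Q293.PermEnergy

variable {V : Type*}

/-- inner product -/
noncomputable def ip (f h : V → ℝ) : ℝ := ∑ᶠ v, f v * h v

lemma fs_mul {f : V → ℝ} (hf : f.support.Finite) (h : V → ℝ) :
    (fun v => f v * h v).support.Finite :=
  hf.subset (fun v hv => by
    rw [mem_support] at hv ⊢
    exact left_ne_zero_of_mul hv)

lemma fs_sub {f g : V → ℝ} (hf : f.support.Finite) (hg : g.support.Finite) :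
    (fun v => f v - g v).support.Finite :=
  (hf.union hg).subset (fun v hv => by
    by_contra hn
    rw [Set.mem_union, not_or, notMem_support, notMem_support] at hn
    rw [mem_support, hn.1, hn.2] at hv
    simp at hv)

lemma fs_add {f g : V → ℝ} (hf : f.support.Finite) (hg : g.support.Finite) :
    (fun v => f v + g v).support.Finite :=
  (hf.union hg).subset (fun v hv => by
    by_contra hn
    rw [Set.mem_union, not_or, notMem_support, notMem_support] at hn
    rw [mem_support, hn.1, hn.2] at hv
    simp at hv)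

lemma fs_comp {f : V → ℝ} (hf : f.support.Finite) (e : Equiv.Perm V) :
    (fun v => f (e v)).support.Finite := by
  have : (fun v => f (e v)).support = e ⁻¹' f.support := by ext v; simp
  rw [this]
  exact hf.preimage e.injective.injOn

lemma ip_add {f g h : V → ℝ} (hf : f.support.Finite) (hg : g.support.Finite) :
    ip (fun v => f v + g v) h = ip f h + ip g h := by
  unfold ip
  rw [← finsum_add_distrib (fs_mul hf h) (fs_mul hg h)]
  exact finsum_congr fun v => by ring

lemma ip_sub {f g h : V → ℝ} (hf : f.support.Finite) (hg : g.support.Finite) :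
    ip (fun v => f v - g v) h = ip f h - ip g h := by
  unfold ip
  rw [← finsum_sub_distrib (fs_mul hf h) (fs_mul hg h)]
  exact finsum_congr fun v => by ring

lemma ip_comm (f h : V → ℝ) : ip f h = ip h f := finsum_congr fun v => by ring

lemma ip_smul (c : ℝ) (f h : V → ℝ) : ip (fun v => c * f v) h = c * ip f h := by
  unfold ip
  rw [mul_finsum]
  exact finsum_congr fun v => by ring

lemma ip_comp (e : Equiv.Perm V) (f h : V → ℝ) :
    ip (fun v => f (e v)) (fun v => h (e v)) = ip f h :=
  finsum_comp_equiv e (f := fun v => f v * h v)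

lemma ip_comp_left (e : Equiv.Perm V) (f h : V → ℝ) :
    ip (fun v => f (e v)) h = ip f (fun v => h (e.symm v)) := by
  have := ip_comp e f (fun v => h (e.symm v))
  simpa using this

lemma ip_sub_right {f g h : V → ℝ} (hf : f.support.Finite) :
    ip f (fun v => g v - h v) = ip f g - ip f h := by
  unfold ip
  rw [← finsum_sub_distrib (fs_mul hf g) (fs_mul hf h)]
  exact finsum_congr fun v => by ring

/-- Cauchy–Schwarz -/
lemma ip_sq_le {f h : V → ℝ} (hf : f.support.Finite) (hh : h.support.Finite) :
    (ip f h) ^ 2 ≤ ip f f * ip h h := by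
  classical
  set s := hf.toFinset ∪ hh.toFinset with hs
  have h1 : ∀ g k : V → ℝ, (g.support ⊆ s) → ip g k = ∑ v ∈ s, g v * k v := by
    intro g k hg
    unfold ip
    apply finsum_eq_sum_of_support_subset
    intro v hv
    apply hg
    rw [mem_support] at hv ⊢
    exact left_ne_zero_of_mul hv
  have hfs : f.support ⊆ s := by
    intro v hv; rw [hs]; simp only [Finset.coe_union, Set.Finite.coe_toFinset]; exact Or.inl hv
  have hhs : h.support ⊆ s := by
    intro v hv; rw [hs]; simp only [Finset.coe_union, Set.Finite.coe_toFinset]; exact Or.inr hv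
  rw [h1 f h hfs, h1 f f hfs, h1 h h hhs]
  have := Finset.sum_mul_sq_le_sq_mul_sq s f h
  simpa only [sq] using this

lemma ip_self_nonneg (f : V → ℝ) : 0 ≤ ip f f := finsum_nonneg fun _ => mul_self_nonneg _

lemma ip_nonneg {f h : V → ℝ} (hf : ∀ v, 0 ≤ f v) (hh : ∀ v, 0 ≤ h v) : 0 ≤ ip f h :=
  finsum_nonneg fun v => mul_nonneg (hf v) (hh v)

lemma sq_le_ip {f : V → ℝ} (hf : f.support.Finite) (v : V) : f v ^ 2 ≤ ip f f := by
  classical
  unfold ip
  by_cases hv : f v = 0
  · have h0 := ip_self_nonneg f
    unfold ip at h0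
    rw [hv, zero_pow two_ne_zero]
    exact h0
  · rw [finsum_eq_sum_of_support_subset (fun v => f v * f v) (s := hf.toFinset) (by
      intro w hw
      rw [mem_support] at hw
      simp only [Set.Finite.coe_toFinset, mem_support]
      exact left_ne_zero_of_mul hw)]
    have h1 : v ∈ hf.toFinset := by simpa using hv
    have := Finset.single_le_sum (f := fun v => f v * f v) (fun w _ => mul_self_nonneg _) h1
    rw [sq]; exact this

variable (R U : Equiv.Perm V)

/-- the transition operator -/
noncomputable def P (f : V → ℝ) (v : V) : ℝ := (f (R v) + f (R.symm v) + f (U v) + f (U.symm v)) / 4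

/-- gradient -/
def gr (e : Equiv.Perm V) (f : V → ℝ) (v : V) : ℝ := f v - f (e v)

/-- energy -/
noncomputable def En (f : V → ℝ) : ℝ := ip (gr R f) (gr R f) + ip (gr U f) (gr U f)

variable {R U}

lemma fs_gr {f : V → ℝ} (hf : f.support.Finite) (e : Equiv.Perm V) : (gr e f).support.Finite :=
  fs_sub hf (fs_comp hf e)

lemma fs_P {f : V → ℝ} (hf : f.support.Finite) : (P R U f).support.Finite := by
  have h1 := fs_add (fs_add (fs_add (fs_comp hf R) (fs_comp hf R.symm)) (fs_comp hf U))
    (fs_comp hf U.symm)
  exact h1.subset (fun v hv => by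
    rw [mem_support] at hv ⊢
    intro h0
    apply hv
    unfold P
    rw [h0, zero_div])

lemma ip_gr {f : V → ℝ} (hf : f.support.Finite) (h : V → ℝ) (e : Equiv.Perm V) :
    ip (fun v => f v - f (e v)) h + ip (fun v => f v - f (e.symm v)) h = ip (gr e f) (gr e h) := by
  have h1 : ip (fun v => f v - f (e.symm v)) h = - ip (gr e f) (fun v => h (e v)) := by
    have h2 : ip (fun v => gr e f (e.symm v)) h = ip (gr e f) (fun v => h (e v)) := by
      have := ip_comp_left e.symm (gr e f) h
      simpa using this
    rw [← h2]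
    unfold gr ip
    rw [← finsum_neg_distrib]
    exact finsum_congr fun v => by simp only [Equiv.apply_symm_apply]; ring
  rw [h1]
  have h3 := ip_sub_right (f := gr e f) (g := h) (h := fun v => h (e v)) (fs_gr hf e)
  change _ = ip (gr e f) (fun v => h v - h (e v))
  rw [h3]
  rfl

lemma ip_one_sub_P {f : V → ℝ} (hf : f.support.Finite) (h : V → ℝ) :
    4 * ip (fun v => f v - P R U f v) h = ip (gr R f) (gr R h) + ip (gr U f) (gr U h) := by
  rw [← ip_gr hf h R, ← ip_gr hf h U, ← ip_smul]
  have hR := fs_sub hf (fs_comp hf R)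
  have hR' := fs_sub hf (fs_comp hf R.symm)
  have hU := fs_sub hf (fs_comp hf U)
  have hU' := fs_sub hf (fs_comp hf U.symm)
  rw [← ip_add hR hR', ← ip_add hU hU', ← ip_add (fs_add hR hR') (fs_add hU hU')]
  unfold ip
  exact finsum_congr fun v => by unfold P; ring

lemma ip_P {f : V → ℝ} (hf : f.support.Finite) {h : V → ℝ} (hh : h.support.Finite) :
    ip (P R U f) h = ip f (P R U h) := by
  have h1 := ip_one_sub_P (R := R) (U := U) hf h
  have h2 := ip_one_sub_P (R := R) (U := U) hh f
  rw [ip_comm (gr R f) (gr R h), ip_comm (gr U f) (gr U h), ← h2] at h1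
  rw [ip_sub hf (fs_P hf), ip_sub hh (fs_P hh), ip_comm h f, ip_comm (P R U h) f] at h1
  linarith

lemma fs_iter {f : V → ℝ} (hf : f.support.Finite) (n : ℕ) : ((P R U)^[n] f).support.Finite := by
  induction n with
  | zero => exact hf
  | succ n ih => rw [Function.iterate_succ_apply']; exact fs_P ih

lemma ip_iter {f : V → ℝ} (hf : f.support.Finite) (n : ℕ) :
    ∀ {h : V → ℝ}, h.support.Finite → ip ((P R U)^[n] f) h = ip f ((P R U)^[n] h) := by
  induction n with
  | zero => intro h _; rfl
  | succ n ih =>
    intro h hh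
    rw [Function.iterate_succ_apply', ip_P (fs_iter hf n) hh, ih (fs_P hh),
      Function.iterate_succ_apply]

lemma iter_nonneg {f : V → ℝ} (hf : ∀ v, 0 ≤ f v) (n : ℕ) : ∀ v, 0 ≤ (P R U)^[n] f v := by
  induction n with
  | zero => exact hf
  | succ n ih =>
    intro v
    rw [Function.iterate_succ_apply', P]
    have h1 := ih (R v)
    have h2 := ih (R.symm v)
    have h3 := ih (U v)
    have h4 := ih (U.symm v)
    positivity

open Classical in
/-- indicator of a point -/
noncomputable def dlt (o : V) (v : V) : ℝ := if v = o then 1 else 0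

lemma fs_dlt (o : V) : (dlt o).support.Finite :=
  (Set.finite_singleton o).subset (fun v hv => by
    rw [mem_support] at hv
    by_contra h
    apply hv
    unfold dlt
    exact if_neg fun e => h e)

lemma dlt_nonneg (o v : V) : 0 ≤ dlt o v := by unfold dlt; split_ifs <;> norm_num

lemma ip_dlt (o : V) (h : V → ℝ) : ip (dlt o) h = h o := by
  unfold ip
  rw [finsum_eq_single _ o]
  · unfold dlt; rw [if_pos rfl, one_mul]
  · intro v hv; unfold dlt; rw [if_neg hv, zero_mul]

/-- If the Green function at `o` is finite then finitely supported functions equal to one at `o`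
have energy bounded from below. -/
theorem energy_ge (o : V) (G : ℝ) (hG : ∀ N, ∑ n ∈ Finset.range N, (P R U)^[n] (dlt o) o ≤ G)
    {h : V → ℝ} (hh : h.support.Finite) (h1 : h o = 1) : 4 ≤ G * En R U h := by
  set q : ℕ → V → ℝ := fun n => (P R U)^[n] (dlt o) with hq
  have hqfs : ∀ n, (q n).support.Finite := fun n => fs_iter (fs_dlt o) n
  have hq0 : ∀ n v, 0 ≤ q n v := fun n v => iter_nonneg (dlt_nonneg o) n v
  have hsum : Summable fun n => q n o := summable_of_sum_range_le (fun n => hq0 n o) hG
  have hlim : Tendsto (fun n => q n o) atTop (𝓝 0) := hsum.tendsto_atTop_zero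
  have hlim2 : Tendsto (fun n => q (n + n) o) atTop (𝓝 0) := by
    refine hlim.comp ?_
    exact tendsto_atTop_mono (fun n => Nat.le_add_left n n) tendsto_id
  -- pointwise decay
  have hptw : ∀ v, Tendsto (fun n => q n v) atTop (𝓝 0) := by
    intro v
    have h2 : ∀ n, (q n v) ^ 2 ≤ q (n + n) o := by
      intro n
      refine (sq_le_ip (hqfs n) v).trans ?_
      rw [hq]
      simp only
      rw [ip_iter (fs_dlt o) n (fs_iter (fs_dlt o) n), ip_dlt, ← Function.iterate_add_apply]
    have h3 : Tendsto (fun n => (q n v) ^ 2) atTop (𝓝 0) :=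
      squeeze_zero (fun n => sq_nonneg _) h2 hlim2
    have h4 : Tendsto (fun n => Real.sqrt ((q n v) ^ 2)) atTop (𝓝 (Real.sqrt 0)) :=
      (Real.continuous_sqrt.tendsto 0).comp h3
    rw [Real.sqrt_zero] at h4
    refine h4.congr fun n => ?_
    rw [Real.sqrt_sq (hq0 n v)]
  have hipq : Tendsto (fun n => ip (q n) h) atTop (𝓝 0) := by
    have h2 : ∀ n, ip (q n) h = ∑ v ∈ hh.toFinset, q n v * h v := by
      intro n
      unfold ip
      apply finsum_eq_sum_of_support_subset
      intro v hv
      rw [mem_support] at hv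
      simp only [Set.Finite.coe_toFinset, mem_support]
      exact right_ne_zero_of_mul hv
    simp only [h2]
    have h3 : Tendsto (fun n => ∑ v ∈ hh.toFinset, q n v * h v) atTop
        (𝓝 (∑ v ∈ hh.toFinset, 0 * h v)) :=
      tendsto_finsetSum _ fun v _ => (hptw v).mul_const _
    simpa using h3
  -- the main inequality
  have hE0 : 0 ≤ En R U h := add_nonneg (ip_self_nonneg _) (ip_self_nonneg _)
  have key : ∀ N, (4 * (1 - ip (q N) h)) ^ 2 ≤ 4 * G * En R U h := by
    intro N
    set g : V → ℝ := fun v => ∑ n ∈ Finset.range N, q n v with hg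
    have hgfs : g.support.Finite := by
      have : g.support ⊆ ⋃ n ∈ Finset.range N, (q n).support := by
        intro v hv
        rw [mem_support, hg] at hv
        obtain ⟨n, hn, hne⟩ := Finset.exists_ne_zero_of_sum_ne_zero hv
        simp only [Set.mem_iUnion]
        exact ⟨n, hn, hne⟩
      exact (Set.Finite.biUnion (Finset.finite_toSet _) fun n _ => hqfs n).subset this
    have hg0 : ∀ v, 0 ≤ g v := fun v => Finset.sum_nonneg fun n _ => hq0 n v
    have hPg : ∀ v, g v - P R U g v = dlt o v - q N v := by
      intro v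
      have h2 : P R U g v = ∑ n ∈ Finset.range N, q (n + 1) v := by
        rw [hg, hq]
        unfold P
        simp only [Function.iterate_succ_apply']
        rw [← Finset.sum_add_distrib, ← Finset.sum_add_distrib, ← Finset.sum_add_distrib,
          Finset.sum_div]
      rw [h2, hg]
      simp only
      have h3 := Finset.sum_range_sub' (fun n => q n v) N
      rw [Finset.sum_sub_distrib] at h3
      exact h3
    have e1 : 4 * (1 - ip (q N) h) = ip (gr R g) (gr R h) + ip (gr U g) (gr U h) := by
      rw [← ip_one_sub_P hgfs h]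
      have : (fun v => g v - P R U g v) = fun v => dlt o v - q N v := funext hPg
      rw [this, ip_sub (fs_dlt o) (hqfs N), ip_dlt, h1]
    have e2 : En R U g ≤ 4 * G := by
      unfold En
      rw [← ip_one_sub_P hgfs g]
      have : (fun v => g v - P R U g v) = fun v => dlt o v - q N v := funext hPg
      rw [this, ip_sub (fs_dlt o) (hqfs N), ip_dlt]
      have h2 := ip_nonneg (hq0 N) hg0
      have h3 := hG N
      have h4 : g o ≤ G := h3
      linarith
    rw [e1]
    have c1 := ip_sq_le (fs_gr hgfs R) (fs_gr hh R)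
    have c2 := ip_sq_le (fs_gr hgfs U) (fs_gr hh U)
    have n1 := ip_self_nonneg (gr R g)
    have n2 := ip_self_nonneg (gr U g)
    have n3 := ip_self_nonneg (gr R h)
    have n4 := ip_self_nonneg (gr U h)
    have c3 : (ip (gr R g) (gr R h) + ip (gr U g) (gr U h)) ^ 2 ≤ En R U g * En R U h := by
      unfold En
      set a := ip (gr R g) (gr R h)
      set b := ip (gr U g) (gr U h)
      set A := ip (gr R g) (gr R g)
      set B := ip (gr U g) (gr U g)
      set A' := ip (gr R h) (gr R h)
      set B' := ip (gr U h) (gr U h)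
      -- 2ab ≤ A B' + B A'
      have h5 : 2 * (a * b) ≤ A * B' + B * A' := by
        have h6 : (a * b) ^ 2 ≤ (A * B') * (B * A') := by
          calc (a * b) ^ 2 = a ^ 2 * b ^ 2 := by ring
            _ ≤ (A * A') * (B * B') := mul_le_mul c1 c2 (sq_nonneg _) (mul_nonneg n1 n3)
            _ = (A * B') * (B * A') := by ring
        have h7 : 0 ≤ A * B' := mul_nonneg n1 n4
        have h8 : 0 ≤ B * A' := mul_nonneg n2 n3
        have h9 : (2 * (a * b)) ^ 2 ≤ (A * B' + B * A') ^ 2 := by
          nlinarith [sq_nonneg (A * B' - B * A')]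
        exact le_of_sq_le_sq h9 (add_nonneg h7 h8)
      nlinarith
    calc (ip (gr R g) (gr R h) + ip (gr U g) (gr U h)) ^ 2 ≤ En R U g * En R U h := c3
      _ ≤ 4 * G * En R U h := mul_le_mul_of_nonneg_right e2 hE0
  have hfin : (4 * (1 - 0 : ℝ)) ^ 2 ≤ 4 * G * En R U h := by
    have h2 : Tendsto (fun N => (4 * (1 - ip (q N) h)) ^ 2) atTop (𝓝 ((4 * (1 - 0 : ℝ)) ^ 2)) :=
      ((hipq.const_sub 1).const_mul 4).pow 2
    exact le_of_tendsto' h2 key
  linarith

end Q293.PermEnergy
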