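import Pool.Agent.Q293.Polymer

/-!
# Simple random walk on the square lattice: transition probabilities
-/

set_option autoImplicit false

open Filter Topology

namespace Q293.PolyBase

/-- one-dimensional simple random walk -/
noncomputable def q : ℕ → ℤ → ℝ
  | 0, j => if j = 0 then 1 else 0
  | n + 1, j => (q n (j - 1) + q n (j + 1)) / 2

lemma q_zero (j : ℤ) : q 0 j = if j = 0 then 1 else 0 := rfl
lemma q_succ (n : ℕ) (j : ℤ) : q (n + 1) j = (q n (j - 1) + q n (j + 1)) / 2 := rfl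

lemma q_nonneg (n : ℕ) : ∀ j, 0 ≤ q n j := by
  induction n with
  | zero => intro j; rw [q_zero]; split_ifs <;> norm_num
  | succ n ih => intro j; rw [q_succ]; linarith [ih (j - 1), ih (j + 1)]

lemma q_low (n : ℕ) : ∀ j : ℤ, j < -(n : ℤ) → q n j = 0 := by
  induction n with
  | zero => intro j hj; rw [q_zero, if_neg]; rintro rfl; simp at hj
  | succ n ih =>
    intro j hj
    push_cast at hj
    rw [q_succ, ih (j - 1) (by omega), ih (j + 1) (by omega)]
    norm_num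

lemma q_odd (n : ℕ) : ∀ j : ℤ, (j + n) % 2 = 1 → q n j = 0 := by
  induction n with
  | zero => intro j hj; rw [q_zero, if_neg]; rintro rfl; simp at hj
  | succ n ih =>
    intro j hj
    push_cast at hj
    rw [q_succ, ih (j - 1) (by omega), ih (j + 1) (by omega)]
    norm_num

lemma q_binom (n : ℕ) : ∀ i : ℕ, q n (2 * i - n) = (n.choose i : ℝ) / 2 ^ n := by
  induction n with
  | zero =>
    intro i
    rw [q_zero]
    rcases Nat.eq_zero_or_pos i with rfl | hi
    · simp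
    · rw [if_neg (by push_cast; omega), Nat.choose_eq_zero_of_lt hi]
      simp
  | succ n ih =>
    intro i
    rw [q_succ]
    rcases i with _ | i
    · have h1 : q n (2 * ((0 : ℕ) : ℤ) - ((n + 1 : ℕ) : ℤ) - 1) = 0 := q_low n _ (by push_cast; omega)
      have h2 : (2 * ((0 : ℕ) : ℤ) - ((n + 1 : ℕ) : ℤ) + 1) = 2 * ((0 : ℕ) : ℤ) - (n : ℤ) := by
        push_cast; ring
      rw [h1, h2, ih 0]
      simp only [Nat.choose_zero_right, Nat.cast_one, pow_succ]
      field_simp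
      ring
    · have h1 : (2 * ((i + 1 : ℕ) : ℤ) - ((n + 1 : ℕ) : ℤ) - 1) = 2 * (i : ℤ) - (n : ℤ) := by
        push_cast; ring
      have h2 : (2 * ((i + 1 : ℕ) : ℤ) - ((n + 1 : ℕ) : ℤ) + 1) = 2 * ((i + 1 : ℕ) : ℤ) - (n : ℤ) := by
        push_cast; ring
      rw [h1, h2, ih i, ih (i + 1), Nat.choose_succ_succ]
      push_cast
      rw [pow_succ]
      field_simp

/-- central binomial weight -/
noncomputable def cb (n : ℕ) : ℝ := (n.centralBinom : ℝ) / 4 ^ n

lemma cb_succ (n : ℕ) : cb (n + 1) = cb n * ((2 * n + 1) / (2 * n + 2)) := by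
  unfold cb
  have h := Nat.succ_mul_centralBinom_succ n
  have h2 : ((n : ℝ) + 1) * ((n + 1).centralBinom : ℝ) = 2 * (2 * n + 1) * (n.centralBinom : ℝ) := by
    exact_mod_cast h
  have h3 : ((n + 1).centralBinom : ℝ) = 2 * (2 * n + 1) * (n.centralBinom : ℝ) / ((n : ℝ) + 1) := by
    rw [eq_div_iff (by positivity)]; linarith
  rw [h3, pow_succ]
  field_simp
  ring

lemma cb_pos (n : ℕ) : 0 < cb n := by
  unfold cb
  have := Nat.centralBinom_pos n
  positivity

lemma cb_upper (n : ℕ) : cb n ^ 2 * (2 * n + 1) ≤ 1 := by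
  induction n with
  | zero => simp [cb]
  | succ n ih =>
    rw [cb_succ]
    have h0 : (0 : ℝ) ≤ n := Nat.cast_nonneg n
    have h1 : (cb n * ((2 * n + 1) / (2 * n + 2))) ^ 2 * (2 * ((n + 1 : ℕ) : ℝ) + 1)
        = (cb n ^ 2 * (2 * n + 1)) * (((2 * n + 1) * (2 * n + 3)) / (2 * n + 2) ^ 2) := by
      push_cast
      field_simp
      ring
    rw [h1]
    have h2 : ((2 * (n : ℝ) + 1) * (2 * n + 3)) / (2 * n + 2) ^ 2 ≤ 1 := by
      rw [div_le_one (by positivity)]
      nlinarith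
    have h3 : 0 ≤ ((2 * (n : ℝ) + 1) * (2 * n + 3)) / (2 * n + 2) ^ 2 := by positivity
    calc (cb n ^ 2 * (2 * n + 1)) * (((2 * n + 1) * (2 * n + 3)) / (2 * n + 2) ^ 2)
        ≤ 1 * 1 := mul_le_mul ih h2 h3 zero_le_one
      _ = 1 := one_mul 1

lemma cb_lower (n : ℕ) : 1 ≤ cb (n + 1) ^ 2 * (4 * (n + 1)) := by
  induction n with
  | zero => simp [cb, Nat.centralBinom]; norm_num
  | succ n ih =>
    rw [cb_succ (n + 1)]
    have h0 : (0 : ℝ) ≤ n := Nat.cast_nonneg n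
    have h1 : (cb (n + 1) * ((2 * ((n + 1 : ℕ) : ℝ) + 1) / (2 * ((n + 1 : ℕ) : ℝ) + 2))) ^ 2
        * (4 * (((n + 1 : ℕ) : ℝ) + 1))
        = (cb (n + 1) ^ 2 * (4 * (n + 1))) * ((2 * n + 3) ^ 2 / ((2 * n + 4) * (2 * n + 2))) := by
      push_cast
      field_simp
      ring
    rw [h1]
    have h2 : 1 ≤ (2 * (n : ℝ) + 3) ^ 2 / ((2 * n + 4) * (2 * n + 2)) := by
      rw [one_le_div (by positivity)]
      nlinarith
    nlinarith

/-- the maximal transition probability -/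
noncomputable def s (n : ℕ) : ℝ := (n.choose (n / 2) : ℝ) / 2 ^ n

lemma s_even (n : ℕ) : s (2 * n) = cb n := by
  unfold s cb
  rw [Nat.mul_div_cancel_left n (by norm_num), Nat.centralBinom_eq_two_mul_choose, pow_mul]
  norm_num

lemma s_odd (n : ℕ) : s (2 * n + 1) = cb (n + 1) := by
  unfold s cb
  have h1 : (2 * n + 1) / 2 = n := by omega
  have h2 : (n + 1).centralBinom = 2 * (2 * n + 1).choose n := by
    rw [Nat.centralBinom_eq_two_mul_choose]
    have : 2 * (n + 1) = (2 * n + 1) + 1 := by ring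
    rw [this, Nat.choose_succ_succ, Nat.choose_symm_half]
    ring
  rw [h1, h2, pow_succ, pow_succ, pow_mul]
  push_cast
  field_simp
  norm_num
  ring

lemma s_sq (n : ℕ) : s n ^ 2 * (n + 1) ≤ 1 := by
  rcases Nat.even_or_odd' n with ⟨k, rfl | rfl⟩
  · rw [s_even]
    have := cb_upper k
    push_cast
    exact this
  · rw [s_odd]
    have := cb_upper (k + 1)
    push_cast at this ⊢
    have h2 := sq_nonneg (cb (k + 1))
    nlinarith

lemma q_le (n : ℕ) (j : ℤ) : q n j ≤ s n := by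
  by_cases h1 : (j + n) % 2 = 1
  · rw [q_odd n j h1]; unfold s; positivity
  by_cases h2 : j < -(n : ℤ)
  · rw [q_low n j h2]; unfold s; positivity
  have h3 : j = 2 * (((j + n) / 2).toNat : ℤ) - n := by omega
  rw [h3, q_binom]
  unfold s
  gcongr
  exact_mod_cast Nat.choose_le_middle _ n

lemma q_even_zero (n : ℕ) : q (2 * n) 0 = cb n := by
  have h := q_binom (2 * n) n
  have h1 : (2 * (n : ℤ) - ((2 * n : ℕ) : ℤ)) = 0 := by push_cast; ring
  rw [h1] at h
  rw [h]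
  unfold cb
  rw [Nat.centralBinom_eq_two_mul_choose, pow_mul]
  norm_num

/-- two-dimensional simple random walk -/
noncomputable def p (n : ℕ) (z w : ℤ × ℤ) : ℝ :=
  q n (z.1 + z.2 - (w.1 + w.2)) * q n (z.1 - z.2 - (w.1 - w.2))

/-- the four directions -/
def dir : Fin 4 → ℤ × ℤ := ![(1, 0), (-1, 0), (0, 1), (0, -1)]

lemma p_nonneg (n : ℕ) (z w : ℤ × ℤ) : 0 ≤ p n z w := mul_nonneg (q_nonneg _ _) (q_nonneg _ _)

lemma p_zero (z w : ℤ × ℤ) : p 0 z w = if z = w then 1 else 0 := by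
  unfold p
  rw [q_zero, q_zero]
  by_cases h : z = w
  · subst h; simp
  · rw [if_neg h]
    by_cases h1 : z.1 + z.2 - (w.1 + w.2) = 0
    · by_cases h2 : z.1 - z.2 - (w.1 - w.2) = 0
      · exfalso
        apply h
        ext <;> omega
      · rw [if_neg h2, mul_zero]
    · rw [if_neg h1, zero_mul]

lemma p_succ (n : ℕ) (z w : ℤ × ℤ) : p (n + 1) z w = ∑ e, (1 / 4) * p n (z + dir e) w := by
  simp only [Fin.sum_univ_four, dir, Matrix.cons_val_zero, Matrix.cons_val_one, Matrix.cons_val]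
  unfold p
  rw [q_succ, q_succ]
  simp only [Prod.fst_add, Prod.snd_add]
  have e1 : z.1 + 1 + (z.2 + 0) - (w.1 + w.2) = z.1 + z.2 - (w.1 + w.2) + 1 := by ring
  have e2 : z.1 + 1 - (z.2 + 0) - (w.1 - w.2) = z.1 - z.2 - (w.1 - w.2) + 1 := by ring
  have e3 : z.1 + -1 + (z.2 + 0) - (w.1 + w.2) = z.1 + z.2 - (w.1 + w.2) - 1 := by ring
  have e4 : z.1 + -1 - (z.2 + 0) - (w.1 - w.2) = z.1 - z.2 - (w.1 - w.2) - 1 := by ring
  have e5 : z.1 + 0 + (z.2 + 1) - (w.1 + w.2) = z.1 + z.2 - (w.1 + w.2) + 1 := by ring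
  have e6 : z.1 + 0 - (z.2 + 1) - (w.1 - w.2) = z.1 - z.2 - (w.1 - w.2) - 1 := by ring
  have e7 : z.1 + 0 + (z.2 + -1) - (w.1 + w.2) = z.1 + z.2 - (w.1 + w.2) - 1 := by ring
  have e8 : z.1 + 0 - (z.2 + -1) - (w.1 - w.2) = z.1 - z.2 - (w.1 - w.2) + 1 := by ring
  rw [e1, e2, e3, e4, e5, e6, e7, e8]
  ring

lemma p_le (n : ℕ) (z w : ℤ × ℤ) : p n z w ≤ 1 / (n + 1) := by
  have h1 : p n z w ≤ s n * s n :=
    mul_le_mul (q_le _ _) (q_le _ _) (q_nonneg _ _) (by unfold s; positivity)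
  have h2 := s_sq n
  rw [le_div_iff₀ (by positivity)]
  calc p n z w * (n + 1) ≤ (s n * s n) * (n + 1) := by gcongr
    _ = s n ^ 2 * (n + 1) := by ring
    _ ≤ 1 := h2

lemma p_diag (n : ℕ) (z : ℤ × ℤ) : p n z z = q n 0 ^ 2 := by
  unfold p
  rw [sub_self, sub_self, sq]

/-- recurrence of the simple random walk -/
lemma diag_sum : ∑' n : ℕ, ENNReal.ofReal (q (n + 1) 0 ^ 2) = ⊤ := by
  by_contra hne
  have h1 : ∑' k : ℕ, ENNReal.ofReal (q ((2 * k + 1) + 1) 0 ^ 2) ≠ ⊤ := by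
    refine ne_top_of_le_ne_top hne ?_
    exact ENNReal.tsum_comp_le_tsum_of_injective (f := fun k : ℕ => 2 * k + 1)
      (fun a b h => by simpa using h) (fun n : ℕ => ENNReal.ofReal (q (n + 1) 0 ^ 2))
  have h2 := ENNReal.summable_toReal h1
  have h3 : Summable fun k : ℕ => (1 : ℝ) / (4 * (k + 1)) := by
    refine Summable.of_nonneg_of_le (fun k => by positivity) (fun k => ?_) h2
    rw [ENNReal.toReal_ofReal (by positivity)]
    have h4 : (2 * k + 1) + 1 = 2 * (k + 1) := by ring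
    rw [h4, q_even_zero]
    have h5 := cb_lower k
    rw [div_le_iff₀ (by positivity)]
    linarith
  have h6 : Summable fun k : ℕ => (1 : ℝ) / ((k + 1 : ℕ) : ℝ) := by
    refine (h3.mul_left 4).congr fun k => ?_
    push_cast
    field_simp
  exact Real.not_summable_one_div_natCast ((summable_nat_add_iff 1).1 h6)

end Q293.PolyBase
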