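import Pool.Agent.Q293.PolyRet

/-!
# Blocks of tilts along the return times
-/

set_option autoImplicit false
set_option linter.unusedSectionVars false

open Filter Topology Finset

namespace Q293.PolyRet

variable {V : Type} [DecidableEq V]

/-- bipartite chain with slowly decaying return probabilities -/
structure RetHyp (P : V → PMF V) (ρ : V) (σ : V → ℕ) : Prop where
  par : ∀ x y, P x y ≠ 0 → (σ x + σ y) % 2 = 1
  root : σ ρ % 2 = 0
  fin : ∀ x, (P x).support.Finite
  mono : ∀ n, p P ρ (n + 2) ρ ≤ p P ρ n ρ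
  sq : ∑' n, (p P ρ n ρ) ^ 2 = ⊤

variable {P : V → PMF V} {ρ : V} {σ : V → ℕ} (h : RetHyp P ρ σ)

include h

lemma p_par (n : ℕ) : ∀ x, (n + σ x) % 2 = 1 → p P ρ n x = 0 := by
  induction n with
  | zero =>
    intro x hx
    rw [p, if_neg]
    rintro rfl
    have := h.root
    omega
  | succ n ih =>
    intro x hx
    rw [p, ENNReal.tsum_eq_zero]
    intro y
    by_cases hy : P x y = 0
    · rw [hy, zero_mul]
    · rw [ih y (by have := h.par x y hy; omega), mul_zero]

lemma u_odd (n : ℕ) (hn : n % 2 = 1) : p P ρ n ρ = 0 :=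
  p_par h n ρ (by have := h.root; omega)

lemma u_mono (i j : ℕ) (hij : i ≤ j) (hi : i % 2 = 0) : p P ρ j ρ ≤ p P ρ i ρ := by
  rcases Nat.mod_two_eq_zero_or_one j with hj | hj
  · obtain ⟨k, hk⟩ : ∃ k, j = i + 2 * k := ⟨(j - i) / 2, by omega⟩
    subst hk
    clear hij hj
    induction k with
    | zero => exact le_refl _
    | succ k ih => exact (h.mono (i + 2 * k)).trans ih
  · rw [u_odd h j hj]; exact bot_le

lemma p_lower (t : ℕ) : ∀ (x : V) (n m : ℕ), t ≤ n → n ≤ m → m % 2 = 0 → (n + σ x) % 2 = 0 →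
    F P ρ t x * p P ρ m ρ ≤ p P ρ n x := by
  induction t with
  | zero => intro x n m _ _ _ _; simp [F]
  | succ t ih =>
    intro x n m hn hm hm2 hx
    obtain ⟨n, rfl⟩ : ∃ k, n = k + 1 := ⟨n - 1, by omega⟩
    rw [F, ← ENNReal.tsum_mul_right]
    conv_rhs => rw [p]
    refine ENNReal.tsum_le_tsum fun y => ?_
    rw [mul_assoc]
    by_cases hy : P x y = 0
    · rw [hy]; simp
    have hpar := h.par x y hy
    refine mul_le_mul_right ?_ _
    by_cases hyr : y = ρ
    · rw [if_pos hyr, one_mul, hyr]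
      have h0 := h.root
      rw [hyr] at hpar
      exact u_mono h n m (by omega) (by omega)
    · rw [if_neg hyr]
      exact ih y n m (by omega) (by omega) hm2 (by omega)

/-- one block multiplies the survival functional by `15/16` -/
lemma block (b n t : ℕ) (hb : b % 2 = 0) (y a : ℕ → ENNReal) (hay : ∀ i, a i + y i = 1)
    (θ : ENNReal) (h1 : ∀ k, y k ≤ θ * p P ρ (b + k + 1) ρ)
    (h2 : ∀ k, t ≤ k → k < n → y k = θ * p P ρ (b + k + 1) ρ)
    (h3 : θ * ∑ l ∈ range n, p P ρ (l + 1) ρ ^ 2 ≤ 1 / 2)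
    (h4 : 1 / 4 ≤ θ * ∑ k ∈ Ico t n, p P ρ (b + k + 1) ρ ^ 2) (x : V) (hx : σ x % 2 = 0)
    (hF : 1 / 2 ≤ F P ρ t x) : HF P ρ n a (fun _ => 1) x ≤ 15 / 16 := by
  have ha1 : ∀ i, a i ≤ 1 := fun i => by rw [← hay i]; exact le_self_add
  have hrest : ∀ k < n, 1 / 2 ≤ HF P ρ (n - k - 1) (fun i => a (k + 1 + i)) (fun _ => 1) ρ := by
    intro k hk
    have hid := H_identity P ρ (n - k - 1) (fun i => a (k + 1 + i)) (fun i => y (k + 1 + i))
      (fun i => hay (k + 1 + i)) ρ
    have hs : ∑ l ∈ range (n - k - 1), y (k + 1 + l) * p P ρ (l + 1) ρ *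
        HF P ρ (n - k - 1 - l - 1) (fun i => a (k + 1 + (l + 1 + i))) (fun _ => 1) ρ ≤ 1 / 2 := by
      refine le_trans ?_ h3
      rw [Finset.mul_sum]
      calc ∑ l ∈ range (n - k - 1), y (k + 1 + l) * p P ρ (l + 1) ρ *
            HF P ρ (n - k - 1 - l - 1) (fun i => a (k + 1 + (l + 1 + i))) (fun _ => 1) ρ
          ≤ ∑ l ∈ range (n - k - 1), θ * p P ρ (l + 1) ρ ^ 2 := by
            apply Finset.sum_le_sum
            intro l _
            have e1 : HF P ρ (n - k - 1 - l - 1) (fun i => a (k + 1 + (l + 1 + i)))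
                (fun _ => 1) ρ ≤ 1 := HF_le_one P ρ _ _ (fun i => ha1 _) ρ
            have e2 : y (k + 1 + l) * p P ρ (l + 1) ρ ≤ θ * p P ρ (l + 1) ρ ^ 2 := by
              rcases Nat.mod_two_eq_zero_or_one (l + 1) with hl | hl
              · calc y (k + 1 + l) * p P ρ (l + 1) ρ
                    ≤ (θ * p P ρ (b + (k + 1 + l) + 1) ρ) * p P ρ (l + 1) ρ := by
                      gcongr; exact h1 _
                  _ ≤ (θ * p P ρ (l + 1) ρ) * p P ρ (l + 1) ρ := by
                      gcongr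
                      exact u_mono h (l + 1) (b + (k + 1 + l) + 1) (by omega) hl
                  _ = θ * p P ρ (l + 1) ρ ^ 2 := by ring
              · rw [u_odd h (l + 1) hl]; simp
            calc y (k + 1 + l) * p P ρ (l + 1) ρ *
                HF P ρ (n - k - 1 - l - 1) (fun i => a (k + 1 + (l + 1 + i))) (fun _ => 1) ρ
                ≤ (θ * p P ρ (l + 1) ρ ^ 2) * 1 := mul_le_mul' e2 e1
              _ = θ * p P ρ (l + 1) ρ ^ 2 := mul_one _
        _ ≤ ∑ l ∈ range n, θ * p P ρ (l + 1) ρ ^ 2 := by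
            apply Finset.sum_le_sum_of_subset
            apply Finset.range_subset_range.2
            omega
    have h5 : (1 : ENNReal) ≤ HF P ρ (n - k - 1) (fun i => a (k + 1 + i)) (fun _ => 1) ρ + 1 / 2 := by
      exact hid.symm.le.trans (add_le_add (le_refl _) hs)
    have h6 : (1 : ENNReal) / 2 + 1 / 2 = 1 := ENNReal.add_halves 1
    exact (ENNReal.add_le_add_iff_right (a := 1 / 2) (by simp)).1 (h6.le.trans h5)
  have hid := H_identity P ρ n a y hay x
  have hs : 1 / 16 ≤ ∑ k ∈ range n, y k * p P ρ (k + 1) x *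
      HF P ρ (n - k - 1) (fun i => a (k + 1 + i)) (fun _ => 1) ρ := by
    calc (1 : ENNReal) / 16 = (1 / 2) * ((1 / 2) * (1 / 4)) := by
          rw [ENNReal.div_eq_inv_mul, ENNReal.div_eq_inv_mul, ENNReal.div_eq_inv_mul]
          simp only [mul_one]
          rw [← ENNReal.mul_inv (by norm_num) (by norm_num),
            ← ENNReal.mul_inv (by norm_num) (by norm_num)]
          norm_num
      _ ≤ (1 / 2) * (F P ρ t x * (θ * ∑ k ∈ Ico t n, p P ρ (b + k + 1) ρ ^ 2)) := by gcongr
      _ = ∑ k ∈ Ico t n, (θ * p P ρ (b + k + 1) ρ) * (F P ρ t x * p P ρ (b + k + 1) ρ) *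
            (1 / 2) := by
          rw [Finset.mul_sum, Finset.mul_sum, Finset.mul_sum]
          apply Finset.sum_congr rfl
          intro k _
          ring
      _ ≤ ∑ k ∈ Ico t n, y k * p P ρ (k + 1) x *
            HF P ρ (n - k - 1) (fun i => a (k + 1 + i)) (fun _ => 1) ρ := by
          apply Finset.sum_le_sum
          intro k hk
          rw [Finset.mem_Ico] at hk
          rw [h2 k hk.1 hk.2]
          refine mul_le_mul' ?_ (hrest k hk.2)
          rcases Nat.mod_two_eq_zero_or_one (b + k + 1) with hl | hl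
          · refine mul_le_mul_right ?_ _
            exact p_lower h t x (k + 1) (b + k + 1) (by omega) (by omega) hl (by omega)
          · rw [u_odd h (b + k + 1) hl]; simp
      _ ≤ _ := by
          apply Finset.sum_le_sum_of_subset
          intro k hk
          rw [Finset.mem_Ico] at hk
          exact Finset.mem_range.2 hk.2
  have h7 : HF P ρ n a (fun _ => 1) x + 1 / 16 ≤ 1 := by
    exact (add_le_add (le_refl _) hs).trans hid.le
  have h8 : (15 : ENNReal) / 16 + 1 / 16 = 1 := by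
    rw [ENNReal.div_add_div_same]
    norm_num
    rw [ENNReal.div_self] <;> norm_num
  exact (ENNReal.add_le_add_iff_right (a := 1 / 16) (by simp)).1 (h7.trans h8.ge)

omit h in
lemma HF_congr (n : ℕ) (a a' : ℕ → ENNReal) (f : V → ENNReal) (x : V)
    (haa : ∀ i < n, a i = a' i) : HF P ρ n a f x = HF P ρ n a' f x :=
  le_antisymm (HF_mono_a P ρ n _ _ _ _ fun i hi => (haa i hi).le)
    (HF_mono_a P ρ n _ _ _ _ fun i hi => (haa i hi).ge)

lemma Rch_par (n : ℕ) : ∀ x, ∀ z ∈ Rch P n x, (n + σ x + σ z) % 2 = 0 := by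
  induction n with
  | zero =>
    intro x z hz
    simp only [Rch, Set.mem_singleton_iff] at hz
    subst hz
    omega
  | succ n ih =>
    intro x z hz
    obtain ⟨y, hy, hzy⟩ := hz
    have h1 := h.par x y hy
    have h2 := ih y z hzy
    omega

lemma Rch_fin (n : ℕ) : ∀ x, (Rch P n x).Finite := by
  induction n with
  | zero => intro x; simp [Rch]
  | succ n ih =>
    intro x
    have : Rch P (n + 1) x ⊆ ⋃ y ∈ (P x).support, Rch P n y := by
      intro z hz
      obtain ⟨y, hy, hzy⟩ := hz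
      exact Set.mem_biUnion ((PMF.mem_support_iff _ _).2 hy) hzy
    exact ((h.fin x).biUnion fun y _ => ih y).subset this

/-- real return probabilities -/
noncomputable def ur (P : V → PMF V) (ρ : V) (n : ℕ) : ℝ := (p P ρ n ρ).toReal

omit h in
lemma ur_nonneg (n : ℕ) : 0 ≤ ur P ρ n := ENNReal.toReal_nonneg

omit h in
lemma p_ne_top (n : ℕ) (x : V) : p P ρ n x ≠ ⊤ :=
  ne_top_of_le_ne_top ENNReal.one_ne_top (p_le_one P ρ n x)

omit h in
lemma ur_le_one (n : ℕ) : ur P ρ n ≤ 1 :=
  ENNReal.toReal_le_of_le_ofReal zero_le_one (by simpa using p_le_one P ρ n ρ)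

omit h in
lemma ofReal_ur (n : ℕ) : ENNReal.ofReal (ur P ρ n) = p P ρ n ρ :=
  ENNReal.ofReal_toReal (p_ne_top n ρ)

/-- sums of the first squares -/
noncomputable def Dr (P : V → PMF V) (ρ : V) (n : ℕ) : ℝ := ∑ k ∈ range n, ur P ρ (k + 1) ^ 2

lemma Dr_tendsto : Tendsto (Dr P ρ) atTop atTop := by
  unfold Dr
  rw [← not_summable_iff_tendsto_nat_atTop_of_nonneg fun n => sq_nonneg _]
  intro hs
  have hs2 : Summable fun n => ur P ρ n ^ 2 := (summable_nat_add_iff 1).1 hs
  have h1 := hs2.tsum_ofReal_ne_top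
  apply h1
  rw [← h.sq]
  apply tsum_congr
  intro n
  rw [ENNReal.ofReal_pow (ur_nonneg n), ofReal_ur]

lemma summable_u : ∑' n, p P ρ n ρ = ⊤ := by
  rw [← top_le_iff, ← h.sq]
  refine ENNReal.tsum_le_tsum fun n => ?_
  calc p P ρ n ρ ^ 2 = p P ρ n ρ * p P ρ n ρ := sq _
    _ ≤ p P ρ n ρ * 1 := mul_le_mul_right (p_le_one P ρ n ρ) _
    _ = p P ρ n ρ := mul_one _

/-- uniform return from the points reached at a given time -/
lemma exists_t (b : ℕ) : ∃ t, ∀ x ∈ Rch P b ρ, 1 / 2 ≤ F P ρ t x := by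
  have hroot := iSup_F_root P ρ (summable_u h)
  have h1 : ∀ x ∈ Rch P b ρ, ∃ t, 1 / 2 ≤ F P ρ t x := by
    intro x hx
    have h2 := iSup_F_reach P ρ b ρ hroot hroot x hx
    have h3 : (1 : ENNReal) / 2 < ⨆ t, F P ρ t x := by rw [h2]; exact ENNReal.half_lt_self one_ne_zero ENNReal.one_ne_top
    obtain ⟨t, ht⟩ := lt_iSup_iff.1 h3
    exact ⟨t, ht.le⟩
  choose! T hT using h1
  obtain ⟨B, hB⟩ := ((Rch_fin h b ρ).image T).bddAbove
  refine ⟨B, fun x hx => ?_⟩
  exact (hT x hx).trans (F_mono P ρ x (hB (Set.mem_image_of_mem T hx)))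

omit h in
lemma Dr_mono : Monotone (Dr P ρ) := by
  apply monotone_nat_of_le_succ
  intro n
  unfold Dr
  rw [Finset.sum_range_succ]
  linarith [sq_nonneg (ur P ρ (n + 1))]

omit h in
lemma sum_p_sq (s : Finset ℕ) (f : ℕ → ℕ) :
    ∑ k ∈ s, p P ρ (f k) ρ ^ 2 = ENNReal.ofReal (∑ k ∈ s, ur P ρ (f k) ^ 2) := by
  rw [ENNReal.ofReal_sum_of_nonneg fun i _ => sq_nonneg _]
  apply Finset.sum_congr rfl
  intro k _
  rw [ENNReal.ofReal_pow (ur_nonneg _), ofReal_ur]

omit h in
lemma sum_Ico_ur (b t n : ℕ) (htn : t ≤ n) :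
    ∑ k ∈ Ico t n, ur P ρ (b + k + 1) ^ 2 = Dr P ρ (b + n) - Dr P ρ (b + t) := by
  unfold Dr
  rw [Finset.sum_range_add, Finset.sum_range_add, ← Finset.sum_range_add_sum_Ico _ htn]
  ring

theorem exists_tilt (N0 : ℕ) (ε : ℝ) (hε : 0 < ε) (hε1 : ε ≤ 1) (J : ℕ) :
    ∃ n, n % 2 = 0 ∧ N0 ≤ n ∧ ∃ y : ℕ → ℝ, (∀ i, 0 ≤ y i) ∧ (∀ i, y i ≤ ε) ∧
      ∑ i ∈ range n, y i ^ 2 ≤ ε * J ∧
      HF P ρ n (fun i => ENNReal.ofReal (1 - y i)) (fun _ => 1) ρ ≤ (15 / 16) ^ J := by
  induction J with
  | zero =>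
    refine ⟨2 * N0, by omega, by omega, fun _ => 0, fun _ => le_refl _, fun _ => hε.le, by simp, ?_⟩
    simp only [sub_zero, ENNReal.ofReal_one, pow_zero]
    exact (HF_zero_y P ρ _ ρ).le
  | succ J ih =>
    obtain ⟨n, hn2, hn0, y, hy0, hyε, hys, hyH⟩ := ih
    obtain ⟨t, ht⟩ := exists_t h n
    obtain ⟨M, hM⟩ := Filter.eventually_atTop.1 ((Dr_tendsto h).eventually_ge_atTop
      (max (2 * Dr P ρ (n + t)) (max 1 (1 / (2 * ε)))))
    set n' := 2 * (M + t) with hn'
    have hD := hM (n + n') (by omega)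
    set D := Dr P ρ (n + n') with hDdef
    have hD1 : 1 ≤ D := (le_max_left _ _).trans ((le_max_right _ _).trans hD)
    have hD2 : 2 * Dr P ρ (n + t) ≤ D := (le_max_left _ _).trans hD
    have hD3 : 1 / (2 * ε) ≤ D := (le_max_right _ _).trans ((le_max_right _ _).trans hD)
    have hD0 : 0 < D := by linarith
    set θ := 1 / (2 * D) with hθ
    have hθ0 : 0 < θ := by positivity
    have hθD : θ * D = 1 / 2 := by rw [hθ]; field_simp
    have hθε : θ ≤ ε := by
      rw [div_le_iff₀ (by positivity)] at hD3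
      rw [hθ, div_le_iff₀ (by positivity)]
      linarith
    set y' : ℕ → ℝ := fun i => if i < n then y i else if i < n + t then 0 else θ * ur P ρ (i + 1)
      with hy'
    have hy'0 : ∀ i, 0 ≤ y' i := by
      intro i
      simp only [hy']
      split_ifs
      · exact hy0 i
      · exact le_refl _
      · exact mul_nonneg hθ0.le (ur_nonneg _)
    have hy'ε : ∀ i, y' i ≤ ε := by
      intro i
      simp only [hy']
      split_ifs
      · exact hyε i
      · exact hε.le
      · calc θ * ur P ρ (i + 1) ≤ θ * 1 := by gcongr; exact ur_le_one _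
          _ ≤ ε := by linarith
    have hy'b : ∀ k, y' (n + k) ≤ θ * ur P ρ (n + k + 1) := by
      intro k
      simp only [hy']
      rw [if_neg (by omega)]
      split_ifs
      · exact mul_nonneg hθ0.le (ur_nonneg _)
      · exact le_refl _
    have hy'e : ∀ k, t ≤ k → y' (n + k) = θ * ur P ρ (n + k + 1) := by
      intro k hk
      simp only [hy']
      rw [if_neg (by omega), if_neg (by omega)]
    refine ⟨n + n', by omega, by omega, y', hy'0, hy'ε, ?_, ?_⟩
    · rw [Finset.sum_range_add]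
      have h1 : ∑ i ∈ range n, y' i ^ 2 = ∑ i ∈ range n, y i ^ 2 := by
        apply Finset.sum_congr rfl
        intro i hi
        simp only [hy']
        rw [if_pos (Finset.mem_range.1 hi)]
      have h2 : ∑ i ∈ range n', y' (n + i) ^ 2 ≤ θ ^ 2 * D := by
        calc ∑ i ∈ range n', y' (n + i) ^ 2 ≤ ∑ i ∈ range n', θ ^ 2 * ur P ρ (n + i + 1) ^ 2 := by
              apply Finset.sum_le_sum
              intro i _
              rw [← mul_pow]
              exact pow_le_pow_left₀ (hy'0 _) (hy'b i) 2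
          _ = θ ^ 2 * ∑ i ∈ range n', ur P ρ (n + i + 1) ^ 2 := by rw [Finset.mul_sum]
          _ ≤ θ ^ 2 * D := by
              gcongr
              rw [hDdef]
              unfold Dr
              rw [Finset.sum_range_add]
              have : 0 ≤ ∑ x ∈ range n, ur P ρ (x + 1) ^ 2 := Finset.sum_nonneg fun i _ => sq_nonneg _
              linarith
      have h3 : θ ^ 2 * D = θ * (1 / 2) := by rw [← hθD]; ring
      rw [h1]
      push_cast
      nlinarith
    · have hya : ∀ i, ENNReal.ofReal (1 - y' i) + ENNReal.ofReal (y' i) = 1 := by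
        intro i
        rw [← ENNReal.ofReal_add (by linarith [hy'ε i]) (hy'0 i)]
        simp
      rw [HF_add]
      have h5 : ∀ z ∈ Rch P n ρ, HF P ρ n' (fun i => ENNReal.ofReal (1 - y' (n + i)))
          (fun _ => 1) z ≤ 15 / 16 * 1 := by
        intro z hz
        rw [mul_one]
        have hz2 := Rch_par h n ρ z hz
        have hr := h.root
        apply block h n n' t hn2 (fun i => ENNReal.ofReal (y' (n + i)))
          (fun i => ENNReal.ofReal (1 - y' (n + i))) (fun i => hya (n + i)) (ENNReal.ofReal θ)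
        · intro k
          rw [← ofReal_ur, ← ENNReal.ofReal_mul hθ0.le]
          exact ENNReal.ofReal_le_ofReal (hy'b k)
        · intro k hk _
          rw [← ofReal_ur, ← ENNReal.ofReal_mul hθ0.le, hy'e k hk]
        · rw [sum_p_sq (range n') (fun l => l + 1), ← ENNReal.ofReal_mul hθ0.le]
          have : ENNReal.ofReal (1 / 2) = 1 / 2 := by
            rw [ENNReal.ofReal_div_of_pos (by norm_num)]; simp
          rw [← this]
          apply ENNReal.ofReal_le_ofReal
          rw [← hθD]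
          have h6 : Dr P ρ n' ≤ D := Dr_mono (by omega)
          exact mul_le_mul_of_nonneg_left h6 hθ0.le
        · rw [sum_p_sq (Ico t n') (fun k => n + k + 1), ← ENNReal.ofReal_mul hθ0.le,
            sum_Ico_ur n t n' (by omega)]
          have : ENNReal.ofReal (1 / 4) = 1 / 4 := by
            rw [ENNReal.ofReal_div_of_pos (by norm_num)]; simp
          rw [← this]
          apply ENNReal.ofReal_le_ofReal
          rw [← hDdef]
          nlinarith
        · omega
        · exact ht z hz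
      refine (HF_le_reach P ρ n _ _ (fun _ => 1) ρ (15 / 16) h5).trans ?_
      rw [pow_succ, mul_comm]
      refine mul_le_mul' ?_ (le_refl _)
      rw [HF_congr n _ (fun i => ENNReal.ofReal (1 - y i)) _ ρ]
      · exact hyH
      · intro i hi
        simp only [hy']
        rw [if_pos hi]

end Q293.PolyRet
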