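import Pool.Agent.Q293.PolyBase

/-!
# A reversible recurrent chain whose polymer has a bounded second moment
-/

set_option autoImplicit false

open MeasureTheory Filter Topology

namespace Q293.PolyChain

open Polymer PolyBase

/-- fibre sizes -/
def m (z : ℤ × ℤ) : ℕ := 2 ^ (z.1.natAbs + z.2.natAbs)

instance (z : ℤ × ℤ) : NeZero (m z) := ⟨by unfold m; positivity⟩

/-- vertices -/
abbrev V : Type := Σ z : ℤ × ℤ, Fin (m z)

instance : Countable V := inferInstance
instance : DecidableEq V := inferInstance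

/-- the transition law: a uniform neighbour in the lattice, then a uniform point of its fibre -/
noncomputable def P (x : V) : PMF V :=
  (PMF.uniformOfFintype (Fin 4)).bind fun e =>
    (PMF.uniformOfFintype (Fin (m (x.1 + dir e)))).map fun i => (⟨x.1 + dir e, i⟩ : V)

lemma tsum_P (x : V) (f : V → ENNReal) :
    ∑' y, P x y * f y = ∑ e, (1 / 4 : ENNReal) *
      ∑ i : Fin (m (x.1 + dir e)), (m (x.1 + dir e) : ENNReal)⁻¹ * f ⟨x.1 + dir e, i⟩ := by
  unfold P
  rw [tsum_bind, tsum_fintype]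
  apply Finset.sum_congr rfl
  intro e _
  rw [PMF.uniformOfFintype_apply, Fintype.card_fin, tsum_map, tsum_fintype]
  congr 1
  · simp
  · apply Finset.sum_congr rfl
    intro i _
    rw [PMF.uniformOfFintype_apply, Fintype.card_fin]

lemma m_ne_zero (z : ℤ × ℤ) : (m z : ENNReal) ≠ 0 := by
  simp [NeZero.ne (m z)]

lemma m_ne_top (z : ℤ × ℤ) : (m z : ENNReal) ≠ ⊤ := ENNReal.natCast_ne_top _

lemma tsum_P_base (x : V) (f : ℤ × ℤ → ENNReal) :
    ∑' y : V, P x y * f y.1 = ∑ e, (1 / 4 : ENNReal) * f (x.1 + dir e) := by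
  rw [tsum_P x (fun y => f y.1)]
  apply Finset.sum_congr rfl
  intro e _
  congr 1
  show ∑ _i : Fin (m (x.1 + dir e)), (m (x.1 + dir e) : ENNReal)⁻¹ * f (x.1 + dir e) = _
  rw [Finset.sum_const, Finset.card_univ, Fintype.card_fin, nsmul_eq_mul, ← mul_assoc,
    ENNReal.mul_inv_cancel (m_ne_zero _) (m_ne_top _), one_mul]

lemma P_apply (x y : V) :
    P x y = (∑ e, (1 / 4 : ENNReal) * (if x.1 + dir e = y.1 then 1 else 0)) * (m y.1 : ENNReal)⁻¹ := by
  have h1 : P x y = ∑' y', P x y' * (if y' = y then 1 else 0) := by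
    rw [tsum_eq_single y]
    · simp
    · intro y' hy'
      rw [if_neg hy', mul_zero]
  rw [h1, tsum_P, Finset.sum_mul]
  apply Finset.sum_congr rfl
  intro e _
  rw [mul_assoc]
  congr 1
  obtain ⟨w, j⟩ := y
  by_cases h : x.1 + dir e = w
  · subst h
    simp only [Sigma.mk.injEq, heq_eq_eq, true_and, mul_ite, mul_one, mul_zero,
      Finset.sum_ite_eq', Finset.mem_univ, if_true, one_mul]
  · rw [if_neg h, zero_mul]
    apply Finset.sum_eq_zero
    intro i _
    rw [if_neg, mul_zero]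
    rintro h2
    exact h (congrArg Sigma.fst h2)

/-- opposite direction -/
def opp : Fin 4 → Fin 4 := ![1, 0, 3, 2]

lemma opp_opp (e : Fin 4) : opp (opp e) = e := by fin_cases e <;> rfl

lemma dir_opp (e : Fin 4) : dir (opp e) = - dir e := by fin_cases e <;> rfl

lemma nbr_symm (z w : ℤ × ℤ) :
    ∑ e, (1 / 4 : ENNReal) * (if z + dir e = w then 1 else 0)
      = ∑ e, (1 / 4 : ENNReal) * (if w + dir e = z then 1 else 0) := by
  refine Finset.sum_nbij' opp opp (fun _ _ => Finset.mem_univ _) (fun _ _ => Finset.mem_univ _)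
    (fun e _ => opp_opp e) (fun e _ => opp_opp e) ?_
  intro e _
  rw [dir_opp]
  congr 1
  have : z + dir e = w ↔ w + -dir e = z := by
    constructor
    · rintro rfl; abel
    · rintro rfl; abel
  by_cases h : z + dir e = w
  · rw [if_pos h, if_pos (this.1 h)]
  · rw [if_neg h, if_neg fun hh => h (this.2 hh)]

/-- the reversing measure -/
noncomputable def pi (x : V) : ENNReal := (m x.1 : ENNReal)⁻¹

lemma reversible (x y : V) : pi x * P x y = pi y * P y x := by
  unfold pi
  rw [P_apply, P_apply, nbr_symm]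
  ring

/-- law of `S_n` -/
noncomputable def law : ℕ → V → PMF V
  | 0, x => PMF.pure x
  | n + 1, x => (P x).bind (law n)

/-- base transition probabilities as extended nonnegative numbers -/
noncomputable def pE (n : ℕ) (z w : ℤ × ℤ) : ENNReal := ENNReal.ofReal (p n z w)

lemma quarter : ENNReal.ofReal (1 / 4) = 1 / 4 := by
  rw [ENNReal.ofReal_div_of_pos (by norm_num)]
  simp

lemma pE_succ (n : ℕ) (z w : ℤ × ℤ) :
    pE (n + 1) z w = ∑ e, (1 / 4 : ENNReal) * pE n (z + dir e) w := by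
  unfold pE
  rw [p_succ, ENNReal.ofReal_sum_of_nonneg]
  · apply Finset.sum_congr rfl
    intro e _
    rw [ENNReal.ofReal_mul (by norm_num), quarter]
  · intro e _
    exact mul_nonneg (by norm_num) (p_nonneg _ _ _)

lemma pE_zero (z w : ℤ × ℤ) : pE 0 z w = if z = w then 1 else 0 := by
  unfold pE
  rw [p_zero]
  split_ifs <;> simp

lemma P_eq (x y : V) : P x y = pE 1 x.1 y.1 * (m y.1 : ENNReal)⁻¹ := by
  rw [P_apply, pE_succ]
  simp only [pE_zero]

lemma law_succ_apply (n : ℕ) (x y : V) :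
    law (n + 1) x y = pE (n + 1) x.1 y.1 * (m y.1 : ENNReal)⁻¹ := by
  induction n generalizing x with
  | zero =>
    have : law (0 + 1) x y = ∑' x', P x x' * law 0 x' y := by
      rw [law, PMF.bind_apply]
    rw [this]
    have h2 : ∀ x', law 0 x' y = if x' = y then 1 else 0 := by
      intro x'
      rw [law, PMF.pure_apply]
      by_cases h : x' = y
      · rw [if_pos h, if_pos h.symm]
      · rw [if_neg h, if_neg fun hh => h hh.symm]
    simp only [h2]
    rw [tsum_eq_single y]
    · rw [if_pos rfl, mul_one, P_eq]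
    · intro x' hx'
      rw [if_neg hx', mul_zero]
  | succ n ih =>
    have : law (n + 1 + 1) x y = ∑' x', P x x' * law (n + 1) x' y := by
      rw [law, PMF.bind_apply]
    rw [this]
    simp only [ih]
    rw [tsum_P_base x (fun z => pE (n + 1) z y.1 * (m y.1 : ENNReal)⁻¹), pE_succ (n + 1),
      Finset.sum_mul]
    simp only [mul_assoc]

theorem recurrent (x : V) : ∑' n, law n x x = ⊤ := by
  have h1 : ∑' n, law (n + 1) x x = ⊤ := by
    simp only [law_succ_apply]
    rw [ENNReal.tsum_mul_right]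
    unfold pE
    simp only [p_diag, diag_sum]
    rw [ENNReal.top_mul]
    exact ENNReal.inv_ne_zero.2 (m_ne_top _)
  rw [tsum_eq_zero_add' ENNReal.summable, h1, add_top]

/-- total mass of the weights -/
noncomputable def K0 : ENNReal := ∑' w : ℤ × ℤ, (m w : ENNReal)⁻¹

lemma K0_ne_top : K0 ≠ ⊤ := by
  have hs : Summable fun u : ℤ => ((1 : ℝ) / 2) ^ u.natAbs := by
    have hg : Summable fun n : ℕ => ((1 : ℝ) / 2) ^ n :=
      summable_geometric_of_lt_one (by norm_num) (by norm_num)
    apply Summable.of_nat_of_neg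
    · simpa using hg
    · simpa using hg
  have h1 : ∑' u : ℤ, ENNReal.ofReal (((1 : ℝ) / 2) ^ u.natAbs) ≠ ⊤ := by
    rw [← ENNReal.ofReal_tsum_of_nonneg (fun _ => by positivity) hs]
    exact ENNReal.ofReal_ne_top
  have h2 : K0 = (∑' u : ℤ, ENNReal.ofReal (((1 : ℝ) / 2) ^ u.natAbs)) *
      ∑' u : ℤ, ENNReal.ofReal (((1 : ℝ) / 2) ^ u.natAbs) := by
    unfold K0
    rw [ENNReal.tsum_prod', ← ENNReal.tsum_mul_right]
    apply tsum_congr
    intro u
    rw [← ENNReal.tsum_mul_left]
    apply tsum_congr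
    intro v
    unfold m
    rw [← ENNReal.ofReal_mul (by positivity), ← pow_add, one_div, inv_pow, ENNReal.ofReal_inv_of_pos
      (by positivity)]
    congr 1
    rw [ENNReal.ofReal_pow (by norm_num)]
    simp
  rw [h2]
  exact ENNReal.mul_ne_top h1 h1

/-- weighted collision probabilities -/
noncomputable def g (k : ℕ) (z z' : ℤ × ℤ) : ENNReal :=
  ∑' w, pE k z w * (pE k z' w * (m w : ENNReal)⁻¹)

lemma tsum_sum_comm {α : Type*} (F : Fin 4 → α → ENNReal) :
    ∑' w, ∑ e, F e w = ∑ e, ∑' w, F e w :=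
  Summable.tsum_finsetSum fun _ _ => ENNReal.summable

lemma g_succ (k : ℕ) (z z' : ℤ × ℤ) :
    g (k + 1) z z' = ∑ e, (1 / 4 : ENNReal) * ∑ e', (1 / 4 : ENNReal) *
      g k (z + dir e) (z' + dir e') := by
  unfold g
  have h1 : ∀ w, pE (k + 1) z w * (pE (k + 1) z' w * (m w : ENNReal)⁻¹)
      = ∑ e, (1 / 4 : ENNReal) * ∑ e', (1 / 4 : ENNReal) *
        (pE k (z + dir e) w * (pE k (z' + dir e') w * (m w : ENNReal)⁻¹)) := by
    intro w
    rw [pE_succ, pE_succ, Finset.sum_mul]
    apply Finset.sum_congr rfl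
    intro e _
    rw [mul_assoc]
    congr 1
    rw [Finset.sum_mul, Finset.mul_sum]
    apply Finset.sum_congr rfl
    intro e' _
    ring
  simp only [h1]
  rw [tsum_sum_comm]
  apply Finset.sum_congr rfl
  intro e _
  rw [ENNReal.tsum_mul_left]
  congr 1
  rw [tsum_sum_comm]
  apply Finset.sum_congr rfl
  intro e' _
  rw [ENNReal.tsum_mul_left]

lemma g_le (k : ℕ) (z z' : ℤ × ℤ) : g k z z' ≤ ENNReal.ofReal (1 / ((k : ℝ) + 1) ^ 2) * K0 := by
  unfold g K0
  rw [← ENNReal.tsum_mul_left]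
  refine ENNReal.tsum_le_tsum fun w => ?_
  rw [← mul_assoc]
  gcongr
  unfold pE
  rw [← ENNReal.ofReal_mul (p_nonneg _ _ _)]
  apply ENNReal.ofReal_le_ofReal
  have h1 := p_le k z w
  have h2 := p_le k z' w
  have h3 : (1 : ℝ) / ((k : ℝ) + 1) ^ 2 = (1 / ((k : ℝ) + 1)) * (1 / ((k : ℝ) + 1)) := by
    rw [div_mul_div_comm, one_mul, sq]
  rw [h3]
  exact mul_le_mul h1 h2 (p_nonneg _ _ _) (by positivity)

/-- the Green function of collisions -/
noncomputable def Gr (z z' : ℤ × ℤ) : ENNReal := ∑' k, g (k + 1) z z'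

/-- its bound -/
noncomputable def kap : ENNReal := (∑' k : ℕ, ENNReal.ofReal (1 / ((k : ℝ) + 1 + 1) ^ 2)) * K0

lemma kap_ne_top : kap ≠ ⊤ := by
  unfold kap
  apply ENNReal.mul_ne_top _ K0_ne_top
  have hs : Summable fun k : ℕ => (1 : ℝ) / ((k : ℝ) + 1 + 1) ^ 2 := by
    have h3 : Summable fun i : ℕ => (1 : ℝ) / ((i : ℝ)) ^ 2 :=
      Real.summable_one_div_nat_pow.2 one_lt_two
    refine ((summable_nat_add_iff 2).2 h3).congr fun i => ?_
    push_cast
    rw [add_assoc]
    norm_num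
  rw [← ENNReal.ofReal_tsum_of_nonneg (fun _ => by positivity) hs]
  exact ENNReal.ofReal_ne_top

lemma Gr_le (z z' : ℤ × ℤ) : Gr z z' ≤ kap := by
  unfold Gr kap
  rw [← ENNReal.tsum_mul_right]
  refine ENNReal.tsum_le_tsum fun k => ?_
  have := g_le (k + 1) z z'
  push_cast at this
  exact this

lemma Gr_succ (z z' : ℤ × ℤ) :
    Gr z z' = g 1 z z' + ∑ e, (1 / 4 : ENNReal) * ∑ e', (1 / 4 : ENNReal) *
      Gr (z + dir e) (z' + dir e') := by
  have h1 : Gr z z' = g 1 z z' + ∑' k, g (k + 1 + 1) z z' := by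
    unfold Gr
    rw [tsum_eq_zero_add' ENNReal.summable]
  rw [h1]
  congr 1
  have h2 : ∀ k, g (k + 1 + 1) z z' = ∑ e, (1 / 4 : ENNReal) * ∑ e', (1 / 4 : ENNReal) *
      g (k + 1) (z + dir e) (z' + dir e') := fun k => g_succ (k + 1) z z'
  simp only [h2]
  unfold Gr
  rw [tsum_sum_comm]
  apply Finset.sum_congr rfl
  intro e _
  rw [ENNReal.tsum_mul_left]
  congr 1
  rw [tsum_sum_comm]
  apply Finset.sum_congr rfl
  intro e' _
  rw [ENNReal.tsum_mul_left]

/-- collision probability of one step -/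
lemma sum_diag (x x' : V) : ∑' y, P x y * P x' y = g 1 x.1 x'.1 := by
  simp only [P_eq]
  rw [ENNReal.tsum_sigma']
  unfold g
  apply tsum_congr
  intro w
  rw [tsum_fintype]
  simp only [Finset.sum_const, Finset.card_univ, Fintype.card_fin, nsmul_eq_mul]
  have h := ENNReal.mul_inv_cancel (m_ne_zero w) (m_ne_top w)
  calc (m w : ENNReal) * (pE 1 x.1 w * (m w : ENNReal)⁻¹ * (pE 1 x'.1 w * (m w : ENNReal)⁻¹))
      = ((m w : ENNReal) * (m w : ENNReal)⁻¹) * (pE 1 x.1 w * (pE 1 x'.1 w * (m w : ENNReal)⁻¹)) := by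
        ring
    _ = _ := by rw [h, one_mul]

/-- the supersolution -/
noncomputable def Hs (x x' : V) : ENNReal := 1 + Gr x.1 x'.1

lemma supersolution (c : V → V → ENNReal) (δ : ENNReal) (hδ : δ * (1 + kap) ≤ 1)
    (hne : ∀ y y', y ≠ y' → c y y' ≤ 1) (heq : ∀ y, c y y ≤ 1 + δ) (x x' : V) :
    ∑' y, P x y * ∑' y', P x' y' * (c y y' * Hs y y') ≤ Hs x x' := by
  have hc : ∀ y y', c y y' * Hs y y' ≤ Hs y y' + (if y' = y then δ * (1 + kap) else 0) := by
    intro y y'
    by_cases h : y' = y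
    · subst h
      rw [if_pos rfl]
      calc c y' y' * Hs y' y' ≤ (1 + δ) * Hs y' y' := by gcongr; exact heq y'
        _ = Hs y' y' + δ * Hs y' y' := by ring
        _ ≤ Hs y' y' + δ * (1 + kap) := by
            unfold Hs
            gcongr
            exact Gr_le _ _
    · rw [if_neg h, add_zero]
      calc c y y' * Hs y y' ≤ 1 * Hs y y' := by gcongr; exact hne y y' fun hh => h hh.symm
        _ = Hs y y' := one_mul _
  calc ∑' y, P x y * ∑' y', P x' y' * (c y y' * Hs y y')
      ≤ ∑' y, P x y * ∑' y', P x' y' * (Hs y y' + (if y' = y then δ * (1 + kap) else 0)) := by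
        gcongr with y y'
        exact hc y y'
    _ = ∑' y, P x y * ∑' y', P x' y' * Hs y y' + ∑' y, P x y * (P x' y * (δ * (1 + kap))) := by
        rw [← ENNReal.tsum_add]
        apply tsum_congr
        intro y
        rw [← mul_add]
        congr 1
        simp only [mul_add]
        rw [ENNReal.tsum_add]
        congr 1
        rw [tsum_eq_single y]
        · rw [if_pos rfl, mul_add]
        · intro y' hy'
          rw [if_neg hy', mul_zero]
    _ = (1 + ∑ e, (1 / 4 : ENNReal) * ∑ e', (1 / 4 : ENNReal) *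
          Gr (x.1 + dir e) (x'.1 + dir e')) + g 1 x.1 x'.1 * (δ * (1 + kap)) := by
        congr 1
        · have h1 : ∀ y : V, ∑' y' : V, P x' y' * Hs y y'
              = 1 + ∑ e', (1 / 4 : ENNReal) * Gr y.1 (x'.1 + dir e') := by
            intro y
            unfold Hs
            simp only [mul_add, mul_one]
            rw [ENNReal.tsum_add, PMF.tsum_coe, tsum_P_base x' (fun z => Gr y.1 z)]
          simp only [h1]
          simp only [mul_add, mul_one]
          rw [ENNReal.tsum_add, PMF.tsum_coe,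
            tsum_P_base x (fun z => ∑ e', (1 / 4 : ENNReal) * Gr z (x'.1 + dir e'))]
        · simp only [← mul_assoc]
          rw [ENNReal.tsum_mul_right, ENNReal.tsum_mul_right, sum_diag]
    _ ≤ (1 + ∑ e, (1 / 4 : ENNReal) * ∑ e', (1 / 4 : ENNReal) *
          Gr (x.1 + dir e) (x'.1 + dir e')) + g 1 x.1 x'.1 * 1 := by gcongr
    _ = Hs x x' := by
        unfold Hs
        rw [Gr_succ]
        ring

end Q293.PolyChain
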