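import Pool.Agent.Q293.PolyTilt

/-!
# Fractional moments of the partition function
-/

set_option autoImplicit false
set_option linter.unusedSectionVars false

open Filter Topology Finset MeasureTheory ProbabilityTheory

namespace Q293.PolyTilt

open Q293.Polymer Q293.PolyRet

variable {V : Type} [DecidableEq V] [Countable V] {P : V → PMF V} {ρ : V}

/-- density of the tilted environment -/
noncomputable def Qn (ν : Measure ℝ) (ρ : V) (n : ℕ) (δ : ℕ → ℝ) (ω : ℕ → V → ℝ) : ENNReal :=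
  ∏ i ∈ range n, q ν (δ i) (ω i ρ)

omit [DecidableEq V] [Countable V] in
lemma Qn_succ (ν : Measure ℝ) (n : ℕ) (δ : ℕ → ℝ) (ω : ℕ → V → ℝ) :
    Qn ν ρ (n + 1) δ ω = q ν (δ 0) (ω 0 ρ) *
      Qn ν ρ n (fun i => δ (1 + i)) (fun i => ω (1 + i)) := by
  unfold Qn
  rw [Finset.prod_range_succ', mul_comm]
  simp only [add_comm 1]

omit [DecidableEq V] [Countable V] in
lemma measurable_Qn (ν : Measure ℝ) (n : ℕ) (δ : ℕ → ℝ) :
    Measurable fun ω : ℕ → V → ℝ => Qn ν ρ n δ ω := by
  unfold Qn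
  apply Finset.measurable_prod
  intro i _
  exact (measurable_q (δ i)).comp ((measurable_pi_apply ρ).comp (measurable_pi_apply i))

section

variable {ν : Measure ℝ} (hν : EnvLaw ν)
include hν

omit [DecidableEq V] [Countable V] in
lemma lint_two (f g : ℝ → ENNReal) (hf : Measurable f) (hg : Measurable g) (y y' : V)
    (h : y ≠ y') : ∫⁻ η : V → ℝ, f (η y) * g (η y') ∂(Measure.infinitePi (fun _ : V => ν))
      = (∫⁻ t, f t ∂ν) * ∫⁻ t, g t ∂ν := by
  have := hν.prob
  have hind : iIndepFun (fun (v : V) (η : V → ℝ) => η v) (Measure.infinitePi (fun _ : V => ν)) := by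
    have := iIndepFun_infinitePi (P := fun _ : V => ν) (X := fun (_ : V) (t : ℝ) => t)
      (fun _ => measurable_id)
    exact this
  have h2 := hind.indepFun h
  have h3 := h2.comp hf hg
  have h4 := lintegral_mul_eq_lintegral_mul_lintegral_of_indepFun
    (hf.comp (measurable_pi_apply y)) (hg.comp (measurable_pi_apply y')) h3
  simp only [Pi.mul_apply, Function.comp] at h4
  rw [h4]
  have h5 : ∀ (v : V) (k : ℝ → ENNReal), Measurable k → ∫⁻ η : V → ℝ, k (η v)
      ∂(Measure.infinitePi (fun _ : V => ν)) = ∫⁻ t, k t ∂ν := by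
    intro v k hk
    have h6 : (Measure.infinitePi (fun _ : V => ν)).map (fun η => η v) = ν :=
      Measure.infinitePi_map_eval (fun _ : V => ν) v
    have h7 := lintegral_map (μ := Measure.infinitePi (fun _ : V => ν)) hk (measurable_pi_apply v)
    rw [h6] at h7
    exact h7.symm
  rw [h5 y f hf, h5 y' g hg]

omit [DecidableEq V] [Countable V] in
lemma lint_single (k : ℝ → ENNReal) (hk : Measurable k) (v : V) :
    ∫⁻ η : V → ℝ, k (η v) ∂(Measure.infinitePi (fun _ : V => ν)) = ∫⁻ t, k t ∂ν := by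
  have := hν.prob
  have h6 : (Measure.infinitePi (fun _ : V => ν)).map (fun η => η v) = ν :=
    Measure.infinitePi_map_eval (fun _ : V => ν) v
  have h7 := lintegral_map (μ := Measure.infinitePi (fun _ : V => ν)) hk (measurable_pi_apply v)
  rw [h6] at h7
  exact h7.symm

omit [Countable V] in
lemma lint_slice (β δ : ℝ) (y : V) :
    ∫⁻ η : V → ℝ, ENNReal.ofReal (Real.exp (β * η y - Lam ν β)) * q ν δ (η ρ)
      ∂(Measure.infinitePi (fun _ : V => ν)) = if y = ρ then aw ν β δ else 1 := by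
  split_ifs with hy
  · rw [hy, ← lint_eq hν β δ]
    exact lint_single hν (fun t => ENNReal.ofReal (Real.exp (β * t - Lam ν β)) * q ν δ t)
      ((measurable_exp1 β).mul (measurable_q δ)) ρ
  · rw [lint_two hν (fun t => ENNReal.ofReal (Real.exp (β * t - Lam ν β))) (q ν δ)
      (measurable_exp1 β) (measurable_q δ) y ρ hy, lint_e hν, lint_q hν, one_mul]

/-- tilted first moment -/
lemma tilted_moment (β : ℝ) (n : ℕ) : ∀ (δ : ℕ → ℝ) (x : V),
    ∫⁻ ω, W P ν β ω n x * Qn ν ρ n δ ω ∂(env V ν)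
      = HF P ρ n (fun i => aw ν β (δ i)) (fun _ => 1) x := by
  have := hν.prob
  induction n with
  | zero =>
    intro δ x
    have : IsProbabilityMeasure (env V ν) := by unfold env; infer_instance
    simp [W_zero, Qn, HF]
  | succ n ih =>
    intro δ x
    rw [HF]
    simp only [W_succ, Qn_succ]
    simp only [← ENNReal.tsum_mul_right]
    have hshift : Measurable (fun (ω : ℕ → V → ℝ) (i : ℕ) => ω (1 + i)) :=
      measurable_pi_lambda _ fun i => measurable_pi_apply (1 + i)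
    rw [lintegral_tsum]
    · apply tsum_congr
      intro y
      have h1 : ∀ ω : ℕ → V → ℝ, P x y * (ENNReal.ofReal (Real.exp (β * ω 0 y - Lam ν β)) *
          W P ν β (fun i => ω (1 + i)) n y) * (q ν (δ 0) (ω 0 ρ) *
          Qn ν ρ n (fun i => δ (1 + i)) (fun i => ω (1 + i)))
          = P x y * ((ENNReal.ofReal (Real.exp (β * ω 0 y - Lam ν β)) * q ν (δ 0) (ω 0 ρ)) *
          (W P ν β (fun i => ω (1 + i)) n y *
            Qn ν ρ n (fun i => δ (1 + i)) (fun i => ω (1 + i)))) := by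
        intro ω; ring
      simp_rw [h1]
      rw [lintegral_const_mul' _ _ ((P x).apply_ne_top y)]
      rw [lintegral_env ν (fun η => ENNReal.ofReal (Real.exp (β * η y - Lam ν β)) *
          q ν (δ 0) (η ρ))
        (fun ω => W P ν β ω n y * Qn ν ρ n (fun i => δ (1 + i)) ω)
        ((measurable_e ν β y).mul ((measurable_q (δ 0)).comp (measurable_pi_apply ρ)))
        ((measurable_W P ν β n y).mul (measurable_Qn ν n _))]
      rw [ih, lint_slice hν]
    · intro y
      apply Measurable.aemeasurable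
      apply Measurable.mul
      · apply Measurable.const_mul
        exact ((measurable_e ν β y).comp (measurable_pi_apply 0)).mul
          ((measurable_W P ν β n y).comp hshift)
      · exact ((measurable_q (δ 0)).comp ((measurable_pi_apply ρ).comp (measurable_pi_apply 0))).mul
          ((measurable_Qn ν n _).comp hshift)

/-- cost of the tilt -/
lemma tilt_cost (n : ℕ) : ∀ (δ : ℕ → ℝ), ∫⁻ ω, (Qn ν ρ n δ ω)⁻¹ ∂(env V ν)
      = ∏ i ∈ range n, ENNReal.ofReal (phi ν (δ i) * phi ν (-δ i)) := by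
  have := hν.prob
  induction n with
  | zero =>
    intro δ
    have : IsProbabilityMeasure (env V ν) := by unfold env; infer_instance
    simp [Qn]
  | succ n ih =>
    intro δ
    have h1 : ∀ ω : ℕ → V → ℝ, (Qn ν ρ (n + 1) δ ω)⁻¹ = (q ν (δ 0) (ω 0 ρ))⁻¹ *
        (Qn ν ρ n (fun i => δ (1 + i)) (fun i => ω (1 + i)))⁻¹ := by
      intro ω
      rw [Qn_succ, ENNReal.mul_inv (Or.inl (q_ne_zero hν _ _)) (Or.inl (q_ne_top _ _))]
    simp_rw [h1]
    rw [lintegral_env ν (fun η => (q ν (δ 0) (η ρ))⁻¹)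
      (fun ω => (Qn ν ρ n (fun i => δ (1 + i)) ω)⁻¹)
      ((measurable_q (δ 0)).comp (measurable_pi_apply ρ)).inv (measurable_Qn ν n _).inv, ih]
    rw [lint_single hν (fun t => (q ν (δ 0) t)⁻¹) (measurable_q _).inv ρ, lint_qinv hν]
    rw [Finset.prod_range_succ', mul_comm]
    simp only [add_comm 1]

omit [DecidableEq V] [Countable V] in
lemma Qn_ne_zero (n : ℕ) (δ : ℕ → ℝ) (ω : ℕ → V → ℝ) : Qn ν ρ n δ ω ≠ 0 := by
  unfold Qn
  rw [Finset.prod_ne_zero_iff]
  intro i _
  exact q_ne_zero hν _ _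

omit hν [DecidableEq V] [Countable V] in
lemma Qn_ne_top (n : ℕ) (δ : ℕ → ℝ) (ω : ℕ → V → ℝ) : Qn ν ρ n δ ω ≠ ⊤ := by
  unfold Qn
  exact ENNReal.prod_ne_top fun i _ => q_ne_top _ _

/-- the square root of the partition function -/
lemma half_moment (β : ℝ) (n : ℕ) (δ : ℕ → ℝ) (x : V) :
    ∫⁻ ω, (W P ν β ω n x) ^ (1 / 2 : ℝ) ∂(env V ν) ≤
      (HF P ρ n (fun i => aw ν β (δ i)) (fun _ => 1) x) ^ (1 / 2 : ℝ) *
      (∏ i ∈ range n, ENNReal.ofReal (phi ν (δ i) * phi ν (-δ i))) ^ (1 / 2 : ℝ) := by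
  have hpq : (2 : ℝ).HolderConjugate 2 := Real.HolderConjugate.two_two
  have h := ENNReal.lintegral_mul_le_Lp_mul_Lq (env V ν) hpq
    (f := fun ω => (W P ν β ω n x * Qn ν ρ n δ ω) ^ (1 / 2 : ℝ))
    (g := fun ω => ((Qn ν ρ n δ ω)⁻¹) ^ (1 / 2 : ℝ))
    (((measurable_W P ν β n x).mul (measurable_Qn ν n δ)).pow_const _).aemeasurable
    ((measurable_Qn ν n δ).inv.pow_const _).aemeasurable
  have h1 : ∀ ω, ((fun ω => (W P ν β ω n x * Qn ν ρ n δ ω) ^ (1 / 2 : ℝ)) *
      (fun ω => ((Qn ν ρ n δ ω)⁻¹) ^ (1 / 2 : ℝ))) ω = (W P ν β ω n x) ^ (1 / 2 : ℝ) := by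
    intro ω
    simp only [Pi.mul_apply]
    rw [← ENNReal.mul_rpow_of_nonneg _ _ (by norm_num), mul_assoc,
      ENNReal.mul_inv_cancel (Qn_ne_zero hν n δ ω) (Qn_ne_top n δ ω), mul_one]
  have h2 : ∀ z : ENNReal, (z ^ (1 / 2 : ℝ)) ^ (2 : ℝ) = z := by
    intro z
    rw [← ENNReal.rpow_mul]; norm_num
  simp only [h1, h2] at h
  rw [tilted_moment hν, tilt_cost hν] at h
  exact h

/-- the fractional moment gets arbitrarily small -/
theorem half_moment_small {σ : V → ℕ} (h : RetHyp P ρ σ) (β : ℝ) (hβ : 0 < β) (N0 : ℕ)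
    (ε : ENNReal) (hε : 0 < ε) :
    ∃ n, N0 ≤ n ∧ ∫⁻ ω, (W P ν β ω n ρ) ^ (1 / 2 : ℝ) ∂(env V ν) ≤ ε := by
  obtain ⟨c, δ0, hc, hδ0, hδ1, hgain⟩ := exists_gain hν β hβ
  set C := 2 * (2 * (phi ν 2 + phi ν (-2))) with hC
  have hC0 : 0 < C := by
    have := phi_pos hν 2
    have := phi_pos hν (-2)
    positivity
  -- choose J
  have hlim : Tendsto (fun J : ℕ => ((15 : ENNReal) / 16) ^ J * ENNReal.ofReal (Real.exp 1)) atTop
      (𝓝 0) := by
    have h1 : Tendsto (fun J : ℕ => ((15 : ENNReal) / 16) ^ J) atTop (𝓝 0) := by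
      apply ENNReal.tendsto_pow_atTop_nhds_zero_of_lt_one
      rw [ENNReal.div_lt_iff] <;> norm_num
    have h2 := ENNReal.Tendsto.mul_const (b := ENNReal.ofReal (Real.exp 1)) h1
      (Or.inr ENNReal.ofReal_ne_top)
    simpa using h2
  have hε2 : (0 : ENNReal) < ε ^ (2 : ℝ) := by
    rcases eq_or_ne ε ⊤ with h | h
    · rw [h]; simp
    · exact ENNReal.rpow_pos hε h
  obtain ⟨J, hJ⟩ := (hlim.eventually_lt_const hε2).exists
  set ε1 := min (min 1 (c * δ0)) (c ^ 2 / (C * (J + 1))) with hε1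
  have hε10 : 0 < ε1 := by positivity
  obtain ⟨n, _, hn, y, hy0, hyε, hys, hyH⟩ := exists_tilt h N0 ε1 hε10
    ((min_le_left _ _).trans (min_le_left _ _)) J
  refine ⟨n, hn, ?_⟩
  set δ : ℕ → ℝ := fun i => y i / c with hδ
  have hδn : ∀ i, 0 ≤ δ i := fun i => div_nonneg (hy0 i) hc.le
  have hδu : ∀ i, δ i ≤ δ0 := by
    intro i
    simp only [hδ]
    rw [div_le_iff₀ hc]
    calc y i ≤ ε1 := hyε i
      _ ≤ c * δ0 := (min_le_left _ _).trans (min_le_right _ _)
      _ = δ0 * c := mul_comm _ _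
  have h1 := half_moment hν (P := P) (ρ := ρ) β n δ ρ
  refine h1.trans ?_
  rw [← ENNReal.mul_rpow_of_nonneg _ _ (by norm_num)]
  have h2 : HF P ρ n (fun i => aw ν β (δ i)) (fun _ => 1) ρ ≤ (15 / 16) ^ J := by
    refine le_trans ?_ hyH
    apply HF_mono_a
    intro i _
    unfold aw
    apply ENNReal.ofReal_le_ofReal
    have := hgain (δ i) (hδn i) (hδu i)
    refine this.trans (le_of_eq ?_)
    simp only [hδ]
    field_simp
  have h3 : ∏ i ∈ range n, ENNReal.ofReal (phi ν (δ i) * phi ν (-δ i)) ≤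
      ENNReal.ofReal (Real.exp 1) := by
    rw [← ENNReal.ofReal_prod_of_nonneg fun i _ =>
      (mul_pos (phi_pos hν _) (phi_pos hν _)).le]
    apply ENNReal.ofReal_le_ofReal
    calc ∏ i ∈ range n, phi ν (δ i) * phi ν (-δ i) ≤ ∏ i ∈ range n, Real.exp (C * δ i ^ 2) := by
          apply Finset.prod_le_prod
          · intro i _
            exact (mul_pos (phi_pos hν _) (phi_pos hν _)).le
          · intro i _
            exact phi_cost hν (δ i) (by rw [abs_of_nonneg (hδn i)]; exact (hδu i).trans hδ1)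
      _ = Real.exp (∑ i ∈ range n, C * δ i ^ 2) := (Real.exp_sum _ _).symm
      _ ≤ Real.exp 1 := by
          apply Real.exp_le_exp.2
          have e1 : ∑ i ∈ range n, C * δ i ^ 2 = C / c ^ 2 * ∑ i ∈ range n, y i ^ 2 := by
            rw [Finset.mul_sum]
            apply Finset.sum_congr rfl
            intro i _
            simp only [hδ]
            field_simp
          rw [e1]
          have e2 : ε1 * J ≤ c ^ 2 / (C * (J + 1)) * J := by
            gcongr
            exact min_le_right _ _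
          have e3 : C / c ^ 2 * (c ^ 2 / (C * (J + 1)) * J) = J / (J + 1) := by
            field_simp
          have e4 : (J : ℝ) / (J + 1) ≤ 1 := by
            rw [div_le_one (by positivity)]; linarith
          calc C / c ^ 2 * ∑ i ∈ range n, y i ^ 2 ≤ C / c ^ 2 * (c ^ 2 / (C * (J + 1)) * J) := by
                gcongr
                exact hys.trans e2
            _ ≤ 1 := by rw [e3]; exact e4
  calc (HF P ρ n (fun i => aw ν β (δ i)) (fun _ => 1) ρ *
        ∏ i ∈ range n, ENNReal.ofReal (phi ν (δ i) * phi ν (-δ i))) ^ (1 / 2 : ℝ)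
      ≤ ((15 / 16) ^ J * ENNReal.ofReal (Real.exp 1)) ^ (1 / 2 : ℝ) := by
        apply ENNReal.rpow_le_rpow _ (by norm_num)
        exact mul_le_mul' h2 h3
    _ ≤ (ε ^ (2 : ℝ)) ^ (1 / 2 : ℝ) := ENNReal.rpow_le_rpow hJ.le (by norm_num)
    _ = ε := by rw [← ENNReal.rpow_mul]; norm_num

end

end Q293.PolyTilt
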