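import Pool.Agent.Q293.PolyFrac
import Mathlib.Probability.Martingale.Convergence

/-!
# Almost sure convergence of the normalised partition function
-/

set_option autoImplicit false
set_option linter.unusedSectionVars false

open Filter Topology Finset MeasureTheory ProbabilityTheory

namespace Q293.PolyTilt

open Q293.Polymer Q293.PolyRet

variable {V : Type} [Countable V] {P : V → PMF V}

lemma W_congr (ν : Measure ℝ) (β : ℝ) (n : ℕ) : ∀ (ω ω' : ℕ → V → ℝ) (x : V),
    (∀ i < n, ω i = ω' i) → W P ν β ω n x = W P ν β ω' n x := by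
  induction n with
  | zero => intro ω ω' x _; rw [W_zero, W_zero]
  | succ n ih =>
    intro ω ω' x h
    rw [W_succ, W_succ]
    apply tsum_congr
    intro y
    rw [h 0 (by omega), ih (fun i => ω (1 + i)) (fun i => ω' (1 + i)) y
      fun i hi => h (1 + i) (by omega)]

lemma lint_concat (ν : Measure ℝ) [IsProbabilityMeasure ν] (Φ : (ℕ → V → ℝ) → ENNReal)
    (hΦ : Measurable Φ) : ∫⁻ ω, Φ ω ∂(env V ν)
      = ∫⁻ ω1, ∫⁻ ω2, Φ (LinWalk.concat 1 (ω1, ω2)) ∂(env V ν) ∂(env V ν) := by
  unfold env
  conv_lhs => rw [← LinWalk.map_concat (Measure.infinitePi (fun _ : V => ν)) 1]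
  rw [lintegral_map hΦ (LinWalk.measurable_concat 1)]
  exact lintegral_prod (fun a => Φ (LinWalk.concat 1 a))
    (hΦ.comp (LinWalk.measurable_concat 1)).aemeasurable

lemma concat_zero (p : (ℕ → V → ℝ) × (ℕ → V → ℝ)) : LinWalk.concat 1 p 0 = p.1 0 := rfl

lemma concat_succ (p : (ℕ → V → ℝ) × (ℕ → V → ℝ)) (i : ℕ) :
    LinWalk.concat 1 p (1 + i) = p.2 i := by
  unfold LinWalk.concat
  rw [if_neg (by omega), Nat.add_sub_cancel_left]

section

variable {ν : Measure ℝ} (hν : EnvLaw ν)
include hν

lemma prob_env : IsProbabilityMeasure (env V ν) := by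
  have := hν.prob
  unfold env
  infer_instance

lemma mean_one (β : ℝ) (n : ℕ) : ∀ x, ∫⁻ ω, W P ν β ω n x ∂(env V ν) = 1 := by
  have := hν.prob
  have := prob_env (V := V) hν
  induction n with
  | zero => intro x; simp [W_zero]
  | succ n ih =>
    intro x
    simp only [W_succ]
    have hshift : Measurable (fun (ω : ℕ → V → ℝ) (i : ℕ) => ω (1 + i)) :=
      measurable_pi_lambda _ fun i => measurable_pi_apply (1 + i)
    rw [lintegral_tsum]
    · have h1 : ∀ y, ∫⁻ ω : ℕ → V → ℝ, P x y * (ENNReal.ofReal (Real.exp (β * ω 0 y - Lam ν β)) *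
          W P ν β (fun i => ω (1 + i)) n y) ∂(env V ν) = P x y := by
        intro y
        rw [lintegral_const_mul' _ _ ((P x).apply_ne_top y)]
        rw [lintegral_env ν (fun η => ENNReal.ofReal (Real.exp (β * η y - Lam ν β)))
          (fun ω => W P ν β ω n y) (measurable_e ν β y) (measurable_W P ν β n y), ih,
          lint_single hν (fun t => ENNReal.ofReal (Real.exp (β * t - Lam ν β)))
          (measurable_exp1 β) y, lint_e hν]
        simp
      simp_rw [h1]
      exact (P x).tsum_coe
    · intro y
      apply Measurable.aemeasurable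
      apply Measurable.const_mul
      exact ((measurable_e ν β y).comp (measurable_pi_apply 0)).mul
        ((measurable_W P ν β n y).comp hshift)

/-- martingale property tested against functions of the past -/
lemma mart_test (β : ℝ) (n : ℕ) : ∀ (G : (ℕ → V → ℝ) → ENNReal) (x : V), Measurable G →
    (∀ ω ω' : ℕ → V → ℝ, (∀ i < n, ω i = ω' i) → G ω = G ω') →
    ∫⁻ ω, G ω * W P ν β ω (n + 1) x ∂(env V ν) = ∫⁻ ω, G ω * W P ν β ω n x ∂(env V ν) := by
  have := hν.prob
  have := prob_env (V := V) hν
  induction n with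
  | zero =>
    intro G x hG h
    have h1 : ∀ ω, G ω = G (fun _ _ => 0) := fun ω => h ω _ fun i hi => absurd hi (by omega)
    have h2 : (fun ω => G ω * W P ν β ω (0 + 1) x) = fun ω => G (fun _ _ => 0) * W P ν β ω (0 + 1) x := by
      funext ω; rw [h1 ω]
    have h3 : (fun ω => G ω * W P ν β ω 0 x) = fun ω => G (fun _ _ => 0) * W P ν β ω 0 x := by
      funext ω; rw [h1 ω]
    rw [h2, h3, lintegral_const_mul _ (measurable_W P ν β _ x),
      lintegral_const_mul _ (measurable_W P ν β _ x), mean_one hν, mean_one hν]
  | succ n ih =>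
    intro G x hG h
    have hshift : Measurable (fun (ω : ℕ → V → ℝ) (i : ℕ) => ω (1 + i)) :=
      measurable_pi_lambda _ fun i => measurable_pi_apply (1 + i)
    have key : ∀ m, ∫⁻ ω, G ω * W P ν β ω (m + 1) x ∂(env V ν)
        = ∑' y, P x y * ∫⁻ ω1 : ℕ → V → ℝ, ENNReal.ofReal (Real.exp (β * ω1 0 y - Lam ν β)) *
          ∫⁻ ω2, G (LinWalk.concat 1 (ω1, ω2)) * W P ν β ω2 m y ∂(env V ν) ∂(env V ν) := by
      intro m
      simp only [W_succ, ← ENNReal.tsum_mul_left]
      rw [lintegral_tsum]
      · apply tsum_congr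
        intro y
        have e1 : ∀ ω : ℕ → V → ℝ, G ω * (P x y * (ENNReal.ofReal
            (Real.exp (β * ω 0 y - Lam ν β)) * W P ν β (fun i => ω (1 + i)) m y))
            = P x y * (ENNReal.ofReal (Real.exp (β * ω 0 y - Lam ν β)) *
              (G ω * W P ν β (fun i => ω (1 + i)) m y)) := by
          intro ω; ring
        simp_rw [e1]
        rw [lintegral_const_mul' _ _ ((P x).apply_ne_top y)]
        congr 1
        rw [lint_concat ν]
        · apply lintegral_congr
          intro ω1
          rw [← lintegral_const_mul' _ _ ENNReal.ofReal_ne_top]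
          apply lintegral_congr
          intro ω2
          rw [concat_zero]
          simp only [concat_succ]
        · exact ((measurable_e ν β y).comp (measurable_pi_apply 0)).mul
            (hG.mul ((measurable_W P ν β m y).comp hshift))
      · intro y
        apply Measurable.aemeasurable
        apply hG.mul
        apply Measurable.const_mul
        exact ((measurable_e ν β y).comp (measurable_pi_apply 0)).mul
          ((measurable_W P ν β m y).comp hshift)
    rw [key, key]
    apply tsum_congr
    intro y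
    congr 1
    apply lintegral_congr
    intro ω1
    congr 1
    apply ih (fun ω2 => G (LinWalk.concat 1 (ω1, ω2))) y
    · exact hG.comp ((LinWalk.measurable_concat 1).comp measurable_prodMk_left)
    · intro ω ω' hω
      apply h
      intro i hi
      rcases i with _ | i
      · rfl
      · rw [show i + 1 = 1 + i by ring, concat_succ, concat_succ]
        exact hω i (by omega)

end

/-- restriction to the first slices -/
def restr (n : ℕ) (ω : ℕ → V → ℝ) : Fin n → V → ℝ := fun i => ω i

/-- extension by zero -/
def extz (n : ℕ) (η : Fin n → V → ℝ) : ℕ → V → ℝ := fun i => if h : i < n then η ⟨i, h⟩ else 0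

lemma measurable_restr (n : ℕ) : Measurable (restr (V := V) n) :=
  measurable_pi_lambda _ fun i => measurable_pi_apply (i : ℕ)

lemma measurable_extz (n : ℕ) : Measurable (extz (V := V) n) := by
  apply measurable_pi_lambda
  intro i
  unfold extz
  by_cases h : i < n
  · simp only [h, dif_pos]
    exact measurable_pi_apply _
  · simp only [h, dif_neg, not_false_eq_true]
    exact measurable_const

lemma extz_restr (n : ℕ) (ω : ℕ → V → ℝ) (i : ℕ) (hi : i < n) : extz n (restr n ω) i = ω i := by
  unfold extz restr
  rw [dif_pos hi]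

/-- the filtration of the slices -/
def filt (V : Type) [Countable V] : Filtration ℕ
    (MeasurableSpace.pi : MeasurableSpace (ℕ → V → ℝ)) where
  seq n := MeasurableSpace.comap (restr n) inferInstance
  mono' := by
    intro m n hmn
    have h : restr (V := V) m = (fun η : Fin n → V → ℝ => fun i : Fin m => η ⟨i, by omega⟩) ∘ restr n := by
      funext ω i; rfl
    simp only
    rw [h, ← MeasurableSpace.comap_comp]
    apply MeasurableSpace.comap_mono
    apply Measurable.comap_le
    exact measurable_pi_lambda _ fun i => measurable_pi_apply _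
  le' := fun n => (measurable_restr n).comap_le

section

variable {ν : Measure ℝ} (hν : EnvLaw ν)
include hν

lemma submart (β : ℝ) (x : V) : Submartingale (fun n ω => (W P ν β ω n x).toReal) (filt V)
    (env V ν) := by
  have := prob_env (V := V) hν
  have hfin : ∀ n, ∀ᵐ ω ∂(env V ν), W P ν β ω n x < ⊤ := by
    intro n
    apply ae_lt_top (measurable_W P ν β n x)
    rw [mean_one hν]
    exact ENNReal.one_ne_top
  apply submartingale_of_setIntegral_le_succ
  · intro n
    apply Measurable.stronglyMeasurable
    have h : (fun ω : ℕ → V → ℝ => (W P ν β ω n x).toReal)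
        = (fun η => (W P ν β (extz n η) n x).toReal) ∘ restr n := by
      funext ω
      simp only [Function.comp]
      congr 1
      exact W_congr ν β n _ _ x fun i hi => (extz_restr n ω i hi).symm
    show Measurable[(filt V) n] (fun ω : ℕ → V → ℝ => (W P ν β ω n x).toReal)
    rw [h]
    have hg : Measurable (fun η : Fin n → V → ℝ => (W P ν β (extz n η) n x).toReal) :=
      ((measurable_W P ν β n x).comp (measurable_extz n)).ennreal_toReal
    exact hg.comp (comap_measurable (restr (V := V) n))
  · intro n
    apply integrable_toReal_of_lintegral_ne_top (measurable_W P ν β n x).aemeasurable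
    rw [mean_one hν]
    exact ENNReal.one_ne_top
  · intro n s hs
    obtain ⟨t, ht, rfl⟩ := hs
    have hm : MeasurableSet (restr (V := V) n ⁻¹' t) := measurable_restr n ht
    rw [integral_toReal (measurable_W P ν β n x).aemeasurable (ae_restrict_of_ae (hfin n)),
      integral_toReal (measurable_W P ν β (n + 1) x).aemeasurable
        (ae_restrict_of_ae (hfin (n + 1)))]
    apply le_of_eq
    congr 1
    have h := mart_test hν (P := P) β n ((restr (V := V) n ⁻¹' t).indicator 1) x
      (measurable_one.indicator hm) (by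
        intro ω ω' hω
        have h1 : restr n ω = restr n ω' := by
          funext i
          exact hω i i.2
        have h2 : ω ∈ restr (V := V) n ⁻¹' t ↔ ω' ∈ restr (V := V) n ⁻¹' t := by
          simp only [Set.mem_preimage, h1]
        by_cases h3 : ω ∈ restr (V := V) n ⁻¹' t
        · rw [Set.indicator_of_mem h3, Set.indicator_of_mem (h2.1 h3)]; rfl
        · rw [Set.indicator_of_notMem h3, Set.indicator_of_notMem (fun h4 => h3 (h2.2 h4))])
    have e : ∀ m, ∫⁻ ω in restr (V := V) n ⁻¹' t, W P ν β ω m x ∂(env V ν)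
        = ∫⁻ ω, (restr (V := V) n ⁻¹' t).indicator 1 ω * W P ν β ω m x ∂(env V ν) := by
      intro m
      rw [← lintegral_indicator hm]
      apply lintegral_congr
      intro ω
      simp only [Set.indicator]
      split_ifs <;> simp
    rw [e, e, h]

/-- almost sure convergence -/
lemma ae_conv (β : ℝ) (x : V) : ∀ᵐ ω ∂(env V ν), ∃ c : ℝ,
    Tendsto (fun n => (W P ν β ω n x).toReal) atTop (𝓝 c) := by
  have := prob_env (V := V) hν
  apply (submart hν (P := P) β x).exists_ae_tendsto_of_bdd (R := 1)
  intro n
  rw [eLpNorm_one_eq_lintegral_enorm]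
  calc ∫⁻ ω, ‖(W P ν β ω n x).toReal‖ₑ ∂(env V ν) ≤ ∫⁻ ω, W P ν β ω n x ∂(env V ν) := by
        apply lintegral_mono
        intro ω
        simp only
        rw [Real.enorm_eq_ofReal ENNReal.toReal_nonneg]
        exact ENNReal.ofReal_toReal_le
    _ = 1 := mean_one hν β n x
    _ ≤ _ := by simp

end

/-- the partition function vanishes in the limit -/
theorem W_tendsto_zero [DecidableEq V] {ρ : V} {σ : V → ℕ} (h : RetHyp P ρ σ) {ν : Measure ℝ}
    (hν : EnvLaw ν) (β : ℝ) (hβ : 0 < β) :
    ∀ᵐ ω ∂(env V ν), Tendsto (fun n => W P ν β ω n ρ) atTop (𝓝 0) := by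
  have := prob_env (V := V) hν
  have hfin : ∀ n, ∀ᵐ ω ∂(env V ν), W P ν β ω n ρ < ⊤ := by
    intro n
    apply ae_lt_top (measurable_W P ν β n ρ)
    rw [mean_one hν]
    exact ENNReal.one_ne_top
  have hF : ∫⁻ ω, liminf (fun n => (W P ν β ω n ρ) ^ (1 / 2 : ℝ)) atTop ∂(env V ν) = 0 := by
    have h1 := lintegral_liminf_le (μ := env V ν) (u := atTop)
      (f := fun (n : ℕ) (ω : ℕ → V → ℝ) => (W P ν β ω n ρ) ^ (1 / 2 : ℝ))
      fun n => (measurable_W P ν β n ρ).pow_const _
    rw [← nonpos_iff_eq_zero]
    refine h1.trans ?_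
    apply le_of_forall_pos_le_add
    intro ε hε
    rw [zero_add]
    apply liminf_le_of_frequently_le'
    rw [Filter.frequently_atTop]
    intro N0
    obtain ⟨n, hn, hn2⟩ := half_moment_small hν h β hβ N0 ε hε
    exact ⟨n, hn, hn2⟩
  rw [lintegral_eq_zero_iff] at hF
  · filter_upwards [hF, ae_conv hν (P := P) β ρ, ae_all_iff.2 hfin] with ω h1 h2 h3
    obtain ⟨c, hc⟩ := h2
    have h4 : Tendsto (fun n => W P ν β ω n ρ) atTop (𝓝 (ENNReal.ofReal c)) := by
      have h5 := ENNReal.tendsto_ofReal hc
      refine h5.congr fun n => ?_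
      exact ENNReal.ofReal_toReal (h3 n).ne
    have h6 : Tendsto (fun n => (W P ν β ω n ρ) ^ (1 / 2 : ℝ)) atTop
        (𝓝 ((ENNReal.ofReal c) ^ (1 / 2 : ℝ))) := (ENNReal.continuous_rpow_const.tendsto _).comp h4
    have h7 := h6.liminf_eq
    simp only [Pi.zero_apply] at h1
    rw [h1] at h7
    have h8 : ENNReal.ofReal c = 0 := by
      by_contra hne
      have := ENNReal.rpow_pos (p := (1 / 2 : ℝ)) (pos_iff_ne_zero.2 hne) ENNReal.ofReal_ne_top
      rw [← h7] at this
      exact lt_irrefl _ this
    rw [h8] at h4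
    exact h4
  · exact Measurable.liminf fun n => (measurable_W P ν β n ρ).pow_const _

end Q293.PolyTilt
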