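import Pool.Agent.Q293.Polymer

/-!
# Returns to a point of a Markov chain and the associated survival functional
-/

set_option autoImplicit false
set_option linter.unusedSectionVars false

open Filter Topology Finset

namespace Q293.PolyRet

variable {V : Type} [DecidableEq V] (P : V → PMF V) (ρ : V)

/-- probability to be at `ρ` after `n` steps -/
noncomputable def p : ℕ → V → ENNReal
  | 0, x => if x = ρ then 1 else 0
  | n + 1, x => ∑' y, P x y * p n y

/-- probability to visit `ρ` during the steps `1, ..., t` -/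
noncomputable def F : ℕ → V → ENNReal
  | 0, _ => 0
  | t + 1, x => ∑' y, P x y * (if y = ρ then 1 else F t y)

/-- expectation of the product of the `a i` over the visits to `ρ` at time `i + 1`, times `f (S_n)` -/
noncomputable def HF : ℕ → (ℕ → ENNReal) → (V → ENNReal) → V → ENNReal
  | 0, _, f, x => f x
  | n + 1, a, f, x => ∑' y, P x y * ((if y = ρ then a 0 else 1) * HF n (fun i => a (1 + i)) f y)

/-- points reached after `n` steps -/
def Rch : ℕ → V → Set V
  | 0, x => {x}
  | n + 1, x => {z | ∃ y, P x y ≠ 0 ∧ z ∈ Rch n y}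

lemma tsum_P_one (x : V) : ∑' y, P x y = 1 := (P x).tsum_coe

lemma tsum_P_const (x : V) (c : ENNReal) : ∑' y, P x y * c = c := by
  rw [ENNReal.tsum_mul_right, tsum_P_one, one_mul]

lemma p_le_one (n : ℕ) : ∀ x, p P ρ n x ≤ 1 := by
  induction n with
  | zero => intro x; unfold p; split_ifs <;> simp
  | succ n ih =>
    intro x
    unfold p
    calc ∑' y, P x y * p P ρ n y ≤ ∑' y, P x y * 1 :=
          ENNReal.tsum_le_tsum fun y => mul_le_mul_right (ih y) _
      _ = 1 := tsum_P_const P x 1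

lemma F_le_one (n : ℕ) : ∀ x, F P ρ n x ≤ 1 := by
  induction n with
  | zero => intro x; unfold F; simp
  | succ n ih =>
    intro x
    unfold F
    calc ∑' y, P x y * (if y = ρ then 1 else F P ρ n y) ≤ ∑' y, P x y * 1 := by
          refine ENNReal.tsum_le_tsum fun y => mul_le_mul_right ?_ _
          split_ifs
          · exact le_refl 1
          · exact ih y
      _ = 1 := tsum_P_const P x 1

lemma F_mono_succ (n : ℕ) : ∀ x, F P ρ n x ≤ F P ρ (n + 1) x := by
  induction n with
  | zero => intro x; simp [F]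
  | succ n ih =>
    intro x
    rw [F, F]
    refine ENNReal.tsum_le_tsum fun y => mul_le_mul_right ?_ _
    split_ifs
    · exact le_refl 1
    · exact ih y

lemma F_mono (x : V) : Monotone fun n => F P ρ n x :=
  monotone_nat_of_le_succ fun n => F_mono_succ P ρ n x

lemma HF_add (n : ℕ) : ∀ (m : ℕ) (a : ℕ → ENNReal) (f : V → ENNReal) (x : V),
    HF P ρ (n + m) a f x = HF P ρ n a (fun y => HF P ρ m (fun i => a (n + i)) f y) x := by
  induction n with
  | zero =>
    intro m a f x
    rw [HF]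
    simp only [Nat.zero_add]
  | succ n ih =>
    intro m a f x
    have h : n + 1 + m = (n + m) + 1 := by ring
    rw [h, HF, HF]
    apply tsum_congr
    intro y
    rw [ih]
    have h2 : ∀ i, 1 + (n + i) = n + 1 + i := fun i => by ring
    simp only [h2]

lemma HF_mono_a (n : ℕ) : ∀ (a a' : ℕ → ENNReal) (f : V → ENNReal) (x : V),
    (∀ i < n, a i ≤ a' i) → HF P ρ n a f x ≤ HF P ρ n a' f x := by
  induction n with
  | zero => intro a a' f x _; exact le_refl _
  | succ n ih =>
    intro a a' f x h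
    rw [HF, HF]
    refine ENNReal.tsum_le_tsum fun y => mul_le_mul_right (mul_le_mul' ?_ ?_) _
    · split_ifs
      · exact h 0 (by omega)
      · exact le_refl 1
    · exact ih _ _ _ _ fun i hi => h (1 + i) (by omega)

lemma HF_le_reach (n : ℕ) : ∀ (a : ℕ → ENNReal) (f g : V → ENNReal) (x : V) (c : ENNReal),
    (∀ y ∈ Rch P n x, f y ≤ c * g y) → HF P ρ n a f x ≤ c * HF P ρ n a g x := by
  induction n with
  | zero => intro a f g x c h; exact h x (by simp [Rch])
  | succ n ih =>
    intro a f g x c h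
    rw [HF, HF, ← ENNReal.tsum_mul_left]
    refine ENNReal.tsum_le_tsum fun y => ?_
    by_cases hy : P x y = 0
    · rw [hy]; simp
    have h2 := ih (fun i => a (1 + i)) f g y c fun z hz => h z ⟨y, hy, hz⟩
    calc P x y * ((if y = ρ then a 0 else 1) * HF P ρ n (fun i => a (1 + i)) f y)
        ≤ P x y * ((if y = ρ then a 0 else 1) * (c * HF P ρ n (fun i => a (1 + i)) g y)) := by
          gcongr
      _ = c * (P x y * ((if y = ρ then a 0 else 1) * HF P ρ n (fun i => a (1 + i)) g y)) := by
          ring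

lemma HF_zero_y (n : ℕ) : ∀ x, HF P ρ n (fun _ => 1) (fun _ => 1) x = 1 := by
  induction n with
  | zero => intro x; rfl
  | succ n ih =>
    intro x
    rw [HF]
    simp only [ih, ite_self, mul_one]
    exact tsum_P_one P x

lemma HF_le_one (n : ℕ) (a : ℕ → ENNReal) (ha : ∀ i, a i ≤ 1) (x : V) :
    HF P ρ n a (fun _ => 1) x ≤ 1 := by
  conv_rhs => rw [← HF_zero_y P ρ n x]
  exact HF_mono_a P ρ n _ _ _ _ fun i _ => ha i

lemma p_one (x : V) : p P ρ 1 x = P x ρ := by
  rw [p, tsum_eq_single ρ]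
  · simp [p]
  · intro y hy; simp [p, hy]

/-- decomposition at the first interaction -/
lemma H_identity (n : ℕ) : ∀ (a y : ℕ → ENNReal), (∀ i, a i + y i = 1) → ∀ x,
    HF P ρ n a (fun _ => 1) x + ∑ k ∈ range n, y k * p P ρ (k + 1) x *
      HF P ρ (n - k - 1) (fun i => a (k + 1 + i)) (fun _ => 1) ρ = 1 := by
  induction n with
  | zero => intro a y _ x; simp [HF]
  | succ n ih =>
    intro a y h x
    rw [Finset.sum_range_succ']
    have ih2 := ih (fun i => a (1 + i)) (fun i => y (1 + i)) fun i => h (1 + i)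
    have h0 : y 0 * p P ρ (0 + 1) x * HF P ρ (n + 1 - 0 - 1) (fun i => a (0 + 1 + i)) (fun _ => 1) ρ
        = ∑' z, P x z * ((if z = ρ then y 0 else 0) *
          HF P ρ n (fun i => a (1 + i)) (fun _ => 1) z) := by
      rw [tsum_eq_single ρ]
      · rw [if_pos rfl]
        simp only [Nat.zero_add, Nat.sub_zero, Nat.add_sub_cancel]
        rw [p_one]
        ring
      · intro z hz; rw [if_neg hz]; simp
    have h1 : ∑ k ∈ range n, y (k + 1) * p P ρ (k + 1 + 1) x *
        HF P ρ (n + 1 - (k + 1) - 1) (fun i => a (k + 1 + 1 + i)) (fun _ => 1) ρ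
        = ∑' z, P x z * ∑ k ∈ range n, y (1 + k) * p P ρ (k + 1) z *
          HF P ρ (n - k - 1) (fun i => a (1 + (k + 1 + i))) (fun _ => 1) ρ := by
      simp only [Finset.mul_sum]
      rw [Summable.tsum_finsetSum fun i _ => ENNReal.summable]
      apply Finset.sum_congr rfl
      intro k _
      rw [show n + 1 - (k + 1) - 1 = n - k - 1 by omega]
      have e1 : ∀ i, k + 1 + 1 + i = 1 + (k + 1 + i) := fun i => by ring
      simp only [e1]
      rw [show k + 1 = 1 + k by ring, p, ← ENNReal.tsum_mul_left, ← ENNReal.tsum_mul_right]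
      apply tsum_congr
      intro z
      rw [show 1 + k = k + 1 by ring]
      ring
    rw [h0, h1, HF, ← ENNReal.tsum_add, ← ENNReal.tsum_add]
    refine Eq.trans ?_ (tsum_P_one P x)
    apply tsum_congr
    intro z
    have h2 : (if z = ρ then a 0 else 1) + (if z = ρ then y 0 else 0) = 1 := by
      split_ifs
      · exact h 0
      · simp
    calc P x z * ((if z = ρ then a 0 else 1) * HF P ρ n (fun i => a (1 + i)) (fun _ => 1) z) +
          (P x z * ∑ k ∈ range n, y (1 + k) * p P ρ (k + 1) z *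
            HF P ρ (n - k - 1) (fun i => a (1 + (k + 1 + i))) (fun _ => 1) ρ +
          P x z * ((if z = ρ then y 0 else 0) * HF P ρ n (fun i => a (1 + i)) (fun _ => 1) z))
        = P x z * (((if z = ρ then a 0 else 1) + (if z = ρ then y 0 else 0)) *
            HF P ρ n (fun i => a (1 + i)) (fun _ => 1) z +
          ∑ k ∈ range n, y (1 + k) * p P ρ (k + 1) z *
            HF P ρ (n - k - 1) (fun i => a (1 + (k + 1 + i))) (fun _ => 1) ρ) := by ring
      _ = P x z := by rw [h2, one_mul, ih2 z, mul_one]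

/-- recurrence estimate -/
lemma sum_p_le (n : ℕ) : ∀ x, ∑ k ∈ range n, p P ρ (k + 1) x ≤
    F P ρ n x * ∑ k ∈ range n, p P ρ k ρ := by
  induction n with
  | zero => intro x; simp
  | succ n ih =>
    intro x
    have h1 : ∑ k ∈ range (n + 1), p P ρ (k + 1) x
        = ∑' y, P x y * ∑ k ∈ range (n + 1), p P ρ k y := by
      simp only [Finset.mul_sum]
      rw [Summable.tsum_finsetSum fun i _ => ENNReal.summable]
      apply Finset.sum_congr rfl
      intro k _
      rw [p]
    rw [h1, F, ← ENNReal.tsum_mul_right]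
    refine ENNReal.tsum_le_tsum fun y => ?_
    rw [mul_assoc]
    refine mul_le_mul_right ?_ _
    by_cases hy : y = ρ
    · rw [if_pos hy, one_mul, hy]
    · rw [if_neg hy, Finset.sum_range_succ']
      have : p P ρ 0 y = 0 := by rw [p, if_neg hy]
      rw [this, add_zero]
      refine (ih y).trans ?_
      refine mul_le_mul_right ?_ _
      rw [Finset.sum_range_succ]
      exact le_self_add

lemma F_le_iSup (x : V) (t : ℕ) : F P ρ (t + 1) x ≤
    ∑' y, P x y * (if y = ρ then 1 else ⨆ t, F P ρ t y) := by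
  rw [F]
  refine ENNReal.tsum_le_tsum fun y => mul_le_mul_right ?_ _
  split_ifs
  · exact le_refl 1
  · exact le_iSup (fun t => F P ρ t y) t

lemma iSup_F_le_one (x : V) : ⨆ t, F P ρ t x ≤ 1 := iSup_le fun t => F_le_one P ρ t x

/-- if the return probability from `x` is one, so it is from its neighbours -/
lemma iSup_F_step (x y : V) (hx : ⨆ t, F P ρ t x = 1) (hρ : ⨆ t, F P ρ t ρ = 1) (hy : P x y ≠ 0) :
    ⨆ t, F P ρ t y = 1 := by
  by_cases hyr : y = ρ
  · rw [hyr, hρ]
  by_contra hne
  have hlt : ⨆ t, F P ρ t y < 1 := lt_of_le_of_ne (iSup_F_le_one P ρ y) hne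
  have h1 : (1 : ENNReal) ≤ ∑' z, P x z * (if z = ρ then 1 else ⨆ t, F P ρ t z) := by
    refine hx.symm.le.trans (iSup_le fun t => ?_)
    exact (F_mono_succ P ρ t x).trans (F_le_iSup P ρ x t)
  have h2 : ∑' z, P x z * (if z = ρ then 1 else ⨆ t, F P ρ t z) < ∑' z, P x z := by
    apply ENNReal.tsum_lt_tsum (i := y)
    · refine ne_top_of_le_ne_top ENNReal.one_ne_top (le_trans ?_ (le_of_eq (tsum_P_one P x)))
      refine ENNReal.tsum_le_tsum fun z => ?_
      conv_rhs => rw [← mul_one (P x z)]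
      refine mul_le_mul_right ?_ _
      split_ifs
      · exact le_refl 1
      · exact iSup_F_le_one P ρ z
    · intro z
      conv_rhs => rw [← mul_one (P x z)]
      refine mul_le_mul_right ?_ _
      split_ifs
      · exact le_refl 1
      · exact iSup_F_le_one P ρ z
    · rw [if_neg hyr]
      conv_rhs => rw [← mul_one (P x y)]
      exact ENNReal.mul_lt_mul_right hy ((P x).apply_ne_top y) hlt
  rw [tsum_P_one] at h2
  exact absurd h2 (not_lt.2 h1)

lemma iSup_F_reach (n : ℕ) : ∀ x, ⨆ t, F P ρ t x = 1 → ⨆ t, F P ρ t ρ = 1 →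
    ∀ z ∈ Rch P n x, ⨆ t, F P ρ t z = 1 := by
  induction n with
  | zero => intro x hx _ z hz; simp only [Rch, Set.mem_singleton_iff] at hz; rw [hz, hx]
  | succ n ih =>
    intro x hx hr z hz
    obtain ⟨y, hy, hzy⟩ := hz
    exact ih y (iSup_F_step P ρ x y hx hr hy) hr z hzy

/-- recurrence at `ρ` -/
lemma iSup_F_root (hU : ∑' n, p P ρ n ρ = ⊤) : ⨆ t, F P ρ t ρ = 1 := by
  by_contra hne
  have hlt : ⨆ t, F P ρ t ρ < 1 := lt_of_le_of_ne (iSup_F_le_one P ρ ρ) hne
  obtain ⟨c, hc1, hc2⟩ := exists_between hlt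
  have hc0 : (1 : ENNReal) - c ≠ 0 := (tsub_pos_of_lt hc2).ne'
  have hct : c ≠ ⊤ := (hc2.trans ENNReal.one_lt_top).ne
  have hbd : ∀ n, ∑ k ∈ range n, p P ρ k ρ ≤ (1 - c)⁻¹ := by
    intro n
    have hfin : ∑ k ∈ range (n + 1), p P ρ k ρ ≠ ⊤ := by
      refine (ENNReal.sum_lt_top.2 fun k _ => ?_).ne
      exact lt_of_le_of_lt (p_le_one P ρ k ρ) ENNReal.one_lt_top
    have h1 : ∑ k ∈ range (n + 1), p P ρ k ρ ≤ 1 + c * ∑ k ∈ range (n + 1), p P ρ k ρ := by
      conv_lhs => rw [Finset.sum_range_succ']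
      rw [add_comm]
      refine add_le_add (p_le_one P ρ 0 ρ) ?_
      refine (sum_p_le P ρ n ρ).trans ?_
      refine mul_le_mul' ?_ ?_
      · exact (le_iSup (fun t => F P ρ t ρ) n).trans hc1.le
      · rw [Finset.sum_range_succ]; exact le_self_add
    have h2 : (1 - c) * ∑ k ∈ range (n + 1), p P ρ k ρ ≤ 1 := by
      rw [ENNReal.sub_mul (fun _ _ => hfin), one_mul]
      rw [tsub_le_iff_right]
      exact h1
    calc ∑ k ∈ range n, p P ρ k ρ ≤ ∑ k ∈ range (n + 1), p P ρ k ρ := by
          rw [Finset.sum_range_succ]; exact le_self_add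
      _ ≤ (1 - c)⁻¹ := by
          rw [ENNReal.le_inv_iff_mul_le]
          rw [mul_comm]
          exact h2
  have h3 : ∑' n, p P ρ n ρ ≤ (1 - c)⁻¹ := by
    rw [ENNReal.tsum_eq_iSup_nat]
    exact iSup_le hbd
  rw [hU] at h3
  exact absurd (top_le_iff.1 h3) (ENNReal.inv_ne_top.2 hc0)

end Q293.PolyRet
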