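import Pool.Agent.Q293.PolyBlock

/-!
# Change of measure along the returns to a point
-/

set_option autoImplicit false
set_option linter.unusedSectionVars false

open Filter Topology Finset MeasureTheory ProbabilityTheory

namespace Q293.PolyTilt

open Q293.Polymer Q293.PolyRet

/-- assumptions on the law of one environment variable -/
structure EnvLaw (ν : Measure ℝ) : Prop where
  prob : IsProbabilityMeasure ν
  exp : ∀ s : ℝ, Integrable (fun t => Real.exp (s * t)) ν
  nonconst : ∀ c : ℝ, ¬ ∀ᵐ t ∂ν, t = c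

/-- Laplace transform -/
noncomputable def phi (ν : Measure ℝ) (s : ℝ) : ℝ := ∫ t, Real.exp (s * t) ∂ν

lemma exp_le_quad (s : ℝ) : Real.exp s ≤ 1 + s + s ^ 2 * Real.exp |s| := by
  have h1 : Real.exp s - 1 ≤ s * Real.exp s := by
    have h2 : -s + 1 ≤ Real.exp (-s) := Real.add_one_le_exp (-s)
    have h3 : (-s + 1) * Real.exp s ≤ Real.exp (-s) * Real.exp s :=
      mul_le_mul_of_nonneg_right h2 (Real.exp_pos s).le
    rw [← Real.exp_add] at h3
    simp only [neg_add_cancel, Real.exp_zero] at h3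
    linarith
  have h4 : s * (Real.exp s - 1) ≤ s ^ 2 * Real.exp |s| := by
    rcases le_total 0 s with hs | hs
    · rw [abs_of_nonneg hs]
      nlinarith
    · rw [abs_of_nonpos hs]
      have h5 : s + 1 ≤ Real.exp s := Real.add_one_le_exp s
      have h6 : 1 ≤ Real.exp (-s) := Real.one_le_exp (by linarith)
      have h7 : s * (Real.exp s - 1) ≤ s ^ 2 := by nlinarith
      nlinarith [sq_nonneg s]
  linarith

lemma sq_le_exp (t : ℝ) : t ^ 2 ≤ 2 * Real.exp |t| := by
  have h := Real.quadratic_le_exp_of_nonneg (abs_nonneg t)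
  rw [sq_abs] at h
  have := abs_nonneg t
  linarith

lemma exp_abs_le (s : ℝ) : Real.exp |s| ≤ Real.exp s + Real.exp (-s) := by
  rcases abs_cases s with h | h <;> rw [h.1] <;> linarith [Real.exp_pos s, Real.exp_pos (-s)]

/-- second order bound -/
lemma exp_small (δ t : ℝ) (hδ : |δ| ≤ 1) :
    Real.exp (δ * t) ≤ 1 + δ * t + δ ^ 2 * (2 * (Real.exp (2 * t) + Real.exp (-2 * t))) := by
  refine (exp_le_quad (δ * t)).trans ?_
  have h1 : |δ * t| ≤ |t| := by
    rw [abs_mul]; nlinarith [abs_nonneg t, abs_nonneg δ]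
  have h2 : (δ * t) ^ 2 * Real.exp |δ * t| ≤ δ ^ 2 * (2 * (Real.exp (2 * t) + Real.exp (-2 * t))) := by
    calc (δ * t) ^ 2 * Real.exp |δ * t| ≤ (δ * t) ^ 2 * Real.exp |t| := by gcongr
      _ = δ ^ 2 * (t ^ 2 * Real.exp |t|) := by ring
      _ ≤ δ ^ 2 * ((2 * Real.exp |t|) * Real.exp |t|) := by
          gcongr; exact sq_le_exp t
      _ = δ ^ 2 * (2 * Real.exp |2 * t|) := by
          rw [mul_assoc, ← Real.exp_add, abs_mul]
          congr 4
          norm_num
          ring
      _ ≤ δ ^ 2 * (2 * (Real.exp (2 * t) + Real.exp (-2 * t))) := by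
          gcongr
          have := exp_abs_le (2 * t)
          rw [show -2 * t = -(2 * t) by ring]
          exact this
  linarith

section Law

variable {ν : Measure ℝ} (hν : EnvLaw ν)
include hν

lemma phi_pos (s : ℝ) : 0 < phi ν s := by
  have := hν.prob
  exact integral_exp_pos (hν.exp s)

lemma exp_Lam (β : ℝ) : Real.exp (Lam ν β) = phi ν β := by
  unfold Lam
  exact Real.exp_log (phi_pos hν β)

lemma int_exp' (s c : ℝ) : Integrable (fun t => Real.exp (s * t + c)) ν := by
  have : (fun t => Real.exp (s * t + c)) = fun t => Real.exp (s * t) * Real.exp c := by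
    funext t; rw [Real.exp_add]
  rw [this]
  exact (hν.exp s).mul_const _

lemma int_id_exp (β : ℝ) : Integrable (fun t => t * Real.exp (β * t)) ν := by
  have hb : Integrable (fun t => Real.exp ((β + 1) * t) + Real.exp ((β - 1) * t)) ν :=
    (hν.exp _).add (hν.exp _)
  refine hb.mono' ?_ ?_
  · exact (measurable_id.mul (Real.measurable_exp.comp (measurable_id.const_mul β))).aestronglyMeasurable
  · apply Filter.Eventually.of_forall
    intro t
    rw [Real.norm_eq_abs, abs_mul, abs_of_pos (Real.exp_pos _)]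
    have h1 : |t| ≤ Real.exp t + Real.exp (-t) := by
      have h2 := Real.add_one_le_exp |t|
      have h3 := exp_abs_le t
      linarith
    calc |t| * Real.exp (β * t) ≤ (Real.exp t + Real.exp (-t)) * Real.exp (β * t) := by gcongr
      _ = Real.exp ((β + 1) * t) + Real.exp ((β - 1) * t) := by
        rw [add_mul, ← Real.exp_add, ← Real.exp_add]
        congr 2 <;> ring

lemma int_id : Integrable (fun t : ℝ => t) ν := by
  have h := int_id_exp hν 0
  simpa using h

/-- mean -/
noncomputable def mu (ν : Measure ℝ) : ℝ := ∫ t, t ∂ν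

lemma phi_ge (δ : ℝ) : 1 + δ * mu ν ≤ phi ν δ := by
  have := hν.prob
  have h1 : ∫ t, (1 + δ * t) ∂ν = 1 + δ * mu ν := by
    rw [integral_add (integrable_const 1) ((int_id hν).const_mul δ), integral_const_mul]
    simp [mu]
  rw [← h1]
  exact integral_mono ((integrable_const 1).add ((int_id hν).const_mul δ)) (hν.exp δ)
    fun t => by have := Real.add_one_le_exp (δ * t); simp only; linarith

lemma phi_shift (β δ : ℝ) (hδ : |δ| ≤ 1) : phi ν (β - δ) ≤
    phi ν β - δ * (∫ t, t * Real.exp (β * t) ∂ν) + δ ^ 2 * (2 * (phi ν (β + 2) + phi ν (β - 2))) := by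
  have h1 : ∫ t, (Real.exp (β * t) - δ * (t * Real.exp (β * t)) +
      δ ^ 2 * (2 * (Real.exp ((β + 2) * t) + Real.exp ((β - 2) * t)))) ∂ν
      = phi ν β - δ * (∫ t, t * Real.exp (β * t) ∂ν) +
        δ ^ 2 * (2 * (phi ν (β + 2) + phi ν (β - 2))) := by
    rw [integral_add, integral_sub, integral_const_mul, integral_const_mul, integral_const_mul,
      integral_add]
    · rfl
    · exact hν.exp _
    · exact hν.exp _
    · exact hν.exp _
    · exact (int_id_exp hν β).const_mul δ
    · exact (hν.exp _).sub ((int_id_exp hν β).const_mul δ)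
    · exact (((hν.exp _).add (hν.exp _)).const_mul 2).const_mul _
  rw [← h1]
  apply integral_mono (hν.exp _)
  · exact ((hν.exp _).sub ((int_id_exp hν β).const_mul δ)).add
      ((((hν.exp _).add (hν.exp _)).const_mul 2).const_mul _)
  · intro t
    simp only
    have h2 := exp_small (-δ) t (by rwa [abs_neg])
    have h3 : Real.exp ((β - δ) * t) = Real.exp (β * t) * Real.exp (-δ * t) := by
      rw [← Real.exp_add]; congr 1; ring
    have h4 : Real.exp ((β + 2) * t) = Real.exp (β * t) * Real.exp (2 * t) := by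
      rw [← Real.exp_add]; congr 1; ring
    have h5 : Real.exp ((β - 2) * t) = Real.exp (β * t) * Real.exp (-2 * t) := by
      rw [← Real.exp_add]; congr 1; ring
    rw [h3, h4, h5]
    have h6 := mul_le_mul_of_nonneg_left h2 (Real.exp_pos (β * t)).le
    refine h6.trans (le_of_eq ?_)
    ring

lemma phi_zero : phi ν 0 = 1 := by
  have := hν.prob
  simp [phi]

/-- cost of a small tilt -/
lemma phi_cost (δ : ℝ) (hδ : |δ| ≤ 1) : phi ν δ * phi ν (-δ) ≤
    Real.exp (2 * (2 * (phi ν 2 + phi ν (-2))) * δ ^ 2) := by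
  have h1 := phi_shift hν 0 (-δ) (by rwa [abs_neg])
  have h2 := phi_shift hν 0 δ hδ
  have h3 : ∫ t, t * Real.exp (0 * t) ∂ν = mu ν := by simp [mu]
  rw [h3, phi_zero hν] at h1 h2
  simp only [zero_sub, neg_neg, zero_add] at h1 h2
  set K := 2 * (phi ν 2 + phi ν (-2)) with hK
  have hK0 : 0 < K := by
    have := phi_pos hν 2
    have := phi_pos hν (-2)
    linarith
  have h4 := phi_pos hν δ
  have h5 := phi_pos hν (-δ)
  have h6 : phi ν δ * phi ν (-δ) ≤ (1 + K * δ ^ 2) ^ 2 := by
    have h7 : phi ν δ ≤ (1 + K * δ ^ 2) + δ * mu ν := by nlinarith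
    have h8 : phi ν (-δ) ≤ (1 + K * δ ^ 2) - δ * mu ν := by nlinarith
    calc phi ν δ * phi ν (-δ) ≤ ((1 + K * δ ^ 2) + δ * mu ν) * ((1 + K * δ ^ 2) - δ * mu ν) :=
          mul_le_mul h7 h8 h5.le (by linarith)
      _ ≤ (1 + K * δ ^ 2) ^ 2 := by nlinarith [sq_nonneg (δ * mu ν)]
  refine h6.trans ?_
  have h9 : 1 + K * δ ^ 2 ≤ Real.exp (K * δ ^ 2) := by
    have := Real.add_one_le_exp (K * δ ^ 2); linarith
  have h10 : 0 ≤ 1 + K * δ ^ 2 := by positivity
  calc (1 + K * δ ^ 2) ^ 2 ≤ (Real.exp (K * δ ^ 2)) ^ 2 := pow_le_pow_left₀ h10 h9 2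
    _ = Real.exp (2 * K * δ ^ 2) := by
      rw [← Real.exp_nat_mul]; congr 1; push_cast; ring

/-- strict monotonicity of the logarithmic derivative -/
lemma mean_lt (β : ℝ) (hβ : 0 < β) : mu ν * phi ν β < ∫ t, t * Real.exp (β * t) ∂ν := by
  have := hν.prob
  set c := mu ν with hc
  have hI : Integrable (fun t => (t - c) * (Real.exp (β * t) - Real.exp (β * c))) ν := by
    have : (fun t => (t - c) * (Real.exp (β * t) - Real.exp (β * c)))
        = fun t => (t * Real.exp (β * t) - c * Real.exp (β * t)) - (Real.exp (β * c) * t -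
          c * Real.exp (β * c)) := by
      funext t; ring
    rw [this]
    exact ((int_id_exp hν β).sub ((hν.exp β).const_mul c)).sub
      (((int_id hν).const_mul _).sub (integrable_const _))
  have hE : ∫ t, (t - c) * (Real.exp (β * t) - Real.exp (β * c)) ∂ν
      = (∫ t, t * Real.exp (β * t) ∂ν) - c * phi ν β := by
    have : (fun t => (t - c) * (Real.exp (β * t) - Real.exp (β * c)))
        = fun t => (t * Real.exp (β * t) - c * Real.exp (β * t)) - (Real.exp (β * c) * t -
          c * Real.exp (β * c)) := by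
      funext t; ring
    rw [this]
    have e1 : ∫ t, (t * Real.exp (β * t) - c * Real.exp (β * t)) ∂ν
        = (∫ t, t * Real.exp (β * t) ∂ν) - c * phi ν β := by
      rw [integral_sub (int_id_exp hν β) ((hν.exp β).const_mul c), integral_const_mul]
      rfl
    have e2 : ∫ t, (Real.exp (β * c) * t - c * Real.exp (β * c)) ∂ν = 0 := by
      rw [integral_sub ((int_id hν).const_mul _) (integrable_const _), integral_const_mul]
      have h2 : ∫ t, t ∂ν = c := rfl
      rw [h2]
      simp only [integral_const, probReal_univ, smul_eq_mul, one_mul]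
      ring
    have e3 := integral_sub ((int_id_exp hν β).sub ((hν.exp β).const_mul c))
      (((int_id hν).const_mul (Real.exp (β * c))).sub (integrable_const (c * Real.exp (β * c))))
    simp only [Pi.sub_apply] at e3
    rw [e3, e1, e2, sub_zero]
  have hnn : ∀ t : ℝ, 0 ≤ (t - c) * (Real.exp (β * t) - Real.exp (β * c)) := by
    intro t
    rcases le_total c t with h | h
    · apply mul_nonneg (by linarith)
      have : Real.exp (β * c) ≤ Real.exp (β * t) := Real.exp_le_exp.2 (by gcongr)
      linarith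
    · have : Real.exp (β * t) ≤ Real.exp (β * c) := Real.exp_le_exp.2 (by gcongr)
      nlinarith
  have hne : ∫ t, (t - c) * (Real.exp (β * t) - Real.exp (β * c)) ∂ν ≠ 0 := by
    intro h0
    rw [integral_eq_zero_iff_of_nonneg hnn hI] at h0
    apply hν.nonconst c
    filter_upwards [h0] with t ht
    simp only [Pi.zero_apply, mul_eq_zero] at ht
    rcases ht with ht | ht
    · linarith
    · have h1 : Real.exp (β * t) = Real.exp (β * c) := by linarith
      have h2 := Real.exp_injective h1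
      exact mul_left_cancel₀ hβ.ne' h2
  have h0 : 0 ≤ ∫ t, (t - c) * (Real.exp (β * t) - Real.exp (β * c)) ∂ν := integral_nonneg hnn
  have := lt_of_le_of_ne h0 (Ne.symm hne)
  rw [hE] at this
  linarith

/-- gain of a small tilt -/
lemma exists_gain (β : ℝ) (hβ : 0 < β) : ∃ c δ0 : ℝ, 0 < c ∧ 0 < δ0 ∧ δ0 ≤ 1 ∧
    ∀ δ, 0 ≤ δ → δ ≤ δ0 → phi ν (β - δ) / (phi ν β * phi ν (-δ)) ≤ 1 - c * δ := by
  set m1 := ∫ t, t * Real.exp (β * t) ∂ν with hm1
  set K := 2 * (phi ν (β + 2) + phi ν (β - 2)) with hK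
  set g := m1 - mu ν * phi ν β with hg
  have hg0 : 0 < g := by have := mean_lt hν β hβ; rw [hg, hm1]; linarith
  have hb := phi_pos hν β
  set c := g / (2 * phi ν β) with hc
  have hc0 : 0 < c := by positivity
  have hcb : c * phi ν β = g / 2 := by rw [hc]; field_simp
  set δ0 := min 1 (min (1 / c) ((g / 2) / (|g * mu ν / 2 - K| + 1))) with hδ0
  refine ⟨c, δ0, hc0, by positivity, min_le_left _ _, ?_⟩
  intro δ h0 h1
  have h2 : δ ≤ 1 := h1.trans (min_le_left _ _)
  have h3 : δ ≤ 1 / c := h1.trans ((min_le_right _ _).trans (min_le_left _ _))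
  have h4 : δ ≤ (g / 2) / (|g * mu ν / 2 - K| + 1) :=
    h1.trans ((min_le_right _ _).trans (min_le_right _ _))
  rw [le_div_iff₀ hc0] at h3
  rw [le_div_iff₀ (by positivity)] at h4
  have h5 := phi_shift hν β δ (by rwa [abs_of_nonneg h0])
  have h6 := phi_ge hν (-δ)
  rw [div_le_iff₀ (mul_pos hb (phi_pos hν _))]
  have h7 : (1 - c * δ) * (phi ν β * (1 + -δ * mu ν)) ≤ (1 - c * δ) * (phi ν β * phi ν (-δ)) := by
    apply mul_le_mul_of_nonneg_left _ (by linarith)
    exact mul_le_mul_of_nonneg_left h6 hb.le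
  refine le_trans ?_ h7
  rw [← hm1, ← hK] at h5
  refine h5.trans ?_
  have h8 : (1 - c * δ) * (phi ν β * (1 + -δ * mu ν)) - (phi ν β - δ * m1 + δ ^ 2 * K)
      = δ * (g / 2 + δ * (g * mu ν / 2 - K)) := by
    have : m1 = g + mu ν * phi ν β := by rw [hg]; ring
    rw [this]
    linear_combination (-δ + δ ^ 2 * mu ν) * hcb
  have h9 : 0 ≤ g / 2 + δ * (g * mu ν / 2 - K) := by
    have h10 := neg_abs_le (g * mu ν / 2 - K)
    nlinarith
  have h11 := mul_nonneg h0 h9
  linarith

/-- density of the tilt by `-δ` -/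
noncomputable def q (ν : Measure ℝ) (δ t : ℝ) : ENNReal :=
  ENNReal.ofReal (Real.exp (-δ * t) / phi ν (-δ))

/-- weight of a visit under the tilt -/
noncomputable def aw (ν : Measure ℝ) (β δ : ℝ) : ENNReal :=
  ENNReal.ofReal (phi ν (β - δ) / (phi ν β * phi ν (-δ)))

omit hν in
lemma measurable_q (δ : ℝ) : Measurable (q ν δ) := by
  unfold q
  exact ENNReal.measurable_ofReal.comp ((Real.measurable_exp.comp
    (measurable_id.const_mul (-δ))).div_const _)

omit hν in
lemma measurable_exp1 (β : ℝ) : Measurable fun t : ℝ => ENNReal.ofReal (Real.exp (β * t - Lam ν β)) :=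
  ENNReal.measurable_ofReal.comp (Real.measurable_exp.comp ((measurable_id.const_mul β).sub_const _))

lemma q_ne_zero (δ t : ℝ) : q ν δ t ≠ 0 := by
  unfold q
  rw [ne_eq, ENNReal.ofReal_eq_zero, not_le]
  exact div_pos (Real.exp_pos _) (phi_pos hν _)

omit hν in
lemma q_ne_top (δ t : ℝ) : q ν δ t ≠ ⊤ := ENNReal.ofReal_ne_top

lemma lint_q (δ : ℝ) : ∫⁻ t, q ν δ t ∂ν = 1 := by
  unfold q
  rw [← ofReal_integral_eq_lintegral_ofReal]
  · rw [integral_div]
    have : ∫ t, Real.exp (-δ * t) ∂ν = phi ν (-δ) := rfl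
    rw [this, div_self (phi_pos hν _).ne']
    simp
  · exact (hν.exp _).div_const _
  · exact Filter.Eventually.of_forall fun t => div_nonneg (Real.exp_pos _).le (phi_pos hν _).le

lemma lint_e (β : ℝ) : ∫⁻ t, ENNReal.ofReal (Real.exp (β * t - Lam ν β)) ∂ν = 1 := by
  rw [← ofReal_integral_eq_lintegral_ofReal]
  · have h1 : (fun t => Real.exp (β * t - Lam ν β)) = fun t => Real.exp (β * t) / phi ν β := by
      funext t
      rw [Real.exp_sub, exp_Lam hν]
    rw [h1, integral_div]
    have : ∫ t, Real.exp (β * t) ∂ν = phi ν β := rfl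
    rw [this, div_self (phi_pos hν _).ne']
    simp
  · have := int_exp' hν β (-Lam ν β)
    simpa [sub_eq_add_neg] using this
  · exact Filter.Eventually.of_forall fun t => (Real.exp_pos _).le

lemma lint_eq (β δ : ℝ) :
    ∫⁻ t, ENNReal.ofReal (Real.exp (β * t - Lam ν β)) * q ν δ t ∂ν = aw ν β δ := by
  unfold q aw
  have h1 : ∀ t, ENNReal.ofReal (Real.exp (β * t - Lam ν β)) *
      ENNReal.ofReal (Real.exp (-δ * t) / phi ν (-δ))
      = ENNReal.ofReal (Real.exp ((β - δ) * t) / (phi ν β * phi ν (-δ))) := by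
    intro t
    rw [← ENNReal.ofReal_mul (Real.exp_pos _).le]
    congr 1
    rw [Real.exp_sub, exp_Lam hν, show (β - δ) * t = β * t + -δ * t by ring, Real.exp_add]
    have := (phi_pos hν β).ne'
    have := (phi_pos hν (-δ)).ne'
    field_simp
  simp_rw [h1]
  rw [← ofReal_integral_eq_lintegral_ofReal]
  · rw [integral_div]
    rfl
  · exact (hν.exp _).div_const _
  · exact Filter.Eventually.of_forall fun t => div_nonneg (Real.exp_pos _).le
      (mul_pos (phi_pos hν _) (phi_pos hν _)).le

lemma lint_qinv (δ : ℝ) : ∫⁻ t, (q ν δ t)⁻¹ ∂ν = ENNReal.ofReal (phi ν δ * phi ν (-δ)) := by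
  have h1 : ∀ t, (q ν δ t)⁻¹ = ENNReal.ofReal (Real.exp (δ * t) * phi ν (-δ)) := by
    intro t
    unfold q
    rw [← ENNReal.ofReal_inv_of_pos (div_pos (Real.exp_pos _) (phi_pos hν _)), inv_div,
      show -δ * t = -(δ * t) by ring, Real.exp_neg]
    congr 1
    field_simp
  simp_rw [h1]
  rw [← ofReal_integral_eq_lintegral_ofReal]
  · rw [integral_mul_const]
    rfl
  · exact (hν.exp _).mul_const _
  · exact Filter.Eventually.of_forall fun t => mul_nonneg (Real.exp_pos _).le (phi_pos hν _).le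

end Law

end Q293.PolyTilt
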