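import Pool.Agent.Q293.LinWalk

/-!
# Directed polymers driven by a Markov chain: the second moment recursion
-/

set_option autoImplicit false

open MeasureTheory Filter Topology ProbabilityTheory

namespace Q293.Polymer

section PMFsum

variable {α γ : Type*}

lemma tsum_bind (p : PMF α) (q : α → PMF γ) (f : γ → ENNReal) :
    ∑' b, (p.bind q) b * f b = ∑' a, p a * ∑' b, q a b * f b := by
  simp only [PMF.bind_apply, ← ENNReal.tsum_mul_right, ← ENNReal.tsum_mul_left]
  rw [ENNReal.tsum_comm]
  simp only [mul_assoc]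

lemma tsum_pure (a : α) (f : α → ENNReal) : ∑' b, (PMF.pure a) b * f b = f a := by
  rw [tsum_eq_single a]
  · rw [PMF.pure_apply, if_pos rfl, one_mul]
  · intro b hb
    rw [PMF.pure_apply, if_neg hb, zero_mul]

lemma tsum_map (p : PMF α) (g : α → γ) (f : γ → ENNReal) :
    ∑' b, (p.map g) b * f b = ∑' a, p a * f (g a) := by
  unfold PMF.map
  rw [tsum_bind]
  simp only [Function.comp, tsum_pure]

end PMFsum

variable {V : Type} (P : V → PMF V)

/-- law of `(S_1, ..., S_n)` under `P_x` -/
noncomputable def pathLaw : (n : ℕ) → V → PMF (Fin n → V)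
  | 0, _ => PMF.pure Fin.elim0
  | n + 1, x => (P x).bind fun y => (pathLaw n y).map (Fin.cons y)

/-- partition function -/
noncomputable def Z (β : ℝ) (ω : ℕ → V → ℝ) (n : ℕ) (x : V) : ENNReal :=
  ∑' γ : Fin n → V, pathLaw P n x γ * ENNReal.ofReal (Real.exp (β * ∑ i : Fin n, ω (i : ℕ) (γ i)))

/-- logarithmic moment generating function -/
noncomputable def Lam (ν : Measure ℝ) (β : ℝ) : ℝ := Real.log (∫ t, Real.exp (β * t) ∂ν)

/-- normalised partition function -/
noncomputable def W (ν : Measure ℝ) (β : ℝ) (ω : ℕ → V → ℝ) (n : ℕ) (x : V) : ENNReal :=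
  Z P β ω n x * ENNReal.ofReal (Real.exp (-(n * Lam ν β)))

/-- law of the environment -/
noncomputable def env (V : Type) (ν : Measure ℝ) : Measure (ℕ → V → ℝ) :=
  Measure.infinitePi (fun _ : ℕ => Measure.infinitePi (fun _ : V => ν))

lemma Z_zero (β : ℝ) (ω : ℕ → V → ℝ) (x : V) : Z P β ω 0 x = 1 := by
  unfold Z pathLaw
  rw [tsum_pure]
  simp

lemma Z_succ (β : ℝ) (ω : ℕ → V → ℝ) (n : ℕ) (x : V) :
    Z P β ω (n + 1) x = ∑' y, P x y * (ENNReal.ofReal (Real.exp (β * ω 0 y))
      * Z P β (fun i => ω (1 + i)) n y) := by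
  unfold Z
  rw [pathLaw, tsum_bind]
  apply tsum_congr
  intro y
  congr 1
  rw [tsum_map, ← ENNReal.tsum_mul_left]
  apply tsum_congr
  intro γ
  rw [mul_left_comm]
  congr 1
  rw [← ENNReal.ofReal_mul (Real.exp_pos _).le, ← Real.exp_add, Fin.sum_univ_succ, mul_add]
  simp only [Fin.cons_zero, Fin.cons_succ, Fin.val_zero, Fin.val_succ]
  congr 5
  funext i
  rw [add_comm 1 (i : ℕ)]

lemma W_zero (ν : Measure ℝ) (β : ℝ) (ω : ℕ → V → ℝ) (x : V) : W P ν β ω 0 x = 1 := by
  unfold W
  rw [Z_zero]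
  simp

lemma W_succ (ν : Measure ℝ) (β : ℝ) (ω : ℕ → V → ℝ) (n : ℕ) (x : V) :
    W P ν β ω (n + 1) x = ∑' y, P x y * (ENNReal.ofReal (Real.exp (β * ω 0 y - Lam ν β))
      * W P ν β (fun i => ω (1 + i)) n y) := by
  unfold W
  rw [Z_succ, ← ENNReal.tsum_mul_right]
  apply tsum_congr
  intro y
  rw [mul_assoc, mul_assoc]
  congr 1
  have h1 : ENNReal.ofReal (Real.exp (-(((n + 1 : ℕ) : ℝ) * Lam ν β)))
      = ENNReal.ofReal (Real.exp (-Lam ν β)) * ENNReal.ofReal (Real.exp (-(n * Lam ν β))) := by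
    rw [← ENNReal.ofReal_mul (Real.exp_pos _).le, ← Real.exp_add]
    congr 2
    push_cast
    ring
  have h2 : ENNReal.ofReal (Real.exp (β * ω 0 y - Lam ν β))
      = ENNReal.ofReal (Real.exp (β * ω 0 y)) * ENNReal.ofReal (Real.exp (-Lam ν β)) := by
    rw [← ENNReal.ofReal_mul (Real.exp_pos _).le, ← Real.exp_add]
    congr 2
  rw [h1, h2]
  ring

section Meas

variable [Countable V]

lemma measurable_Z (β : ℝ) (n : ℕ) (x : V) : Measurable fun ω : ℕ → V → ℝ => Z P β ω n x := by
  unfold Z
  apply Measurable.tsum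
  intro γ
  apply Measurable.const_mul
  apply ENNReal.measurable_ofReal.comp
  apply Real.measurable_exp.comp
  apply Measurable.const_mul
  apply Finset.measurable_sum
  intro i _
  exact (measurable_pi_apply (γ i)).comp (measurable_pi_apply (i : ℕ))

lemma measurable_W (ν : Measure ℝ) (β : ℝ) (n : ℕ) (x : V) :
    Measurable fun ω : ℕ → V → ℝ => W P ν β ω n x :=
  (measurable_Z P β n x).mul_const _

/-- correlation of the normalised partition functions -/
noncomputable def M (ν : Measure ℝ) (β : ℝ) (n : ℕ) (x x' : V) : ENNReal :=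
  ∫⁻ ω, W P ν β ω n x * W P ν β ω n x' ∂(env V ν)

/-- one step correlation -/
noncomputable def cc (ν : Measure ℝ) (β : ℝ) (y y' : V) : ENNReal :=
  ∫⁻ η, ENNReal.ofReal (Real.exp (β * η y - Lam ν β)) *
    ENNReal.ofReal (Real.exp (β * η y' - Lam ν β)) ∂(Measure.infinitePi (fun _ : V => ν))

omit [Countable V] in
lemma measurable_e (ν : Measure ℝ) (β : ℝ) (y : V) :
    Measurable fun η : V → ℝ => ENNReal.ofReal (Real.exp (β * η y - Lam ν β)) := by
  apply ENNReal.measurable_ofReal.comp
  apply Real.measurable_exp.comp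
  exact (Measurable.const_mul (f := fun η : V → ℝ => η y) (measurable_pi_apply y) β).sub_const _

omit [Countable V] in
/-- splitting off the first slice -/
lemma lintegral_env (ν : Measure ℝ) [IsProbabilityMeasure ν] (A : (V → ℝ) → ENNReal)
    (B : (ℕ → V → ℝ) → ENNReal) (hA : Measurable A) (hB : Measurable B) :
    ∫⁻ ω, A (ω 0) * B (fun i => ω (1 + i)) ∂(env V ν)
      = (∫⁻ η, A η ∂(Measure.infinitePi (fun _ : V => ν))) * ∫⁻ ω, B ω ∂(env V ν) := by
  unfold env
  set μ := Measure.infinitePi (fun _ : V => ν) with hμ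
  have hshift : Measurable (fun (ω : ℕ → V → ℝ) (i : ℕ) => ω (1 + i)) :=
    measurable_pi_lambda _ fun i => measurable_pi_apply (1 + i)
  have hm : Measurable fun ω : ℕ → V → ℝ => A (ω 0) * B (fun i => ω (1 + i)) :=
    (hA.comp (measurable_pi_apply 0)).mul (hB.comp hshift)
  conv_lhs => rw [← LinWalk.map_concat μ 1]
  rw [lintegral_map hm (LinWalk.measurable_concat 1)]
  have h1 : ∀ p : (ℕ → V → ℝ) × (ℕ → V → ℝ), A (LinWalk.concat 1 p 0)
      * B (fun i => LinWalk.concat 1 p (1 + i)) = A (p.1 0) * B p.2 := by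
    intro p
    congr 2
    funext i
    unfold LinWalk.concat
    rw [if_neg (by omega), Nat.add_sub_cancel_left]
  simp_rw [h1]
  rw [lintegral_prod_mul (f := fun ω : ℕ → V → ℝ => A (ω 0)) (g := B)
    (hA.comp (measurable_pi_apply 0)).aemeasurable hB.aemeasurable]
  congr 1
  have h2 : (Measure.infinitePi (fun _ : ℕ => μ)).map (fun ω => ω 0) = μ :=
    Measure.infinitePi_map_eval (fun _ : ℕ => μ) 0
  conv_rhs => rw [← h2]
  rw [lintegral_map hA (measurable_pi_apply 0)]

omit [Countable V] in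
lemma M_zero (ν : Measure ℝ) [IsProbabilityMeasure ν] (β : ℝ) (x x' : V) :
    M P ν β 0 x x' = 1 := by
  unfold M env
  simp only [W_zero, mul_one, lintegral_one, measure_univ]

lemma lint_tsum_mul {Ω : Type*} [MeasurableSpace Ω] (κ : Measure Ω) (f g : V → Ω → ENNReal)
    (hf : ∀ y, Measurable (f y)) (hg : ∀ y, Measurable (g y)) :
    ∫⁻ ω, (∑' y, f y ω) * (∑' y', g y' ω) ∂κ = ∑' y, ∑' y', ∫⁻ ω, f y ω * g y' ω ∂κ := by
  simp only [← ENNReal.tsum_mul_right]
  rw [lintegral_tsum (f := fun y ω => f y ω * ∑' y', g y' ω)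
    fun y => ((hf y).mul (Measurable.tsum fun y' => hg y')).aemeasurable]
  apply tsum_congr
  intro y
  simp only [← ENNReal.tsum_mul_left]
  rw [lintegral_tsum (f := fun y' ω => f y ω * g y' ω)
    fun y' => ((hf y).mul (hg y')).aemeasurable]

lemma M_succ (ν : Measure ℝ) [IsProbabilityMeasure ν] (β : ℝ) (n : ℕ) (x x' : V) :
    M P ν β (n + 1) x x' = ∑' y, P x y * ∑' y', P x' y' * (cc ν β y y' * M P ν β n y y') := by
  unfold M
  simp only [W_succ]
  have hshift : Measurable (fun (ω : ℕ → V → ℝ) (i : ℕ) => ω (1 + i)) :=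
    measurable_pi_lambda _ fun i => measurable_pi_apply (1 + i)
  have hterm : ∀ x y : V, Measurable fun ω : ℕ → V → ℝ =>
      P x y * (ENNReal.ofReal (Real.exp (β * ω 0 y - Lam ν β))
        * W P ν β (fun i => ω (1 + i)) n y) := by
    intro x y
    apply Measurable.const_mul
    exact ((measurable_e ν β y).comp (measurable_pi_apply 0)).mul
      ((measurable_W P ν β n y).comp hshift)
  rw [lint_tsum_mul _ _ _ (hterm x) (hterm x')]
  apply tsum_congr
  intro y
  rw [← ENNReal.tsum_mul_left]
  apply tsum_congr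
  intro y'
  have h1 : ∀ ω : ℕ → V → ℝ, P x y * (ENNReal.ofReal (Real.exp (β * ω 0 y - Lam ν β))
        * W P ν β (fun i => ω (1 + i)) n y) *
      (P x' y' * (ENNReal.ofReal (Real.exp (β * ω 0 y' - Lam ν β))
        * W P ν β (fun i => ω (1 + i)) n y'))
      = (P x y * P x' y') * ((ENNReal.ofReal (Real.exp (β * ω 0 y - Lam ν β)) *
          ENNReal.ofReal (Real.exp (β * ω 0 y' - Lam ν β))) *
        (W P ν β (fun i => ω (1 + i)) n y * W P ν β (fun i => ω (1 + i)) n y')) := by
    intro ω; ring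
  simp_rw [h1]
  rw [lintegral_const_mul' _ _ (ENNReal.mul_ne_top ((P x).apply_ne_top y) ((P x').apply_ne_top y'))]
  rw [lintegral_env ν (fun η => ENNReal.ofReal (Real.exp (β * η y - Lam ν β)) *
      ENNReal.ofReal (Real.exp (β * η y' - Lam ν β)))
    (fun ω => W P ν β ω n y * W P ν β ω n y')
    ((measurable_e ν β y).mul (measurable_e ν β y'))
    ((measurable_W P ν β n y).mul (measurable_W P ν β n y'))]
  unfold cc
  ring

/-- second moment bound from a supersolution -/
lemma M_le (ν : Measure ℝ) [IsProbabilityMeasure ν] (β : ℝ) (H : V → V → ENNReal)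
    (h1 : ∀ x x', 1 ≤ H x x')
    (h2 : ∀ x x', ∑' y, P x y * ∑' y', P x' y' * (cc ν β y y' * H y y') ≤ H x x') (n : ℕ) :
    ∀ x x', M P ν β n x x' ≤ H x x' := by
  induction n with
  | zero => intro x x'; rw [M_zero]; exact h1 x x'
  | succ n ih =>
    intro x x'
    rw [M_succ]
    refine le_trans ?_ (h2 x x')
    refine ENNReal.tsum_le_tsum fun y => ?_
    gcongr with y'
    exact ih y y'

end Meas

section CC

/-- assumptions on the environment law -/
structure GoodLaw (ν : Measure ℝ) : Prop where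
  prob : IsProbabilityMeasure ν
  int : Integrable (fun t : ℝ => t) ν
  mean : ∫ t, t ∂ν = 0
  exp : ∀ β : ℝ, 0 < β → Integrable (fun t => Real.exp (β * t)) ν

variable {ν : Measure ℝ} (hν : GoodLaw ν)

include hν in
lemma one_le_mgf (β : ℝ) (hβ : 0 < β) : 1 ≤ ∫ t, Real.exp (β * t) ∂ν := by
  have := hν.prob
  have h1 : ∫ t, (β * t + 1) ∂ν = 1 := by
    rw [integral_add (hν.int.const_mul β) (integrable_const 1), integral_const_mul, hν.mean]
    simp
  rw [← h1]
  exact integral_mono ((hν.int.const_mul β).add (integrable_const 1)) (hν.exp β hβ)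
    fun t => Real.add_one_le_exp _

include hν in
lemma exp_Lam (β : ℝ) (hβ : 0 < β) : Real.exp (Lam ν β) = ∫ t, Real.exp (β * t) ∂ν := by
  unfold Lam
  rw [Real.exp_log]
  linarith [one_le_mgf hν β hβ]

include hν in
lemma Lam_nonneg (β : ℝ) (hβ : 0 < β) : 0 ≤ Lam ν β := Real.log_nonneg (one_le_mgf hν β hβ)

include hν in
lemma lint_one (β : ℝ) (hβ : 0 < β) :
    ∫⁻ t, ENNReal.ofReal (Real.exp (β * t - Lam ν β)) ∂ν = 1 := by
  have := hν.prob
  rw [← ofReal_integral_eq_lintegral_ofReal]
  · have : (fun t => Real.exp (β * t - Lam ν β)) = fun t => Real.exp (-Lam ν β) * Real.exp (β * t) := by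
      funext t
      rw [← Real.exp_add]; congr 1; ring
    rw [this, integral_const_mul, ← exp_Lam hν β hβ, ← Real.exp_add]
    simp
  · have : (fun t => Real.exp (β * t - Lam ν β)) = fun t => Real.exp (-Lam ν β) * Real.exp (β * t) := by
      funext t
      rw [← Real.exp_add]; congr 1; ring
    rw [this]
    exact (hν.exp β hβ).const_mul _
  · exact Filter.Eventually.of_forall fun t => (Real.exp_pos _).le

include hν in
lemma cc_ne (β : ℝ) (hβ : 0 < β) {V : Type} (y y' : V) (h : y ≠ y') : cc ν β y y' = 1 := by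
  have := hν.prob
  unfold cc
  have hind : iIndepFun (fun (v : V) (η : V → ℝ) => η v) (Measure.infinitePi (fun _ : V => ν)) := by
    have := iIndepFun_infinitePi (P := fun _ : V => ν) (X := fun (_ : V) (t : ℝ) => t)
      (fun _ => measurable_id)
    exact this
  have h2 := hind.indepFun h
  have hm : Measurable fun t : ℝ => ENNReal.ofReal (Real.exp (β * t - Lam ν β)) :=
    ENNReal.measurable_ofReal.comp (Real.measurable_exp.comp ((measurable_id.const_mul β).sub_const _))
  have h3 := h2.comp hm hm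
  have h4 := lintegral_mul_eq_lintegral_mul_lintegral_of_indepFun
    (hm.comp (measurable_pi_apply y)) (hm.comp (measurable_pi_apply y')) h3
  simp only [Pi.mul_apply, Function.comp] at h4
  rw [h4]
  have h5 : ∀ v : V, ∫⁻ η : V → ℝ, ENNReal.ofReal (Real.exp (β * η v - Lam ν β))
      ∂(Measure.infinitePi (fun _ : V => ν)) = 1 := by
    intro v
    have h6 : (Measure.infinitePi (fun _ : V => ν)).map (fun η => η v) = ν :=
      Measure.infinitePi_map_eval (fun _ : V => ν) v
    have h7 := lintegral_map (μ := Measure.infinitePi (fun _ : V => ν)) hm (measurable_pi_apply v)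
    rw [h6, lint_one hν β hβ] at h7
    exact h7.symm
  rw [h5, h5, one_mul]

include hν in
lemma cc_eq (β : ℝ) (hβ : 0 < β) {V : Type} (y : V) :
    cc ν β y y ≤ ENNReal.ofReal (∫ t, Real.exp (2 * β * t) ∂ν) := by
  have := hν.prob
  unfold cc
  have hm : Measurable fun t : ℝ => ENNReal.ofReal (Real.exp (2 * β * t)) :=
    ENNReal.measurable_ofReal.comp (Real.measurable_exp.comp (measurable_id.const_mul (2 * β)))
  calc ∫⁻ η, ENNReal.ofReal (Real.exp (β * η y - Lam ν β)) *
        ENNReal.ofReal (Real.exp (β * η y - Lam ν β)) ∂(Measure.infinitePi (fun _ : V => ν))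
      ≤ ∫⁻ η : V → ℝ, ENNReal.ofReal (Real.exp (2 * β * η y))
          ∂(Measure.infinitePi (fun _ : V => ν)) := by
        apply lintegral_mono
        intro η
        simp only
        rw [← ENNReal.ofReal_mul (Real.exp_pos _).le, ← Real.exp_add]
        apply ENNReal.ofReal_le_ofReal
        apply Real.exp_le_exp.2
        linarith [Lam_nonneg hν β hβ]
    _ = ∫⁻ t, ENNReal.ofReal (Real.exp (2 * β * t)) ∂ν := by
        have h6 : (Measure.infinitePi (fun _ : V => ν)).map (fun η => η y) = ν :=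
          Measure.infinitePi_map_eval (fun _ : V => ν) y
        have h7 := lintegral_map (μ := Measure.infinitePi (fun _ : V => ν)) hm
          (measurable_pi_apply y)
        rw [h6] at h7
        exact h7.symm
    _ = ENNReal.ofReal (∫ t, Real.exp (2 * β * t) ∂ν) := by
        rw [ofReal_integral_eq_lintegral_ofReal (hν.exp (2 * β) (by linarith))]
        exact Filter.Eventually.of_forall fun t => (Real.exp_pos _).le

include hν in
/-- the one step correlation tends to one -/
lemma exists_beta (δ : ℝ) (hδ : 0 < δ) :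
    ∃ β : ℝ, 0 < β ∧ ∫ t, Real.exp (2 * β * t) ∂ν ≤ 1 + δ := by
  have := hν.prob
  have hlim : Tendsto (fun n : ℕ => ∫ t, Real.exp (2 * (1 / ((n : ℝ) + 2)) * t) ∂ν) atTop
      (𝓝 (∫ _t, (1 : ℝ) ∂ν)) := by
    apply tendsto_integral_of_dominated_convergence (fun t => 1 + Real.exp (1 * t))
    · intro n
      exact (Real.measurable_exp.comp (measurable_id.const_mul _)).aestronglyMeasurable
    · exact (integrable_const 1).add (hν.exp 1 one_pos)
    · intro n
      apply Filter.Eventually.of_forall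
      intro t
      rw [Real.norm_eq_abs, abs_of_pos (Real.exp_pos _)]
      have hn : (0 : ℝ) < (n : ℝ) + 2 := by positivity
      have hc0 : 0 ≤ 2 * (1 / ((n : ℝ) + 2)) := by positivity
      have hc1 : 2 * (1 / ((n : ℝ) + 2)) ≤ 1 := by
        rw [mul_one_div, div_le_one hn]; linarith [Nat.cast_nonneg (α := ℝ) n]
      rcases le_total 0 t with ht | ht
      · have : Real.exp (2 * (1 / ((n : ℝ) + 2)) * t) ≤ Real.exp (1 * t) :=
          Real.exp_le_exp.2 (mul_le_mul_of_nonneg_right hc1 ht)
        linarith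
      · have : Real.exp (2 * (1 / ((n : ℝ) + 2)) * t) ≤ 1 := by
          rw [Real.exp_le_one_iff]
          exact mul_nonpos_of_nonneg_of_nonpos hc0 ht
        linarith [Real.exp_pos (1 * t)]
    · apply Filter.Eventually.of_forall
      intro t
      have h1 : Tendsto (fun n : ℕ => 2 * (1 / ((n : ℝ) + 2)) * t) atTop (𝓝 (2 * 0 * t)) := by
        apply Tendsto.mul_const
        apply Tendsto.const_mul
        have h2 : Tendsto (fun n : ℕ => ((n : ℝ) + 2)) atTop atTop :=
          tendsto_atTop_add_const_right _ _ tendsto_natCast_atTop_atTop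
        simp only [one_div]
        exact tendsto_inv_atTop_zero.comp h2
      have h3 := (Real.continuous_exp.tendsto _).comp h1
      simp only [mul_zero, zero_mul, Real.exp_zero] at h3
      exact h3
  simp only [integral_const, probReal_univ, smul_eq_mul, mul_one] at hlim
  have h := hlim.eventually_lt_const (show (1 : ℝ) < 1 + δ by linarith)
  obtain ⟨n, hn⟩ := h.exists
  exact ⟨1 / ((n : ℝ) + 2), by positivity, hn.le⟩

end CC

end Q293.Polymer
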