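import Pool.Agent.Q293.Polymer

/-!
# Branching random walks on free groups with positive letters: Rényi entropies
-/

set_option autoImplicit false

open MeasureTheory Filter Topology

namespace Q293.Renyi

/-- Rényi entropy of a nonnegative function -/
noncomputable def renyi {G : Type} (α : ℝ) (ν : G → ENNReal) : EReal :=
  ((1 / (1 - α) : ℝ) : EReal) * ENNReal.log (∑' g : {g // ν g ≠ 0}, ν g ^ α)

/-- convolution powers -/
noncomputable def convPow {G : Type} [Group G] (μ : PMF G) : ℕ → PMF G
  | 0 => PMF.pure 1
  | n + 1 => μ.bind fun g => (convPow μ n).map fun x => g * x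

/-- position of a vertex: a vertex is the list of the choices from itself up to the root -/
def pos {G : Type} [Group G] (ω : List Bool → G) : List Bool → G
  | [] => 1
  | b :: u => pos ω u * ω (b :: u)

section Words

variable {m : ℕ} (lam : Fin m → ENNReal)

/-- the group element of a word -/
def wordG {n : ℕ} (w : Fin n → Fin m) : FreeGroup (Fin m) :=
  (List.ofFn fun i => FreeGroup.of (w i)).prod

lemma wordG_cons {n : ℕ} (a : Fin m) (w : Fin n → Fin m) :
    wordG (Fin.cons a w : Fin (n + 1) → Fin m) = FreeGroup.of a * wordG w := by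
  unfold wordG
  rw [List.ofFn_succ, List.prod_cons]
  simp

lemma wordG_mk {n : ℕ} (w : Fin n → Fin m) :
    wordG w = FreeGroup.mk ((List.ofFn w).map fun a => (a, true)) := by
  induction n with
  | zero => simp [wordG, FreeGroup.one_eq_mk]
  | succ n ih =>
    have h : w = Fin.cons (w 0) (fun i => w i.succ) := by
      funext i
      refine Fin.cases ?_ (fun j => ?_) i <;> simp
    rw [h, wordG_cons, ih]
    simp only [List.ofFn_succ, Fin.cons_zero, Fin.cons_succ, List.map_cons]
    rw [FreeGroup.of, FreeGroup.mul_mk]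
    rfl

lemma isReduced_pos (L : List (Fin m)) : FreeGroup.IsReduced (L.map fun a => (a, true)) := by
  induction L with
  | nil => exact FreeGroup.IsReduced.nil
  | cons a L ih =>
    cases L with
    | nil => exact FreeGroup.IsReduced.singleton
    | cons b L =>
      simp only [List.map_cons] at ih ⊢
      exact List.isChain_cons_cons.2 ⟨fun _ => rfl, ih⟩

lemma wordG_injective {n : ℕ} : Function.Injective (wordG (m := m) (n := n)) := by
  intro w w' h
  rw [wordG_mk, wordG_mk] at h
  have h1 := congrArg FreeGroup.toWord h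
  rw [FreeGroup.toWord_mk, FreeGroup.toWord_mk, (isReduced_pos _).reduce_eq,
    (isReduced_pos _).reduce_eq] at h1
  have hinj : Function.Injective fun a : Fin m => (a, true) := fun a b h => (Prod.mk.injEq _ _ _ _ ▸ h).1
  have h2 := List.map_injective_iff.2 hinj h1
  exact List.ofFn_injective h2

end Words

section Main

variable {m : ℕ} (lam : Fin m → ENNReal) (hsum : ∑ a, lam a = 1)

/-- the step law -/
noncomputable def mu : PMF (FreeGroup (Fin m)) := (PMF.ofFintype lam hsum).map FreeGroup.of

lemma tsum_mu (f : FreeGroup (Fin m) → ENNReal) :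
    ∑' g, mu lam hsum g * f g = ∑ a, lam a * f (FreeGroup.of a) := by
  unfold mu
  rw [Polymer.tsum_map, tsum_fintype]
  rfl

lemma mu_of (a : Fin m) : mu lam hsum (FreeGroup.of a) = lam a := by
  have h1 : mu lam hsum (FreeGroup.of a)
      = ∑' g, mu lam hsum g * (if g = FreeGroup.of a then 1 else 0) := by
    rw [tsum_eq_single (FreeGroup.of a)]
    · simp
    · intro y' hy'
      rw [if_neg hy', mul_zero]
  rw [h1, tsum_mu, Finset.sum_eq_single a]
  · simp
  · intro b _ hb
    rw [if_neg fun h => hb (FreeGroup.of_injective h), mul_zero]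
  · intro h; exact absurd (Finset.mem_univ a) h

lemma mu_support_finite : (mu lam hsum).support.Finite := by
  unfold mu
  rw [PMF.support_map]
  exact (Set.toFinite _).image _

lemma tsum_convPow (n : ℕ) : ∀ f : FreeGroup (Fin m) → ENNReal,
    ∑' g, convPow (mu lam hsum) n g * f g = ∑ w : Fin n → Fin m, (∏ i, lam (w i)) * f (wordG w) := by
  induction n with
  | zero =>
    intro f
    rw [convPow, Polymer.tsum_pure]
    simp [wordG]
  | succ n ih =>
    intro f
    rw [convPow, Polymer.tsum_bind, tsum_mu]
    have h1 : ∑ w : Fin (n + 1) → Fin m, (∏ i, lam (w i)) * f (wordG w)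
        = ∑ p : Fin m × (Fin n → Fin m), (∏ i, lam ((Fin.cons p.1 p.2 : Fin (n + 1) → Fin m) i))
          * f (wordG (Fin.cons p.1 p.2 : Fin (n + 1) → Fin m)) :=
      (Fintype.sum_equiv (Fin.consEquiv fun _ => Fin m) _ _ fun p => rfl).symm
    rw [h1, Fintype.sum_prod_type]
    apply Finset.sum_congr rfl
    intro a _
    rw [Polymer.tsum_map, ih, Finset.mul_sum]
    apply Finset.sum_congr rfl
    intro w _
    rw [Fin.prod_univ_succ, wordG_cons]
    simp only [Fin.cons_zero, Fin.cons_succ]
    ring

lemma convPow_apply (n : ℕ) (g : FreeGroup (Fin m)) :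
    convPow (mu lam hsum) n g = ∑ w : Fin n → Fin m, if wordG w = g then ∏ i, lam (w i) else 0 := by
  have h1 : convPow (mu lam hsum) n g
      = ∑' g', convPow (mu lam hsum) n g' * (if g' = g then 1 else 0) := by
    rw [tsum_eq_single g]
    · simp
    · intro y' hy'
      rw [if_neg hy', mul_zero]
  rw [h1, tsum_convPow]
  apply Finset.sum_congr rfl
  intro w _
  split_ifs <;> simp

lemma convPow_word (n : ℕ) (w : Fin n → Fin m) :
    convPow (mu lam hsum) n (wordG w) = ∏ i, lam (w i) := by
  rw [convPow_apply, Finset.sum_eq_single w]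
  · rw [if_pos rfl]
  · intro w' _ hw'
    rw [if_neg fun h => hw' (wordG_injective h)]
  · intro h; exact absurd (Finset.mem_univ w) h

lemma sum_convPow (hpos : ∀ a, lam a ≠ 0) (α : ℝ) (hα : 0 ≤ α) (n : ℕ) :
    ∑' g : {g // convPow (mu lam hsum) n g ≠ 0}, (convPow (mu lam hsum) n g) ^ α
      = (∑ a, lam a ^ α) ^ n := by
  have hne : ∀ w : Fin n → Fin m, convPow (mu lam hsum) n (wordG w) ≠ 0 := by
    intro w
    rw [convPow_word]
    exact Finset.prod_ne_zero_iff.2 fun i _ => hpos _
  let φ : (Fin n → Fin m) → {g // convPow (mu lam hsum) n g ≠ 0} := fun w => ⟨wordG w, hne w⟩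
  have hbij : Function.Bijective φ := by
    constructor
    · intro w w' h
      exact wordG_injective (congrArg Subtype.val h)
    · rintro ⟨g, hg⟩
      rw [convPow_apply] at hg
      obtain ⟨w, _, hw⟩ := Finset.exists_ne_zero_of_sum_ne_zero hg
      refine ⟨w, Subtype.ext ?_⟩
      by_contra hne
      exact hw (if_neg hne)
  rw [← (Equiv.ofBijective φ hbij).tsum_eq (fun g => (convPow (mu lam hsum) n g.1) ^ α),
    tsum_fintype, Fintype.sum_pow]
  apply Finset.sum_congr rfl
  intro w _
  show (convPow (mu lam hsum) n (wordG w)) ^ α = _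
  rw [convPow_word, ENNReal.prod_rpow_of_nonneg hα]

end Main

end Q293.Renyi
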