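import Pool.Agent.Q293.Renyi

/-!
# Branching random walks on free groups with positive letters: the number of occupied points
-/

set_option autoImplicit false

open MeasureTheory Filter Topology

namespace Q293.Renyi

/-- empirical distribution of generation `n` -/
noncomputable def emp {G : Type} [Group G] (ω : List Bool → G) (n : ℕ) (x : G) : ENNReal :=
  (Nat.card {v : Fin n → Bool // pos ω (List.ofFn v) = x} : ENNReal) / 2 ^ n

section Support

variable {G : Type} [Group G]

open Classical in
/-- occupied points -/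
noncomputable def occ (ω : List Bool → G) (n : ℕ) : Finset G :=
  Finset.univ.image fun v : Fin n → Bool => pos ω (List.ofFn v)

lemma mem_occ (ω : List Bool → G) (n : ℕ) (x : G) :
    x ∈ occ ω n ↔ ∃ v : Fin n → Bool, pos ω (List.ofFn v) = x := by
  classical
  unfold occ
  rw [Finset.mem_image]
  simp

lemma occ_nonempty (ω : List Bool → G) (n : ℕ) : (occ ω n).Nonempty := by
  classical
  unfold occ
  exact Finset.univ_nonempty.image _

lemma emp_ne_zero (ω : List Bool → G) (n : ℕ) (x : G) : emp ω n x ≠ 0 ↔ x ∈ occ ω n := by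
  classical
  unfold emp occ
  rw [Finset.mem_image]
  constructor
  · intro h
    have h1 : Nat.card {v : Fin n → Bool // pos ω (List.ofFn v) = x} ≠ 0 := by
      intro h0
      rw [h0] at h
      simp at h
    have h2 := (Nat.card_pos_iff.1 (Nat.pos_of_ne_zero h1)).1
    obtain ⟨v, hv⟩ := h2
    exact ⟨v, Finset.mem_univ v, hv⟩
  · rintro ⟨v, _, hv⟩
    have h1 : Nat.card {v : Fin n → Bool // pos ω (List.ofFn v) = x} ≠ 0 := by
      have : Nonempty {v : Fin n → Bool // pos ω (List.ofFn v) = x} := ⟨⟨v, hv⟩⟩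
      exact Nat.card_pos.ne'
    apply ENNReal.div_ne_zero.2
    exact ⟨by exact_mod_cast h1, by simp⟩

lemma emp_ne_top (ω : List Bool → G) (n : ℕ) (x : G) : emp ω n x ≠ ⊤ := by
  unfold emp
  exact ENNReal.div_ne_top (ENNReal.natCast_ne_top _) (by simp)

lemma sum_emp (ω : List Bool → G) (n : ℕ) : ∑ x ∈ occ ω n, emp ω n x = 1 := by
  classical
  unfold emp
  simp only [div_eq_mul_inv]
  rw [← Finset.sum_mul, ← Nat.cast_sum]
  have h1 : ∑ x ∈ occ ω n, Nat.card {v : Fin n → Bool // pos ω (List.ofFn v) = x} = 2 ^ n := by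
    have h2 := Finset.card_eq_sum_card_image (fun v : Fin n → Bool => pos ω (List.ofFn v))
      (Finset.univ : Finset (Fin n → Bool))
    rw [Finset.card_univ] at h2
    simp only [Fintype.card_pi, Fintype.card_bool, Finset.prod_const, Finset.card_univ,
      Fintype.card_fin] at h2
    rw [h2]
    unfold occ
    apply Finset.sum_congr rfl
    intro x _
    rw [Nat.card_eq_fintype_card, Fintype.card_subtype]
  rw [h1]
  push_cast
  exact ENNReal.mul_inv_cancel (by simp) (by simp)

omit [Group G] in
lemma sum_rpow_le {S : Finset G} (hS : S.Nonempty) (t : G → ℝ) (ht : ∀ x, 0 ≤ t x)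
    (hsum : ∑ x ∈ S, t x = 1) (α : ℝ) (h0 : 0 ≤ α) (h1 : α < 1) :
    ∑ x ∈ S, t x ^ α ≤ (S.card : ℝ) ^ (1 - α) := by
  have hc : (0 : ℝ) < S.card := by exact_mod_cast hS.card_pos
  set s : ℝ := 1 / S.card with hs
  have hs0 : 0 < s := by positivity
  have hterm : ∀ x ∈ S, t x ^ α ≤ (S.card : ℝ) ^ (1 - α) * (α * t x + (1 - α) * s) := by
    intro x _
    have h := Real.geom_mean_le_arith_mean2_weighted h0 (by linarith : 0 ≤ 1 - α) (ht x) hs0.le
      (by ring)
    have h2 : s ^ (1 - α) = ((S.card : ℝ) ^ (1 - α))⁻¹ := by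
      rw [hs, one_div, Real.inv_rpow hc.le]
    rw [h2] at h
    have hp : 0 < (S.card : ℝ) ^ (1 - α) := Real.rpow_pos_of_pos hc _
    calc t x ^ α = (S.card : ℝ) ^ (1 - α) * (t x ^ α * ((S.card : ℝ) ^ (1 - α))⁻¹) := by
          field_simp
      _ ≤ (S.card : ℝ) ^ (1 - α) * (α * t x + (1 - α) * s) := by gcongr
  calc ∑ x ∈ S, t x ^ α ≤ ∑ x ∈ S, (S.card : ℝ) ^ (1 - α) * (α * t x + (1 - α) * s) :=
        Finset.sum_le_sum hterm
    _ = (S.card : ℝ) ^ (1 - α) * (α * ∑ x ∈ S, t x + (1 - α) * (S.card * s)) := by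
        rw [← Finset.mul_sum, Finset.sum_add_distrib, ← Finset.mul_sum, Finset.sum_const,
          nsmul_eq_mul]
        ring
    _ = (S.card : ℝ) ^ (1 - α) := by
        rw [hsum, hs, mul_one_div_cancel hc.ne']
        ring

lemma renyi_emp_le (ω : List Bool → G) (n : ℕ) (α : ℝ) (h0 : 0 ≤ α) (h1 : α < 1) :
    renyi α (emp ω n) ≤ ((Real.log (occ ω n).card : ℝ) : EReal) := by
  classical
  have hc : (0 : ℝ) < (occ ω n).card := by exact_mod_cast (occ_nonempty ω n).card_pos
  have hsum : ∑' g : {g // emp ω n g ≠ 0}, emp ω n g ^ α ≤ ENNReal.ofReal (((occ ω n).card : ℝ) ^ (1 - α)) := by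
    have e1 : ∑' g : {g // emp ω n g ≠ 0}, emp ω n g ^ α = ∑ x ∈ occ ω n, emp ω n x ^ α := by
      rw [← Finset.tsum_subtype]
      have hset : {g | emp ω n g ≠ 0} = (occ ω n : Set G) := by
        ext g; exact emp_ne_zero ω n g
      show ∑' g : {g | emp ω n g ≠ 0}, emp ω n g ^ α = ∑' g : (occ ω n : Set G), emp ω n g ^ α
      rw [hset]
    rw [e1]
    have e2 : ∀ x, emp ω n x = ENNReal.ofReal (emp ω n x).toReal := fun x =>
      (ENNReal.ofReal_toReal (emp_ne_top ω n x)).symm
    have e3 : ∑ x ∈ occ ω n, (emp ω n x).toReal = 1 := by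
      rw [← ENNReal.toReal_sum fun x _ => emp_ne_top ω n x, sum_emp]
      simp
    have e4 := sum_rpow_le (occ_nonempty ω n) (fun x => (emp ω n x).toReal)
      (fun _ => ENNReal.toReal_nonneg) e3 α h0 h1
    calc ∑ x ∈ occ ω n, emp ω n x ^ α
        = ∑ x ∈ occ ω n, ENNReal.ofReal ((emp ω n x).toReal ^ α) := by
          apply Finset.sum_congr rfl
          intro x _
          rw [← ENNReal.ofReal_rpow_of_nonneg ENNReal.toReal_nonneg h0, ← e2]
      _ = ENNReal.ofReal (∑ x ∈ occ ω n, (emp ω n x).toReal ^ α) := by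
          rw [ENNReal.ofReal_sum_of_nonneg]
          intro x _
          exact Real.rpow_nonneg ENNReal.toReal_nonneg _
      _ ≤ _ := ENNReal.ofReal_le_ofReal e4
  unfold renyi
  have hlog : ENNReal.log (∑' g : {g // emp ω n g ≠ 0}, emp ω n g ^ α)
      ≤ (((1 - α) * Real.log (occ ω n).card : ℝ) : EReal) := by
    refine (ENNReal.log_le_log hsum).trans ?_
    rw [ENNReal.log_ofReal_of_pos (Real.rpow_pos_of_pos hc _), Real.log_rpow hc]
  have hpos : 0 < 1 / (1 - α) := by
    apply one_div_pos.2; linarith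
  calc ((1 / (1 - α) : ℝ) : EReal) * ENNReal.log (∑' g : {g // emp ω n g ≠ 0}, emp ω n g ^ α)
      ≤ ((1 / (1 - α) : ℝ) : EReal) * (((1 - α) * Real.log (occ ω n).card : ℝ) : EReal) := by
        gcongr
    _ = ((Real.log (occ ω n).card : ℝ) : EReal) := by
        rw [← EReal.coe_mul]
        congr 1
        have : 1 - α ≠ 0 := by linarith
        field_simp

lemma pos_congr (ω : List Bool → G) : ∀ v v' : List Bool, v.length = v'.length →
    (∀ k < v.length, ω (v.drop k) = ω (v'.drop k)) → pos ω v = pos ω v' := by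
  intro v
  induction v with
  | nil =>
    intro v' hl _
    cases v' with
    | nil => rfl
    | cons b u => simp at hl
  | cons b u ih =>
    intro v' hl h
    cases v' with
    | nil => simp at hl
    | cons b' u' =>
      simp only [List.length_cons, add_left_inj] at hl
      have h0 := h 0 (by simp)
      simp only [List.drop_zero] at h0
      have h1 := ih u' hl fun k hk => by
        have := h (k + 1) (by simp only [List.length_cons]; omega)
        simpa using this
      rw [pos, pos, h0, h1]

end Support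

section Prob

variable {m : ℕ} (lam : Fin m → ENNReal) (hsum : ∑ a, lam a = 1)

/-- the letters along `v` are given by `w` -/
def Match {n : ℕ} (ω : List Bool → FreeGroup (Fin m)) (v : Fin n → Bool) (w : Fin n → Fin m) :
    Prop := ∀ k : Fin n, ω ((List.ofFn v).drop k) = FreeGroup.of (w k)

lemma pos_of_match {n : ℕ} (ω : List Bool → FreeGroup (Fin m)) (v v' : Fin n → Bool)
    (w : Fin n → Fin m) (h : Match ω v w) (h' : Match ω v' w) :
    pos ω (List.ofFn v) = pos ω (List.ofFn v') := by
  apply pos_congr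
  · simp
  · intro k hk
    rw [List.length_ofFn] at hk
    rw [h ⟨k, hk⟩, h' ⟨k, hk⟩]

open Classical in
/-- words which occur -/
noncomputable def words (ω : List Bool → FreeGroup (Fin m)) (n : ℕ) : Finset (Fin n → Fin m) :=
  Finset.univ.filter fun w => ∃ v, Match ω v w

lemma occ_le_words (ω : List Bool → FreeGroup (Fin m)) (n : ℕ)
    (h : ∀ u, ∃ a, ω u = FreeGroup.of a) : (occ ω n).card ≤ (words ω n).card := by
  classical
  let φ : (Fin n → Fin m) → FreeGroup (Fin m) := fun w =>
    if hw : ∃ v, Match ω v w then pos ω (List.ofFn hw.choose) else 1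
  have hsub : occ ω n ⊆ (words ω n).image φ := by
    intro x hx
    rw [mem_occ] at hx
    obtain ⟨v, rfl⟩ := hx
    choose a ha using h
    have hm : Match ω v (fun k : Fin n => a ((List.ofFn v).drop k)) := fun k => ha _
    have hex : ∃ v', Match ω v' (fun k : Fin n => a ((List.ofFn v).drop k)) := ⟨v, hm⟩
    rw [Finset.mem_image]
    refine ⟨fun k => a ((List.ofFn v).drop k), ?_, ?_⟩
    · unfold words
      rw [Finset.mem_filter]
      exact ⟨Finset.mem_univ _, hex⟩
    · show (if hw : ∃ v', Match ω v' (fun k : Fin n => a ((List.ofFn v).drop k))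
        then pos ω (List.ofFn hw.choose) else 1) = _
      rw [dif_pos hex]
      exact pos_of_match ω _ v _ hex.choose_spec hm
  exact (Finset.card_le_card hsub).trans Finset.card_image_le

variable [MeasurableSpace (FreeGroup (Fin m))] [DiscreteMeasurableSpace (FreeGroup (Fin m))]

/-- law of the marks -/
noncomputable def marks {G : Type} [MeasurableSpace G] (μ : PMF G) : Measure (List Bool → G) :=
  Measure.infinitePi (fun _ : List Bool => μ.toMeasure)

instance {G : Type} [MeasurableSpace G] (μ : PMF G) : IsProbabilityMeasure (marks μ) := by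
  unfold marks; infer_instance

lemma toMeasure_of (a : Fin m) :
    (mu lam hsum).toMeasure {FreeGroup.of a} = lam a := by
  rw [PMF.toMeasure_apply_singleton _ _ MeasurableSet.of_discrete, mu_of]

lemma prob_match {n : ℕ} (v : Fin n → Bool) (w : Fin n → Fin m) :
    marks (mu lam hsum) {ω | Match ω v w} = ∏ k, lam (w k) := by
  classical
  have hlen : ∀ k : Fin n, ((List.ofFn v).drop k).length = n - k := by
    intro k; rw [List.length_drop, List.length_ofFn]
  have hinj : Set.InjOn (fun k : Fin n => (List.ofFn v).drop k)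
      ((Finset.univ : Finset (Fin n)) : Set (Fin n)) := by
    intro k _ k' _ h
    have h1 := congrArg List.length h
    simp only at h1
    rw [hlen, hlen] at h1
    apply Fin.ext
    have := k.2
    have := k'.2
    omega
  let t : List Bool → Set (FreeGroup (Fin m)) := fun u =>
    if h : n - u.length < n then {FreeGroup.of (w ⟨n - u.length, h⟩)} else Set.univ
  have ht : ∀ k : Fin n, t ((List.ofFn v).drop k) = {FreeGroup.of (w k)} := by
    intro k
    have h1 : n - ((List.ofFn v).drop k).length = k := by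
      rw [hlen]; have := k.2; omega
    have h2 : n - ((List.ofFn v).drop k).length < n := by rw [h1]; exact k.2
    show (if h : n - ((List.ofFn v).drop k).length < n then
      ({FreeGroup.of (w ⟨n - ((List.ofFn v).drop k).length, h⟩)} : Set (FreeGroup (Fin m)))
        else Set.univ) = _
    rw [dif_pos h2]
    congr 3
    exact Fin.ext h1
  have hset : {ω : List Bool → FreeGroup (Fin m) | Match ω v w}
      = Set.pi ((Finset.univ.image fun k : Fin n => (List.ofFn v).drop k : Finset (List Bool)) :
        Set (List Bool)) t := by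
    ext ω
    simp only [Set.mem_ofPred_eq, Set.mem_pi, Finset.coe_image, Finset.coe_univ, Set.image_univ,
      Set.mem_range, forall_exists_index, forall_apply_eq_imp_iff, ht, Set.mem_singleton_iff]
    rfl
  rw [hset]
  unfold marks
  rw [Measure.infinitePi_pi _ (fun _ _ => MeasurableSet.of_discrete), Finset.prod_image hinj]
  apply Finset.prod_congr rfl
  intro k _
  rw [ht, toMeasure_of]

lemma prob_exists_match {n : ℕ} (w : Fin n → Fin m) (θ : ℝ) (h0 : 0 < θ) (h1 : θ ≤ 1) :
    marks (mu lam hsum) {ω | ∃ v : Fin n → Bool, Match ω v w} ≤ ∏ k, (2 * lam (w k)) ^ θ := by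
  have e1 : marks (mu lam hsum) {ω | ∃ v : Fin n → Bool, Match ω v w} ≤ ∏ k, (2 * lam (w k)) := by
    have : {ω : List Bool → FreeGroup (Fin m) | ∃ v : Fin n → Bool, Match ω v w}
        = ⋃ v : Fin n → Bool, {ω | Match ω v w} := by
      ext ω; simp
    rw [this]
    refine (measure_iUnion_fintype_le _ _).trans ?_
    simp only [prob_match lam hsum]
    rw [Finset.sum_const, Finset.prod_mul_distrib, Finset.prod_const, Finset.card_univ,
      Finset.card_univ]
    simp
  rw [ENNReal.prod_rpow_of_nonneg h0.le]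
  rcases le_total (∏ k, (2 * lam (w k))) 1 with h | h
  · refine e1.trans ?_
    have := ENNReal.rpow_le_rpow_of_exponent_ge h h1
    rwa [ENNReal.rpow_one] at this
  · exact prob_le_one.trans (ENNReal.one_le_rpow h h0)

lemma measurableSet_match {n : ℕ} (v : Fin n → Bool) (w : Fin n → Fin m) :
    MeasurableSet {ω : List Bool → FreeGroup (Fin m) | Match ω v w} := by
  unfold Match
  simp only [Set.ofPred_forall]
  refine MeasurableSet.iInter fun k => ?_
  have h : MeasurableSet ({FreeGroup.of (w k)} : Set (FreeGroup (Fin m))) :=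
    MeasurableSet.of_discrete
  have h2 : Measurable (fun ω : List Bool → FreeGroup (Fin m) => ω ((List.ofFn v).drop k)) :=
    measurable_pi_apply _
  exact h2 h

lemma prob_words (n : ℕ) (θ : ℝ) (h0 : 0 < θ) (h1 : θ ≤ 1) (L : ENNReal) (hL : L ≠ 0)
    (hL' : L ≠ ⊤) :
    marks (mu lam hsum) {ω | L ^ n ≤ ((words ω n).card : ENNReal)}
      ≤ ((∑ a, (2 * lam a) ^ θ) / L) ^ n := by
  classical
  have hcard : ∀ ω : List Bool → FreeGroup (Fin m), ((words ω n).card : ENNReal)
      = ∑ w : Fin n → Fin m, Set.indicator {ω | ∃ v : Fin n → Bool, Match ω v w} 1 ω := by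
    intro ω
    unfold words
    rw [Finset.card_filter]
    push_cast
    apply Finset.sum_congr rfl
    intro w _
    by_cases h : ∃ v, Match ω v w
    · rw [if_pos h, Set.indicator_of_mem (show ω ∈ {ω | ∃ v : Fin n → Bool, Match ω v w} from h)]
      rfl
    · rw [if_neg h, Set.indicator_of_notMem (show ω ∉ {ω | ∃ v : Fin n → Bool, Match ω v w} from h)]
  have hms : ∀ w : Fin n → Fin m, MeasurableSet
      {ω : List Bool → FreeGroup (Fin m) | ∃ v : Fin n → Bool, Match ω v w} := by
    intro w
    have : {ω : List Bool → FreeGroup (Fin m) | ∃ v : Fin n → Bool, Match ω v w}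
        = ⋃ v : Fin n → Bool, {ω | Match ω v w} := by
      ext ω; simp
    rw [this]
    exact MeasurableSet.iUnion fun v => measurableSet_match v w
  have hmeas : Measurable fun ω : List Bool → FreeGroup (Fin m) => ((words ω n).card : ENNReal) := by
    simp only [hcard]
    exact Finset.measurable_sum _ fun w _ => measurable_one.indicator (hms w)
  refine (meas_ge_le_lintegral_div hmeas.aemeasurable (pow_ne_zero _ hL)
    (ENNReal.pow_ne_top hL')).trans ?_
  simp only [hcard]
  rw [lintegral_finsetSum _ fun w _ => measurable_one.indicator (hms w)]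
  simp only [lintegral_indicator_one (hms _)]
  rw [div_eq_mul_inv, div_eq_mul_inv, mul_pow, ENNReal.inv_pow]
  gcongr
  rw [Fintype.sum_pow]
  exact Finset.sum_le_sum fun w _ => prob_exists_match lam hsum w θ h0 h1

lemma ae_letters : ∀ᵐ ω ∂(marks (mu lam hsum)), ∀ u, ∃ a, ω u = FreeGroup.of a := by
  rw [ae_all_iff]
  intro u
  rw [ae_iff]
  have h1 : {ω : List Bool → FreeGroup (Fin m) | ¬ ∃ a, ω u = FreeGroup.of a}
      = (fun ω => ω u) ⁻¹' {g | ∃ a, g = FreeGroup.of a}ᶜ := rfl
  unfold marks
  rw [h1, ← Measure.map_apply (measurable_pi_apply u) MeasurableSet.of_discrete,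
    Measure.infinitePi_map_eval, prob_compl_eq_zero_iff MeasurableSet.of_discrete,
    PMF.toMeasure_apply_eq_one_iff _ MeasurableSet.of_discrete]
  intro g hg
  unfold mu at hg
  rw [PMF.support_map] at hg
  obtain ⟨a, _, rfl⟩ := hg
  exact ⟨a, rfl⟩

/-- almost surely the number of occupied points grows at a rate smaller than two -/
theorem ae_occ (θ : ℝ) (h0 : 0 < θ) (h1 : θ ≤ 1) (L : ℝ) (hL : 0 < L)
    (hK : ∑ a, (2 * lam a) ^ θ < ENNReal.ofReal L) :
    ∀ᵐ ω ∂(marks (mu lam hsum)), ∀ᶠ n in atTop, ((occ ω n).card : ℝ) ≤ L ^ n := by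
  have hL0 : ENNReal.ofReal L ≠ 0 := (ENNReal.ofReal_pos.2 hL).ne'
  have hbc : ∀ᵐ ω ∂(marks (mu lam hsum)), ∀ᶠ n in atTop,
      ω ∉ {ω | ENNReal.ofReal L ^ n ≤ ((words ω n).card : ENNReal)} := by
    apply ae_eventually_notMem
    refine ne_top_of_le_ne_top ?_ (ENNReal.tsum_le_tsum fun n =>
      prob_words lam hsum n θ h0 h1 (ENNReal.ofReal L) hL0 ENNReal.ofReal_ne_top)
    rw [ENNReal.tsum_geometric]
    apply ENNReal.inv_ne_top.2
    rw [← pos_iff_ne_zero, tsub_pos_iff_lt]
    exact ENNReal.div_lt_of_lt_mul (by rwa [one_mul])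
  filter_upwards [hbc, ae_letters lam hsum] with ω hω1 hω2
  filter_upwards [hω1] with n hn
  have h3 : ((words ω n).card : ENNReal) < ENNReal.ofReal L ^ n := not_le.1 hn
  have h4 : ((words ω n).card : ℝ) ≤ L ^ n := by
    have h5 := h3.le
    rw [← ENNReal.ofReal_pow hL.le, ← ENNReal.ofReal_natCast] at h5
    exact (ENNReal.ofReal_le_ofReal_iff (by positivity)).1 h5
  exact le_trans (by exact_mod_cast occ_le_words ω n hω2) h4

end Prob

end Q293.Renyi
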