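import Mathlib

/-!
# A choice of parameters
-/

set_option autoImplicit false

namespace Q293.Renyi

lemma exists_param (α : ℝ) (h0 : 0 ≤ α) (h1 : α < 1) :
    ∃ (m : ℕ) (lam : Fin m → ℝ), 2 ≤ m ∧ (∀ a, 0 < lam a) ∧ ∑ a, lam a = 1 ∧
      (2 : ℝ) ^ (1 - α) ≤ ∑ a, lam a ^ α ∧ ∑ a, (2 * lam a) ^ ((1 + α) / 2) < 2 := by
  set b : ℝ := 2 ^ ((1 - α) / 2) with hb
  have hb1 : 1 < b := Real.one_lt_rpow (by norm_num) (by linarith)
  have hb2 : b ≤ 2 := by
    calc b ≤ 2 ^ (1 : ℝ) := Real.rpow_le_rpow_of_exponent_le (by norm_num) (by linarith)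
      _ = 2 := Real.rpow_one 2
  set δ : ℝ := (b - 1) / 4 with hδ
  have hδ0 : 0 < δ := by rw [hδ]; linarith
  have hδ1 : δ ≤ 1 / 4 := by rw [hδ]; linarith
  set ε : ℝ := δ ^ 2 with hε
  have hε0 : 0 < ε := by positivity
  have hε1 : ε < 1 := by rw [hε]; nlinarith
  set x : ℝ := ε ^ (-α / (1 - α)) with hx
  have h1α : 0 < 1 - α := by linarith
  have hx1 : 1 ≤ x := Real.one_le_rpow_of_pos_of_le_one_of_nonpos hε0 hε1.le
    (div_nonpos_of_nonpos_of_nonneg (by linarith) h1α.le)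
  set M : ℕ := ⌈2 * x⌉₊ with hM
  have hM1 : 2 * x ≤ M := Nat.le_ceil _
  have hM2 : (M : ℝ) ≤ 3 * x := by
    have := (Nat.ceil_lt_add_one (by positivity : 0 ≤ 2 * x)).le
    rw [← hM] at this
    linarith
  have hM0 : (0 : ℝ) < M := by linarith
  refine ⟨M + 1, Fin.cons (1 - ε) (fun _ => ε / M), ?_, ?_, ?_, ?_, ?_⟩
  · have : 1 ≤ M := by exact_mod_cast (by linarith : (1 : ℝ) ≤ M)
    omega
  · intro a
    refine Fin.cases ?_ (fun i => ?_) a
    · rw [Fin.cons_zero]; linarith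
    · rw [Fin.cons_succ]; positivity
  · rw [Fin.sum_univ_succ]
    simp only [Fin.cons_zero, Fin.cons_succ, Finset.sum_const, Finset.card_univ, Fintype.card_fin,
      nsmul_eq_mul]
    field_simp
    ring
  · rw [Fin.sum_univ_succ]
    simp only [Fin.cons_zero, Fin.cons_succ, Finset.sum_const, Finset.card_univ, Fintype.card_fin,
      nsmul_eq_mul]
    have e1 : (M : ℝ) * (ε / M) ^ α = (M : ℝ) ^ (1 - α) * ε ^ α := by
      rw [Real.div_rpow hε0.le hM0.le, Real.rpow_sub hM0, Real.rpow_one]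
      ring
    have e2 : (2 : ℝ) ^ (1 - α) = (2 * x) ^ (1 - α) * ε ^ α := by
      rw [Real.mul_rpow (by norm_num) (by linarith), hx, ← Real.rpow_mul hε0.le, mul_assoc,
        ← Real.rpow_add hε0]
      have : -α / (1 - α) * (1 - α) + α = 0 := by
        field_simp
        ring
      rw [this, Real.rpow_zero, mul_one]
    rw [e1, e2]
    have h3 : (2 * x) ^ (1 - α) ≤ (M : ℝ) ^ (1 - α) :=
      Real.rpow_le_rpow (by positivity) hM1 h1α.le
    have h4 : 0 ≤ (1 - ε) ^ α := Real.rpow_nonneg (by linarith) _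
    have h5 : 0 ≤ ε ^ α := Real.rpow_nonneg hε0.le _
    nlinarith [mul_le_mul_of_nonneg_right h3 h5]
  · rw [Fin.sum_univ_succ]
    simp only [Fin.cons_zero, Fin.cons_succ, Finset.sum_const, Finset.card_univ, Fintype.card_fin,
      nsmul_eq_mul]
    set θ : ℝ := (1 + α) / 2 with hθ
    have hθ1 : 0 < 1 - θ := by rw [hθ]; linarith
    have hθ0 : 0 < θ := by rw [hθ]; linarith
    have e1 : (M : ℝ) * (2 * (ε / M)) ^ θ = 2 ^ θ * ((M : ℝ) ^ (1 - θ) * ε ^ θ) := by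
      rw [Real.mul_rpow (by norm_num) (by positivity), Real.div_rpow hε0.le hM0.le,
        Real.rpow_sub hM0, Real.rpow_one]
      ring
    have e2 : (2 * (1 - ε)) ^ θ ≤ 2 ^ θ * 1 := by
      rw [Real.mul_rpow (by norm_num) (by linarith)]
      gcongr
      exact Real.rpow_le_one (by linarith) (by linarith) hθ0.le
    have e3 : (M : ℝ) ^ (1 - θ) * ε ^ θ ≤ 3 * δ := by
      have h3 : (M : ℝ) ^ (1 - θ) ≤ (3 * x) ^ (1 - θ) :=
        Real.rpow_le_rpow hM0.le hM2 hθ1.le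
      have h4 : (3 * x) ^ (1 - θ) * ε ^ θ = 3 ^ (1 - θ) * δ := by
        rw [Real.mul_rpow (by norm_num) (by linarith), hx, ← Real.rpow_mul hε0.le, mul_assoc,
          ← Real.rpow_add hε0]
        have : -α / (1 - α) * (1 - θ) + θ = 1 / 2 := by
          rw [hθ]
          field_simp
          ring
        rw [this, ← Real.sqrt_eq_rpow, hε, Real.sqrt_sq hδ0.le]
      have h5 : (3 : ℝ) ^ (1 - θ) ≤ 3 := by
        calc (3 : ℝ) ^ (1 - θ) ≤ 3 ^ (1 : ℝ) :=
              Real.rpow_le_rpow_of_exponent_le (by norm_num) (by linarith)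
          _ = 3 := Real.rpow_one 3
      have h6 : 0 ≤ ε ^ θ := Real.rpow_nonneg hε0.le _
      calc (M : ℝ) ^ (1 - θ) * ε ^ θ ≤ (3 * x) ^ (1 - θ) * ε ^ θ := by gcongr
        _ = 3 ^ (1 - θ) * δ := h4
        _ ≤ 3 * δ := by gcongr
    have hbb : (2 : ℝ) ^ θ * b = 2 := by
      rw [hb, ← Real.rpow_add (by norm_num)]
      have : θ + (1 - α) / 2 = 1 := by rw [hθ]; ring
      rw [this, Real.rpow_one]
    have h2θ : (0 : ℝ) < 2 ^ θ := by positivity
    calc (2 * (1 - ε)) ^ θ + (M : ℝ) * (2 * (ε / M)) ^ θ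
        ≤ 2 ^ θ * 1 + 2 ^ θ * (3 * δ) := by rw [e1]; gcongr
      _ = 2 ^ θ * (1 + 3 * δ) := by ring
      _ < 2 ^ θ * b := by
          gcongr
          rw [hδ]; linarith
      _ = 2 := hbb

end Q293.Renyi
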