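import Mathlib

/-!
# Semigroups generated by bounded operators: invariant cones and the Duhamel formula
-/

set_option autoImplicit false
set_option linter.unusedSectionVars false

open Filter Topology MeasureTheory

namespace Q293.Sgp

variable {E : Type*} [NormedAddCommGroup E] [NormedSpace ℝ E] [CompleteSpace E]

lemma exp_add_comm {A B : E →L[ℝ] E} (h : Commute A B) :
    NormedSpace.exp (A + B) = NormedSpace.exp A * NormedSpace.exp B :=
  NormedSpace.exp_add_of_commute_of_mem_ball (𝕂 := ℝ) h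
    ((NormedSpace.expSeries_radius_eq_top ℝ (E →L[ℝ] E)).symm ▸ edist_lt_top _ _)
    ((NormedSpace.expSeries_radius_eq_top ℝ (E →L[ℝ] E)).symm ▸ edist_lt_top _ _)

/-- the semigroup generated by `A` -/
noncomputable def sg (A : E →L[ℝ] E) (t : ℝ) : E →L[ℝ] E := NormedSpace.exp (t • A)

lemma sg_zero (A : E →L[ℝ] E) : sg A 0 = 1 := by
  unfold sg
  rw [zero_smul, NormedSpace.exp_zero]

lemma sg_add (A : E →L[ℝ] E) (s t : ℝ) : sg A (s + t) = sg A s * sg A t := by
  unfold sg
  rw [add_smul]
  exact exp_add_comm ((Commute.refl A).smul_left s |>.smul_right t)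

lemma sg_add_apply (A : E →L[ℝ] E) (s t : ℝ) (f : E) : sg A (s + t) f = sg A s (sg A t f) := by
  rw [sg_add]; rfl

lemma hasDerivAt_sg (A : E →L[ℝ] E) (t : ℝ) : HasDerivAt (fun s => sg A s) (sg A t * A) t :=
  hasDerivAt_exp_smul_const A t

lemma hasDerivAt_sg' (A : E →L[ℝ] E) (t : ℝ) : HasDerivAt (fun s => sg A s) (A * sg A t) t :=
  hasDerivAt_exp_smul_const' A t

lemma sg_comm (A : E →L[ℝ] E) (t : ℝ) (f : E) : sg A t (A f) = A (sg A t f) := by
  have h := (hasDerivAt_sg A t).unique (hasDerivAt_sg' A t)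
  exact congrArg (fun B : E →L[ℝ] E => B f) h

lemma hasDerivAt_sg_apply (A : E →L[ℝ] E) (t : ℝ) (f : E) :
    HasDerivAt (fun s => sg A s f) (A (sg A t f)) t := by
  have h := (hasDerivAt_sg' A t).clm_apply (hasDerivAt_const t f)
  simpa using h

lemma continuous_sg_apply (A : E →L[ℝ] E) (f : E) : Continuous fun s => sg A s f :=
  continuous_iff_continuousAt.2 fun t => (hasDerivAt_sg_apply A t f).continuousAt

lemma continuous_sg (A : E →L[ℝ] E) : Continuous fun s => sg A s :=
  continuous_iff_continuousAt.2 fun t => (hasDerivAt_sg A t).continuousAt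

/-- shifting the generator by a multiple of the identity -/
lemma sg_shift (A : E →L[ℝ] E) (M t : ℝ) (f : E) :
    sg A t f = Real.exp (-(t * M)) • sg (A + M • 1) t f := by
  have h1 : sg (A + M • 1) t = sg A t * NormedSpace.exp (t • (M • (1 : E →L[ℝ] E))) := by
    unfold sg
    rw [smul_add]
    apply exp_add_comm
    exact ((Commute.one_right A).smul_right M).smul_right t |>.smul_left t
  have h2 : NormedSpace.exp (t • (M • (1 : E →L[ℝ] E))) = Real.exp (t * M) • (1 : E →L[ℝ] E) := by
    rw [smul_smul, Real.exp_eq_exp_ℝ]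
    have := NormedSpace.algebraMap_exp_comm (𝕂 := ℝ) (𝔸 := E →L[ℝ] E) (t * M)
    rw [Algebra.algebraMap_eq_smul_one, Algebra.algebraMap_eq_smul_one] at this
    exact this.symm
  rw [h1, h2]
  simp only [mul_smul_comm, mul_one, smul_apply, smul_smul]
  rw [← Real.exp_add]
  simp

/-- the exponential series of a vector -/
lemma hasSum_sg (A : E →L[ℝ] E) (t : ℝ) (f : E) :
    HasSum (fun n : ℕ => ((n.factorial : ℝ)⁻¹ * t ^ n) • (A ^ n) f) (sg A t f) := by
  have h := NormedSpace.exp_series_hasSum_exp' (𝕂 := ℝ) (t • A)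
  have h2 := h.mapL (ContinuousLinearMap.apply ℝ E f)
  have e : ∀ n : ℕ, ((n.factorial : ℝ)⁻¹ * t ^ n) • (A ^ n) f
      = ContinuousLinearMap.apply ℝ E f (((n.factorial : ℝ)⁻¹) • (t • A) ^ n) := by
    intro n
    rw [ContinuousLinearMap.apply_apply, smul_pow, smul_smul]
    rfl
  simp only [e]
  exact h2

/-- a closed cone invariant under `A + M` is invariant under the semigroup of `A` -/
lemma cone (A : E →L[ℝ] E) (M : ℝ) (C : Set E) (hC : IsClosed C) (h0 : (0 : E) ∈ C)
    (hadd : ∀ f ∈ C, ∀ g ∈ C, f + g ∈ C) (hsmul : ∀ c : ℝ, 0 ≤ c → ∀ f ∈ C, c • f ∈ C)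
    (hA : ∀ f ∈ C, A f + M • f ∈ C) (t : ℝ) (ht : 0 ≤ t) (f : E) (hf : f ∈ C) :
    sg A t f ∈ C := by
  rw [sg_shift A M t f]
  apply hsmul _ (Real.exp_pos _).le
  have hpow : ∀ n : ℕ, ((A + M • 1) ^ n) f ∈ C := by
    intro n
    induction n with
    | zero => simpa using hf
    | succ n ih =>
      rw [pow_succ']
      have := hA _ ih
      simpa using this
  apply hC.mem_of_tendsto (hasSum_sg (A + M • 1) t f)
  apply Filter.Eventually.of_forall
  intro s
  induction s using Finset.cons_induction with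
  | empty => simpa using h0
  | cons a s ha ih =>
    rw [Finset.sum_cons]
    exact hadd _ (hsmul _ (by positivity) _ (hpow a)) _ ih

/-- variation of constants -/
lemma duhamel (A : E →L[ℝ] E) (Y : ℝ → E) (s : ℝ → ℝ) (v : E) (hs : Continuous s)
    (hY : ∀ r, HasDerivAt Y (A (Y r) + s r • v) r) (t : ℝ) :
    Y t = sg A t (Y 0) + ∫ r in (0 : ℝ)..t, s r • sg A (t - r) v := by
  have h1 : ∀ r, HasDerivAt (fun r => sg A (t - r) (Y r)) (s r • sg A (t - r) v) r := by
    intro r
    have h2 : HasDerivAt (fun r => sg A (t - r)) (-(sg A (t - r) * A)) r := by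
      have h3 := (hasDerivAt_sg A (t - r)).scomp r ((hasDerivAt_id r).const_sub t)
      refine h3.congr_deriv ?_
      rw [neg_smul, one_smul]
    have h4 := h2.clm_apply (hY r)
    convert h4 using 1
    simp only [neg_apply, map_add, map_smul]
    have : (sg A (t - r) * A) (Y r) = sg A (t - r) (A (Y r)) := rfl
    rw [this]
    abel
  have hcont : Continuous fun r => s r • sg A (t - r) v :=
    hs.smul ((continuous_sg_apply A v).comp (continuous_const.sub continuous_id))
  have h5 := intervalIntegral.integral_eq_sub_of_hasDerivAt (a := 0) (b := t)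
    (fun r _ => h1 r) (hcont.intervalIntegrable _ _)
  rw [sub_self, sub_zero, sg_zero] at h5
  have h6 : (1 : E →L[ℝ] E) (Y t) = Y t := rfl
  rw [h6] at h5
  rw [h5]
  abel

end Q293.Sgp
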