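import Pool.Agent.Q293.HaloFree

/-!
A group acting on a tree, with a homomorphism to `G` which is injective on vertex stabilizers,
embeds into the semidirect product of a free group on a `G`-set with `G`.
-/

namespace Pool.Agent.Q293.HP

open SimpleGraph

section

variable {Γ G V : Type} [Group Γ] [Group G] [MulAction Γ V] (T : SimpleGraph V) (ρ : Γ →* G)

/-- darts of the graph -/
abbrev Dt : Type := {p : V × V // T.Adj p.1 p.2}

/-- the equivalence relation defining the induced set of darts -/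
def indSetoid : Setoid (G × Dt T) where
  r a b := ∃ γ : Γ, b.1 = a.1 * (ρ γ)⁻¹ ∧ b.2.1.1 = γ • a.2.1.1 ∧ b.2.1.2 = γ • a.2.1.2
  iseqv :=
    { refl := fun a => ⟨1, by simp, by simp, by simp⟩
      symm := by
        rintro a b ⟨γ, h1, h2, h3⟩
        exact ⟨γ⁻¹, by simp [h1], by simp [h2], by simp [h3]⟩
      trans := by
        rintro a b c ⟨γ, h1, h2, h3⟩ ⟨γ', h1', h2', h3'⟩
        refine ⟨γ' * γ, ?_, ?_, ?_⟩
        · rw [h1', h1, map_mul]; group
        · rw [h2', h2, mul_smul]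
        · rw [h3', h3, mul_smul] }

/-- the induced set of darts -/
def Ind : Type := Quotient (indSetoid T ρ)

instance : MulAction G (Ind T ρ) where
  smul g := Quotient.map (fun a => (g * a.1, a.2)) (by
    rintro a b ⟨γ, h1, h2, h3⟩
    exact ⟨γ, by rw [h1]; group, h2, h3⟩)
  one_smul x := by
    induction x using Quotient.inductionOn with
    | h a => exact congrArg (Quotient.mk _) (Prod.ext (one_mul _) rfl)
  mul_smul g h x := by
    induction x using Quotient.inductionOn with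
    | h a => exact congrArg (Quotient.mk _) (Prod.ext (mul_assoc _ _ _) rfl)

/-- the class of a dart -/
def dt (v w : V) (h : T.Adj v w) : Ind T ρ := Quotient.mk (indSetoid T ρ) (1, ⟨(v, w), h⟩)

theorem ind_surj (x : Ind T ρ) : ∃ (g : G) (v w : V) (h : T.Adj v w), x = g • dt T ρ v w h := by
  induction x using Quotient.inductionOn with
  | h a =>
    obtain ⟨g, ⟨⟨v, w⟩, h⟩⟩ := a
    refine ⟨g, v, w, h, ?_⟩
    exact congrArg (Quotient.mk (indSetoid T ρ)) (Prod.ext (mul_one g).symm rfl)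

theorem smul_dt_eq_iff (g g' : G) (v w v' w' : V) (h : T.Adj v w) (h' : T.Adj v' w') :
    g • dt T ρ v w h = g' • dt T ρ v' w' h' ↔
      ∃ γ : Γ, g' = g * (ρ γ)⁻¹ ∧ v' = γ • v ∧ w' = γ • w := by
  have h1 : g • dt T ρ v w h = g' • dt T ρ v' w' h' ↔
      (indSetoid T ρ) (g * 1, ⟨(v, w), h⟩) (g' * 1, ⟨(v', w'), h'⟩) := Quotient.eq
  rw [h1, mul_one, mul_one]
  exact Iff.rfl

theorem dt_eq_iff (v w v' w' : V) (h : T.Adj v w) (h' : T.Adj v' w') :
    dt T ρ v w h = dt T ρ v' w' h' ↔ ∃ γ : Γ, ρ γ = 1 ∧ v' = γ • v ∧ w' = γ • w := by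
  have h1 := smul_dt_eq_iff T ρ 1 1 v w v' w' h h'
  rw [one_smul, one_smul] at h1
  rw [h1]
  constructor
  · rintro ⟨γ, h2, h3⟩
    refine ⟨γ, ?_, h3⟩
    rw [one_mul] at h2
    exact inv_eq_one.1 h2.symm
  · rintro ⟨γ, h2, h3⟩
    exact ⟨γ, by rw [h2]; simp, h3⟩

variable {T}

theorem smul_dt (hadj : ∀ (γ : Γ) (v w : V), T.Adj v w → T.Adj (γ • v) (γ • w))
    (γ : Γ) (v w : V) (h : T.Adj v w) :
    ρ γ • dt T ρ v w h = dt T ρ (γ • v) (γ • w) (hadj γ v w h) := by
  have h1 := smul_dt_eq_iff T ρ (ρ γ) 1 v w (γ • v) (γ • w) h (hadj γ v w h)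
  rw [one_smul] at h1
  rw [h1]
  exact ⟨γ, by simp, rfl, rfl⟩

/-- the letters of a walk -/
def wl : ∀ {a b : V}, T.Walk a b → List (Ind T ρ × Bool)
  | _, _, Walk.nil => []
  | a, _, Walk.cons (v := b) h p => (dt T ρ a b h, true) :: (dt T ρ b a h.symm, false) :: wl p

/-- the element of the free group given by a walk -/
def wd {a b : V} (p : T.Walk a b) : FreeGroup (Ind T ρ) := FreeGroup.mk (wl ρ p)

/-- the element of an edge -/
def yy {a b : V} (h : T.Adj a b) : FreeGroup (Ind T ρ) :=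
  FreeGroup.of (dt T ρ a b h) * (FreeGroup.of (dt T ρ b a h.symm))⁻¹

theorem wd_nil (a : V) : wd ρ (Walk.nil : T.Walk a a) = 1 := rfl

theorem wd_cons {a b c : V} (h : T.Adj a b) (p : T.Walk b c) :
    wd ρ (Walk.cons h p) = yy ρ h * wd ρ p := by
  rfl

theorem wd_append {a b c : V} (p : T.Walk a b) (q : T.Walk b c) :
    wd ρ (p.append q) = wd ρ p * wd ρ q := by
  induction p with
  | nil => rw [Walk.nil_append, wd_nil, one_mul]
  | cons h p ih => rw [Walk.cons_append, wd_cons, wd_cons, ih, mul_assoc]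

theorem wd_concat {a b c : V} (p : T.Walk a b) (h : T.Adj b c) :
    wd ρ (p.concat h) = wd ρ p * yy ρ h := by
  rw [Walk.concat_eq_append, wd_append, wd_cons, wd_nil, mul_one]

theorem yy_symm {a b : V} (h : T.Adj a b) : yy ρ h.symm = (yy ρ h)⁻¹ := by
  rw [yy, yy, mul_inv_rev, inv_inv]

/-- the words of paths are reduced -/
theorem isReduced_wl (hinv : ∀ (γ : Γ) (v w : V), T.Adj v w → ¬ (γ • v = w ∧ γ • w = v))
    (hρ : ∀ (γ : Γ) (v : V), γ • v = v → ρ γ = 1 → γ = 1) {a b : V} (p : T.Walk a b)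
    (hp : p.IsPath) : FreeGroup.IsReduced (wl ρ p) := by
  induction p with
  | nil => exact FreeGroup.IsReduced.nil
  | @cons a b c h p ih =>
    rw [Walk.cons_isPath_iff] at hp
    have ih' := ih hp.1
    show FreeGroup.IsReduced
      ((dt T ρ a b h, true) :: (dt T ρ b a h.symm, false) :: wl ρ p)
    rw [FreeGroup.isReduced_cons_cons]
    refine ⟨?_, ?_⟩
    · intro he
      obtain ⟨γ, _, h2, h3⟩ := (dt_eq_iff T ρ _ _ _ _ h h.symm).1 he
      exact absurd ⟨h2.symm, h3.symm⟩ (hinv γ a b h)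
    · cases p with
      | nil => exact FreeGroup.IsReduced.singleton
      | @cons _ d _ h' p' =>
        show FreeGroup.IsReduced
          ((dt T ρ b a h.symm, false) :: (dt T ρ b d h', true) :: _)
        rw [FreeGroup.isReduced_cons_cons]
        refine ⟨?_, ih'⟩
        intro he
        obtain ⟨γ, h1, h2, h3⟩ := (dt_eq_iff T ρ _ _ _ _ h.symm h').1 he
        have h4 := hρ γ b h2.symm h1
        rw [h4, one_smul] at h3
        exfalso
        apply hp.2
        rw [← h3, Walk.support_cons]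
        exact List.mem_cons_of_mem _ p'.start_mem_support

theorem wd_ne_one (hinv : ∀ (γ : Γ) (v w : V), T.Adj v w → ¬ (γ • v = w ∧ γ • w = v))
    (hρ : ∀ (γ : Γ) (v : V), γ • v = v → ρ γ = 1 → γ = 1) {a b : V} (p : T.Walk a b)
    (hp : p.IsPath) (h : wd ρ p = 1) : a = b := by
  classical
  cases p with
  | nil => rfl
  | @cons _ d _ h' p' =>
    exfalso
    have h1 := (isReduced_wl ρ hinv hρ _ hp).reduce_eq
    have h2 := congrArg FreeGroup.toWord h
    rw [wd, FreeGroup.toWord_mk, FreeGroup.toWord_one, h1] at h2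
    simp [wl] at h2

section Pot

variable (hT : T.IsTree)

/-- the path in the tree -/
noncomputable def tp (a b : V) : T.Walk a b := (hT.existsUnique_path a b).choose

theorem tp_isPath (a b : V) : (tp hT a b).IsPath := (hT.existsUnique_path a b).choose_spec.1

theorem tp_unique {a b : V} (p : T.Walk a b) (hp : p.IsPath) : p = tp hT a b :=
  (hT.existsUnique_path a b).choose_spec.2 p hp

theorem wd_step (v a b : V) (h : T.Adj a b) :
    wd ρ (tp hT v b) = wd ρ (tp hT v a) * yy ρ h := by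
  by_cases ha : a ∈ (tp hT v b).support
  · rw [hT.isAcyclic.path_concat (tp_isPath hT v a) (tp_isPath hT v b) h ha, wd_concat]
  · have hb := hT.isAcyclic.mem_support_of_ne_mem_support_of_adj_of_isPath
      (tp_isPath hT v a) (tp_isPath hT v b) h ha
    rw [hT.isAcyclic.path_concat (tp_isPath hT v b) (tp_isPath hT v a) h.symm hb, wd_concat,
      yy_symm ρ h, inv_mul_cancel_right]

theorem wd_walk (v : V) {a b : V} (p : T.Walk a b) :
    wd ρ (tp hT v b) = wd ρ (tp hT v a) * wd ρ p := by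
  induction p with
  | nil => rw [wd_nil, mul_one]
  | cons h p ih => rw [ih, wd_cons, ← mul_assoc, ← wd_step]

theorem wd_map (hadj : ∀ (γ : Γ) (v w : V), T.Adj v w → T.Adj (γ • v) (γ • w)) (γ : Γ)
    {a b : V} (p : T.Walk a b) :
    wd ρ (p.map (⟨fun v => γ • v, fun h => hadj γ _ _ h⟩ : T →g T)) =
      FreeGroup.map (fun x => ρ γ • x) (wd ρ p) := by
  induction p with
  | nil => rw [Walk.map_nil, wd_nil, wd_nil, map_one]
  | cons h p ih =>
    rw [Walk.map_cons, wd_cons, wd_cons, ih, map_mul]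
    congr 1
    rw [yy, yy, map_mul, map_inv, FreeGroup.map.of, FreeGroup.map.of, smul_dt ρ hadj,
      smul_dt ρ hadj]
    rfl

/-- the cocycle -/
theorem cocycle (hadj : ∀ (γ : Γ) (v w : V), T.Adj v w → T.Adj (γ • v) (γ • w)) (v : V)
    (γ γ' : Γ) : wd ρ (tp hT v ((γ * γ') • v)) = wd ρ (tp hT v (γ • v)) *
      FreeGroup.map (fun x => ρ γ • x) (wd ρ (tp hT v (γ' • v))) := by
  rw [← wd_map ρ hadj γ]
  have h1 := wd_walk ρ hT v ((tp hT v (γ' • v)).map
    (⟨fun v => γ • v, fun h => hadj γ _ _ h⟩ : T →g T))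
  rw [mul_smul]
  exact h1

end Pot

end

end Pool.Agent.Q293.HP
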