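import Pool.Agent.Q293.TreeRet
import Pool.Agent.Q293.BiasC

/-!
# Growth of Galton–Watson trees
-/

set_option autoImplicit false
set_option linter.unusedSectionVars false

open Filter Topology Finset MeasureTheory

namespace Q293.TreeWalk

/-- independent offspring numbers -/
noncomputable def treeLaw (q : PMF ℕ) : Measure (List ℕ → ℕ) :=
  Measure.infinitePi (fun _ : List ℕ => q.toMeasure)

instance (q : PMF ℕ) : IsProbabilityMeasure (treeLaw q) := by unfold treeLaw; infer_instance

lemma inTree_update (N : List ℕ → ℕ) (w : List ℕ) (c : ℕ) :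
    ∀ v : List ℕ, v.length ≤ w.length → (InTree (Function.update N w c) v ↔ InTree N v) := by
  intro v
  induction v with
  | nil => intro _; simp [InTree]
  | cons i v ih =>
    intro hv
    simp only [List.length_cons] at hv
    rw [InTree, InTree, ih (by omega), Function.update_of_ne]
    rintro rfl
    omega

lemma meas_inTree (v : List ℕ) : MeasurableSet {N : List ℕ → ℕ | InTree N v} := by
  induction v with
  | nil => simp [InTree]
  | cons i v ih =>
    have : {N : List ℕ → ℕ | InTree N (i :: v)} = {N | InTree N v} ∩ {N | i < N v} := by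
      ext N; simp [InTree]
    rw [this]
    apply ih.inter
    exact (measurable_pi_apply v : Measurable fun N : List ℕ → ℕ => N v)
      (MeasurableSet.of_discrete (s := {k | i < k}))

open Classical in
/-- indicator of belonging to the tree at a given level -/
noncomputable def ind (k : ℕ) (N : List ℕ → ℕ) (v : List ℕ) : ENNReal :=
  if InTree N v ∧ v.length = k then 1 else 0

lemma measurable_ind (k : ℕ) (v : List ℕ) : Measurable fun N => ind k N v := by
  have hm : MeasurableSet {N : List ℕ → ℕ | InTree N v ∧ v.length = k} := by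
    by_cases hv : v.length = k
    · have : {N : List ℕ → ℕ | InTree N v ∧ v.length = k} = {N | InTree N v} := by
        ext N; simp [hv]
      rw [this]; exact meas_inTree v
    · have : {N : List ℕ → ℕ | InTree N v ∧ v.length = k} = ∅ := by
        ext N; simp [hv]
      rw [this]; exact MeasurableSet.empty
  unfold ind
  exact Measurable.ite hm measurable_const measurable_const

lemma ind_update (k : ℕ) (N : List ℕ → ℕ) (v : List ℕ) (c : ℕ) :
    ind k (Function.update N v c) v = ind k N v := by
  unfold ind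
  rw [inTree_update N v c v le_rfl]

lemma card_eq_tsum (k : ℕ) (N : List ℕ → ℕ) : ((level N k).card : ENNReal) = ∑' v, ind k N v := by
  rw [tsum_eq_sum (s := level N k)]
  · rw [Finset.sum_congr rfl (g := fun _ => (1 : ENNReal))]
    · simp
    · intro v hv
      unfold ind
      rw [if_pos ((mem_level k v).1 hv)]
  · intro v hv
    unfold ind
    rw [if_neg fun h => hv ((mem_level k v).2 h)]

lemma card_succ_eq_tsum (k : ℕ) (N : List ℕ → ℕ) :
    ((level N (k + 1)).card : ENNReal) = ∑' v, ind k N v * (N v : ENNReal) := by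
  have h1 : (level N (k + 1)).card = ∑ v ∈ level N k, N v := by
    have := card_level_succ (N := N) k
    exact_mod_cast this
  rw [h1, tsum_eq_sum (s := level N k)]
  · push_cast
    apply Finset.sum_congr rfl
    intro v hv
    unfold ind
    rw [if_pos ((mem_level k v).1 hv), one_mul]
  · intro v hv
    unfold ind
    rw [if_neg fun h => hv ((mem_level k v).2 h), zero_mul]

lemma lint_coord (q : PMF ℕ) (k : ℕ) (v : List ℕ) :
    ∫⁻ N, ind k N v * (N v : ENNReal) ∂(treeLaw q)
      = (∑' j : ℕ, q j * (j : ENNReal)) * ∫⁻ N, ind k N v ∂(treeLaw q) := by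
  have hm : Measurable fun N : List ℕ → ℕ => ind k N v * (N v : ENNReal) := by
    apply (measurable_ind k v).mul
    exact (measurable_of_countable (fun j : ℕ => (j : ENNReal))).comp
      (measurable_pi_apply v : Measurable fun N : List ℕ → ℕ => N v)
  unfold treeLaw
  rw [← (Bias.resample (fun _ : List ℕ => q.toMeasure) v).lintegral_comp hm]
  simp only [ind_update, Function.update_self]
  have h1 := lintegral_prod_mul (μ := q.toMeasure)
    (ν := Measure.infinitePi (fun _ : List ℕ => q.toMeasure))
    (f := fun j : ℕ => (j : ENNReal)) (g := fun N => ind k N v)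
    (measurable_of_countable _).aemeasurable (measurable_ind k v).aemeasurable
  have h2 : ∀ a : ℕ × (List ℕ → ℕ), ind k a.2 v * (a.1 : ENNReal) = (a.1 : ENNReal) * ind k a.2 v :=
    fun a => mul_comm _ _
  simp_rw [h2]
  rw [h1]
  congr 1
  rw [lintegral_countable']
  apply tsum_congr
  intro j
  rw [PMF.toMeasure_apply_singleton _ _ (measurableSet_singleton j), mul_comm]

lemma measurable_card (k : ℕ) : Measurable fun N : List ℕ → ℕ => ((level N k).card : ENNReal) := by
  simp only [card_eq_tsum]
  exact Measurable.tsum fun v => measurable_ind k v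

lemma mean_card (q : PMF ℕ) (M : ENNReal) (hM : ∑' j : ℕ, q j * (j : ENNReal) = M) (k : ℕ) :
    ∫⁻ N, ((level N k).card : ENNReal) ∂(treeLaw q) = M ^ k := by
  induction k with
  | zero => simp [level]
  | succ k ih =>
    simp only [card_succ_eq_tsum]
    rw [lintegral_tsum]
    · simp only [lint_coord, hM]
      rw [ENNReal.tsum_mul_left, ← lintegral_tsum fun v => (measurable_ind k v).aemeasurable]
      simp only [← card_eq_tsum]
      rw [ih, pow_succ, mul_comm]
    · intro v
      apply Measurable.aemeasurable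
      apply (measurable_ind k v).mul
      exact (measurable_of_countable (fun j : ℕ => (j : ENNReal))).comp
        (measurable_pi_apply v : Measurable fun N : List ℕ → ℕ => N v)

/-- volume in extended form -/
lemma ofReal_Ar (m : ℝ) (hm : 0 < m) (N : List ℕ → ℕ) (r : ℕ) : ENNReal.ofReal (Ar m N r)
    = ∑ k ∈ range r, ENNReal.ofReal ((m⁻¹) ^ k) * ((level N (k + 1)).card : ENNReal) := by
  unfold Ar aw
  rw [ENNReal.ofReal_sum_of_nonneg fun k _ => by positivity]
  apply Finset.sum_congr rfl
  intro k _
  rw [ENNReal.ofReal_mul (by positivity), ENNReal.ofReal_natCast]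

lemma measurable_Ar (m : ℝ) (hm : 0 < m) (r : ℕ) :
    Measurable fun N : List ℕ → ℕ => ENNReal.ofReal (Ar m N r) := by
  simp only [ofReal_Ar m hm]
  apply Finset.measurable_sum
  intro k _
  exact (measurable_card (k + 1)).const_mul _

lemma mean_Ar (q : PMF ℕ) (m : ℝ) (hm : 0 < m)
    (hM : ∑' j : ℕ, q j * (j : ENNReal) = ENNReal.ofReal m) (r : ℕ) :
    ∫⁻ N, ENNReal.ofReal (Ar m N r) ∂(treeLaw q) = ENNReal.ofReal m * r := by
  simp only [ofReal_Ar m hm]
  rw [lintegral_finsetSum _ fun k _ => (measurable_card (k + 1)).const_mul _]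
  have h : ∀ k ∈ range r, ∫⁻ N, ENNReal.ofReal ((m⁻¹) ^ k) * ((level N (k + 1)).card : ENNReal)
      ∂(treeLaw q) = ENNReal.ofReal m := by
    intro k _
    rw [lintegral_const_mul _ (measurable_card (k + 1)), mean_card q _ hM (k + 1),
      ← ENNReal.ofReal_pow hm.le, ← ENNReal.ofReal_mul (by positivity)]
    congr 1
    rw [pow_succ, inv_pow]
    field_simp
  rw [Finset.sum_congr rfl h, Finset.sum_const, Finset.card_range, nsmul_eq_mul, mul_comm]

/-- linear growth along a subsequence -/
theorem ae_volume (q : PMF ℕ) (m : ℝ) (hm : 0 < m)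
    (hM : ∑' j : ℕ, q j * (j : ENNReal) = ENNReal.ofReal m) :
    ∀ᵐ N ∂(treeLaw q), ∃ K : ℝ, 0 < K ∧ ∃ᶠ r : ℕ in atTop, Ar m N r ≤ K * r := by
  have hmeas : ∀ r : ℕ, Measurable fun N : List ℕ → ℕ =>
      ENNReal.ofReal (Ar m N (r + 1)) * ((r + 1 : ℕ) : ENNReal)⁻¹ :=
    fun r => (measurable_Ar m hm (r + 1)).mul_const _
  have h1 := lintegral_liminf_le (μ := treeLaw q) (u := atTop) hmeas
  have h2 : ∀ r : ℕ, ∫⁻ N, ENNReal.ofReal (Ar m N (r + 1)) * ((r + 1 : ℕ) : ENNReal)⁻¹
      ∂(treeLaw q) = ENNReal.ofReal m := by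
    intro r
    rw [lintegral_mul_const _ (measurable_Ar m hm (r + 1)), mean_Ar q m hm hM, mul_assoc,
      ENNReal.mul_inv_cancel (by exact_mod_cast Nat.succ_ne_zero r) (ENNReal.natCast_ne_top _),
      mul_one]
  simp only [h2, liminf_const] at h1
  have h3 := ae_lt_top (Measurable.liminf hmeas) (ne_top_of_le_ne_top ENNReal.ofReal_ne_top h1)
  filter_upwards [h3] with N hN
  obtain ⟨K, hK1, hK2⟩ := exists_between hN
  have hfr := frequently_lt_of_liminf_lt (by isBoundedDefault) hK1
  have hKr : K ≤ ENNReal.ofReal (K.toReal + 1) := by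
    rw [ENNReal.ofReal_add ENNReal.toReal_nonneg zero_le_one, ENNReal.ofReal_toReal hK2.ne]
    exact le_self_add
  have hK0 : 0 < K.toReal + 1 := by have := ENNReal.toReal_nonneg (a := K); linarith
  refine ⟨K.toReal + 1, hK0, ?_⟩
  rw [Filter.frequently_atTop] at hfr ⊢
  intro a
  obtain ⟨b, hb, hlt⟩ := hfr a
  refine ⟨b + 1, by omega, ?_⟩
  have h4 : ENNReal.ofReal (Ar m N (b + 1)) ≤ K * ((b + 1 : ℕ) : ENNReal) := by
    have h5 : ENNReal.ofReal (Ar m N (b + 1)) / ((b + 1 : ℕ) : ENNReal) ≤ K := by
      rw [div_eq_mul_inv]; exact hlt.le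
    rwa [ENNReal.div_le_iff_le_mul (Or.inl (by exact_mod_cast Nat.succ_ne_zero b))
      (Or.inl (ENNReal.natCast_ne_top _))] at h5
  have h6 : ENNReal.ofReal (Ar m N (b + 1)) ≤
      ENNReal.ofReal ((K.toReal + 1) * ((b + 1 : ℕ) : ℝ)) := by
    rw [ENNReal.ofReal_mul hK0.le, ENNReal.ofReal_natCast]
    exact h4.trans (mul_le_mul' hKr (le_refl _))
  exact (ENNReal.ofReal_le_ofReal_iff (by positivity)).1 h6

lemma root_pos (N : List ℕ → ℕ) (hinf : {v | InTree N v}.Infinite) : 0 < N [] := by
  rcases Nat.eq_zero_or_pos (N []) with h0 | h0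
  · exfalso
    apply hinf
    have h1 : ∀ v, InTree N v → v = [] := by
      intro v
      induction v with
      | nil => intro _; rfl
      | cons i v ih =>
        intro hv
        have h2 := ih hv.1
        have h3 := hv.2
        rw [h2, h0] at h3
        omega
    exact (Set.finite_singleton []).subset fun v hv => h1 v hv
  · exact h0

end Q293.TreeWalk
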