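import Pool.Agent.Q293.TreeWalk

/-!
# Return probabilities of the biased walk from volume bounds
-/

set_option autoImplicit false
set_option linter.unusedSectionVars false

open Filter Topology Finset

namespace Q293.TreeWalk

open Q293.PolyRet Q293.Polymer

variable {lam : ℝ} (hlam : 0 < lam) {N : List ℕ → ℕ}

include hlam in
lemma A_sq (f : List ℕ → ℝ) (x : List ℕ) : (A lam N f x) ^ 2 ≤ A lam N (fun y => f y ^ 2) x := by
  rcases x with _ | ⟨i, v⟩
  · rw [A, A]
    by_cases h0 : (N [] : ℝ) = 0
    · rw [h0]; simp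
    · have h1 := sq_sum_le_card_mul_sum_sq (s := range (N [])) (f := fun j => f [j])
      rw [Finset.card_range] at h1
      have h2 : (0 : ℝ) < N [] := lt_of_le_of_ne (Nat.cast_nonneg _) (Ne.symm h0)
      rw [div_pow, div_le_div_iff₀ (by positivity) h2]
      nlinarith
  · rw [A, A]
    set a := f v with ha
    set B := ∑ j ∈ range (N (i :: v)), f (j :: i :: v) with hB
    set Q := ∑ j ∈ range (N (i :: v)), f (j :: i :: v) ^ 2 with hQ
    have h1 : B ^ 2 ≤ N (i :: v) * Q := by
      have h1 := sq_sum_le_card_mul_sum_sq (s := range (N (i :: v))) (f := fun j => f (j :: i :: v))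
      rw [Finset.card_range] at h1
      exact h1
    have h2 : 0 ≤ Q - 2 * a * B + N (i :: v) * a ^ 2 := by
      have h3 : ∑ j ∈ range (N (i :: v)), (f (j :: i :: v) - a) ^ 2
          = Q - 2 * a * B + N (i :: v) * a ^ 2 := by
        have h4 : ∀ j ∈ range (N (i :: v)), (f (j :: i :: v) - a) ^ 2
            = f (j :: i :: v) ^ 2 - 2 * a * f (j :: i :: v) + a ^ 2 := by
          intro j _; ring
        rw [Finset.sum_congr rfl h4, Finset.sum_add_distrib, Finset.sum_sub_distrib,
          ← Finset.mul_sum, Finset.sum_const, Finset.card_range, nsmul_eq_mul]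
      rw [← h3]
      exact Finset.sum_nonneg fun j _ => sq_nonneg _
    have h5 : (0 : ℝ) < lam + N (i :: v) := by positivity
    rw [div_pow, div_le_div_iff₀ (by positivity) h5]
    have h6 : (lam * a + B) ^ 2 ≤ (lam * a ^ 2 + Q) * (lam + N (i :: v)) := by nlinarith
    calc (lam * a + B) ^ 2 * (lam + N (i :: v))
        ≤ ((lam * a ^ 2 + Q) * (lam + N (i :: v))) * (lam + N (i :: v)) := by gcongr
      _ = (lam * a ^ 2 + Q) * (lam + N (i :: v)) ^ 2 := by ring

include hlam in
lemma ip_A_sq (f : List ℕ → ℝ) (R : ℕ) (hf : ∀ x : List ℕ, R ≤ x.length → f x = 0) :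
    ip lam N (R + 1) (A lam N f) (A lam N f) ≤ ip lam N (R + 1) f f := by
  have h1 := green hlam (N := N) (fun y => f y ^ 2) (fun _ => 1) R
  have h2 : En lam N R (fun y => f y ^ 2) (fun _ => 1) = 0 := by
    unfold En; simp
  have h3 : ∑ v ∈ level N R, ∑ j ∈ range (N v), ((fun y => f y ^ 2) v -
      (fun y => f y ^ 2) (j :: v)) * (fun _ => (1 : ℝ)) v = 0 := by
    apply Finset.sum_eq_zero
    intro v hv
    apply Finset.sum_eq_zero
    intro j _
    have hl := level_len R v hv
    simp only [hf v (by omega), hf (j :: v) (by simp; omega)]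
    ring
  rw [h2, h3, mul_zero, add_zero] at h1
  have h4 : ∑ k ∈ range (R + 1), ∑ x ∈ level N k, pi lam N x * A lam N (fun y => f y ^ 2) x
      = ip lam N (R + 1) f f := by
    have h5 : ip lam N (R + 1) f f - ∑ k ∈ range (R + 1), ∑ x ∈ level N k,
        pi lam N x * A lam N (fun y => f y ^ 2) x = 0 := by
      rw [← h1]
      unfold ip
      rw [← Finset.sum_sub_distrib]
      apply Finset.sum_congr rfl
      intro k _
      rw [← Finset.sum_sub_distrib]
      apply Finset.sum_congr rfl
      intro x _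
      ring
    linarith
  rw [← h4]
  unfold ip
  apply Finset.sum_le_sum
  intro k _
  apply Finset.sum_le_sum
  intro x _
  rw [mul_assoc]
  apply mul_le_mul_of_nonneg_left _ (pi_nonneg hlam x)
  rw [← sq]
  exact A_sq hlam f x

lemma h_mono (h0 : 0 < N []) (a : ℕ) :
    h lam hlam N (2 * a + 2) [] ≤ h lam hlam N (2 * a) [] := by
  have e1 := ip_h hlam h0 (2 * a + 3) a a (by omega)
  have e2 := ip_h hlam h0 (2 * a + 3) (a + 1) (a + 1) (by omega)
  have e3 := ip_A_sq hlam (N := N) (h lam hlam N a) (2 * a + 3) fun x hx =>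
    h_supp hlam h0 a x (by omega)
  rw [← h_succ hlam h0, e1, e2] at e3
  have h1 : (0 : ℝ) < N [] := by exact_mod_cast h0
  have h2 := le_of_mul_le_mul_left e3 h1
  rw [show a + 1 + (a + 1) = 2 * a + 2 by ring, show a + a = 2 * a by ring] at h2
  exact h2

/-- weights of the levels -/
noncomputable def aw (lam : ℝ) (N : List ℕ → ℕ) (k : ℕ) : ℝ :=
  (lam⁻¹) ^ k * ((level N (k + 1)).card : ℝ)

/-- total conductance up to level `r` -/
noncomputable def Ar (lam : ℝ) (N : List ℕ → ℕ) (r : ℕ) : ℝ := ∑ k ∈ range r, aw lam N k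

lemma card_level_succ (k : ℕ) : ((level N (k + 1)).card : ℝ) = ∑ v ∈ level N k, (N v : ℝ) := by
  have h := sum_level_succ (N := N) k (fun _ => (1 : ℝ))
  simp only [Finset.sum_const, nsmul_eq_mul, mul_one, Finset.card_range] at h
  exact h

include hlam in
lemma aw_nonneg (k : ℕ) : 0 ≤ aw lam N k := by unfold aw; positivity

include hlam in
lemma sum_pi_zero : ∑ x ∈ level N 0, pi lam N x = aw lam N 0 := by
  unfold aw
  rw [card_level_succ]
  simp [level, pi]

include hlam in
lemma sum_pi_succ (k : ℕ) : ∑ x ∈ level N (k + 1), pi lam N x = aw lam N k + aw lam N (k + 1) := by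
  unfold aw
  rw [card_level_succ (k + 1), sum_level_succ, sum_level_succ, card_level_succ]
  have h1 : ∀ v ∈ level N k, ∑ j ∈ range (N v), pi lam N (j :: v)
      = (lam⁻¹) ^ k * N v + (lam⁻¹) ^ (k + 1) * ∑ j ∈ range (N v), (N (j :: v) : ℝ) := by
    intro v hv
    have h2 : ∀ j ∈ range (N v), pi lam N (j :: v) = (lam⁻¹) ^ k +
        (lam⁻¹) ^ (k + 1) * (N (j :: v) : ℝ) := by
      intro j _
      rw [pi, level_len k v hv, pow_succ]
      field_simp
    rw [Finset.sum_congr rfl h2, Finset.sum_add_distrib, Finset.sum_const, Finset.card_range,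
      nsmul_eq_mul, ← Finset.mul_sum]
    ring
  rw [Finset.sum_congr rfl h1, Finset.sum_add_distrib, ← Finset.mul_sum, ← Finset.mul_sum]

include hlam in
lemma sum_pi_le (r : ℕ) : ∑ k ∈ range r, ∑ x ∈ level N k, pi lam N x ≤ 2 * Ar lam N r := by
  unfold Ar
  have h : ∑ k ∈ range r, ∑ x ∈ level N k, pi lam N x + aw lam N (r - 1) ≤
      2 * ∑ k ∈ range r, aw lam N k ∨ r = 0 := by
    induction r with
    | zero => right; rfl
    | succ r ih =>
      left
      rw [Finset.sum_range_succ, Finset.sum_range_succ _ r]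
      rcases r with _ | r
      · rw [sum_pi_zero hlam]; simp; linarith
      · rw [sum_pi_succ hlam]
        rcases ih with ih | ih
        · simp only [Nat.add_sub_cancel] at ih ⊢
          linarith
        · omega
  rcases h with h | h
  · linarith [aw_nonneg hlam (N := N) (r - 1)]
  · rw [h]; simp

/-- linear test function -/
noncomputable def tf (r : ℕ) (x : List ℕ) : ℝ := max (1 - (x.length : ℝ) / r) 0

lemma tf_root (r : ℕ) : tf r [] = 1 := by simp [tf]

lemma tf_nonneg (r : ℕ) (x : List ℕ) : 0 ≤ tf r x := le_max_right _ _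

lemma tf_le_one (r : ℕ) (x : List ℕ) : tf r x ≤ 1 := by
  unfold tf
  apply max_le _ zero_le_one
  have : 0 ≤ (x.length : ℝ) / r := by positivity
  linarith

lemma tf_far (r : ℕ) (hr : 0 < r) (x : List ℕ) (hx : r ≤ x.length) : tf r x = 0 := by
  unfold tf
  apply max_eq_right
  have : (1 : ℝ) ≤ (x.length : ℝ) / r := by
    rw [one_le_div (by exact_mod_cast hr)]
    exact_mod_cast hx
  linarith

lemma tf_diff (r : ℕ) (hr : 0 < r) (x : List ℕ) (hx : x.length < r) (j : ℕ) :
    tf r x - tf r (j :: x) = 1 / r := by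
  unfold tf
  have hr' : (0 : ℝ) < r := by exact_mod_cast hr
  have h1 : (0 : ℝ) ≤ 1 - ((j :: x).length : ℝ) / r := by
    rw [sub_nonneg, div_le_one hr']
    simp only [List.length_cons]
    exact_mod_cast hx
  have h2 : (0 : ℝ) ≤ 1 - (x.length : ℝ) / r := by
    rw [sub_nonneg, div_le_one hr']
    exact_mod_cast hx.le
  rw [max_eq_left h1, max_eq_left h2]
  simp only [List.length_cons]
  push_cast
  field_simp
  ring

include hlam in
lemma ip_tf (r R : ℕ) (hr : 0 < r) (hR : r ≤ R) : ip lam N R (tf r) (tf r) ≤ 2 * Ar lam N r := by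
  refine le_trans ?_ (sum_pi_le hlam (N := N) r)
  unfold ip
  rw [← Finset.sum_range_add_sum_Ico _ hR]
  have h1 : ∑ k ∈ Ico r R, ∑ x ∈ level N k, pi lam N x * tf r x * tf r x = 0 := by
    apply Finset.sum_eq_zero
    intro k hk
    apply Finset.sum_eq_zero
    intro x hx
    rw [tf_far r hr x (by rw [level_len k x hx]; exact (Finset.mem_Ico.1 hk).1)]
    ring
  rw [h1, add_zero]
  apply Finset.sum_le_sum
  intro k _
  apply Finset.sum_le_sum
  intro x _
  have h2 := tf_nonneg r x
  have h3 := tf_le_one r x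
  have h4 := pi_nonneg hlam (N := N) x
  calc pi lam N x * tf r x * tf r x ≤ pi lam N x * 1 * 1 := by gcongr
    _ = pi lam N x := by ring

include hlam in
lemma En_tf (r R : ℕ) (hr : 0 < r) (hR : r ≤ R) :
    En lam N R (tf r) (tf r) = Ar lam N r / r ^ 2 := by
  unfold En Ar
  rw [← Finset.sum_range_add_sum_Ico _ hR]
  have h1 : ∑ k ∈ Ico r R, (lam⁻¹) ^ k * ∑ v ∈ level N k, ∑ j ∈ range (N v),
      (tf r v - tf r (j :: v)) * (tf r v - tf r (j :: v)) = 0 := by
    apply Finset.sum_eq_zero
    intro k hk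
    rw [Finset.sum_eq_zero, mul_zero]
    intro v hv
    apply Finset.sum_eq_zero
    intro j _
    have hl := level_len k v hv
    have hk2 := (Finset.mem_Ico.1 hk).1
    rw [tf_far r hr v (by omega), tf_far r hr (j :: v) (by simp; omega)]
    ring
  rw [h1, add_zero, Finset.sum_div]
  apply Finset.sum_congr rfl
  intro k hk
  unfold aw
  rw [card_level_succ]
  have h2 : ∀ v ∈ level N k, ∑ j ∈ range (N v),
      (tf r v - tf r (j :: v)) * (tf r v - tf r (j :: v)) = N v * (1 / (r : ℝ) ^ 2) := by
    intro v hv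
    have hl := level_len k v hv
    have h3 : ∀ j ∈ range (N v), (tf r v - tf r (j :: v)) * (tf r v - tf r (j :: v))
        = 1 / (r : ℝ) ^ 2 := by
      intro j _
      rw [tf_diff r hr v (by rw [hl]; exact Finset.mem_range.1 hk) j]
      have hr' : (r : ℝ) ≠ 0 := by exact_mod_cast hr.ne'
      field_simp
    rw [Finset.sum_congr rfl h3, Finset.sum_const, Finset.card_range, nsmul_eq_mul]
  rw [Finset.sum_congr rfl h2, ← Finset.sum_mul]
  ring

include hlam in
lemma En_cs (R : ℕ) (f g : List ℕ → ℝ) (s : ℝ) :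
    2 * s * En lam N R f g ≤ s ^ 2 * En lam N R f f + En lam N R g g := by
  unfold En
  rw [Finset.mul_sum, Finset.mul_sum, ← Finset.sum_add_distrib]
  apply Finset.sum_le_sum
  intro k _
  have h1 : 2 * s * ((lam⁻¹) ^ k * ∑ v ∈ level N k, ∑ j ∈ range (N v),
        (f v - f (j :: v)) * (g v - g (j :: v)))
      = (lam⁻¹) ^ k * ∑ v ∈ level N k, ∑ j ∈ range (N v),
        2 * s * ((f v - f (j :: v)) * (g v - g (j :: v))) := by
    simp only [Finset.mul_sum]
    apply Finset.sum_congr rfl
    intro v _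
    apply Finset.sum_congr rfl
    intro j _
    ring
  have h2 : s ^ 2 * ((lam⁻¹) ^ k * ∑ v ∈ level N k, ∑ j ∈ range (N v),
        (f v - f (j :: v)) * (f v - f (j :: v))) +
      (lam⁻¹) ^ k * ∑ v ∈ level N k, ∑ j ∈ range (N v),
        (g v - g (j :: v)) * (g v - g (j :: v))
      = (lam⁻¹) ^ k * ∑ v ∈ level N k, ∑ j ∈ range (N v),
        (s ^ 2 * ((f v - f (j :: v)) * (f v - f (j :: v))) +
          (g v - g (j :: v)) * (g v - g (j :: v))) := by
    simp only [Finset.mul_sum, mul_add, Finset.sum_add_distrib]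
    congr 1
    apply Finset.sum_congr rfl
    intro v _
    apply Finset.sum_congr rfl
    intro j _
    ring
  rw [h1, h2]
  apply mul_le_mul_of_nonneg_left _ (by positivity)
  apply Finset.sum_le_sum
  intro v _
  apply Finset.sum_le_sum
  intro j _
  nlinarith [sq_nonneg (s * (f v - f (j :: v)) - (g v - g (j :: v)))]

include hlam in
lemma ip_cs (R : ℕ) (f g : List ℕ → ℝ) (s : ℝ) :
    2 * s * ip lam N R f g ≤ s ^ 2 * ip lam N R f f + ip lam N R g g := by
  unfold ip
  rw [Finset.mul_sum, Finset.mul_sum, ← Finset.sum_add_distrib]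
  apply Finset.sum_le_sum
  intro k _
  rw [Finset.mul_sum, Finset.mul_sum, ← Finset.sum_add_distrib]
  apply Finset.sum_le_sum
  intro x _
  have h1 := mul_nonneg (pi_nonneg hlam (N := N) x) (sq_nonneg (s * f x - g x))
  nlinarith

lemma En_sum (R n : ℕ) (F : ℕ → List ℕ → ℝ) (g : List ℕ → ℝ) :
    En lam N R (fun x => ∑ i ∈ range n, F i x) g = ∑ i ∈ range n, En lam N R (F i) g := by
  unfold En
  rw [Finset.sum_comm]
  apply Finset.sum_congr rfl
  intro k _
  rw [← Finset.mul_sum]
  congr 1
  rw [Finset.sum_comm]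
  apply Finset.sum_congr rfl
  intro v _
  rw [Finset.sum_comm]
  apply Finset.sum_congr rfl
  intro j _
  rw [← Finset.sum_sub_distrib, Finset.sum_mul]

/-- return probabilities -/
noncomputable def u (lam : ℝ) (hlam : 0 < lam) (N : List ℕ → ℕ) (n : ℕ) : ℝ := h lam hlam N n []

/-- Green function -/
noncomputable def U (lam : ℝ) (hlam : 0 < lam) (N : List ℕ → ℕ) (n : ℕ) : ℝ :=
  ∑ i ∈ range n, u lam hlam N i

lemma u_nonneg (n : ℕ) : 0 ≤ u lam hlam N n := h_nonneg hlam n []

lemma u_zero : u lam hlam N 0 = 1 := by unfold u; rw [h_zero, if_pos rfl]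

lemma u_le_one (n : ℕ) : u lam hlam N n ≤ 1 := ur_le_one n

lemma En_h (h0 : 0 < N []) (R n : ℕ) (g : List ℕ → ℝ) (hg : ∀ x ∈ level N R, g x = 0) :
    En lam N R (fun x => ∑ i ∈ range n, h lam hlam N i x) g
      = ip lam N (R + 1) (h lam hlam N 0) g - ip lam N (R + 1) (h lam hlam N n) g := by
  rw [En_sum]
  have h1 : ∀ i ∈ range n, En lam N R (h lam hlam N i) g
      = ip lam N (R + 1) (h lam hlam N i) g - ip lam N (R + 1) (h lam hlam N (i + 1)) g := by
    intro i _
    rw [h_succ hlam h0, ip_lap hlam _ _ R hg]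
  rw [Finset.sum_congr rfl h1, Finset.sum_range_sub']

lemma ip_h_zero (R : ℕ) (g : List ℕ → ℝ) :
    ip lam N (R + 1) (h lam hlam N 0) g = N [] * g [] := by
  unfold ip
  rw [Finset.sum_range_succ', Finset.sum_eq_zero]
  · rw [zero_add, level, Finset.sum_singleton, h_zero, if_pos rfl, pi]
    ring
  · intro k _
    apply Finset.sum_eq_zero
    intro x hx
    have := level_len _ x hx
    rw [h_zero, if_neg (by rintro rfl; simp at this)]
    ring

/-- lower bound on the return probability from a volume bound -/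
lemma ret_lower (h0 : 0 < N []) (n r : ℕ) (hr : 0 < r)
    (hU : 4 * U lam hlam N n * Ar lam N r ≤ N [] * (r : ℝ) ^ 2) :
    (N [] : ℝ) ≤ 8 * Ar lam N r * u lam hlam N (2 * n) := by
  have hN : (0 : ℝ) < N [] := by exact_mod_cast h0
  have hr' : (0 : ℝ) < r := by exact_mod_cast hr
  have hA : (N [] : ℝ) ≤ Ar lam N r := by
    unfold Ar
    calc (N [] : ℝ) = aw lam N 0 := by
          unfold aw; rw [card_level_succ]; simp [level]
      _ ≤ ∑ k ∈ range r, aw lam N k :=
          Finset.single_le_sum (f := aw lam N) (fun k _ => aw_nonneg hlam k) (Finset.mem_range.2 hr)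
  have hA0 : 0 < Ar lam N r := lt_of_lt_of_le hN hA
  rcases Nat.eq_zero_or_pos n with rfl | hn
  · rw [Nat.mul_zero, u_zero]; linarith
  set R := 2 * n + r + 2 with hR
  set G : List ℕ → ℝ := fun x => ∑ i ∈ range n, h lam hlam N i x with hG
  have hg : ∀ x ∈ level N R, tf r x = 0 := fun x hx =>
    tf_far r hr x (by rw [level_len R x hx]; omega)
  have hGs : ∀ x ∈ level N R, G x = 0 := fun x hx => by
    apply Finset.sum_eq_zero
    intro i hi
    rw [Finset.mem_range] at hi
    exact h_supp hlam h0 i x (by rw [level_len R x hx]; omega)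
  have e1 := En_h hlam h0 R n (tf r) hg
  rw [← hG, ip_h_zero, tf_root, mul_one] at e1
  have e2 : En lam N R G G ≤ N [] * U lam hlam N n := by
    have e3 : En lam N R G G = ∑ j ∈ range n, En lam N R (h lam hlam N j) G := by
      rw [hG, En_sum]
    rw [e3]
    unfold U
    rw [Finset.mul_sum]
    apply Finset.sum_le_sum
    intro j hj
    rw [Finset.mem_range] at hj
    rw [En_symm, En_h hlam h0 R n (h lam hlam N j) fun x hx =>
      h_supp hlam h0 j x (by rw [level_len R x hx]; omega), ip_h_zero,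
      ip_h hlam h0 R n j (by omega)]
    have := h_nonneg hlam (N := N) (n + j) []
    have : 0 ≤ (N [] : ℝ) * h lam hlam N (n + j) [] := by positivity
    unfold u
    linarith
  have hU1 : 1 ≤ U lam hlam N n := by
    unfold U
    calc (1 : ℝ) = u lam hlam N 0 := (u_zero hlam).symm
      _ ≤ _ := Finset.single_le_sum (f := u lam hlam N) (fun k _ => u_nonneg hlam k)
          (Finset.mem_range.2 hn)
  have hU0 : 0 < U lam hlam N n := by linarith
  have e4 := En_cs hlam (N := N) R G (tf r) (1 / (2 * U lam hlam N n))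
  rw [En_tf hlam r R hr (by omega)] at e4
  have e5 : En lam N R G (tf r) ≤ N [] / 2 := by
    have e6 : 2 * (1 / (2 * U lam hlam N n)) * En lam N R G (tf r)
        = En lam N R G (tf r) / U lam hlam N n := by field_simp
    have e7 : (1 / (2 * U lam hlam N n)) ^ 2 * En lam N R G G ≤ N [] / (4 * U lam hlam N n) := by
      calc (1 / (2 * U lam hlam N n)) ^ 2 * En lam N R G G
          ≤ (1 / (2 * U lam hlam N n)) ^ 2 * (N [] * U lam hlam N n) := by gcongr
        _ = N [] / (4 * U lam hlam N n) := by field_simp; norm_num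
    have e8 : Ar lam N r / r ^ 2 ≤ N [] / (4 * U lam hlam N n) := by
      rw [div_le_div_iff₀ (by positivity) (by positivity)]
      linarith
    rw [e6] at e4
    have e9 : En lam N R G (tf r) / U lam hlam N n ≤ N [] / (4 * U lam hlam N n) +
        N [] / (4 * U lam hlam N n) := by linarith
    rw [div_le_iff₀ hU0] at e9
    have e10 : (N [] / (4 * U lam hlam N n) + N [] / (4 * U lam hlam N n)) * U lam hlam N n
        = N [] / 2 := by field_simp; norm_num
    linarith
  have e11 : (N [] : ℝ) / 2 ≤ ip lam N (R + 1) (h lam hlam N n) (tf r) := by linarith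
  have e12 := ip_cs hlam (N := N) (R + 1) (h lam hlam N n) (tf r) (4 * Ar lam N r / N [])
  rw [ip_h hlam h0 R n n (by omega)] at e12
  have e13 := ip_tf hlam (N := N) r (R + 1) hr (by omega)
  have e14 : n + n = 2 * n := by ring
  rw [e14] at e12
  have e15 : 2 * (4 * Ar lam N r / N []) * ((N [] : ℝ) / 2) ≤
      2 * (4 * Ar lam N r / N []) * ip lam N (R + 1) (h lam hlam N n) (tf r) := by gcongr
  have e16 : 2 * (4 * Ar lam N r / N []) * ((N [] : ℝ) / 2) = 4 * Ar lam N r := by field_simp
  have e17 : (4 * Ar lam N r / N []) ^ 2 * (N [] * h lam hlam N (2 * n) [])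
      = 2 * Ar lam N r * (8 * Ar lam N r * u lam hlam N (2 * n)) / N [] := by
    unfold u
    field_simp
    ring
  rw [e17] at e12
  have e18 : 2 * Ar lam N r ≤ 2 * Ar lam N r * (8 * Ar lam N r * u lam hlam N (2 * n)) / N [] := by
    linarith
  rw [le_div_iff₀ hN] at e18
  exact le_of_mul_le_mul_left e18 (by linarith)

lemma U_succ (n : ℕ) : U lam hlam N (n + 1) = U lam hlam N n + u lam hlam N n := by
  unfold U; rw [Finset.sum_range_succ]

lemma U_mono : Monotone (U lam hlam N) :=
  monotone_nat_of_le_succ fun n => by rw [U_succ]; linarith [u_nonneg hlam (N := N) n]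

lemma U_le (n : ℕ) : U lam hlam N n ≤ n := by
  induction n with
  | zero => simp [U]
  | succ n ih => rw [U_succ]; push_cast; linarith [u_le_one hlam (N := N) n]

lemma u_odd' (h0 : 0 < N []) (n : ℕ) (hn : n % 2 = 1) : u lam hlam N n = 0 := by
  have hpar : ∀ (n : ℕ) (x : List ℕ), (n + x.length) % 2 = 1 →
      p (step lam hlam N) [] n x = 0 := by
    intro n
    induction n with
    | zero =>
      intro x hx
      rw [p, if_neg]
      rintro rfl
      simp at hx
    | succ n ih =>
      intro x hx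
      rw [p, ENNReal.tsum_eq_zero]
      intro y
      by_cases hy : step lam hlam N x y = 0
      · rw [hy, zero_mul]
      · have := step_len hlam h0 x y hy
        rw [ih y (by omega), mul_zero]
  unfold u h
  rw [hpar n [] (by simpa using hn)]
  rfl

/-- divergence of the sum of squares -/
theorem sq_div (h0 : 0 < N []) (K : ℝ) (hK : 0 < K) (hA : ∃ᶠ r : ℕ in atTop, Ar lam N r ≤ K * r) :
    ¬ Summable fun n => u lam hlam N n ^ 2 := by
  intro hs
  have hN : (0 : ℝ) < N [] := by exact_mod_cast h0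
  set π := (N [] : ℝ) with hπ
  set c0 := π ^ 2 / (64 * K ^ 2) with hc0
  have hc0p : 0 < c0 := by positivity
  have hlim := hs.hasSum.tendsto_sum_nat
  set S := ∑' n, u lam hlam N n ^ 2 with hS
  have hev := hlim.eventually_const_lt (show S - c0 < S by linarith)
  obtain ⟨M, hM⟩ := hev.exists
  have htail : ∀ m, ∑ i ∈ Ico M m, u lam hlam N i ^ 2 < c0 := by
    intro m
    rcases le_or_gt M m with hMm | hMm
    · have h1 := Finset.sum_range_add_sum_Ico (fun i => u lam hlam N i ^ 2) hMm
      have h2 : ∑ i ∈ range m, u lam hlam N i ^ 2 ≤ S :=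
        hs.sum_le_tsum _ fun i _ => sq_nonneg _
      linarith
    · rw [Finset.Ico_eq_empty (by omega)]
      simpa using hc0p
  obtain ⟨r, hrA, hr⟩ : ∃ r : ℕ, Ar lam N r ≤ K * r ∧ (max 1 (8 * K * (1 + M) / π) : ℝ) ≤ r := by
    have hev2 : ∀ᶠ r : ℕ in atTop, (max 1 (8 * K * (1 + M) / π) : ℝ) ≤ r :=
      tendsto_natCast_atTop_atTop.eventually_ge_atTop _
    exact (hA.and_eventually hev2).exists
  have hr1 : (1 : ℝ) ≤ r := (le_max_left _ _).trans hr
  have hr2 : 8 * K * (1 + M) / π ≤ r := (le_max_right _ _).trans hr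
  have hr0 : 0 < r := by
    rcases Nat.eq_zero_or_pos r with h | h
    · rw [h] at hr1; norm_num at hr1
    · exact h
  have hr' : (0 : ℝ) < r := by linarith
  set T := π * r / (4 * K) with hT
  have hT0 : 0 < T := by positivity
  have hlow : ∀ n, U lam hlam N n ≤ T → π / (8 * K * r) ≤ u lam hlam N (2 * n) := by
    intro n hn
    have hUA : 4 * U lam hlam N n * Ar lam N r ≤ π * (r : ℝ) ^ 2 := by
      have hA0 : 0 ≤ Ar lam N r := Finset.sum_nonneg fun k _ => aw_nonneg hlam k
      calc 4 * U lam hlam N n * Ar lam N r ≤ 4 * T * (K * r) := by gcongr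
        _ = π * (r : ℝ) ^ 2 := by rw [hT]; field_simp
    have h1 := ret_lower hlam h0 n r hr0 hUA
    have h2 := u_nonneg hlam (N := N) (2 * n)
    rw [div_le_iff₀ (by positivity)]
    calc π ≤ 8 * Ar lam N r * u lam hlam N (2 * n) := h1
      _ ≤ 8 * (K * r) * u lam hlam N (2 * n) := by gcongr
      _ = u lam hlam N (2 * n) * (8 * K * r) := by ring
  by_cases hex : ∃ n, T < U lam hlam N n
  · classical
    set n1 := Nat.find hex with hn1
    have h1 : T < U lam hlam N n1 := Nat.find_spec hex
    have hn10 : n1 ≠ 0 := by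
      intro h
      rw [h] at h1
      simp [U] at h1
      linarith
    obtain ⟨n, hn⟩ : ∃ n, n1 = n + 1 := ⟨n1 - 1, by omega⟩
    have h2 : U lam hlam N n ≤ T := by
      have := Nat.find_min hex (m := n) (by omega)
      exact not_lt.1 this
    rw [hn, U_succ] at h1
    have h3 := u_le_one hlam (N := N) n
    have h4 : ∑ i ∈ Ico M n, π / (8 * K * r) * u lam hlam N i ≤
        ∑ i ∈ Ico M n, u lam hlam N i ^ 2 := by
      apply Finset.sum_le_sum
      intro i hi
      rw [Finset.mem_Ico] at hi
      rcases Nat.mod_two_eq_zero_or_one i with hp | hp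
      · obtain ⟨k, rfl⟩ : ∃ k, i = 2 * k := ⟨i / 2, by omega⟩
        have h5 := hlow k ((U_mono hlam (by omega : k ≤ n)).trans h2)
        have h6 := u_nonneg hlam (N := N) (2 * k)
        rw [sq]
        gcongr
      · rw [u_odd' hlam h0 i hp]; simp
    have h7 : T - 1 - M ≤ ∑ i ∈ Ico M n, u lam hlam N i := by
      rcases le_or_gt M n with hMn | hMn
      · have h8 := Finset.sum_range_add_sum_Ico (fun i => u lam hlam N i) hMn
        have h9 := U_le hlam (N := N) M
        unfold U at h9 h1
        linarith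
      · rw [Finset.Ico_eq_empty (by omega), Finset.sum_empty]
        have h9 := U_le hlam (N := N) n
        have h10 : (n : ℝ) ≤ M := by exact_mod_cast hMn.le
        linarith
    rw [← Finset.mul_sum] at h4
    have h8 : π / (8 * K * r) * (T - 1 - M) ≤ π / (8 * K * r) * ∑ i ∈ Ico M n, u lam hlam N i :=
      mul_le_mul_of_nonneg_left h7 (by positivity)
    have h9 : c0 ≤ π / (8 * K * r) * (T - 1 - M) := by
      have e1 : π / (8 * K * r) * (T - 1 - M) = 2 * c0 - π * (1 + M) / (8 * K * r) := by
        rw [hT, hc0]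
        field_simp
        ring
      have e2 : π * (1 + M) / (8 * K * r) ≤ c0 := by
        rw [hc0, div_le_div_iff₀ (by positivity) (by positivity)]
        rw [div_le_iff₀ hN] at hr2
        have e3 : 8 * K * (1 + M) * (8 * K * π) ≤ (r * π) * (8 * K * π) :=
          mul_le_mul_of_nonneg_right hr2 (by positivity)
        linarith
      linarith
    have h10 := htail n
    linarith
  · push Not at hex
    have h1 : ∀ n, π / (8 * K * r) ≤ u lam hlam N (2 * n) := fun n => hlow n (hex n)
    have h2 := hs.tendsto_atTop_zero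
    have h3 : Tendsto (fun n : ℕ => u lam hlam N (2 * n) ^ 2) atTop (𝓝 0) :=
      h2.comp (tendsto_id.const_mul_atTop' (by norm_num))
    have h4 : (π / (8 * K * r)) ^ 2 ≤ 0 := by
      apply ge_of_tendsto h3
      apply Filter.Eventually.of_forall
      intro n
      exact pow_le_pow_left₀ (by positivity) (h1 n) 2
    have h5 : 0 < (π / (8 * K * r)) ^ 2 := by positivity
    linarith

/-- all hypotheses on the chain hold -/
theorem retHyp (h0 : 0 < N []) (K : ℝ) (hK : 0 < K)
    (hA : ∃ᶠ r : ℕ in atTop, Ar lam N r ≤ K * r) :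
    RetHyp (step lam hlam N) [] List.length := by
  refine ⟨?_, by simp, step_fin hlam, ?_, ?_⟩
  · intro x y hxy
    have := step_len hlam h0 x y hxy
    omega
  · intro n
    rcases Nat.mod_two_eq_zero_or_one n with hp | hp
    · obtain ⟨k, rfl⟩ : ∃ k, n = 2 * k := ⟨n / 2, by omega⟩
      have h1 := h_mono hlam h0 k
      unfold h at h1
      exact (ENNReal.toReal_le_toReal (p_ne_top _ _) (p_ne_top _ _)).1 h1
    · have h1 := u_odd' hlam h0 (n + 2) (by omega)
      unfold u h at h1
      rw [ENNReal.toReal_eq_zero_iff] at h1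
      rcases h1 with h1 | h1
      · rw [h1]; exact bot_le
      · exact absurd h1 (p_ne_top _ _)
  · by_contra hne
    apply sq_div hlam h0 K hK hA
    have h1 := ENNReal.summable_toReal hne
    refine h1.congr fun n => ?_
    rw [ENNReal.toReal_pow]
    rfl

end Q293.TreeWalk
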