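import Pool.Agent.Q293.PolyMart

/-!
# The biased walk on a plane tree
-/

set_option autoImplicit false
set_option linter.unusedSectionVars false

open Filter Topology Finset

namespace Q293.TreeWalk

open Q293.PolyRet Q293.Polymer

/-- words of the tree with offspring numbers `N`; the child `j` of `v` is `j :: v` -/
def InTree (N : List ℕ → ℕ) : List ℕ → Prop
  | [] => True
  | i :: v => InTree N v ∧ i < N v

/-- choice of the parent (`none`) or of a child -/
noncomputable def childPMF (lam : ℝ) (hlam : 0 < lam) (k : ℕ) : PMF (Option (Fin k)) :=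
  PMF.ofFintype (fun o => match o with
    | none => ENNReal.ofReal (lam / (lam + k))
    | some _ => ENNReal.ofReal (1 / (lam + k))) (by
      rw [Fintype.sum_option]
      simp only [Finset.sum_const, Finset.card_univ, Fintype.card_fin]
      rw [← ENNReal.ofReal_nsmul, ← ENNReal.ofReal_add (by positivity) (by positivity)]
      rw [nsmul_eq_mul]
      have : lam / (lam + k) + (k : ℝ) * (1 / (lam + k)) = 1 := by
        field_simp
      rw [this]; simp)

/-- one step of the biased walk -/
noncomputable def step (lam : ℝ) (hlam : 0 < lam) (N : List ℕ → ℕ) : List ℕ → PMF (List ℕ)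
  | [] => if h : 0 < N [] then
      have : Nonempty (Fin (N [])) := ⟨⟨0, h⟩⟩
      PMF.map (fun j : Fin (N []) => [(j : ℕ)]) (PMF.uniformOfFintype (Fin (N [])))
    else PMF.pure []
  | i :: v => PMF.map (fun o : Option (Fin (N (i :: v))) => match o with
    | none => v
    | some j => (j : ℕ) :: i :: v) (childPMF lam hlam (N (i :: v)))

variable {lam : ℝ} (hlam : 0 < lam) {N : List ℕ → ℕ}

lemma tsum_root (h0 : 0 < N []) (f : List ℕ → ENNReal) :
    ∑' y, step lam hlam N [] y * f y = ∑ j ∈ range (N []), ((N [] : ℕ) : ENNReal)⁻¹ * f [j] := by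
  rw [step, dif_pos h0, tsum_map, tsum_fintype]
  simp only [PMF.uniformOfFintype_apply, Fintype.card_fin]
  rw [Fin.sum_univ_eq_sum_range (fun j => ((N [] : ℕ) : ENNReal)⁻¹ * f [j])]

lemma tsum_node (i : ℕ) (v : List ℕ) (f : List ℕ → ENNReal) :
    ∑' y, step lam hlam N (i :: v) y * f y = ENNReal.ofReal (lam / (lam + N (i :: v))) * f v +
      ∑ j ∈ range (N (i :: v)), ENNReal.ofReal (1 / (lam + N (i :: v))) * f (j :: i :: v) := by
  rw [step, tsum_map, tsum_fintype, Fintype.sum_option]
  simp only [childPMF, PMF.ofFintype_apply]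
  rw [Fin.sum_univ_eq_sum_range
    (fun j => ENNReal.ofReal (1 / (lam + N (i :: v))) * f (j :: i :: v))]

lemma step_len (h0 : 0 < N []) (x y : List ℕ) (h : step lam hlam N x y ≠ 0) :
    y.length = x.length + 1 ∨ x.length = y.length + 1 := by
  rw [← PMF.mem_support_iff] at h
  rcases x with _ | ⟨i, v⟩
  · rw [step, dif_pos h0, PMF.support_map] at h
    obtain ⟨j, _, rfl⟩ := h
    left; rfl
  · rw [step, PMF.support_map] at h
    obtain ⟨o, _, rfl⟩ := h
    rcases o with _ | j
    · right; rfl
    · left; rfl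

lemma step_fin (x : List ℕ) : (step lam hlam N x).support.Finite := by
  rcases x with _ | ⟨i, v⟩
  · rw [step]
    split_ifs with h
    · rw [PMF.support_map]
      exact (Set.toFinite _).image _
    · rw [PMF.support_pure]; exact Set.finite_singleton _
  · rw [step, PMF.support_map]
    exact (Set.toFinite _).image _

/-- real averaging operator -/
noncomputable def A (lam : ℝ) (N : List ℕ → ℕ) (f : List ℕ → ℝ) : List ℕ → ℝ
  | [] => (∑ j ∈ range (N []), f [j]) / N []
  | i :: v => (lam * f v + ∑ j ∈ range (N (i :: v)), f (j :: i :: v)) / (lam + N (i :: v))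

/-- real return probabilities from every point -/
noncomputable def h (lam : ℝ) (hlam : 0 < lam) (N : List ℕ → ℕ) (n : ℕ) (x : List ℕ) : ℝ :=
  (p (step lam hlam N) [] n x).toReal

lemma h_zero (x : List ℕ) : h lam hlam N 0 x = if x = [] then 1 else 0 := by
  unfold h
  rw [p]
  split_ifs <;> simp

lemma h_succ (h0 : 0 < N []) (n : ℕ) : h lam hlam N (n + 1) = A lam N (h lam hlam N n) := by
  have hne : ∀ z, p (step lam hlam N) [] n z ≠ ⊤ := fun z => p_ne_top n z
  funext x
  unfold h
  rcases x with _ | ⟨i, v⟩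
  · rw [p, tsum_root hlam h0, A, ENNReal.toReal_sum, Finset.sum_div]
    · apply Finset.sum_congr rfl
      intro j _
      rw [ENNReal.toReal_mul, ENNReal.toReal_inv, ENNReal.toReal_natCast]
      ring
    · intro j _
      exact ENNReal.mul_ne_top (ENNReal.inv_ne_top.2 (by exact_mod_cast h0.ne')) (hne _)
  · rw [p, tsum_node hlam, A, ENNReal.toReal_add, ENNReal.toReal_mul,
      ENNReal.toReal_ofReal (by positivity), ENNReal.toReal_sum]
    · have : ∀ j ∈ range (N (i :: v)), (ENNReal.ofReal (1 / (lam + N (i :: v))) *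
          p (step lam hlam N) [] n (j :: i :: v)).toReal
          = 1 / (lam + N (i :: v)) * (p (step lam hlam N) [] n (j :: i :: v)).toReal := by
        intro j _
        rw [ENNReal.toReal_mul, ENNReal.toReal_ofReal (by positivity)]
      rw [Finset.sum_congr rfl this, ← Finset.mul_sum]
      field_simp
    · intro j _
      exact ENNReal.mul_ne_top ENNReal.ofReal_ne_top (hne _)
    · exact ENNReal.mul_ne_top ENNReal.ofReal_ne_top (hne _)
    · apply ENNReal.sum_ne_top.2
      intro j _
      exact ENNReal.mul_ne_top ENNReal.ofReal_ne_top (hne _)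

lemma h_nonneg (n : ℕ) (x : List ℕ) : 0 ≤ h lam hlam N n x := ENNReal.toReal_nonneg

lemma h_supp (h0 : 0 < N []) (n : ℕ) : ∀ x : List ℕ, n < x.length → h lam hlam N n x = 0 := by
  induction n with
  | zero =>
    intro x hx
    rw [h_zero, if_neg]
    rintro rfl
    simp at hx
  | succ n ih =>
    intro x hx
    rw [h_succ hlam h0]
    rcases x with _ | ⟨i, v⟩
    · simp at hx
    · rw [A, ih v (by simp at hx; omega)]
      rw [Finset.sum_eq_zero]
      · simp
      · intro j _
        exact ih _ (by simp at hx ⊢; omega)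

/-- levels of the tree -/
def level (N : List ℕ → ℕ) : ℕ → Finset (List ℕ)
  | 0 => {[]}
  | k + 1 => (level N k).biUnion fun v => (range (N v)).image fun j => j :: v

lemma sum_level_succ (k : ℕ) (F : List ℕ → ℝ) :
    ∑ x ∈ level N (k + 1), F x = ∑ v ∈ level N k, ∑ j ∈ range (N v), F (j :: v) := by
  rw [level, Finset.sum_biUnion]
  · apply Finset.sum_congr rfl
    intro v _
    rw [Finset.sum_image]
    intro a _ b _ hab
    simpa using hab
  · intro v _ w _ hvw
    rw [Function.onFun, Finset.disjoint_left]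
    intro x hx hx2
    rw [Finset.mem_image] at hx hx2
    obtain ⟨a, _, rfl⟩ := hx
    obtain ⟨b, _, hb⟩ := hx2
    simp only [List.cons.injEq] at hb
    exact hvw hb.2.symm

lemma level_len (k : ℕ) : ∀ x ∈ level N k, x.length = k := by
  induction k with
  | zero => intro x hx; simp [level] at hx; subst hx; rfl
  | succ k ih =>
    intro x hx
    rw [level, Finset.mem_biUnion] at hx
    obtain ⟨v, hv, hx⟩ := hx
    rw [Finset.mem_image] at hx
    obtain ⟨j, _, rfl⟩ := hx
    simp [ih v hv]

lemma mem_level (k : ℕ) : ∀ x : List ℕ, x ∈ level N k ↔ InTree N x ∧ x.length = k := by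
  induction k with
  | zero =>
    intro x
    simp only [level, Finset.mem_singleton]
    constructor
    · rintro rfl; exact ⟨trivial, rfl⟩
    · rintro ⟨_, h⟩; exact List.length_eq_zero_iff.1 h
  | succ k ih =>
    intro x
    rw [level, Finset.mem_biUnion]
    constructor
    · rintro ⟨v, hv, hx⟩
      rw [Finset.mem_image] at hx
      obtain ⟨j, hj, rfl⟩ := hx
      rw [ih] at hv
      exact ⟨⟨hv.1, Finset.mem_range.1 hj⟩, by simp [hv.2]⟩
    · rintro ⟨hx, hl⟩
      rcases x with _ | ⟨j, v⟩
      · simp at hl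
      · refine ⟨v, (ih v).2 ⟨hx.1, by simpa using hl⟩, ?_⟩
        rw [Finset.mem_image]
        exact ⟨j, Finset.mem_range.2 hx.2, rfl⟩

/-- reversible measure -/
noncomputable def pi (lam : ℝ) (N : List ℕ → ℕ) : List ℕ → ℝ
  | [] => N []
  | i :: v => (lam⁻¹) ^ (v.length + 1) * (lam + N (i :: v))

/-- truncated inner product -/
noncomputable def ip (lam : ℝ) (N : List ℕ → ℕ) (R : ℕ) (f g : List ℕ → ℝ) : ℝ :=
  ∑ k ∈ range R, ∑ x ∈ level N k, pi lam N x * f x * g x

/-- truncated energy -/
noncomputable def En (lam : ℝ) (N : List ℕ → ℕ) (R : ℕ) (f g : List ℕ → ℝ) : ℝ :=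
  ∑ k ∈ range R, (lam⁻¹) ^ k * ∑ v ∈ level N k, ∑ j ∈ range (N v),
    (f v - f (j :: v)) * (g v - g (j :: v))

include hlam in
lemma lap_root (f : List ℕ → ℝ) : pi lam N [] * (f [] - A lam N f [])
    = ∑ j ∈ range (N []), (f [] - f [j]) := by
  rw [pi, A, Finset.sum_sub_distrib, Finset.sum_const, Finset.card_range, nsmul_eq_mul]
  by_cases h0 : (N [] : ℝ) = 0
  · have h1 : N [] = 0 := by exact_mod_cast h0
    simp [h1]
  · field_simp

include hlam in
lemma lap_node (f : List ℕ → ℝ) (i : ℕ) (v : List ℕ) :
    pi lam N (i :: v) * (f (i :: v) - A lam N f (i :: v))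
    = (lam⁻¹) ^ v.length * (f (i :: v) - f v) +
      (lam⁻¹) ^ (v.length + 1) * ∑ j ∈ range (N (i :: v)), (f (i :: v) - f (j :: i :: v)) := by
  rw [pi, A, Finset.sum_sub_distrib, Finset.sum_const, Finset.card_range, nsmul_eq_mul]
  have h1 : (lam + (N (i :: v) : ℝ)) ≠ 0 := by positivity
  have h2 : lam ≠ 0 := hlam.ne'
  rw [pow_succ]
  field_simp
  ring

include hlam in
/-- summation by parts -/
lemma green (f g : List ℕ → ℝ) (R : ℕ) :
    ∑ k ∈ range (R + 1), ∑ x ∈ level N k, pi lam N x * (f x - A lam N f x) * g x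
      = En lam N R f g + (lam⁻¹) ^ R * ∑ v ∈ level N R, ∑ j ∈ range (N v),
        (f v - f (j :: v)) * g v := by
  induction R with
  | zero =>
    simp only [Finset.sum_range_one, level, Finset.sum_singleton, En,
      Finset.sum_range_zero, pow_zero, one_mul, zero_add]
    rw [lap_root hlam, Finset.sum_mul]
  | succ R ih =>
    rw [Finset.sum_range_succ, ih]
    unfold En
    rw [Finset.sum_range_succ, sum_level_succ, sum_level_succ]
    have h1 : ∀ v ∈ level N R, ∑ j ∈ range (N v), pi lam N (j :: v) *
        (f (j :: v) - A lam N f (j :: v)) * g (j :: v)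
        = (lam⁻¹) ^ R * (∑ j ∈ range (N v), (f (j :: v) - f v) * g (j :: v)) +
          (lam⁻¹) ^ (R + 1) * ∑ j ∈ range (N v), ∑ i ∈ range (N (j :: v)),
            (f (j :: v) - f (i :: j :: v)) * g (j :: v) := by
      intro v hv
      rw [Finset.mul_sum, Finset.mul_sum, ← Finset.sum_add_distrib]
      apply Finset.sum_congr rfl
      intro j _
      rw [lap_node hlam, level_len R v hv, ← Finset.sum_mul]
      ring
    rw [Finset.sum_congr rfl h1, Finset.sum_add_distrib, ← Finset.mul_sum, ← Finset.mul_sum]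
    have h2 : (lam⁻¹) ^ R * ∑ v ∈ level N R, ∑ j ∈ range (N v), (f v - f (j :: v)) * g v +
        (lam⁻¹) ^ R * ∑ v ∈ level N R, ∑ j ∈ range (N v), (f (j :: v) - f v) * g (j :: v)
        = (lam⁻¹) ^ R * ∑ v ∈ level N R, ∑ j ∈ range (N v),
          (f v - f (j :: v)) * (g v - g (j :: v)) := by
      rw [← mul_add, ← Finset.sum_add_distrib]
      congr 1
      apply Finset.sum_congr rfl
      intro v _
      rw [← Finset.sum_add_distrib]
      apply Finset.sum_congr rfl
      intro j _
      ring
    linarith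

include hlam in
lemma ip_lap (f g : List ℕ → ℝ) (R : ℕ) (hg : ∀ x ∈ level N R, g x = 0) :
    ip lam N (R + 1) f g - ip lam N (R + 1) (A lam N f) g = En lam N R f g := by
  have h1 := green hlam (N := N) f g R
  have h2 : ∑ v ∈ level N R, ∑ j ∈ range (N v), (f v - f (j :: v)) * g v = 0 := by
    apply Finset.sum_eq_zero
    intro v hv
    rw [hg v hv]
    simp
  rw [h2, mul_zero, add_zero] at h1
  rw [← h1]
  unfold ip
  rw [← Finset.sum_sub_distrib]
  apply Finset.sum_congr rfl
  intro k _
  rw [← Finset.sum_sub_distrib]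
  apply Finset.sum_congr rfl
  intro x _
  ring

lemma En_symm (f g : List ℕ → ℝ) (R : ℕ) : En lam N R f g = En lam N R g f := by
  unfold En
  simp only [mul_comm]

lemma ip_symm (f g : List ℕ → ℝ) (R : ℕ) : ip lam N R f g = ip lam N R g f := by
  unfold ip
  apply Finset.sum_congr rfl
  intro k _
  apply Finset.sum_congr rfl
  intro x _
  ring

include hlam in
lemma pi_nonneg (x : List ℕ) : 0 ≤ pi lam N x := by
  rcases x with _ | ⟨i, v⟩ <;> unfold pi <;> positivity

/-- correlation of the return probabilities -/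
lemma ip_h (h0 : 0 < N []) (R a : ℕ) : ∀ b, a + b < R →
    ip lam N (R + 1) (h lam hlam N a) (h lam hlam N b) = N [] * h lam hlam N (a + b) [] := by
  induction a with
  | zero =>
    intro b _
    unfold ip
    rw [Finset.sum_range_succ']
    rw [Finset.sum_eq_zero]
    · rw [zero_add, level, Finset.sum_singleton, h_zero, if_pos rfl, pi]
      simp
    · intro k _
      apply Finset.sum_eq_zero
      intro x hx
      have := level_len _ x hx
      rw [h_zero, if_neg (by rintro rfl; simp at this)]
      ring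
  | succ a ih =>
    intro b hab
    have ha : ∀ x ∈ level N R, h lam hlam N a x = 0 := fun x hx =>
      h_supp hlam h0 a x (by rw [level_len R x hx]; omega)
    have hb : ∀ x ∈ level N R, h lam hlam N b x = 0 := fun x hx =>
      h_supp hlam h0 b x (by rw [level_len R x hx]; omega)
    have e1 := ip_lap hlam (N := N) (h lam hlam N a) (h lam hlam N b) R hb
    have e2 := ip_lap hlam (N := N) (h lam hlam N b) (h lam hlam N a) R ha
    rw [En_symm] at e2
    rw [← h_succ hlam h0] at e1 e2
    have e3 := ih (b + 1) (by omega)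
    rw [ip_symm (h lam hlam N b) (h lam hlam N a)] at e2
    rw [ip_symm (h lam hlam N (b + 1)) (h lam hlam N a)] at e2
    have e4 : a + 1 + b = a + (b + 1) := by ring
    rw [e4]
    linarith

end Q293.TreeWalk
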